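import Mathlib.Tactic
import Mathlib.Data.Nat.Nth
import Mathlib.Order.Filter.AtTopBot.Basic
import Mathlib.Algebra.BigOperators.Intervals
import Mathlib.Data.Int.Interval

/-!
# Rotor walks on `ℤ²` with all rotors initially North: definitions

The rotor mechanism is clockwise (North, East, South, West, North, ...).  The particle first steps
in the direction of the current rotor, and then that rotor turns.
-/

open Filter

namespace RotorNE

/-- The four cardinal directions. -/
inductive Dir
  | N | E | S | W
  deriving DecidableEq, Inhabited

/-- The clockwise rotation of a rotor. -/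
def Dir.next : Dir → Dir
  | .N => .E
  | .E => .S
  | .S => .W
  | .W => .N

/-- The unit vector of a direction. -/
def Dir.vec : Dir → ℤ × ℤ
  | .N => (0, 1)
  | .E => (1, 0)
  | .S => (0, -1)
  | .W => (-1, 0)

/-- A particle position and a rotor configuration. -/
structure State where
  pos : ℤ × ℤ
  rot : ℤ × ℤ → Dir

/-- One step of rotor walk: the particle moves in the direction of the rotor at its position,
and then this rotor turns clockwise. -/
def step (s : State) : State :=
  ⟨s.pos + (s.rot s.pos).vec, Function.update s.rot s.pos (s.rot s.pos).next⟩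

/-- Rotor walk from the origin with initial configuration `ρ`, after `k` steps. -/
def walk (ρ : ℤ × ℤ → Dir) (k : ℕ) : State := step^[k] ⟨0, ρ⟩

/-- The rotor walk from the origin returns to the origin. -/
def Returns (ρ : ℤ × ℤ → Dir) : Prop := ∃ k, 0 < k ∧ (walk ρ k).pos = 0

/-- The rotor walk from the origin escapes to infinity: it never returns to the origin and visits
every vertex only finitely often. -/
def Escapes (ρ : ℤ × ℤ → Dir) : Prop :=
  ¬ Returns ρ ∧ ∀ p : ℤ × ℤ, {k : ℕ | (walk ρ k).pos = p}.Finite

open Classical in
/-- The eventual value of the rotor at `p` along the whole rotor walk (if there is one). -/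
noncomputable def limRot (ρ : ℤ × ℤ → Dir) (p : ℤ × ℤ) : Dir :=
  if h : ∃ d, ∀ᶠ k in atTop, (walk ρ k).rot p = d then h.choose else Dir.N

open Classical in
/-- The configuration left behind by one particle: the configuration at the first return to the
origin if the walk returns, and the eventual configuration otherwise. -/
noncomputable def after (ρ : ℤ × ℤ → Dir) : ℤ × ℤ → Dir :=
  if h : Returns ρ then (walk ρ (Nat.find h)).rot else limRot ρ

/-- The configuration after `j` particles, starting with all rotors North. -/
noncomputable def conf : ℕ → ℤ × ℤ → Dir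
  | 0 => fun _ => Dir.N
  | j + 1 => after (conf j)

/-- Particle number `j` (`j = 0, 1, 2, ...`) escapes to infinity. -/
def EscAt (j : ℕ) : Prop := Escapes (conf j)

/-- `rho n` (for `n ≥ 1`) is the configuration just after the `n`-th escaping particle has
escaped: `Nat.nth EscAt (n - 1)` is the index of the `n`-th escaping particle. -/
noncomputable def rho (n : ℕ) : ℤ × ℤ → Dir := conf (Nat.nth EscAt (n - 1) + 1)

/-! ## Odometers -/

/-- The direction of a rotor that has been used `k` times (it started North). -/
def dirOf (k : ℕ) : Dir :=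
  if k % 4 = 0 then .N else if k % 4 = 1 then .E else if k % 4 = 2 then .S else .W

/-- The number of entries into `(x, y)` from its four neighbours when every site `(x', y')` has
been exited `u x' y'` times. -/
def F (u : ℤ → ℤ → ℕ) (x y : ℤ) : ℕ :=
  (u x (y - 1) + 3) / 4 + (u (x - 1) y + 2) / 4 + (u x (y + 1) + 1) / 4 + u (x + 1) y / 4

/-- `u` is the odometer of the process after `M` particles; `[l, r)` is the set of visited
columns. -/
structure Odo (M : ℕ) (l r : ℤ) (u : ℤ → ℤ → ℕ) : Prop where
  bal : ∀ x y, ¬ (x = 0 ∧ y = 0) → F u x y = u x y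
  orig : u 0 0 = M
  least : ∀ G : ℤ → ℤ → ℕ, (∀ x y, ¬ (x = 0 ∧ y = 0) → F G x y ≤ G x y) → M ≤ G 0 0 →
    ∀ x y, u x y ≤ G x y
  hl : l ≤ 0
  hr : 0 ≤ r
  hr0 : r = 0 → l = 0 ∧ M = 0
  off : ∀ x y, (x < l ∨ r ≤ x) → u x y = 0
  far : ∃ Y : ℤ, ∀ x y, l ≤ x → x < r → Y ≤ y → u x y = 1

end RotorNE
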