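import Mathlib.Tactic
import Mathlib.Data.Nat.Nth
import Mathlib.Order.Filter.AtTopBot.Basic
import Mathlib.Algebra.BigOperators.Intervals
import Mathlib.Data.Int.Interval
import Pool.Agent.Lib.MP_936783_pr.Defs

/-!
# From the rotor walk to the odometer
-/

open Filter

namespace RotorNE

/-! ### Elementary facts on `dirOf`, `F` -/

theorem dirOf_succ (k : ℕ) : dirOf (k + 1) = (dirOf k).next := by
  have h : k % 4 = 0 ∨ k % 4 = 1 ∨ k % 4 = 2 ∨ k % 4 = 3 := by omega
  rcases h with h | h | h | h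
  · have h' : (k + 1) % 4 = 1 := by omega
    simp [dirOf, h, h', Dir.next]
  · have h' : (k + 1) % 4 = 2 := by omega
    simp [dirOf, h, h', Dir.next]
  · have h' : (k + 1) % 4 = 3 := by omega
    simp [dirOf, h, h', Dir.next]
  · have h' : (k + 1) % 4 = 0 := by omega
    simp [dirOf, h, h', Dir.next]

theorem F_mono {u v : ℤ → ℤ → ℕ} (h : ∀ x y, u x y ≤ v x y) (x y : ℤ) : F u x y ≤ F v x y := by
  unfold F
  have h1 := h x (y - 1)
  have h2 := h (x - 1) y
  have h3 := h x (y + 1)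
  have h4 := h (x + 1) y
  omega

/-- Add one exit at `(a, b)`. -/
def bump (u : ℤ → ℤ → ℕ) (a b : ℤ) : ℤ → ℤ → ℕ :=
  fun x y => if x = a ∧ y = b then u x y + 1 else u x y

theorem F_bump (u : ℤ → ℤ → ℕ) (a b x y : ℤ) :
    F (bump u a b) x y = F u x y +
      (if x = a + (dirOf (u a b)).vec.1 ∧ y = b + (dirOf (u a b)).vec.2 then 1 else 0) := by
  have h : u a b % 4 = 0 ∨ u a b % 4 = 1 ∨ u a b % 4 = 2 ∨ u a b % 4 = 3 := by omega
  unfold F bump
  by_cases h1 : x = a ∧ y - 1 = b
  · obtain ⟨rfl, rfl⟩ := h1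
    have e2 : ¬ (x - 1 = x ∧ y = y - 1) := by omega
    have e3 : ¬ (x = x ∧ y + 1 = y - 1) := by omega
    have e4 : ¬ (x + 1 = x ∧ y = y - 1) := by omega
    rw [if_pos ⟨rfl, rfl⟩, if_neg e2, if_neg e3, if_neg e4]
    rcases h with h | h | h | h <;> simp [dirOf, h, Dir.vec] <;> (try split_ifs) <;> omega
  · rw [if_neg h1]
    by_cases h2 : x - 1 = a ∧ y = b
    · obtain ⟨rfl, rfl⟩ := h2
      have e3 : ¬ (x = x - 1 ∧ y + 1 = y) := by omega
      have e4 : ¬ (x + 1 = x - 1 ∧ y = y) := by omega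
      rw [if_pos ⟨rfl, rfl⟩, if_neg e3, if_neg e4]
      rcases h with h | h | h | h <;> simp [dirOf, h, Dir.vec] <;> (try split_ifs) <;> omega
    · rw [if_neg h2]
      by_cases h3 : x = a ∧ y + 1 = b
      · obtain ⟨rfl, rfl⟩ := h3
        have e4 : ¬ (x + 1 = x ∧ y = y + 1) := by omega
        rw [if_pos ⟨rfl, rfl⟩, if_neg e4]
        rcases h with h | h | h | h <;> simp [dirOf, h, Dir.vec] <;> (try split_ifs) <;> omega
      · rw [if_neg h3]
        by_cases h4 : x + 1 = a ∧ y = b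
        · obtain ⟨rfl, rfl⟩ := h4
          rw [if_pos ⟨rfl, rfl⟩]
          rcases h with h | h | h | h <;> simp [dirOf, h, Dir.vec] <;> (try split_ifs) <;> omega
        · rw [if_neg h4]
          rcases h with h | h | h | h <;> simp [dirOf, h, Dir.vec] <;> (try split_ifs) <;> omega

/-! ### The walk in terms of odometers -/

/-- Position and odometer. -/
structure OS where
  x : ℤ
  y : ℤ
  U : ℤ → ℤ → ℕ

/-- One step, in terms of the odometer. -/
def ostep (s : OS) : OS :=
  ⟨s.x + (dirOf (s.U s.x s.y)).vec.1, s.y + (dirOf (s.U s.x s.y)).vec.2, bump s.U s.x s.y⟩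

/-- The walk from the origin, started with odometer `u`. -/
def orun (u : ℤ → ℤ → ℕ) (k : ℕ) : OS := ostep^[k] ⟨0, 0, u⟩

/-- The configuration of an odometer. -/
def confOf (u : ℤ → ℤ → ℕ) : ℤ × ℤ → Dir := fun p => dirOf (u p.1 p.2)

theorem orun_zero (u : ℤ → ℤ → ℕ) : orun u 0 = ⟨0, 0, u⟩ := rfl

theorem orun_succ (u : ℤ → ℤ → ℕ) (k : ℕ) : orun u (k + 1) = ostep (orun u k) := by
  unfold orun
  rw [Function.iterate_succ_apply']

theorem orun_succ_x (u : ℤ → ℤ → ℕ) (k : ℕ) : (orun u (k + 1)).x =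
    (orun u k).x + (dirOf ((orun u k).U (orun u k).x (orun u k).y)).vec.1 := by
  rw [orun_succ]; rfl

theorem orun_succ_y (u : ℤ → ℤ → ℕ) (k : ℕ) : (orun u (k + 1)).y =
    (orun u k).y + (dirOf ((orun u k).U (orun u k).x (orun u k).y)).vec.2 := by
  rw [orun_succ]; rfl

theorem orun_succ_U (u : ℤ → ℤ → ℕ) (k : ℕ) : (orun u (k + 1)).U =
    bump (orun u k).U (orun u k).x (orun u k).y := by
  rw [orun_succ]; rfl

theorem walk_succ (ρ : ℤ × ℤ → Dir) (k : ℕ) : walk ρ (k + 1) = step (walk ρ k) := by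
  unfold walk
  rw [Function.iterate_succ_apply']

theorem walk_confOf (u : ℤ → ℤ → ℕ) (k : ℕ) :
    walk (confOf u) k = ⟨((orun u k).x, (orun u k).y), confOf (orun u k).U⟩ := by
  induction k with
  | zero => rfl
  | succ k ih =>
    rw [walk_succ, ih, orun_succ]
    unfold step ostep
    simp only [State.mk.injEq]
    refine ⟨by simp [confOf, Prod.ext_iff], ?_⟩
    funext p
    obtain ⟨a, b⟩ := p
    simp only [confOf, bump, Function.update_apply, Prod.mk.injEq]
    by_cases h : a = (orun u k).x ∧ b = (orun u k).y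
    · rw [if_pos h, if_pos h, dirOf_succ]
      obtain ⟨h1, h2⟩ := h
      rw [h1, h2]
    · rw [if_neg h, if_neg h]

theorem vec1_le (d : Dir) : -1 ≤ d.vec.1 ∧ d.vec.1 ≤ 1 := by
  cases d <;> simp [Dir.vec]

theorem vec2_le (d : Dir) : -1 ≤ d.vec.2 ∧ d.vec.2 ≤ 1 := by
  cases d <;> simp [Dir.vec]

/-- Conservation of particles. -/
theorem orun_bal {u : ℤ → ℤ → ℕ} (hu : ∀ x y, ¬ (x = 0 ∧ y = 0) → F u x y = u x y) (k : ℕ) :
    ∀ x y, ¬ (x = 0 ∧ y = 0) → F (orun u k).U x y =
      (orun u k).U x y + (if x = (orun u k).x ∧ y = (orun u k).y then 1 else 0) := by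
  induction k with
  | zero =>
    intro x y h
    change F u x y = u x y + (if x = (0 : ℤ) ∧ y = (0 : ℤ) then 1 else 0)
    rw [hu x y h, if_neg h, add_zero]
  | succ k ih =>
    intro x y h
    rw [orun_succ_U, F_bump, ih x y h, ← orun_succ_x, ← orun_succ_y]
    congr 1
    unfold bump
    split_ifs <;> rfl

/-- The least action principle, along the walk before it returns. -/
theorem orun_le {u G : ℤ → ℤ → ℕ} (hu : ∀ x y, ¬ (x = 0 ∧ y = 0) → F u x y = u x y)
    (huG : ∀ x y, u x y ≤ G x y) (hG : ∀ x y, ¬ (x = 0 ∧ y = 0) → F G x y ≤ G x y)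
    (h0 : u 0 0 < G 0 0) (k : ℕ)
    (hk : ∀ i, 0 < i → i < k → ¬ ((orun u i).x = 0 ∧ (orun u i).y = 0)) :
    ∀ x y, (orun u k).U x y ≤ G x y := by
  induction k with
  | zero => exact huG
  | succ k ih =>
    have ih' := ih (fun i hi hik => hk i hi (by omega))
    intro x y
    rw [orun_succ_U]
    unfold bump
    split_ifs with h
    · rcases Nat.eq_zero_or_pos k with h0k | h0k
      · subst h0k
        simp only [orun_zero] at h ⊢
        rw [h.1, h.2]
        exact h0
      · have hne := hk k h0k (by omega)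
        have hb := orun_bal hu k (orun u k).x (orun u k).y hne
        rw [if_pos ⟨rfl, rfl⟩] at hb
        rw [h.1, h.2, ← hb]
        exact (F_mono ih' _ _).trans (hG _ _ hne)
    · exact ih' x y

theorem orun_mono {u : ℤ → ℤ → ℕ} (k : ℕ) : ∀ x y, u x y ≤ (orun u k).U x y := by
  induction k with
  | zero => intro x y; exact le_refl _
  | succ k ih =>
    intro x y
    rw [orun_succ_U]
    unfold bump
    have := ih x y
    split_ifs <;> omega

theorem orun_mono' {u : ℤ → ℤ → ℕ} {k m : ℕ} (hkm : k ≤ m) :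
    ∀ x y, (orun u k).U x y ≤ (orun u m).U x y := by
  induction m, hkm using Nat.le_induction with
  | base => intro x y; exact le_refl _
  | succ m _ ih =>
    intro x y
    rw [orun_succ_U]
    unfold bump
    have := ih x y
    split_ifs <;> omega

/-- A site that is not visited keeps its odometer. -/
theorem orun_unvisited {u : ℤ → ℤ → ℕ} (x y : ℤ) (k : ℕ)
    (h : ∀ i, i < k → ¬ (x = (orun u i).x ∧ y = (orun u i).y)) :
    (orun u k).U x y = u x y := by
  induction k with
  | zero => rfl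
  | succ k ih =>
    rw [orun_succ_U]
    unfold bump
    rw [if_neg (h k (by omega))]
    exact ih (fun i hi => h i (by omega))

theorem orun_y_le {u : ℤ → ℤ → ℕ} (k : ℕ) : (orun u k).y ≤ k := by
  induction k with
  | zero => simp [orun_zero]
  | succ k ih =>
    rw [orun_succ_y]
    have := (vec2_le (dirOf ((orun u k).U (orun u k).x (orun u k).y))).2
    push_cast
    omega

theorem orun_origin {u : ℤ → ℤ → ℕ} (k : ℕ) (hk0 : 0 < k)
    (hk : ∀ i, 0 < i → i < k → ¬ ((orun u i).x = 0 ∧ (orun u i).y = 0)) :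
    (orun u k).U 0 0 = u 0 0 + 1 := by
  induction k with
  | zero => omega
  | succ k ih =>
    rw [orun_succ_U]
    unfold bump
    rcases Nat.eq_zero_or_pos k with h0k | h0k
    · subst h0k
      simp [orun_zero]
    · have hne := hk k h0k (by omega)
      rw [if_neg (fun h => hne ⟨h.1.symm, h.2.symm⟩)]
      exact ih h0k (fun i hi hik => hk i hi (by omega))

/-! ### The barrier `4 (y + B) + 1` -/

/-- An exact one-dimensional solution. -/
def barrier (B : ℕ) (_x y : ℤ) : ℕ := (4 * (y + B) + 1).toNat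

theorem F_barrier (B : ℕ) (x y : ℤ) : F (barrier B) x y = barrier B x y := by
  unfold F barrier
  rcases lt_trichotomy (y + B) 0 with h | h | h
  · have e1 : (4 * (y - 1 + B) + 1 : ℤ).toNat = 0 := by omega
    have e2 : (4 * (y + B) + 1 : ℤ).toNat = 0 := by omega
    have e3 : (4 * (y + 1 + B) + 1 : ℤ).toNat ≤ 1 := by omega
    omega
  · have e1 : (4 * (y - 1 + B) + 1 : ℤ).toNat = 0 := by omega
    have e2 : (4 * (y + B) + 1 : ℤ).toNat = 1 := by omega
    have e3 : (4 * (y + 1 + B) + 1 : ℤ).toNat = 5 := by omega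
    omega
  · obtain ⟨t, ht⟩ : ∃ t : ℕ, y + B = t + 1 := ⟨(y + B - 1).toNat, by omega⟩
    have e1 : (4 * (y - 1 + B) + 1 : ℤ).toNat = 4 * t + 1 := by omega
    have e2 : (4 * (y + B) + 1 : ℤ).toNat = 4 * t + 5 := by omega
    have e3 : (4 * (y + 1 + B) + 1 : ℤ).toNat = 4 * t + 9 := by omega
    omega

theorem Odo.le_barrier {M : ℕ} {l r : ℤ} {u : ℤ → ℤ → ℕ} (h : Odo M l r u) {B : ℕ} (hB : M ≤ B)
    (x y : ℤ) : u x y ≤ barrier B x y := by
  refine h.least _ (fun x y _ => (F_barrier B x y).le) ?_ x y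
  unfold barrier
  omega

theorem Odo.low {M : ℕ} {l r : ℤ} {u : ℤ → ℤ → ℕ} (h : Odo M l r u) {x y : ℤ} (hy : y < -M) :
    u x y = 0 := by
  have := h.le_barrier (le_refl M) x y
  unfold barrier at this
  omega

/-! ### The initial odometer -/

theorem odo_zero : Odo 0 0 0 (fun _ _ => 0) where
  bal := by intro x y _; simp [F]
  orig := rfl
  least := by intro G _ _ x y; exact Nat.zero_le _
  hl := le_refl _
  hr := le_refl _
  hr0 := fun _ => ⟨rfl, rfl⟩
  off := fun _ _ _ => rfl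
  far := ⟨0, fun x y h1 h2 _ => by omega⟩

end RotorNE
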