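import Mathlib.Tactic
import Mathlib.Data.Nat.Nth
import Mathlib.Order.Filter.AtTopBot.Basic
import Mathlib.Algebra.BigOperators.Intervals
import Mathlib.Data.Int.Interval
import Pool.Agent.Lib.MP_936783_pr.Basic

/-!
# One particle
-/

open Filter

namespace RotorNE

theorem dirOf_zero : dirOf 0 = Dir.N := rfl
theorem dirOf_one : dirOf 1 = Dir.E := rfl

theorem sum_orun (u : ℤ → ℤ → ℕ) (B : Finset (ℤ × ℤ)) (k : ℕ)
    (hB : ∀ i, i < k → ((orun u i).x, (orun u i).y) ∈ B) :
    ∑ p ∈ B, (orun u k).U p.1 p.2 = ∑ p ∈ B, u p.1 p.2 + k := by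
  induction k with
  | zero => simp [orun_zero]
  | succ k ih =>
    rw [orun_succ_U]
    have : ∀ p : ℤ × ℤ, bump (orun u k).U (orun u k).x (orun u k).y p.1 p.2 =
        (orun u k).U p.1 p.2 + (if ((orun u k).x, (orun u k).y) = p then 1 else 0) := by
      intro p
      unfold bump
      by_cases h : ((orun u k).x, (orun u k).y) = p
      · rw [if_pos h, ← h]; simp
      · rw [if_neg h, if_neg (fun h' => h (Prod.ext h'.1.symm h'.2.symm))]; rfl
    simp only [this]
    rw [Finset.sum_add_distrib, ih (fun i hi => hB i (by omega)), Finset.sum_ite_eq,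
      if_pos (hB k (by omega))]
    ring

/-- The particle returns to the origin or enters a new column. -/
theorem Odo.exists_exit {M : ℕ} {l r : ℤ} {u : ℤ → ℤ → ℕ} (h : Odo M l r u) :
    ∃ k, ¬ (l ≤ (orun u k).x ∧ (orun u k).x < r) ∨
      (0 < k ∧ (orun u k).x = 0 ∧ (orun u k).y = 0) := by
  by_contra hcon
  push Not at hcon
  have hin : ∀ k, l ≤ (orun u k).x ∧ (orun u k).x < r := fun k => (hcon k).1
  have hnr : ∀ k, 0 < k → ¬ ((orun u k).x = 0 ∧ (orun u k).y = 0) :=
    fun k hk h' => (hcon k).2 hk h'.1 h'.2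
  have hle : ∀ k x y, (orun u k).U x y ≤ barrier (M + 1) x y := by
    intro k
    refine orun_le h.bal (h.le_barrier (by omega)) (fun x y _ => (F_barrier _ x y).le) ?_ k
      (fun i hi _ => hnr i hi)
    rw [h.orig]
    unfold barrier
    omega
  have hlow : ∀ k, -(M + 1 : ℤ) ≤ (orun u k).y := by
    intro k
    have h1 := hle (k + 1) (orun u k).x (orun u k).y
    rw [orun_succ_U] at h1
    unfold bump at h1
    rw [if_pos ⟨rfl, rfl⟩] at h1
    unfold barrier at h1
    push_cast at h1
    omega
  obtain ⟨Y, hY⟩ := h.far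
  have hup : ∀ k, (orun u k).y < Y := by
    by_contra hc
    push Not at hc
    classical
    have hk := Nat.find_spec hc
    have hmin : ∀ i, i < Nat.find hc → (orun u i).y < Y := fun i hi => by
      have := Nat.find_min hc hi
      omega
    generalize Nat.find hc = k at hk hmin
    have hrun : ∀ i : ℕ, (orun u k).x + i ≤ r → (orun u (k + i)).x = (orun u k).x + i ∧
        (orun u (k + i)).y = (orun u k).y ∧
        ∀ x', (orun u k).x + i ≤ x' → x' < r → (orun u (k + i)).U x' (orun u k).y = 1 := by
      intro i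
      induction i with
      | zero =>
        intro _
        refine ⟨by simp, rfl, ?_⟩
        intro x' hx' hx'r
        have hk1 := (hin k).1
        rw [show k + 0 = k from rfl, orun_unvisited x' (orun u k).y k ?_]
        · exact hY _ _ (by push_cast at hx'; omega) hx'r hk
        · intro i hi hc
          have := hmin i hi
          omega
      | succ i ih =>
        intro hi
        push_cast at hi ⊢
        obtain ⟨e1, e2, e3⟩ := ih (by omega)
        have e4 := e3 ((orun u k).x + i) (le_refl _) (by omega)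
        have ex := orun_succ_x u (k + i)
        have ey := orun_succ_y u (k + i)
        rw [e1, e2, e4, dirOf_one] at ex
        rw [e1, e2, e4, dirOf_one] at ey
        simp only [Dir.vec] at ex ey
        refine ⟨by rw [← add_assoc, ex]; ring, by rw [← add_assoc, ey]; ring, ?_⟩
        intro x' hx' hx'r
        rw [← add_assoc, orun_succ_U]
        unfold bump
        rw [if_neg (by rw [e1]; omega)]
        exact e3 x' (by omega) hx'r
    have hk' := hin k
    obtain ⟨e1, -, -⟩ := hrun ((r - (orun u k).x).toNat) (by omega)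
    have := (hin (k + (r - (orun u k).x).toNat)).2
    omega
  have hmem : ∀ k, ((orun u k).x, (orun u k).y) ∈
      (Finset.Ico l r ×ˢ Finset.Ico (-(M + 1 : ℤ)) Y) := by
    intro k
    simp only [Finset.mem_product, Finset.mem_Ico]
    exact ⟨hin k, hlow k, hup k⟩
  have hs := sum_orun u _ (∑ p ∈ (Finset.Ico l r ×ˢ Finset.Ico (-(M + 1 : ℤ)) Y),
    barrier (M + 1) p.1 p.2 + 1) (fun i _ => hmem i)
  have hs' : ∑ p ∈ (Finset.Ico l r ×ˢ Finset.Ico (-(M + 1 : ℤ)) Y),
      (orun u (∑ p ∈ (Finset.Ico l r ×ˢ Finset.Ico (-(M + 1 : ℤ)) Y),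
        barrier (M + 1) p.1 p.2 + 1)).U p.1 p.2 ≤
      ∑ p ∈ (Finset.Ico l r ×ˢ Finset.Ico (-(M + 1 : ℤ)) Y), barrier (M + 1) p.1 p.2 :=
    Finset.sum_le_sum (fun p _ => hle _ _ _)
  omega

/-- In an untouched column the particle goes straight north. -/
theorem orun_straight {u : ℤ → ℤ → ℕ} (k : ℕ) (hk : ∀ y', (orun u k).U (orun u k).x y' = 0)
    (i : ℕ) : (orun u (k + i)).x = (orun u k).x ∧ (orun u (k + i)).y = (orun u k).y + i ∧
      ∀ x' y', (orun u (k + i)).U x' y' = (orun u k).U x' y' +
        (if x' = (orun u k).x ∧ (orun u k).y ≤ y' ∧ y' < (orun u k).y + i then 1 else 0) := by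
  induction i with
  | zero =>
    refine ⟨rfl, by simp, ?_⟩
    intro x' y'
    rw [if_neg (by push_cast; omega)]
    rfl
  | succ i ih =>
    obtain ⟨e1, e2, e3⟩ := ih
    have e4 := e3 (orun u k).x ((orun u k).y + i)
    rw [if_neg (by omega), hk] at e4
    have ex := orun_succ_x u (k + i)
    have ey := orun_succ_y u (k + i)
    rw [e1, e2, e4, dirOf_zero] at ex
    rw [e1, e2, e4, dirOf_zero] at ey
    simp only [Dir.vec] at ex ey
    refine ⟨by rw [← add_assoc, ex]; ring, by rw [← add_assoc, ey]; push_cast; ring, ?_⟩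
    intro x' y'
    rw [← add_assoc, orun_succ_U]
    unfold bump
    rw [e1, e2, e3 x' y']
    push_cast
    by_cases h1 : x' = (orun u k).x ∧ y' = (orun u k).y + i
    · rw [if_pos h1, if_neg (by omega), if_pos (by omega)]
    · rw [if_neg h1]
      by_cases h2 : x' = (orun u k).x ∧ (orun u k).y ≤ y' ∧ y' < (orun u k).y + i
      · rw [if_pos h2, if_pos (by omega)]
      · rw [if_neg h2, if_neg (by omega)]

theorem returns_iff (u : ℤ → ℤ → ℕ) (k : ℕ) :
    (walk (confOf u) k).pos = 0 ↔ ((orun u k).x = 0 ∧ (orun u k).y = 0) := by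
  rw [walk_confOf]
  simp [Prod.ext_iff]

/-- The number of entries into the origin does not change as long as the walk does not return. -/
theorem orun_F0 {u : ℤ → ℤ → ℕ} (k : ℕ)
    (hk : ∀ i, 0 < i → ¬ ((orun u i).x = 0 ∧ (orun u i).y = 0)) :
    F (orun u k).U 0 0 = F u 0 0 := by
  induction k with
  | zero => rfl
  | succ k ih =>
    rw [orun_succ_U, F_bump, ← orun_succ_x, ← orun_succ_y, if_neg, ih]
    · rfl
    · intro hc
      exact hk (k + 1) (by omega) ⟨hc.1.symm, hc.2.symm⟩

/-- The effect of one particle. -/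
theorem Odo.particle {M : ℕ} {l r : ℤ} {u : ℤ → ℤ → ℕ} (h : Odo M l r u) :
    (Returns (confOf u) ∧ ∃ u', Odo (M + 1) l r u' ∧ after (confOf u) = confOf u') ∨
    (Escapes (confOf u) ∧ ∃ l' r' u', Odo (M + 1) l' r' u' ∧ r' - l' = r - l + 1 ∧
      after (confOf u) = confOf u' ∧ F u' 0 0 = F u 0 0) := by
  classical
  have hκ := Nat.find_spec h.exists_exit
  have hmin : ∀ i, i < Nat.find h.exists_exit → (l ≤ (orun u i).x ∧ (orun u i).x < r) ∧
      (0 < i → ¬ ((orun u i).x = 0 ∧ (orun u i).y = 0)) := by
    intro i hi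
    have := Nat.find_min h.exists_exit hi
    push Not at this
    exact ⟨this.1, fun h1 h2 => this.2 h1 h2.1 h2.2⟩
  generalize Nat.find h.exists_exit = κ at hκ hmin
  have hl := h.hl
  have hr := h.hr
  have hr0 := h.hr0
  obtain ⟨Y, hY⟩ := h.far
  by_cases hin : l ≤ (orun u κ).x ∧ (orun u κ).x < r
  · -- the particle returns
    left
    have hκ' : 0 < κ ∧ (orun u κ).x = 0 ∧ (orun u κ).y = 0 := by
      rcases hκ with hκ | hκ
      · exact absurd hin hκ
      · exact hκ
    obtain ⟨hκ0, hκx, hκy⟩ := hκ'
    have hret : Returns (confOf u) := ⟨κ, hκ0, (returns_iff u κ).2 ⟨hκx, hκy⟩⟩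
    refine ⟨hret, (orun u κ).U, ?_, ?_⟩
    · constructor
      · intro x y hxy
        rw [orun_bal h.bal κ x y hxy, if_neg]
        · rfl
        · rw [hκx, hκy]; exact hxy
      · rw [orun_origin κ hκ0 (fun i hi hik => (hmin i hik).2 hi), h.orig]
      · intro G hG hG0
        exact orun_le h.bal (h.least G hG (by omega)) hG (by rw [h.orig]; omega) κ
          (fun i hi hik => (hmin i hik).2 hi)
      · exact hl
      · exact hr
      · intro h0
        exfalso
        omega
      · intro x y hx
        rw [orun_unvisited x y κ]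
        · exact h.off x y hx
        · intro i hi hc
          have := (hmin i hi).1
          omega
      · refine ⟨max Y κ, fun x y h1 h2 h3 => ?_⟩
        rw [orun_unvisited x y κ]
        · exact hY x y h1 h2 (le_trans (le_max_left _ _) h3)
        · intro i hi hc
          have h4 := orun_y_le (u := u) i
          have h5 := le_trans (le_max_right _ _) h3
          omega
    · unfold after
      rw [dif_pos hret]
      have hf : Nat.find hret = κ := by
        refine (Nat.find_eq_iff _).2 ⟨⟨hκ0, (returns_iff u κ).2 ⟨hκx, hκy⟩⟩, ?_⟩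
        intro n hn hc
        exact (hmin n hn).2 hc.1 ((returns_iff u n).1 hc.2)
      rw [hf, walk_confOf]
  · -- the particle escapes
    right
    set c := (orun u κ).x with hc
    set y := (orun u κ).y with hy
    have hcol : ∀ y', (orun u κ).U c y' = 0 := by
      intro y'
      rw [orun_unvisited c y' κ]
      · exact h.off _ _ (by omega)
      · intro i hi hcc
        have := (hmin i hi).1
        omega
    have hst := orun_straight κ hcol
    rw [← hc, ← hy] at hst
    have hzero : c = 0 → κ = 0 ∧ y = 0 ∧ M = 0 ∧ l = 0 ∧ r = 0 := by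
      intro hc0
      have h1 : r = 0 := by omega
      have h2 := hr0 h1
      have h3 : κ = 0 := by
        by_contra hne
        have := (hmin 0 (by omega)).1
        omega
      refine ⟨h3, ?_, h2.2, h2.1, h1⟩
      rw [hy, h3]
      rfl
    have hnot : ∀ i, 0 < i → ¬ ((orun u i).x = 0 ∧ (orun u i).y = 0) := by
      intro i hi hcc
      rcases lt_or_ge i κ with hlt | hge
      · exact (hmin i hlt).2 hi hcc
      · obtain ⟨m, rfl⟩ := Nat.exists_eq_add_of_le hge
        have h1 := hst m
        have h2 := hzero (by omega)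
        omega
    have hnr : ¬ Returns (confOf u) := by
      rintro ⟨k, hk0, hk⟩
      exact hnot k hk0 ((returns_iff u k).1 hk)
    -- the final odometer
    set u' : ℤ → ℤ → ℕ := fun x' y' => (orun u κ).U x' y' + (if x' = c ∧ y ≤ y' then 1 else 0)
      with hu'
    have hlim : ∀ (x' y' : ℤ) (m : ℕ), y' < y + m → (orun u (κ + m)).U x' y' = u' x' y' := by
      intro x' y' m hm
      rw [(hst m).2.2 x' y', hu']
      simp only
      congr 1
      by_cases h1 : x' = c ∧ y ≤ y'
      · rw [if_pos h1, if_pos ⟨h1.1, h1.2, hm⟩]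
      · rw [if_neg h1, if_neg (fun h2 => h1 ⟨h2.1, h2.2.1⟩)]
    refine ⟨⟨hnr, ?_⟩, ?_⟩
    · intro p
      refine (Set.finite_le_nat (κ + (p.2 - y).toNat)).subset ?_
      intro k hk
      simp only [Set.mem_ofPred_eq] at hk ⊢
      rcases lt_or_ge k κ with hlt | hge
      · omega
      · obtain ⟨m, rfl⟩ := Nat.exists_eq_add_of_le hge
        rw [walk_confOf] at hk
        have h1 := (hst m).2.1
        have h2 : (orun u (κ + m)).y = p.2 := by
          rw [← hk]
        omega
    · have hcadj : c = l - 1 ∨ c = r := by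
        rcases Nat.eq_zero_or_pos κ with h0 | h0
        · subst h0
          have : c = 0 := rfl
          have := hzero this
          omega
        · obtain ⟨m, rfl⟩ : ∃ m, κ = m + 1 := ⟨κ - 1, by omega⟩
          have h1 := (hmin m (by omega)).1
          have h2 := orun_succ_x u m
          have h3 := vec1_le (dirOf ((orun u m).U (orun u m).x (orun u m).y))
          omega
      have hodo : ∀ l' r' : ℤ, l' ≤ 0 → 0 ≤ r' → r' ≠ 0 → (∀ x, (l' ≤ x ∧ x < r') ↔
          ((l ≤ x ∧ x < r) ∨ x = c)) → Odo (M + 1) l' r' u' := by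
        intro l' r' hl' hr' hr0' hiff
        constructor
        · intro x' y' hxy
          have hm : ∃ m : ℕ, y' + 1 < y + m := ⟨(y' + 2 - y).toNat, by omega⟩
          obtain ⟨m, hm⟩ := hm
          have hb := orun_bal h.bal (κ + m) x' y' hxy
          rw [if_neg (by rw [(hst m).1, (hst m).2.1]; omega)] at hb
          unfold F at hb ⊢
          rw [hlim x' (y' - 1) m (by omega), hlim (x' - 1) y' m (by omega),
            hlim x' (y' + 1) m (by omega), hlim (x' + 1) y' m (by omega),
            hlim x' y' m (by omega)] at hb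
          exact hb
        · have hm : ∃ m : ℕ, 0 < y + m ∧ 0 < m := ⟨(1 - y).toNat + 1, by omega⟩
          obtain ⟨m, hm, hm0⟩ := hm
          rw [← hlim 0 0 m hm, orun_origin (κ + m) (by omega) (fun i hi _ => hnot i hi), h.orig]
        · intro G hG hG0 x' y'
          have hm : ∃ m : ℕ, y' < y + m := ⟨(y' + 1 - y).toNat, by omega⟩
          obtain ⟨m, hm⟩ := hm
          rw [← hlim x' y' m hm]
          exact orun_le h.bal (h.least G hG (by omega)) hG (by rw [h.orig]; omega) _
            (fun i hi _ => hnot i hi) x' y'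
        · exact hl'
        · exact hr'
        · intro h0
          exact absurd h0 hr0'
        · intro x' y' hx
          have h1 : ¬ ((l ≤ x' ∧ x' < r) ∨ x' = c) := by
            rw [← hiff]
            omega
          push Not at h1
          rw [hu']
          simp only
          rw [if_neg (by tauto), orun_unvisited x' y' κ]
          · exact h.off x' y' (by have := h1.1; by_cases h2 : l ≤ x' <;> [right; left] <;>
              first | exact h1.1 h2 | omega)
          · intro i hi hcc
            have := (hmin i hi).1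
            have h3 := h1.1
            rw [hcc.1] at h3
            have := h3 this.1
            omega
        · refine ⟨max (max Y κ) y, fun x' y' h1 h2 h3 => ?_⟩
          rw [hu']
          simp only
          have h4 : Y ≤ y' := le_trans (le_trans (le_max_left _ _) (le_max_left _ _)) h3
          have h5 : (κ : ℤ) ≤ y' := le_trans (le_trans (le_max_right _ _) (le_max_left _ _)) h3
          have h6 : y ≤ y' := le_trans (le_max_right _ _) h3
          rcases (hiff x').1 ⟨h1, h2⟩ with h7 | h7
          · rw [if_neg (by omega), orun_unvisited x' y' κ, hY x' y' h7.1 h7.2 h4]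
            intro i hi hcc
            have := orun_y_le (u := u) i
            omega
          · rw [if_pos ⟨h7, h6⟩, h7, hcol]
      have hafter : after (confOf u) = confOf u' := by
        unfold after
        rw [dif_neg hnr]
        funext p
        have hev : ∀ᶠ k in atTop, (walk (confOf u) k).rot p = confOf u' p := by
          refine eventually_atTop.2 ⟨κ + (p.2 + 1 - y).toNat, fun k hk => ?_⟩
          obtain ⟨m, rfl⟩ := Nat.exists_eq_add_of_le (show κ ≤ k by omega)
          rw [walk_confOf]
          unfold confOf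
          simp only
          rw [hlim p.1 p.2 m (by omega)]
        unfold limRot
        have hex : ∃ d, ∀ᶠ k in atTop, (walk (confOf u) k).rot p = d := ⟨_, hev⟩
        rw [dif_pos hex]
        have h1 := hex.choose_spec
        obtain ⟨k, hk1, hk2⟩ := (h1.and hev).exists
        rw [← hk1, hk2]
      have hF0 : F u' 0 0 = F u 0 0 := by
        have hm : ∃ m : ℕ, 1 < y + m := ⟨(2 - y).toNat, by omega⟩
        obtain ⟨m, hm⟩ := hm
        rw [← orun_F0 (κ + m) hnot]
        unfold F
        rw [hlim 0 (0 - 1) m (by omega), hlim (0 - 1) 0 m (by omega), hlim 0 (0 + 1) m (by omega),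
          hlim (0 + 1) 0 m (by omega)]
      rcases hcadj with h1 | h1
      · refine ⟨l - 1, r, u', hodo (l - 1) r (by omega) hr ?_ ?_, by ring, hafter, hF0⟩
        · intro h0
          have := hr0 h0
          have h2 : κ = 0 := by
            by_contra hne
            have := (hmin 0 (by omega)).1
            omega
          have h3 : c = 0 := by rw [hc, h2]; rfl
          omega
        · intro x
          have h2 : l ≤ r := by omega
          omega
      · refine ⟨l, r + 1, u', hodo l (r + 1) hl (by omega) (by omega) ?_, by ring, hafter, hF0⟩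
        intro x
        omega

open Classical in
/-- The configuration after `j` particles comes from an odometer. -/
theorem exists_odo (j : ℕ) : ∃ (l r : ℤ) (u : ℤ → ℤ → ℕ), Odo j l r u ∧ conf j = confOf u ∧
    ((Nat.count EscAt j : ℕ) : ℤ) = r - l := by
  induction j with
  | zero => exact ⟨0, 0, _, odo_zero, rfl, by simp⟩
  | succ j ih =>
    obtain ⟨l, r, u, hodo, hconf, hcount⟩ := ih
    rw [Nat.count_succ]
    rcases hodo.particle with ⟨h1, u', h2, h3⟩ | ⟨h1, l', r', u', h2, h3, h4, -⟩
    · refine ⟨l, r, u', h2, ?_, ?_⟩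
      · rw [conf, hconf, h3]
      · rw [if_neg (by unfold EscAt; rw [hconf]; exact fun hE => hE.1 h1), add_zero, hcount]
    · refine ⟨l', r', u', h2, ?_, ?_⟩
      · rw [conf, hconf, h4]
      · rw [if_pos (by unfold EscAt; rw [hconf]; exact h1)]
        push_cast
        omega

/-- Every particle either returns to the origin or escapes. -/
theorem returns_or_escapes (j : ℕ) : Returns (conf j) ∨ Escapes (conf j) := by
  obtain ⟨l, r, u, hodo, hconf, -⟩ := exists_odo j
  rw [hconf]
  rcases hodo.particle with ⟨h1, -⟩ | ⟨h1, -⟩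
  · exact Or.inl h1
  · exact Or.inr h1

/-! ### Infinitely many escapes -/

theorem Odo.axis {M : ℕ} {l r : ℤ} {u : ℤ → ℤ → ℕ} (h : Odo M l r u) {n : ℕ}
    (hM : 4 ^ n ≤ M) (i : ℕ) (hi : i ≤ n) : 4 ^ (n - i) ≤ u i 0 := by
  induction i with
  | zero => simpa [h.orig] using hM
  | succ i ih =>
    have ih' := ih (by omega)
    have hb := h.bal ((i : ℤ) + 1) 0 (by omega)
    unfold F at hb
    rw [add_sub_cancel_right] at hb
    have e : n - i = (n - (i + 1)) + 1 := by omega
    rw [e, pow_succ] at ih'
    push_cast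
    omega

theorem Odo.r_gt {M : ℕ} {l r : ℤ} {u : ℤ → ℤ → ℕ} (h : Odo M l r u) {n : ℕ}
    (hM : 4 ^ n ≤ M) : (n : ℤ) < r := by
  by_contra hc
  have h1 := h.axis hM n (le_refl n)
  rw [h.off _ _ (Or.inr (by omega))] at h1
  simp at h1

theorem escAt_infinite : {j : ℕ | EscAt j}.Infinite := by
  classical
  intro hfin
  obtain ⟨C, hC⟩ : ∃ C, ∀ j, Nat.count EscAt j ≤ C := by
    refine ⟨hfin.toFinset.card, fun j => ?_⟩
    rw [Nat.count_eq_card_filter_range]
    apply Finset.card_le_card
    intro x hx
    simp only [Finset.mem_filter] at hx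
    simpa using hx.2
  obtain ⟨l, r, u, hodo, -, hcount⟩ := exists_odo (4 ^ C)
  have h1 := hodo.r_gt (le_refl _)
  have h2 := hC (4 ^ C)
  have h3 := hodo.hl
  omega

/-- The odometer of `rho n`. -/
theorem odo_rho (n : ℕ) (hn : 1 ≤ n) : ∃ (M : ℕ) (l r : ℤ) (u : ℤ → ℤ → ℕ), Odo M l r u ∧
    rho n = confOf u ∧ r - l = n ∧ n ≤ M := by
  classical
  obtain ⟨l, r, u, hodo, hconf, hcount⟩ := exists_odo (Nat.nth EscAt (n - 1) + 1)
  refine ⟨_, l, r, u, hodo, hconf, ?_, ?_⟩
  · rw [← hcount, Nat.count_succ, if_pos (Nat.nth_mem_of_infinite escAt_infinite _),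
      Nat.count_nth_of_infinite escAt_infinite]
    omega
  · have h1 := Nat.count_le (p := EscAt) (n := Nat.nth EscAt (n - 1))
    rw [Nat.count_nth_of_infinite escAt_infinite] at h1
    omega

/-- The odometers of `rho n` and of the configuration just before the `n`-th escaping particle. -/
theorem odo_rho_full (n : ℕ) (hn : 1 ≤ n) : ∃ (M : ℕ) (l r l' r' : ℤ) (u u' : ℤ → ℤ → ℕ),
    Odo (M + 1) l r u ∧ Odo M l' r' u' ∧ rho n = confOf u ∧ r - l = n ∧ n ≤ M + 1 ∧
    F u 0 0 = F u' 0 0 := by
  classical
  obtain ⟨l, r, u, hodo, hconf, hcount⟩ := exists_odo (Nat.nth EscAt (n - 1))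
  rw [Nat.count_nth_of_infinite escAt_infinite] at hcount
  have hesc : Escapes (confOf u) := by
    have h1 : Escapes (conf (Nat.nth EscAt (n - 1))) :=
      Nat.nth_mem_of_infinite escAt_infinite (n - 1)
    rwa [hconf] at h1
  rcases hodo.particle with ⟨h1, -⟩ | ⟨-, l', r', u', h2, h3, h4, h5⟩
  · exact absurd h1 hesc.1
  · refine ⟨_, l', r', l, r, u', u, h2, hodo, ?_, by omega, ?_, h5⟩
    · unfold rho
      rw [conf, hconf, h4]
    · have h1 := Nat.count_le (p := EscAt) (n := Nat.nth EscAt (n - 1))
      rw [Nat.count_nth_of_infinite escAt_infinite] at h1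
      omega

end RotorNE
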