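import Mathlib.Tactic
import Mathlib.Data.Nat.Nth
import Mathlib.Order.Filter.AtTopBot.Basic
import Mathlib.Algebra.BigOperators.Intervals
import Mathlib.Data.Int.Interval
import Pool.Agent.Lib.MP_936783_pr.Particle

/-!
# Static consequences of the least action principle
-/

open Filter

namespace RotorNE

variable {M : ℕ} {l r a : ℤ} {u : ℤ → ℤ → ℕ}

/-- The rotation inequality: `R (x, y) = (-y, x)` is the rotation by a quarter turn. -/
theorem Odo.rotation (h : Odo M l r u) (x y : ℤ) : u x y ≤ u (-y) x + 1 := by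
  refine h.least (fun x y => u (-y) x + 1) ?_ ?_ x y
  · intro x y hxy
    have hb := h.bal (-y) x (by omega)
    unfold F at hb ⊢
    beta_reduce
    rw [show -(y - 1) = -y + 1 by ring, show -(y + 1) = -y - 1 by ring]
    omega
  · simp [h.orig]

/-- The rotation by a half turn. -/
theorem Odo.rotation2 (h : Odo M l r u) (x y : ℤ) : u x y ≤ u (-x) (-y) + 2 := by
  have h1 := h.rotation x y
  have h2 := h.rotation (-y) x
  omega

/-- The rotation by three quarter turns. -/
theorem Odo.rotation3 (h : Odo M l r u) (x y : ℤ) : u x y ≤ u y (-x) + 3 := by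
  have h1 := h.rotation2 x y
  have h2 := h.rotation (-x) (-y)
  rw [neg_neg] at h2
  omega

/-- An unvisited site has an unvisited southern neighbour. -/
theorem Odo.zero_step (h : Odo M l r u) (hM : 1 ≤ M) {x y : ℤ} (hxy : u x y = 0) :
    u x (y - 1) = 0 := by
  have h0 : ¬ (x = 0 ∧ y = 0) := by
    rintro ⟨rfl, rfl⟩
    have := h.orig
    omega
  have hb := h.bal x y h0
  unfold F at hb
  omega

theorem Odo.zero_below (h : Odo M l r u) (hM : 1 ≤ M) {x y y' : ℤ} (hxy : u x y = 0)
    (hy : y' ≤ y) : u x y' = 0 := by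
  have key : ∀ m : ℕ, u x (y - m) = 0 := by
    intro m
    induction m with
    | zero => simpa using hxy
    | succ m ih =>
      have := h.zero_step hM ih
      rw [show (y - (m + 1 : ℕ) : ℤ) = y - m - 1 by push_cast; ring]
      exact this
  have := key (y - y').toNat
  rwa [show y - ((y - y').toNat : ℤ) = y' by omega] at this

theorem Odo.pos_above (h : Odo M l r u) (hM : 1 ≤ M) {x y y' : ℤ} (hxy : 1 ≤ u x y)
    (hy : y ≤ y') : 1 ≤ u x y' := by
  by_contra hc
  have := h.zero_below hM (x := x) (y := y') (y' := y) (by omega) hy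
  omega

/-- The cut lemma. -/
theorem Odo.cut (h : Odo M l r u) (t : ℕ) (T : ℤ → ℤ → Prop) (hT0 : ¬ T 0 0)
    (hadj : ∀ x y, T x y → t < u x y →
      (T x (y - 1) ∨ u x (y - 1) ≤ t) ∧ (T (x - 1) y ∨ u (x - 1) y ≤ t) ∧
      (T x (y + 1) ∨ u x (y + 1) ≤ t) ∧ (T (x + 1) y ∨ u (x + 1) y ≤ t)) :
    ∀ x y, T x y → u x y ≤ t := by
  classical
  set G : ℤ → ℤ → ℕ := fun x y => if T x y then min (u x y) t else u x y with hG
  have hGu : ∀ x y, G x y ≤ u x y := by
    intro x y
    simp only [hG]
    split_ifs
    · exact min_le_left _ _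
    · exact le_refl _
  have hGt : ∀ x y, (T x y ∨ u x y ≤ t) → G x y ≤ t := by
    intro x y hh
    simp only [hG]
    split_ifs with h1
    · exact min_le_right _ _
    · exact hh.resolve_left h1
  have key : ∀ x y, u x y ≤ G x y := by
    refine h.least G ?_ ?_
    · intro x y hxy
      by_cases h1 : T x y ∧ t < u x y
      · have h2 := hadj x y h1.1 h1.2
        have e1 := hGt _ _ h2.1
        have e2 := hGt _ _ h2.2.1
        have e3 := hGt _ _ h2.2.2.1
        have e4 := hGt _ _ h2.2.2.2
        have e5 : G x y = t := by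
          simp only [hG]
          rw [if_pos h1.1]
          omega
        unfold F
        omega
      · have h2 : G x y = u x y := by
          simp only [hG]
          split_ifs with h3
          · have : ¬ t < u x y := fun h4 => h1 ⟨h3, h4⟩
            omega
          · rfl
        rw [h2, ← h.bal x y hxy]
        exact F_mono hGu x y
    · simp only [hG]
      rw [if_neg hT0, h.orig]
  intro x y hxy
  have h1 := key x y
  have h2 := hGt x y (Or.inl hxy)
  omega

/-- A region without entrances is not visited. -/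
theorem Odo.zero_region (h : Odo M l r u) (T : ℤ → ℤ → Prop) (hT0 : ¬ T 0 0)
    (hadj : ∀ x y, T x y →
      (T x (y - 1) ∨ u x (y - 1) = 0) ∧ (T (x - 1) y ∨ u (x - 1) y ≤ 1) ∧
      (T x (y + 1) ∨ u x (y + 1) ≤ 2) ∧ (T (x + 1) y ∨ u (x + 1) y ≤ 3)) :
    ∀ x y, T x y → u x y = 0 := by
  classical
  set G : ℤ → ℤ → ℕ := fun x y => if T x y then 0 else u x y with hG
  have hGu : ∀ x y, G x y ≤ u x y := by
    intro x y
    simp only [hG]
    split_ifs
    · exact Nat.zero_le _
    · exact le_refl _
  have hGt : ∀ x y (t : ℕ), (T x y ∨ u x y ≤ t) → G x y ≤ t := by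
    intro x y t hh
    simp only [hG]
    split_ifs with h1
    · exact Nat.zero_le _
    · exact hh.resolve_left h1
  have key : ∀ x y, u x y ≤ G x y := by
    refine h.least G ?_ ?_
    · intro x y hxy
      by_cases h1 : T x y
      · have h2 := hadj x y h1
        have e1 := hGt _ _ 0 (h2.1.imp id (fun h => h.le))
        have e2 := hGt _ _ _ h2.2.1
        have e3 := hGt _ _ _ h2.2.2.1
        have e4 := hGt _ _ _ h2.2.2.2
        unfold F
        omega
      · have h2 : G x y = u x y := by
          simp only [hG]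
          rw [if_neg h1]
        rw [h2, ← h.bal x y hxy]
        exact F_mono hGu x y
    · simp only [hG]
      rw [if_neg hT0, h.orig]
  intro x y hxy
  have h1 := key x y
  simp only [hG] at h1
  rw [if_pos hxy] at h1
  omega

/-! ### A priori bounds -/

theorem Odo.x_ge (h : Odo M (-a) r u) {x y : ℤ} (hu : 1 ≤ u x y) : -a ≤ x := by
  by_contra hc
  have := h.off x y (Or.inl (by omega))
  omega

theorem Odo.x_lt (h : Odo M (-a) r u) {x y : ℤ} (hu : 1 ≤ u x y) : x < r := by
  by_contra hc
  have := h.off x y (Or.inr (by omega))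
  omega

theorem Odo.y_le (h : Odo M (-a) r u) {x y : ℤ} (hu : 2 ≤ u x y) : y ≤ a := by
  have h1 := h.rotation x y
  have h2 := h.x_ge (x := -y) (y := x) (by omega)
  omega

theorem Odo.x_le (h : Odo M (-a) r u) {x y : ℤ} (hu : 3 ≤ u x y) : x ≤ a := by
  have h1 := h.rotation2 x y
  have h2 := h.x_ge (x := -x) (y := -y) (by omega)
  omega

theorem Odo.y_ge (h : Odo M (-a) r u) {x y : ℤ} (hu : 4 ≤ u x y) : -a ≤ y := by
  have h1 := h.rotation3 x y
  have h2 := h.x_ge (x := y) (y := -x) (by omega)
  omega

theorem Odo.a_nonneg (h : Odo M (-a) r u) : 0 ≤ a := by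
  have := h.hl
  omega

/-- The bottom of the visited region. -/
theorem Odo.bottom (h : Odo M (-a) r u) {x y : ℤ} (hu : 1 ≤ u x y) : -a - 2 ≤ y := by
  by_contra hc
  have ha := h.a_nonneg
  obtain ⟨b, ⟨x0, hb⟩, hmin⟩ := Int.exists_least_of_bdd (P := fun z => ∃ x, 1 ≤ u x z)
    ⟨-M, by
      rintro z ⟨x', hx'⟩
      by_contra hz
      have := h.low (x := x') (y := z) (by omega)
      omega⟩ ⟨y, x, hu⟩
  have hby : b ≤ y := hmin y ⟨x, hu⟩
  obtain ⟨x1, hx1, hmin1⟩ := Int.exists_least_of_bdd (P := fun z => 1 ≤ u z b)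
    ⟨-a, fun z hz => h.x_ge hz⟩ ⟨x0, hb⟩
  have hsmall : ∀ x y, y < -a → u x y ≤ 3 := by
    intro x y hy
    by_contra hh
    have := h.y_ge (x := x) (y := y) (by omega)
    omega
  have hbelow : ∀ x, u x (b - 1) = 0 := by
    intro x'
    by_contra hh
    have := hmin (b - 1) ⟨x', by omega⟩
    omega
  have hleft : ∀ x', x' < x1 → u x' b = 0 := by
    intro x' hx'
    by_contra hh
    have := hmin1 x' (by omega)
    omega
  -- the site above the leftmost site of the lowest row
  have h1 : 3 ≤ u x1 (b + 1) := by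
    have hb1 := h.bal x1 b (by omega)
    unfold F at hb1
    have e1 := hbelow x1
    have e2 := hleft (x1 - 1) (by omega)
    have e3 := hsmall (x1 + 1) b (by omega)
    omega
  have h2 : u x1 b = 1 := by
    have hb1 := h.bal x1 b (by omega)
    unfold F at hb1
    have e1 := hbelow x1
    have e2 := hleft (x1 - 1) (by omega)
    have e3 := hsmall (x1 + 1) b (by omega)
    have e4 := hsmall x1 (b + 1) (by omega)
    omega
  have h3 : 2 ≤ u (x1 - 1) (b + 1) := by
    have hb1 := h.bal x1 (b + 1) (by omega)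
    unfold F at hb1
    rw [add_sub_cancel_right] at hb1
    have e3 := hsmall (x1 + 1) (b + 1) (by omega)
    have e4 := hsmall x1 (b + 1 + 1) (by omega)
    omega
  have h4 : ∀ i : ℕ, 2 ≤ u (x1 - 1 - i) (b + 1) := by
    intro i
    induction i with
    | zero => simpa using h3
    | succ i ih =>
      have hb1 := h.bal (x1 - 1 - i) (b + 1) (by omega)
      unfold F at hb1
      rw [add_sub_cancel_right] at hb1
      have e1 := hleft (x1 - 1 - i) (by omega)
      have e3 := hsmall (x1 - 1 - i + 1) (b + 1) (by omega)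
      have e4 := hsmall (x1 - 1 - i) (b + 1 + 1) (by omega)
      rw [show (x1 - 1 - (i + 1 : ℕ) : ℤ) = x1 - 1 - i - 1 by push_cast; ring]
      omega
  have h5 := h4 (x1 + a).toNat
  have h6 := h.x_ge (x := x1 - 1 - ((x1 + a).toNat : ℤ)) (y := b + 1) (by omega)
  have h7 := h.x_ge hx1
  omega

/-- Below a visited site in a column to the right of `a`, the lowest visited site is entered from
the west. -/
theorem Odo.col_step (h : Odo M (-a) r u) {x y : ℤ} (hx : a < x) (hu : 1 ≤ u x y) :
    ∃ y' ≤ y, 1 ≤ u x y' ∧ u x (y' - 1) = 0 ∧ 2 ≤ u (x - 1) y' := by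
  have ha := h.a_nonneg
  obtain ⟨b, hb, hmin⟩ := Int.exists_least_of_bdd (P := fun z => 1 ≤ u x z)
    ⟨-M, by
      intro z hz
      by_contra hz'
      have := h.low (x := x) (y := z) (by omega)
      omega⟩ ⟨y, hu⟩
  have hsmall : ∀ x y, a < x → u x y ≤ 2 := by
    intro x y hx
    by_contra hh
    have := h.x_le (x := x) (y := y) (by omega)
    omega
  have e0 : u x (b - 1) = 0 := by
    by_contra hh
    have := hmin (b - 1) (by omega)
    omega
  refine ⟨b, hmin y hu, hb, e0, ?_⟩
  have hb1 := h.bal x b (by omega)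
  unfold F at hb1
  have e1 := hsmall x (b + 1) hx
  have e2 := hsmall (x + 1) b (by omega)
  omega

/-- The columns to the right of `a` are empty below a diagonal. -/
theorem Odo.diag (h : Odo M (-a) r u) (i : ℕ) : ∀ y, 1 ≤ i → 1 ≤ u (a + i) y →
    -a - 4 + i ≤ y := by
  have ha := h.a_nonneg
  have hsmall : ∀ x y, a < x → u x y ≤ 2 := by
    intro x y hx
    by_contra hh
    have := h.x_le (x := x) (y := y) (by omega)
    omega
  induction i with
  | zero => intro y h1; omega
  | succ i ih =>
    intro y _ hu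
    by_cases hi : i ≤ 1
    · have := h.bottom hu
      push_cast
      omega
    · obtain ⟨y', hy', h1, h2, h3⟩ := h.col_step (by push_cast; omega) hu
      rw [show (a + (i + 1 : ℕ) - 1 : ℤ) = a + i by push_cast; ring] at h3
      have hb1 := h.bal (a + i) y' (by omega)
      unfold F at hb1
      have e1 := hsmall (a + i) (y' + 1) (by omega)
      have e2 := hsmall (a + i + 1) y' (by omega)
      have e3 := hsmall (a + i - 1) y' (by omega)
      have e4 := ih (y' - 1) (by omega) (by omega)
      push_cast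
      omega

theorem Odo.r_le (h : Odo M (-a) r u) : r ≤ 3 * a + 5 := by
  have ha := h.a_nonneg
  by_contra hc
  obtain ⟨Y, hY⟩ := h.far
  have h1 := hY (r - 1) Y (by omega) (by omega) (le_refl _)
  obtain ⟨y', hy', h2, h3, h4⟩ := h.col_step (x := r - 1) (y := Y) (by omega) (by omega)
  have h5 := h.y_le h4
  have h6 := h.diag ((r - 1 - a).toNat) y' (by omega)
    (by rwa [show a + ((r - 1 - a).toNat : ℤ) = r - 1 by omega])
  omega

end RotorNE
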