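import Mathlib.Tactic
import Mathlib.Data.Nat.Nth
import Mathlib.Order.Filter.AtTopBot.Basic
import Mathlib.Algebra.BigOperators.Intervals
import Mathlib.Data.Int.Interval
import Pool.Agent.Lib.MP_936783_pr.Static

/-!
# Comparison principles (integer valued) and acyclicity of last exits
-/

open Filter

namespace RotorNE

variable {M : ℕ} {l r a : ℤ} {u : ℤ → ℤ → ℕ}

/-- Integer valued version of `F` (floor division). -/
def FZ (w : ℤ → ℤ → ℤ) (x y : ℤ) : ℤ :=
  (w x (y - 1) + 3) / 4 + (w (x - 1) y + 2) / 4 + (w x (y + 1) + 1) / 4 + w (x + 1) y / 4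

/-- The integer valued odometer. -/
def toZ (u : ℤ → ℤ → ℕ) : ℤ → ℤ → ℤ := fun x y => (u x y : ℤ)

theorem FZ_toZ (u : ℤ → ℤ → ℕ) (x y : ℤ) : FZ (toZ u) x y = F u x y := by
  unfold FZ F toZ
  push_cast
  rfl

theorem FZ_mono {w w' : ℤ → ℤ → ℤ} {x y : ℤ} (h1 : w x (y - 1) ≤ w' x (y - 1))
    (h2 : w (x - 1) y ≤ w' (x - 1) y) (h3 : w x (y + 1) ≤ w' x (y + 1))
    (h4 : w (x + 1) y ≤ w' (x + 1) y) : FZ w x y ≤ FZ w' x y := by
  unfold FZ
  omega

/-- Integer version of the balance. -/
theorem Odo.balZ (h : Odo M l r u) {x y : ℤ} (hxy : ¬ (x = 0 ∧ y = 0)) :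
    FZ (toZ u) x y = toZ u x y := by
  rw [FZ_toZ, h.bal x y hxy]
  rfl

/-- Planes are exact solutions. -/
theorem FZ_plane (p q t x y : ℤ) :
    FZ (fun x y => 4 * (p * x + q * y) + t) x y = 4 * (p * x + q * y) + t := by
  unfold FZ
  have e1 : (4 * (p * x + q * (y - 1)) + t + 3) / 4 = p * x + q * (y - 1) + (t + 3) / 4 := by
    rw [add_assoc, add_comm, Int.add_mul_ediv_left _ _ (by norm_num)]; ring
  have e2 : (4 * (p * (x - 1) + q * y) + t + 2) / 4 = p * (x - 1) + q * y + (t + 2) / 4 := by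
    rw [add_assoc, add_comm, Int.add_mul_ediv_left _ _ (by norm_num)]; ring
  have e3 : (4 * (p * x + q * (y + 1)) + t + 1) / 4 = p * x + q * (y + 1) + (t + 1) / 4 := by
    rw [add_assoc, add_comm, Int.add_mul_ediv_left _ _ (by norm_num)]; ring
  have e4 : (4 * (p * (x + 1) + q * y) + t) / 4 = p * (x + 1) + q * y + t / 4 := by
    rw [add_comm, Int.add_mul_ediv_left _ _ (by norm_num)]; ring
  simp only [e1, e2, e3, e4]
  have : (t + 3) / 4 + (t + 2) / 4 + (t + 1) / 4 + t / 4 = t := by omega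
  linear_combination this

/-- Local comparison from above: on a region `Ω` avoiding the origin, the odometer is at most every
nonnegative supersolution which dominates it on the outer boundary of `Ω`. -/
theorem Odo.upper (h : Odo M l r u) (Ω : ℤ → ℤ → Prop) (G : ℤ → ℤ → ℤ) (hΩ0 : ¬ Ω 0 0)
    (hG0 : ∀ x y, Ω x y → 0 ≤ G x y)
    (hG : ∀ x y, Ω x y → G x y < u x y → FZ G x y ≤ G x y)
    (hbd : ∀ x y, Ω x y → G x y < u x y →
      (Ω x (y - 1) ∨ (u x (y - 1) : ℤ) ≤ G x (y - 1)) ∧
      (Ω (x - 1) y ∨ (u (x - 1) y : ℤ) ≤ G (x - 1) y) ∧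
      (Ω x (y + 1) ∨ (u x (y + 1) : ℤ) ≤ G x (y + 1)) ∧
      (Ω (x + 1) y ∨ (u (x + 1) y : ℤ) ≤ G (x + 1) y)) :
    ∀ x y, Ω x y → (u x y : ℤ) ≤ G x y := by
  classical
  set V : ℤ → ℤ → ℕ := fun x y => if Ω x y then min (u x y) (G x y).toNat else u x y with hV
  have hVu : ∀ x y, V x y ≤ u x y := by
    intro x y
    simp only [hV]
    split_ifs
    · exact min_le_left _ _
    · exact le_refl _
  have hVG : ∀ x y, (Ω x y ∨ (u x y : ℤ) ≤ G x y) → (V x y : ℤ) ≤ G x y := by
    intro x y hh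
    simp only [hV]
    split_ifs with h1
    · have h2 := hG0 x y h1
      have h3 : min (u x y) (G x y).toNat ≤ (G x y).toNat := min_le_right _ _
      omega
    · exact hh.resolve_left h1
  have key : ∀ x y, u x y ≤ V x y := by
    refine h.least V ?_ ?_
    · intro x y hxy
      by_cases h1 : Ω x y ∧ G x y < u x y
      · have h2 := hbd x y h1.1 h1.2
        have e1 := hVG _ _ h2.1
        have e2 := hVG _ _ h2.2.1
        have e3 := hVG _ _ h2.2.2.1
        have e4 := hVG _ _ h2.2.2.2
        have e5 : (V x y : ℤ) = G x y := by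
          simp only [hV]
          rw [if_pos h1.1]
          have := hG0 x y h1.1
          have := h1.2
          omega
        have e6 : FZ (toZ V) x y ≤ FZ G x y := FZ_mono e1 e2 e3 e4
        rw [FZ_toZ] at e6
        have e7 := hG x y h1.1 h1.2
        omega
      · have h2 : V x y = u x y := by
          simp only [hV]
          split_ifs with h3
          · have h4 : ¬ G x y < u x y := fun h4 => h1 ⟨h3, h4⟩
            have := hG0 x y h3
            omega
          · rfl
        rw [h2, ← h.bal x y hxy]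
        exact F_mono hVu x y
    · simp only [hV]
      rw [if_neg hΩ0, h.orig]
  intro x y hxy
  have h1 := key x y
  have h2 := hVG x y (Or.inl hxy)
  omega

/-- The number of exits in direction `d` among the first `k` exits. -/
def exits (d : Dir) (k : ℤ) : ℤ :=
  match d with
  | .N => (k + 3) / 4
  | .E => (k + 2) / 4
  | .S => (k + 1) / 4
  | .W => k / 4

theorem exits_mono (d : Dir) {k k' : ℤ} (h : k ≤ k') : exits d k ≤ exits d k' := by
  cases d <;> simp only [exits] <;> omega

theorem exits_sum (k : ℤ) : exits .N k + exits .E k + exits .S k + exits .W k = k := by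
  simp only [exits]; omega

/-- The direction of the `k`-th exit (its number being `k ≥ 1`, or any integer). -/
def lastDir (k : ℤ) : Dir :=
  if k % 4 = 1 then .N else if k % 4 = 2 then .E else if k % 4 = 3 then .S else .W

theorem exits_lastDir (k : ℤ) : exits (lastDir k) (k - 1) < exits (lastDir k) k := by
  unfold lastDir
  split_ifs with h1 h2 h3 <;> simp only [exits] <;> omega

/-- The neighbour reached by the last exit. -/
def lastNb (w : ℤ → ℤ → ℤ) (p : ℤ × ℤ) : ℤ × ℤ := p + (lastDir (w p.1 p.2)).vec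

theorem FZ_eq (w : ℤ → ℤ → ℤ) (p : ℤ × ℤ) : FZ w p.1 p.2 =
    exits .N (w (p - Dir.N.vec).1 (p - Dir.N.vec).2) +
    exits .E (w (p - Dir.E.vec).1 (p - Dir.E.vec).2) +
    exits .S (w (p - Dir.S.vec).1 (p - Dir.S.vec).2) +
    exits .W (w (p - Dir.W.vec).1 (p - Dir.W.vec).2) := by
  unfold FZ exits Dir.vec
  simp

/-- Exchange of summation: entries from inside. -/
theorem sum_exits_shift (D : Finset (ℤ × ℤ)) (w : ℤ → ℤ → ℤ) (d : Dir) :
    ∑ p ∈ D, exits d (w (p - d.vec).1 (p - d.vec).2) =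
      ∑ p ∈ D.filter (fun p => p + d.vec ∈ D), exits d (w p.1 p.2) +
      ∑ p ∈ D.filter (fun p => p - d.vec ∉ D), exits d (w (p - d.vec).1 (p - d.vec).2) := by
  classical
  rw [← Finset.sum_filter_add_sum_filter_not D (fun p => p - d.vec ∈ D)]
  congr 1
  refine Finset.sum_bij (fun p _ => p - d.vec) ?_ ?_ ?_ ?_
  · intro p hp
    simp only [Finset.mem_filter] at hp ⊢
    exact ⟨hp.2, by simpa using hp.1⟩
  · intro p _ q _ hpq
    exact sub_left_injective hpq
  · intro q hq
    simp only [Finset.mem_filter] at hq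
    exact ⟨q + d.vec, by simp only [Finset.mem_filter]; exact ⟨hq.2, by simpa using hq.1⟩, by simp⟩
  · intro p _
    rfl

theorem sum_exits_split (D : Finset (ℤ × ℤ)) (w : ℤ → ℤ → ℤ) (d : Dir) :
    ∑ p ∈ D, exits d (w p.1 p.2) =
      ∑ p ∈ D.filter (fun p => p + d.vec ∈ D), exits d (w p.1 p.2) +
      ∑ p ∈ D.filter (fun p => p + d.vec ∉ D), exits d (w p.1 p.2) := by
  classical
  rw [← Finset.sum_filter_add_sum_filter_not D (fun p => p + d.vec ∈ D)]

/-- Net flux identity: total odometer minus total entries is outflow minus inflow. -/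
theorem flux_identity (D : Finset (ℤ × ℤ)) (w : ℤ → ℤ → ℤ) :
    ∑ p ∈ D, w p.1 p.2 - ∑ p ∈ D, FZ w p.1 p.2 =
      ∑ d ∈ ({.N, .E, .S, .W} : Finset Dir),
        (∑ p ∈ D.filter (fun p => p + d.vec ∉ D), exits d (w p.1 p.2) -
         ∑ p ∈ D.filter (fun p => p - d.vec ∉ D), exits d (w (p - d.vec).1 (p - d.vec).2)) := by
  classical
  have h1 : ∑ p ∈ D, w p.1 p.2 = ∑ d ∈ ({.N, .E, .S, .W} : Finset Dir),
      ∑ p ∈ D, exits d (w p.1 p.2) := by
    rw [Finset.sum_comm]
    refine Finset.sum_congr rfl (fun p _ => ?_)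
    rw [Finset.sum_insert (by decide), Finset.sum_insert (by decide),
      Finset.sum_insert (by decide), Finset.sum_singleton]
    have := exits_sum (w p.1 p.2)
    linarith
  have h2 : ∑ p ∈ D, FZ w p.1 p.2 = ∑ d ∈ ({.N, .E, .S, .W} : Finset Dir),
      ∑ p ∈ D, exits d (w (p - d.vec).1 (p - d.vec).2) := by
    rw [Finset.sum_comm]
    refine Finset.sum_congr rfl (fun p _ => ?_)
    rw [Finset.sum_insert (by decide), Finset.sum_insert (by decide),
      Finset.sum_insert (by decide), Finset.sum_singleton, FZ_eq]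
    ring
  rw [h1, h2, ← Finset.sum_sub_distrib]
  refine Finset.sum_congr rfl (fun d _ => ?_)
  rw [sum_exits_shift, sum_exits_split]
  ring

/-- Local comparison from below: on a finite region avoiding the origin, the odometer is at least
every subsolution which it dominates on the outer boundary and whose last exits admit a strictly
increasing function. -/
theorem Odo.lower (h : Odo M l r u) (Ω : Finset (ℤ × ℤ)) (Q : ℤ → ℤ → ℤ) (f : ℤ × ℤ → ℤ)
    (hΩ0 : (0, 0) ∉ Ω)
    (hQ : ∀ p ∈ Ω, (u p.1 p.2 : ℤ) < Q p.1 p.2 → Q p.1 p.2 ≤ FZ Q p.1 p.2)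
    (hbd : ∀ p ∈ Ω, (u p.1 p.2 : ℤ) < Q p.1 p.2 → ∀ d : Dir, p - d.vec ∉ Ω →
      Q (p - d.vec).1 (p - d.vec).2 ≤ u (p - d.vec).1 (p - d.vec).2)
    (hf : ∀ p ∈ Ω, (u p.1 p.2 : ℤ) < Q p.1 p.2 → f p < f (lastNb Q p)) :
    ∀ p ∈ Ω, Q p.1 p.2 ≤ u p.1 p.2 := by
  classical
  by_contra hcon
  push Not at hcon
  obtain ⟨p0, hp0, hlt0⟩ := hcon
  set D := Ω.filter (fun p => (u p.1 p.2 : ℤ) < Q p.1 p.2) with hD
  have hDne : D.Nonempty := ⟨p0, by rw [hD, Finset.mem_filter]; exact ⟨hp0, hlt0⟩⟩
  obtain ⟨p1, hp1, hmax⟩ := Finset.exists_max_image D f hDne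
  have hp1' := hp1
  rw [hD, Finset.mem_filter] at hp1'
  have hnot : lastNb Q p1 ∉ D := by
    intro hin
    have := hmax _ hin
    have := hf p1 hp1'.1 hp1'.2
    omega
  have hI1 := flux_identity D Q
  have hI2 := flux_identity D (toZ u)
  have hb1 : ∑ p ∈ D, Q p.1 p.2 ≤ ∑ p ∈ D, FZ Q p.1 p.2 := by
    refine Finset.sum_le_sum (fun p hp => ?_)
    rw [hD, Finset.mem_filter] at hp
    exact hQ p hp.1 hp.2
  have hb2 : ∑ p ∈ D, toZ u p.1 p.2 = ∑ p ∈ D, FZ (toZ u) p.1 p.2 := by
    refine Finset.sum_congr rfl (fun p hp => ?_)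
    rw [hD, Finset.mem_filter] at hp
    refine (h.balZ ?_).symm
    rintro ⟨h1, h2⟩
    apply hΩ0
    have h3 : p = (0, 0) := Prod.ext h1 h2
    rw [← h3]
    exact hp.1
  have hle : ∀ d : Dir,
      (∑ p ∈ D.filter (fun p => p + d.vec ∉ D), exits d (toZ u p.1 p.2) -
         ∑ p ∈ D.filter (fun p => p - d.vec ∉ D), exits d (toZ u (p - d.vec).1 (p - d.vec).2)) ≤
      (∑ p ∈ D.filter (fun p => p + d.vec ∉ D), exits d (Q p.1 p.2) -
         ∑ p ∈ D.filter (fun p => p - d.vec ∉ D), exits d (Q (p - d.vec).1 (p - d.vec).2)) := by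
    intro d
    have e1 : ∑ p ∈ D.filter (fun p => p + d.vec ∉ D), exits d (toZ u p.1 p.2) ≤
        ∑ p ∈ D.filter (fun p => p + d.vec ∉ D), exits d (Q p.1 p.2) := by
      refine Finset.sum_le_sum (fun p hp => exits_mono d ?_)
      rw [Finset.mem_filter, hD, Finset.mem_filter] at hp
      exact hp.1.2.le
    have e2 : ∑ p ∈ D.filter (fun p => p - d.vec ∉ D), exits d (Q (p - d.vec).1 (p - d.vec).2) ≤
        ∑ p ∈ D.filter (fun p => p - d.vec ∉ D),
          exits d (toZ u (p - d.vec).1 (p - d.vec).2) := by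
      refine Finset.sum_le_sum (fun p hp => exits_mono d ?_)
      rw [Finset.mem_filter] at hp
      have hpD := hp.1
      rw [hD, Finset.mem_filter] at hpD
      by_cases hin : p - d.vec ∈ Ω
      · by_contra hlt
        apply hp.2
        rw [hD, Finset.mem_filter]
        refine ⟨hin, ?_⟩
        unfold toZ at hlt
        omega
      · exact hbd p hpD.1 hpD.2 d hin
    linarith
  have hstrict :
      (∑ p ∈ D.filter (fun p => p + (lastDir (Q p1.1 p1.2)).vec ∉ D),
          exits (lastDir (Q p1.1 p1.2)) (toZ u p.1 p.2) -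
         ∑ p ∈ D.filter (fun p => p - (lastDir (Q p1.1 p1.2)).vec ∉ D),
          exits (lastDir (Q p1.1 p1.2)) (toZ u (p - (lastDir (Q p1.1 p1.2)).vec).1
            (p - (lastDir (Q p1.1 p1.2)).vec).2)) <
      (∑ p ∈ D.filter (fun p => p + (lastDir (Q p1.1 p1.2)).vec ∉ D),
          exits (lastDir (Q p1.1 p1.2)) (Q p.1 p.2) -
         ∑ p ∈ D.filter (fun p => p - (lastDir (Q p1.1 p1.2)).vec ∉ D),
          exits (lastDir (Q p1.1 p1.2)) (Q (p - (lastDir (Q p1.1 p1.2)).vec).1
            (p - (lastDir (Q p1.1 p1.2)).vec).2)) := by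
    set d := lastDir (Q p1.1 p1.2) with hd
    have e1 : ∑ p ∈ D.filter (fun p => p + d.vec ∉ D), exits d (toZ u p.1 p.2) <
        ∑ p ∈ D.filter (fun p => p + d.vec ∉ D), exits d (Q p.1 p.2) := by
      refine Finset.sum_lt_sum (fun p hp => exits_mono d ?_) ⟨p1, ?_, ?_⟩
      · rw [Finset.mem_filter, hD, Finset.mem_filter] at hp
        exact hp.1.2.le
      · rw [Finset.mem_filter]
        exact ⟨hp1, hnot⟩
      · have h1 := exits_lastDir (Q p1.1 p1.2)
        rw [← hd] at h1
        have h2 : exits d (toZ u p1.1 p1.2) ≤ exits d (Q p1.1 p1.2 - 1) := by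
          refine exits_mono d ?_
          have := hp1'.2
          unfold toZ
          omega
        omega
    have e2 : ∑ p ∈ D.filter (fun p => p - d.vec ∉ D), exits d (Q (p - d.vec).1 (p - d.vec).2) ≤
        ∑ p ∈ D.filter (fun p => p - d.vec ∉ D),
          exits d (toZ u (p - d.vec).1 (p - d.vec).2) := by
      refine Finset.sum_le_sum (fun p hp => exits_mono d ?_)
      rw [Finset.mem_filter] at hp
      have hpD := hp.1
      rw [hD, Finset.mem_filter] at hpD
      by_cases hin : p - d.vec ∈ Ω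
      · by_contra hlt
        apply hp.2
        rw [hD, Finset.mem_filter]
        refine ⟨hin, ?_⟩
        unfold toZ at hlt
        omega
      · exact hbd p hpD.1 hpD.2 d hin
    linarith
  have hsum := Finset.sum_lt_sum (s := ({.N, .E, .S, .W} : Finset Dir)) (fun d _ => hle d)
    ⟨lastDir (Q p1.1 p1.2), by cases lastDir (Q p1.1 p1.2) <;> decide, hstrict⟩
  rw [← hI1, ← hI2] at hsum
  linarith

theorem F_drop {V : ℤ → ℤ → ℕ} (hVu : ∀ x y, V x y ≤ u x y) {a b : ℤ} (hpos : 1 ≤ u a b)
    (hVab : V a b = u a b - 1) {x y : ℤ} (hab' : lastNb (toZ u) (a, b) = (x, y)) :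
    F V x y + 1 ≤ F u x y := by
  have e1 := hVu x (y - 1)
  have e2 := hVu (x - 1) y
  have e3 := hVu x (y + 1)
  have e4 := hVu (x + 1) y
  unfold lastNb lastDir toZ at hab'
  simp only at hab'
  unfold F
  split_ifs at hab' with g1 g2 g3
  · simp only [Dir.vec, Prod.mk_add_mk, Prod.mk.injEq] at hab'
    obtain ⟨g5, g6⟩ := hab'
    obtain rfl : a = x := by omega
    obtain rfl : b = y - 1 := by omega
    omega
  · simp only [Dir.vec, Prod.mk_add_mk, Prod.mk.injEq] at hab'
    obtain ⟨g5, g6⟩ := hab'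
    obtain rfl : a = x - 1 := by omega
    obtain rfl : b = y := by omega
    omega
  · simp only [Dir.vec, Prod.mk_add_mk, Prod.mk.injEq] at hab'
    obtain ⟨g5, g6⟩ := hab'
    obtain rfl : a = x := by omega
    obtain rfl : b = y + 1 := by omega
    omega
  · simp only [Dir.vec, Prod.mk_add_mk, Prod.mk.injEq] at hab'
    obtain ⟨g5, g6⟩ := hab'
    obtain rfl : a = x + 1 := by omega
    obtain rfl : b = y := by omega
    omega

/-- A minimal set closed under last exits is permuted by them. -/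
theorem exists_cycle (u : ℤ → ℤ → ℕ) (D : Finset (ℤ × ℤ)) (hDne : D.Nonempty)
    (hcon : ∀ p ∈ D, lastNb (toZ u) p ∈ D) :
    ∃ C ⊆ D, C.Nonempty ∧ C.image (lastNb (toZ u)) = C := by
  classical
  obtain ⟨C, hC, hCmin⟩ := Finset.exists_min_image
    (D.powerset.filter (fun C => C.Nonempty ∧ ∀ p ∈ C, lastNb (toZ u) p ∈ C)) Finset.card
    ⟨D, by
      simp only [Finset.mem_filter, Finset.mem_powerset]
      exact ⟨subset_refl _, hDne, hcon⟩⟩
  simp only [Finset.mem_filter, Finset.mem_powerset] at hC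
  obtain ⟨hCD, hCne, hCcl⟩ := hC
  refine ⟨C, hCD, hCne, ?_⟩
  have hsub : C.image (lastNb (toZ u)) ⊆ C := by
    intro q hq
    rw [Finset.mem_image] at hq
    obtain ⟨p, hp, rfl⟩ := hq
    exact hCcl p hp
  refine Finset.eq_of_subset_of_card_le hsub (hCmin _ ?_)
  simp only [Finset.mem_filter, Finset.mem_powerset]
  refine ⟨hsub.trans hCD, hCne.image _, ?_⟩
  intro q hq
  exact Finset.mem_image_of_mem _ (hsub hq)

/-- Acyclicity of last exits, the origin included, when the last particle did not enter the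
origin. -/
theorem acyclic_full {l' r' : ℤ} {u' : ℤ → ℤ → ℕ} (h : Odo (M + 1) l r u) (h' : Odo M l' r' u')
    (hF : F u 0 0 = F u' 0 0) (D : Finset (ℤ × ℤ)) (hDne : D.Nonempty)
    (hpos : ∀ p ∈ D, 1 ≤ u p.1 p.2) :
    ∃ p ∈ D, lastNb (toZ u) p ∉ D := by
  classical
  by_contra hcon
  push Not at hcon
  obtain ⟨C, hCD, hCne, himage⟩ := exists_cycle u D hDne hcon
  set V : ℤ → ℤ → ℕ := fun x y => if (x, y) ∈ C then u x y - 1 else u x y with hV
  have hVu : ∀ x y, V x y ≤ u x y := by
    intro x y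
    simp only [hV]
    split_ifs <;> omega
  have hdrop : ∀ x y, (x, y) ∈ C → F V x y + 1 ≤ F u x y := by
    intro x y hin
    have h1 : (x, y) ∈ C.image (lastNb (toZ u)) := by rw [himage]; exact hin
    rw [Finset.mem_image] at h1
    obtain ⟨⟨a, b⟩, hab, hab'⟩ := h1
    exact F_drop hVu (hpos _ (hCD hab)) (by simp only [hV]; rw [if_pos hab]) hab'
  have hFV : ∀ x y, ¬ (x = 0 ∧ y = 0) → F V x y ≤ V x y := by
    intro x y hxy
    have hb := h.bal x y hxy
    by_cases hin : (x, y) ∈ C
    · have h1 := hdrop x y hin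
      simp only [hV]
      rw [if_pos hin]
      simp only [hV] at h1
      omega
    · have h2 : V x y = u x y := by
        simp only [hV]
        rw [if_neg hin]
      rw [h2, ← h.bal x y hxy]
      exact F_mono hVu x y
  by_cases h0 : ((0, 0) : ℤ × ℤ) ∈ C
  · have hV0 : V 0 0 = M := by
      simp only [hV]
      rw [if_pos h0, h.orig]
      omega
    have h1 : ∀ x y, u' x y ≤ V x y := h'.least V hFV hV0.ge
    have h2 := F_mono h1 0 0
    have h3 := hdrop 0 0 h0
    omega
  · have hV0 : V 0 0 = M + 1 := by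
      simp only [hV]
      rw [if_neg h0, h.orig]
    have h1 : ∀ x y, u x y ≤ V x y := h.least V hFV hV0.ge
    obtain ⟨⟨a, b⟩, hab⟩ := hCne
    have h2 := h1 a b
    have h3 := hpos _ (hCD hab)
    simp only [hV] at h2
    rw [if_pos hab] at h2
    simp only at h3
    omega

/-- The odometer of `rho n`, with acyclic last exits (origin included). -/
theorem odo_rho_acyclic (n : ℕ) (hn : 1 ≤ n) : ∃ (M : ℕ) (l r : ℤ) (u : ℤ → ℤ → ℕ),
    Odo M l r u ∧ rho n = confOf u ∧ r - l = n ∧ n ≤ M ∧
    ∀ D : Finset (ℤ × ℤ), D.Nonempty → (∀ p ∈ D, 1 ≤ u p.1 p.2) →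
      ∃ p ∈ D, lastNb (toZ u) p ∉ D := by
  obtain ⟨M, l, r, l', r', u, u', h1, h2, h3, h4, h5, h6⟩ := odo_rho_full n hn
  exact ⟨M + 1, l, r, u, h1, h3, h4, h5, fun D hD hpos => acyclic_full h1 h2 h6 D hD hpos⟩

/-- Acyclicity of last exits: no finite nonempty set avoiding the origin is closed under last
exits. -/
theorem Odo.acyclic (h : Odo M l r u) (D : Finset (ℤ × ℤ)) (hDne : D.Nonempty)
    (hD0 : (0, 0) ∉ D) (hpos : ∀ p ∈ D, 1 ≤ u p.1 p.2) :
    ∃ p ∈ D, lastNb (toZ u) p ∉ D := by
  classical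
  by_contra hcon
  push Not at hcon
  -- a minimal nonempty closed set
  obtain ⟨C, hC, hCmin⟩ := Finset.exists_min_image
    (D.powerset.filter (fun C => C.Nonempty ∧ ∀ p ∈ C, lastNb (toZ u) p ∈ C)) Finset.card
    ⟨D, by
      simp only [Finset.mem_filter, Finset.mem_powerset]
      exact ⟨subset_refl _, hDne, hcon⟩⟩
  simp only [Finset.mem_filter, Finset.mem_powerset] at hC
  obtain ⟨hCD, hCne, hCcl⟩ := hC
  have himage : C.image (lastNb (toZ u)) = C := by
    have hsub : C.image (lastNb (toZ u)) ⊆ C := by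
      intro q hq
      rw [Finset.mem_image] at hq
      obtain ⟨p, hp, rfl⟩ := hq
      exact hCcl p hp
    refine Finset.eq_of_subset_of_card_le hsub (hCmin _ ?_)
    simp only [Finset.mem_filter, Finset.mem_powerset]
    refine ⟨hsub.trans hCD, hCne.image _, ?_⟩
    intro q hq
    exact Finset.mem_image_of_mem _ (hsub hq)
  set V : ℤ → ℤ → ℕ := fun x y => if (x, y) ∈ C then u x y - 1 else u x y with hV
  have hVu : ∀ x y, V x y ≤ u x y := by
    intro x y
    simp only [hV]
    split_ifs <;> omega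
  have key : ∀ x y, u x y ≤ V x y := by
    refine h.least V ?_ ?_
    · intro x y hxy
      by_cases hin : (x, y) ∈ C
      · have h1 : (x, y) ∈ C.image (lastNb (toZ u)) := by rw [himage]; exact hin
        rw [Finset.mem_image] at h1
        obtain ⟨⟨a, b⟩, hab, hab'⟩ := h1
        have hpos' := hpos _ (hCD hab)
        have hpx := hpos _ (hCD hin)
        have hVx : V x y = u x y - 1 := by simp only [hV]; rw [if_pos hin]
        have hVab : V a b = u a b - 1 := by simp only [hV]; rw [if_pos hab]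
        have hb := h.bal x y hxy
        have e1 := hVu x (y - 1)
        have e2 := hVu (x - 1) y
        have e3 := hVu x (y + 1)
        have e4 := hVu (x + 1) y
        unfold lastNb lastDir toZ at hab'
        simp only at hab' hpos' hpx
        unfold F at hb ⊢
        rw [hVx]
        split_ifs at hab' with g1 g2 g3
        · simp only [Dir.vec, Prod.mk_add_mk, Prod.mk.injEq] at hab'
          obtain ⟨g5, g6⟩ := hab'
          obtain rfl : a = x := by omega
          obtain rfl : b = y - 1 := by omega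
          omega
        · simp only [Dir.vec, Prod.mk_add_mk, Prod.mk.injEq] at hab'
          obtain ⟨g5, g6⟩ := hab'
          obtain rfl : a = x - 1 := by omega
          obtain rfl : b = y := by omega
          omega
        · simp only [Dir.vec, Prod.mk_add_mk, Prod.mk.injEq] at hab'
          obtain ⟨g5, g6⟩ := hab'
          obtain rfl : a = x := by omega
          obtain rfl : b = y + 1 := by omega
          omega
        · simp only [Dir.vec, Prod.mk_add_mk, Prod.mk.injEq] at hab'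
          obtain ⟨g5, g6⟩ := hab'
          obtain rfl : a = x + 1 := by omega
          obtain rfl : b = y := by omega
          omega
      · have h2 : V x y = u x y := by
          simp only [hV]
          rw [if_neg hin]
        rw [h2, ← h.bal x y hxy]
        exact F_mono hVu x y
    · simp only [hV]
      rw [if_neg (fun hc => hD0 (hCD hc)), h.orig]
  obtain ⟨⟨a, b⟩, hab⟩ := hCne
  have h1 := key a b
  have h2 := hpos _ (hCD hab)
  simp only [hV] at h1
  rw [if_pos hab] at h1
  simp only at h2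
  omega

end RotorNE
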