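import Mathlib.Tactic
import Mathlib.Data.Nat.Nth
import Mathlib.Order.Filter.AtTopBot.Basic
import Mathlib.Algebra.BigOperators.Intervals
import Mathlib.Data.Int.Interval
import Pool.Agent.Lib.MP_936783_pr.Compare

/-!
# The dual fields of a rotor odometer

For an integer valued function `w` we consider the net westward flux `fA w` over horizontal edges,
the net southward flux `fB w` over vertical edges and the defect `fnu w` of a face.  The pair
`(fA, fB)` is divergence free off the origin (and off sinks), and its curl around a face is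
`fnu - 1`.  Everything is equivariant under `rotc w x y = w (-y) x + 1`.
-/

open Finset

namespace RotorNE

/-- Net westward flux over the edge from `(x, y)` to `(x + 1, y)`. -/
def fA (w : ℤ → ℤ → ℤ) (x y : ℤ) : ℤ := w (x + 1) y / 4 - (w x y + 2) / 4

/-- Net southward flux over the edge from `(x, y)` to `(x, y + 1)`. -/
def fB (w : ℤ → ℤ → ℤ) (x y : ℤ) : ℤ := (w x (y + 1) + 1) / 4 - (w x y + 3) / 4

/-- The indicator of `k ≡ c (mod 4)`. -/
def ind4 (k c : ℤ) : ℤ := if k % 4 = c then 1 else 0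

/-- The defect of the face with corners `(x, y)`, `(x + 1, y)`, `(x + 1, y + 1)`, `(x, y + 1)`. -/
def fnu (w : ℤ → ℤ → ℤ) (x y : ℤ) : ℤ :=
  ind4 (w x y) 1 + ind4 (w (x + 1) y) 0 + ind4 (w (x + 1) (y + 1)) 3 + ind4 (w x (y + 1)) 2

/-- The configuration rotated by a quarter turn: the site `(x, y)` moves to `(y, -x)`. -/
def rotc (w : ℤ → ℤ → ℤ) : ℤ → ℤ → ℤ := fun x y => w (-y) x + 1

/-- The rotated fields. -/
def rotA (B : ℤ → ℤ → ℤ) : ℤ → ℤ → ℤ := fun x y => B (-y) x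

def rotB (A : ℤ → ℤ → ℤ) : ℤ → ℤ → ℤ := fun x y => -A (-y - 1) x - 1

def rotNu (nu : ℤ → ℤ → ℤ) : ℤ → ℤ → ℤ := fun x y => nu (-y - 1) x

def rotZ (Z : ℤ → ℤ → Prop) : ℤ → ℤ → Prop := fun x y => Z (-y) x

theorem fA_rotc (w : ℤ → ℤ → ℤ) : fA (rotc w) = rotA (fB w) := by
  funext x y
  unfold fA fB rotc rotA
  ring_nf

theorem fB_rotc (w : ℤ → ℤ → ℤ) : fB (rotc w) = rotB (fA w) := by
  funext x y
  simp only [fA, fB, rotc, rotB]
  rw [show -(y + 1) = -y - 1 by ring, show -y - 1 + 1 = -y by ring]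
  omega

theorem ind4_succ (k : ℤ) : ind4 (k + 1) 1 = ind4 k 0 ∧ ind4 (k + 1) 0 = ind4 k 3 ∧
    ind4 (k + 1) 3 = ind4 k 2 ∧ ind4 (k + 1) 2 = ind4 k 1 := by
  unfold ind4
  exact ⟨if_congr (by omega) rfl rfl, if_congr (by omega) rfl rfl, if_congr (by omega) rfl rfl,
    if_congr (by omega) rfl rfl⟩

theorem ind4_all (k : ℤ) :
    (k % 4 = 0 ∧ ind4 k 0 = 1 ∧ ind4 k 1 = 0 ∧ ind4 k 2 = 0 ∧ ind4 k 3 = 0) ∨
    (k % 4 = 1 ∧ ind4 k 0 = 0 ∧ ind4 k 1 = 1 ∧ ind4 k 2 = 0 ∧ ind4 k 3 = 0) ∨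
    (k % 4 = 2 ∧ ind4 k 0 = 0 ∧ ind4 k 1 = 0 ∧ ind4 k 2 = 1 ∧ ind4 k 3 = 0) ∨
    (k % 4 = 3 ∧ ind4 k 0 = 0 ∧ ind4 k 1 = 0 ∧ ind4 k 2 = 0 ∧ ind4 k 3 = 1) := by
  unfold ind4
  rcases (by omega : k % 4 = 0 ∨ k % 4 = 1 ∨ k % 4 = 2 ∨ k % 4 = 3) with h | h | h | h <;> simp [h]

theorem fnu_rotc (w : ℤ → ℤ → ℤ) : fnu (rotc w) = rotNu (fnu w) := by
  funext x y
  simp only [fnu, rotc, rotNu]
  rw [show -(y + 1) = -y - 1 by ring, show -y - 1 + 1 = -y by ring, (ind4_succ _).1,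
    (ind4_succ _).2.1, (ind4_succ _).2.2.1, (ind4_succ _).2.2.2]
  ring

theorem FZ_rotc (w : ℤ → ℤ → ℤ) (x y : ℤ) : FZ (rotc w) x y = FZ w (-y) x + 1 := by
  unfold FZ rotc
  rw [show -(y - 1) = -y + 1 by ring, show -(y + 1) = -y - 1 by ring]
  omega

/-- The divergence of the flux. -/
theorem fdiv (w : ℤ → ℤ → ℤ) (x y : ℤ) :
    (fA w x y - fA w (x - 1) y) - (fB w x (y - 1) - fB w x y) = FZ w x y - w x y := by
  unfold fA fB FZ
  rw [show x - 1 + 1 = x by ring, show y - 1 + 1 = y by ring]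
  omega

/-- The curl of the flux. -/
theorem fcurl (w : ℤ → ℤ → ℤ) (x y : ℤ) :
    fA w x y + fB w (x + 1) y - fA w x (y + 1) - fB w x y = fnu w x y - 1 := by
  unfold fA fB fnu ind4
  split_ifs <;> omega

theorem fnu_nonneg (w : ℤ → ℤ → ℤ) (x y : ℤ) : 0 ≤ fnu w x y := by
  unfold fnu ind4
  split_ifs <;> norm_num

/-- A flow: two edge fields which are divergence free off the origin and off the sinks, whose curl
around faces is `nu - 1`, with the bounds on `nu` along strips given by the acyclicity of last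
exits. -/
structure IsFlow (A B nu : ℤ → ℤ → ℤ) (Z : ℤ → ℤ → Prop) : Prop where
  div : ∀ x y, ¬ (x = 0 ∧ y = 0) → ¬ Z x y → A x y - A (x - 1) y = B x (y - 1) - B x y
  curl : ∀ x y, A x y + B (x + 1) y - A x (y + 1) - B x y = nu x y - 1
  nu_nonneg : ∀ x y, 0 ≤ nu x y
  stripH : ∀ (x y : ℤ) (k : ℕ), ∑ i ∈ range k, nu (x + i) y ≤ 2 * k + 1
  stripV : ∀ (x y : ℤ) (k : ℕ), ∑ i ∈ range k, nu x (y + i) ≤ 2 * k + 1
  fin : ∃ R α β : ℤ, ∀ x y, (R ≤ |x| ∨ R ≤ |y|) → A x y = α ∧ B x y = β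
  sink : (∃ α : ℤ, ∀ x y, Z x y → A (x - 1) y = α ∧ A x y = α ∧ B x (y - 1) = -1 ∧ B x y = 0) ∨
    (∃ β : ℤ, ∀ x y, Z x y → A (x - 1) y = -1 ∧ A x y = 0 ∧ B x (y - 1) = β ∧ B x y = β)
  nuZ : ∀ x y, Z x y → (¬ Z x (y - 1) → ∀ x', nu x' (y - 1) ≤ 2) ∧
    (¬ Z x (y + 1) → ∀ x', nu x' y ≤ 2) ∧ (¬ Z (x - 1) y → ∀ y', nu (x - 1) y' ≤ 2) ∧
    (¬ Z (x + 1) y → ∀ y', nu x y' ≤ 2)

/-- Flows are closed under rotation. -/
theorem IsFlow.rot {A B nu : ℤ → ℤ → ℤ} {Z : ℤ → ℤ → Prop} (h : IsFlow A B nu Z) :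
    IsFlow (rotA B) (rotB A) (rotNu nu) (rotZ Z) := by
  refine ⟨?_, ?_, ?_, ?_, ?_, ?_, ?_, ?_⟩
  · intro x y hxy hZ
    have := h.div (-y) x (by omega) hZ
    unfold rotA rotB
    rw [show -(y - 1) - 1 = -y by ring]
    linarith
  · intro x y
    have := h.curl (-y - 1) x
    unfold rotA rotB rotNu
    rw [show -(y + 1) = -y - 1 by ring]
    rw [show -y - 1 + 1 = -y by ring] at this
    linarith
  · intro x y
    exact h.nu_nonneg _ _
  · intro x y k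
    unfold rotNu
    exact h.stripV _ _ k
  · intro x y k
    unfold rotNu
    have := h.stripH (-y - k) x k
    refine le_trans (le_of_eq ?_) this
    rw [← Finset.sum_range_reflect]
    refine Finset.sum_congr rfl (fun i hi => ?_)
    rw [Finset.mem_range] at hi
    congr 1
    omega
  · obtain ⟨R, α, β, hR⟩ := h.fin
    refine ⟨R + 1, β, -α - 1, ?_⟩
    intro x y hxy
    have h1 : R ≤ |(-y)| ∨ R ≤ |x| := by
      rcases hxy with h | h
      · exact Or.inr (by omega)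
      · exact Or.inl (by rw [abs_neg]; omega)
    have h2 : R ≤ |(-y - 1)| ∨ R ≤ |x| := by
      rcases hxy with h | h
      · exact Or.inr (by omega)
      · refine Or.inl ?_
        rcases abs_cases y with ⟨h3, _⟩ | ⟨h3, _⟩ <;> rcases abs_cases (-y - 1) with ⟨h4, _⟩ | ⟨h4, _⟩ <;> omega
    have e1 := hR (-y) x h1
    have e2 := hR (-y - 1) x h2
    unfold rotA rotB
    exact ⟨e1.2, by rw [e2.1]⟩
  · rcases h.sink with ⟨α, hα⟩ | ⟨β, hβ⟩
    · refine Or.inr ⟨-α - 1, fun x y hZ => ?_⟩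
      obtain ⟨h1, h2, h3, h4⟩ := hα (-y) x hZ
      unfold rotA rotB
      rw [show -(y - 1) - 1 = -y by ring]
      exact ⟨h3, h4, by rw [h2], by rw [h1]⟩
    · refine Or.inl ⟨β, fun x y hZ => ?_⟩
      obtain ⟨h1, h2, h3, h4⟩ := hβ (-y) x hZ
      unfold rotA rotB
      rw [show -(y - 1) - 1 = -y by ring]
      exact ⟨h3, h4, by rw [h2]; norm_num, by rw [h1]; norm_num⟩
  · intro x y hZ
    obtain ⟨h1, h2, h3, h4⟩ := h.nuZ (-y) x hZ
    unfold rotZ rotNu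
    refine ⟨fun hz => ?_, fun hz => ?_, fun hz => ?_, fun hz => ?_⟩
    · intro x'
      rw [show -(y - 1) - 1 = -y by ring]
      exact h4 (by rwa [show -(y - 1) = -y + 1 by ring] at hz) x'
    · intro x'
      exact h3 (by rwa [show -(y + 1) = -y - 1 by ring] at hz) x'
    · intro y'
      exact h1 hz _
    · intro y'
      exact h2 hz _

/-- A capped rotor odometer (integer valued): balanced off the origin and off the sinks `Z`,
with acyclic last exits (the origin and unvisited sites are included). -/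
structure RF (n : ℤ) (Z : ℤ → ℤ → Prop) (w : ℤ → ℤ → ℤ) : Prop where
  bal : ∀ x y, ¬ (x = 0 ∧ y = 0) → ¬ Z x y → FZ w x y = w x y
  orig : FZ w 0 0 = w 0 0 - n
  acyc : ∀ D : Finset (ℤ × ℤ), D.Nonempty → ∃ p ∈ D, lastNb w p ∉ D
  fin : ∃ R c : ℤ, ∀ x y, (R ≤ |x| ∨ R ≤ |y|) → w x y = c
  sink : (∃ α : ℤ, ∀ x y, Z x y →
      fA w (x - 1) y = α ∧ fA w x y = α ∧ fB w x (y - 1) = -1 ∧ fB w x y = 0) ∨
    (∃ β : ℤ, ∀ x y, Z x y →
      fA w (x - 1) y = -1 ∧ fA w x y = 0 ∧ fB w x (y - 1) = β ∧ fB w x y = β)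
  nuZ : ∀ x y, Z x y → (¬ Z x (y - 1) → ∀ x', fnu w x' (y - 1) ≤ 2) ∧
    (¬ Z x (y + 1) → ∀ x', fnu w x' y ≤ 2) ∧ (¬ Z (x - 1) y → ∀ y', fnu w (x - 1) y' ≤ 2) ∧
    (¬ Z (x + 1) y → ∀ y', fnu w x y' ≤ 2)

theorem lastDir_cases (k : ℤ) : (k % 4 = 0 ∧ lastDir k = Dir.W) ∨ (k % 4 = 1 ∧ lastDir k = Dir.N) ∨
    (k % 4 = 2 ∧ lastDir k = Dir.E) ∨ (k % 4 = 3 ∧ lastDir k = Dir.S) := by
  unfold lastDir
  rcases (by omega : k % 4 = 0 ∨ k % 4 = 1 ∨ k % 4 = 2 ∨ k % 4 = 3) with h | h | h | h <;> simp [h]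

theorem lastNb_rotc (w : ℤ → ℤ → ℤ) (x y : ℤ) :
    lastNb (rotc w) (x, y) = ((lastNb w (-y, x)).2, -(lastNb w (-y, x)).1) := by
  unfold lastNb rotc
  simp only
  rcases lastDir_cases (w (-y) x) with ⟨h, h'⟩ | ⟨h, h'⟩ | ⟨h, h'⟩ | ⟨h, h'⟩ <;>
  rcases lastDir_cases (w (-y) x + 1) with ⟨g, g'⟩ | ⟨g, g'⟩ | ⟨g, g'⟩ | ⟨g, g'⟩ <;>
  first
  | (exfalso; omega)
  | (rw [h', g']; simp [Dir.vec]; try omega)

/-- Rotor fields are closed under rotation. -/
theorem RF.rot {n : ℤ} {Z : ℤ → ℤ → Prop} {w : ℤ → ℤ → ℤ} (h : RF n Z w) :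
    RF n (rotZ Z) (rotc w) := by
  refine ⟨?_, ?_, ?_, ?_, ?_, ?_⟩
  · intro x y hxy hZ
    rw [FZ_rotc, h.bal (-y) x (by omega) hZ]
    rfl
  · rw [FZ_rotc]
    have := h.orig
    unfold rotc
    simp only [neg_zero]
    omega
  · intro D hD
    classical
    have hne : (D.image (fun p : ℤ × ℤ => ((-p.2, p.1) : ℤ × ℤ))).Nonempty := hD.image _
    obtain ⟨q, hq, hq'⟩ := h.acyc _ hne
    rw [Finset.mem_image] at hq
    obtain ⟨⟨x, y⟩, hxy, rfl⟩ := hq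
    refine ⟨(x, y), hxy, fun hin => hq' ?_⟩
    rw [lastNb_rotc] at hin
    rw [Finset.mem_image]
    exact ⟨_, hin, by simp⟩
  · obtain ⟨R, c, hR⟩ := h.fin
    refine ⟨R, c + 1, fun x y hxy => ?_⟩
    unfold rotc
    rw [hR (-y) x (by rw [abs_neg]; tauto)]
  · rw [fA_rotc, fB_rotc]
    unfold rotA rotB rotZ
    rcases h.sink with ⟨α, hα⟩ | ⟨β, hβ⟩
    · refine Or.inr ⟨-α - 1, fun x y hZ => ?_⟩
      obtain ⟨h1, h2, h3, h4⟩ := hα (-y) x hZ
      rw [show -(y - 1) - 1 = -y by ring]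
      exact ⟨h3, h4, by rw [h2], by rw [h1]⟩
    · refine Or.inl ⟨β, fun x y hZ => ?_⟩
      obtain ⟨h1, h2, h3, h4⟩ := hβ (-y) x hZ
      rw [show -(y - 1) - 1 = -y by ring]
      exact ⟨h3, h4, by rw [h2]; norm_num, by rw [h1]; norm_num⟩
  · intro x y hZ
    rw [fnu_rotc]
    obtain ⟨h1, h2, h3, h4⟩ := h.nuZ (-y) x hZ
    unfold rotZ rotNu
    refine ⟨fun hz => ?_, fun hz => ?_, fun hz => ?_, fun hz => ?_⟩
    · intro x'
      rw [show -(y - 1) - 1 = -y by ring]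
      exact h4 (by rwa [show -(y - 1) = -y + 1 by ring] at hz) x'
    · intro x'
      exact h3 (by rwa [show -(y + 1) = -y - 1 by ring] at hz) x'
    · intro y'
      exact h1 hz _
    · intro y'
      exact h2 hz _

/-- The strip bound. -/
theorem RF.stripH {n : ℤ} {Z : ℤ → ℤ → Prop} {w : ℤ → ℤ → ℤ} (h : RF n Z w) (x y : ℤ) (k : ℕ) :
    ∑ i ∈ range k, fnu w (x + i) y ≤ 2 * k + 1 := by
  classical
  -- contribution of a column
  set t : ℕ → ℤ := fun i =>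
    (if i < k then ind4 (w (x + i) y) 1 + ind4 (w (x + i) (y + 1)) 2 else 0) +
    (if 0 < i then ind4 (w (x + i) y) 0 + ind4 (w (x + i) (y + 1)) 3 else 0) with ht
  have hsum : ∑ i ∈ range k, fnu w (x + i) y = ∑ i ∈ range (k + 1), t i := by
    have e1 : ∑ i ∈ range (k + 1), (if i < k then
        ind4 (w (x + i) y) 1 + ind4 (w (x + i) (y + 1)) 2 else 0) =
        ∑ i ∈ range k, (ind4 (w (x + i) y) 1 + ind4 (w (x + i) (y + 1)) 2) := by
      rw [Finset.sum_range_succ, if_neg (lt_irrefl k), add_zero]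
      refine Finset.sum_congr rfl (fun i hi => ?_)
      rw [Finset.mem_range] at hi
      rw [if_pos hi]
    have e2 : ∑ i ∈ range (k + 1), (if 0 < i then
        ind4 (w (x + i) y) 0 + ind4 (w (x + i) (y + 1)) 3 else 0) =
        ∑ i ∈ range k, (ind4 (w (x + (i + 1 : ℕ)) y) 0 + ind4 (w (x + (i + 1 : ℕ)) (y + 1)) 3) := by
      rw [Finset.sum_range_succ']
      simp
    simp only [ht]
    rw [Finset.sum_add_distrib, e1, e2, ← Finset.sum_add_distrib]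
    refine Finset.sum_congr rfl (fun i hi => ?_)
    unfold fnu
    push_cast
    rw [show x + (i : ℤ) + 1 = x + ((i : ℤ) + 1) by ring]
    ring
  have hb : ∀ c : ℤ, 0 ≤ ind4 c 0 ∧ 0 ≤ ind4 c 1 ∧ 0 ≤ ind4 c 2 ∧ 0 ≤ ind4 c 3 ∧
      ind4 c 1 + ind4 c 0 ≤ 1 ∧ ind4 c 2 + ind4 c 3 ≤ 1 := by
    intro c
    rcases ind4_all c with q | q | q | q <;> omega
  have hle : ∀ i, t i ≤ 2 := by
    intro i
    have q1 := hb (w (x + i) y)
    have q2 := hb (w (x + i) (y + 1))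
    simp only [ht]
    split_ifs <;> omega
  have hex : ∃ j ∈ range (k + 1), t j ≤ 1 := by
    set D : Finset (ℤ × ℤ) := (range (k + 1)).biUnion (fun i => {(x + i, y), (x + i, y + 1)}) with hD
    have hmem : ∀ u v : ℤ, (u, v) ∈ D ↔ x ≤ u ∧ u ≤ x + k ∧ (v = y ∨ v = y + 1) := by
      intro u v
      simp only [hD, Finset.mem_biUnion, Finset.mem_range, Finset.mem_insert,
        Finset.mem_singleton, Prod.mk.injEq]
      constructor
      · rintro ⟨i, hi, h1 | h1⟩ <;> omega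
      · rintro ⟨h1, h2, h3⟩
        exact ⟨(u - x).toNat, by omega, by omega⟩
    obtain ⟨⟨u, v⟩, huv, hout⟩ := h.acyc D ⟨(x, y), by rw [hmem]; omega⟩
    rw [hmem] at huv
    obtain ⟨j, rfl⟩ : ∃ j : ℕ, u = x + j := ⟨(u - x).toNat, by omega⟩
    refine ⟨j, by rw [Finset.mem_range]; omega, ?_⟩
    unfold lastNb at hout
    simp only at hout
    rcases huv.2.2 with rfl | rfl
    · have q1 := ind4_all (w (x + j) v)
      have q2 := hb (w (x + j) (v + 1))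
      rcases lastDir_cases (w (x + j) v) with ⟨g, g'⟩ | ⟨g, g'⟩ | ⟨g, g'⟩ | ⟨g, g'⟩ <;>
      rw [g'] at hout <;> simp only [Dir.vec, Prod.mk_add_mk] at hout <;> rw [hmem] at hout <;>
      simp only [ht] <;> split_ifs <;> omega
    · have q1 := ind4_all (w (x + j) (y + 1))
      have q2 := hb (w (x + j) y)
      rcases lastDir_cases (w (x + j) (y + 1)) with ⟨g, g'⟩ | ⟨g, g'⟩ | ⟨g, g'⟩ | ⟨g, g'⟩ <;>
      rw [g'] at hout <;> simp only [Dir.vec, Prod.mk_add_mk] at hout <;> rw [hmem] at hout <;>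
      simp only [ht] <;> split_ifs <;> omega
  rw [hsum]
  obtain ⟨j, hj, hj1⟩ := hex
  rw [← Finset.add_sum_erase _ _ hj]
  have : ∑ i ∈ (range (k + 1)).erase j, t i ≤ ∑ i ∈ (range (k + 1)).erase j, (2 : ℤ) :=
    Finset.sum_le_sum (fun i _ => hle i)
  rw [Finset.sum_const, Finset.card_erase_of_mem hj, Finset.card_range] at this
  simp only [Nat.add_sub_cancel, nsmul_eq_mul] at this
  linarith

/-- The flow of a rotor field. -/
theorem RF.flow {n : ℤ} {Z : ℤ → ℤ → Prop} {w : ℤ → ℤ → ℤ} (h : RF n Z w) :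
    IsFlow (fA w) (fB w) (fnu w) Z := by
  refine ⟨?_, fcurl w, fnu_nonneg w, h.stripH, ?_, ?_, h.sink, h.nuZ⟩
  · intro x y hxy hZ
    have h1 := fdiv w x y
    rw [h.bal x y hxy hZ] at h1
    linarith
  · intro x y k
    have h1 := h.rot.stripH y (-x - 1) k
    rw [fnu_rotc] at h1
    unfold rotNu at h1
    rw [show -(-x - 1) - 1 = x by ring] at h1
    exact h1
  · obtain ⟨R, c, hR⟩ := h.fin
    refine ⟨R + 1, c / 4 - (c + 2) / 4, (c + 1) / 4 - (c + 3) / 4, fun x y hxy => ?_⟩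
    have e0 : w x y = c := hR x y (by omega)
    have e1 : w (x + 1) y = c := hR (x + 1) y (by
      rcases hxy with h | h
      · refine Or.inl ?_
        rcases abs_cases x with ⟨h3, _⟩ | ⟨h3, _⟩ <;>
        rcases abs_cases (x + 1) with ⟨h4, _⟩ | ⟨h4, _⟩ <;> omega
      · exact Or.inr (by omega))
    have e2 : w x (y + 1) = c := hR x (y + 1) (by
      rcases hxy with h | h
      · exact Or.inl (by omega)
      · refine Or.inr ?_
        rcases abs_cases y with ⟨h3, _⟩ | ⟨h3, _⟩ <;>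
        rcases abs_cases (y + 1) with ⟨h4, _⟩ | ⟨h4, _⟩ <;> omega)
    unfold fA fB
    rw [e0, e1, e2]
    exact ⟨rfl, rfl⟩

end RotorNE
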