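import Mathlib.Tactic
import Mathlib.Data.Nat.Nth
import Mathlib.Order.Filter.AtTopBot.Basic
import Mathlib.Algebra.BigOperators.Intervals
import Mathlib.Data.Int.Interval
import Pool.Agent.Lib.MP_936783_pr.Flow

/-!
# Contacts of the level curves of a flow

`a` is a level of `A` (horizontal edges), `b` a level of `B` (vertical edges).  The corner
`(a, b)` is in contact with a vertex (`VP`: positive divergence, `VM`: negative divergence) or with
a face (`WN`, `ES`: good contacts, `EN`: bad contacts).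
-/

namespace RotorNE

/-- Vertex contact with positive divergence. -/
def VP (A B : ℤ → ℤ → ℤ) (a b x y : ℤ) : Prop :=
  A (x - 1) y < a ∧ a ≤ A x y ∧ B x y < b ∧ b ≤ B x (y - 1)

/-- Vertex contact with negative divergence. -/
def VM (A B : ℤ → ℤ → ℤ) (a b x y : ℤ) : Prop :=
  A x y < a ∧ a ≤ A (x - 1) y ∧ B x (y - 1) < b ∧ b ≤ B x y

/-- Good face contact: the `a`-curve goes west and the `b`-curve goes north. -/
def WN (A B : ℤ → ℤ → ℤ) (a b x y : ℤ) : Prop :=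
  A x y < a ∧ a ≤ A x (y + 1) ∧ B x y < b ∧ b ≤ B (x + 1) y

/-- Good face contact: the `a`-curve goes east and the `b`-curve goes south. -/
def ES (A B : ℤ → ℤ → ℤ) (a b x y : ℤ) : Prop :=
  A x (y + 1) < a ∧ a ≤ A x y ∧ B (x + 1) y < b ∧ b ≤ B x y

/-- Bad face contact: the `a`-curve goes east and the `b`-curve goes north. -/
def EN (A B : ℤ → ℤ → ℤ) (a b x y : ℤ) : Prop :=
  A x (y + 1) < a ∧ a ≤ A x y ∧ B x y < b ∧ b ≤ B (x + 1) y

theorem VM_rot (A B : ℤ → ℤ → ℤ) (a b x y : ℤ) :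
    VM (rotA B) (rotB A) b (-a) x y ↔ VP A B a b (-y) x := by
  unfold VM VP rotA rotB
  rw [show -(y - 1) - 1 = -y by ring]
  omega

theorem VP_rot (A B : ℤ → ℤ → ℤ) (a b x y : ℤ) :
    VP (rotA B) (rotB A) b (-a) x y ↔ VM A B a b (-y) x := by
  unfold VM VP rotA rotB
  rw [show -(y - 1) - 1 = -y by ring]
  omega

theorem ES_rot (A B : ℤ → ℤ → ℤ) (a b x y : ℤ) :
    ES (rotA B) (rotB A) b (-a) x y ↔ WN A B a b (-y - 1) x := by
  unfold ES WN rotA rotB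
  rw [show -(y + 1) = -y - 1 by ring, show -y - 1 + 1 = -y by ring]
  omega

theorem WN_rot (A B : ℤ → ℤ → ℤ) (a b x y : ℤ) :
    WN (rotA B) (rotB A) b (-a) x y ↔ ES A B a b (-y - 1) x := by
  unfold ES WN rotA rotB
  rw [show -(y + 1) = -y - 1 by ring, show -y - 1 + 1 = -y by ring]
  omega

theorem EN_rot (A B : ℤ → ℤ → ℤ) (a b x y : ℤ) :
    EN (rotA B) (rotB A) b (-a) x y ↔ EN A B a b (-y - 1) x := by
  unfold EN rotA rotB
  rw [show -(y + 1) = -y - 1 by ring, show -y - 1 + 1 = -y by ring]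
  omega

/-- The good contacts of the corner `(a, b)`, in doubled coordinates. -/
def CS (A B : ℤ → ℤ → ℤ) (a b X Y : ℤ) : Prop :=
  (∃ x y, X = 2 * x ∧ Y = 2 * y ∧ (VP A B a b x y ∨ VM A B a b x y)) ∨
  (∃ x y, X = 2 * x + 1 ∧ Y = 2 * y + 1 ∧ (WN A B a b x y ∨ ES A B a b x y))

/-- The bad contacts of the corner `(a, b)`, in doubled coordinates. -/
def BS (A B : ℤ → ℤ → ℤ) (a b X Y : ℤ) : Prop :=
  ∃ x y, X = 2 * x + 1 ∧ Y = 2 * y + 1 ∧ EN A B a b x y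

theorem CS_rot (A B : ℤ → ℤ → ℤ) (a b X Y : ℤ) :
    CS (rotA B) (rotB A) b (-a) X Y ↔ CS A B a b (-Y) X := by
  unfold CS
  constructor
  · rintro (⟨x, y, rfl, rfl, h⟩ | ⟨x, y, rfl, rfl, h⟩)
    · rw [VP_rot, VM_rot] at h
      exact Or.inl ⟨-y, x, by ring, rfl, h.symm⟩
    · rw [WN_rot, ES_rot] at h
      exact Or.inr ⟨-y - 1, x, by ring, rfl, h.symm⟩
  · rintro (⟨x, y, hx, hy, h⟩ | ⟨x, y, hx, hy, h⟩)
    · refine Or.inl ⟨y, -x, hy, by omega, ?_⟩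
      rw [VP_rot, VM_rot, neg_neg]
      exact h.symm
    · refine Or.inr ⟨y, -x - 1, hy, by omega, ?_⟩
      rw [WN_rot, ES_rot, show -(-x - 1) - 1 = x by ring]
      exact h.symm

theorem BS_rot (A B : ℤ → ℤ → ℤ) (a b X Y : ℤ) :
    BS (rotA B) (rotB A) b (-a) X Y ↔ BS A B a b (-Y) X := by
  unfold BS
  constructor
  · rintro ⟨x, y, rfl, rfl, h⟩
    rw [EN_rot] at h
    exact ⟨-y - 1, x, by ring, rfl, h⟩
  · rintro ⟨x, y, hx, hy, h⟩
    refine ⟨y, -x - 1, hy, by omega, ?_⟩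
    rw [EN_rot, show -(-x - 1) - 1 = x by ring]
    exact h

/-- The corner `(a, b)` is in the range of the source at the origin. -/
def InQ (A B : ℤ → ℤ → ℤ) (a b : ℤ) : Prop :=
  A 0 0 < a ∧ a ≤ A (-1) 0 ∧ B 0 0 < b ∧ b ≤ B 0 (-1)

theorem InQ_rot (A B : ℤ → ℤ → ℤ) (a b : ℤ) :
    InQ (rotA B) (rotB A) b (-a) ↔ InQ A B a b := by
  unfold InQ rotA rotB
  norm_num
  omega

/-- The contacts of the corner `(a, b)` form a diagonal chain with `m + 1` good contacts, starting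
at `(X0, Y0)` (doubled coordinates) with direction `(1, s)`, separated by `m` bad contacts. -/
structure IsChain (A B : ℤ → ℤ → ℤ) (a b X0 Y0 : ℤ) (m : ℕ) (s : ℤ) : Prop where
  hs : s = 1 ∨ s = -1
  good : ∀ X Y, CS A B a b X Y ↔ ∃ k : ℕ, k ≤ m ∧ X = X0 + 2 * k ∧ Y = Y0 + 2 * s * k
  bad : ∀ X Y, BS A B a b X Y ↔ ∃ k : ℕ, k < m ∧ X = X0 + 2 * k + 1 ∧ Y = Y0 + s * (2 * k + 1)
  pos : s = 1 → 1 ≤ m → ∀ x y, CS A B a b (2 * x) (2 * y) → VP A B a b x y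
  neg : s = -1 → 1 ≤ m → ∀ x y, CS A B a b (2 * x) (2 * y) → VM A B a b x y
  even : 1 ≤ m → ∃ x0 y0, X0 = 2 * x0 ∧ Y0 = 2 * y0

end RotorNE
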