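import Mathlib.Tactic
import Mathlib.Data.Nat.Nth
import Mathlib.Order.Filter.AtTopBot.Basic
import Mathlib.Algebra.BigOperators.Intervals
import Mathlib.Data.Int.Interval
import Pool.Agent.Lib.MP_936783_pr.Compare

/-!
# Flux fields

`h x y` is the net flux to the west through the edge between `(x, y)` and `(x + 1, y)`, `v x y` is
the net flux to the south through the edge between `(x, y)` and `(x, y + 1)`, `d x y` is the
direction of the last exit from `(x, y)`.
-/

open Filter

namespace RotorNE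

/-- The number of corners of the face with south-west corner `(x, y)` whose last exit runs
clockwise around the face. -/
def nf (d : ℤ → ℤ → Dir) (x y : ℤ) : ℤ :=
  (if d x y = .N then 1 else 0) + (if d x (y + 1) = .E then 1 else 0) +
  (if d (x + 1) (y + 1) = .S then 1 else 0) + (if d (x + 1) y = .W then 1 else 0)

/-- Flux fields with divergence `κ` and acyclic last exits. -/
structure Fld (h v : ℤ → ℤ → ℤ) (d : ℤ → ℤ → Dir) (κ : ℤ → ℤ → ℤ) : Prop where
  div : ∀ x y, h x y - h (x - 1) y + v x y - v x (y - 1) = κ x y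
  curl : ∀ x y, (v (x + 1) y - v x y) - (h x (y + 1) - h x y) = nf d x y - 1
  acyc : ∀ D : Finset (ℤ × ℤ), D.Nonempty → ∃ p ∈ D, p + (d p.1 p.2).vec ∉ D

/-- The rotated fields: `R (x, y) = (-y, x)`. -/
def roth (v : ℤ → ℤ → ℤ) : ℤ → ℤ → ℤ := fun x y => v (-y) x
def rotv (h : ℤ → ℤ → ℤ) : ℤ → ℤ → ℤ := fun x y => -h (-y - 1) x
def rotd (d : ℤ → ℤ → Dir) : ℤ → ℤ → Dir := fun x y => (d (-y) x).next
def rotk (κ : ℤ → ℤ → ℤ) : ℤ → ℤ → ℤ := fun x y => κ (-y) x

theorem next_eq_N (e : Dir) : (e.next = .N) ↔ e = .W := by cases e <;> simp [Dir.next]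
theorem next_eq_E (e : Dir) : (e.next = .E) ↔ e = .N := by cases e <;> simp [Dir.next]
theorem next_eq_S (e : Dir) : (e.next = .S) ↔ e = .E := by cases e <;> simp [Dir.next]
theorem next_eq_W (e : Dir) : (e.next = .W) ↔ e = .S := by cases e <;> simp [Dir.next]

variable {h v : ℤ → ℤ → ℤ} {d : ℤ → ℤ → Dir} {κ : ℤ → ℤ → ℤ}

theorem nf_rot (x y : ℤ) : nf (rotd d) x y = nf d (-y - 1) x := by
  unfold nf rotd
  simp only [next_eq_N, next_eq_E, next_eq_S, next_eq_W]
  rw [show -(y + 1) = -y - 1 by ring, show -y - 1 + 1 = -y by ring]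
  ring

theorem vec_next (e : Dir) : e.next.vec = (e.vec.2, -e.vec.1) := by
  cases e <;> simp [Dir.next, Dir.vec]

theorem Fld.rot (F : Fld h v d κ) : Fld (roth v) (rotv h) (rotd d) (rotk κ) where
  div := by
    intro x y
    have := F.div (-y) x
    unfold roth rotv rotk
    rw [show -(y - 1) - 1 = -y by ring]
    linarith
  curl := by
    intro x y
    have := F.curl (-y - 1) x
    rw [nf_rot]
    unfold roth rotv
    rw [show -y - 1 + 1 = -y by ring] at this
    rw [show -(y + 1) = -y - 1 by ring]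
    linarith
  acyc := by
    classical
    intro D hD
    obtain ⟨q, hq, hq'⟩ := F.acyc (D.image (fun p : ℤ × ℤ => (-p.2, p.1))) (hD.image _)
    rw [Finset.mem_image] at hq
    obtain ⟨p, hp, rfl⟩ := hq
    refine ⟨p, hp, fun hin => hq' ?_⟩
    rw [Finset.mem_image]
    refine ⟨_, hin, ?_⟩
    unfold rotd
    rw [vec_next]
    ext
    · simp only [Prod.fst_add, Prod.snd_add]; ring
    · simp only [Prod.fst_add, Prod.snd_add]

/-- The strip bound: in a strip of `k` faces at most `2 k + 1` corners are clockwise. -/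
theorem Fld.strip (F : Fld h v d κ) (x y : ℤ) (k : ℕ) :
    ∑ i ∈ Finset.range k, nf d (x + i) y ≤ 2 * k + 1 := by
  classical
  rcases Nat.eq_zero_or_pos k with rfl | hk
  · simp
  -- contributions of the columns
  set R : ℕ → ℤ := fun i => (if d (x + i) y = .N then 1 else 0) +
    (if d (x + i) (y + 1) = .E then 1 else 0) with hR
  set L : ℕ → ℤ := fun i => (if d (x + i) (y + 1) = .S then 1 else 0) +
    (if d (x + i) y = .W then 1 else 0) with hL
  have hnf : ∀ i : ℕ, nf d (x + i) y = R i + L (i + 1) := by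
    intro i
    simp only [hR, hL, nf]
    push_cast
    rw [← add_assoc]
    ring
  have hsum : ∀ m : ℕ, ∑ i ∈ Finset.range (m + 1), nf d (x + i) y =
      R 0 + ∑ i ∈ Finset.range m, (L (i + 1) + R (i + 1)) + L (m + 1) := by
    intro m
    induction m with
    | zero => simp [hnf]
    | succ m ih =>
      rw [Finset.sum_range_succ, ih, hnf, Finset.sum_range_succ _ m]
      ring
  have hRL : ∀ i, L i + R i ≤ 2 := by
    intro i
    simp only [hR, hL]
    cases d (x + i) y <;> cases d (x + i) (y + 1) <;> simp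
  have hR2 : ∀ i, R i ≤ 2 := by
    intro i
    simp only [hR]
    split_ifs <;> norm_num
  have hL2 : ∀ i, L i ≤ 2 := by
    intro i
    simp only [hL]
    split_ifs <;> norm_num
  obtain ⟨m, rfl⟩ : ∃ m, k = m + 1 := ⟨k - 1, by omega⟩
  rw [hsum]
  by_contra hcon
  push Not at hcon
  push_cast at hcon
  have hmid : ∑ i ∈ Finset.range m, (L (i + 1) + R (i + 1)) ≤ 2 * m := by
    have := Finset.sum_le_sum (s := Finset.range m) (fun i _ => hRL (i + 1))
    simpa [mul_comm] using this
  have h0 := hR2 0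
  have h1 := hL2 (m + 1)
  have e0 : R 0 = 2 := by linarith
  have e1 : L (m + 1) = 2 := by linarith
  have e2 : ∀ i, i < m → L (i + 1) + R (i + 1) = 2 := by
    intro i hi
    by_contra hne
    have hlt : ∑ i ∈ Finset.range m, (L (i + 1) + R (i + 1)) < ∑ i ∈ Finset.range m, (2 : ℤ) :=
      Finset.sum_lt_sum (fun i _ => hRL (i + 1))
        ⟨i, Finset.mem_range.2 hi, lt_of_le_of_ne (hRL (i + 1)) hne⟩
    simp only [Finset.sum_const, Finset.card_range, nsmul_eq_mul] at hlt
    linarith
  -- a closed set of last exits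
  obtain ⟨p, hp, hp'⟩ := F.acyc ((Finset.range (m + 2)).image (fun i : ℕ => (x + (i : ℤ), y)) ∪
    (Finset.range (m + 2)).image (fun i : ℕ => (x + (i : ℤ), y + 1)))
    ⟨(x + ((0 : ℕ) : ℤ), y), Finset.mem_union_left _
      (Finset.mem_image_of_mem _ (Finset.mem_range.2 (by omega)))⟩
  have hmem : ∀ q : ℤ × ℤ, (q ∈ (Finset.range (m + 2)).image (fun i : ℕ => (x + (i : ℤ), y)) ∪
      (Finset.range (m + 2)).image (fun i : ℕ => (x + (i : ℤ), y + 1))) ↔
      (x ≤ q.1 ∧ q.1 ≤ x + (m + 1) ∧ (q.2 = y ∨ q.2 = y + 1)) := by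
    intro q
    simp only [Finset.mem_union, Finset.mem_image, Finset.mem_range]
    constructor
    · rintro (⟨i, hi, rfl⟩ | ⟨i, hi, rfl⟩)
      · exact ⟨by simp only; omega, by simp only; omega, Or.inl rfl⟩
      · exact ⟨by simp only; omega, by simp only; omega, Or.inr rfl⟩
    · rintro ⟨h1, h2, h3 | h3⟩
      · left
        refine ⟨(q.1 - x).toNat, by omega, ?_⟩
        ext
        · simp only; omega
        · exact h3.symm
      · right
        refine ⟨(q.1 - x).toNat, by omega, ?_⟩
        ext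
        · simp only; omega
        · exact h3.symm
  rw [hmem] at hp hp'
  obtain ⟨hp1, hp2, hp3⟩ := hp
  obtain ⟨i, hi⟩ : ∃ i : ℕ, p.1 = x + i := ⟨(p.1 - x).toNat, by omega⟩
  have hcol : (i = 0 ∧ R i = 2) ∨ (i = m + 1 ∧ L i = 2) ∨ (0 < i ∧ i < m + 1 ∧ L i + R i = 2) := by
    rcases Nat.eq_zero_or_pos i with h2 | h2
    · left; exact ⟨h2, by rw [h2]; exact e0⟩
    · rcases eq_or_lt_of_le (show i ≤ m + 1 by omega) with h3 | h3
      · right; left; exact ⟨h3, by rw [h3]; exact e1⟩
      · right; right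
        refine ⟨h2, h3, ?_⟩
        obtain ⟨i', rfl⟩ : ∃ i', i = i' + 1 := ⟨i - 1, by omega⟩
        exact e2 i' (by omega)
  apply hp'
  simp only [hR, hL] at hcol
  rcases hp3 with hp3 | hp3
  · rw [hp3, hi]
    cases hdd : d (x + i) y
    · simp only [Dir.vec, Prod.fst_add, Prod.snd_add]; omega
    · simp only [hdd] at hcol
      rcases hcol with ⟨h2, h3⟩ | ⟨h2, h3⟩ | ⟨h2, h3, h4⟩
      · exfalso; revert h3; cases d (x + i) (y + 1) <;> simp
      · exfalso; revert h3; cases d (x + i) (y + 1) <;> simp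
      · exfalso; revert h4; cases d (x + i) (y + 1) <;> simp
    · simp only [hdd] at hcol
      rcases hcol with ⟨h2, h3⟩ | ⟨h2, h3⟩ | ⟨h2, h3, h4⟩
      · exfalso; revert h3; cases d (x + i) (y + 1) <;> simp
      · exfalso; revert h3; cases d (x + i) (y + 1) <;> simp
      · exfalso; revert h4; cases d (x + i) (y + 1) <;> simp
    · simp only [hdd] at hcol
      rcases hcol with ⟨h2, h3⟩ | ⟨h2, h3⟩ | ⟨h2, h3, h4⟩
      · exfalso; revert h3; cases d (x + i) (y + 1) <;> simp
      · simp only [Dir.vec, Prod.fst_add, Prod.snd_add]; omega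
      · simp only [Dir.vec, Prod.fst_add, Prod.snd_add]; omega
  · rw [hp3, hi]
    cases hdd : d (x + i) (y + 1)
    · simp only [hdd] at hcol
      rcases hcol with ⟨h2, h3⟩ | ⟨h2, h3⟩ | ⟨h2, h3, h4⟩
      · exfalso; revert h3; cases d (x + i) y <;> simp
      · exfalso; revert h3; cases d (x + i) y <;> simp
      · exfalso; revert h4; cases d (x + i) y <;> simp
    · simp only [hdd] at hcol
      rcases hcol with ⟨h2, h3⟩ | ⟨h2, h3⟩ | ⟨h2, h3, h4⟩
      · simp only [Dir.vec, Prod.fst_add, Prod.snd_add]; omega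
      · exfalso; revert h3; cases d (x + i) y <;> simp
      · simp only [Dir.vec, Prod.fst_add, Prod.snd_add]; omega
    · simp only [Dir.vec, Prod.fst_add, Prod.snd_add]; omega
    · simp only [hdd] at hcol
      rcases hcol with ⟨h2, h3⟩ | ⟨h2, h3⟩ | ⟨h2, h3, h4⟩
      · exfalso; revert h3; cases d (x + i) y <;> simp
      · exfalso; revert h3; cases d (x + i) y <;> simp
      · exfalso; revert h4; cases d (x + i) y <;> simp

end RotorNE
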