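import Mathlib.Tactic
import Mathlib.Data.Nat.Nth
import Mathlib.Order.Filter.AtTopBot.Basic
import Mathlib.Algebra.BigOperators.Intervals
import Mathlib.Data.Int.Interval
import Pool.Agent.Lib.MP_936783_pr.Field

/-!
# Level curves of the horizontal flux

Nodes are the vertical edges: the node `(x, y)` is the edge between `(x, y)` and `(x, y + 1)`.
The boundary of `{h ≥ a}` is a union of curves with `{h ≥ a}` on the right hand side.
-/

open Filter

namespace RotorNE

/-- `Val h a x y e`: the step in direction `e` from the node `(x, y)` has `{h ≥ a}` on its right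
and `{h < a}` on its left. -/
def Val (h : ℤ → ℤ → ℤ) (a : ℤ) (x y : ℤ) : Dir → Prop
  | .N => h (x - 1) (y + 1) < a ∧ a ≤ h x (y + 1)
  | .S => h x y < a ∧ a ≤ h (x - 1) y
  | .E => h x (y + 1) < a ∧ a ≤ h x y
  | .W => h (x - 1) y < a ∧ a ≤ h (x - 1) (y + 1)

/-- The assumptions on a level `a`. -/
structure Lev (h v : ℤ → ℤ → ℤ) (d : ℤ → ℤ → Dir) (κ : ℤ → ℤ → ℤ) (a : ℤ) : Prop where
  fld : Fld h v d κ
  k1 : ∀ x y, κ x y ≤ 1
  k0 : ∀ x y, ¬ (x = 0 ∧ y = 0) → 0 ≤ κ x y
  ko : κ 0 0 ≤ 0
  fin : ∃ B : ℤ, ∀ x y e, Val h a x y e → |x| ≤ B ∧ |y| ≤ B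
  w2 : ∀ x y, κ x (y + 1) = 1 → Val h a x y .N → ¬ Val h a x (y + 1) .E
  w3 : ∀ x y (k : ℕ), κ x (y + 1) = 1 → Val h a x y .N →
    (∀ i : ℕ, i < k → Val h a (x - k + i) y .E) → v x y ≤ v (x - k) y

/-- `IsWalk h a p e i j`: the nodes `p i, ..., p j` are joined by valid steps `e i, ..., e (j-1)`,
none of which is the step to the south through the origin. -/
def IsWalk (h : ℤ → ℤ → ℤ) (a : ℤ) (p : ℕ → ℤ × ℤ) (e : ℕ → Dir) (i j : ℕ) : Prop :=
  ∀ k, i ≤ k → k < j → Val h a (p k).1 (p k).2 (e k) ∧ p (k + 1) = p k + (e k).vec ∧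
    ¬ (p k = (0, 0) ∧ e k = .S)

variable {h v : ℤ → ℤ → ℤ} {d : ℤ → ℤ → Dir} {κ : ℤ → ℤ → ℤ} {a : ℤ}

theorem IsWalk.mono {p : ℕ → ℤ × ℤ} {e : ℕ → Dir} {i j i' j' : ℕ} (hw : IsWalk h a p e i j)
    (hi : i ≤ i') (hj : j' ≤ j) : IsWalk h a p e i' j' :=
  fun k hk1 hk2 => hw k (by omega) (by omega)

/-- Change of `v` along a step to the east. -/
theorem Lev.stepE (L : Lev h v d κ a) {x y : ℤ} (hv : Val h a x y .E) :
    v (x + 1) y - v x y ≤ nf d x y - 2 := by
  have h1 := L.fld.curl x y
  have h2 := hv.1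
  have h3 := hv.2
  linarith

/-- Change of `v` along a step to the west. -/
theorem Lev.stepW (L : Lev h v d κ a) {x y : ℤ} (hv : Val h a x y .W) :
    v (x - 1) y ≤ v x y := by
  have h1 := L.fld.curl (x - 1) y
  have h2 := hv.1
  have h3 := hv.2
  have h4 : 0 ≤ nf d (x - 1) y := by
    unfold nf
    have e1 : (0 : ℤ) ≤ if d (x - 1) y = .N then 1 else 0 := by split_ifs <;> norm_num
    have e2 : (0 : ℤ) ≤ if d (x - 1) (y + 1) = .E then 1 else 0 := by split_ifs <;> norm_num
    have e3 : (0 : ℤ) ≤ if d (x - 1 + 1) (y + 1) = .S then 1 else 0 := by split_ifs <;> norm_num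
    have e4 : (0 : ℤ) ≤ if d (x - 1 + 1) y = .W then 1 else 0 := by split_ifs <;> norm_num
    linarith
  rw [sub_add_cancel] at h1
  linarith

/-- Change of `v` along a step to the north. -/
theorem Lev.stepN (L : Lev h v d κ a) {x y : ℤ} (hv : Val h a x y .N) :
    v x (y + 1) ≤ v x y + κ x (y + 1) - 1 := by
  have h1 := L.fld.div x (y + 1)
  have h2 := hv.1
  have h3 := hv.2
  rw [add_sub_cancel_right] at h1
  linarith

/-- Change of `v` along a step to the south. -/
theorem Lev.stepS (L : Lev h v d κ a) {x y : ℤ} (hv : Val h a x y .S)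
    (ho : ¬ (x = 0 ∧ y = 0)) : v x (y - 1) ≤ v x y - 1 := by
  have h1 := L.fld.div x y
  have h2 := hv.1
  have h3 := hv.2
  have h4 := L.k0 x y ho
  linarith

/-- Change of `v` along a run to the east. -/
theorem Lev.runE (L : Lev h v d κ a) {p : ℕ → ℤ × ℤ} {e : ℕ → Dir} {i : ℕ} (k : ℕ)
    (hw : IsWalk h a p e i (i + k)) (he : ∀ m, i ≤ m → m < i + k → e m = .E) :
    (p (i + k)).2 = (p i).2 ∧ (p (i + k)).1 = (p i).1 + k ∧
    v (p (i + k)).1 (p (i + k)).2 ≤ v (p i).1 (p i).2 + 1 ∧
    v (p (i + k)).1 (p (i + k)).2 - v (p i).1 (p i).2 ≤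
      ∑ m ∈ Finset.range k, nf d ((p i).1 + m) (p i).2 - 2 * k := by
  have key : (p (i + k)).2 = (p i).2 ∧ (p (i + k)).1 = (p i).1 + k ∧
      v (p (i + k)).1 (p (i + k)).2 - v (p i).1 (p i).2 ≤
      ∑ m ∈ Finset.range k, nf d ((p i).1 + m) (p i).2 - 2 * k := by
    induction k with
    | zero => simp
    | succ k ih =>
      obtain ⟨h1, h2, h3⟩ := ih (hw.mono (le_refl _) (by omega)) (fun m hm1 hm2 => he m hm1 (by omega))
      obtain ⟨g1, g2, -⟩ := hw (i + k) (by omega) (by omega)
      rw [he (i + k) (by omega) (by omega)] at g1 g2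
      rw [← add_assoc, g2]
      simp only [Dir.vec, Prod.fst_add, Prod.snd_add]
      have g3 := L.stepE g1
      refine ⟨by omega, by push_cast; omega, ?_⟩
      rw [Finset.sum_range_succ, add_zero]
      push_cast
      rw [h1, h2] at g3 h3 ⊢
      linarith
  obtain ⟨h1, h2, h3⟩ := key
  refine ⟨h1, h2, ?_, h3⟩
  have h4 := L.fld.strip (p i).1 (p i).2 k
  linarith

/-- A step to the east is preceded by a step to the east or by a strong pass. -/
theorem Lev.before_E (L : Lev h v d κ a) {p : ℕ → ℤ × ℤ} {e : ℕ → Dir} {k : ℕ}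
    (hw : IsWalk h a p e k (k + 2)) (he : e (k + 1) = .E) :
    e k = .E ∨ v (p (k + 1)).1 (p (k + 1)).2 ≤ v (p k).1 (p k).2 - 1 := by
  obtain ⟨g1, g2, g3⟩ := hw k (by omega) (by omega)
  obtain ⟨g4, -, -⟩ := hw (k + 1) (by omega) (by omega)
  rw [he, g2] at g4
  cases hek : e k
  · -- N
    right
    rw [hek] at g1 g2 g4
    have g5 := L.stepN g1
    rw [g2]
    simp only [Dir.vec, Prod.fst_add, Prod.snd_add, add_zero] at g4 ⊢
    by_cases hκ : κ (p k).1 ((p k).2 + 1) = 1
    · exact absurd g4 (L.w2 _ _ hκ g1)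
    · have := L.k1 (p k).1 ((p k).2 + 1)
      omega
  · left; rfl
  · -- S
    right
    rw [hek] at g1 g2 g3
    rw [g2]
    simp only [Dir.vec, Prod.fst_add, Prod.snd_add, add_zero]
    have := L.stepS g1 (fun hc => g3 ⟨Prod.ext hc.1 hc.2, rfl⟩)
    rw [← sub_eq_add_neg]
    exact this
  · -- W : impossible
    exfalso
    rw [hek] at g1 g4
    simp only [Dir.vec, Prod.fst_add, Prod.snd_add, add_zero] at g4
    have h1 := g1.2
    have h2 := g4.1
    rw [← sub_eq_add_neg] at h2
    omega

/-- The start of the maximal run to the east ending at time `k`. -/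
theorem exists_run_start (e : ℕ → Dir) (i k : ℕ) (hik : i ≤ k) :
    ∃ k0, i ≤ k0 ∧ k0 ≤ k ∧ (∀ m, k0 ≤ m → m < k → e m = .E) ∧ (k0 = i ∨ e (k0 - 1) ≠ .E) := by
  induction k, hik using Nat.le_induction with
  | base => exact ⟨i, le_refl _, le_refl _, fun m h1 h2 => by omega, Or.inl rfl⟩
  | succ k hk ih =>
    by_cases he : e k = .E
    · obtain ⟨k0, h1, h2, h3, h4⟩ := ih
      refine ⟨k0, h1, by omega, fun m hm1 hm2 => ?_, h4⟩
      rcases eq_or_lt_of_le (show m ≤ k by omega) with h5 | h5
      · rw [h5]; exact he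
      · exact h3 m hm1 h5
    · exact ⟨k + 1, by omega, le_refl _, fun m h1 h2 => by omega, Or.inr (by simpa using he)⟩

/-- The main invariant along walks. -/
theorem Lev.invQ (L : Lev h v d κ a) {p : ℕ → ℤ × ℤ} {e : ℕ → Dir} {i : ℕ} (j : ℕ) (hij : i ≤ j)
    (hw : IsWalk h a p e i j) :
    v (p j).1 (p j).2 ≤ v (p i).1 (p i).2 ∨
      (i < j ∧ e (j - 1) = .E ∧ v (p j).1 (p j).2 = v (p i).1 (p i).2 + 1) := by
  induction j using Nat.strong_induction_on with
  | _ j ih =>
    rcases eq_or_lt_of_le hij with h0 | h0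
    · left; rw [h0]
    -- value at the start of a run to the east ending at time k < j
    have hstart : ∀ k, i ≤ k → k ≤ j → ∃ k0, i ≤ k0 ∧ k0 ≤ k ∧ (∀ m, k0 ≤ m → m < k → e m = .E) ∧
        (k0 < j → v (p k0).1 (p k0).2 ≤ v (p i).1 (p i).2) := by
      intro k hk1 hk2
      obtain ⟨k0, h1, h2, h3, h4⟩ := exists_run_start e i k hk1
      refine ⟨k0, h1, h2, h3, fun h5 => ?_⟩
      rcases h4 with h4 | h4
      · rw [h4]
      · rcases ih k0 h5 h1 (hw.mono (le_refl _) (by omega)) with h6 | h6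
        · exact h6
        · exact absurd h6.2.1 h4
    obtain ⟨m, rfl⟩ : ∃ m, j = m + 1 := ⟨j - 1, by omega⟩
    have hm := ih m (by omega) (by omega) (hw.mono (le_refl _) (by omega))
    obtain ⟨g1, g2, g3⟩ := hw m (by omega) (by omega)
    simp only [Nat.add_sub_cancel]
    cases hem : e m
    · -- N
      left
      rw [hem] at g1 g2
      have g5 := L.stepN g1
      have hk1 := L.k1 (p m).1 ((p m).2 + 1)
      rw [g2]
      simp only [Dir.vec, Prod.fst_add, Prod.snd_add, add_zero]
      by_cases hκ : κ (p m).1 ((p m).2 + 1) = 1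
      · -- weak pass
        rcases hm with hm | hm
        · omega
        · obtain ⟨k0, c1, c2, c3, c4⟩ := hstart m (by omega) (by omega)
          have c5 := c4 (by omega)
          obtain ⟨q, rfl⟩ := Nat.exists_eq_add_of_le c2
          obtain ⟨r1, r2, -, -⟩ := L.runE q (hw.mono c1 (by omega)) c3
          have c6 := L.w3 (p (k0 + q)).1 (p (k0 + q)).2 q hκ g1 (by
            intro t ht
            obtain ⟨s1, s2, -, -⟩ := L.runE t (hw.mono c1 (by omega))
              (fun m hm1 hm2 => c3 m hm1 (by omega))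
            have s3 := (hw (k0 + t) (by omega) (by omega)).1
            rw [c3 (k0 + t) (by omega) (by omega), s1, s2] at s3
            rw [r1, r2]
            simpa using s3)
          rw [r2] at c6
          rw [show (p k0).1 + (q : ℤ) - q = (p k0).1 by ring] at c6
          rw [r1, r2] at g5 hκ ⊢
          rw [r1] at c6
          omega
      · omega
    · -- E
      obtain ⟨k0, c1, c2, c3, c4⟩ := hstart m (by omega) (by omega)
      have c5 := c4 (by omega)
      obtain ⟨q, rfl⟩ := Nat.exists_eq_add_of_le c2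
      obtain ⟨-, -, r3, -⟩ := L.runE (q + 1) (i := k0) (hw.mono c1 (by omega)) (by
        intro t ht1 ht2
        rcases eq_or_lt_of_le (show t ≤ k0 + q by omega) with h5 | h5
        · rw [h5]; exact hem
        · exact c3 t ht1 h5)
      rw [show k0 + (q + 1) = k0 + q + 1 by ring] at r3
      by_cases hle : v (p (k0 + q + 1)).1 (p (k0 + q + 1)).2 ≤ v (p i).1 (p i).2
      · exact Or.inl hle
      · right
        refine ⟨by omega, rfl, by omega⟩
    · -- S
      left
      rw [hem] at g1 g2 g3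
      have g5 := L.stepS g1 (fun hc => g3 ⟨Prod.ext hc.1 hc.2, rfl⟩)
      rw [g2]
      simp only [Dir.vec, Prod.fst_add, Prod.snd_add, add_zero]
      rw [← sub_eq_add_neg]
      rcases hm with hm | hm <;> omega
    · -- W
      left
      rw [hem] at g1 g2
      have g5 := L.stepW g1
      rw [g2]
      simp only [Dir.vec, Prod.fst_add, Prod.snd_add, add_zero]
      rw [← sub_eq_add_neg]
      rcases hm with hm | hm
      · omega
      · exfalso
        obtain ⟨t, rfl⟩ : ∃ t, m = t + 1 := ⟨m - 1, by omega⟩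
        obtain ⟨f1, f2, -⟩ := hw t (by omega) (by omega)
        have f3 := hm.2.1
        simp only [Nat.add_sub_cancel] at f3
        rw [f3] at f1 f2
        rw [f2] at g1
        have q1 := f1.1
        have q2 := g1.2
        simp only [Dir.vec, Prod.fst_add, Prod.snd_add, add_zero, add_sub_cancel_right] at q2
        omega

/-- Claim A. -/
theorem Lev.claimA (L : Lev h v d κ a) {p : ℕ → ℤ × ℤ} {e : ℕ → Dir} {i j : ℕ} (hij : i ≤ j)
    (hw : IsWalk h a p e i j) : v (p j).1 (p j).2 ≤ v (p i).1 (p i).2 + 1 := by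
  rcases L.invQ j hij hw with h1 | h1 <;> omega

/-- The effect of a single step which is not an east step: weak or strong. -/
theorem Lev.step_le (L : Lev h v d κ a) {p : ℕ → ℤ × ℤ} {e : ℕ → Dir} {k : ℕ}
    (hw : IsWalk h a p e k (k + 1)) (he : e k ≠ .E) :
    v (p (k + 1)).1 (p (k + 1)).2 ≤ v (p k).1 (p k).2 := by
  rcases L.invQ (k + 1) (Nat.le_succ k) hw with h1 | h1
  · exact h1
  · exact absurd h1.2.1 (by simpa using he)

/-- After a west step or a weak pass the function `v` stays at most at its value. -/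
theorem Lev.after_W (L : Lev h v d κ a) {p : ℕ → ℤ × ℤ} {e : ℕ → Dir} {k : ℕ} (j : ℕ) (hkj : k < j)
    (hw : IsWalk h a p e k j) (he : e k ≠ .E)
    (hs : ¬ (v (p (k + 1)).1 (p (k + 1)).2 ≤ v (p k).1 (p k).2 - 1)) :
    v (p j).1 (p j).2 ≤ v (p k).1 (p k).2 := by
  -- either no strong drop at a step which is not east so far, or there was one
  have key : ((∀ m, k ≤ m → m < j → e m ≠ .E ∧
      ¬ (v (p (m + 1)).1 (p (m + 1)).2 ≤ v (p m).1 (p m).2 - 1))) ∨
      (∃ m, k ≤ m ∧ m < j ∧ v (p (m + 1)).1 (p (m + 1)).2 ≤ v (p m).1 (p m).2 - 1 ∧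
        (∀ t, k ≤ t → t ≤ m → e t ≠ .E)) := by
    induction j, Nat.succ_le_of_lt hkj using Nat.le_induction with
    | base =>
      left
      intro m hm1 hm2
      obtain rfl : m = k := by omega
      exact ⟨he, hs⟩
    | succ j hj ih =>
      rcases ih (by omega) (hw.mono (le_refl _) (by omega)) with h1 | ⟨m, h1, h2, h3⟩
      · by_cases hj' : v (p (j + 1)).1 (p (j + 1)).2 ≤ v (p j).1 (p j).2 - 1
        · by_cases hjE : e j = .E
          · exfalso
            obtain ⟨t, rfl⟩ : ∃ t, j = t + 1 := ⟨j - 1, by omega⟩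
            rcases L.before_E (hw.mono (show k ≤ t by omega) (show t + 2 ≤ t + 1 + 1 by omega)) hjE
              with h4 | h4
            · exact (h1 t (by omega) (by omega)).1 h4
            · exact (h1 t (by omega) (by omega)).2 h4
          · right
            refine ⟨j, by omega, by omega, hj', fun t ht1 ht2 => ?_⟩
            rcases eq_or_lt_of_le ht2 with h5 | h5
            · rw [h5]; exact hjE
            · exact (h1 t ht1 h5).1
        · left
          intro m hm1 hm2
          rcases eq_or_lt_of_le (show m ≤ j by omega) with h5 | h5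
          · subst h5
            refine ⟨fun hjE => ?_, hj'⟩
            obtain ⟨t, rfl⟩ : ∃ t, m = t + 1 := ⟨m - 1, by omega⟩
            rcases L.before_E (hw.mono (show k ≤ t by omega) (show t + 2 ≤ t + 1 + 1 by omega)) hjE
              with h4 | h4
            · exact (h1 t (by omega) (by omega)).1 h4
            · exact (h1 t (by omega) (by omega)).2 h4
          · exact h1 m hm1 h5
      · right
        exact ⟨m, h1, by omega, h3⟩
  -- without east steps `v` does not increase
  have hmono : ∀ m, k ≤ m → (∀ t, k ≤ t → t < m → e t ≠ .E) → m ≤ j →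
      v (p m).1 (p m).2 ≤ v (p k).1 (p k).2 := by
    intro m hm1
    induction m, hm1 using Nat.le_induction with
    | base => intro _ _; exact le_refl _
    | succ m hm ih =>
      intro h1 h2
      have h3 := ih (fun t ht1 ht2 => h1 t ht1 (by omega)) (by omega)
      have h4 := L.step_le (hw.mono (show k ≤ m by omega) h2) (h1 m hm (by omega))
      omega
  rcases key with h1 | ⟨m, h1, h2, h3, h4⟩
  · exact hmono j (by omega) (fun t ht1 ht2 => (h1 t ht1 ht2).1) (le_refl _)
  · have h5 := hmono m h1 (fun t ht1 ht2 => h4 t ht1 (by omega)) (by omega)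
    have h6 := L.claimA (show m + 1 ≤ j by omega) (hw.mono (by omega) (le_refl _))
    omega

/-- Equality structure: if `v` increases by one along a walk, then every step of the walk is a
step to the east or a pass with drop exactly one (from `v i + 1` to `v i`). -/
theorem Lev.eqStruct (L : Lev h v d κ a) {p : ℕ → ℤ × ℤ} {e : ℕ → Dir} {i j : ℕ} (hij : i ≤ j)
    (hw : IsWalk h a p e i j) (heq : v (p j).1 (p j).2 = v (p i).1 (p i).2 + 1) (k : ℕ)
    (hk1 : i ≤ k) (hk2 : k < j) : e k = .E ∨ ((e k = .N ∨ e k = .S) ∧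
      v (p k).1 (p k).2 = v (p i).1 (p i).2 + 1 ∧ v (p (k + 1)).1 (p (k + 1)).2 = v (p i).1 (p i).2) := by
  by_cases hE : e k = .E
  · exact Or.inl hE
  right
  have hA1 := L.claimA hk1 (hw.mono (le_refl _) (by omega))
  have hA2 := L.claimA (show k + 1 ≤ j by omega) (hw.mono (by omega) (le_refl _))
  by_cases hs : v (p (k + 1)).1 (p (k + 1)).2 ≤ v (p k).1 (p k).2 - 1
  · refine ⟨?_, by omega, by omega⟩
    cases hek : e k
    · exact Or.inl rfl
    · exact absurd hek hE
    · exact Or.inr rfl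
    · -- W
      exfalso
      have hQ := L.invQ k hk1 (hw.mono (le_refl _) (by omega))
      rcases hQ with h1 | ⟨h1, h2, h3⟩
      · omega
      · obtain ⟨t, rfl⟩ : ∃ t, k = t + 1 := ⟨k - 1, by omega⟩
        obtain ⟨f1, f2, -⟩ := hw t (by omega) (by omega)
        obtain ⟨g1, -, -⟩ := hw (t + 1) (by omega) (by omega)
        simp only [Nat.add_sub_cancel] at h2
        rw [h2] at f1 f2
        rw [f2, hek] at g1
        have q1 := f1.1
        have q2 := g1.2
        simp only [Dir.vec, Prod.fst_add, Prod.snd_add, add_zero, add_sub_cancel_right] at q2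
        omega
  · exfalso
    have h1 := L.after_W j hk2 (hw.mono hk1 (le_refl _)) hE hs
    -- the value at k is at most the value at i
    have hQ := L.invQ (k + 1) (by omega) (hw.mono (le_refl _) (by omega))
    rcases hQ with h2 | ⟨-, h2, -⟩
    · -- v (k+1) ≤ v i
      have h3 : ¬ (v (p (k + 1)).1 (p (k + 1)).2 ≤ v (p k).1 (p k).2 - 1) := hs
      have h4 := L.step_le (hw.mono hk1 (by omega)) hE
      omega
    · exact hE (by simpa using h2)

end RotorNE
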