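import Mathlib.Tactic
import Mathlib.Data.Nat.Nth
import Mathlib.Order.Filter.AtTopBot.Basic
import Mathlib.Algebra.BigOperators.Intervals
import Mathlib.Data.Int.Interval
import Pool.Agent.Lib.MP_936783_pr.Curve

/-!
# The level curve through the origin
-/

open Filter

namespace RotorNE

variable {h v : ℤ → ℤ → ℤ} {d : ℤ → ℤ → Dir} {κ : ℤ → ℤ → ℤ} {a : ℤ}

instance : Fintype Dir := ⟨{.N, .E, .S, .W}, by intro x; cases x <;> decide⟩

/-- `Arr h a X Y e`: the valid steps in direction `e` arriving at the node `(X, Y)`. -/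
def Arr (h : ℤ → ℤ → ℤ) (a : ℤ) (X Y : ℤ) : Dir → Prop
  | .N => h (X - 1) Y < a ∧ a ≤ h X Y
  | .S => h X (Y + 1) < a ∧ a ≤ h (X - 1) (Y + 1)
  | .E => h (X - 1) (Y + 1) < a ∧ a ≤ h (X - 1) Y
  | .W => h X Y < a ∧ a ≤ h X (Y + 1)

theorem val_iff_arr (x y : ℤ) (e : Dir) :
    Val h a x y e ↔ Arr h a (x + e.vec.1) (y + e.vec.2) e := by
  cases e <;> simp [Val, Arr, Dir.vec, ← sub_eq_add_neg]

/-- The next step along the curve (turning right whenever possible). -/
def nextDir (h : ℤ → ℤ → ℤ) (a : ℤ) (X Y : ℤ) : Dir → Dir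
  | .N => if a ≤ h X (Y + 1) then (if a ≤ h (X - 1) (Y + 1) then .W else .N) else .E
  | .E => if a ≤ h X Y then (if a ≤ h X (Y + 1) then .N else .E) else .S
  | .S => if a ≤ h (X - 1) Y then (if a ≤ h X Y then .E else .S) else .W
  | .W => if a ≤ h (X - 1) (Y + 1) then (if a ≤ h (X - 1) Y then .S else .W) else .N

theorem val_next {X Y : ℤ} {e : Dir} (hA : Arr h a X Y e) : Val h a X Y (nextDir h a X Y e) := by
  cases e <;> simp only [Arr, nextDir] at hA ⊢ <;> split_ifs <;> simp only [Val] <;> omega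

theorem next_inj {X Y : ℤ} {e e' : Dir} (hA : Arr h a X Y e) (hA' : Arr h a X Y e')
    (hn : nextDir h a X Y e = nextDir h a X Y e') : e = e' := by
  cases e <;> cases e' <;> simp only [Arr] at hA hA' <;> first
    | rfl
    | (exfalso; omega)
    | (exfalso; simp only [nextDir] at hn; split_ifs at hn <;> omega)

/-- Two different valid steps leave a node only at a checkerboard, and then two different valid
steps arrive. -/
theorem exists_arr {X Y : ℤ} {e : Dir} (hV : Val h a X Y e) : ∃ e', Arr h a X Y e' := by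
  cases e <;> simp only [Val] at hV
  · by_cases h1 : a ≤ h (X - 1) Y
    · exact ⟨.E, hV.1, h1⟩
    · by_cases h2 : a ≤ h X Y
      · exact ⟨.N, by omega, h2⟩
      · exact ⟨.W, by omega, hV.2⟩
  · by_cases h1 : a ≤ h (X - 1) Y
    · by_cases h2 : a ≤ h (X - 1) (Y + 1)
      · exact ⟨.S, hV.1, h2⟩
      · exact ⟨.E, by omega, h1⟩
    · exact ⟨.N, by omega, hV.2⟩
  · by_cases h1 : a ≤ h X (Y + 1)
    · exact ⟨.W, hV.1, h1⟩
    · by_cases h2 : a ≤ h (X - 1) (Y + 1)
      · exact ⟨.S, by omega, h2⟩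
      · exact ⟨.E, by omega, hV.2⟩
  · by_cases h1 : a ≤ h X Y
    · exact ⟨.N, hV.1, h1⟩
    · by_cases h2 : a ≤ h X (Y + 1)
      · exact ⟨.W, by omega, h2⟩
      · exact ⟨.S, by omega, hV.2⟩

/-- A walk does not reverse. -/
theorem IsWalk.no_rev {p : ℕ → ℤ × ℤ} {e : ℕ → Dir} {k : ℕ} (hw : IsWalk h a p e k (k + 2)) :
    e (k + 1) ≠ (e k).next.next := by
  obtain ⟨g1, g2, -⟩ := hw k (by omega) (by omega)
  obtain ⟨g4, -, -⟩ := hw (k + 1) (by omega) (by omega)
  intro hc
  rw [val_iff_arr] at g1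
  rw [g2, hc] at g4
  cases hek : e k <;> rw [hek] at g1 g4 <;> simp only [Dir.next, Prod.fst_add, Prod.snd_add] at g4 <;>
    simp only [Val, Arr] at g1 g4 <;> omega

theorem mono_x {p : ℕ → ℤ × ℤ} {e : ℕ → Dir} {s : ℕ} (t : ℕ) (hst : s ≤ t)
    (hp : ∀ k, s ≤ k → k < t → p (k + 1) = p k + (e k).vec)
    (hW : ∀ k, s ≤ k → k < t → e k ≠ .W) : (p s).1 ≤ (p t).1 := by
  induction t, hst using Nat.le_induction with
  | base => exact le_refl _
  | succ t ht ih =>
    have h1 := ih (fun k h1 h2 => hp k h1 (by omega)) (fun k h1 h2 => hW k h1 (by omega))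
    rw [hp t ht (by omega)]
    have h2 := hW t ht (by omega)
    cases he : e t
    · simpa [Dir.vec] using h1
    · simp only [Dir.vec, Prod.fst_add]; omega
    · simpa [Dir.vec] using h1
    · exact absurd he h2

theorem mono_x' {p : ℕ → ℤ × ℤ} {e : ℕ → Dir} {s : ℕ} (t : ℕ) (hst : s ≤ t)
    (hp : ∀ k, s ≤ k → k < t → p (k + 1) = p k + (e k).vec)
    (hW : ∀ k, s ≤ k → k < t → e k ≠ .E) : (p t).1 ≤ (p s).1 := by
  induction t, hst using Nat.le_induction with
  | base => exact le_refl _
  | succ t ht ih =>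
    have h1 := ih (fun k h1 h2 => hp k h1 (by omega)) (fun k h1 h2 => hW k h1 (by omega))
    rw [hp t ht (by omega)]
    have h2 := hW t ht (by omega)
    cases he : e t
    · simpa [Dir.vec] using h1
    · exact absurd he h2
    · simpa [Dir.vec] using h1
    · simp only [Dir.vec, Prod.fst_add]; omega

theorem mono_y {p : ℕ → ℤ × ℤ} {e : ℕ → Dir} {s : ℕ} (t : ℕ) (hst : s ≤ t)
    (hp : ∀ k, s ≤ k → k < t → p (k + 1) = p k + (e k).vec)
    (hW : ∀ k, s ≤ k → k < t → e k ≠ .S) : (p s).2 ≤ (p t).2 := by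
  induction t, hst using Nat.le_induction with
  | base => exact le_refl _
  | succ t ht ih =>
    have h1 := ih (fun k h1 h2 => hp k h1 (by omega)) (fun k h1 h2 => hW k h1 (by omega))
    rw [hp t ht (by omega)]
    have h2 := hW t ht (by omega)
    cases he : e t
    · simp only [Dir.vec, Prod.snd_add]; omega
    · simpa [Dir.vec] using h1
    · exact absurd he h2
    · simpa [Dir.vec] using h1

/-- There is no infinite periodic walk. -/
theorem Lev.no_periodic (L : Lev h v d κ a) {p : ℕ → ℤ × ℤ} {e : ℕ → Dir} {N : ℕ} (hN : 0 < N)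
    (hw : ∀ i j, IsWalk h a p e i j) (hp : ∀ k, p (k + N) = p k) (he : ∀ k, e (k + N) = e k) :
    False := by
  have hstep : ∀ k, p (k + 1) = p k + (e k).vec := fun k => (hw k (k + 1) k (by omega) (by omega)).2.1
  have hN1 : N ≠ 1 := by
    rintro rfl
    have h1 := hstep 0
    rw [hp 0] at h1
    have h2 : (e 0).vec = 0 := by simpa using h1
    cases he0 : e 0 <;> rw [he0] at h2 <;> simp [Dir.vec, Prod.ext_iff] at h2
  by_cases hA : ∃ k, e k ≠ .E ∧ v (p (k + 1)).1 (p (k + 1)).2 ≤ v (p k).1 (p k).2 - 1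
  · obtain ⟨k, hk1, hk2⟩ := hA
    have h1 := L.claimA (show k + 1 ≤ k + N by omega) (hw _ _)
    rw [hp k] at h1
    have heq : v (p (k + N)).1 (p (k + N)).2 = v (p (k + 1)).1 (p (k + 1)).2 + 1 := by
      rw [hp k]; omega
    have hst := L.eqStruct (show k + 1 ≤ k + N by omega) (hw _ _) heq
    have hE1 : e (k + 1) = .E := by
      rcases hst (k + 1) (le_refl _) (by omega) with h2 | ⟨-, h2, -⟩
      · exact h2
      · omega
    have hkW : e k ≠ .W := by
      intro hc
      have := (hw k (k + 2)).no_rev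
      rw [hc, hE1] at this
      exact this rfl
    have hx1 : (p (k + 1)).1 = (p k).1 := by
      rw [hstep k]
      cases hek : e k
      · simp [Dir.vec]
      · exact absurd hek hk1
      · simp [Dir.vec]
      · exact absurd hek hkW
    have hx2 : (p (k + 2)).1 = (p (k + 1)).1 + 1 := by
      rw [hstep (k + 1), hE1]
      simp [Dir.vec]
    have hx3 := mono_x (p := p) (e := e) (s := k + 2) (k + N) (by omega) (fun m _ _ => hstep m)
      (by
        intro m hm1 hm2 hc
        rcases hst m (by omega) hm2 with h2 | ⟨h2 | h2, -, -⟩ <;> rw [hc] at h2 <;> cases h2)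
    rw [hp k] at hx3
    omega
  · push Not at hA
    have hback : ∀ k, e (k + 1) = .E → e k = .E := by
      intro k hk
      rcases L.before_E (hw k (k + 2)) hk with h1 | h1
      · exact h1
      · by_contra hne
        have := hA k hne
        omega
    by_cases hE : ∃ k, e k = .E
    · obtain ⟨k, hk⟩ := hE
      have hdown : ∀ m, m ≤ k → e (k - m) = .E := by
        intro m
        induction m with
        | zero => intro _; simpa using hk
        | succ m ih =>
          intro hm
          apply hback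
          rw [show k - (m + 1) + 1 = k - m by omega]
          exact ih (by omega)
      have h0 : e 0 = .E := by
        have := hdown k (le_refl _)
        simpa using this
      have hNE : e N = .E := by
        have := he 0
        rw [zero_add] at this
        rw [this, h0]
      have hall : ∀ m, m ≤ N → e (N - m) = .E := by
        intro m
        induction m with
        | zero => intro _; simpa using hNE
        | succ m ih =>
          intro hm
          apply hback
          rw [show N - (m + 1) + 1 = N - m by omega]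
          exact ih (by omega)
      have hx := mono_x (p := p) (e := e) (s := 1) N (by omega) (fun m _ _ => hstep m) (by
        intro m hm1 hm2 hc
        have := hall (N - m) (by omega)
        rw [show N - (N - m) = m by omega, hc] at this
        cases this)
      have h1 := hstep 0
      rw [h0] at h1
      have h2 : (p 1).1 = (p 0).1 + 1 := by rw [zero_add] at h1; rw [h1]; simp [Dir.vec]
      have h3 := hp 0
      rw [zero_add] at h3
      rw [h3] at hx
      omega
    · push Not at hE
      by_cases hW : ∃ k, e k = .W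
      · obtain ⟨k, hk⟩ := hW
        have hx := mono_x' (p := p) (e := e) (s := k + 1) (k + N) (by omega) (fun m _ _ => hstep m)
          (fun m _ _ => hE m)
        rw [hp k, hstep k, hk] at hx
        simp only [Dir.vec, Prod.fst_add] at hx
        omega
      · push Not at hW
        have hS : ∀ k, e k ≠ .S := by
          intro k hk
          have h1 := hA k (hE k)
          obtain ⟨g1, g2, g3⟩ := hw k (k + 1) k (by omega) (by omega)
          rw [hk] at g1 g2 g3
          have h2 := L.stepS g1 (fun hc => g3 ⟨Prod.ext hc.1 hc.2, rfl⟩)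
          rw [g2] at h1
          simp only [Dir.vec, Prod.fst_add, Prod.snd_add, add_zero] at h1
          rw [← sub_eq_add_neg] at h1
          omega
        have h0 : e 0 = .N := by
          cases h0 : e 0
          · rfl
          · exact absurd h0 (hE 0)
          · exact absurd h0 (hS 0)
          · exact absurd h0 (hW 0)
        have hy := mono_y (p := p) (e := e) (s := 1) N (by omega) (fun m _ _ => hstep m)
          (fun m _ _ => hS m)
        have h1 := hstep 0
        rw [h0, zero_add] at h1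
        have h3 := hp 0
        rw [zero_add] at h3
        rw [h3, h1] at hy
        simp only [Dir.vec, Prod.snd_add] at hy
        omega

/-- There is no closed walk avoiding the step through the origin. -/
theorem Lev.no_closed (L : Lev h v d κ a) {p : ℕ → ℤ × ℤ} {e : ℕ → Dir} {i j : ℕ} (hij : i < j)
    (hw : IsWalk h a p e i j) (hcl : p i = p j) : False := by
  have hN : 0 < j - i := by omega
  refine L.no_periodic (p := fun m => p (i + m % (j - i))) (e := fun m => e (i + m % (j - i))) hN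
    ?_ ?_ ?_
  · intro i' j' k _ _
    have hm : k % (j - i) < j - i := Nat.mod_lt _ hN
    obtain ⟨g1, g2, g3⟩ := hw (i + k % (j - i)) (by omega) (by omega)
    refine ⟨g1, ?_, g3⟩
    simp only
    rw [← g2]
    have hk := Nat.div_add_mod k (j - i)
    rcases eq_or_lt_of_le (show k % (j - i) + 1 ≤ j - i by omega) with h1 | h1
    · have h2 : (k + 1) % (j - i) = 0 := by
        have h3 : k + 1 = (j - i) * (k / (j - i) + 1) := by
          rw [Nat.mul_add, mul_one]; omega
        rw [h3, Nat.mul_mod_right]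
      rw [h2, add_zero, hcl]
      congr 1
      omega
    · have h2 : (k + 1) % (j - i) = k % (j - i) + 1 := by
        have h3 : k + 1 = (j - i) * (k / (j - i)) + (k % (j - i) + 1) := by omega
        conv_lhs => rw [h3]
        rw [Nat.mul_add_mod, Nat.mod_eq_of_lt h1]
      rw [h2, ← add_assoc]
  · intro k
    simp only [Nat.add_mod_right]
  · intro k
    simp only [Nat.add_mod_right]

/-- The valid steps. -/
abbrev VStep (h : ℤ → ℤ → ℤ) (a : ℤ) : Type :=
  {s : (ℤ × ℤ) × Dir // Val h a s.1.1 s.1.2 s.2}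

/-- The next step. -/
def nx (h : ℤ → ℤ → ℤ) (a : ℤ) (s : VStep h a) : VStep h a :=
  ⟨(s.1.1 + s.1.2.vec, nextDir h a (s.1.1 + s.1.2.vec).1 (s.1.1 + s.1.2.vec).2 s.1.2),
    val_next ((val_iff_arr _ _ _).1 s.2)⟩

theorem nx_inj : Function.Injective (nx h a) := by
  intro s t hst
  have h1 : s.1.1 + s.1.2.vec = t.1.1 + t.1.2.vec := congrArg (fun q => q.1.1) hst
  have h2 : nextDir h a (s.1.1 + s.1.2.vec).1 (s.1.1 + s.1.2.vec).2 s.1.2 =
    nextDir h a (t.1.1 + t.1.2.vec).1 (t.1.1 + t.1.2.vec).2 t.1.2 :=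
    congrArg (fun q => q.1.2) hst
  have hs := (val_iff_arr _ _ _).1 s.2
  have ht := (val_iff_arr _ _ _).1 t.2
  have e1 : s.1.1.1 + s.1.2.vec.1 = t.1.1.1 + t.1.2.vec.1 := congrArg Prod.fst h1
  have e2 : s.1.1.2 + s.1.2.vec.2 = t.1.1.2 + t.1.2.vec.2 := congrArg Prod.snd h1
  rw [← h1] at h2
  rw [← e1, ← e2] at ht
  have h3 : s.1.2 = t.1.2 := next_inj hs ht h2
  apply Subtype.ext
  apply Prod.ext
  · rw [h3] at h1
    exact add_right_cancel h1
  · exact h3

theorem Lev.finite (L : Lev h v d κ a) : Finite (VStep h a) := by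
  obtain ⟨B, hB⟩ := L.fin
  have : Set.Finite {s : (ℤ × ℤ) × Dir | Val h a s.1.1 s.1.2 s.2} := by
    refine Set.Finite.subset (((Set.finite_Icc (-B) B).prod (Set.finite_Icc (-B) B)).prod
      (Set.toFinite (Set.univ : Set Dir))) ?_
    intro s hs
    have := hB _ _ _ hs
    simp only [Set.mem_prod, Set.mem_Icc, Set.mem_univ, and_true]
    rw [abs_le, abs_le] at this
    exact this
  exact this.to_subtype

/-- The level curve through the origin, parametrised from the step to the south through the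
origin. -/
structure LCurve (h : ℤ → ℤ → ℤ) (a : ℤ) (T : ℕ) (p : ℕ → ℤ × ℤ) (e : ℕ → Dir) : Prop where
  hT : 0 < T
  p0 : p 0 = (0, 0)
  e0 : e 0 = .S
  val : ∀ k, k < T → Val h a (p k).1 (p k).2 (e k)
  step : ∀ k, k < T → p (k + 1) = p k + (e k).vec
  pT : p T = (0, 0)
  inj : ∀ i j, i < T → j < T → p i = p j → i = j
  all : ∀ x y e', Val h a x y e' → ∃ k, k < T ∧ p k = (x, y) ∧ e k = e'

theorem nx_step (s : VStep h a) (k : ℕ) :
    ((nx h a)^[k + 1] s).1.1 = ((nx h a)^[k] s).1.1 + ((nx h a)^[k] s).1.2.vec := by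
  rw [Function.iterate_succ_apply']
  rfl

/-- Every valid step leads to the step to the south through the origin. -/
theorem Lev.hits (L : Lev h v d κ a) (s : VStep h a) :
    ∃ k, ((nx h a)^[k] s).1 = ((0, 0), Dir.S) := by
  by_contra hcon
  push Not at hcon
  have := L.finite
  have hper := (nx_inj (h := h) (a := a)).mem_periodicPts s
  obtain ⟨N, hN, hNs⟩ := Function.mem_periodicPts.1 hper
  refine L.no_closed (p := fun k => ((nx h a)^[k] s).1.1) (e := fun k => ((nx h a)^[k] s).1.2)
    (i := 0) (j := N) hN ?_ ?_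
  · intro k _ _
    refine ⟨((nx h a)^[k] s).2, nx_step s k, ?_⟩
    rintro ⟨h1, h2⟩
    exact hcon k (Prod.ext h1 h2)
  · simp only [Function.iterate_zero, id]
    rw [hNs.eq]

theorem Lev.exists_curve (L : Lev h v d κ a) (hne : ∃ x y e, Val h a x y e) :
    ∃ (T : ℕ) (p : ℕ → ℤ × ℤ) (e : ℕ → Dir), LCurve h a T p e := by
  obtain ⟨x0, y0, e0, hv0⟩ := hne
  have := L.finite
  obtain ⟨k0, hk0⟩ := L.hits ⟨((x0, y0), e0), hv0⟩
  obtain ⟨o, ho⟩ : ∃ o : VStep h a, o.1 = ((0, 0), Dir.S) := ⟨_, hk0⟩
  have hper : ∀ s : VStep h a, s ∈ Function.periodicPts (nx h a) :=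
    fun s => (nx_inj (h := h) (a := a)).mem_periodicPts s
  set T := Function.minimalPeriod (nx h a) o with hTdef
  have hT : 0 < T := Function.minimalPeriod_pos_of_mem_periodicPts (hper o)
  have hTo : (nx h a)^[T] o = o := Function.isPeriodicPt_minimalPeriod (nx h a) o
  have hno : ∀ k, 0 < k → k < T → ((nx h a)^[k] o).1 ≠ ((0, 0), Dir.S) := by
    intro k h1 h2 h3
    have h4 : (nx h a)^[k] o = o := Subtype.ext (by rw [h3, ho])
    exact Function.not_isPeriodicPt_of_pos_of_lt_minimalPeriod (by omega) h2 h4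
  have hwalk : ∀ i j, 0 < i → j ≤ T → IsWalk h a (fun k => ((nx h a)^[k] o).1.1)
      (fun k => ((nx h a)^[k] o).1.2) i j := by
    intro i j hi hj k hk1 hk2
    refine ⟨((nx h a)^[k] o).2, nx_step o k, ?_⟩
    rintro ⟨h1, h2⟩
    exact hno k (by omega) (by omega) (Prod.ext h1 h2)
  have hpT : ((nx h a)^[T] o).1.1 = (0, 0) := by rw [hTo, ho]
  have hp0 : ((nx h a)^[0] o).1.1 = (0, 0) := by
    simp only [Function.iterate_zero, id]; rw [ho]
  have hinj : ∀ i j, i < j → j < T → ((nx h a)^[i] o).1.1 ≠ ((nx h a)^[j] o).1.1 := by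
    intro i j hij hj hc
    rcases Nat.eq_zero_or_pos i with hi | hi
    · subst hi
      rw [hp0] at hc
      exact L.no_closed hj (hwalk j T (by omega) (le_refl _)) (by rw [← hc, hpT])
    · exact L.no_closed hij (hwalk i j hi (by omega)) hc
  refine ⟨T, fun k => ((nx h a)^[k] o).1.1, fun k => ((nx h a)^[k] o).1.2, ?_⟩
  constructor
  · exact hT
  · exact hp0
  · simp only [Function.iterate_zero, id]; rw [ho]
  · intro k _
    exact ((nx h a)^[k] o).2
  · intro k _
    exact nx_step o k
  · exact hpT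
  · intro i j hi hj hc
    rcases lt_trichotomy i j with h1 | h1 | h1
    · exact absurd hc (hinj i j h1 hj)
    · exact h1
    · exact absurd hc.symm (hinj j i h1 hi)
  · intro x y e' hv'
    obtain ⟨k, hk⟩ := L.hits ⟨((x, y), e'), hv'⟩
    obtain ⟨N, hN, hNs⟩ := Function.mem_periodicPts.1 (hper ⟨((x, y), e'), hv'⟩)
    have hko : (nx h a)^[k] ⟨((x, y), e'), hv'⟩ = o := Subtype.ext (by rw [hk, ho])
    have hm : (nx h a)^[N * (k + 1) - k] o = ⟨((x, y), e'), hv'⟩ := by
      rw [← hko, ← Function.iterate_add_apply]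
      have h1 : N * (k + 1) - k + k = N * (k + 1) := by
        have : k ≤ N * (k + 1) := by nlinarith
        omega
      rw [h1]
      exact (hNs.mul_const (k + 1)).eq
    refine ⟨(N * (k + 1) - k) % T, Nat.mod_lt _ hT, ?_, ?_⟩
    · rw [Function.iterate_mod_minimalPeriod_eq, hm]
    · rw [Function.iterate_mod_minimalPeriod_eq, hm]

/-- The walk of a level curve from time `i ≥ 1`. -/
theorem LCurve.walk {T : ℕ} {p : ℕ → ℤ × ℤ} {e : ℕ → Dir} (C : LCurve h a T p e) {i j : ℕ}
    (hi : 0 < i) (hj : j ≤ T) : IsWalk h a p e i j := by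
  intro k hk1 hk2
  refine ⟨C.val k (by omega), C.step k (by omega), ?_⟩
  rintro ⟨h1, -⟩
  have := C.inj k 0 (by omega) C.hT (by rw [h1, C.p0])
  omega

/-- Two valid steps leaving the same node are equal. -/
theorem LCurve.out_unique {T : ℕ} {p : ℕ → ℤ × ℤ} {e : ℕ → Dir} (C : LCurve h a T p e)
    {x y : ℤ} {e1 e2 : Dir} (h1 : Val h a x y e1) (h2 : Val h a x y e2) : e1 = e2 := by
  obtain ⟨k1, hk1, hp1, he1⟩ := C.all x y e1 h1
  obtain ⟨k2, hk2, hp2, he2⟩ := C.all x y e2 h2
  have := C.inj k1 k2 hk1 hk2 (by rw [hp1, hp2])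
  rw [← he1, ← he2, this]

/-- No checkerboards. -/
theorem Lev.no_checker (L : Lev h v d κ a) {x y : ℤ} :
    ¬ (a ≤ h (x - 1) y ∧ h x y < a ∧ h (x - 1) (y + 1) < a ∧ a ≤ h x (y + 1)) ∧
    ¬ (h (x - 1) y < a ∧ a ≤ h x y ∧ a ≤ h (x - 1) (y + 1) ∧ h x (y + 1) < a) := by
  constructor
  · rintro ⟨h1, h2, h3, h4⟩
    have v1 : Val h a x y .N := ⟨h3, h4⟩
    have v2 : Val h a x y .S := ⟨h2, h1⟩
    obtain ⟨T, p, e, C⟩ := L.exists_curve ⟨x, y, .N, v1⟩
    have := C.out_unique v1 v2
    cases this
  · rintro ⟨h1, h2, h3, h4⟩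
    have v1 : Val h a x y .E := ⟨h4, h2⟩
    have v2 : Val h a x y .W := ⟨h1, h3⟩
    obtain ⟨T, p, e, C⟩ := L.exists_curve ⟨x, y, .E, v1⟩
    have := C.out_unique v1 v2
    cases this

end RotorNE
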