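import Mathlib.Tactic
import Mathlib.Data.Nat.Nth
import Mathlib.Order.Filter.AtTopBot.Basic
import Mathlib.Algebra.BigOperators.Intervals
import Mathlib.Data.Int.Interval
import Pool.Agent.Lib.MP_936783_pr.Orbit
import Pool.Agent.Lib.MP_936783_pr.Contact

/-!
# Contacts: definitions

For a slope `(a, b)` the boundary of `{h ≥ a}` (nodes: vertical edges, carrying `v`) and the
boundary of `{v ≥ b}` (nodes: horizontal edges, carrying `h`) meet in a contact `K`, which is a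
perfect diagonal chain of vertices and faces, or a single face.
-/

namespace RotorNE

/-- Contacts. `ne x y m`: the vertices `(x + i, y + i)`, `0 ≤ i ≤ m`, and the faces with
south-west corner `(x + i, y + i)`, `i < m`. `se x y m`: the vertices `(x + i, y - i)`,
`0 ≤ i ≤ m`, and the faces with north-west corner `(x + i, y - i)`, `i < m`.
`fe x y`, `fw x y`: the single face with south-west corner `(x, y)`, crossed to the east or to
the west by the boundary of `{h ≥ a}`. -/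
inductive Kc
  | ne (x y : ℤ) (m : ℕ)
  | se (x y : ℤ) (m : ℕ)
  | fe (x y : ℤ)
  | fw (x y : ℤ)

/-- Cells: vertices and faces (with south-west corner). -/
inductive Cell
  | vx (x y : ℤ)
  | fc (x y : ℤ)

/-- Entry and exit nodes (vertical edges) on the boundary of `{h ≥ a}`. -/
def Kc.nodeIn : Kc → ℤ × ℤ
  | .ne x y _ => (x, y - 1)
  | .se x y _ => (x, y)
  | .fe x y => (x, y)
  | .fw x y => (x + 1, y)
def Kc.nodeOut : Kc → ℤ × ℤ
  | .ne x y m => (x + m, y + m)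
  | .se x y m => (x + m, y - m - 1)
  | .fe x y => (x + 1, y)
  | .fw x y => (x, y)
/-- Entry and exit nodes (horizontal edges) on the boundary of `{v ≥ b}`. -/
def Kc.edgeIn : Kc → ℤ × ℤ
  | .ne x y _ => (x - 1, y)
  | .se x y m => (x + m, y - m)
  | .fe x y => (x, y + 1)
  | .fw x y => (x, y)
def Kc.edgeOut : Kc → ℤ × ℤ
  | .ne x y m => (x + m, y + m)
  | .se x y _ => (x - 1, y)
  | .fe x y => (x, y)
  | .fw x y => (x, y + 1)

/-- First and last cell along the boundary of `{h ≥ a}`. -/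
def Kc.hFirst : Kc → Cell
  | .ne x y _ => .vx x y
  | .se x y _ => .vx x y
  | .fe x y => .fc x y
  | .fw x y => .fc x y
def Kc.hLast : Kc → Cell
  | .ne x y m => .vx (x + m) (y + m)
  | .se x y m => .vx (x + m) (y - m)
  | .fe x y => .fc x y
  | .fw x y => .fc x y
/-- First and last cell along the boundary of `{v ≥ b}`. -/
def Kc.vFirst : Kc → Cell
  | .ne x y _ => .vx x y
  | .se x y m => .vx (x + m) (y - m)
  | .fe x y => .fc x y
  | .fw x y => .fc x y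
def Kc.vLast : Kc → Cell
  | .ne x y m => .vx (x + m) (y + m)
  | .se x y _ => .vx x y
  | .fe x y => .fc x y
  | .fw x y => .fc x y

/-- The Cauchy-Riemann equation of a contact. -/
theorem Kc.cr (K : Kc) : K.edgeOut.1 - K.edgeIn.1 = K.nodeOut.2 - K.nodeIn.2 := by
  cases K <;> simp only [Kc.edgeOut, Kc.edgeIn, Kc.nodeOut, Kc.nodeIn] <;> ring

/-- Local description of a contact of slope `(a, b)`. -/
def IsK (h v : ℤ → ℤ → ℤ) (a b : ℤ) : Kc → Prop
  | .ne x y m =>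
    (∀ i : ℕ, i ≤ m → h (x + i - 1) (y + i) < a ∧ a ≤ h (x + i) (y + i) ∧
      b ≤ v (x + i) (y + i - 1) ∧ v (x + i) (y + i) < b) ∧
    (∀ i : ℕ, i < m → h (x + i) (y + i) = a ∧ h (x + i) (y + i + 1) = a - 1 ∧
      v (x + i) (y + i) = b - 1 ∧ v (x + i + 1) (y + i) = b)
  | .se x y m =>
    (∀ i : ℕ, i ≤ m → a ≤ h (x + i - 1) (y - i) ∧ h (x + i) (y - i) < a ∧
      v (x + i) (y - i - 1) < b ∧ b ≤ v (x + i) (y - i)) ∧
    (∀ i : ℕ, i < m → h (x + i) (y - i - 1) = a ∧ h (x + i) (y - i) = a - 1 ∧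
      v (x + i) (y - i - 1) = b - 1 ∧ v (x + i + 1) (y - i - 1) = b)
  | .fe x y => a ≤ h x y ∧ h x (y + 1) < a ∧ b ≤ v x y ∧ v (x + 1) y < b
  | .fw x y => h x y < a ∧ a ≤ h x (y + 1) ∧ b ≤ v (x + 1) y ∧ v x y < b

/-- The horizontal link (along the boundary of `{h ≥ a}`) from the contact `K'` of slope
`(a, b + 1)` to the contact `K` of slope `(a, b)`: either a straight run of nodes with `v = b`, or
the last cell of `K'` is the first cell of `K`. -/
def HLink (h v : ℤ → ℤ → ℤ) (a b : ℤ) (K' K : Kc) : Prop :=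
  (K'.nodeOut.2 = K.nodeIn.2 ∧
    ((K'.nodeOut.1 ≤ K.nodeIn.1 ∧
      (∀ x, K'.nodeOut.1 ≤ x → x ≤ K.nodeIn.1 → v x K.nodeIn.2 = b) ∧
      (∀ x, K'.nodeOut.1 ≤ x → x < K.nodeIn.1 →
        a ≤ h x K.nodeIn.2 ∧ h x (K.nodeIn.2 + 1) < a)) ∨
     (K.nodeIn.1 ≤ K'.nodeOut.1 ∧
      (∀ x, K.nodeIn.1 ≤ x → x ≤ K'.nodeOut.1 → v x K.nodeIn.2 = b) ∧
      (∀ x, K.nodeIn.1 ≤ x → x < K'.nodeOut.1 →
        h x K.nodeIn.2 < a ∧ a ≤ h x (K.nodeIn.2 + 1))))) ∨
  (K'.hLast = K.hFirst)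

/-- The vertical link (along the boundary of `{v ≥ b}`) from the contact `K` of slope `(a, b)` to
the contact `K'` of slope `(a + 1, b)`: either a straight run of horizontal edges with `h = a`, or
the last cell of `K` is the first cell of `K'`. -/
def VLink (h v : ℤ → ℤ → ℤ) (a b : ℤ) (K K' : Kc) : Prop :=
  (K.edgeOut.1 = K'.edgeIn.1 ∧
    ((K.edgeOut.2 ≤ K'.edgeIn.2 ∧
      (∀ y, K.edgeOut.2 ≤ y → y ≤ K'.edgeIn.2 → h K.edgeOut.1 y = a) ∧
      (∀ y, K.edgeOut.2 ≤ y → y < K'.edgeIn.2 →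
        v K.edgeOut.1 y < b ∧ b ≤ v (K.edgeOut.1 + 1) y)) ∨
     (K'.edgeIn.2 ≤ K.edgeOut.2 ∧
      (∀ y, K'.edgeIn.2 ≤ y → y ≤ K.edgeOut.2 → h K.edgeOut.1 y = a) ∧
      (∀ y, K'.edgeIn.2 ≤ y → y < K.edgeOut.2 →
        b ≤ v K.edgeOut.1 y ∧ v (K.edgeOut.1 + 1) y < b)))) ∨
  (K.vLast = K'.vFirst)

/-- A system of contacts for all slopes in the box of radius `R`, the slope `(0, 0)` excluded. -/
structure Contacts (w : ℤ → ℤ → ℤ) (R : ℤ) (K : ℤ → ℤ → Kc) : Prop where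
  isK : ∀ a b, |a| ≤ R → |b| ≤ R → ¬ (a = 0 ∧ b = 0) → IsK (fA w) (fB w) a b (K a b)
  hlink : ∀ a b, |a| ≤ R → |b| ≤ R → |b + 1| ≤ R → ¬ (a = 0 ∧ b = 0) → ¬ (a = 0 ∧ b + 1 = 0) →
    HLink (fA w) (fB w) a b (K a (b + 1)) (K a b)
  vlink : ∀ a b, |a| ≤ R → |b| ≤ R → |a + 1| ≤ R → ¬ (a = 0 ∧ b = 0) → ¬ (a + 1 = 0 ∧ b = 0) →
    VLink (fA w) (fB w) a b (K a b) (K (a + 1) b)

end RotorNE
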