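import Mathlib.Tactic
import Mathlib.Data.Nat.Nth
import Mathlib.Order.Filter.AtTopBot.Basic
import Mathlib.Algebra.BigOperators.Intervals
import Mathlib.Data.Int.Interval
import Pool.Agent.Lib.MP_936783_pr.Cells

/-!
# Crossings of two level curves: the adjacency lemma
-/

open Filter

namespace RotorNE

variable {h v : ℤ → ℤ → ℤ} {d : ℤ → ℤ → Dir} {κ : ℤ → ℤ → ℤ} {a b : ℤ}

/-- The first time at which a predicate fails. -/
theorem exists_switch (P : ℕ → Prop) {i j : ℕ} (hij : i ≤ j) (hi : P i) (hj : ¬ P j) :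
    ∃ t, i ≤ t ∧ t < j ∧ (∀ k, i ≤ k → k ≤ t → P k) ∧ ¬ P (t + 1) := by
  classical
  have hex : ∃ n, i ≤ n ∧ ¬ P n := ⟨j, hij, hj⟩
  obtain ⟨h1, h2⟩ := Nat.find_spec hex
  have h3 : Nat.find hex ≤ j := Nat.find_min' hex ⟨hij, hj⟩
  have h4 : i < Nat.find hex := by
    rcases Nat.lt_or_ge i (Nat.find hex) with h | h
    · exact h
    · exfalso
      have : Nat.find hex = i := le_antisymm h h1
      rw [this] at h2
      exact h2 hi
  refine ⟨Nat.find hex - 1, by omega, by omega, fun k hk1 hk2 => ?_, ?_⟩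
  · by_contra hc
    exact Nat.find_min hex (m := k) (by omega) ⟨hk1, hc⟩
  · rw [Nat.sub_add_cancel (by omega)]
    exact h2

/-- The last time at which a predicate fails. -/
theorem exists_switch' (P : ℕ → Prop) {i j : ℕ} (hij : i ≤ j) (hi : ¬ P i) (hj : P j) :
    ∃ t, i ≤ t ∧ t < j ∧ ¬ P t ∧ (∀ k, t < k → k ≤ j → P k) := by
  obtain ⟨t, h1, h2, h3, h4⟩ := exists_switch (fun m => P (i + j - m)) hij
    (by simpa using hj) (by simpa using hi)
  refine ⟨i + j - (t + 1), by omega, by omega, h4, fun k hk1 hk2 => ?_⟩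
  have := h3 (i + j - k) (by omega) (by omega)
  rw [show i + j - (i + j - k) = k by omega] at this
  exact this

/-- Before a unit step upwards. -/
theorem Lev.core1 (L : Lev h v d κ a) {T : ℕ} {p : ℕ → ℤ × ℤ} {e : ℕ → Dir}
    (C : LCurve h a T p e) {s m : ℕ} {c : ℤ} (hs : s < T)
    (hV2 : v (p (s + 1)).1 (p (s + 1)).2 = c + 1)
    (hm : 1 ≤ m) (hms : m < s) (hVm : v (p (m + 1)).1 (p (m + 1)).2 ≤ c) :
    v (p (m + 1)).1 (p (m + 1)).2 = c ∧ (m + 1 = s ∨ (p (m + 1)).1 + 1 ≤ (p s).1) := by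
  have h1 := L.claimA (show m + 1 ≤ s + 1 by omega) (C.walk (by omega) (by omega))
  rw [hV2] at h1
  have hc : v (p (m + 1)).1 (p (m + 1)).2 = c := by omega
  refine ⟨hc, ?_⟩
  by_cases h2 : m + 1 = s
  · exact Or.inl h2
  right
  have hst := L.eqStruct (show m + 1 ≤ s + 1 by omega) (C.walk (by omega) (by omega))
    (by rw [hV2, hc])
  have hE : e (m + 1) = .E := by
    rcases hst (m + 1) (le_refl _) (by omega) with h3 | ⟨-, h3, -⟩
    · exact h3
    · omega
  have hx := mono_x (p := p) (e := e) (s := m + 2) s (by omega)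
    (fun k _ hk => C.step k (by omega)) (by
      intro k hk1 hk2 hc'
      rcases hst k (by omega) (by omega) with h3 | ⟨h3 | h3, -, -⟩ <;> rw [hc'] at h3 <;> cases h3)
  rw [show m + 2 = m + 1 + 1 by ring, C.step (m + 1) (by omega), hE] at hx
  simpa [Dir.vec] using hx

/-- After a unit step upwards. -/
theorem Lev.core2 (L : Lev h v d κ a) {T : ℕ} {p : ℕ → ℤ × ℤ} {e : ℕ → Dir}
    (C : LCurve h a T p e) {s m : ℕ} {c : ℤ} (hs0 : 1 ≤ s) (hs : e s = .E)
    (hV1 : v (p s).1 (p s).2 = c)
    (hms : s < m) (hmT : m ≤ T) (hVm : c + 1 ≤ v (p m).1 (p m).2) :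
    v (p m).1 (p m).2 = c + 1 ∧ (p s).1 + 1 ≤ (p m).1 ∧ e (m - 1) = .E := by
  have h1 := L.claimA (show s ≤ m by omega) (C.walk (by omega) (by omega))
  rw [hV1] at h1
  have hc : v (p m).1 (p m).2 = c + 1 := by omega
  have hst := L.eqStruct (show s ≤ m by omega) (C.walk (by omega) (by omega))
    (by rw [hV1, hc])
  refine ⟨hc, ?_, ?_⟩
  · have hx := mono_x (p := p) (e := e) (s := s + 1) m (by omega)
      (fun k _ hk => C.step k (by omega)) (by
        intro k hk1 hk2 hc'
        rcases hst k (by omega) (by omega) with h3 | ⟨h3 | h3, -, -⟩ <;> rw [hc'] at h3 <;>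
          cases h3)
    rw [C.step s (by omega), hs] at hx
    simpa [Dir.vec] using hx
  · rcases hst (m - 1) (by omega) (by omega) with h3 | ⟨-, -, h3⟩
    · exact h3
    · rw [show m - 1 + 1 = m by omega] at h3
      omega

/-- A pair of level curves: the boundary of `{h ≥ a}` and the boundary of `{v ≥ b}`. -/
structure Pair (h v : ℤ → ℤ → ℤ) (d : ℤ → ℤ → Dir) (κ : ℤ → ℤ → ℤ) (a b : ℤ)
    (T : ℕ) (p : ℕ → ℤ × ℤ) (e : ℕ → Dir) (T' : ℕ) (p' : ℕ → ℤ × ℤ) (e' : ℕ → Dir) : Prop where
  L : Lev h v d κ a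
  L' : Lev (roth v) (rotv h) (rotd d) (rotk κ) b
  C : LCurve h a T p e
  C' : LCurve (roth v) b T' p' e'
  nw : ∀ x y, Val h a x y .N → κ x (y + 1) ≤ 0

section
variable {T T' : ℕ} {p p' : ℕ → ℤ × ℤ} {e e' : ℕ → Dir}

theorem Pair.rangeH (P : Pair h v d κ a b T p e T' p' e') : h 0 0 < a ∧ a ≤ h (-1) 0 := by
  have := P.C.val 0 P.C.hT
  rw [P.C.p0, P.C.e0] at this
  simpa [Val] using this

theorem Pair.rangeV (P : Pair h v d κ a b T p e T' p' e') : v 0 0 < b ∧ b ≤ v 0 (-1) := by
  have := P.C'.val 0 P.C'.hT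
  rw [P.C'.p0, P.C'.e0] at this
  simpa [Val, roth] using this

/-- The node of the second curve. -/
theorem Pair.pos1 (P : Pair h v d κ a b T p e T' p' e') : p 1 = (0, -1) := by
  have := P.C.step 0 P.C.hT
  rw [P.C.p0, P.C.e0] at this
  rw [zero_add] at this
  rw [this]; rfl

theorem Pair.pos1' (P : Pair h v d κ a b T p e T' p' e') : p' 1 = (0, -1) := by
  have := P.C'.step 0 P.C'.hT
  rw [P.C'.p0, P.C'.e0] at this
  rw [zero_add] at this
  rw [this]; rfl

theorem valV_E {X Y : ℤ} : Val (roth v) b Y (-X - 1) .E ↔ (v X Y < b ∧ b ≤ v (X + 1) Y) := by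
  simp only [Val, roth]
  rw [show -(-X - 1 + 1) = X by ring, show -(-X - 1) = X + 1 by ring]

theorem valV_W {X Y : ℤ} : Val (roth v) b Y (-X - 1) .W ↔
    (v (X + 1) (Y - 1) < b ∧ b ≤ v X (Y - 1)) := by
  simp only [Val, roth]
  rw [show -(-X - 1 + 1) = X by ring, show -(-X - 1) = X + 1 by ring]

theorem valV_N {X Y : ℤ} : Val (roth v) b Y (-X - 1) .N ↔ (v X (Y - 1) < b ∧ b ≤ v X Y) := by
  simp only [Val, roth]
  rw [show -(-X - 1 + 1) = X by ring]

theorem valV_S {X Y : ℤ} : Val (roth v) b Y (-X - 1) .S ↔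
    (v (X + 1) Y < b ∧ b ≤ v (X + 1) (Y - 1)) := by
  simp only [Val, roth]
  rw [show -(-X - 1) = X + 1 by ring]

/-- A step up of the first curve: the face with south-west corner `(x, y)`. -/
structure UpFace (h v : ℤ → ℤ → ℤ) (a b : ℤ) (T : ℕ) (p : ℕ → ℤ × ℤ) (e : ℕ → Dir)
    (T' : ℕ) (p' : ℕ → ℤ × ℤ) (e' : ℕ → Dir) (s k : ℕ) (x y : ℤ) : Prop where
  s1 : 1 ≤ s
  s2 : s < T
  ps : p s = (x, y)
  ps1 : p (s + 1) = (x + 1, y)
  es : e s = .E
  v1 : v x y = b - 1
  v2 : v (x + 1) y = b
  h1 : h x y = a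
  h2 : h x (y + 1) = a - 1
  k1 : 1 ≤ k
  k2 : k < T'
  pk : p' k = (y, -x - 1)
  pk1 : p' (k + 1) = (y + 1, -x - 1)
  ek : e' k = .E

theorem Pair.upFace (P : Pair h v d κ a b T p e T' p' e') {s : ℕ} (hs1 : 1 ≤ s) (hs2 : s < T)
    (hV1 : v (p s).1 (p s).2 < b) (hV2 : b ≤ v (p (s + 1)).1 (p (s + 1)).2) :
    ∃ k x y, UpFace h v a b T p e T' p' e' s k x y := by
  have hA := P.L.claimA (show s ≤ s + 1 by omega) (P.C.walk hs1 (by omega))
  have hE : e s = .E := by
    by_contra hne
    have := P.L.step_le (P.C.walk hs1 (by omega)) hne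
    omega
  have hstep := P.C.step s hs2
  have hval := P.C.val s hs2
  obtain ⟨⟨x, y⟩, hp⟩ : ∃ q, p s = q := ⟨_, rfl⟩
  rw [hp, hE] at hstep hval
  simp only [Dir.vec, Prod.mk_add_mk, add_zero] at hstep
  rw [hp] at hV1 hA
  rw [hstep] at hV2 hA
  simp only at hV1 hV2 hA hval
  have hcurl := P.L.fld.curl x y
  have hstrip := P.L.fld.strip x y 1
  simp only [Finset.range_one, Finset.sum_singleton, Nat.cast_zero, add_zero, Nat.cast_one,
    mul_one] at hstrip
  have hv1 := hval.1
  have hv2 := hval.2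
  obtain ⟨k, hk, hpk, hek⟩ := P.C'.all _ _ _ (valV_E (v := v) (b := b) (X := x) (Y := y)|>.2
    ⟨hV1, hV2⟩)
  have hk1 : 1 ≤ k := by
    rcases Nat.eq_zero_or_pos k with h0 | h0
    · exfalso
      rw [h0, P.C'.e0] at hek
      cases hek
    · exact h0
  have hpk1 := P.C'.step k hk
  rw [hpk, hek] at hpk1
  simp only [Dir.vec, Prod.mk_add_mk, add_zero] at hpk1
  exact ⟨k, x, y, ⟨hs1, hs2, hp, hstep, hE, by omega, by omega, by omega, by omega, hk1, hk,
    hpk, hpk1, hek⟩⟩

/-- `core1` on the second curve. -/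
theorem UpFace.c1 (P : Pair h v d κ a b T p e T' p' e') {s k : ℕ} {x y : ℤ}
    (U : UpFace h v a b T p e T' p' e' s k x y) {m : ℕ} {X Y : ℤ} (hm : 1 ≤ m) (hmk : m < k)
    (hp : p' (m + 1) = (Y, -X - 1)) (hH : a ≤ h X Y) : m + 1 = k ∨ Y + 1 ≤ y := by
  have h1 := P.L'.core1 P.C' (s := k) (m := m) (c := -a) U.k2
    (by rw [U.pk1]; simp only [rotv]; rw [show -(-x - 1) - 1 = x by ring, U.h2]; ring)
    hm hmk (by rw [hp]; simp only [rotv]; rw [show -(-X - 1) - 1 = X by ring]; omega)
  rw [hp, U.pk] at h1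
  exact h1.2

/-- `core2` on the second curve. -/
theorem UpFace.c2 (P : Pair h v d κ a b T p e T' p' e') {s k : ℕ} {x y : ℤ}
    (U : UpFace h v a b T p e T' p' e' s k x y) {m : ℕ} {X Y : ℤ} (hmk : k < m) (hm : m ≤ T')
    (hp : p' m = (Y, -X - 1)) (hH : h X Y < a) : y + 1 ≤ Y ∧ e' (m - 1) = .E ∧
      p' (m - 1) = (Y - 1, -X - 1) ∧ v X (Y - 1) < b ∧ b ≤ v (X + 1) (Y - 1) := by
  have h1 := P.L'.core2 P.C' (s := k) (m := m) (c := -a) U.k1 U.ek
    (by rw [U.pk]; simp only [rotv]; rw [show -(-x - 1) - 1 = x by ring, U.h1])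
    hmk hm (by rw [hp]; simp only [rotv]; rw [show -(-X - 1) - 1 = X by ring]; omega)
  rw [hp, U.pk] at h1
  have h2 := P.C'.step (m - 1) (by omega)
  rw [show m - 1 + 1 = m by omega, hp, h1.2.2] at h2
  have h3 : p' (m - 1) = (Y - 1, -X - 1) := by
    simp only [Dir.vec, Prod.ext_iff, Prod.fst_add, Prod.snd_add] at h2 ⊢
    omega
  have h4 := P.C'.val (m - 1) (by omega)
  rw [h3, h1.2.2] at h4
  simp only at h4
  rw [valV_E] at h4
  exact ⟨h1.2.1, h1.2.2, h3, h4.1, h4.2⟩

/-- The crossing on the second curve: a pass to the north of the first curve. -/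
theorem Pair.crossN (P : Pair h v d κ a b T p e T' p' e') {x y : ℤ}
    (h1 : h (x - 1) y < a) (h3 : b ≤ v x (y - 1)) (h4 : v x y < b) :
    ∃ m, 1 ≤ m ∧ m < T' ∧ e' m = .S ∧ p' m = (y, -x) ∧ p' (m + 1) = (y, -x - 1) := by
  obtain ⟨m, hm, hp, he⟩ := P.C'.all _ _ _ (valV_S (v := v) (b := b) (X := x - 1) (Y := y)|>.2
    ⟨by rwa [sub_add_cancel], by rwa [sub_add_cancel]⟩)
  rw [show -(x - 1) - 1 = -x by ring] at hp
  refine ⟨m, ?_, hm, he, hp, ?_⟩
  · rcases Nat.eq_zero_or_pos m with h0 | h0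
    · exfalso
      rw [h0, P.C'.p0] at hp
      have e1 : y = 0 := (congrArg Prod.fst hp).symm
      have e2 : x = 0 := by
        have := congrArg Prod.snd hp
        simp only at this
        omega
      have := P.rangeH.2
      rw [e1, e2] at h1
      norm_num at h1
      omega
    · exact h0
  · have := P.C'.step m hm
    rw [hp, he] at this
    rw [this]
    simp [Dir.vec, sub_eq_add_neg]

/-- The crossing on the second curve: a pass to the south of the first curve. -/
theorem Pair.crossS (P : Pair h v d κ a b T p e T' p' e') {x y : ℤ}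
    (h3 : b ≤ v x y) (h4 : v x (y - 1) < b) :
    ∃ m, 1 ≤ m ∧ m < T' ∧ e' m = .N ∧ p' m = (y, -x - 1) ∧ p' (m + 1) = (y, -x) := by
  obtain ⟨m, hm, hp, he⟩ := P.C'.all _ _ _ (valV_N (v := v) (b := b) (X := x) (Y := y)|>.2
    ⟨h4, h3⟩)
  refine ⟨m, ?_, hm, he, hp, ?_⟩
  · rcases Nat.eq_zero_or_pos m with h0 | h0
    · exfalso
      rw [h0, P.C'.e0] at he
      cases he
    · exact h0
  · have := P.C'.step m hm
    rw [hp, he] at this
    rw [this]
    simp [Dir.vec]

/-- The crossing on the second curve: a step to the east of the first curve. -/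
theorem Pair.crossE (P : Pair h v d κ a b T p e T' p' e') {x y : ℤ}
    (h3 : b ≤ v x y) (h4 : v (x + 1) y < b) :
    ∃ m, 1 ≤ m ∧ m < T' ∧ e' m = .W ∧ p' m = (y + 1, -x - 1) ∧ p' (m + 1) = (y, -x - 1) := by
  obtain ⟨m, hm, hp, he⟩ := P.C'.all _ _ _ (valV_W (v := v) (b := b) (X := x) (Y := y + 1)|>.2
    ⟨by rwa [add_sub_cancel_right], by rwa [add_sub_cancel_right]⟩)
  refine ⟨m, ?_, hm, he, hp, ?_⟩
  · rcases Nat.eq_zero_or_pos m with h0 | h0
    · exfalso
      rw [h0, P.C'.e0] at he
      cases he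
    · exact h0
  · have := P.C'.step m hm
    rw [hp, he] at this
    rw [this]
    simp [Dir.vec]

/-- The crossing on the second curve: a step to the west of the first curve, through the face with
south-west corner `(x, y)`. -/
theorem Pair.crossW (P : Pair h v d κ a b T p e T' p' e') {x y : ℤ}
    (h3 : b ≤ v (x + 1) y) (h4 : v x y < b) :
    ∃ m, 1 ≤ m ∧ m < T' ∧ e' m = .E ∧ p' m = (y, -x - 1) ∧ p' (m + 1) = (y + 1, -x - 1) := by
  obtain ⟨m, hm, hp, he⟩ := P.C'.all _ _ _ (valV_E (v := v) (b := b) (X := x) (Y := y)|>.2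
    ⟨h4, h3⟩)
  refine ⟨m, ?_, hm, he, hp, ?_⟩
  · rcases Nat.eq_zero_or_pos m with h0 | h0
    · exfalso
      rw [h0, P.C'.e0] at he
      cases he
    · exact h0
  · have := P.C'.step m hm
    rw [hp, he] at this
    rw [this]
    simp [Dir.vec]

/-- Equality of times from equality of nodes on the second curve. -/
theorem Pair.time' (P : Pair h v d κ a b T p e T' p' e') {i j : ℕ} (hi : i < T') (hj : j ≤ T')
    (hi1 : 1 ≤ i) (hp : p' i = p' j) : i = j := by
  rcases eq_or_lt_of_le hj with h1 | h1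
  · exfalso
    rw [h1, P.C'.pT, ← P.C'.p0] at hp
    have := P.C'.inj i 0 hi P.C'.hT hp
    omega
  · exact P.C'.inj i j hi h1 hp

/-- Adjacency: after a face where the first curve steps up there is a pass. -/
theorem UpFace.after (P : Pair h v d κ a b T p e T' p' e') {s k : ℕ} {x y : ℤ}
    (U : UpFace h v a b T p e T' p' e' s k x y) : s + 1 < T ∧
    v (p (s + 2)).1 (p (s + 2)).2 < b ∧
    ((e (s + 1) = .N ∧ p (s + 2) = (x + 1, y + 1) ∧ k + 1 < T' ∧ e' (k + 1) = .S ∧
        p' (k + 2) = (y + 1, -x - 2)) ∨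
     (e (s + 1) = .S ∧ p (s + 2) = (x + 1, y - 1) ∧ 2 ≤ k ∧ e' (k - 1) = .N ∧
        p' (k - 1) = (y, -x - 2))) := by
  have hVT : ¬ (b ≤ v (p T).1 (p T).2) := by
    rw [P.C.pT]
    have := P.rangeV.1
    simpa using this
  obtain ⟨t, ht1, ht2, ht3, ht4⟩ := exists_switch (fun k => b ≤ v (p k).1 (p k).2)
    (show s + 1 ≤ T by have := U.s2; omega) (by rw [U.ps1]; exact le_of_eq U.v2.symm) hVT
  simp only [not_le] at ht4
  have hflat : ∀ j, s + 1 ≤ j → j ≤ t → v (p j).1 (p j).2 = b := by
    intro j hj1 hj2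
    have h1 := ht3 j hj1 hj2
    have h2 := P.L.claimA (show s ≤ j by omega) (P.C.walk U.s1 (by omega))
    rw [U.ps] at h2
    simp only at h2
    have := U.v1
    omega
  have hrun : ∀ j, s + 1 ≤ j → j ≤ t → e (j - 1) = .E ∧ p j = (x + (j - s : ℤ), y) := by
    intro j hj1
    induction j, hj1 using Nat.le_induction with
    | base =>
      intro _
      refine ⟨by simpa using U.es, ?_⟩
      rw [U.ps1]
      simp
    | succ j hj ih =>
      intro hjt
      obtain ⟨ih1, ih2⟩ := ih (by omega)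
      have hf1 := hflat j hj (by omega)
      have hf2 := hflat (j + 1) (by omega) hjt
      obtain ⟨g1, g2, g3⟩ := P.C.walk (i := j) (j := j + 1) (by omega) (by omega) j (le_refl _)
        (by omega)
      have hE : e j = .E := by
        cases hej : e j
        · exfalso
          rw [hej] at g1 g2
          have h1 := P.L.stepN g1
          have h2 := P.nw _ _ g1
          rw [g2] at hf2
          simp only [Dir.vec, Prod.fst_add, Prod.snd_add, add_zero] at hf2
          omega
        · rfl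
        · exfalso
          rw [hej] at g1 g2 g3
          have h1 := P.L.stepS g1 (fun hc => g3 ⟨Prod.ext hc.1 hc.2, rfl⟩)
          rw [g2] at hf2
          simp only [Dir.vec, Prod.fst_add, Prod.snd_add, add_zero] at hf2
          rw [← sub_eq_add_neg] at hf2
          omega
        · exfalso
          have h1 := (P.C.walk (i := j - 1) (j := j - 1 + 2) (by have := U.s1; omega)
            (by omega)).no_rev
          rw [show j - 1 + 1 = j by omega, hej, ih1] at h1
          exact h1 rfl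
      refine ⟨by simpa using hE, ?_⟩
      rw [g2, hE, ih2]
      simp only [Dir.vec, Prod.mk_add_mk, add_zero]
      push_cast
      ring_nf
  obtain ⟨hrt1, hrt2⟩ := hrun t ht1 (le_refl _)
  have hVt := hflat t ht1 (le_refl _)
  obtain ⟨g1, g2, g3⟩ := P.C.walk (i := t) (j := t + 1) (by omega) (by omega) t (le_refl _)
    (by omega)
  obtain ⟨x2, hx2⟩ : ∃ x2 : ℤ, x2 = x + (t - s : ℤ) := ⟨_, rfl⟩
  rw [← hx2] at hrt2
  have hx2' : x + 1 ≤ x2 := by
    have : ((s + 1 : ℕ) : ℤ) ≤ (t : ℤ) := by exact_mod_cast ht1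
    push_cast at this
    omega
  have hprev : s + 1 < t → v (x2 - 1) y = b := by
    intro hst
    have h1 := hflat (t - 1) (by omega) (by omega)
    have h2 := (hrun (t - 1) (by omega) (by omega)).2
    rw [h2] at h1
    simp only at h1
    have : x + ((t - 1 : ℕ) - s : ℤ) = x2 - 1 := by
      rw [hx2]; omega
    rwa [this] at h1
  rw [hrt2] at g1 g2 hVt
  rw [g2] at ht4
  simp only at g1 hVt
  have hts : s + 1 < t ∨ t = s + 1 := by omega
  cases het : e t
  · -- N
    rw [het] at g1 g2 ht4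
    simp only [Dir.vec, Prod.mk_add_mk, add_zero] at ht4 g2
    simp only [Val] at g1
    obtain ⟨m, m1, m2, m3, m4, m5⟩ := P.crossN (x := x2) (y := y + 1) g1.1
      (by rw [add_sub_cancel_right]; exact le_of_eq hVt.symm) ht4
    rcases lt_trichotomy m k with hmk | hmk | hmk
    · exfalso
      rcases U.c1 P m1 hmk m5 g1.2 with h1 | h1
      · rw [h1, U.pk] at m5
        have := congrArg Prod.fst m5
        simp only at this
        omega
      · omega
    · exfalso
      rw [hmk, U.ek] at m3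
      cases m3
    · rw [show (-x2 : ℤ) = -(x2 - 1) - 1 by ring] at m4
      obtain ⟨c1, c2, c3, c4, c5⟩ := U.c2 P hmk (by omega) m4 g1.1
      rw [add_sub_cancel_right] at c3 c4 c5
      have htt : t = s + 1 := by
        rcases hts with h1 | h1
        · exfalso
          have := hprev h1
          omega
        · exact h1
      have hxx : x2 = x + 1 := by rw [hx2, htt]; push_cast; ring
      have hmk2 : k = m - 1 := P.time' U.k2 (by omega) U.k1 (by
        rw [c3, U.pk, hxx]; congr 1; ring)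
      refine ⟨by omega, ?_, Or.inl ⟨by rw [← htt]; exact het, ?_, by omega, ?_, ?_⟩⟩
      · rw [show s + 2 = t + 1 by omega, g2]; exact ht4
      · rw [show s + 2 = t + 1 by omega, g2, hxx]
      · rw [show k + 1 = m by omega]; exact m3
      · rw [show k + 2 = m + 1 by omega, m5, hxx]; congr 1; ring
  · -- E
    exfalso
    rw [het] at g1 g2 ht4
    simp only [Dir.vec, Prod.mk_add_mk, add_zero] at ht4 g2
    simp only [Val] at g1
    obtain ⟨m, m1, m2, m3, m4, m5⟩ := P.crossE (x := x2) (y := y) (le_of_eq hVt.symm) ht4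
    rcases lt_trichotomy m k with hmk | hmk | hmk
    · rcases U.c1 P m1 hmk m5 g1.2 with h1 | h1
      · rw [h1, U.pk] at m5
        have := congrArg Prod.snd m5
        simp only at this
        omega
      · omega
    · rw [hmk, U.ek] at m3
      cases m3
    · obtain ⟨c1, c2, c3, c4, c5⟩ := U.c2 P hmk (by omega) m4 g1.1
      rw [add_sub_cancel_right] at c4
      omega
  · -- S
    rw [het] at g1 g2 ht4
    simp only [Dir.vec, Prod.mk_add_mk, add_zero] at ht4 g2
    rw [← sub_eq_add_neg] at ht4 g2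
    simp only [Val] at g1
    obtain ⟨m, m1, m2, m3, m4, m5⟩ := P.crossS (x := x2) (y := y) (le_of_eq hVt.symm) ht4
    rcases lt_trichotomy m k with hmk | hmk | hmk
    · rw [show (-x2 : ℤ) = -(x2 - 1) - 1 by ring] at m5
      rcases U.c1 P m1 hmk m5 g1.2 with h1 | h1
      · have hxx : x2 = x + 1 := by
          rw [h1, U.pk] at m5
          have := congrArg Prod.snd m5
          simp only at this
          omega
        have htt : t = s + 1 := by
          rw [hxx] at hx2
          have : (t : ℤ) = s + 1 := by linarith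
          exact_mod_cast this
        refine ⟨by omega, ?_, Or.inr ⟨by rw [← htt]; exact het, ?_, by omega, ?_, ?_⟩⟩
        · rw [show s + 2 = t + 1 by omega, g2]; exact ht4
        · rw [show s + 2 = t + 1 by omega, g2, hxx]
        · rw [show k - 1 = m by omega]; exact m3
        · rw [show k - 1 = m by omega, m4, hxx]; congr 1; ring
      · omega
    · exfalso
      rw [hmk, U.ek] at m3
      cases m3
    · exfalso
      obtain ⟨c1, c2, c3, c4, c5⟩ := U.c2 P hmk (by omega) m4 g1.1
      omega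
  · -- W
    exfalso
    have h1 := (P.C.walk (i := t - 1) (j := t - 1 + 2) (by have := U.s1; omega)
      (by omega)).no_rev
    rw [show t - 1 + 1 = t by omega, het, hrt1] at h1
    exact h1 rfl

/-- Adjacency: before a face where the first curve steps up there is a pass. -/
theorem UpFace.before (P : Pair h v d κ a b T p e T' p' e') {s k : ℕ} {x y : ℤ}
    (U : UpFace h v a b T p e T' p' e' s k x y) : 2 ≤ s ∧
    b ≤ v (p (s - 1)).1 (p (s - 1)).2 ∧
    ((e (s - 1) = .N ∧ p (s - 1) = (x, y - 1) ∧ 2 ≤ k ∧ e' (k - 1) = .S ∧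
        p' (k - 1) = (y, -x)) ∨
     (e (s - 1) = .S ∧ p (s - 1) = (x, y + 1) ∧ k + 1 < T' ∧ e' (k + 1) = .N ∧
        p' (k + 2) = (y + 1, -x))) := by
  have hV1 : ¬ (v (p 1).1 (p 1).2 < b) := by
    rw [P.pos1]
    have := P.rangeV.2
    simpa using this
  obtain ⟨t, ht1, ht2, ht3, ht4⟩ := exists_switch' (fun k => v (p k).1 (p k).2 < b)
    (show 1 ≤ s from U.s1) hV1 (by rw [U.ps]; simp only; have := U.v1; omega)
  simp only [not_lt] at ht3
  have hflat : ∀ j, t < j → j ≤ s → v (p j).1 (p j).2 = b - 1 := by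
    intro j hj1 hj2
    have h1 := ht4 j hj1 hj2
    have h2 := P.L.claimA (show j ≤ s + 1 by omega) (P.C.walk (by omega)
      (by have := U.s2; omega))
    rw [U.ps1] at h2
    simp only at h2
    have := U.v2
    omega
  have hst := P.L.eqStruct (show t + 1 ≤ s + 1 by omega) (P.C.walk (by omega)
    (by have := U.s2; omega)) (by
      rw [hflat (t + 1) (by omega) (by omega), U.ps1]
      simp only
      rw [U.v2]
      ring)
  have hEj : ∀ j, t < j → j ≤ s → e j = .E := by
    intro j hj1 hj2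
    rcases hst j (by omega) (by omega) with h1 | ⟨-, h1, -⟩
    · exact h1
    · exfalso
      rw [hflat j hj1 hj2, hflat (t + 1) (by omega) (by omega)] at h1
      omega
  have hrun : ∀ i, i ≤ s - (t + 1) → p (s - i) = (x - (i : ℤ), y) := by
    intro i
    induction i with
    | zero => intro _; rw [Nat.sub_zero, U.ps]; simp
    | succ i ih =>
      intro hi
      have h1 := ih (by omega)
      have h2 := P.C.step (s - (i + 1)) (by have := U.s2; omega)
      rw [show s - (i + 1) + 1 = s - i by omega, h1, hEj (s - (i + 1)) (by omega) (by omega)] at h2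
      simp only [Dir.vec, Prod.ext_iff, Prod.fst_add, Prod.snd_add] at h2 ⊢
      push_cast
      omega
  obtain ⟨x1, hx1⟩ : ∃ x1 : ℤ, x1 = x - ((s - (t + 1) : ℕ) : ℤ) := ⟨_, rfl⟩
  have hpt1 : p (t + 1) = (x1, y) := by
    have := hrun (s - (t + 1)) (le_refl _)
    rw [show s - (s - (t + 1)) = t + 1 by omega, ← hx1] at this
    exact this
  have hx1' : x1 ≤ x := by omega
  have hVt1 : v x1 y = b - 1 := by
    have := hflat (t + 1) (by omega) (by omega)
    rwa [hpt1] at this
  have hnext : t + 1 < s → v (x1 + 1) y = b - 1 := by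
    intro hts
    have h1 := hrun (s - (t + 2)) (by omega)
    rw [show s - (s - (t + 2)) = t + 2 by omega] at h1
    have h2 := hflat (t + 2) (by omega) (by omega)
    rw [h1] at h2
    simp only at h2
    have : x - ((s - (t + 2) : ℕ) : ℤ) = x1 + 1 := by rw [hx1]; omega
    rwa [this] at h2
  obtain ⟨g1, g2, g3⟩ := P.C.walk (i := t) (j := t + 1) (by omega) (by have := U.s2; omega) t
    (le_refl _) (by omega)
  have hts : t + 1 < s ∨ t + 1 = s := by omega
  rw [hpt1] at g2
  cases het : e t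
  · -- N
    rw [het] at g1 g2
    have hpt : p t = (x1, y - 1) := by
      simp only [Dir.vec, Prod.ext_iff, Prod.fst_add, Prod.snd_add] at g2 ⊢
      omega
    rw [hpt] at g1 ht3
    simp only [Val, sub_add_cancel] at g1 ht3
    obtain ⟨m, m1, m2, m3, m4, m5⟩ := P.crossN (x := x1) (y := y) g1.1 ht3 (by omega)
    rcases lt_trichotomy m k with hmk | hmk | hmk
    · rcases U.c1 P m1 hmk m5 g1.2 with h1 | h1
      · have hxx : x1 = x := by
          rw [h1, U.pk] at m5
          have := congrArg Prod.snd m5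
          simp only at this
          omega
        have htt : t + 1 = s := by omega
        have hst1 : s - 1 = t := by omega
        refine ⟨by omega, ?_, Or.inl ⟨?_, ?_, by omega, ?_, ?_⟩⟩
        · rw [hst1, hpt]; exact ht3
        · rw [hst1]; exact het
        · rw [hst1, hpt, hxx]
        · rw [show k - 1 = m by omega]; exact m3
        · rw [show k - 1 = m by omega, m4, hxx]
      · omega
    · exfalso
      rw [hmk, U.ek] at m3
      cases m3
    · exfalso
      rw [show (-x1 : ℤ) = -(x1 - 1) - 1 by ring] at m4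
      obtain ⟨c1, c2, c3, c4, c5⟩ := U.c2 P hmk (by omega) m4 g1.1
      omega
  · -- E
    exfalso
    rw [het] at g1 g2
    have hpt : p t = (x1 - 1, y) := by
      simp only [Dir.vec, Prod.ext_iff, Prod.fst_add, Prod.snd_add] at g2 ⊢
      omega
    rw [hpt] at g1 ht3
    simp only [Val] at g1 ht3
    obtain ⟨m, m1, m2, m3, m4, m5⟩ := P.crossE (x := x1 - 1) (y := y) ht3
      (by rw [sub_add_cancel]; omega)
    rcases lt_trichotomy m k with hmk | hmk | hmk
    · rcases U.c1 P m1 hmk m5 g1.2 with h1 | h1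
      · rw [h1, U.pk] at m5
        have := congrArg Prod.snd m5
        simp only at this
        omega
      · omega
    · rw [hmk, U.ek] at m3
      cases m3
    · obtain ⟨c1, c2, c3, c4, c5⟩ := U.c2 P hmk (by omega) m4 g1.1
      rw [add_sub_cancel_right] at c4
      omega
  · -- S
    rw [het] at g1 g2
    have hpt : p t = (x1, y + 1) := by
      simp only [Dir.vec, Prod.ext_iff, Prod.fst_add, Prod.snd_add] at g2 ⊢
      omega
    rw [hpt] at g1 ht3
    simp only [Val] at g1 ht3
    obtain ⟨m, m1, m2, m3, m4, m5⟩ := P.crossS (x := x1) (y := y + 1) ht3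
      (by rw [add_sub_cancel_right]; omega)
    rcases lt_trichotomy m k with hmk | hmk | hmk
    · exfalso
      rw [show (-x1 : ℤ) = -(x1 - 1) - 1 by ring] at m5
      rcases U.c1 P m1 hmk m5 g1.2 with h1 | h1
      · rw [h1, U.pk] at m5
        have := congrArg Prod.fst m5
        simp only at this
        omega
      · omega
    · exfalso
      rw [hmk, U.ek] at m3
      cases m3
    · obtain ⟨c1, c2, c3, c4, c5⟩ := U.c2 P hmk (by omega) m4 g1.1
      rw [add_sub_cancel_right] at c3 c4 c5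
      have htt : t + 1 = s := by
        rcases hts with h1 | h1
        · exfalso
          have := hnext h1
          omega
        · exact h1
      have hxx : x1 = x := by omega
      have hmk2 : k = m - 1 := P.time' U.k2 (by omega) U.k1 (by
        rw [c3, U.pk, hxx])
      have hst1 : s - 1 = t := by omega
      refine ⟨by omega, ?_, Or.inr ⟨?_, ?_, by omega, ?_, ?_⟩⟩
      · rw [hst1, hpt]; exact ht3
      · rw [hst1]; exact het
      · rw [hst1, hpt, hxx]
      · rw [show k + 1 = m by omega]; exact m3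
      · rw [show k + 2 = m + 1 by omega, m5, hxx]
  · -- W
    exfalso
    have h1 := (P.C.walk (i := t) (j := t + 2) (by omega) (by have := U.s2; omega)).no_rev
    rw [het, hEj (t + 1) (by omega) (by omega)] at h1
    exact h1 rfl

end

end RotorNE
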