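import Pool.Agent.Lib.MP_936783_pr.KernelC

/-!
# The potential kernel of `ℤ²`: Liouville theorem, uniqueness, convergence
-/

open Filter

open scoped Topology

noncomputable section

namespace RotorNE

namespace Kernel

/-- Sum of the four neighbours minus four times the value. -/
def lap (f : ℤ → ℤ → ℝ) (x y : ℤ) : ℝ :=
  f (x + 1) y + f (x - 1) y + f x (y + 1) + f x (y - 1) - 4 * f x y

lemma liouville_aux {f : ℤ → ℤ → ℝ} (hf : ∀ x y, lap f x y = 0) {K : ℝ}
    (hK : ∀ x y, |f x y| ≤ K) (x y : ℤ) : f (x + 1) y ≤ f x y := by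
  by_contra hcon
  push Not at hcon
  set g : ℤ × ℤ → ℝ := fun p => f (p.1 + 1) p.2 - f p.1 p.2 with hg
  have hgK : ∀ p, g p ≤ 2 * K := by
    intro p
    have h1 := (abs_le.1 (hK (p.1 + 1) p.2)).2
    have h2 := (abs_le.1 (hK p.1 p.2)).1
    simp only [hg]
    linarith
  have hbdd : BddAbove (Set.range g) := ⟨2 * K, by rintro _ ⟨p, rfl⟩; exact hgK p⟩
  set M := ⨆ p, g p with hM
  have hle : ∀ p, g p ≤ M := fun p => le_ciSup hbdd p
  have hMpos : 0 < M := by
    have h1 := hle (x, y)
    have h2 : 0 < g (x, y) := by simp only [hg]; linarith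
    linarith
  have hharm : ∀ p : ℤ × ℤ, g (p.1 + 1, p.2) =
      4 * g p - g (p.1 - 1, p.2) - g (p.1, p.2 + 1) - g (p.1, p.2 - 1) := by
    intro p
    have h1 := hf (p.1 + 1) p.2
    have h2 := hf p.1 p.2
    unfold lap at h1 h2
    simp only [hg]
    have e1 : p.1 + 1 - 1 = p.1 := by ring
    have e2 : p.1 - 1 + 1 = p.1 := by ring
    rw [e1] at h1
    rw [e2]
    linarith
  obtain ⟨n, hn⟩ := exists_nat_gt (2 * K / (M / 2))
  have hn' : 2 * K < n * (M / 2) := by
    rw [div_lt_iff₀ (by linarith)] at hn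
    exact hn
  have hε : 0 < M / 2 / 4 ^ n := by positivity
  obtain ⟨p, hp⟩ := exists_lt_of_lt_ciSup (show M - M / 2 / 4 ^ n < ⨆ p, g p by linarith)
  have key : ∀ k : ℕ, M - g (p.1 + k, p.2) ≤ 4 ^ k * (M - g p) := by
    intro k
    induction k with
    | zero => simp
    | succ k ih =>
      have h1 := hharm (p.1 + k, p.2)
      have h2 := hle (p.1 + k - 1, p.2)
      have h3 := hle (p.1 + k, p.2 + 1)
      have h4 := hle (p.1 + k, p.2 - 1)
      simp only at h1
      have e : ((p.1 + ((k + 1 : ℕ) : ℤ), p.2) : ℤ × ℤ) = (p.1 + k + 1, p.2) := by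
        push_cast
        rw [add_assoc]
      rw [e, h1, pow_succ]
      linarith
  have key2 : ∀ k : ℕ, k ≤ n → M / 2 ≤ g (p.1 + k, p.2) := by
    intro k hk
    have h1 := key k
    have h2 : (4 : ℝ) ^ k * (M - g p) ≤ 4 ^ n * (M / 2 / 4 ^ n) := by
      apply mul_le_mul (pow_le_pow_right₀ (by norm_num) hk) (by linarith)
      · have := hle p
        linarith
      · positivity
    have h3 : (4 : ℝ) ^ n * (M / 2 / 4 ^ n) = M / 2 := by
      field_simp
    linarith
  have key3 : ∀ k : ℕ, k ≤ n → k * (M / 2) ≤ f (p.1 + k) p.2 - f p.1 p.2 := by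
    intro k
    induction k with
    | zero => simp
    | succ k ih =>
      intro hk
      have h1 := ih (by omega)
      have h2 := key2 k (by omega)
      simp only [hg] at h2
      push_cast
      rw [← add_assoc]
      linarith
  have h1 := key3 n le_rfl
  have h2 := (abs_le.1 (hK (p.1 + n) p.2)).2
  have h3 := (abs_le.1 (hK p.1 p.2)).1
  linarith

lemma const_of_step {f : ℤ → ℝ} (h : ∀ x, f (x + 1) = f x) (x : ℤ) : f x = f 0 := by
  induction x using Int.induction_on with
  | zero => rfl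
  | succ i ih => rw [h, ih]
  | pred i ih =>
    rw [← ih, ← h (-(i : ℤ) - 1)]
    congr 1
    ring

/-- **Liouville theorem.** Bounded harmonic functions on `ℤ²` are constant. -/
theorem liouville {f : ℤ → ℤ → ℝ} (hf : ∀ x y, lap f x y = 0) {K : ℝ}
    (hK : ∀ x y, |f x y| ≤ K) (x y : ℤ) : f x y = f 0 0 := by
  have hneg : ∀ x y, lap (fun x y => -f x y) x y = 0 := by
    intro x y
    have := hf x y
    unfold lap at *
    linarith
  have hswap : ∀ x y, lap (fun x y => f y x) x y = 0 := by
    intro x y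
    have := hf y x
    unfold lap at *
    linarith
  have hswapneg : ∀ x y, lap (fun x y => -f y x) x y = 0 := by
    intro x y
    have := hf y x
    unfold lap at *
    linarith
  have h1 : ∀ x y, f (x + 1) y = f x y := by
    intro x y
    have a1 := liouville_aux hf hK x y
    have a2 := liouville_aux hneg (K := K) (fun x y => by rw [abs_neg]; exact hK x y) x y
    linarith
  have h2 : ∀ x y, f x (y + 1) = f x y := by
    intro x y
    have a1 := liouville_aux hswap (fun x y => hK y x) y x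
    have a2 := liouville_aux hswapneg (K := K) (fun x y => by rw [abs_neg]; exact hK y x) y x
    linarith
  have h3 := const_of_step (f := fun x => f x y) (fun x => h1 x y) x
  have h4 := const_of_step (f := fun y => f 0 y) (fun y => h2 0 y) y
  exact h3.trans h4

lemma linear_of_step {f : ℤ → ℝ} {α : ℝ} (h : ∀ x, f (x + 1) - f x = α) (x : ℤ) :
    f x = f 0 + α * x := by
  have := const_of_step (f := fun x : ℤ => f x - α * x) (fun x => by
    push_cast
    have := h x
    linarith) x
  simp only [Int.cast_zero, mul_zero, sub_zero] at this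
  linarith

lemma A_div_tendsto : Tendsto (fun n : ℕ => A n 0 / n) atTop (𝓝 0) := by
  have h1 : Tendsto (fun j : ℕ => h j 0) atTop (𝓝 0) := by
    refine squeeze_zero (fun j => h_nonneg j 0) h_axis_le ?_
    have : Tendsto (fun j : ℕ => 8 * (1 / ((j : ℝ) + 1))) atTop (𝓝 (8 * 0)) :=
      tendsto_one_div_add_atTop_nhds_zero_nat.const_mul 8
    rw [mul_zero] at this
    refine this.congr fun j => ?_
    ring
  refine h1.cesaro.congr fun n => ?_
  have := sum_h 0 n 0
  simp only [zero_add, Nat.cast_zero] at this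
  rw [A_zero, sub_zero] at this
  rw [this]
  ring

lemma grad_le (x y : ℤ) : |A (x + 1) y - A x y| ≤ 16 ∧ |A x (y + 1) - A x y| ≤ 16 := by
  have h1 : (16 : ℝ) / (1 + max |(x : ℝ)| |(y : ℝ)|) ≤ 16 := by
    have h0 : 0 ≤ max |(x : ℝ)| |(y : ℝ)| := le_max_of_le_left (abs_nonneg _)
    rw [div_le_iff₀ (by linarith)]
    linarith
  exact ⟨(grad_x x y).trans h1, (grad_y x y).trans h1⟩

lemma slope_zero {c α : ℝ} (h : ∀ n : ℕ, |α| * n ≤ c * A n 0) : α = 0 := by
  have h1 : Tendsto (fun n : ℕ => c * (A n 0 / n)) atTop (𝓝 (c * 0)) := A_div_tendsto.const_mul c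
  rw [mul_zero] at h1
  have h2 : |α| ≤ 0 := by
    refine ge_of_tendsto h1 ?_
    filter_upwards [eventually_gt_atTop 0] with n hn
    have hn' : (0 : ℝ) < n := by exact_mod_cast hn
    rw [mul_div_assoc', le_div_iff₀ hn']
    exact h n
  exact abs_nonpos_iff.1 h2

/-- **Uniqueness.** A nonnegative function with bounded gradient which vanishes at the origin and is
harmonic elsewhere is a multiple of the potential kernel. -/
theorem eq_kernel {T : ℤ → ℤ → ℝ} (h0 : T 0 0 = 0) (hnn : ∀ x y, 0 ≤ T x y)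
    (hharm : ∀ x y, (x ≠ 0 ∨ y ≠ 0) → lap T x y = 0) {K : ℝ}
    (hK : ∀ x y, |T (x + 1) y - T x y| ≤ K) (hK' : ∀ x y, |T x (y + 1) - T x y| ≤ K) (x y : ℤ) :
    T x y = T 1 0 * A x y := by
  set c := lap T 0 0 / 4 with hc
  set G : ℤ → ℤ → ℝ := fun x y => T x y - c * A x y with hG
  have hGh : ∀ x y, lap G x y = 0 := by
    intro x y
    have h1 := A_lap x y
    have h2 : lap G x y = lap T x y -
        c * (A (x + 1) y + A (x - 1) y + A x (y + 1) + A x (y - 1) - 4 * A x y) := by
      unfold lap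
      simp only [hG]
      ring
    rw [h2, h1]
    by_cases h : x = 0 ∧ y = 0
    · rw [if_pos h, h.1, h.2, hc]
      ring
    · rw [if_neg h, hharm x y (by tauto)]
      ring
  have hgx : ∀ x y, |G (x + 1) y - G x y| ≤ K + |c| * 16 := by
    intro x y
    have e : G (x + 1) y - G x y = (T (x + 1) y - T x y) - c * (A (x + 1) y - A x y) := by
      simp only [hG]; ring
    rw [e]
    refine (abs_sub _ _).trans (add_le_add (hK x y) ?_)
    rw [abs_mul]
    exact mul_le_mul_of_nonneg_left (grad_le x y).1 (abs_nonneg _)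
  have hgy : ∀ x y, |G x (y + 1) - G x y| ≤ K + |c| * 16 := by
    intro x y
    have e : G x (y + 1) - G x y = (T x (y + 1) - T x y) - c * (A x (y + 1) - A x y) := by
      simp only [hG]; ring
    rw [e]
    refine (abs_sub _ _).trans (add_le_add (hK' x y) ?_)
    rw [abs_mul]
    exact mul_le_mul_of_nonneg_left (grad_le x y).2 (abs_nonneg _)
  have hx := liouville (f := fun x y => G (x + 1) y - G x y) (fun x y => by
    have h1 := hGh (x + 1) y
    have h2 := hGh x y
    unfold lap at *
    simp only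
    have e1 : x + 1 - 1 = x := by ring
    have e2 : x - 1 + 1 = x := by ring
    rw [e1] at h1
    rw [e2]
    linarith) hgx
  have hy := liouville (f := fun x y => G x (y + 1) - G x y) (fun x y => by
    have h1 := hGh x (y + 1)
    have h2 := hGh x y
    unfold lap at *
    simp only
    have e1 : y + 1 - 1 = y := by ring
    have e2 : y - 1 + 1 = y := by ring
    rw [e1] at h1
    rw [e2]
    linarith) hgy
  set α := G (0 + 1) 0 - G 0 0 with hα
  set β := G 0 (0 + 1) - G 0 0 with hβ
  have hG0 : G 0 0 = 0 := by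
    simp only [hG]
    rw [h0, A_zero]
    ring
  have hlin : ∀ x y : ℤ, G x y = α * x + β * y := by
    intro x y
    have h1 := linear_of_step (f := fun x => G x y) (fun x => hx x y) x
    have h2 := linear_of_step (f := fun y => G 0 y) (fun y => hy 0 y) y
    rw [h1, h2, hG0]
    ring
  have hT : ∀ x y : ℤ, T x y = c * A x y + α * x + β * y := by
    intro x y
    have := hlin x y
    simp only [hG] at this
    linarith
  have hα0 : α = 0 := by
    apply slope_zero (c := c)
    intro n
    have h1 := hnn n 0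
    have h2 := hnn (-(n : ℤ)) 0
    rw [hT] at h1 h2
    rw [A_neg] at h2
    push_cast at h1 h2
    rcases abs_cases α with ⟨h, _⟩ | ⟨h, _⟩ <;> rw [h] <;> linarith
  have hβ0 : β = 0 := by
    apply slope_zero (c := c)
    intro n
    have h1 := hnn 0 n
    have h2 := hnn 0 (-(n : ℤ))
    rw [hT] at h1 h2
    rw [A_neg'] at h2
    rw [A_symm n 0] at h1 h2
    push_cast at h1 h2
    rcases abs_cases β with ⟨h, _⟩ | ⟨h, _⟩ <;> rw [h] <;> linarith
  rw [hT x y, hT 1 0, hα0, hβ0, A_one]
  ring

/-- **Convergence.** -/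
theorem tendsto_kernel {T : ℕ → ℤ → ℤ → ℝ} {c : ℝ}
    (h0 : Tendsto (fun n => T n 0 0) atTop (𝓝 0))
    (hnn : ∀ x y, ∀ ε > 0, ∀ᶠ n in atTop, -ε ≤ T n x y)
    (hharm : ∀ x y, (x ≠ 0 ∨ y ≠ 0) → Tendsto (fun n => lap (T n) x y) atTop (𝓝 0)) {K : ℝ}
    (hK : ∀ x y, ∀ᶠ n in atTop, |T n (x + 1) y - T n x y| ≤ K)
    (hK' : ∀ x y, ∀ᶠ n in atTop, |T n x (y + 1) - T n x y| ≤ K)
    (hc : Tendsto (fun n => T n 1 0) atTop (𝓝 c)) (x y : ℤ) :
    Tendsto (fun n => T n x y) atTop (𝓝 (c * A x y)) := by
  -- local boundedness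
  have hbx : ∀ x : ℤ, ∃ B, ∀ᶠ n in atTop, |T n x 0| ≤ B := by
    intro x
    induction x using Int.induction_on with
    | zero =>
      refine ⟨1, ?_⟩
      have := h0.abs
      rw [abs_zero] at this
      exact this.eventually_le_const (by norm_num)
    | succ i ih =>
      obtain ⟨B, hB⟩ := ih
      refine ⟨B + K, ?_⟩
      filter_upwards [hB, hK i 0] with n h1 h2
      have : T n (i + 1) 0 = T n i 0 + (T n (i + 1) 0 - T n i 0) := by ring
      rw [this]
      exact (abs_add_le _ _).trans (add_le_add h1 h2)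
    | pred i ih =>
      obtain ⟨B, hB⟩ := ih
      refine ⟨B + K, ?_⟩
      filter_upwards [hB, hK (-(i : ℤ) - 1) 0] with n h1 h2
      rw [sub_add_cancel] at h2
      have : T n (-(i : ℤ) - 1) 0 = T n (-i) 0 - (T n (-i) 0 - T n (-(i : ℤ) - 1) 0) := by ring
      rw [this]
      exact (abs_sub _ _).trans (add_le_add h1 h2)
  have hb : ∀ x y : ℤ, ∃ B, ∀ᶠ n in atTop, |T n x y| ≤ B := by
    intro x y
    induction y using Int.induction_on with
    | zero => exact hbx x
    | succ i ih =>
      obtain ⟨B, hB⟩ := ih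
      refine ⟨B + K, ?_⟩
      filter_upwards [hB, hK' x i] with n h1 h2
      have : T n x (i + 1) = T n x i + (T n x (i + 1) - T n x i) := by ring
      rw [this]
      exact (abs_add_le _ _).trans (add_le_add h1 h2)
    | pred i ih =>
      obtain ⟨B, hB⟩ := ih
      refine ⟨B + K, ?_⟩
      filter_upwards [hB, hK' x (-(i : ℤ) - 1)] with n h1 h2
      rw [sub_add_cancel] at h2
      have : T n x (-(i : ℤ) - 1) = T n x (-i) - (T n x (-i) - T n x (-(i : ℤ) - 1)) := by ring
      rw [this]
      exact (abs_sub _ _).trans (add_le_add h1 h2)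
  rw [tendsto_iff_ultrafilter]
  intro 𝒰 h𝒰
  have hlim : ∀ x y : ℤ, ∃ l, Tendsto (fun n => T n x y) 𝒰 (𝓝 l) := by
    intro x y
    obtain ⟨B, hB⟩ := hb x y
    have hmem : ∀ᶠ n in (𝒰 : Filter ℕ), T n x y ∈ Set.Icc (-B) B := by
      filter_upwards [h𝒰 hB] with n hn
      exact abs_le.1 hn
    obtain ⟨l, -, hl⟩ := isCompact_Icc.ultrafilter_le_nhds (𝒰.map fun n => T n x y)
      (by rw [le_principal_iff]; exact hmem)
    exact ⟨l, hl⟩
  choose L hL using hlim
  have hE := eq_kernel (T := L) (K := K)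
    (tendsto_nhds_unique (hL 0 0) (h0.mono_left h𝒰))
    (fun x y => by
      refine le_of_forall_pos_le_add fun ε hε => ?_
      have : -ε ≤ L x y := ge_of_tendsto (hL x y) (h𝒰 (hnn x y ε hε))
      linarith)
    (fun x y hxy => by
      refine tendsto_nhds_unique ?_ ((hharm x y hxy).mono_left h𝒰)
      unfold lap
      exact ((((hL _ _).add (hL _ _)).add (hL _ _)).add (hL _ _)).sub ((hL x y).const_mul 4))
    (fun x y => le_of_tendsto ((hL _ _).sub (hL _ _)).abs (h𝒰 (hK x y)))
    (fun x y => le_of_tendsto ((hL _ _).sub (hL _ _)).abs (h𝒰 (hK' x y))) x y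
  have hc' : L 1 0 = c := tendsto_nhds_unique (hL 1 0) (hc.mono_left h𝒰)
  rw [hc'] at hE
  rw [← hE]
  exact hL x y

end Kernel

end RotorNE
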