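import Mathlib.Tactic
import Mathlib.Data.Nat.Nth
import Mathlib.Data.Int.Interval
import Mathlib.Data.Int.ConditionallyCompleteOrder
import Mathlib.Data.Int.Star
import Mathlib.Algebra.Order.Star.Real
import Mathlib.Analysis.SpecialFunctions.Integrals.Basic
import Mathlib.Analysis.Fourier.RiemannLebesgueLemma
import Mathlib.Analysis.SpecificLimits.Basic
import Mathlib.Analysis.Asymptotics.SpecificAsymptotics
import Mathlib.MeasureTheory.Integral.Prod
import Mathlib.MeasureTheory.Measure.Lebesgue.Basic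
import Pool.Agent.Lib.MP_936783_pr.KernelD

/-!
# The potential kernel, part E

A second convergence criterion (no sign hypothesis), the bound `|d A| ≤ 1`, and the area identity
`∑_{p ≠ 0} (∂₁₁A)² + ∑_q (∂₁₂A)² = 4`.
-/

open Filter Topology MeasureTheory Set

noncomputable section

namespace RotorNE

namespace Kernel

/-- A function with bounded gradient which vanishes at the origin and is harmonic elsewhere is a
multiple of the potential kernel plus a linear function. -/
theorem kernel_affine {T : ℤ → ℤ → ℝ} (h0 : T 0 0 = 0)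
    (hharm : ∀ x y, (x ≠ 0 ∨ y ≠ 0) → lap T x y = 0) {K : ℝ}
    (hK : ∀ x y, |T (x + 1) y - T x y| ≤ K) (hK' : ∀ x y, |T x (y + 1) - T x y| ≤ K) :
    ∃ c α β : ℝ, ∀ x y : ℤ, T x y = c * A x y + α * x + β * y := by
  set c := lap T 0 0 / 4 with hc
  set G : ℤ → ℤ → ℝ := fun x y => T x y - c * A x y with hG
  have hGh : ∀ x y, lap G x y = 0 := by
    intro x y
    have h1 := A_lap x y
    have h2 : lap G x y = lap T x y -
        c * (A (x + 1) y + A (x - 1) y + A x (y + 1) + A x (y - 1) - 4 * A x y) := by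
      unfold lap
      simp only [hG]
      ring
    rw [h2, h1]
    by_cases h : x = 0 ∧ y = 0
    · rw [if_pos h, h.1, h.2, hc]
      ring
    · rw [if_neg h, hharm x y (by tauto)]
      ring
  have hgx : ∀ x y, |G (x + 1) y - G x y| ≤ K + |c| * 16 := by
    intro x y
    have e : G (x + 1) y - G x y = (T (x + 1) y - T x y) - c * (A (x + 1) y - A x y) := by
      simp only [hG]; ring
    rw [e]
    refine (abs_sub _ _).trans (add_le_add (hK x y) ?_)
    rw [abs_mul]
    exact mul_le_mul_of_nonneg_left (grad_le x y).1 (abs_nonneg _)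
  have hgy : ∀ x y, |G x (y + 1) - G x y| ≤ K + |c| * 16 := by
    intro x y
    have e : G x (y + 1) - G x y = (T x (y + 1) - T x y) - c * (A x (y + 1) - A x y) := by
      simp only [hG]; ring
    rw [e]
    refine (abs_sub _ _).trans (add_le_add (hK' x y) ?_)
    rw [abs_mul]
    exact mul_le_mul_of_nonneg_left (grad_le x y).2 (abs_nonneg _)
  have hx := liouville (f := fun x y => G (x + 1) y - G x y) (fun x y => by
    have h1 := hGh (x + 1) y
    have h2 := hGh x y
    unfold lap at *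
    simp only
    have e1 : x + 1 - 1 = x := by ring
    have e2 : x - 1 + 1 = x := by ring
    rw [e1] at h1
    rw [e2]
    linarith) hgx
  have hy := liouville (f := fun x y => G x (y + 1) - G x y) (fun x y => by
    have h1 := hGh x (y + 1)
    have h2 := hGh x y
    unfold lap at *
    simp only
    have e1 : y + 1 - 1 = y := by ring
    have e2 : y - 1 + 1 = y := by ring
    rw [e1] at h1
    rw [e2]
    linarith) hgy
  set α := G (0 + 1) 0 - G 0 0 with hα
  set β := G 0 (0 + 1) - G 0 0 with hβ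
  have hG0 : G 0 0 = 0 := by
    simp only [hG]
    rw [h0, A_zero]
    ring
  have hlin : ∀ x y : ℤ, G x y = α * x + β * y := by
    intro x y
    have h1 := linear_of_step (f := fun x => G x y) (fun x => hx x y) x
    have h2 := linear_of_step (f := fun y => G 0 y) (fun y => hy 0 y) y
    rw [h1, h2, hG0]
    ring
  refine ⟨c, α, β, fun x y => ?_⟩
  have := hlin x y
  simp only [hG] at this
  linarith

/-- **Uniqueness.** -/
theorem eq_kernel' {T : ℤ → ℤ → ℝ} {c : ℝ} (h0 : T 0 0 = 0)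
    (hharm : ∀ x y, (x ≠ 0 ∨ y ≠ 0) → lap T x y = 0) {K : ℝ}
    (hK : ∀ x y, |T (x + 1) y - T x y| ≤ K) (hK' : ∀ x y, |T x (y + 1) - T x y| ≤ K)
    (h1 : T 1 0 = c) (h2 : T (-1) 0 = c) (h3 : T 0 1 = c) (x y : ℤ) :
    T x y = c * A x y := by
  obtain ⟨c', α, β, h⟩ := kernel_affine h0 hharm hK hK'
  have a1 : A 1 0 = 1 := A_one
  have a2 : A (-1) 0 = 1 := by rw [A_neg, A_one]
  have a3 : A 0 1 = 1 := by rw [← A_symm, A_one]
  rw [h, a1] at h1
  rw [h, a2] at h2
  rw [h, a3] at h3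
  push_cast at h1 h2 h3
  have e1 : c' = c := by linarith
  have e2 : α = 0 := by linarith
  have e3 : β = 0 := by linarith
  rw [h, e1, e2, e3]
  ring

/-- **Convergence**, second form. -/
theorem tendsto_kernel' {T : ℕ → ℤ → ℤ → ℝ} {c : ℝ}
    (h0 : Tendsto (fun n => T n 0 0) atTop (𝓝 0))
    (hharm : ∀ x y, (x ≠ 0 ∨ y ≠ 0) → Tendsto (fun n => lap (T n) x y) atTop (𝓝 0)) {K : ℝ}
    (hK : ∀ x y, ∀ᶠ n in atTop, |T n (x + 1) y - T n x y| ≤ K)
    (hK' : ∀ x y, ∀ᶠ n in atTop, |T n x (y + 1) - T n x y| ≤ K)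
    (h1 : Tendsto (fun n => T n 1 0) atTop (𝓝 c)) (h2 : Tendsto (fun n => T n (-1) 0) atTop (𝓝 c))
    (h3 : Tendsto (fun n => T n 0 1) atTop (𝓝 c)) (x y : ℤ) :
    Tendsto (fun n => T n x y) atTop (𝓝 (c * A x y)) := by
  -- local boundedness
  have hbx : ∀ x : ℤ, ∃ B, ∀ᶠ n in atTop, |T n x 0| ≤ B := by
    intro x
    induction x using Int.induction_on with
    | zero =>
      refine ⟨1, ?_⟩
      have := h0.abs
      rw [abs_zero] at this
      exact this.eventually_le_const (by norm_num)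
    | succ i ih =>
      obtain ⟨B, hB⟩ := ih
      refine ⟨B + K, ?_⟩
      filter_upwards [hB, hK i 0] with n h1 h2
      have : T n (i + 1) 0 = T n i 0 + (T n (i + 1) 0 - T n i 0) := by ring
      rw [this]
      exact (abs_add_le _ _).trans (add_le_add h1 h2)
    | pred i ih =>
      obtain ⟨B, hB⟩ := ih
      refine ⟨B + K, ?_⟩
      filter_upwards [hB, hK (-(i : ℤ) - 1) 0] with n h1 h2
      rw [sub_add_cancel] at h2
      have : T n (-(i : ℤ) - 1) 0 = T n (-i) 0 - (T n (-i) 0 - T n (-(i : ℤ) - 1) 0) := by ring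
      rw [this]
      exact (abs_sub _ _).trans (add_le_add h1 h2)
  have hb : ∀ x y : ℤ, ∃ B, ∀ᶠ n in atTop, |T n x y| ≤ B := by
    intro x y
    induction y using Int.induction_on with
    | zero => exact hbx x
    | succ i ih =>
      obtain ⟨B, hB⟩ := ih
      refine ⟨B + K, ?_⟩
      filter_upwards [hB, hK' x i] with n h1 h2
      have : T n x (i + 1) = T n x i + (T n x (i + 1) - T n x i) := by ring
      rw [this]
      exact (abs_add_le _ _).trans (add_le_add h1 h2)
    | pred i ih =>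
      obtain ⟨B, hB⟩ := ih
      refine ⟨B + K, ?_⟩
      filter_upwards [hB, hK' x (-(i : ℤ) - 1)] with n h1 h2
      rw [sub_add_cancel] at h2
      have : T n x (-(i : ℤ) - 1) = T n x (-i) - (T n x (-i) - T n x (-(i : ℤ) - 1)) := by ring
      rw [this]
      exact (abs_sub _ _).trans (add_le_add h1 h2)
  rw [tendsto_iff_ultrafilter]
  intro 𝒰 h𝒰
  have hlim : ∀ x y : ℤ, ∃ l, Tendsto (fun n => T n x y) 𝒰 (𝓝 l) := by
    intro x y
    obtain ⟨B, hB⟩ := hb x y
    have hmem : ∀ᶠ n in (𝒰 : Filter ℕ), T n x y ∈ Set.Icc (-B) B := by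
      filter_upwards [h𝒰 hB] with n hn
      exact abs_le.1 hn
    obtain ⟨l, -, hl⟩ := isCompact_Icc.ultrafilter_le_nhds (𝒰.map fun n => T n x y)
      (by rw [le_principal_iff]; exact hmem)
    exact ⟨l, hl⟩
  choose L hL using hlim
  have hE := eq_kernel' (T := L) (K := K) (c := c)
    (tendsto_nhds_unique (hL 0 0) (h0.mono_left h𝒰))
    (fun x y hxy => by
      refine tendsto_nhds_unique ?_ ((hharm x y hxy).mono_left h𝒰)
      unfold lap
      exact ((((hL _ _).add (hL _ _)).add (hL _ _)).add (hL _ _)).sub ((hL x y).const_mul 4))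
    (fun x y => le_of_tendsto ((hL _ _).sub (hL _ _)).abs (h𝒰 (hK x y)))
    (fun x y => le_of_tendsto ((hL _ _).sub (hL _ _)).abs (h𝒰 (hK' x y)))
    (tendsto_nhds_unique (hL _ _) (h1.mono_left h𝒰)) (tendsto_nhds_unique (hL _ _) (h2.mono_left h𝒰))
    (tendsto_nhds_unique (hL _ _) (h3.mono_left h𝒰)) x y
  rw [← hE]
  exact hL x y

/-! ### The gradient is bounded by one -/

lemma h_le_one (a b : ℕ) : h a b ≤ 1 := by
  have h1 := h_anti a (Nat.zero_le b)
  have h2 := h_axis_anti (Nat.zero_le a)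
  have h3 := h_zero
  simp only at h2
  linarith

theorem grad_one (x y : ℤ) : |A (x + 1) y - A x y| ≤ 1 := by
  obtain ⟨b, hb⟩ : ∃ b : ℕ, y = b ∨ y = -b := y.eq_nat_or_neg
  have hyA : ∀ z : ℤ, A z y = A z b := by
    intro z
    rcases hb with h | h <;> rw [h]
    rw [A_neg']
  rw [hyA, hyA]
  by_cases hx : 0 ≤ x
  · obtain ⟨a, rfl⟩ := Int.eq_ofNat_of_zero_le hx
    have h1 := h_nonneg a b
    have h2 := h_le_one a b
    unfold h at h1 h2
    rw [abs_of_nonneg h1]
    exact h2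
  · obtain ⟨a, ha⟩ : ∃ a : ℕ, x = -(a : ℤ) - 1 := ⟨(-x - 1).toNat, by omega⟩
    have h1 := h_nonneg a b
    have h2 := h_le_one a b
    unfold h at h1 h2
    have e1 : x + 1 = -(a : ℤ) := by omega
    have e2 : x = -((a : ℤ) + 1) := by omega
    rw [e1, A_neg, e2, A_neg, abs_sub_comm, abs_of_nonneg h1]
    exact h2

theorem grad_one' (x y : ℤ) : |A x (y + 1) - A x y| ≤ 1 := by
  rw [← A_symm x (y + 1), ← A_symm x y]
  exact grad_one y x

/-! ### Second differences -/

/-- Horizontal second difference. -/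
def sdx (a b : ℤ) : ℝ := A (a + 1) b + A (a - 1) b - 2 * A a b

/-- Vertical second difference. -/
def sdy (a b : ℤ) : ℝ := A a (b + 1) + A a (b - 1) - 2 * A a b

lemma sdx_add_sdy (a b : ℤ) : sdx a b + sdy a b = if a = 0 ∧ b = 0 then 4 else 0 := by
  rw [← A_lap]
  unfold sdx sdy
  ring

lemma sdx_zero : sdx 0 0 = 2 := by
  unfold sdx
  rw [zero_add, zero_sub, A_neg, A_one, A_zero]
  norm_num

lemma sdy_zero : sdy 0 0 = 2 := by
  have := sdx_add_sdy 0 0
  rw [if_pos ⟨rfl, rfl⟩, sdx_zero] at this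
  linarith

lemma sdy_eq {a b : ℤ} (h : ¬ (a = 0 ∧ b = 0)) : sdy a b = - sdx a b := by
  have := sdx_add_sdy a b
  rw [if_neg h] at this
  linarith

/-- The two telescoping terms. -/
def PP (a b : ℤ) : ℝ := (A (a + 1) b - A a b) * sdy (a + 1) b

def QQ (a b : ℤ) : ℝ := (A (a + 1) b - A a b) * D a (b - 1)

lemma lagrangian (a b : ℤ) :
    sdx a b * sdy a b - D a b ^ 2 = (PP a b - PP (a - 1) b) - (QQ a (b + 1) - QQ a b) := by
  unfold PP QQ sdx sdy D
  have e1 : a - 1 + 1 = a := by ring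
  have e2 : b - 1 + 1 = b := by ring
  have e3 : b + 1 - 1 = b := by ring
  rw [e1, e2, e3]
  ring

lemma sdy_abs (a b : ℤ) (K : ℝ) (hK : 1 ≤ K) (h : K ≤ |(a : ℝ)| ∨ K + 1 ≤ |(b : ℝ)|) :
    |sdy a b| ≤ 32 / K := by
  have h1 := grad_y a b
  have h2 := grad_y a (b - 1)
  rw [sub_add_cancel] at h2
  have hKp : 0 < K := by linarith
  have e1 : (16 : ℝ) / (1 + max |(a : ℝ)| |(b : ℝ)|) ≤ 16 / K := by
    apply div_le_div_of_nonneg_left (by norm_num) hKp
    rcases h with h | h
    · have := le_max_left |(a : ℝ)| |(b : ℝ)|; linarith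
    · have := le_max_right |(a : ℝ)| |(b : ℝ)|; linarith
  have e2 : (16 : ℝ) / (1 + max |(a : ℝ)| |((b - 1 : ℤ) : ℝ)|) ≤ 16 / K := by
    apply div_le_div_of_nonneg_left (by norm_num) hKp
    rcases h with h | h
    · have := le_max_left |(a : ℝ)| |((b - 1 : ℤ) : ℝ)|; linarith
    · have := le_max_right |(a : ℝ)| |((b - 1 : ℤ) : ℝ)|
      have h3 : |(b : ℝ)| ≤ |((b - 1 : ℤ) : ℝ)| + 1 := by
        push_cast
        have := abs_sub_abs_le_abs_sub (b : ℝ) ((b : ℝ) - 1)
        have h4 : (b : ℝ) - (b - 1) = 1 := by ring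
        rw [h4, abs_one] at this
        linarith
      linarith
  have e : sdy a b = (A a (b + 1) - A a b) - (A a b - A a (b - 1)) := by unfold sdy; ring
  rw [e]
  refine (abs_sub _ _).trans ?_
  have : (32 : ℝ) / K = 16 / K + 16 / K := by ring
  rw [this]
  exact add_le_add (h1.trans e1) (h2.trans e2)

lemma D_abs (a b : ℤ) (K : ℝ) (hK : 1 ≤ K) (h : K ≤ |(a : ℝ)| ∨ K + 1 ≤ |(b : ℝ)|) :
    |D a b| ≤ 32 / K := by
  have hKp : 0 < K := by linarith
  have e : D a b = (A (a + 1) (b + 1) - A a (b + 1)) - (A (a + 1) b - A a b) := by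
    unfold D; ring
  have h1 := grad_x a (b + 1)
  have h2 := grad_x a b
  have e1 : (16 : ℝ) / (1 + max |(a : ℝ)| |(b : ℝ)|) ≤ 16 / K := by
    apply div_le_div_of_nonneg_left (by norm_num) hKp
    rcases h with h | h
    · have := le_max_left |(a : ℝ)| |(b : ℝ)|; linarith
    · have := le_max_right |(a : ℝ)| |(b : ℝ)|; linarith
  have e2 : (16 : ℝ) / (1 + max |(a : ℝ)| |((b + 1 : ℤ) : ℝ)|) ≤ 16 / K := by
    apply div_le_div_of_nonneg_left (by norm_num) hKp
    rcases h with h | h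
    · have := le_max_left |(a : ℝ)| |((b + 1 : ℤ) : ℝ)|; linarith
    · have := le_max_right |(a : ℝ)| |((b + 1 : ℤ) : ℝ)|
      have h3 : |(b : ℝ)| ≤ |((b + 1 : ℤ) : ℝ)| + 1 := by
        push_cast
        have := abs_sub_abs_le_abs_sub (b : ℝ) ((b : ℝ) + 1)
        have h4 : (b : ℝ) - (b + 1) = -1 := by ring
        rw [h4, abs_neg, abs_one] at this
        linarith
      linarith
  rw [e]
  refine (abs_sub _ _).trans ?_
  have : (32 : ℝ) / K = 16 / K + 16 / K := by ring
  rw [this]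
  exact add_le_add (h1.trans e2) (h2.trans e1)

lemma grad_abs (a b : ℤ) (K : ℝ) (hK : 1 ≤ K) (h : K ≤ |(a : ℝ)| ∨ K + 1 ≤ |(b : ℝ)|) :
    |A (a + 1) b - A a b| ≤ 16 / K := by
  refine (grad_x a b).trans ?_
  apply div_le_div_of_nonneg_left (by norm_num) (by linarith)
  rcases h with h | h
  · have := le_max_left |(a : ℝ)| |(b : ℝ)|; linarith
  · have := le_max_right |(a : ℝ)| |(b : ℝ)|; linarith

/-! ### The area identity -/

lemma sum_tel (f : ℤ → ℝ) (K : ℕ) :
    ∑ a ∈ Finset.Icc (-(K : ℤ)) K, (f a - f (a - 1)) = f K - f (-(K : ℤ) - 1) := by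
  induction K with
  | zero => simp
  | succ K ih =>
    have e : Finset.Icc (-((K + 1 : ℕ) : ℤ)) ((K + 1 : ℕ) : ℤ) =
        insert (-((K : ℤ) + 1)) (insert ((K : ℤ) + 1) (Finset.Icc (-(K : ℤ)) K)) := by
      ext z
      simp only [Finset.mem_Icc, Finset.mem_insert]
      push_cast
      omega
    rw [e, Finset.sum_insert, Finset.sum_insert, ih]
    · push_cast
      have e1 : (K : ℤ) + 1 - 1 = K := by ring
      have e2 : -((K : ℤ) + 1) = -(K : ℤ) - 1 := by ring
      rw [e1, e2]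
      ring
    · simp only [Finset.mem_Icc]; omega
    · simp only [Finset.mem_Icc, Finset.mem_insert]; omega

/-- The box. -/
def Box (K : ℕ) : Finset (ℤ × ℤ) := Finset.Icc (-(K : ℤ)) K ×ˢ Finset.Icc (-(K : ℤ)) K

lemma sum_box (K : ℕ) :
    ∑ p ∈ Box K, (sdx p.1 p.2 * sdy p.1 p.2 - D p.1 p.2 ^ 2) =
      ∑ b ∈ Finset.Icc (-(K : ℤ)) K, (PP K b - PP (-(K : ℤ) - 1) b) -
      ∑ a ∈ Finset.Icc (-(K : ℤ)) K, (QQ a (K + 1) - QQ a (-(K : ℤ))) := by
  unfold Box
  have h1 : ∑ p ∈ Finset.Icc (-(K : ℤ)) K ×ˢ Finset.Icc (-(K : ℤ)) K,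
      (PP p.1 p.2 - PP (p.1 - 1) p.2) =
      ∑ b ∈ Finset.Icc (-(K : ℤ)) K, (PP K b - PP (-(K : ℤ) - 1) b) := by
    rw [Finset.sum_product_right]
    exact Finset.sum_congr rfl fun b _ => sum_tel (fun a => PP a b) K
  have h2 : ∑ p ∈ Finset.Icc (-(K : ℤ)) K ×ˢ Finset.Icc (-(K : ℤ)) K,
      (QQ p.1 (p.2 + 1) - QQ p.1 p.2) =
      ∑ a ∈ Finset.Icc (-(K : ℤ)) K, (QQ a (K + 1) - QQ a (-(K : ℤ))) := by
    rw [Finset.sum_product]
    refine Finset.sum_congr rfl fun a _ => ?_
    have := sum_tel (fun b => QQ a (b + 1)) K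
    simp only [sub_add_cancel] at this
    exact this
  rw [← h1, ← h2, ← Finset.sum_sub_distrib]
  exact Finset.sum_congr rfl fun p _ => lagrangian p.1 p.2

lemma card_Icc (K : ℕ) : ((Finset.Icc (-(K : ℤ)) K).card : ℝ) = 2 * K + 1 := by
  rw [Int.card_Icc]
  have : ((K : ℤ) + 1 - -(K : ℤ)).toNat = 2 * K + 1 := by omega
  rw [this]
  push_cast
  ring

lemma box_bound {K : ℕ} (hK : 1 ≤ K) :
    |∑ p ∈ Box K, (sdx p.1 p.2 * sdy p.1 p.2 - D p.1 p.2 ^ 2)| ≤ 6144 / K := by
  rw [sum_box]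
  have hK1 : (1 : ℝ) ≤ K := by exact_mod_cast hK
  have hK0 : (0 : ℝ) < K := by linarith
  have hb : (2 * (K : ℝ) + 1) * (2 * (16 / K * (32 / K))) ≤ 3072 / K := by
    have : (2 * (K : ℝ) + 1) ≤ 3 * K := by linarith
    have h2 : (0 : ℝ) ≤ 2 * (16 / K * (32 / K)) := by positivity
    refine (mul_le_mul_of_nonneg_right this h2).trans ?_
    have e : 3 * (K : ℝ) * (2 * (16 / K * (32 / K))) = 3072 / K := by
      field_simp
      norm_num
    rw [e]
  have c1 : |((K : ℤ) : ℝ)| = K := by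
    push_cast; exact abs_of_nonneg hK0.le
  have c2 : |((-(K : ℤ) - 1 : ℤ) : ℝ)| = K + 1 := by
    push_cast
    rw [abs_of_nonpos (by linarith)]
    ring
  have c3 : |((-(K : ℤ) : ℤ) : ℝ)| = K := by
    push_cast
    rw [abs_neg]
    exact abs_of_nonneg hK0.le
  have c4 : |(((K : ℤ) + 1 : ℤ) : ℝ)| = K + 1 := by
    push_cast
    exact abs_of_nonneg (by linarith)
  have h1 : |∑ b ∈ Finset.Icc (-(K : ℤ)) K, (PP K b - PP (-(K : ℤ) - 1) b)| ≤ 3072 / K := by
    refine (Finset.abs_sum_le_sum_abs _ _).trans ?_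
    have : ∀ b ∈ Finset.Icc (-(K : ℤ)) K, |PP K b - PP (-(K : ℤ) - 1) b| ≤
        2 * (16 / K * (32 / K)) := by
      intro b _
      refine (abs_sub _ _).trans ?_
      rw [two_mul]
      unfold PP
      rw [abs_mul, abs_mul]
      apply add_le_add
      · apply mul_le_mul (grad_abs _ _ K hK1 (Or.inl c1.ge)) (sdy_abs _ _ K hK1 (Or.inl ?_))
          (abs_nonneg _) (by positivity)
        rw [c4]; linarith
      · apply mul_le_mul (grad_abs _ _ K hK1 (Or.inl ?_)) (sdy_abs _ _ K hK1 (Or.inl ?_))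
          (abs_nonneg _) (by positivity)
        · rw [c2]; linarith
        · rw [sub_add_cancel, c3]
    refine (Finset.sum_le_sum this).trans ?_
    rw [Finset.sum_const, nsmul_eq_mul, card_Icc]
    exact hb
  have h2 : |∑ a ∈ Finset.Icc (-(K : ℤ)) K, (QQ a (K + 1) - QQ a (-(K : ℤ)))| ≤ 3072 / K := by
    refine (Finset.abs_sum_le_sum_abs _ _).trans ?_
    have hg : ∀ a b : ℤ, (K : ℝ) ≤ |(b : ℝ)| → |A (a + 1) b - A a b| ≤ 16 / K := by
      intro a b hb
      refine (grad_x a b).trans ?_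
      apply div_le_div_of_nonneg_left (by norm_num) hK0
      have := le_max_right |(a : ℝ)| |(b : ℝ)|
      linarith
    have hD : ∀ a b : ℤ, (K : ℝ) ≤ |(b : ℝ)| → (K : ℝ) ≤ |((b + 1 : ℤ) : ℝ)| →
        |D a b| ≤ 32 / K := by
      intro a b hb hb'
      have e : D a b = (A (a + 1) (b + 1) - A a (b + 1)) - (A (a + 1) b - A a b) := by
        unfold D; ring
      rw [e]
      refine (abs_sub _ _).trans ?_
      have : (32 : ℝ) / K = 16 / K + 16 / K := by ring
      rw [this]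
      exact add_le_add (hg _ _ hb') (hg _ _ hb)
    have : ∀ a ∈ Finset.Icc (-(K : ℤ)) K, |QQ a (K + 1) - QQ a (-(K : ℤ))| ≤
        2 * (16 / K * (32 / K)) := by
      intro a _
      refine (abs_sub _ _).trans ?_
      rw [two_mul]
      unfold QQ
      rw [abs_mul, abs_mul]
      apply add_le_add
      · apply mul_le_mul (hg _ _ ?_) (hD _ _ ?_ ?_) (abs_nonneg _) (by positivity)
        · rw [c4]; linarith
        · rw [add_sub_cancel_right, c1]
        · rw [sub_add_cancel, c4]; linarith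
      · apply mul_le_mul (hg _ _ ?_) (hD _ _ ?_ ?_) (abs_nonneg _) (by positivity)
        · rw [c3]
        · rw [c2]; linarith
        · rw [sub_add_cancel, c3]
    refine (Finset.sum_le_sum this).trans ?_
    rw [Finset.sum_const, nsmul_eq_mul, card_Icc]
    exact hb
  refine (abs_sub _ _).trans ?_
  have : (6144 : ℝ) / K = 3072 / K + 3072 / K := by ring
  rw [this]
  exact add_le_add h1 h2

/-- **Area identity** (quantitative form). -/
theorem area {K : ℕ} (hK : 1 ≤ K) :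
    |∑ p ∈ (Box K).erase (0, 0), sdx p.1 p.2 ^ 2 + ∑ p ∈ Box K, D p.1 p.2 ^ 2 - 4| ≤ 6144 / K := by
  have h0 : ((0 : ℤ), (0 : ℤ)) ∈ Box K := by
    unfold Box
    simp
  have h1 : ∑ p ∈ Box K, (sdx p.1 p.2 * sdy p.1 p.2 - D p.1 p.2 ^ 2) =
      4 - (∑ p ∈ (Box K).erase (0, 0), sdx p.1 p.2 ^ 2 + ∑ p ∈ Box K, D p.1 p.2 ^ 2) := by
    rw [Finset.sum_sub_distrib, ← Finset.add_sum_erase _ _ h0]
    simp only
    rw [sdx_zero, sdy_zero]
    have : ∑ p ∈ (Box K).erase (0, 0), sdx p.1 p.2 * sdy p.1 p.2 =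
        -∑ p ∈ (Box K).erase (0, 0), sdx p.1 p.2 ^ 2 := by
      rw [← Finset.sum_neg_distrib]
      refine Finset.sum_congr rfl fun p hp => ?_
      rw [Finset.mem_erase] at hp
      rw [sdy_eq (fun h => hp.1 (Prod.ext h.1 h.2))]
      ring
    rw [this]
    ring
  have h2 := box_bound hK
  rw [h1, ← abs_neg] at h2
  refine le_trans (le_of_eq ?_) h2
  congr 1
  ring

/-- The mixed difference never vanishes. -/
theorem D_ne_zero (a b : ℤ) : D a b ≠ 0 := by
  rcases le_or_gt 0 a with ha | ha <;> rcases le_or_gt 0 b with hb | hb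
  · exact (D_lt a b ha hb).ne
  · have := D_lt a (-1 - b) ha (by omega)
    rw [D_neg'] at this
    intro h
    rw [h] at this
    norm_num at this
  · have := D_lt (-1 - a) b (by omega) hb
    rw [D_neg] at this
    intro h
    rw [h] at this
    norm_num at this
  · have := D_lt (-1 - a) (-1 - b) (by omega) (by omega)
    rw [D_neg, D_neg'] at this
    intro h
    rw [h] at this
    norm_num at this

end Kernel

end RotorNE
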