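import Mathlib.Tactic
import Mathlib.Data.Nat.Nth
import Mathlib.Data.Int.Interval
import Mathlib.Data.Int.ConditionallyCompleteOrder
import Mathlib.Data.Int.Star
import Mathlib.Algebra.Order.Star.Real
import Mathlib.Analysis.SpecialFunctions.Integrals.Basic
import Mathlib.Analysis.Fourier.RiemannLebesgueLemma
import Mathlib.Analysis.SpecificLimits.Basic
import Mathlib.Analysis.Asymptotics.SpecificAsymptotics
import Mathlib.MeasureTheory.Integral.Prod
import Mathlib.MeasureTheory.Measure.Lebesgue.Basic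
import Pool.Agent.Lib.MP_936783_pr.KernelE

/-!
# The potential kernel, part F: the sign of the second differences
-/

open Filter Topology MeasureTheory Set

noncomputable section

namespace RotorNE

namespace Kernel

lemma sdx_neg (a b : ℤ) : sdx (-a) b = sdx a b := by
  unfold sdx
  rw [show -a + 1 = -(a - 1) by ring, show -a - 1 = -(a + 1) by ring, A_neg, A_neg, A_neg]
  ring

lemma sdx_neg' (a b : ℤ) : sdx a (-b) = sdx a b := by
  unfold sdx
  rw [A_neg', A_neg', A_neg']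

lemma sdy_symm (a b : ℤ) : sdy a b = sdx b a := by
  unfold sdx sdy
  rw [A_symm (b + 1) a, A_symm (b - 1) a, A_symm b a]

lemma sdx_swap {a b : ℤ} (h : ¬ (a = 0 ∧ b = 0)) : sdx b a = -sdx a b := by
  rw [← sdy_symm, sdy_eq h]

lemma sdx_diag {a : ℤ} (h : a ≠ 0) : sdx a a = 0 := by
  have := sdx_swap (a := a) (b := a) (fun h' => h h'.1)
  linarith

lemma sdx_diag' {a : ℤ} (h : a ≠ 0) : sdx a (-a) = 0 := by
  rw [sdx_neg', sdx_diag h]

lemma sdx_decay (a b : ℤ) (ha : 1 ≤ a) : |sdx a b| ≤ 32 / a := by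
  have haR : (1 : ℝ) ≤ a := by exact_mod_cast ha
  have h1 := grad_x a b
  have h2 := grad_x (a - 1) b
  rw [sub_add_cancel] at h2
  have e : sdx a b = (A (a + 1) b - A a b) - (A a b - A (a - 1) b) := by unfold sdx; ring
  rw [e]
  refine (abs_sub _ _).trans ?_
  have e3 : (32 : ℝ) / a = 16 / a + 16 / a := by ring
  rw [e3]
  refine add_le_add (h1.trans ?_) (h2.trans ?_)
  · apply div_le_div_of_nonneg_left (by norm_num) (by linarith)
    have := le_max_left |(a : ℝ)| |(b : ℝ)|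
    have h3 := le_abs_self (a : ℝ)
    linarith
  · apply div_le_div_of_nonneg_left (by norm_num) (by linarith)
    have := le_max_left |((a - 1 : ℤ) : ℝ)| |(b : ℝ)|
    have h3 := le_abs_self ((a - 1 : ℤ) : ℝ)
    push_cast at this h3 ⊢
    linarith

/-- The second difference is harmonic off three points; its equation. -/
lemma sdx_lap (a b : ℤ) : sdx (a + 1) b + sdx (a - 1) b + sdx a (b + 1) + sdx a (b - 1) -
    4 * sdx a b = (if a + 1 = 0 ∧ b = 0 then 4 else 0) + (if a - 1 = 0 ∧ b = 0 then 4 else 0) -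
      2 * (if a = 0 ∧ b = 0 then 4 else 0) := by
  rw [← A_lap, ← A_lap, ← A_lap]
  unfold sdx
  rw [sub_add_cancel, add_sub_cancel_right]
  ring

lemma sdx_lap' {a b : ℤ} (ha : 1 ≤ a) : sdx (a + 1) b + sdx (a - 1) b + sdx a (b + 1) +
    sdx a (b - 1) - 4 * sdx a b = if a = 1 ∧ b = 0 then 4 else 0 := by
  rw [sdx_lap, if_neg (by omega)]
  have : ¬ (a = 0 ∧ b = 0) := by omega
  rw [if_neg this]
  by_cases h : a = 1 ∧ b = 0
  · rw [if_pos h, if_pos (by omega)]
    ring
  · rw [if_neg h, if_neg (by omega)]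
    ring

lemma sdx_bdry {a b : ℤ} (ha : 1 ≤ a) (hb : |b| = a) : sdx a b = 0 := by
  rcases abs_eq (by omega : 0 ≤ a) |>.1 hb with h | h
  · rw [h]; exact sdx_diag (by omega)
  · rw [h]; exact sdx_diag' (by omega)

/-- The second difference is nonpositive in the wedge `|b| ≤ a`. -/
theorem sdx_nonpos_aux (a b : ℤ) (ha : 1 ≤ a) (hb : |b| ≤ a) : sdx a b ≤ 0 := by
  by_contra hpos
  push Not at hpos
  obtain ⟨N, hN⟩ := exists_nat_gt (32 / sdx a b)
  have hdec : ∀ x y : ℤ, (N : ℤ) ≤ x → 1 ≤ x → sdx x y < sdx a b := by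
    intro x y hx hx1
    have hxR : (1 : ℝ) ≤ x := by exact_mod_cast hx1
    have hxN : (N : ℝ) ≤ x := by exact_mod_cast hx
    have h1 := (abs_le.1 (sdx_decay x y hx1)).2
    have h2 : (32 : ℝ) / x < sdx a b := by
      rw [div_lt_iff₀ (by linarith)]
      rw [div_lt_iff₀ hpos] at hN
      nlinarith
    linarith
  -- a maximiser over a finite set
  obtain ⟨R, hRN, hRa⟩ : ∃ R : ℤ, (N : ℤ) ≤ R ∧ a ≤ R := ⟨max (N : ℤ) a, le_max_left _ _, le_max_right _ _⟩
  obtain ⟨P, hP⟩ : ∃ P : Finset (ℤ × ℤ), ∀ p : ℤ × ℤ, p ∈ P ↔ (1 ≤ p.1 ∧ |p.2| ≤ p.1 ∧ p.1 ≤ R) := by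
    refine ⟨(Finset.Icc (1 : ℤ) R ×ˢ Finset.Icc (-R) R).filter (fun p => |p.2| ≤ p.1), fun p => ?_⟩
    rw [Finset.mem_filter, Finset.mem_product, Finset.mem_Icc, Finset.mem_Icc]
    constructor
    · rintro ⟨⟨⟨h1, h2⟩, -⟩, h3⟩
      exact ⟨h1, h3, h2⟩
    · rintro ⟨h1, h2, h3⟩
      have := abs_le.1 h2
      exact ⟨⟨⟨h1, h3⟩, by omega, by omega⟩, h2⟩
  have hab : (a, b) ∈ P := (hP _).2 ⟨ha, hb, hRa⟩
  obtain ⟨p, hp, hmax⟩ := Finset.exists_max_image P (fun p => sdx p.1 p.2) ⟨_, hab⟩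
  have hm0 : sdx a b ≤ sdx p.1 p.2 := hmax (a, b) hab
  obtain ⟨m, hm⟩ : ∃ m, m = sdx p.1 p.2 := ⟨_, rfl⟩
  rw [← hm] at hm0
  have hall : ∀ x y : ℤ, 1 ≤ x → |y| ≤ x → sdx x y ≤ m := by
    intro x y hx hy
    by_cases h : x ≤ R
    · rw [hm]
      exact hmax (x, y) ((hP _).2 ⟨hx, hy, h⟩)
    · exact ((hdec x y (by omega) hx).le).trans hm0
  have hp' : 1 ≤ p.1 ∧ |p.2| ≤ p.1 := by
    have := (hP _).1 hp
    exact ⟨this.1, this.2.1⟩
  have hprop : ∀ x y : ℤ, 1 ≤ x → |y| ≤ x → sdx x y = m → sdx (x + 1) y = m := by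
    intro x y hx hy he
    have hne : |y| ≠ x := by
      intro h
      have := sdx_bdry hx h
      linarith
    have hlt : |y| < x := lt_of_le_of_ne hy hne
    have habs := abs_lt.1 hlt
    have hl := sdx_lap' (a := x) (b := y) hx
    have n1 := hall (x + 1) y (by omega) (by omega)
    have n3 := hall x (y + 1) hx (by rw [abs_le]; omega)
    have n4 := hall x (y - 1) hx (by rw [abs_le]; omega)
    by_cases h10 : x = 1 ∧ y = 0
    · exfalso
      obtain ⟨rfl, rfl⟩ := h10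
      rw [if_pos ⟨rfl, rfl⟩] at hl
      have e0 : sdx (1 - 1) 0 = 2 := by rw [sub_self]; exact sdx_zero
      have e1 : sdx 1 (0 + 1) = 0 := by rw [zero_add]; exact sdx_diag one_ne_zero
      have e2 : sdx 1 (0 - 1) = 0 := by rw [zero_sub]; exact sdx_diag' one_ne_zero
      rw [e0, e1, e2, he] at hl
      linarith
    · rw [if_neg h10] at hl
      have n2 := hall (x - 1) y (by
        by_contra hc
        have : x = 1 := by omega
        subst this
        apply h10
        refine ⟨rfl, ?_⟩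
        have := abs_lt.1 hlt
        omega) (by omega)
      linarith
  have hk : ∀ k : ℕ, sdx (p.1 + k) p.2 = m := by
    intro k
    induction k with
    | zero => rw [Nat.cast_zero, add_zero, hm]
    | succ k ih =>
      have := hprop (p.1 + k) p.2 (by omega) (by omega) ih
      push_cast
      rw [← add_assoc]
      exact this
  have h1 := hk N
  have h2 := hdec (p.1 + N) p.2 (by omega) (by omega)
  linarith

/-- Strict version. -/
theorem sdx_neg_aux (a b : ℤ) (ha : 1 ≤ a) (hb : |b| < a) : sdx a b < 0 := by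
  refine lt_of_le_of_ne (sdx_nonpos_aux a b ha hb.le) ?_
  intro h0
  have hprop : ∀ x y : ℤ, 1 ≤ x → |y| < x → sdx x y = 0 → ¬ (x = 1 ∧ y = 0) ∧
      sdx (x - 1) y = 0 ∧ sdx x (y + 1) = 0 ∧ sdx x (y - 1) = 0 := by
    intro x y hx hlt he
    have habs := abs_lt.1 hlt
    have hl := sdx_lap' (a := x) (b := y) hx
    have n1 := sdx_nonpos_aux (x + 1) y (by omega) (by omega)
    have n3 := sdx_nonpos_aux x (y + 1) hx (by rw [abs_le]; omega)
    have n4 := sdx_nonpos_aux x (y - 1) hx (by rw [abs_le]; omega)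
    by_cases h10 : x = 1 ∧ y = 0
    · exfalso
      obtain ⟨rfl, rfl⟩ := h10
      rw [if_pos ⟨rfl, rfl⟩] at hl
      have e0 : sdx (1 - 1) 0 = 2 := by rw [sub_self]; exact sdx_zero
      have e1 : sdx 1 (0 + 1) = 0 := by rw [zero_add]; exact sdx_diag one_ne_zero
      have e2 : sdx 1 (0 - 1) = 0 := by rw [zero_sub]; exact sdx_diag' one_ne_zero
      rw [e0, e1, e2, he] at hl
      linarith
    · rw [if_neg h10] at hl
      have hx2 : 1 ≤ x - 1 := by
        by_contra hc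
        have : x = 1 := by omega
        subst this
        apply h10
        refine ⟨rfl, ?_⟩
        omega
      have n2 := sdx_nonpos_aux (x - 1) y hx2 (by omega)
      refine ⟨h10, ?_, ?_, ?_⟩ <;> linarith
  have key : ∀ k : ℕ, ∀ x y : ℤ, 1 ≤ x → |y| < x → sdx x y = 0 → x + |y| = k → False := by
    intro k
    induction k using Nat.strong_induction_on with
    | _ k ih =>
      intro x y hx hy he hk
      obtain ⟨h10, h1, h2, h3⟩ := hprop x y hx hy he
      have habs := abs_lt.1 hy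
      have hynn := abs_nonneg y
      by_cases hl : |y| < x - 1
      · exact ih (k - 1) (by omega) (x - 1) y (by omega) hl h1 (by omega)
      · rcases lt_trichotomy y 0 with hy0 | hy0 | hy0
        · have e : |y + 1| = |y| - 1 := by
            rw [abs_of_neg hy0, abs_of_nonpos (by omega)]; ring
          exact ih (k - 1) (by omega) x (y + 1) hx (by omega) h2 (by omega)
        · exfalso
          rw [hy0, abs_zero] at hl
          exact h10 ⟨by omega, hy0⟩
        · have e : |y - 1| = |y| - 1 := by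
            rw [abs_of_pos hy0, abs_of_nonneg (by omega)]
          exact ih (k - 1) (by omega) x (y - 1) hx (by omega) h3 (by omega)
  exact key (a + |b|).toNat a b ha hb h0 (by have := abs_nonneg b; omega)

lemma sdx_abs (a b : ℤ) : sdx |a| |b| = sdx a b := by
  rcases abs_choice a with h | h <;> rcases abs_choice b with h' | h' <;> rw [h, h']
  · rw [sdx_neg']
  · rw [sdx_neg]
  · rw [sdx_neg, sdx_neg']

/-- `∂₁₁A ≤ 0` for `|b| ≤ |a|`, `(a, b) ≠ 0`. -/
theorem sdx_nonpos {a b : ℤ} (h : |b| ≤ |a|) (h0 : ¬ (a = 0 ∧ b = 0)) : sdx a b ≤ 0 := by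
  rw [← sdx_abs]
  have ha : 1 ≤ |a| := by
    rcases eq_or_ne a 0 with ha | ha
    · subst ha
      rw [abs_zero] at h
      exact absurd ⟨rfl, abs_nonpos_iff.1 h⟩ h0
    · exact Int.one_le_abs ha
  exact sdx_nonpos_aux _ _ ha (by rw [abs_abs]; exact h)

/-- `∂₁₁A < 0` for `|b| < |a|`. -/
theorem sdx_lt {a b : ℤ} (h : |b| < |a|) : sdx a b < 0 := by
  rw [← sdx_abs]
  have := abs_nonneg b
  exact sdx_neg_aux _ _ (by omega) (by rw [abs_abs]; exact h)

/-- `∂₁₁A ≥ 0` for `|a| ≤ |b|`, `(a, b) ≠ 0`. -/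
theorem sdx_nonneg {a b : ℤ} (h : |a| ≤ |b|) : 0 ≤ sdx a b := by
  by_cases h0 : a = 0 ∧ b = 0
  · rw [h0.1, h0.2, sdx_zero]; norm_num
  · rw [← neg_neg (sdx a b), ← sdx_swap h0]
    have := sdx_nonpos (a := b) (b := a) h (fun h' => h0 ⟨h'.2, h'.1⟩)
    linarith

/-- `∂₁₁A > 0` for `|a| < |b|`. -/
theorem sdx_gt {a b : ℤ} (h : |a| < |b|) : 0 < sdx a b := by
  have h0 : ¬ (a = 0 ∧ b = 0) := by
    rintro ⟨rfl, rfl⟩
    exact lt_irrefl _ h
  rw [← neg_neg (sdx a b), ← sdx_swap h0]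
  have := sdx_lt (a := b) (b := a) h
  linarith

/-- `∂₂₂A`: the signs are opposite. -/
theorem sdy_nonneg {a b : ℤ} (h : |b| ≤ |a|) : 0 ≤ sdy a b := by
  rw [sdy_symm]
  exact sdx_nonneg h

theorem sdy_nonpos {a b : ℤ} (h : |a| ≤ |b|) (h0 : ¬ (a = 0 ∧ b = 0)) : sdy a b ≤ 0 := by
  rw [sdy_symm]
  exact sdx_nonpos h (fun h' => h0 ⟨h'.2, h'.1⟩)

end Kernel

end RotorNE
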