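import Mathlib.Tactic
import Mathlib.Data.Nat.Nth
import Mathlib.Data.Int.Interval
import Mathlib.Data.Int.ConditionallyCompleteOrder
import Mathlib.Data.Int.Star
import Mathlib.Algebra.Order.Star.Real
import Mathlib.Analysis.SpecialFunctions.Integrals.Basic
import Mathlib.Analysis.Fourier.RiemannLebesgueLemma
import Mathlib.Analysis.SpecificLimits.Basic
import Mathlib.Analysis.Asymptotics.SpecificAsymptotics
import Mathlib.MeasureTheory.Integral.Prod
import Mathlib.MeasureTheory.Measure.Lebesgue.Basic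
import Pool.Agent.Lib.MP_936783_pr.KernelF

/-!
# The limit tiles cover almost every point of the square

`xi a b = (A a b - A (a+1) b) / 4`, `eta a b = (A a b - A a (b+1)) / 4` are the limit positions of
the vertical and horizontal boundary segments. For `(a, b) ≠ (0, 0)` the square `sqS a b` has
corners `(xi (a-1) b, eta a (b-1))` and `(xi a b, eta a b)`; the square `sqF a b` has corners
`(xi a b, eta a b)` and `(xi a (b+1), eta (a+1) b)`. Each is cut by a diagonal into two triangles,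
and each triangle carries a label (horizontal flux, vertical flux, number of exits mod 4).
-/

open Filter Topology MeasureTheory Set

noncomputable section

namespace RotorNE

open Kernel

def xi (a b : ℤ) : ℝ := (A a b - A (a + 1) b) / 4

def eta (a b : ℤ) : ℝ := (A a b - A a (b + 1)) / 4

lemma xi_sub (a b : ℤ) : xi a b - xi (a - 1) b = -sdx a b / 4 := by
  unfold xi sdx
  rw [sub_add_cancel]
  ring

lemma eta_sub {a b : ℤ} (h : ¬ (a = 0 ∧ b = 0)) : eta a (b - 1) - eta a b = -sdx a b / 4 := by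
  rw [← sdy_eq h]
  unfold eta sdy
  rw [sub_add_cancel]
  ring

lemma xi_up (a b : ℤ) : xi a (b + 1) - xi a b = -D a b / 4 := by
  unfold xi D
  ring

lemma eta_up (a b : ℤ) : eta (a + 1) b - eta a b = -D a b / 4 := by
  unfold eta D
  ring

/-- Monotonicity of `xi` in the first variable. -/
lemma xi_le {a b : ℤ} (h : |b| ≤ |a|) (h0 : ¬ (a = 0 ∧ b = 0)) : xi (a - 1) b ≤ xi a b := by
  have := xi_sub a b
  have := sdx_nonpos h h0
  linarith

lemma xi_lt {a b : ℤ} (h : |b| < |a|) : xi (a - 1) b < xi a b := by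
  have := xi_sub a b
  have := sdx_lt h
  linarith

lemma xi_ge {a b : ℤ} (h : |a| ≤ |b|) : xi a b ≤ xi (a - 1) b := by
  have := xi_sub a b
  have := sdx_nonneg h
  linarith

lemma xi_gt {a b : ℤ} (h : |a| < |b|) : xi a b < xi (a - 1) b := by
  have := xi_sub a b
  have := sdx_gt h
  linarith

lemma eta_eq (a b : ℤ) : eta a b = xi b a := by
  unfold eta xi
  rw [A_symm (b + 1) a, A_symm b a]

/-- Reflection. -/
lemma xi_refl (a b : ℤ) : xi (-1 - a) b = -xi a b := by
  unfold xi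
  rw [show (-1 - a : ℤ) = -(a + 1) by ring, show (-(a + 1) + 1 : ℤ) = -a by ring, A_neg, A_neg]
  ring

lemma xi_refl' (a b : ℤ) : xi a (-b) = xi a b := by
  unfold xi
  rw [A_neg', A_neg']

/-- Generic points. -/
def Gen : Set (ℝ × ℝ) :=
  {z | (z.1 ≠ 0 ∧ ∀ a b : ℤ, z.1 ≠ xi a b) ∧ (z.2 ≠ 0 ∧ ∀ a b : ℤ, z.2 ≠ xi a b)}

lemma xi_mem (a b : ℤ) : xi a b ∈ Icc (-(1 / 4) : ℝ) (1 / 4) := by
  have := abs_le.1 (grad_one a b)
  unfold xi
  constructor <;> linarith [this.1, this.2]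

lemma eta_mem (a b : ℤ) : eta a b ∈ Icc (-(1 / 4) : ℝ) (1 / 4) := by
  have := abs_le.1 (grad_one' a b)
  unfold eta
  constructor <;> linarith [this.1, this.2]

/-- The eight kinds of triangles. -/
inductive Kind
  | nl | nh | sl | sh | fl | fh | gl | gh

/-- The triangles. -/
def tri : Kind → ℤ → ℤ → Set (ℝ × ℝ)
  | .nl, a, b => {z | ¬ (a = 0 ∧ b = 0) ∧ xi (a - 1) b < z.1 ∧ z.1 < xi a b ∧ eta a b < z.2 ∧
      z.2 < eta a (b - 1) ∧ z.2 - eta a b < z.1 - xi (a - 1) b}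
  | .nh, a, b => {z | ¬ (a = 0 ∧ b = 0) ∧ xi (a - 1) b < z.1 ∧ z.1 < xi a b ∧ eta a b < z.2 ∧
      z.2 < eta a (b - 1) ∧ z.1 - xi (a - 1) b < z.2 - eta a b}
  | .sl, a, b => {z | ¬ (a = 0 ∧ b = 0) ∧ xi a b < z.1 ∧ z.1 < xi (a - 1) b ∧ eta a (b - 1) < z.2 ∧
      z.2 < eta a b ∧ z.1 + z.2 < xi a b + eta a b}
  | .sh, a, b => {z | ¬ (a = 0 ∧ b = 0) ∧ xi a b < z.1 ∧ z.1 < xi (a - 1) b ∧ eta a (b - 1) < z.2 ∧
      z.2 < eta a b ∧ xi a b + eta a b < z.1 + z.2}
  | .fl, a, b => {z | xi a b < z.1 ∧ z.1 < xi a (b + 1) ∧ eta a b < z.2 ∧ z.2 < eta (a + 1) b ∧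
      z.1 + z.2 < xi a (b + 1) + eta a b}
  | .fh, a, b => {z | xi a b < z.1 ∧ z.1 < xi a (b + 1) ∧ eta a b < z.2 ∧ z.2 < eta (a + 1) b ∧
      xi a (b + 1) + eta a b < z.1 + z.2}
  | .gl, a, b => {z | xi a (b + 1) < z.1 ∧ z.1 < xi a b ∧ eta (a + 1) b < z.2 ∧ z.2 < eta a b ∧
      z.2 - eta a b < z.1 - xi a b}
  | .gh, a, b => {z | xi a (b + 1) < z.1 ∧ z.1 < xi a b ∧ eta (a + 1) b < z.2 ∧ z.2 < eta a b ∧
      z.1 - xi a b < z.2 - eta a b}

/-- The labels. -/
def labOf : Kind → ℤ → ℤ → ℤ × ℤ × ℕ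
  | .nl, a, b => (a, b, 0)
  | .nh, a, b => (a - 1, b - 1, 2)
  | .sl, a, b => (a, b - 1, 1)
  | .sh, a, b => (a - 1, b, 3)
  | .fl, a, b => (a, b, 0)
  | .fh, a, b => (a, b, 2)
  | .gl, a, b => (a, b, 3)
  | .gh, a, b => (a, b, 1)

lemma no_nl_fl {a b : ℤ} {z : ℝ × ℝ} (h : z ∈ tri .nl a b) (h' : z ∈ tri .fl a b) : False := by
  obtain ⟨-, -, h1, -⟩ := h
  obtain ⟨h2, -⟩ := h'
  linarith

lemma no_nh_fh {a b : ℤ} {z : ℝ × ℝ} (h : z ∈ tri .nh a b) (h' : z ∈ tri .fh (a - 1) (b - 1)) :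
    False := by
  obtain ⟨-, h1, -⟩ := h
  obtain ⟨-, h2, -⟩ := h'
  rw [sub_add_cancel] at h2
  linarith

lemma no_sl_gh {a b : ℤ} {z : ℝ × ℝ} (h : z ∈ tri .sl a b) (h' : z ∈ tri .gh a (b - 1)) :
    False := by
  obtain ⟨-, -, -, h1, -⟩ := h
  obtain ⟨-, -, -, h2, -⟩ := h'
  linarith

lemma no_sh_gl {a b : ℤ} {z : ℝ × ℝ} (h : z ∈ tri .sh a b) (h' : z ∈ tri .gl (a - 1) b) :
    False := by
  obtain ⟨-, -, -, -, h1, -⟩ := h
  obtain ⟨-, -, h2, -⟩ := h'
  rw [sub_add_cancel] at h2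
  linarith

lemma tri_cast {k : Kind} {a b a' b' : ℤ} {z : ℝ × ℝ} (h : z ∈ tri k a b) (ha : a = a')
    (hb : b = b') : z ∈ tri k a' b' := by
  subst ha hb
  exact h

/-- Two triangles with the same label and a common point are equal. -/
lemma tri_unique {k k' : Kind} {a b a' b' : ℤ} {z : ℝ × ℝ} (h : z ∈ tri k a b)
    (h' : z ∈ tri k' a' b') (hl : labOf k a b = labOf k' a' b') : k = k' ∧ a = a' ∧ b = b' := by
  cases k <;> cases k' <;> simp only [labOf, Prod.mk.injEq] at hl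
  all_goals first
    | exact ⟨rfl, by omega, by omega⟩
    | (exfalso; omega)
    | exact (no_nl_fl h (tri_cast h' (by omega) (by omega))).elim
    | exact (no_nl_fl h' (tri_cast h (by omega) (by omega))).elim
    | exact (no_nh_fh h (tri_cast h' (by omega) (by omega))).elim
    | exact (no_nh_fh h' (tri_cast h (by omega) (by omega))).elim
    | exact (no_sl_gh h (tri_cast h' (by omega) (by omega))).elim
    | exact (no_sl_gh h' (tri_cast h (by omega) (by omega))).elim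
    | exact (no_sh_gl h (tri_cast h' (by omega) (by omega))).elim
    | exact (no_sh_gl h' (tri_cast h (by omega) (by omega))).elim

/-- The convergence of the labels at the generic points of every triangle. -/
def LimitTiles (lab : ℕ → ℤ → ℤ → ℤ × ℤ × ℕ) : Prop :=
  ∀ (k : Kind) (a b : ℤ), ∀ z ∈ tri k a b, z ∈ Gen →
    ∀ᶠ n : ℕ in atTop, lab n ⌊(n : ℝ) * z.1⌋ ⌊(n : ℝ) * z.2⌋ = labOf k a b

lemma LimitTiles.disj {lab : ℕ → ℤ → ℤ → ℤ × ℤ × ℕ} (h : LimitTiles lab) {k k' : Kind}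
    {a b a' b' : ℤ} {z : ℝ × ℝ} (hg : z ∈ Gen) (hz : z ∈ tri k a b) (hz' : z ∈ tri k' a' b') :
    k = k' ∧ a = a' ∧ b = b' := by
  obtain ⟨n, h1, h2⟩ := ((h k a b z hz hg).and (h k' a' b' z hz' hg)).exists
  exact tri_unique hz hz' (h1.symm.trans h2)

/-! ### The squares -/

/-- Index set of the squares. -/
inductive Idx
  | S (a b : ℤ)
  | F (a b : ℤ)
  deriving DecidableEq

/-- Open rectangle with given opposite corners. -/
def rect (x x' y y' : ℝ) : Set (ℝ × ℝ) := Ioo (min x x') (max x x') ×ˢ Ioo (min y y') (max y y')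

lemma volume_rect (x x' y y' : ℝ) : volume (rect x x' y y') = ENNReal.ofReal (|x - x'| * |y - y'|) := by
  unfold rect
  rw [Measure.volume_eq_prod, Measure.prod_prod, Real.volume_Ioo, Real.volume_Ioo,
    max_sub_min_eq_abs', max_sub_min_eq_abs', ENNReal.ofReal_mul (abs_nonneg _)]

lemma measurable_rect (x x' y y' : ℝ) : MeasurableSet (rect x x' y y') :=
  measurableSet_Ioo.prod measurableSet_Ioo

/-- The squares. -/
def sq : Idx → Set (ℝ × ℝ)
  | .S a b => if a = 0 ∧ b = 0 then ∅ else rect (xi a b) (xi (a - 1) b) (eta a (b - 1)) (eta a b)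
  | .F a b => rect (xi a (b + 1)) (xi a b) (eta (a + 1) b) (eta a b)

/-- The area of a square (times 16). -/
def ar : Idx → ℝ
  | .S a b => if a = 0 ∧ b = 0 then 0 else sdx a b ^ 2
  | .F a b => D a b ^ 2

lemma volume_sq (i : Idx) : volume (sq i) = ENNReal.ofReal (ar i / 16) := by
  cases i with
  | S a b =>
    unfold sq ar
    simp only
    split_ifs with h
    · simp
    · rw [volume_rect, xi_sub, eta_sub h]
      congr 1
      rw [← abs_mul, abs_of_nonneg (mul_self_nonneg _)]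
      ring
  | F a b =>
    unfold sq ar
    simp only
    rw [volume_rect, xi_up, eta_up]
    congr 1
    rw [← abs_mul, abs_of_nonneg (mul_self_nonneg _)]
    ring

lemma measurable_sq (i : Idx) : MeasurableSet (sq i) := by
  cases i with
  | S a b =>
    unfold sq
    simp only
    split_ifs with h
    · exact MeasurableSet.empty
    · exact measurable_rect _ _ _ _
  | F a b => exact measurable_rect _ _ _ _

/-- The big square. -/
def Big : Set (ℝ × ℝ) := Icc (-(1 / 4) : ℝ) (1 / 4) ×ˢ Icc (-(1 / 4) : ℝ) (1 / 4)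

lemma volume_Big : volume Big = ENNReal.ofReal (1 / 4) := by
  unfold Big
  rw [Measure.volume_eq_prod, Measure.prod_prod, Real.volume_Icc, ← ENNReal.ofReal_mul (by norm_num)]
  norm_num

lemma rect_subset {x x' y y' : ℝ} (hx : x ∈ Icc (-(1 / 4) : ℝ) (1 / 4))
    (hx' : x' ∈ Icc (-(1 / 4) : ℝ) (1 / 4)) (hy : y ∈ Icc (-(1 / 4) : ℝ) (1 / 4))
    (hy' : y' ∈ Icc (-(1 / 4) : ℝ) (1 / 4)) : rect x x' y y' ⊆ Big := by
  intro z hz
  unfold rect at hz
  obtain ⟨⟨h1, h2⟩, h3, h4⟩ := hz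
  refine ⟨⟨?_, ?_⟩, ?_, ?_⟩
  · exact (le_min hx.1 hx'.1).trans h1.le
  · exact h2.le.trans (max_le hx.2 hx'.2)
  · exact (le_min hy.1 hy'.1).trans h3.le
  · exact h4.le.trans (max_le hy.2 hy'.2)

lemma sq_subset (i : Idx) : sq i ⊆ Big := by
  cases i with
  | S a b =>
    unfold sq
    simp only
    split_ifs with h
    · exact empty_subset _
    · exact rect_subset (xi_mem _ _) (xi_mem _ _) (eta_mem _ _) (eta_mem _ _)
  | F a b => exact rect_subset (xi_mem _ _) (xi_mem _ _) (eta_mem _ _) (eta_mem _ _)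

/-- The union of the lines carrying the diagonals. -/
def diag : Set (ℝ × ℝ) :=
  ⋃ (p : ℤ × ℤ), ({z : ℝ × ℝ | z.2 = z.1 + (eta p.1 p.2 - xi (p.1 - 1) p.2)} ∪
    {z : ℝ × ℝ | z.2 = -z.1 + (xi p.1 p.2 + eta p.1 p.2)} ∪
    {z : ℝ × ℝ | z.2 = -z.1 + (xi p.1 (p.2 + 1) + eta p.1 p.2)} ∪
    {z : ℝ × ℝ | z.2 = z.1 + (eta p.1 p.2 - xi p.1 p.2)})

lemma line_null {f : ℝ → ℝ} (hf : Measurable f) : volume {z : ℝ × ℝ | z.2 = f z.1} = 0 := by
  have hm : MeasurableSet {z : ℝ × ℝ | z.2 = f z.1} :=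
    measurableSet_eq_fun measurable_snd (hf.comp measurable_fst)
  rw [Measure.volume_eq_prod, Measure.measure_prod_null hm]
  refine Eventually.of_forall fun x => ?_
  have : Prod.mk x ⁻¹' {z : ℝ × ℝ | z.2 = f z.1} = {f x} := by
    ext y
    simp
  change volume (Prod.mk x ⁻¹' {z : ℝ × ℝ | z.2 = f z.1}) = 0
  rw [this]
  simp

lemma diag_null : volume diag = 0 := by
  unfold diag
  rw [measure_iUnion_null_iff]
  intro p
  refine measure_union_null (measure_union_null (measure_union_null ?_ ?_) ?_) ?_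
  · exact line_null (f := fun x => x + (eta p.1 p.2 - xi (p.1 - 1) p.2)) (by fun_prop)
  · exact line_null (f := fun x => -x + (xi p.1 p.2 + eta p.1 p.2)) (by fun_prop)
  · exact line_null (f := fun x => -x + (xi p.1 (p.2 + 1) + eta p.1 p.2)) (by fun_prop)
  · exact line_null (f := fun x => x + (eta p.1 p.2 - xi p.1 p.2)) (by fun_prop)

lemma ver_null (c : ℝ) : volume {z : ℝ × ℝ | z.1 = c} = 0 := by
  have : {z : ℝ × ℝ | z.1 = c} = {c} ×ˢ univ := by
    ext z
    simp
  rw [this, Measure.volume_eq_prod, Measure.prod_prod]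
  simp

lemma gen_null : volume Genᶜ = 0 := by
  have hsub : Genᶜ ⊆ ({z : ℝ × ℝ | z.1 = 0} ∪ ⋃ p : ℤ × ℤ, {z : ℝ × ℝ | z.1 = xi p.1 p.2}) ∪
      ({z : ℝ × ℝ | z.2 = 0} ∪ ⋃ p : ℤ × ℤ, {z : ℝ × ℝ | z.2 = xi p.1 p.2}) := by
    intro z hz
    by_contra hc
    apply hz
    simp only [mem_union, mem_iUnion, mem_ofPred_eq, not_or, not_exists, Prod.forall] at hc
    exact ⟨⟨hc.1.1, fun a b => hc.1.2 a b⟩, ⟨hc.2.1, fun a b => hc.2.2 a b⟩⟩
  refine measure_mono_null hsub ?_
  refine measure_union_null (measure_union_null (ver_null 0) ?_) (measure_union_null ?_ ?_)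
  · rw [measure_iUnion_null_iff]
    exact fun p => ver_null _
  · exact line_null (f := fun _ => 0) (by fun_prop)
  · rw [measure_iUnion_null_iff]
    exact fun p => line_null (f := fun _ => xi p.1 p.2) (by fun_prop)

/-- The index of the square of a triangle. -/
def par : Kind → ℤ → ℤ → Idx
  | .nl, a, b => .S a b
  | .nh, a, b => .S a b
  | .sl, a, b => .S a b
  | .sh, a, b => .S a b
  | .fl, a, b => .F a b
  | .fh, a, b => .F a b
  | .gl, a, b => .F a b
  | .gh, a, b => .F a b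

lemma mem_rect {x x' y y' : ℝ} {z : ℝ × ℝ} (hz : z ∈ rect x x' y y') :
    ((x < z.1 ∧ z.1 < x') ∨ (x' < z.1 ∧ z.1 < x)) ∧ ((y < z.2 ∧ z.2 < y') ∨ (y' < z.2 ∧ z.2 < y)) := by
  unfold rect at hz
  obtain ⟨⟨h1, h2⟩, h3, h4⟩ := hz
  rw [min_lt_iff] at h1 h3
  rw [lt_max_iff] at h2 h4
  constructor
  · rcases h1 with h1 | h1 <;> rcases h2 with h2 | h2
    · exact absurd (h1.trans h2) (lt_irrefl _)
    · exact Or.inl ⟨h1, h2⟩
    · exact Or.inr ⟨h1, h2⟩
    · exact absurd (h1.trans h2) (lt_irrefl _)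
  · rcases h3 with h3 | h3 <;> rcases h4 with h4 | h4
    · exact absurd (h3.trans h4) (lt_irrefl _)
    · exact Or.inl ⟨h3, h4⟩
    · exact Or.inr ⟨h3, h4⟩
    · exact absurd (h3.trans h4) (lt_irrefl _)

/-- Every point of a square off the diagonals lies in a triangle of this square. -/
lemma exists_tri {i : Idx} {z : ℝ × ℝ} (hz : z ∈ sq i) (hd : z ∉ diag) :
    ∃ k a b, z ∈ tri k a b ∧ par k a b = i := by
  have hd' : ∀ p : ℤ × ℤ, ¬ (z.2 = z.1 + (eta p.1 p.2 - xi (p.1 - 1) p.2)) ∧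
    ¬ (z.2 = -z.1 + (xi p.1 p.2 + eta p.1 p.2)) ∧
    ¬ (z.2 = -z.1 + (xi p.1 (p.2 + 1) + eta p.1 p.2)) ∧
    ¬ (z.2 = z.1 + (eta p.1 p.2 - xi p.1 p.2)) := by
    intro p
    unfold diag at hd
    simp only [mem_iUnion, mem_union, mem_ofPred_eq, not_exists, not_or] at hd
    have := hd p
    tauto
  cases i with
  | S a b =>
    obtain ⟨d1, d2, -, -⟩ := hd' (a, b)
    simp only at d1 d2
    unfold sq at hz
    simp only at hz
    split_ifs at hz with h
    · exact absurd hz (notMem_empty _)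
    · have h1 := xi_sub a b
      have h2 := eta_sub h
      obtain ⟨hx, hy⟩ := mem_rect hz
      rcases lt_trichotomy (sdx a b) 0 with hs | hs | hs
      · have hx' : xi (a - 1) b < z.1 ∧ z.1 < xi a b := by
          rcases hx with hx | hx
          · exfalso; linarith [hx.1, hx.2]
          · exact hx
        have hy' : eta a b < z.2 ∧ z.2 < eta a (b - 1) := by
          rcases hy with hy | hy
          · exfalso; linarith [hy.1, hy.2]
          · exact hy
        rcases lt_trichotomy (z.2 - eta a b) (z.1 - xi (a - 1) b) with ht | ht | ht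
        · exact ⟨.nl, a, b, ⟨h, hx'.1, hx'.2, hy'.1, hy'.2, ht⟩, rfl⟩
        · exact absurd (by linarith) d1
        · exact ⟨.nh, a, b, ⟨h, hx'.1, hx'.2, hy'.1, hy'.2, ht⟩, rfl⟩
      · exfalso
        rcases hx with hx | hx <;> linarith [hx.1, hx.2]
      · have hx' : xi a b < z.1 ∧ z.1 < xi (a - 1) b := by
          rcases hx with hx | hx
          · exact hx
          · exfalso; linarith [hx.1, hx.2]
        have hy' : eta a (b - 1) < z.2 ∧ z.2 < eta a b := by
          rcases hy with hy | hy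
          · exact hy
          · exfalso; linarith [hy.1, hy.2]
        rcases lt_trichotomy (z.1 + z.2) (xi a b + eta a b) with ht | ht | ht
        · exact ⟨.sl, a, b, ⟨h, hx'.1, hx'.2, hy'.1, hy'.2, ht⟩, rfl⟩
        · exact absurd (by linarith) d2
        · exact ⟨.sh, a, b, ⟨h, hx'.1, hx'.2, hy'.1, hy'.2, ht⟩, rfl⟩
  | F a b =>
    obtain ⟨-, -, d3, d4⟩ := hd' (a, b)
    simp only at d3 d4
    have hz' : z ∈ rect (xi a (b + 1)) (xi a b) (eta (a + 1) b) (eta a b) := hz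
    have h1 := xi_up a b
    have h2 := eta_up a b
    obtain ⟨hx, hy⟩ := mem_rect hz'
    rcases lt_trichotomy (D a b) 0 with hs | hs | hs
    · have hx' : xi a b < z.1 ∧ z.1 < xi a (b + 1) := by
        rcases hx with hx | hx
        · exfalso; linarith [hx.1, hx.2]
        · exact hx
      have hy' : eta a b < z.2 ∧ z.2 < eta (a + 1) b := by
        rcases hy with hy | hy
        · exfalso; linarith [hy.1, hy.2]
        · exact hy
      rcases lt_trichotomy (z.1 + z.2) (xi a (b + 1) + eta a b) with ht | ht | ht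
      · exact ⟨.fl, a, b, ⟨hx'.1, hx'.2, hy'.1, hy'.2, ht⟩, rfl⟩
      · exact absurd (by linarith) d3
      · exact ⟨.fh, a, b, ⟨hx'.1, hx'.2, hy'.1, hy'.2, ht⟩, rfl⟩
    · exact absurd hs (D_ne_zero a b)
    · have hx' : xi a (b + 1) < z.1 ∧ z.1 < xi a b := by
        rcases hx with hx | hx
        · exact hx
        · exfalso; linarith [hx.1, hx.2]
      have hy' : eta (a + 1) b < z.2 ∧ z.2 < eta a b := by
        rcases hy with hy | hy
        · exact hy
        · exfalso; linarith [hy.1, hy.2]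
      rcases lt_trichotomy (z.2 - eta a b) (z.1 - xi a b) with ht | ht | ht
      · exact ⟨.gl, a, b, ⟨hx'.1, hx'.2, hy'.1, hy'.2, ht⟩, rfl⟩
      · exact absurd (by linarith) d4
      · exact ⟨.gh, a, b, ⟨hx'.1, hx'.2, hy'.1, hy'.2, ht⟩, rfl⟩

/-- Different squares are disjoint up to the diagonals. -/
lemma LimitTiles.aedisjoint {lab : ℕ → ℤ → ℤ → ℤ × ℤ × ℕ} (h : LimitTiles lab) {i j : Idx}
    (hij : i ≠ j) : AEDisjoint volume (sq i) (sq j) := by
  refine measure_mono_null ?_ (measure_union_null diag_null gen_null)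
  rintro z ⟨h1, h2⟩
  by_contra hd'
  rw [mem_union, not_or, mem_compl_iff, not_not] at hd'
  obtain ⟨hd, hg⟩ := hd'
  obtain ⟨k, a, b, hz, hk⟩ := exists_tri h1 hd
  obtain ⟨k', a', b', hz', hk'⟩ := exists_tri h2 hd
  obtain ⟨rfl, rfl, rfl⟩ := h.disj hg hz hz'
  exact hij (hk.symm.trans hk')

/-- The finite family of squares. -/
def fam (K : ℕ) : Finset Idx :=
  ((Box K).erase (0, 0)).image (fun p => Idx.S p.1 p.2) ∪ (Box K).image (fun p => Idx.F p.1 p.2)

lemma sum_fam (K : ℕ) : ∑ i ∈ fam K, ar i =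
    ∑ p ∈ (Box K).erase (0, 0), sdx p.1 p.2 ^ 2 + ∑ p ∈ Box K, D p.1 p.2 ^ 2 := by
  unfold fam
  rw [Finset.sum_union, Finset.sum_image, Finset.sum_image]
  · congr 1
    refine Finset.sum_congr rfl fun p hp => ?_
    rw [Finset.mem_erase] at hp
    unfold ar
    simp only
    rw [if_neg (fun h => hp.1 (Prod.ext h.1 h.2))]
  · intro p _ q _ h
    simp only [Idx.F.injEq] at h
    exact Prod.ext h.1 h.2
  · intro p _ q _ h
    simp only [Idx.S.injEq] at h
    exact Prod.ext h.1 h.2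
  · rw [Finset.disjoint_left]
    intro i hi hj
    rw [Finset.mem_image] at hi hj
    obtain ⟨p, -, rfl⟩ := hi
    obtain ⟨q, -, h⟩ := hj
    exact Idx.noConfusion h

lemma ar_nonneg (i : Idx) : 0 ≤ ar i := by
  cases i with
  | S a b =>
    unfold ar
    simp only
    split_ifs
    · exact le_rfl
    · positivity
  | F a b => exact sq_nonneg _

/-- The union of all squares. -/
def U : Set (ℝ × ℝ) := ⋃ i : Idx, sq i

lemma LimitTiles.cover_aux {lab : ℕ → ℤ → ℤ → ℤ × ℤ × ℕ} (h : LimitTiles lab) {K : ℕ}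
    (hK : 1 ≤ K) : volume (Big \ U) ≤ ENNReal.ofReal (384 / K) := by
  set V : Set (ℝ × ℝ) := ⋃ i ∈ fam K, sq i with hV
  have hVU : V ⊆ U := by
    intro z hz
    rw [hV, mem_iUnion₂] at hz
    obtain ⟨i, -, hi⟩ := hz
    exact mem_iUnion.2 ⟨i, hi⟩
  have hVB : V ⊆ Big := by
    intro z hz
    rw [hV, mem_iUnion₂] at hz
    obtain ⟨i, -, hi⟩ := hz
    exact sq_subset i hi
  have hVm : MeasurableSet V := Finset.measurableSet_biUnion _ fun i _ => measurable_sq i
  have hvol : volume V = ENNReal.ofReal ((∑ i ∈ fam K, ar i) / 16) := by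
    rw [hV, measure_biUnion_finset₀ (fun i _ j _ hij => h.aedisjoint hij)
      (fun i _ => (measurable_sq i).nullMeasurableSet)]
    rw [Finset.sum_congr rfl fun i _ => volume_sq i, ← ENNReal.ofReal_sum_of_nonneg]
    · rw [Finset.sum_div]
    · intro i _
      have := ar_nonneg i
      positivity
  have hnn : 0 ≤ (∑ i ∈ fam K, ar i) / 16 := by
    have := Finset.sum_nonneg fun i (_ : i ∈ fam K) => ar_nonneg i
    positivity
  calc volume (Big \ U) ≤ volume (Big \ V) := measure_mono (sdiff_subset_sdiff_right hVU)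
    _ = volume Big - volume V := measure_sdiff hVB hVm.nullMeasurableSet (by
        rw [hvol]; exact ENNReal.ofReal_ne_top)
    _ = ENNReal.ofReal (1 / 4 - (∑ i ∈ fam K, ar i) / 16) := by
        rw [volume_Big, hvol, ← ENNReal.ofReal_sub _ hnn]
    _ ≤ ENNReal.ofReal (384 / K) := by
        apply ENNReal.ofReal_le_ofReal
        have h1 := (abs_le.1 (area hK)).1
        rw [← sum_fam] at h1
        have h2 : (384 : ℝ) / K = (6144 / K) / 16 := by ring
        rw [h2]
        linarith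

/-- **The squares cover almost every point of the big square.** -/
theorem LimitTiles.cover {lab : ℕ → ℤ → ℤ → ℤ × ℤ × ℕ} (h : LimitTiles lab) :
    volume (Big \ U) = 0 := by
  refine le_antisymm ?_ (zero_le)
  have h1 : Tendsto (fun K : ℕ => ENNReal.ofReal (384 / K)) atTop (𝓝 (ENNReal.ofReal 0)) := by
    apply ENNReal.tendsto_ofReal
    exact tendsto_const_div_atTop_nhds_zero_nat 384
  rw [ENNReal.ofReal_zero] at h1
  refine ge_of_tendsto h1 ?_
  filter_upwards [eventually_ge_atTop 1] with K hK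
  exact h.cover_aux hK

/-- **Almost everywhere convergence inside the square.** -/
theorem LimitTiles.ae {lab : ℕ → ℤ → ℤ → ℤ × ℤ × ℕ} (h : LimitTiles lab) :
    ∀ᵐ z : ℝ × ℝ, z ∈ Big → z ∈ Gen ∧ ∃ k a b, z ∈ tri k a b := by
  have h1 : ∀ᵐ z : ℝ × ℝ, z ∉ Big \ U := measure_eq_zero_iff_ae_notMem.1 h.cover
  have h2 : ∀ᵐ z : ℝ × ℝ, z ∉ diag := measure_eq_zero_iff_ae_notMem.1 diag_null
  have h3 : ∀ᵐ z : ℝ × ℝ, z ∉ Genᶜ := measure_eq_zero_iff_ae_notMem.1 gen_null
  filter_upwards [h1, h2, h3] with z hz hd hg hB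
  have hU : z ∈ U := by
    by_contra hc
    exact hz ⟨hB, hc⟩
  obtain ⟨i, hi⟩ := mem_iUnion.1 hU
  obtain ⟨k, a, b, hz', -⟩ := exists_tri hi hd
  exact ⟨not_not.1 hg, k, a, b, hz'⟩

end RotorNE
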