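import Mathlib.Tactic
import Mathlib.Data.Nat.Nth
import Mathlib.Data.Int.Interval
import Mathlib.Data.Int.ConditionallyCompleteOrder
import Mathlib.Data.Int.Star
import Mathlib.Algebra.Order.Star.Real
import Mathlib.Analysis.SpecialFunctions.Integrals.Basic
import Mathlib.Analysis.Fourier.RiemannLebesgueLemma
import Mathlib.Analysis.SpecificLimits.Basic
import Mathlib.Analysis.Asymptotics.SpecificAsymptotics
import Mathlib.MeasureTheory.Integral.Prod
import Mathlib.MeasureTheory.Measure.Lebesgue.Basic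
import Pool.Agent.Lib.MP_936783_pr.Cover

/-!
# Convergence of the contacts

`TData R C a r T Xi Xo Yi Yo`: the integer relations between the values `T p q` of the tilted
odometer at the contacts of slope `(p, q)`, and the coordinates of their ends: `Xi`, `Xo` (abscissa
of the ends on the boundary of `{v ≥ q}`), `Yi`, `Yo` (ordinate of the ends on the boundary of
`{h ≥ p}`). From these relations, `T / n` converges to the potential kernel, and all positions
converge.
-/

open Filter Topology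

noncomputable section

namespace RotorNE

open Kernel

/-- The relations between contacts. -/
structure TData (R C a r : ℤ) (T Xi Xo Yi Yo : ℤ → ℤ → ℤ) : Prop where
  tx : ∀ p q, |p| ≤ R → |q| ≤ R → ¬ (p = 0 ∧ q = 0) → |T (p + 1) q - T p q + 4 * Xo p q| ≤ C
  ty : ∀ p q, |p| ≤ R → |q| ≤ R → |T p (q + 1) - T p q + 4 * Yi p q| ≤ C
  lx : ∀ p q, |p| ≤ R → |q| ≤ R → ¬ (p = 0 ∧ q = 0) → |Xo p q - Xi (p + 1) q| ≤ C
  ly : ∀ p q, |p| ≤ R → |q| ≤ R → |Yo p (q + 1) - Yi p q| ≤ C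
  cr : ∀ p q, |p| ≤ R → |q| ≤ R → |(Xo p q - Xi p q) - (Yo p q - Yi p q)| ≤ C
  t0 : |T 0 0| ≤ C
  xo0 : |Xo 0 0 - r| ≤ C
  xi1 : |Xi 1 0 + a| ≤ C
  t1 : |T 1 0 - 4 * a| ≤ C
  bx : ∀ p q, |p| ≤ R → |q| ≤ R → |Xo p q| ≤ 2 * (a + r) + C
  by' : ∀ p q, |p| ≤ R → |q| ≤ R → |Yi p q| ≤ 2 * (a + r) + C
  na : 0 ≤ a
  nr : 0 ≤ r
  u1 : Xi 0 0 ≤ a + C
  u2 : -Yi 0 0 ≤ a + C
  u3 : Yo 0 0 ≤ a + C

/-- A bounded integer sequence is `o(n)`. -/
lemma small_of_le {e : ℕ → ℤ} {C : ℤ} (h : ∀ᶠ n in atTop, |e n| ≤ C) :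
    Tendsto (fun n => (e n : ℝ) / n) atTop (𝓝 0) := by
  have h1 : Tendsto (fun n : ℕ => (C : ℝ) / n) atTop (𝓝 0) :=
    tendsto_const_div_atTop_nhds_zero_nat (C : ℝ)
  refine squeeze_zero_norm' ?_ h1
  filter_upwards [h] with n hn
  rw [norm_div, Real.norm_natCast, Real.norm_eq_abs]
  apply div_le_div_of_nonneg_right _ (Nat.cast_nonneg n)
  have : |(e n : ℝ)| = ((|e n| : ℤ) : ℝ) := by push_cast; rfl
  rw [this]
  exact_mod_cast hn

/-- If `f - g` is bounded then `f / n` and `g / n` have the same limit. -/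
lemma tendsto_of_le {f g : ℕ → ℤ} {C : ℤ} {l : ℝ} (h : ∀ᶠ n in atTop, |f n - g n| ≤ C)
    (hg : Tendsto (fun n => (g n : ℝ) / n) atTop (𝓝 l)) :
    Tendsto (fun n => (f n : ℝ) / n) atTop (𝓝 l) := by
  have h1 := hg.add (small_of_le h)
  rw [add_zero] at h1
  refine h1.congr fun n => ?_
  push_cast
  ring

section

variable {T Xi Xo Yi Yo : ℕ → ℤ → ℤ → ℤ} {a r : ℕ → ℤ}

/-- The hypotheses for all `R`. -/
def Sys (T Xi Xo Yi Yo : ℕ → ℤ → ℤ → ℤ) (a r : ℕ → ℤ) : Prop :=
  ∀ R : ℤ, ∃ C : ℤ, ∀ᶠ n in atTop, TData R C (a n) (r n) (T n) (Xi n) (Xo n) (Yi n) (Yo n)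

lemma abs_le_of_add {x y : ℤ} : |x| ≤ |x| + |y| ∧ |y| ≤ |x| + |y| :=
  ⟨by have := abs_nonneg y; omega, by have := abs_nonneg x; omega⟩

/-- For each slope there is a constant. -/
lemma Sys.get (h : Sys T Xi Xo Yi Yo a r) (p q : ℤ) : ∃ R C : ℤ, |p| + 1 ≤ R ∧ |q| + 1 ≤ R ∧ 0 ≤ C ∧
    ∀ᶠ n in atTop, TData R C (a n) (r n) (T n) (Xi n) (Xo n) (Yi n) (Yo n) := by
  obtain ⟨C, hC⟩ := h (|p| + |q| + 1)
  obtain ⟨h1, h2⟩ := abs_le_of_add (x := p) (y := q)
  refine ⟨|p| + |q| + 1, C, by omega, by omega, ?_, hC⟩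
  obtain ⟨n, hn⟩ := hC.exists
  exact (abs_nonneg _).trans hn.t0

theorem Sys.conv (h : Sys T Xi Xo Yi Yo a r)
    (ha : Tendsto (fun n => (a n : ℝ) / n) atTop (𝓝 (1 / 4)))
    (hr : Tendsto (fun n => (r n : ℝ) / n) atTop (𝓝 (3 / 4))) (x y : ℤ) :
    Tendsto (fun n => (T n x y : ℝ) / n) atTop (𝓝 (A x y)) := by
  -- the three values next to the origin
  obtain ⟨R, C, hR1, hR2, hC0, hC⟩ := h.get 1 1
  have hT1 : Tendsto (fun n => (T n 1 0 : ℝ) / n) atTop (𝓝 1) := by
    refine tendsto_of_le (g := fun n => 4 * a n) (C := C) ?_ ?_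
    · filter_upwards [hC] with n hn
      exact hn.t1
    · have := ha.const_mul 4
      norm_num at this
      refine this.congr fun n => ?_
      push_cast
      ring
  have a1 : |(1 : ℤ)| = 1 := rfl
  have a2 : |(-1 : ℤ)| = 1 := rfl
  have a0 : |(0 : ℤ)| = 0 := rfl
  have hlow : ∀ᶠ n in atTop, 4 * r n - 8 * a n - 100 * C ≤ T n (-1) 0 ∧
      T n (-1) 0 ≤ 4 * a n + 100 * C ∧ 4 * r n - 8 * a n - 100 * C ≤ T n 0 1 ∧
      T n 0 1 ≤ 4 * a n + 100 * C := by
    filter_upwards [hC] with n hn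
    have e1 := abs_le.1 (hn.tx (-1) 0 (by omega) (by omega) (by omega))
    have e2 := abs_le.1 (hn.lx (-1) 0 (by omega) (by omega) (by omega))
    have e3 := abs_le.1 (hn.ty 0 0 (by omega) (by omega))
    have e4 := abs_le.1 (hn.ty 0 (-1) (by omega) (by omega))
    have e5 := abs_le.1 (hn.ly 0 (-1) (by omega) (by omega))
    have e6 := abs_le.1 (hn.cr 0 0 (by omega) (by omega))
    have e7 := abs_le.1 hn.t0
    have e8 := abs_le.1 hn.xo0
    have f1 := hn.u1
    have f2 := hn.u2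
    have f3 := hn.u3
    rw [show (-1 + 1 : ℤ) = 0 by ring] at e1 e2 e4 e5
    rw [zero_add] at e3
    refine ⟨?_, ?_, ?_, ?_⟩ <;> linarith [e1.1, e1.2, e2.1, e2.2, e3.1, e3.2, e4.1, e4.2, e5.1, e5.2,
      e6.1, e6.2, e7.1, e7.2, e8.1, e8.2]
  have hC' : Tendsto (fun n : ℕ => (100 * C : ℝ) / n) atTop (𝓝 0) :=
    tendsto_const_div_atTop_nhds_zero_nat _
  have hlo : Tendsto (fun n : ℕ => 4 * ((r n : ℝ) / n) - 8 * ((a n : ℝ) / n) - (100 * C : ℝ) / n)
      atTop (𝓝 1) := by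
    have := ((hr.const_mul 4).sub (ha.const_mul 8)).sub hC'
    norm_num at this
    refine this.congr fun n => ?_
    ring
  have hup : Tendsto (fun n : ℕ => 4 * ((a n : ℝ) / n) + (100 * C : ℝ) / n) atTop (𝓝 1) := by
    have := (ha.const_mul 4).add hC'
    norm_num at this
    refine this.congr fun n => ?_
    ring
  have hsq : ∀ g : ℕ → ℤ, (∀ᶠ n in atTop, 4 * r n - 8 * a n - 100 * C ≤ g n ∧
      g n ≤ 4 * a n + 100 * C) → Tendsto (fun n => (g n : ℝ) / n) atTop (𝓝 1) := by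
    intro g hg
    refine tendsto_of_tendsto_of_tendsto_of_le_of_le' hlo hup ?_ ?_
    · filter_upwards [hg] with n hn
      have h1 : (4 * (r n : ℝ) - 8 * a n - 100 * C) ≤ g n := by exact_mod_cast hn.1
      have e : 4 * ((r n : ℝ) / n) - 8 * ((a n : ℝ) / n) - (100 * C : ℝ) / n =
        (4 * (r n : ℝ) - 8 * a n - 100 * C) / n := by ring
      rw [e]
      exact div_le_div_of_nonneg_right h1 (Nat.cast_nonneg n)
    · filter_upwards [hg] with n hn
      have h1 : (g n : ℝ) ≤ 4 * (a n : ℝ) + 100 * C := by exact_mod_cast hn.2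
      have e : 4 * ((a n : ℝ) / n) + (100 * C : ℝ) / n = (4 * (a n : ℝ) + 100 * C) / n := by ring
      rw [e]
      exact div_le_div_of_nonneg_right h1 (Nat.cast_nonneg n)
  have hT2 : Tendsto (fun n => (T n (-1) 0 : ℝ) / n) atTop (𝓝 1) :=
    hsq _ (hlow.mono fun n hn => ⟨hn.1, hn.2.1⟩)
  have hT3 : Tendsto (fun n => (T n 0 1 : ℝ) / n) atTop (𝓝 1) :=
    hsq _ (hlow.mono fun n hn => ⟨hn.2.2.1, hn.2.2.2⟩)
  have hT0 : Tendsto (fun n => (T n 0 0 : ℝ) / n) atTop (𝓝 0) :=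
    small_of_le (hC.mono fun n hn => hn.t0)
  -- size
  have har : Tendsto (fun n => ((a n : ℝ) + r n) / n) atTop (𝓝 1) := by
    have := ha.add hr
    norm_num at this
    refine this.congr fun n => ?_
    ring
  have hbd : ∀ (g : ℕ → ℤ) (D : ℤ), (∀ᶠ n in atTop, |g n| ≤ 8 * (a n + r n) + D) →
      ∀ᶠ n in atTop, |(g n : ℝ) / n| ≤ 10 := by
    intro g D hg
    have h1 : Tendsto (fun n : ℕ => 8 * (((a n : ℝ) + r n) / n) + (D : ℝ) / n) atTop (𝓝 8) := by
      have := (har.const_mul 8).add (tendsto_const_div_atTop_nhds_zero_nat (D : ℝ))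
      rw [mul_one, add_zero] at this
      exact this
    filter_upwards [hg, h1.eventually_le_const (by norm_num : (8 : ℝ) < 10)] with n h2 h3
    rw [abs_div, Nat.abs_cast]
    refine le_trans ?_ h3
    have h4 : |(g n : ℝ)| ≤ 8 * ((a n : ℝ) + r n) + D := by exact_mod_cast h2
    have e : 8 * (((a n : ℝ) + r n) / n) + (D : ℝ) / n = (8 * ((a n : ℝ) + r n) + D) / n := by ring
    rw [e]
    exact div_le_div_of_nonneg_right h4 (Nat.cast_nonneg n)
  have hmain := tendsto_kernel' (T := fun n x y => (T n x y : ℝ) / n) (c := 1) (K := 10) hT0 ?_ ?_ ?_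
    hT1 hT2 hT3 x y
  · rw [one_mul] at hmain
    exact hmain
  · -- the Laplacian
    intro x y hxy
    obtain ⟨R, C, hR1, hR2, hC0, hC⟩ := h.get x y
    have hx1 : |x - 1| ≤ R := by
      have := abs_sub x 1
      rw [abs_one] at this
      omega
    have hy1 : |y - 1| ≤ R := by
      have := abs_sub y 1
      rw [abs_one] at this
      omega
    have key : ∀ᶠ n in atTop, |T n (x + 1) y + T n (x - 1) y + T n x (y + 1) + T n x (y - 1) -
        4 * T n x y| ≤ 100 * C := by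
      filter_upwards [hC] with n hn
      have e1 := abs_le.1 (hn.tx x y (by omega) (by omega) (by omega))
      have e3 := abs_le.1 (hn.ty x y (by omega) (by omega))
      have e4 := abs_le.1 (hn.ty x (y - 1) (by omega) (by omega))
      have e5 := abs_le.1 (hn.ly x (y - 1) (by omega) (by omega))
      have e6 := abs_le.1 (hn.cr x y (by omega) (by omega))
      rw [sub_add_cancel] at e4 e5
      have e2 : -(20 * C) ≤ T n x y - T n (x - 1) y + 4 * Xi n x y ∧
          T n x y - T n (x - 1) y + 4 * Xi n x y ≤ 20 * C := by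
        by_cases h0 : x - 1 = 0 ∧ y = 0
        · obtain ⟨h1, rfl⟩ := h0
          obtain rfl : x = 1 := by omega
          rw [show (1 - 1 : ℤ) = 0 by ring]
          have g1 := abs_le.1 hn.t0
          have g2 := abs_le.1 hn.t1
          have g3 := abs_le.1 hn.xi1
          constructor <;> linarith [g1.1, g1.2, g2.1, g2.2, g3.1, g3.2]
        · have g1 := abs_le.1 (hn.tx (x - 1) y (by omega) (by omega) h0)
          have g2 := abs_le.1 (hn.lx (x - 1) y (by omega) (by omega) h0)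
          rw [sub_add_cancel] at g1 g2
          constructor <;> linarith [g1.1, g1.2, g2.1, g2.2]
      rw [abs_le]
      constructor <;> linarith [e1.1, e1.2, e2.1, e2.2, e3.1, e3.2, e4.1, e4.2, e5.1, e5.2,
        e6.1, e6.2]
    refine (small_of_le key).congr fun n => ?_
    unfold lap
    push_cast
    ring
  · -- horizontal differences
    intro x y
    obtain ⟨R, C, hR1, hR2, hC0, hC⟩ := h.get x y
    have key : ∀ᶠ n in atTop, |T n (x + 1) y - T n x y| ≤ 8 * (a n + r n) + 20 * C := by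
      filter_upwards [hC] with n hn
      by_cases h0 : x = 0 ∧ y = 0
      · obtain ⟨rfl, rfl⟩ := h0
        rw [zero_add]
        have g1 := abs_le.1 hn.t0
        have g2 := abs_le.1 hn.t1
        have g3 := abs_le.1 hn.xi1
        have g4 := abs_le.1 hn.xo0
        have na := hn.na
        have nr := hn.nr
        rw [abs_le]
        constructor <;> linarith [g1.1, g1.2, g2.1, g2.2, g3.1, g3.2, g4.1, g4.2]
      · have e1 := abs_le.1 (hn.tx x y (by omega) (by omega) h0)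
        have e2 := abs_le.1 (hn.bx x y (by omega) (by omega))
        rw [abs_le]
        constructor <;> linarith [e1.1, e1.2, e2.1, e2.2]
    filter_upwards [hbd _ _ key] with n hn
    rw [← sub_div]
    push_cast at hn
    exact hn
  · -- vertical differences
    intro x y
    obtain ⟨R, C, hR1, hR2, hC0, hC⟩ := h.get x y
    have key : ∀ᶠ n in atTop, |T n x (y + 1) - T n x y| ≤ 8 * (a n + r n) + 20 * C := by
      filter_upwards [hC] with n hn
      have e1 := abs_le.1 (hn.ty x y (by omega) (by omega))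
      have e2 := abs_le.1 (hn.by' x y (by omega) (by omega))
      rw [abs_le]
      constructor <;> linarith [e1.1, e1.2, e2.1, e2.2]
    filter_upwards [hbd _ _ key] with n hn
    rw [← sub_div]
    push_cast at hn
    exact hn

lemma Sys.conv_Xo (h : Sys T Xi Xo Yi Yo a r)
    (ha : Tendsto (fun n => (a n : ℝ) / n) atTop (𝓝 (1 / 4)))
    (hr : Tendsto (fun n => (r n : ℝ) / n) atTop (𝓝 (3 / 4))) {x y : ℤ} (h0 : ¬ (x = 0 ∧ y = 0)) :
    Tendsto (fun n => (Xo n x y : ℝ) / n) atTop (𝓝 (xi x y)) := by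
  obtain ⟨R, C, hR1, hR2, hC0, hC⟩ := h.get x y
  have h1 : Tendsto (fun n => ((T n (x + 1) y - T n x y + 4 * Xo n x y : ℤ) : ℝ) / n) atTop (𝓝 0) :=
    small_of_le (hC.mono fun n hn => hn.tx x y (by omega) (by omega) h0)
  have h2 := ((h1.sub (h.conv ha hr (x + 1) y)).add (h.conv ha hr x y)).div_const 4
  have e : (0 - A (x + 1) y + A x y) / 4 = xi x y := by unfold xi; ring
  rw [e] at h2
  refine h2.congr fun n => ?_
  push_cast
  ring

lemma Sys.conv_Yi (h : Sys T Xi Xo Yi Yo a r)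
    (ha : Tendsto (fun n => (a n : ℝ) / n) atTop (𝓝 (1 / 4)))
    (hr : Tendsto (fun n => (r n : ℝ) / n) atTop (𝓝 (3 / 4))) (x y : ℤ) :
    Tendsto (fun n => (Yi n x y : ℝ) / n) atTop (𝓝 (eta x y)) := by
  obtain ⟨R, C, hR1, hR2, hC0, hC⟩ := h.get x y
  have h1 : Tendsto (fun n => ((T n x (y + 1) - T n x y + 4 * Yi n x y : ℤ) : ℝ) / n) atTop (𝓝 0) :=
    small_of_le (hC.mono fun n hn => hn.ty x y (by omega) (by omega))
  have h2 := ((h1.sub (h.conv ha hr x (y + 1))).add (h.conv ha hr x y)).div_const 4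
  have e : (0 - A x (y + 1) + A x y) / 4 = eta x y := by unfold eta; ring
  rw [e] at h2
  refine h2.congr fun n => ?_
  push_cast
  ring

lemma Sys.conv_Yo (h : Sys T Xi Xo Yi Yo a r)
    (ha : Tendsto (fun n => (a n : ℝ) / n) atTop (𝓝 (1 / 4)))
    (hr : Tendsto (fun n => (r n : ℝ) / n) atTop (𝓝 (3 / 4))) (x y : ℤ) :
    Tendsto (fun n => (Yo n x y : ℝ) / n) atTop (𝓝 (eta x (y - 1))) := by
  obtain ⟨R, C, hR1, hR2, hC0, hC⟩ := h.get x y
  have hy1 : |y - 1| ≤ R := by
    have := abs_sub y 1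
    rw [abs_one] at this
    omega
  refine tendsto_of_le (C := C) ?_ (h.conv_Yi ha hr x (y - 1))
  filter_upwards [hC] with n hn
  have := hn.ly x (y - 1) (by omega) (by omega)
  rw [sub_add_cancel] at this
  exact this

lemma Sys.conv_Xi (h : Sys T Xi Xo Yi Yo a r)
    (ha : Tendsto (fun n => (a n : ℝ) / n) atTop (𝓝 (1 / 4)))
    (hr : Tendsto (fun n => (r n : ℝ) / n) atTop (𝓝 (3 / 4))) (x y : ℤ) :
    Tendsto (fun n => (Xi n x y : ℝ) / n) atTop (𝓝 (xi (x - 1) y)) := by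
  obtain ⟨R, C, hR1, hR2, hC0, hC⟩ := h.get x y
  have hx1 : |x - 1| ≤ R := by
    have := abs_sub x 1
    rw [abs_one] at this
    omega
  by_cases h0 : x - 1 = 0 ∧ y = 0
  · obtain ⟨h1, rfl⟩ := h0
    obtain rfl : x = 1 := by omega
    have h2 : Tendsto (fun n => ((-a n : ℤ) : ℝ) / n) atTop (𝓝 (xi (1 - 1) 0)) := by
      have e : xi (1 - 1) 0 = -(1 / 4) := by
        rw [sub_self]
        unfold xi
        rw [A_zero, zero_add, A_one]
        norm_num
      rw [e]
      refine ha.neg.congr fun n => ?_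
      push_cast
      ring
    refine tendsto_of_le (C := C) ?_ h2
    filter_upwards [hC] with n hn
    rw [sub_neg_eq_add]
    exact hn.xi1
  · refine tendsto_of_le (C := C) ?_ (h.conv_Xo ha hr h0)
    filter_upwards [hC] with n hn
    have := hn.lx (x - 1) y (by omega) (by omega) h0
    rw [sub_add_cancel, abs_sub_comm] at this
    exact this

lemma Sys.conv_Xo0 (h : Sys T Xi Xo Yi Yo a r)
    (hr : Tendsto (fun n => (r n : ℝ) / n) atTop (𝓝 (3 / 4))) :
    Tendsto (fun n => (Xo n 0 0 : ℝ) / n) atTop (𝓝 (3 / 4)) := by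
  obtain ⟨C, hC⟩ := h 0
  exact tendsto_of_le (C := C) (hC.mono fun n hn => hn.xo0) hr

end

/-- Diagonal choice: if for every `R` eventually there is a system, there is one sequence of systems
which works for every `R`. -/
theorem exists_diag {α : Type*} [Nonempty α] (P : ℕ → ℕ → α → Prop)
    (mono : ∀ n R R' K, R ≤ R' → P n R' K → P n R K)
    (h : ∀ R, ∀ᶠ n in atTop, ∃ K, P n R K) : ∃ K : ℕ → α, ∀ R, ∀ᶠ n in atTop, P n R (K n) := by
  classical
  have hex : ∀ n, ∃ K : α, ∀ R, R ≤ n → (∃ K', P n R K') → (∀ R', R < R' → R' ≤ n →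
      ¬ ∃ K', P n R' K') → P n R K := by
    intro n
    by_cases hn : ∃ R, R ≤ n ∧ (∃ K', P n R K') ∧ (∀ R', R < R' → R' ≤ n → ¬ ∃ K', P n R' K')
    · obtain ⟨R, hR, ⟨K, hK⟩, hmax⟩ := hn
      refine ⟨K, fun R1 h1 h2 h3 => ?_⟩
      rcases lt_trichotomy R1 R with h4 | h4 | h4
      · exact absurd ⟨K, hK⟩ (h3 R h4 hR)
      · rw [h4]; exact hK
      · exact absurd h2 (hmax R1 h4 h1)
    · refine ⟨Classical.arbitrary α, fun R1 h1 h2 h3 => absurd ⟨R1, h1, h2, h3⟩ hn⟩
  choose K hK using hex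
  refine ⟨K, fun R => ?_⟩
  filter_upwards [h R, eventually_ge_atTop R] with n h1 h2
  -- the largest R' ≤ n with a system
  have h3 := Nat.findGreatest_spec (P := fun R' => ∃ K', P n R' K') h2 h1
  set G := Nat.findGreatest (fun R' => ∃ K', P n R' K') n with hG
  have h4 : R ≤ G := Nat.le_findGreatest (P := fun R' => ∃ K', P n R' K') h2 h1
  refine mono n R G (K n) h4 (hK n G (Nat.findGreatest_le _) h3 ?_)
  intro R' h5 h6 h7
  have := Nat.le_findGreatest (P := fun R' => ∃ K', P n R' K') h6 h7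
  omega

end RotorNE
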