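import Mathlib.Tactic
import Mathlib.Data.Nat.Nth
import Mathlib.Order.Filter.AtTopBot.Basic
import Mathlib.Algebra.BigOperators.Intervals
import Mathlib.Data.Int.Interval
import Pool.Agent.Lib.MP_936783_pr.Static

/-!
# Steepness at the western end
-/

open Filter

namespace RotorNE

variable {M : ℕ} {l r a : ℤ} {u : ℤ → ℤ → ℕ}

theorem sum_Ico_succ (f : ℤ → ℕ) (A : ℤ) (K : ℕ) :
    ∑ y ∈ Finset.Ico A (A + (K + 1 : ℕ)), f y = ∑ y ∈ Finset.Ico A (A + K), f y + f (A + K) := by
  have h : Finset.Ico A (A + (K + 1 : ℕ)) = insert (A + (K : ℤ)) (Finset.Ico A (A + K)) := by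
    ext z
    simp only [Finset.mem_Ico, Finset.mem_insert]
    push_cast
    omega
  rw [h, Finset.sum_insert (by simp), add_comm]

/-- Telescoping. -/
theorem sum_shift (g : ℤ → ℕ) (A : ℤ) (K : ℕ) :
    ∑ y ∈ Finset.Ico A (A + K), g (y - 1) + g (A + K - 1) =
      ∑ y ∈ Finset.Ico A (A + K), g y + g (A - 1) := by
  induction K with
  | zero => simp
  | succ K ih =>
    rw [sum_Ico_succ, sum_Ico_succ]
    rw [show A + ((K + 1 : ℕ) : ℤ) - 1 = A + K by push_cast; ring]
    omega

theorem sum_shift' (g : ℤ → ℕ) (A : ℤ) (K : ℕ) :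
    ∑ y ∈ Finset.Ico A (A + K), g (y + 1) + g A =
      ∑ y ∈ Finset.Ico A (A + K), g y + g (A + K) := by
  induction K with
  | zero => simp
  | succ K ih =>
    rw [sum_Ico_succ, sum_Ico_succ]
    rw [show A + ((K + 1 : ℕ) : ℤ) = A + K + 1 by push_cast; ring]
    omega

/-- West exits from column `x` in rows `[A, A + K)`. -/
noncomputable def wsum (u : ℤ → ℤ → ℕ) (A : ℤ) (K : ℕ) (x : ℤ) : ℕ := ∑ y ∈ Finset.Ico A (A + K), u x y / 4

/-- East exits from column `x` in rows `[A, A + K)`. -/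
noncomputable def esum (u : ℤ → ℤ → ℕ) (A : ℤ) (K : ℕ) (x : ℤ) : ℕ :=
  ∑ y ∈ Finset.Ico A (A + K), (u x y + 2) / 4

theorem wsum_le_esum (A : ℤ) (K : ℕ) (x : ℤ) : wsum u A K x ≤ esum u A K x := by
  unfold wsum esum
  exact Finset.sum_le_sum (fun y _ => by omega)

/-- Balance of a column. -/
theorem Odo.column (h : Odo M (-a) r u) {A : ℤ} {K : ℕ} {x : ℤ} (hx1 : -a ≤ x) (hx2 : x < r)
    (hx0 : x ≠ 0) (hA : A < -M) (hK : ∀ x y, -a ≤ x → x < r → A + K - 1 ≤ y → u x y = 1) :
    esum u A K x + wsum u A K x + 1 = esum u A K (x - 1) + wsum u A K (x + 1) := by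
  have h1 : ∑ y ∈ Finset.Ico A (A + K), u x y =
      ∑ y ∈ Finset.Ico A (A + K), ((u x (y - 1) + 3) / 4 + (u (x - 1) y + 2) / 4 +
        (u x (y + 1) + 1) / 4 + u (x + 1) y / 4) :=
    Finset.sum_congr rfl (fun y _ => (h.bal x y (by omega)).symm)
  have h2 : ∑ y ∈ Finset.Ico A (A + K), u x y =
      ∑ y ∈ Finset.Ico A (A + K), ((u x y + 3) / 4 + (u x y + 2) / 4 +
        (u x y + 1) / 4 + u x y / 4) :=
    Finset.sum_congr rfl (fun y _ => by omega)
  have h3 := sum_shift (fun y => (u x y + 3) / 4) A K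
  have h4 := sum_shift' (fun y => (u x y + 1) / 4) A K
  have e1 : u x (A + K - 1) = 1 := hK x _ hx1 hx2 (le_refl _)
  have e2 : u x (A + K) = 1 := hK x _ hx1 hx2 (by omega)
  have e3 : u x (A - 1) = 0 := h.low (by omega)
  have e4 : u x A = 0 := h.low (by omega)
  simp only [Finset.sum_add_distrib] at h1 h2
  simp only [e1, e2, e3, e4] at h3 h4
  unfold esum wsum
  omega

/-- West flux counting. -/
theorem Odo.west_flux (h : Odo M (-a) r u) {A : ℤ} {K : ℕ} (hM : 1 ≤ M) (hA : A < -M)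
    (hK : ∀ x y, -a ≤ x → x < r → A + K - 1 ≤ y → u x y = 1) (j : ℕ) (hj : (j : ℤ) ≤ a) :
    wsum u A K (-a + j) = esum u A K (-a + j - 1) + j := by
  have ha := h.a_nonneg
  have hr0 := h.hr0
  have hr := h.hr
  induction j with
  | zero =>
    have e1 : esum u A K (-a + (0 : ℕ) - 1) = 0 := by
      unfold esum
      refine Finset.sum_eq_zero (fun y _ => ?_)
      rw [h.off _ _ (Or.inl (by push_cast; omega))]
      rfl
    have e2 : wsum u A K (-a + (0 : ℕ)) = 0 := by
      unfold wsum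
      refine Finset.sum_eq_zero (fun y _ => ?_)
      have hb := h.bal (-a - 1) y (by omega)
      rw [h.off _ _ (Or.inl (by omega))] at hb
      unfold F at hb
      rw [sub_add_cancel] at hb
      push_cast
      rw [add_zero]
      omega
    rw [e1, e2]
  | succ j ih =>
    have ih' := ih (by push_cast at hj; omega)
    have hc := h.column (A := A) (K := K) (x := -a + j) (by omega) (by push_cast at hj; omega)
      (by push_cast at hj; omega) hA hK
    rw [show (-a + (j + 1 : ℕ) : ℤ) = -a + j + 1 by push_cast; ring,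
      show (-a + j + 1 - 1 : ℤ) = -a + j by ring]
    omega

theorem Odo.west_flux_ge (h : Odo M (-a) r u) {A : ℤ} {K : ℕ} (hM : 1 ≤ M) (hA : A < -M)
    (hK : ∀ x y, -a ≤ x → x < r → A + K - 1 ≤ y → u x y = 1) (j : ℕ) (hj : (j : ℤ) ≤ a) :
    j * (j + 1) ≤ 2 * wsum u A K (-a + j) := by
  induction j with
  | zero => simp
  | succ j ih =>
    have ih' := ih (by push_cast at hj; omega)
    have h1 := h.west_flux hM hA hK (j + 1) hj
    rw [show (-a + (j + 1 : ℕ) - 1 : ℤ) = -a + j by push_cast; ring] at h1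
    have h2 := wsum_le_esum (u := u) A K (-a + j)
    rw [h1]
    nlinarith

/-- A steep site near the western end. -/
theorem Odo.steep (h : Odo M (-a) r u) (hM : 1 ≤ M) (j : ℕ) (hj : (j : ℤ) ≤ a)
    (hj2 : 4 * a + 2 < j * (j + 1)) : ∃ y, 8 ≤ u (-a + j) y := by
  by_contra hcon
  push Not at hcon
  obtain ⟨Y, hY⟩ := h.far
  have ha := h.a_nonneg
  set A : ℤ := -M - 1 - a with hAdef
  set K : ℕ := (Y + 2 * a + M + 10 - A).toNat + (Y - A).toNat + (a - A).toNat + 1 with hKdef
  have hK : ∀ x y, -a ≤ x → x < r → A + K - 1 ≤ y → u x y = 1 := by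
    intro x y h1 h2 h3
    refine hY x y h1 h2 ?_
    omega
  have h1 := h.west_flux_ge hM (by omega) hK j hj
  have h2 : wsum u A K (-a + j) ≤ ∑ y ∈ Finset.Icc (-a) a, 1 := by
    unfold wsum
    have hsub : Finset.Icc (-a) a ⊆ Finset.Ico A (A + K) := by
      intro z hz
      simp only [Finset.mem_Icc, Finset.mem_Ico] at hz ⊢
      omega
    rw [← Finset.sum_subset hsub]
    · refine Finset.sum_le_sum (fun y _ => ?_)
      have := hcon y
      omega
    · intro y _ hy
      simp only [Finset.mem_Icc, not_and_or, not_le] at hy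
      by_contra hne
      have h4 : 4 ≤ u (-a + j) y := by omega
      have h5 := h.y_ge h4
      have h6 := h.y_le (x := -a + j) (y := y) (by omega)
      omega
  simp only [Finset.sum_const, Int.card_Icc, smul_eq_mul, mul_one] at h2
  have h3 : ((a + 1 - -a).toNat : ℤ) = 2 * a + 1 := by omega
  have h4 : (wsum u A K (-a + j) : ℤ) ≤ 2 * a + 1 := by
    rw [← h3]
    exact_mod_cast h2
  have h5 : ((j : ℤ) * (j + 1)) ≤ 2 * wsum u A K (-a + j) := by exact_mod_cast h1
  linarith

end RotorNE
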