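import Mathlib.Tactic
import Mathlib.Data.Nat.Nth
import Mathlib.Order.Filter.AtTopBot.Basic
import Mathlib.Algebra.BigOperators.Intervals
import Mathlib.Data.Int.Interval
import Pool.Agent.Lib.MP_936783_pr.Steep

/-!
# Emission of rows from the eastern end of the core
-/

open Filter

namespace RotorNE

variable {M : ℕ} {l r a : ℤ} {u : ℤ → ℤ → ℕ}

theorem Odo.ne_origin (h : Odo M l r u) {x y : ℤ} (hu : u x y < M) : ¬ (x = 0 ∧ y = 0) := by
  rintro ⟨rfl, rfl⟩
  have := h.orig
  omega

/-- Chains of sites with odometer at most one. -/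
theorem Odo.chain (h : Odo M (-a) r u) (hM : 2 ≤ M) {x y : ℤ} (hu : u x y ≤ 1) :
    ∃ x2 ≤ x, u x2 (y - 1) = 0 ∧ ∀ x', x2 ≤ x' → x' ≤ x → u x' y ≤ 1 := by
  have key : ∀ n : ℕ, ∀ x, x + a + 1 ≤ n → u x y ≤ 1 →
      ∃ x2 ≤ x, u x2 (y - 1) = 0 ∧ ∀ x', x2 ≤ x' → x' ≤ x → u x' y ≤ 1 := by
    intro n
    induction n with
    | zero =>
      intro x hx hu
      refine ⟨x, le_refl _, h.off _ _ (Or.inl (by push_cast at hx; omega)), ?_⟩
      intro x' h1 h2
      rwa [show x' = x by omega]
    | succ n ih =>
      intro x hx hu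
      by_cases h0 : u x (y - 1) = 0
      · refine ⟨x, le_refl _, h0, ?_⟩
        intro x' h1 h2
        rwa [show x' = x by omega]
      · have hb := h.bal x y (h.ne_origin (by omega))
        unfold F at hb
        obtain ⟨x2, h1, h2, h3⟩ := ih (x - 1) (by push_cast at hx; omega) (by omega)
        refine ⟨x2, by omega, h2, ?_⟩
        intro x' h4 h5
        rcases eq_or_lt_of_le h5 with h6 | h6
        · rwa [h6]
        · exact h3 x' h4 (by omega)
  exact key (x + a + 1).toNat x (by omega) hu

/-- Every column between two columns of the core meets the core. -/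
theorem Odo.core_cols (h : Odo M l r u) (hM : 5 ≤ M) {x1 y1 x2 y2 c : ℤ} (h1 : 5 ≤ u x1 y1)
    (h2 : 5 ≤ u x2 y2) (hc1 : x1 ≤ c) (hc2 : c ≤ x2) : ∃ y, 5 ≤ u c y := by
  by_contra hcon
  push Not at hcon
  rcases lt_trichotomy c 0 with h0 | h0 | h0
  · have hc := h.cut 4 (fun x _ => x < c) (by omega) (by
      intro x y hx _
      refine ⟨Or.inl hx, Or.inl (by omega), Or.inl hx, ?_⟩
      by_cases h3 : x + 1 < c
      · exact Or.inl h3
      · right
        rw [show x + 1 = c by omega]
        have := hcon y
        omega) x1 y1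
    have h3 : x1 ≠ c := by
      rintro rfl
      have := hcon y1
      omega
    have := hc (by omega)
    omega
  · subst h0
    have := hcon 0
    rw [h.orig] at this
    omega
  · have hc := h.cut 4 (fun x _ => c < x) (by omega) (by
      intro x y hx _
      refine ⟨Or.inl hx, ?_, Or.inl hx, Or.inl (by omega)⟩
      by_cases h3 : c < x - 1
      · exact Or.inl h3
      · right
        rw [show x - 1 = c by omega]
        have := hcon y
        omega) x2 y2
    have h3 : x2 ≠ c := by
      rintro rfl
      have := hcon y2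
      omega
    have := hc (by omega)
    omega

/-- The box lemma. -/
theorem Odo.box (h : Odo M l r u) {x2 x3 s y5 : ℤ} (hW : ∀ y, y < s → u x2 y = 0)
    (hN : ∀ x', x2 < x' → x' < x3 → u x' s ≤ 1) (hE : ∀ y, y < s → u x3 y ≤ 2)
    (h5 : 5 ≤ u x3 y5) : ∀ x' y', x2 < x' → x' < x3 → y' < s → u x' y' = 0 := by
  by_cases ho : x2 < 0 ∧ 0 < x3 ∧ 0 < s
  · exfalso
    have hc := h.cut 4 (fun x y => ¬ (x2 < x ∧ x < x3 ∧ y < s)) (by omega) (by
      intro x y hT hu
      have hWN : ∀ x' y', (x2 < x' ∧ x' < x3 ∧ y' < s) → (x = x' ∧ y = y' + 1 ∨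
          x = x' + 1 ∧ y = y' ∨ x = x' ∧ y = y' - 1 ∨ x = x' - 1 ∧ y = y') → False := by
        intro x' y' h1 h2
        rcases h2 with ⟨rfl, rfl⟩ | ⟨rfl, rfl⟩ | ⟨rfl, rfl⟩ | ⟨rfl, rfl⟩
        · have e : y' + 1 = s := by omega
          rw [e] at hu
          have := hN x h1.1 h1.2.1
          omega
        · have e : x' + 1 = x3 := by omega
          rw [e] at hu
          have := hE y h1.2.2
          omega
        · omega
        · have e : x' - 1 = x2 := by omega
          rw [e] at hu
          have := hW y h1.2.2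
          omega
      refine ⟨Or.inl fun h1 => hWN _ _ h1 (by omega), Or.inl fun h1 => hWN _ _ h1 (by omega),
        Or.inl fun h1 => hWN _ _ h1 (by omega), Or.inl fun h1 => hWN _ _ h1 (by omega)⟩) x3 y5
    have := hc (by omega)
    omega
  · intro x' y' h1 h2 h3
    refine h.zero_region (fun x y => x2 < x ∧ x < x3 ∧ y < s) ho ?_ x' y' ⟨h1, h2, h3⟩
    intro x y hT
    refine ⟨Or.inl (by omega), ?_, ?_, ?_⟩
    · by_cases h4 : x2 < x - 1
      · exact Or.inl (by omega)
      · right
        rw [show x - 1 = x2 by omega, hW y hT.2.2]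
        omega
    · by_cases h4 : y + 1 < s
      · exact Or.inl (by omega)
      · right
        rw [show y + 1 = s by omega]
        have := hN x hT.1 hT.2.1
        omega
    · by_cases h4 : x + 1 < x3
      · exact Or.inl (by omega)
      · right
        rw [show x + 1 = x3 by omega]
        have := hE y hT.2.2
        omega

/-- The bottom row of the core is emitted to the east. -/
theorem Odo.rowL (h : Odo M (-a) r u) (hM : 5 ≤ M) {xS xE η yE : ℤ} (hS : 5 ≤ u xS η)
    (hE : 5 ≤ u xE yE) (i : ℕ) : xS + i ≤ xE → 1 ≤ u (xS + i) η ∨ 2 ≤ u (xS + i) (η + 1) := by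
  have hM1 : 1 ≤ M := by omega
  induction i with
  | zero => intro _; left; simpa using (by omega : 1 ≤ u xS η)
  | succ i ih =>
    intro hi
    push_cast at hi ⊢
    have ih' := ih (by omega)
    rw [← add_assoc]
    generalize hx : xS + (i : ℤ) = x at ih' hi ⊢
    rw [← add_assoc, hx] at hi
    by_contra hcon
    push Not at hcon
    obtain ⟨hc1, hc2⟩ := hcon
    have hc0 : u (x + 1) η = 0 := by omega
    by_cases h2 : 2 ≤ u x (η + 1)
    · -- Case 1
      obtain ⟨y5, hy5⟩ := h.core_cols hM hS hE (c := x + 1) (by omega) hi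
      have hb1 := h.bal (x + 1) (η + 1) (h.ne_origin (by omega))
      unfold F at hb1
      rw [add_sub_cancel_right, add_sub_cancel_right] at hb1
      obtain ⟨y3, hy3, hmin⟩ := Int.exists_least_of_bdd (P := fun z => 3 ≤ u (x + 1) z)
        ⟨η + 2, by
          intro z hz
          by_contra hz'
          rcases (show z = η + 1 ∨ z ≤ η by omega) with h3 | h3
          · subst h3; omega
          · have := h.zero_below hM1 hc0 h3
            omega⟩ ⟨y5, by omega⟩
      have hy3' : η + 2 ≤ y3 := by
        by_contra hz'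
        rcases (show y3 = η + 1 ∨ y3 ≤ η by omega) with h3 | h3
        · subst h3; omega
        · have := h.zero_below hM1 hc0 h3
          omega
      have hlow : ∀ y, y < y3 → u (x + 1) y ≤ 2 := by
        intro y hy
        by_contra hh
        have := hmin y (by omega)
        omega
      have hb2 := h.bal (x + 1) (y3 - 1) (h.ne_origin (by have := hlow (y3 - 1) (by omega); omega))
      unfold F at hb2
      rw [add_sub_cancel_right, sub_add_cancel] at hb2
      have hl2 := hlow (y3 - 1) (by omega)
      have hy3'' : η + 3 ≤ y3 := by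
        by_contra hh
        have e : y3 - 1 = η + 1 := by omega
        rw [e] at hb2
        omega
      have hp1 : 1 ≤ u (x + 1) (y3 - 1 - 1) :=
        h.pos_above hM1 (x := x + 1) (y := η + 1) (by omega) (by omega)
      obtain ⟨x2, hx2, hz2, hrow⟩ := h.chain (by omega) (x := x) (y := y3 - 1) (by omega)
      have hp2 : 1 ≤ u x (y3 - 1 - 1) :=
        h.pos_above hM1 (x := x) (y := η + 1) (by omega) (by omega)
      have hx2' : x2 ≠ x := by
        rintro rfl
        omega
      have hbox := h.box (x2 := x2) (x3 := x + 1) (s := y3 - 1) (y5 := y5)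
        (fun y hy => h.zero_below hM1 hz2 (by omega))
        (fun x' h3 h4 => hrow x' (by omega) (by omega))
        (fun y hy => hlow y (by omega)) hy5 x (η + 1) (by omega) (by omega) (by omega)
      omega
    · -- Case 2
      have h1 : 1 ≤ u x η := by omega
      obtain ⟨y5, hy5⟩ := h.core_cols hM hS hE (c := x) (by omega) (by omega)
      have hle1 : ∀ y, y ≤ η → u x y ≤ 1 := by
        intro y hy
        have h0 := h.zero_below hM1 hc0 hy
        have hb := h.bal (x + 1) y (h.ne_origin (by omega))
        unfold F at hb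
        rw [add_sub_cancel_right] at hb
        omega
      have hb1 := h.bal x (η + 1) (h.ne_origin (by omega))
      unfold F at hb1
      rw [add_sub_cancel_right] at hb1
      have hlow3 : ∀ z, 3 ≤ u x z → η + 3 ≤ z := by
        intro z hz
        by_contra hz'
        rcases (show z = η + 1 + 1 ∨ z = η + 1 ∨ z ≤ η by omega) with h3 | h3 | h3
        · subst h3; omega
        · subst h3; omega
        · have := hle1 z h3
          omega
      obtain ⟨y3, hy3, hmin⟩ := Int.exists_least_of_bdd (P := fun z => 3 ≤ u x z)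
        ⟨η + 3, hlow3⟩ ⟨y5, by omega⟩
      have hy3' := hlow3 y3 hy3
      have hlow : ∀ y, y < y3 → u x y ≤ 2 := by
        intro y hy
        by_contra hh
        have := hmin y (by omega)
        omega
      have hl2 := hlow (y3 - 1) (by omega)
      have hb2 := h.bal x (y3 - 1) (h.ne_origin (by omega))
      unfold F at hb2
      rw [sub_add_cancel] at hb2
      have hp1 : 1 ≤ u x (y3 - 1 - 1) :=
        h.pos_above hM1 (x := x) (y := η) (by omega) (by omega)
      obtain ⟨x2, hx2, hz2, hrow⟩ := h.chain (by omega) (x := x - 1) (y := y3 - 1) (by omega)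
      have hbox := h.box (x2 := x2) (x3 := x) (s := y3 - 1) (y5 := y5)
        (fun y hy => h.zero_below hM1 hz2 (by omega))
        (fun x' h3 h4 => hrow x' (by omega) (by omega))
        (fun y hy => hlow y (by omega)) hy5
      have hcol : ∀ y, y ≤ η → u (x - 1) y = 0 := by
        intro y hy
        rcases eq_or_lt_of_le hx2 with h3 | h3
        · rw [← h3]
          exact h.zero_below hM1 hz2 (by omega)
        · exact hbox (x - 1) y h3 (by omega) (by omega)
      obtain ⟨y1, hy1, hmin1⟩ := Int.exists_least_of_bdd (P := fun z => 1 ≤ u x z)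
        ⟨-M, by
          intro z hz
          by_contra hz'
          have := h.low (x := x) (y := z) (by omega)
          omega⟩ ⟨η, h1⟩
      have hy1η : y1 ≤ η := hmin1 η h1
      have hb3 := h.bal x y1 (h.ne_origin (by have := hle1 y1 hy1η; omega))
      unfold F at hb3
      have e1 : u x (y1 - 1) = 0 := by
        by_contra hh
        have := hmin1 (y1 - 1) (by omega)
        omega
      have e2 := hcol y1 hy1η
      have e3 : u x (y1 + 1) ≤ 1 := by
        rcases eq_or_lt_of_le hy1η with h3 | h3
        · rw [h3]; omega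
        · exact hle1 _ (by omega)
      have e4 := h.zero_below hM1 hc0 hy1η
      omega

/-- Rows of the core are emitted from its eastern end. -/
theorem Odo.emit (h : Odo M (-a) r u) (hM : 5 ≤ M) {xS xE η yE xN yN : ℤ} (hS : 5 ≤ u xS η)
    (hE : 5 ≤ u xE yE) (hmax : ∀ x y, 5 ≤ u x y → x ≤ xE) (hN : 5 ≤ u xN yN) {y : ℤ}
    (hy1 : η + 2 ≤ y) (hy2 : y ≤ yN) : 2 ≤ u xE y := by
  have hM1 : 1 ≤ M := by omega
  by_contra hcon
  obtain ⟨x2, hx2, hz2, hrow⟩ := h.chain (by omega) (x := xE) (y := y) (by omega)
  by_cases hxS : xS ≤ x2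
  · have h1 := h.rowL hM hS hE (x2 - xS).toNat (by omega)
    rw [show xS + ((x2 - xS).toNat : ℤ) = x2 by omega] at h1
    have h2 := h.zero_below hM1 hz2 (y' := η) (by omega)
    have h3 := h.zero_below hM1 hz2 (y' := η + 1) (by omega)
    omega
  · have hSE := hmax _ _ hS
    have hzero : ∀ y', y' < y → u x2 y' = 0 := fun y' hy' => h.zero_below hM1 hz2 (by omega)
    have hbig : ∀ y', u (xE + 1) y' ≤ 4 := by
      intro y'
      by_contra hh
      have := hmax (xE + 1) y' (by omega)
      omega
    by_cases ho : x2 < 0 ∧ 0 ≤ xE ∧ 0 < y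
    · have hc := h.cut 4 (fun x' y' => ¬ (x2 < x' ∧ x' ≤ xE ∧ y' < y)) (by omega) (by
        intro x' y' hT hu
        have hWN : ∀ x'' y'', (x2 < x'' ∧ x'' ≤ xE ∧ y'' < y) → (x' = x'' ∧ y' = y'' + 1 ∨
            x' = x'' + 1 ∧ y' = y'' ∨ x' = x'' ∧ y' = y'' - 1 ∨ x' = x'' - 1 ∧ y' = y'') →
            False := by
          intro x'' y'' h1 h2
          rcases h2 with ⟨rfl, rfl⟩ | ⟨rfl, rfl⟩ | ⟨rfl, rfl⟩ | ⟨rfl, rfl⟩
          · have e : y'' + 1 = y := by omega
            rw [e] at hu
            have := hrow x' (by omega) (by omega)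
            omega
          · have e : x'' + 1 = xE + 1 := by omega
            rw [e] at hu
            have := hbig y'
            omega
          · omega
          · have e : x'' - 1 = x2 := by omega
            rw [e] at hu
            have := hzero y' h1.2.2
            omega
        refine ⟨Or.inl fun h1 => hWN _ _ h1 (by omega), Or.inl fun h1 => hWN _ _ h1 (by omega),
          Or.inl fun h1 => hWN _ _ h1 (by omega), Or.inl fun h1 => hWN _ _ h1 (by omega)⟩)
          xN yN
      have := hc (by omega)
      omega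
    · have hc := h.cut 4 (fun x' y' => x2 < x' ∧ x' ≤ xE ∧ y' < y) (by omega) (by
        intro x' y' hT hu
        refine ⟨Or.inl (by omega), ?_, ?_, ?_⟩
        · by_cases h4 : x2 < x' - 1
          · exact Or.inl (by omega)
          · right
            rw [show x' - 1 = x2 by omega, hzero y' hT.2.2]
            omega
        · by_cases h4 : y' + 1 < y
          · exact Or.inl (by omega)
          · right
            rw [show y' + 1 = y by omega]
            have := hrow x' (by omega) (by omega)
            omega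
        · by_cases h4 : x' + 1 ≤ xE
          · exact Or.inl (by omega)
          · right
            rw [show x' + 1 = xE + 1 by omega]
            exact hbig y') xS η
      have := hc (by omega)
      omega

/-- Propagation of the emitted rows. -/
theorem Odo.propagate (h : Odo M (-a) r u) (hM : 5 ≤ M) {xS xE η yE xN yN : ℤ}
    (hxE : 0 ≤ xE) (hS : 5 ≤ u xS η)
    (hE : 5 ≤ u xE yE) (hmax : ∀ x y, 5 ≤ u x y → x ≤ xE) (hN : 5 ≤ u xN yN) (i : ℕ) :
    ∀ y, η + 2 + i ≤ y → y ≤ yN → 2 ≤ u (xE + i) y := by
  induction i with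
  | zero =>
    intro y h1 h2
    have := h.emit hM hS hE hmax hN (y := y) (by push_cast at h1; omega) h2
    simpa using this
  | succ i ih =>
    intro y h1 h2
    push_cast at h1 ⊢
    rw [← add_assoc]
    have e1 := ih y (by omega) h2
    have e2 := ih (y - 1) (by omega) (by omega)
    have hb1 := h.bal (xE + i + 1) y (by omega)
    have hb2 := h.bal (xE + i + 1) (y - 1) (by omega)
    unfold F at hb1 hb2
    rw [add_sub_cancel_right] at hb1 hb2
    omega

/-- The static exterior theorem. -/
theorem Odo.exterior (h : Odo M (-a) r u) (hM : 5 ≤ M) (j : ℕ) (hj : (j : ℤ) ≤ a)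
    (hj2 : 4 * a + 2 < j * (j + 1)) :
    3 * a - 3 * j ≤ r ∧
    (∀ x y, a < x → x - 2 * a + 2 * j + 2 ≤ y → y ≤ a - j → u x y = 2) ∧
    (∀ x y, a < y → -a + j ≤ x → x ≤ 3 * a - 3 * j - 2 → u x y = 1) := by
  have hM1 : 1 ≤ M := by omega
  have ha := h.a_nonneg
  obtain ⟨yw, hyw⟩ := h.steep hM1 j hj hj2
  have hS := h.rotation (-a + j) yw
  have hE := h.rotation2 (-a + j) yw
  have hN := h.rotation3 (-a + j) yw
  have hS' : 5 ≤ u (-yw) (-a + j) := by omega
  have hE' : 5 ≤ u (-(-a + j)) (-yw) := by omega
  have hN' : 5 ≤ u yw (-(-a + j)) := by omega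
  obtain ⟨xE, ⟨yE, hxE⟩, hmax⟩ := Int.exists_greatest_of_bdd (P := fun z => ∃ y, 5 ≤ u z y)
    ⟨a, by
      rintro z ⟨y, hy⟩
      exact h.x_le (y := y) (by omega)⟩ ⟨0, 0, by rw [h.orig]; exact hM⟩
  have hmax' : ∀ x y, 5 ≤ u x y → x ≤ xE := fun x y hxy => hmax x ⟨y, hxy⟩
  have hxE0 : 0 ≤ xE := hmax 0 ⟨0, by rw [h.orig]; exact hM⟩
  have hxEj : a - j ≤ xE := by
    have := hmax' _ _ hE'
    omega
  have hxEa : xE ≤ a := h.x_le (x := xE) (y := yE) (by omega)
  have hprop := h.propagate hM hxE0 hS' hxE hmax' hN'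
  refine ⟨?_, ?_, ?_⟩
  · by_cases hjj : 2 * (j : ℤ) + 2 ≤ 2 * a
    · have h1 := hprop (2 * a - 2 * j - 2).toNat (a - j) (by omega) (by omega)
      have hb1 := h.bal (xE + ((2 * a - 2 * j - 2).toNat : ℤ) + 1) (a - j) (by omega)
      unfold F at hb1
      rw [add_sub_cancel_right] at hb1
      have h2 := h.x_lt (x := xE + ((2 * a - 2 * j - 2).toNat : ℤ) + 1) (y := a - j) (by omega)
      omega
    · have := h.hr
      omega
  · intro x y hx hy1 hy2
    have h1 := hprop (x - xE).toNat y (by omega) (by omega)
    rw [show xE + ((x - xE).toNat : ℤ) = x by omega] at h1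
    by_contra hne
    have := h.x_le (x := x) (y := y) (by omega)
    omega
  · intro x y hy hx1 hx2
    have h2 : u x y ≤ 1 := by
      by_contra hh
      have := h.y_le (x := x) (y := y) (by omega)
      omega
    have h3 : 1 ≤ u x y := by
      by_cases hxx : x ≤ xE
      · obtain ⟨y5, hy5⟩ := h.core_cols hM (c := x) (show 5 ≤ u (-a + j) yw by omega) hxE hx1 hxx
        have := h.y_le (x := x) (y := y5) (by omega)
        exact h.pos_above hM1 (x := x) (y := y5) (by omega) (by omega)
      · have h1 := hprop (x - xE).toNat (a - j) (by omega) (by omega)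
        rw [show xE + ((x - xE).toNat : ℤ) = x by omega] at h1
        exact h.pos_above hM1 (x := x) (y := a - j) (by omega) (by omega)
    omega

end RotorNE
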