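import Mathlib.Tactic
import Mathlib.Data.Nat.Nth
import Mathlib.Data.Int.Interval
import Mathlib.Data.Int.ConditionallyCompleteOrder
import Mathlib.Data.Int.Star
import Mathlib.Algebra.Order.Star.Real
import Mathlib.Analysis.SpecialFunctions.Integrals.Basic
import Mathlib.Analysis.Fourier.RiemannLebesgueLemma
import Mathlib.Analysis.SpecificLimits.Basic
import Mathlib.Analysis.Asymptotics.SpecificAsymptotics
import Mathlib.MeasureTheory.Integral.Prod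
import Mathlib.MeasureTheory.Measure.Lebesgue.Basic
import Pool.Agent.Lib.MP_936783_pr.Emit

/-!
# Asymptotics of the exterior region
-/

open Filter

namespace RotorNE

/-- The scale of the visited region. -/
theorem asymp (ε : ℝ) (hε : 0 < ε) : ∃ N : ℕ, ∀ n : ℕ, N ≤ n →
    ∃ (M : ℕ) (a r : ℤ) (u : ℤ → ℤ → ℕ) (j : ℕ), Odo M (-a) r u ∧ rho n = confOf u ∧ 5 ≤ M ∧
      r + a = n ∧ (j : ℤ) ≤ a ∧ 4 * a + 2 < j * (j + 1) ∧ (j : ℝ) ≤ ε * n ∧
      (a : ℝ) ≤ (1 / 4 + ε) * n ∧ (1 / 4 - ε) * n ≤ a := by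
  -- we may assume that ε ≤ 1/8
  obtain ⟨δ, hδ0, hδ8, hδε⟩ : ∃ δ : ℝ, 0 < δ ∧ δ ≤ 1 / 8 ∧ δ ≤ ε :=
    ⟨min ε (1 / 8), by positivity, min_le_right _ _, min_le_left _ _⟩
  obtain ⟨N, hN⟩ := exists_nat_ge (max (100 : ℝ) (max (2 / δ) (32 / δ ^ 2)))
  refine ⟨N, fun n hn => ?_⟩
  have hnR : (N : ℝ) ≤ n := by exact_mod_cast hn
  have hn1 : (100 : ℝ) ≤ n := le_trans (le_trans (le_max_left _ _) hN) hnR
  have hn2 : 2 / δ ≤ n := le_trans (le_trans (le_trans (le_max_left _ _) (le_max_right _ _)) hN) hnR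
  have hn3 : 32 / δ ^ 2 ≤ n :=
    le_trans (le_trans (le_trans (le_max_right _ _) (le_max_right _ _)) hN) hnR
  rw [div_le_iff₀ (by positivity)] at hn2 hn3
  have hn1' : 100 ≤ n := by exact_mod_cast hn1
  obtain ⟨M, l, r, u, hodo, hconf, hrl, hnM⟩ := odo_rho n (by omega)
  obtain ⟨a, rfl⟩ : ∃ a : ℤ, l = -a := ⟨-l, by ring⟩
  have ha := hodo.a_nonneg
  have hr := hodo.hr
  have hrle := hodo.r_le
  obtain ⟨b, hb⟩ : ∃ b : ℕ, a = b := ⟨a.toNat, by omega⟩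
  set s := Nat.sqrt (4 * b + 4) with hs
  have hs1 : s * s ≤ 4 * b + 4 := Nat.sqrt_le _
  have hs2 : 4 * b + 4 < (s + 1) * (s + 1) := Nat.lt_succ_sqrt _
  have hbn : (b : ℝ) ≤ n := by
    have : (b : ℤ) ≤ n := by omega
    exact_mod_cast this
  have hsR : (s : ℝ) * s ≤ 4 * n + 4 := by
    have : (s : ℝ) * s ≤ 4 * b + 4 := by exact_mod_cast hs1
    linarith
  have hsδ : (s : ℝ) + 1 ≤ δ * n := by
    by_contra hc
    push Not at hc
    have h1 : δ * n / 2 < s := by nlinarith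
    have h2 : (δ * n / 2) * (δ * n / 2) < s * s := by
      apply mul_self_lt_mul_self (by positivity) h1
    nlinarith
  have han : (n : ℝ) ≤ 4 * a + 5 := by
    have : (n : ℤ) ≤ 4 * a + 5 := by omega
    exact_mod_cast this
  have hja : ((s + 1 : ℕ) : ℤ) ≤ a := by
    have : ((s + 1 : ℕ) : ℝ) ≤ a := by
      push_cast
      nlinarith
    exact_mod_cast this
  have hj2 : 4 * a + 2 < ((s + 1 : ℕ) : ℤ) * (((s + 1 : ℕ) : ℤ) + 1) := by
    have : (4 * b + 4 : ℤ) < ((s + 1 : ℕ) : ℤ) * ((s + 1 : ℕ) : ℤ) := by exact_mod_cast hs2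
    rw [hb]
    nlinarith
  obtain ⟨hext, -, -⟩ := hodo.exterior (by omega) (s + 1) hja hj2
  refine ⟨M, a, r, u, s + 1, hodo, hconf, by omega, by omega, hja, hj2, ?_, ?_, ?_⟩
  · push_cast
    nlinarith
  · have h1 : (4 * a - 3 * ((s + 1 : ℕ) : ℤ)) ≤ n := by omega
    have h2 : (4 * (a : ℝ) - 3 * (s + 1)) ≤ n := by exact_mod_cast h1
    nlinarith
  · nlinarith

end RotorNE
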