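import Mathlib.Tactic
import Mathlib.Data.Nat.Nth
import Mathlib.Data.Int.Interval
import Mathlib.Data.Int.ConditionallyCompleteOrder
import Mathlib.Data.Int.Star
import Mathlib.Algebra.Order.Star.Real
import Mathlib.Analysis.SpecialFunctions.Integrals.Basic
import Mathlib.Analysis.Fourier.RiemannLebesgueLemma
import Mathlib.Analysis.SpecificLimits.Basic
import Mathlib.Analysis.Asymptotics.SpecificAsymptotics
import Mathlib.MeasureTheory.Integral.Prod
import Mathlib.MeasureTheory.Measure.Lebesgue.Basic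
import Pool.Agent.Lib.MP_936783_pr.Asymp
import Pool.Agent.Lib.MP_936783_pr.Compare
import Pool.Agent.Lib.MP_936783_pr.Cover

/-!
# The final step

`uN n` is a fixed odometer of the process just after the `n`-th escape, `labN n x y` the label
(horizontal flux, vertical flux, number of exits mod 4) of the site `(x, y)`. If the labels converge
on the limit triangles, then the rotors converge at almost every point of the square.
-/

open Filter Topology MeasureTheory Set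

noncomputable section

namespace RotorNE

/-- The number of particles at the `n`-th escape. -/
def MN (n : ℕ) : ℕ := if h : 1 ≤ n then (odo_rho_acyclic n h).choose else 0

/-- Minus the first visited column. -/
def aN (n : ℕ) : ℤ := if h : 1 ≤ n then -(odo_rho_acyclic n h).choose_spec.choose else 0

/-- One more than the last visited column. -/
def rN (n : ℕ) : ℤ := if h : 1 ≤ n then (odo_rho_acyclic n h).choose_spec.choose_spec.choose else 0

/-- The odometer just after the `n`-th escape. -/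
def uN (n : ℕ) : ℤ → ℤ → ℕ :=
  if h : 1 ≤ n then (odo_rho_acyclic n h).choose_spec.choose_spec.choose_spec.choose
  else fun _ _ => 0

lemma uN_full {n : ℕ} (hn : 1 ≤ n) : Odo (MN n) (-aN n) (rN n) (uN n) ∧
    rho n = confOf (uN n) ∧ rN n + aN n = n ∧ n ≤ MN n ∧
    ∀ D : Finset (ℤ × ℤ), D.Nonempty → (∀ p ∈ D, 1 ≤ uN n p.1 p.2) →
      ∃ p ∈ D, lastNb (toZ (uN n)) p ∉ D := by
  unfold uN rN aN MN
  rw [dif_pos hn, dif_pos hn, dif_pos hn, dif_pos hn]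
  obtain ⟨h1, h2, h3, h4, h5⟩ := (odo_rho_acyclic n hn).choose_spec.choose_spec.choose_spec.choose_spec
  rw [neg_neg]
  exact ⟨h1, h2, by rw [← sub_eq_add_neg]; exact h3, h4, h5⟩

lemma uN_spec {n : ℕ} (hn : 1 ≤ n) : ∃ (M : ℕ) (l r : ℤ), Odo M l r (uN n) ∧
    rho n = confOf (uN n) ∧ r - l = n ∧ n ≤ M := by
  obtain ⟨h1, h2, h3, h4, -⟩ := uN_full hn
  exact ⟨_, _, _, h1, h2, by rw [sub_neg_eq_add]; exact h3, h4⟩

lemma uN_spec' {n : ℕ} (hn : 1 ≤ n) : ∃ (M : ℕ) (l r : ℤ), Odo M l r (uN n) ∧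
    rho n = confOf (uN n) ∧ r - l = n ∧ n ≤ M ∧
    ∀ D : Finset (ℤ × ℤ), D.Nonempty → (∀ p ∈ D, 1 ≤ uN n p.1 p.2) →
      ∃ p ∈ D, lastNb (toZ (uN n)) p ∉ D := by
  obtain ⟨h1, h2, h3, h4, h5⟩ := uN_full hn
  exact ⟨_, _, _, h1, h2, by rw [sub_neg_eq_add]; exact h3, h4, h5⟩

/-- Last exits are acyclic, the origin included. -/
lemma uN_acyc {n : ℕ} (hn : 1 ≤ n) (D : Finset (ℤ × ℤ)) (hD : D.Nonempty)
    (hpos : ∀ p ∈ D, 1 ≤ uN n p.1 p.2) : ∃ p ∈ D, lastNb (toZ (uN n)) p ∉ D := by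
  obtain ⟨M, l, r, -, -, -, -, h⟩ := uN_spec' hn
  exact h D hD hpos

/-- Horizontal flux (towards the West) on the edge `(x, y) - (x + 1, y)`. -/
def hfl (u : ℤ → ℤ → ℕ) (x y : ℤ) : ℤ := (u (x + 1) y : ℤ) / 4 - ((u x y : ℤ) + 2) / 4

/-- Vertical flux (towards the South) on the edge `(x, y) - (x, y + 1)`. -/
def vfl (u : ℤ → ℤ → ℕ) (x y : ℤ) : ℤ := ((u x (y + 1) : ℤ) + 1) / 4 - ((u x y : ℤ) + 3) / 4

/-- The label of a site. -/
def labU (u : ℤ → ℤ → ℕ) (x y : ℤ) : ℤ × ℤ × ℕ := (hfl u x y, vfl u x y, u x y % 4)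

/-- The labels just after the `n`-th escape. -/
def labN (n : ℕ) (x y : ℤ) : ℤ × ℤ × ℕ := labU (uN n) x y

lemma dirOf_mod (k : ℕ) : dirOf (k % 4) = dirOf k := by
  unfold dirOf
  rw [Nat.mod_mod]

/-- **Almost everywhere convergence inside the square.** -/
theorem ae_square (H : LimitTiles labN) :
    ∀ᵐ z : ℝ × ℝ, z ∈ Big →
      ∃ d : Dir, ∀ᶠ n : ℕ in atTop, rho n (⌊(n : ℝ) * z.1⌋, ⌊(n : ℝ) * z.2⌋) = d := by
  filter_upwards [H.ae] with z hz hB
  obtain ⟨hg, k, a, b, hk⟩ := hz hB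
  refine ⟨dirOf (labOf k a b).2.2, ?_⟩
  filter_upwards [H k a b z hk hg, eventually_ge_atTop 1] with n hn h1
  obtain ⟨M, l, r, -, hconf, -, -⟩ := uN_spec h1
  rw [hconf]
  unfold confOf
  simp only
  rw [← hn]
  unfold labN labU
  simp only
  rw [dirOf_mod]

/-! ### The asymptotic description of the exterior, for the fixed odometers -/

/-- Version of `asymp` for an arbitrary odometer with `n` visited columns. -/
theorem asymp' (ε : ℝ) (hε : 0 < ε) : ∃ N : ℕ, ∀ n : ℕ, N ≤ n →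
    ∀ (M : ℕ) (l r : ℤ) (u : ℤ → ℤ → ℕ), Odo M l r u → r - l = n → n ≤ M →
    ∃ (a : ℤ) (j : ℕ), l = -a ∧ 5 ≤ M ∧
      r + a = n ∧ (j : ℤ) ≤ a ∧ 4 * a + 2 < j * (j + 1) ∧ (j : ℝ) ≤ ε * n ∧
      (a : ℝ) ≤ (1 / 4 + ε) * n ∧ (1 / 4 - ε) * n ≤ a := by
  obtain ⟨δ, hδ0, hδ8, hδε⟩ : ∃ δ : ℝ, 0 < δ ∧ δ ≤ 1 / 8 ∧ δ ≤ ε :=
    ⟨min ε (1 / 8), by positivity, min_le_right _ _, min_le_left _ _⟩
  obtain ⟨N, hN⟩ := exists_nat_ge (max (100 : ℝ) (max (2 / δ) (32 / δ ^ 2)))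
  refine ⟨N, fun n hn M l r u hodo hrl hnM => ?_⟩
  have hnR : (N : ℝ) ≤ n := by exact_mod_cast hn
  have hn1 : (100 : ℝ) ≤ n := le_trans (le_trans (le_max_left _ _) hN) hnR
  have hn2 : 2 / δ ≤ n := le_trans (le_trans (le_trans (le_max_left _ _) (le_max_right _ _)) hN) hnR
  have hn3 : 32 / δ ^ 2 ≤ n :=
    le_trans (le_trans (le_trans (le_max_right _ _) (le_max_right _ _)) hN) hnR
  rw [div_le_iff₀ (by positivity)] at hn2 hn3
  have hn1' : 100 ≤ n := by exact_mod_cast hn1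
  obtain ⟨a, rfl⟩ : ∃ a : ℤ, l = -a := ⟨-l, by ring⟩
  have ha := hodo.a_nonneg
  have hr := hodo.hr
  have hrle := hodo.r_le
  obtain ⟨b, hb⟩ : ∃ b : ℕ, a = b := ⟨a.toNat, by omega⟩
  set s := Nat.sqrt (4 * b + 4) with hs
  have hs1 : s * s ≤ 4 * b + 4 := Nat.sqrt_le _
  have hs2 : 4 * b + 4 < (s + 1) * (s + 1) := Nat.lt_succ_sqrt _
  have hbn : (b : ℝ) ≤ n := by
    have : (b : ℤ) ≤ n := by omega
    exact_mod_cast this
  have hsR : (s : ℝ) * s ≤ 4 * n + 4 := by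
    have : (s : ℝ) * s ≤ 4 * b + 4 := by exact_mod_cast hs1
    linarith
  have hsδ : (s : ℝ) + 1 ≤ δ * n := by
    by_contra hc
    push Not at hc
    have h1 : δ * n / 2 < s := by nlinarith
    have h2 : (δ * n / 2) * (δ * n / 2) < s * s := by
      apply mul_self_lt_mul_self (by positivity) h1
    nlinarith
  have han : (n : ℝ) ≤ 4 * a + 5 := by
    have : (n : ℤ) ≤ 4 * a + 5 := by omega
    exact_mod_cast this
  have hja : ((s + 1 : ℕ) : ℤ) ≤ a := by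
    have : ((s + 1 : ℕ) : ℝ) ≤ a := by
      push_cast
      nlinarith
    exact_mod_cast this
  have hj2 : 4 * a + 2 < ((s + 1 : ℕ) : ℤ) * (((s + 1 : ℕ) : ℤ) + 1) := by
    have : (4 * b + 4 : ℤ) < ((s + 1 : ℕ) : ℤ) * ((s + 1 : ℕ) : ℤ) := by exact_mod_cast hs2
    rw [hb]
    nlinarith
  obtain ⟨hext, -, -⟩ := hodo.exterior (by omega) (s + 1) hja hj2
  refine ⟨a, s + 1, rfl, by omega, by omega, hja, hj2, ?_, ?_, ?_⟩
  · push_cast
    nlinarith
  · have h1 : (4 * a - 3 * ((s + 1 : ℕ) : ℤ)) ≤ n := by omega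
    have h2 : (4 * (a : ℝ) - 3 * (s + 1)) ≤ n := by exact_mod_cast h1
    nlinarith
  · nlinarith

/-- The asymptotic description for the fixed odometers `uN n`. -/
theorem asympN (ε : ℝ) (hε : 0 < ε) : ∃ N : ℕ, ∀ n : ℕ, N ≤ n →
    ∃ (M : ℕ) (a r : ℤ) (j : ℕ), Odo M (-a) r (uN n) ∧ rho n = confOf (uN n) ∧ 5 ≤ M ∧
      r + a = n ∧ (j : ℤ) ≤ a ∧ 4 * a + 2 < j * (j + 1) ∧ (j : ℝ) ≤ ε * n ∧
      (a : ℝ) ≤ (1 / 4 + ε) * n ∧ (1 / 4 - ε) * n ≤ a := by
  obtain ⟨N, hN⟩ := asymp' ε hε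
  refine ⟨max N 1, fun n hn => ?_⟩
  obtain ⟨M, l, r, hodo, hconf, hrl, hnM⟩ := uN_spec (le_trans (le_max_right _ _) hn)
  obtain ⟨a, j, rfl, h5, hra, h1, h2, h3, h4, h5'⟩ :=
    hN n (le_trans (le_max_left _ _) hn) M l r (uN n) hodo hrl hnM
  exact ⟨M, a, r, j, hodo, hconf, h5, hra, h1, h2, h3, h4, h5'⟩

/-- The position of the first visited column. -/
theorem tendsto_aN : Tendsto (fun n => (aN n : ℝ) / n) atTop (𝓝 (1 / 4)) := by
  rw [Metric.tendsto_atTop]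
  intro ε hε
  obtain ⟨N, hN⟩ := asymp' (ε / 2) (half_pos hε)
  refine ⟨max N 1, fun n hn => ?_⟩
  obtain ⟨h1, h2, h3, h4, -⟩ := uN_full (le_trans (le_max_right _ _) hn)
  obtain ⟨a, j, ha, -, -, -, -, -, h8, h9⟩ := hN n (le_trans (le_max_left _ _) hn) _ _ _ _ h1
    (by rw [sub_neg_eq_add]; exact h3) h4
  obtain rfl : a = aN n := by omega
  have hn0 : (0 : ℝ) < n := by
    have : 1 ≤ n := le_trans (le_max_right _ _) hn
    exact_mod_cast this
  rw [Real.dist_eq, abs_lt]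
  constructor
  · have : 1 / 4 - ε / 2 ≤ (aN n : ℝ) / n := by rw [le_div_iff₀ hn0]; exact h9
    linarith
  · have : (aN n : ℝ) / n ≤ 1 / 4 + ε / 2 := by rw [div_le_iff₀ hn0]; exact h8
    linarith

/-- The position of the last visited column. -/
theorem tendsto_rN : Tendsto (fun n => (rN n : ℝ) / n) atTop (𝓝 (3 / 4)) := by
  have h := tendsto_aN.const_sub 1
  norm_num at h
  refine h.congr' ?_
  filter_upwards [eventually_ge_atTop 1] with n hn
  obtain ⟨-, -, h3, -⟩ := uN_full hn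
  have h4 : (rN n : ℝ) + aN n = n := by exact_mod_cast h3
  have hn0 : (n : ℝ) ≠ 0 := by
    have : (0 : ℝ) < n := by exact_mod_cast hn
    exact this.ne'
  rw [eq_div_iff hn0, sub_mul, div_mul_cancel₀ _ hn0]
  linarith

end RotorNE
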