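import Mathlib.Tactic
import Mathlib.Data.Nat.Nth
import Mathlib.Order.Filter.AtTopBot.Basic
import Mathlib.Algebra.BigOperators.Intervals
import Mathlib.Data.Int.Interval
import Pool.Agent.Lib.MP_936783_pr.Contact

/-!
# The truncated odometer is a rotor field
-/

open Finset

namespace RotorNE

variable {M : ℕ} {r a : ℤ} {u : ℤ → ℤ → ℕ}

theorem tele (f : ℤ → ℤ) (x1 : ℤ) (K : ℕ) :
    ∑ i ∈ range K, (f (x1 + i) - f (x1 + i - 1)) = f (x1 + K - 1) - f (x1 - 1) := by
  induction K with
  | zero => simp
  | succ K ih =>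
    rw [Finset.sum_range_succ, ih]
    push_cast
    rw [show x1 + ((K : ℤ) + 1) - 1 = x1 + K by ring]
    ring

/-- The flux identity on a box. -/
theorem box_flux (w : ℤ → ℤ → ℤ) (x1 y1 : ℤ) (K L : ℕ) :
    ∑ j ∈ range L, ∑ i ∈ range K, (FZ w (x1 + i) (y1 + j) - w (x1 + i) (y1 + j)) =
      ∑ j ∈ range L, (fA w (x1 + K - 1) (y1 + j) - fA w (x1 - 1) (y1 + j)) +
      ∑ i ∈ range K, (fB w (x1 + i) (y1 + L - 1) - fB w (x1 + i) (y1 - 1)) := by
  have h1 : ∀ x y, FZ w x y - w x y =
      (fA w x y - fA w (x - 1) y) + (fB w x y - fB w x (y - 1)) := by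
    intro x y
    have := fdiv w x y
    linarith
  simp only [h1, Finset.sum_add_distrib]
  congr 1
  · refine Finset.sum_congr rfl (fun j _ => ?_)
    exact tele (fun x => fA w x (y1 + j)) x1 K
  · rw [Finset.sum_comm]
    refine Finset.sum_congr rfl (fun i _ => ?_)
    exact tele (fun y => fB w (x1 + i) y) y1 L

/-- Conservation of particles. -/
theorem Odo.flux_origin (h : Odo M (-a) r u) : FZ (toZ u) 0 0 = M - (r + a) := by
  obtain ⟨Y, hY⟩ := h.far
  have hr := h.hr
  have ha := h.a_nonneg
  have hoff : ∀ x y, (x < -a ∨ r ≤ x) → toZ u x y = 0 := by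
    intro x y hx
    unfold toZ
    rw [h.off x y hx]
    rfl
  have hlow : ∀ x y : ℤ, y < -(M : ℤ) → toZ u x y = 0 := by
    intro x y hy
    unfold toZ
    rw [h.low hy]
    rfl
  have key := box_flux (toZ u) (-a - 1) (-M - 1) (r + a + 2).toNat (M + 2 + |Y|).toNat
  have hK : (((r + a + 2).toNat : ℕ) : ℤ) = r + a + 2 := by omega
  have hL : (((M + 2 + |Y|).toNat : ℕ) : ℤ) = M + 2 + |Y| := by
    have := abs_nonneg Y
    omega
  have hYabs := le_abs_self Y
  have hY0 := abs_nonneg Y
  -- left-hand side
  have hlhs : ∑ j ∈ range (M + 2 + |Y|).toNat, ∑ i ∈ range (r + a + 2).toNat,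
      (FZ (toZ u) (-a - 1 + i) (-M - 1 + j) - toZ u (-a - 1 + i) (-M - 1 + j)) =
      FZ (toZ u) 0 0 - M := by
    by_cases hr0 : r = 0
    · have h0 := h.hr0 hr0
      obtain ⟨h1, h2⟩ := h0
      have hz : ∀ x y, toZ u x y = 0 := by
        intro x y
        by_cases hx : x < 0
        · exact hoff x y (Or.inl (by omega))
        · exact hoff x y (Or.inr (by omega))
      simp [FZ, hz, h2]
    rw [Finset.sum_eq_single (M + 1)]
    · rw [Finset.sum_eq_single (a + 1).toNat]
      · have e1 : -a - 1 + (((a + 1).toNat : ℕ) : ℤ) = 0 := by omega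
        have e2 : -(M : ℤ) - 1 + ((M + 1 : ℕ) : ℤ) = 0 := by push_cast; ring
        rw [e1, e2]
        congr 1
        unfold toZ
        rw [h.orig]
      · intro i _ hi
        have : FZ (toZ u) (-a - 1 + i) (-M - 1 + (M + 1 : ℕ)) =
            toZ u (-a - 1 + i) (-M - 1 + (M + 1 : ℕ)) := h.balZ (by omega)
        rw [this]
        ring
      · intro hi
        exfalso
        apply hi
        rw [Finset.mem_range]
        omega
    · intro j _ hj
      refine Finset.sum_eq_zero (fun i _ => ?_)
      have : FZ (toZ u) (-a - 1 + i) (-M - 1 + j) =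
          toZ u (-a - 1 + i) (-M - 1 + j) := h.balZ (by omega)
      rw [this]
      ring
    · intro hj
      exfalso
      apply hj
      rw [Finset.mem_range]
      omega
  have hrhs1 : ∑ j ∈ range (M + 2 + |Y|).toNat,
      (fA (toZ u) (-a - 1 + ((r + a + 2).toNat : ℕ) - 1) (-M - 1 + j) -
        fA (toZ u) (-a - 1 - 1) (-M - 1 + j)) = 0 := by
    refine Finset.sum_eq_zero (fun j _ => ?_)
    rw [hK, show -a - 1 + (r + a + 2) - 1 = r by ring]
    unfold fA
    rw [hoff (r + 1) _ (Or.inr (by omega)), hoff r _ (Or.inr le_rfl),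
      hoff (-a - 1 - 1) _ (Or.inl (by omega)), hoff (-a - 1 - 1 + 1) _ (Or.inl (by omega))]
    norm_num
  have hrhs2 : ∑ i ∈ range (r + a + 2).toNat,
      (fB (toZ u) (-a - 1 + i) (-M - 1 + ((M + 2 + |Y|).toNat : ℕ) - 1) -
        fB (toZ u) (-a - 1 + i) (-M - 1 - 1)) = -(r + a) := by
    have e1 : ∀ i ∈ range (r + a + 2).toNat,
        (fB (toZ u) (-a - 1 + i) (-M - 1 + ((M + 2 + |Y|).toNat : ℕ) - 1) -
        fB (toZ u) (-a - 1 + i) (-M - 1 - 1)) =
        -1 + ((if i = 0 then 1 else 0) + (if i = (r + a + 1).toNat then 1 else 0)) := by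
      intro i hi
      rw [Finset.mem_range] at hi
      rw [hL, show -(M : ℤ) - 1 + (M + 2 + |Y|) - 1 = |Y| by ring]
      unfold fB
      rw [hlow _ (-M - 1 - 1) (by omega), hlow _ (-M - 1 - 1 + 1) (by omega)]
      by_cases h1 : i = 0
      · subst h1
        rw [if_pos rfl, if_neg (by omega), hoff _ _ (Or.inl (by push_cast; omega)),
          hoff _ _ (Or.inl (by push_cast; omega))]
        norm_num
      · by_cases h2 : i = (r + a + 1).toNat
        · rw [if_neg h1, if_pos h2, hoff _ _ (Or.inr (by omega)), hoff _ _ (Or.inr (by omega))]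
          norm_num
        · rw [if_neg h1, if_neg h2]
          have e2 : toZ u (-a - 1 + i) |Y| = 1 := by
            unfold toZ
            rw [hY _ _ (by omega) (by omega) hYabs]
            rfl
          have e3 : toZ u (-a - 1 + i) (|Y| + 1) = 1 := by
            unfold toZ
            rw [hY _ _ (by omega) (by omega) (by omega)]
            rfl
          rw [e2, e3]
          norm_num
    rw [Finset.sum_congr rfl e1, Finset.sum_add_distrib, Finset.sum_const, Finset.card_range,
      Finset.sum_add_distrib, Finset.sum_ite_eq' , Finset.sum_ite_eq', if_pos, if_pos]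
    · rw [nsmul_eq_mul, hK]
      ring
    · rw [Finset.mem_range]; omega
    · rw [Finset.mem_range]; omega
  rw [hlhs, hrhs1, hrhs2] at key
  linarith

/-- The truncated odometer. -/
def trunc (u : ℤ → ℤ → ℕ) (Y : ℤ) : ℤ → ℤ → ℤ := fun x y => if y < Y then (u x y : ℤ) else 0

/-- The sinks of the truncated odometer. -/
def truncZ (a r Y : ℤ) : ℤ → ℤ → Prop := fun x y => y = Y ∧ -a ≤ x ∧ x < r

theorem trunc_lt (u : ℤ → ℤ → ℕ) {Y y : ℤ} (x : ℤ) (h : y < Y) : trunc u Y x y = u x y := by
  unfold trunc
  rw [if_pos h]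

theorem trunc_ge (u : ℤ → ℤ → ℕ) {Y y : ℤ} (x : ℤ) (h : Y ≤ y) : trunc u Y x y = 0 := by
  unfold trunc
  rw [if_neg (by omega)]

/-- The sites of the column `r - 1` have been exited at most once. -/
theorem Odo.last_col (h : Odo M (-a) r u) (y : ℤ) : u (r - 1) y ≤ 1 := by
  have hr := h.hr
  by_cases hr0 : r = 0
  · obtain ⟨h1, h2⟩ := h.hr0 hr0
    rw [h.off (r - 1) y (Or.inl (by omega))]
    omega
  have h1 := h.bal r y (by omega)
  rw [h.off r y (Or.inr le_rfl)] at h1
  unfold F at h1
  omega

/-- The truncated odometer is a rotor field. -/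
theorem Odo.rf (h : Odo M (-a) r u)
    (hac : ∀ D : Finset (ℤ × ℤ), D.Nonempty → (∀ p ∈ D, 1 ≤ u p.1 p.2) →
      ∃ p ∈ D, lastNb (toZ u) p ∉ D) {Y : ℤ} (hY0 : 1 < Y)
    (hY : ∀ x y, -a ≤ x → x < r → Y - 1 ≤ y → u x y = 1) :
    RF (r + a) (truncZ a r Y) (trunc u Y) := by
  have hr := h.hr
  have ha := h.a_nonneg
  have hoff : ∀ x y, (x < -a ∨ r ≤ x) → trunc u Y x y = 0 := by
    intro x y hx
    unfold trunc
    rw [h.off x y hx]
    simp
  have hrow : ∀ x, trunc u Y x (Y - 1) = 0 ∨ trunc u Y x (Y - 1) = 1 := by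
    intro x
    by_cases hx : x < -a ∨ r ≤ x
    · exact Or.inl (hoff x _ hx)
    · right
      rw [trunc_lt u x (by omega), hY x (Y - 1) (by omega) (by omega) le_rfl]
      rfl
  -- fields near the sinks
  have hFZ : ∀ x y, y < Y → FZ (trunc u Y) x y = FZ (toZ u) x y := by
    intro x y hy
    unfold FZ
    have e1 : trunc u Y x (y - 1) = toZ u x (y - 1) := trunc_lt u x (by omega)
    have e2 : trunc u Y (x - 1) y = toZ u (x - 1) y := trunc_lt u _ hy
    have e4 : trunc u Y (x + 1) y = toZ u (x + 1) y := trunc_lt u _ hy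
    have e3 : (trunc u Y x (y + 1) + 1) / 4 = (toZ u x (y + 1) + 1) / 4 := by
      by_cases h1 : y + 1 < Y
      · rw [trunc_lt u x h1]; rfl
      · rw [trunc_ge u x (by omega)]
        have : toZ u x (y + 1) = 0 ∨ toZ u x (y + 1) = 1 := by
          unfold toZ
          by_cases hx : x < -a ∨ r ≤ x
          · rw [h.off x _ hx]; left; rfl
          · rw [hY x _ (by omega) (by omega) (by omega)]; right; rfl
        rcases this with h2 | h2 <;> rw [h2] <;> norm_num
    rw [e1, e2, e3, e4]
  refine ⟨?_, ?_, ?_, ?_, ?_, ?_⟩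
  · intro x y hxy hZ
    by_cases hy : y < Y
    · rw [hFZ x y hy, h.balZ hxy, trunc_lt u x hy]
      rfl
    · have e0 : trunc u Y x y = 0 := trunc_ge u x (by omega)
      have e2 : trunc u Y (x - 1) y = 0 := trunc_ge u _ (by omega)
      have e3 : trunc u Y x (y + 1) = 0 := trunc_ge u _ (by omega)
      have e4 : trunc u Y (x + 1) y = 0 := trunc_ge u _ (by omega)
      have e1 : trunc u Y x (y - 1) = 0 := by
        by_cases h1 : y = Y
        · refine hoff x _ ?_
          by_contra hc
          exact hZ ⟨h1, by omega, by omega⟩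
        · exact trunc_ge u x (by omega)
      unfold FZ
      rw [e0, e1, e2, e3, e4]
      norm_num
  · rw [hFZ 0 0 (by omega), h.flux_origin, trunc_lt u 0 (by omega), h.orig]
  · intro D hD
    by_contra hcon
    push Not at hcon
    classical
    -- sites with `cut = 0` move west
    have hW : ∀ p : ℤ × ℤ, trunc u Y p.1 p.2 = 0 → lastNb (trunc u Y) p = (p.1 - 1, p.2) := by
      intro p hp
      unfold lastNb
      rw [hp]
      simp [lastDir, Dir.vec, Prod.ext_iff, sub_eq_add_neg]
    -- rows above the cut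
    have hcap : ∀ p ∈ D, p.2 < Y := by
      intro p hp
      by_contra hc
      have hall : ∀ k : ℕ, (p.1 - k, p.2) ∈ D := by
        intro k
        induction k with
        | zero => simpa using hp
        | succ k ih =>
          have h1 := hcon _ ih
          rw [hW _ (trunc_ge u _ (by simpa using hc))] at h1
          push_cast
          rw [show p.1 - ((k : ℤ) + 1) = p.1 - k - 1 by ring]
          exact h1
      have hinj : Function.Injective (fun k : ℕ => ((p.1 - k, p.2) : ℤ × ℤ)) := by
        intro k k' hk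
        simp only [Prod.mk.injEq] at hk
        omega
      exact Set.not_injOn_infinite_finite_image
        (f := fun k : ℕ => ((p.1 - k, p.2) : ℤ × ℤ)) Set.infinite_univ
        (Set.Finite.subset (Finset.finite_toSet D) (by
          rintro _ ⟨k, -, rfl⟩
          exact hall k)) hinj.injOn
    by_cases hvis : ∃ p ∈ D, 1 ≤ u p.1 p.2
    · set D1 := D.filter (fun p => 1 ≤ u p.1 p.2) with hD1
      obtain ⟨p, hp, hp'⟩ := hac D1 (by
        obtain ⟨p, hp, hp'⟩ := hvis
        exact ⟨p, by rw [hD1, Finset.mem_filter]; exact ⟨hp, hp'⟩⟩) (by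
        intro p hp
        rw [hD1, Finset.mem_filter] at hp
        exact hp.2)
      rw [hD1, Finset.mem_filter] at hp
      have hpY := hcap p hp.1
      have e0 : lastNb (toZ u) p = lastNb (trunc u Y) p := by
        unfold lastNb
        rw [trunc_lt u _ hpY]
        rfl
      apply hp'
      rw [hD1, Finset.mem_filter]
      have hin : lastNb (toZ u) p ∈ D := by
        rw [e0]
        exact hcon p hp.1
      refine ⟨hin, ?_⟩
      -- the neighbour is visited
      obtain ⟨x, y⟩ := p
      simp only at hp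
      by_contra hne
      have hz : u (lastNb (toZ u) (x, y)).1 (lastNb (toZ u) (x, y)).2 = 0 := by omega
      have hn0 : ¬ ((lastNb (toZ u) (x, y)).1 = 0 ∧ (lastNb (toZ u) (x, y)).2 = 0) := by
        rintro ⟨g1, g2⟩
        rw [g1, g2, h.orig] at hz
        have hb : u x y ≤ M := h.least (fun _ _ => M) (by
          intro x y _
          unfold F
          simp only
          omega) le_rfl x y
        omega
      have hb := h.bal _ _ hn0
      rw [hz] at hb
      unfold F at hb
      unfold lastNb toZ at hb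
      simp only at hb
      rcases lastDir_cases (u x y : ℤ) with ⟨g, g'⟩ | ⟨g, g'⟩ | ⟨g, g'⟩ | ⟨g, g'⟩ <;>
      rw [g'] at hb <;> simp only [Dir.vec, Prod.mk_add_mk, add_zero, add_neg_cancel_right,
        neg_add_cancel_right, add_sub_cancel_right] at hb
      · omega
      · omega
      · omega
      · omega
    · push Not at hvis
      obtain ⟨p, hp⟩ := hD
      have hall : ∀ k : ℕ, (p.1 - k, p.2) ∈ D := by
        intro k
        induction k with
        | zero => simpa using hp
        | succ k ih =>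
          have h1 := hcon _ ih
          have h2 := hvis _ ih
          have h3 := hcap _ ih
          rw [hW _ (by rw [trunc_lt u _ h3]; simp only at h2 ⊢; omega)] at h1
          push_cast
          rw [show p.1 - ((k : ℤ) + 1) = p.1 - k - 1 by ring]
          exact h1
      have hinj : Function.Injective (fun k : ℕ => ((p.1 - k, p.2) : ℤ × ℤ)) := by
        intro k k' hk
        simp only [Prod.mk.injEq] at hk
        omega
      exact Set.not_injOn_infinite_finite_image
        (f := fun k : ℕ => ((p.1 - k, p.2) : ℤ × ℤ)) Set.infinite_univ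
        (Set.Finite.subset (Finset.finite_toSet D) (by
          rintro _ ⟨k, -, rfl⟩
          exact hall k)) hinj.injOn
  · refine ⟨max (max (a + 1) r) (max Y (M + 1)), 0, ?_⟩
    intro x y hxy
    have e1 : a + 1 ≤ max (max (a + 1) r) (max Y (M + 1)) := le_trans (le_max_left _ _) (le_max_left _ _)
    have e2 : r ≤ max (max (a + 1) r) (max Y (M + 1)) := le_trans (le_max_right _ _) (le_max_left _ _)
    have e3 : Y ≤ max (max (a + 1) r) (max Y ((M : ℤ) + 1)) := le_trans (le_max_left _ _) (le_max_right _ _)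
    have e4 : (M : ℤ) + 1 ≤ max (max (a + 1) r) (max Y ((M : ℤ) + 1)) := le_trans (le_max_right _ _) (le_max_right _ _)
    rcases hxy with hx | hy
    · refine hoff x y ?_
      rcases abs_cases x with ⟨g, _⟩ | ⟨g, _⟩ <;> omega
    · rcases abs_cases y with ⟨g, _⟩ | ⟨g, _⟩
      · exact trunc_ge u x (by omega)
      · rw [trunc_lt u x (by omega), h.low (by omega)]
        rfl
  · refine Or.inl ⟨0, ?_⟩
    rintro x y ⟨rfl, hx1, hx2⟩
    have e1 : trunc u y x (y - 1) = 1 := by
      rw [trunc_lt u x (by omega), hY x _ hx1 hx2 le_rfl]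
      rfl
    unfold fA fB
    rw [sub_add_cancel, sub_add_cancel, trunc_ge u x le_rfl, trunc_ge u (x - 1) le_rfl,
      trunc_ge u (x + 1) le_rfl, trunc_ge u x (by omega : y ≤ y + 1), e1]
    norm_num
  · rintro x y ⟨rfl, hx1, hx2⟩
    refine ⟨fun _ x' => ?_, fun _ x' => ?_, fun hz y' => ?_, fun hz y' => ?_⟩
    · unfold fnu
      rw [sub_add_cancel, trunc_ge u (x' + 1) le_rfl, trunc_ge u x' le_rfl]
      rcases hrow x' with g | g <;> rcases hrow (x' + 1) with g' | g' <;> rw [g, g'] <;>
        simp [ind4]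
    · unfold fnu
      rw [trunc_ge u (x' + 1) le_rfl, trunc_ge u x' le_rfl, trunc_ge u (x' + 1) (by omega : y ≤ y + 1),
        trunc_ge u x' (by omega : y ≤ y + 1)]
      simp [ind4]
    · have hx : x = -a := by
        by_contra hne
        exact hz ⟨rfl, by omega, by omega⟩
      unfold fnu
      rw [hoff (x - 1) y' (Or.inl (by omega)), hoff (x - 1) (y' + 1) (Or.inl (by omega))]
      simp only [ind4]
      split_ifs <;> omega
    · have hx : x = r - 1 := by
        by_contra hne
        exact hz ⟨rfl, by omega, by omega⟩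
      have e1 : trunc u y x (y' + 1) = 0 ∨ trunc u y x (y' + 1) = 1 := by
        by_cases hy : y' + 1 < y
        · rw [trunc_lt u x hy, hx]
          have := h.last_col (y' + 1)
          omega
        · left
          exact trunc_ge u x (by omega)
      unfold fnu
      rw [hoff (x + 1) y' (Or.inr (by omega)), hoff (x + 1) (y' + 1) (Or.inr (by omega))]
      rcases e1 with g | g <;> rw [g] <;> simp only [ind4] <;> split_ifs <;> omega

end RotorNE
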