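import Mathlib.Tactic
import Mathlib.Data.Nat.Nth
import Mathlib.Order.Filter.AtTopBot.Basic
import Mathlib.Algebra.BigOperators.Intervals
import Mathlib.Data.Int.Interval
import Pool.Agent.Lib.MP_936783_pr.Trunc
import Pool.Agent.Lib.MP_936783_pr.Orbit

/-!
# From rotor fields to levels
-/

namespace RotorNE

theorem nf_lastDir (w : ℤ → ℤ → ℤ) (x y : ℤ) :
    nf (fun x y => lastDir (w x y)) x y = fnu w x y := by
  have h1 : ∀ k : ℤ, (if lastDir k = .N then (1 : ℤ) else 0) = ind4 k 1 := by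
    intro k
    unfold ind4
    rcases lastDir_cases k with ⟨g, g'⟩ | ⟨g, g'⟩ | ⟨g, g'⟩ | ⟨g, g'⟩ <;> rw [g', g] <;> rfl
  have h2 : ∀ k : ℤ, (if lastDir k = .E then (1 : ℤ) else 0) = ind4 k 2 := by
    intro k
    unfold ind4
    rcases lastDir_cases k with ⟨g, g'⟩ | ⟨g, g'⟩ | ⟨g, g'⟩ | ⟨g, g'⟩ <;> rw [g', g] <;> rfl
  have h3 : ∀ k : ℤ, (if lastDir k = .S then (1 : ℤ) else 0) = ind4 k 3 := by
    intro k
    unfold ind4
    rcases lastDir_cases k with ⟨g, g'⟩ | ⟨g, g'⟩ | ⟨g, g'⟩ | ⟨g, g'⟩ <;> rw [g', g] <;> rfl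
  have h4 : ∀ k : ℤ, (if lastDir k = .W then (1 : ℤ) else 0) = ind4 k 0 := by
    intro k
    unfold ind4
    rcases lastDir_cases k with ⟨g, g'⟩ | ⟨g, g'⟩ | ⟨g, g'⟩ | ⟨g, g'⟩ <;> rw [g', g] <;> rfl
  unfold nf fnu
  simp only [h1, h2, h3, h4]
  ring

variable {n : ℤ} {Z : ℤ → ℤ → Prop} {w : ℤ → ℤ → ℤ} {a : ℤ}

theorem RF.fld (h : RF n Z w) : Fld (fA w) (fB w) (fun x y => lastDir (w x y))
    (fun x y => FZ w x y - w x y) where
  div := by
    intro x y
    have := fdiv w x y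
    linarith
  curl := by
    intro x y
    rw [nf_lastDir]
    have := fcurl w x y
    linarith
  acyc := h.acyc

theorem RF.kappa_sink (h : RF n Z w) {x y : ℤ} (hZ : Z x y) : FZ w x y - w x y = 1 := by
  have h1 := fdiv w x y
  rcases h.sink with ⟨α, hα⟩ | ⟨β, hβ⟩
  · obtain ⟨e1, e2, e3, e4⟩ := hα x y hZ
    omega
  · obtain ⟨e1, e2, e3, e4⟩ := hβ x y hZ
    omega

theorem RF.kappa_ne (h : RF n Z w) {x y : ℤ} (hxy : ¬ (x = 0 ∧ y = 0)) (hZ : ¬ Z x y) :
    FZ w x y - w x y = 0 := by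
  rw [h.bal x y hxy hZ]
  ring

/-- Rotor fields satisfy the hypotheses on levels. -/
theorem RF.lev (h : RF n Z w) (hn : 0 ≤ n) (hZ0 : ¬ Z 0 0)
    (hw2 : ∀ x y, Z x (y + 1) → fA w (x - 1) (y + 1) < a → a ≤ fA w x (y + 1) →
      a ≤ fA w x (y + 2)) :
    Lev (fA w) (fB w) (fun x y => lastDir (w x y)) (fun x y => FZ w x y - w x y) a where
  fld := h.fld
  k1 := by
    intro x y
    by_cases hZ : Z x y
    · rw [h.kappa_sink hZ]
    · by_cases hxy : x = 0 ∧ y = 0
      · obtain ⟨rfl, rfl⟩ := hxy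
        have := h.orig
        omega
      · rw [h.kappa_ne hxy hZ]
        norm_num
  k0 := by
    intro x y hxy
    by_cases hZ : Z x y
    · rw [h.kappa_sink hZ]
      norm_num
    · rw [h.kappa_ne hxy hZ]
  ko := by
    have := h.orig
    omega
  fin := by
    obtain ⟨R, α, β, hR⟩ := h.flow.fin
    refine ⟨R + 1, ?_⟩
    intro x y e hv
    have hα : ∀ x y, (R ≤ |x| ∨ R ≤ |y|) → fA w x y = α := fun x y hxy => (hR x y hxy).1
    have hcon : ∀ x1 y1 x2 y2, fA w x1 y1 < a → a ≤ fA w x2 y2 →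
        ¬ ((R ≤ |x1| ∨ R ≤ |y1|) ∧ (R ≤ |x2| ∨ R ≤ |y2|)) := by
      intro x1 y1 x2 y2 h1 h2 h3
      rw [hα x1 y1 h3.1] at h1
      rw [hα x2 y2 h3.2] at h2
      omega
    by_contra hc
    have hc' : R + 2 ≤ |x| ∨ R + 2 ≤ |y| := by omega
    have ax : ∀ z : ℤ, R + 2 ≤ |z| → R ≤ |z| ∧ R ≤ |z - 1| ∧ R ≤ |z + 1| := by
      intro z hz
      refine ⟨by omega, ?_, ?_⟩
      · have := abs_sub_abs_le_abs_sub z 1
        simp only [abs_one] at this
        omega
      · have := abs_sub_abs_le_abs_sub z (-1)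
        simp only [abs_neg, abs_one, sub_neg_eq_add] at this
        omega
    cases e
    · refine hcon (x - 1) (y + 1) x (y + 1) hv.1 hv.2 ?_
      rcases hc' with h1 | h1
      · exact ⟨Or.inl (ax x h1).2.1, Or.inl (ax x h1).1⟩
      · exact ⟨Or.inr (ax y h1).2.2, Or.inr (ax y h1).2.2⟩
    · refine hcon x (y + 1) x y hv.1 hv.2 ?_
      rcases hc' with h1 | h1
      · exact ⟨Or.inl (ax x h1).1, Or.inl (ax x h1).1⟩
      · exact ⟨Or.inr (ax y h1).2.2, Or.inr (ax y h1).1⟩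
    · refine hcon x y (x - 1) y hv.1 hv.2 ?_
      rcases hc' with h1 | h1
      · exact ⟨Or.inl (ax x h1).1, Or.inl (ax x h1).2.1⟩
      · exact ⟨Or.inr (ax y h1).1, Or.inr (ax y h1).1⟩
    · refine hcon (x - 1) y (x - 1) (y + 1) hv.1 hv.2 ?_
      rcases hc' with h1 | h1
      · exact ⟨Or.inl (ax x h1).2.1, Or.inl (ax x h1).2.1⟩
      · exact ⟨Or.inr (ax y h1).1, Or.inr (ax y h1).2.2⟩
  w2 := by
    intro x y hk hN hE
    have hZ : Z x (y + 1) := by
      by_contra hZ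
      by_cases hxy : x = 0 ∧ y + 1 = 0
      · obtain ⟨rfl, h1⟩ := hxy
        rw [h1] at hk
        have := h.orig
        omega
      · have := h.kappa_ne hxy hZ
        omega
    have h1 := hw2 x y hZ hN.1 hN.2
    have h2 : fA w x (y + 1 + 1) < a := hE.1
    rw [show y + 1 + 1 = y + 2 by ring] at h2
    omega
  w3 := by
    intro x y k hk hN hE
    have hZ : Z x (y + 1) := by
      by_contra hZ
      by_cases hxy : x = 0 ∧ y + 1 = 0
      · obtain ⟨rfl, h1⟩ := hxy
        rw [h1] at hk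
        have := h.orig
        omega
      · have := h.kappa_ne hxy hZ
        omega
    rcases h.sink with ⟨α, hα⟩ | ⟨β, hβ⟩
    · exfalso
      obtain ⟨e1, e2, e3, e4⟩ := hα x (y + 1) hZ
      have h1 : fA w (x - 1) (y + 1) < a := hN.1
      have h2 : a ≤ fA w x (y + 1) := hN.2
      omega
    · rcases Nat.eq_zero_or_pos k with rfl | hk0
      · simp
      by_cases hZ' : Z x y
      · exfalso
        obtain ⟨e1, e2, e3, e4⟩ := hβ x y hZ'
        obtain ⟨f1, f2, f3, f4⟩ := hβ x (y + 1) hZ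
        have h3 := (hE (k - 1) (by omega)).2
        rw [show x - (k : ℤ) + ((k - 1 : ℕ) : ℤ) = x - 1 by omega] at h3
        have h1 : fA w (x - 1) (y + 1) < a := hN.1
        omega
      · have hnu := (h.nuZ x (y + 1) hZ).1 (by rwa [add_sub_cancel_right])
        rw [add_sub_cancel_right] at hnu
        have key : ∀ i : ℕ, i ≤ k → fB w (x - k + i) y ≤ fB w (x - k) y := by
          intro i
          induction i with
          | zero => intro _; simp
          | succ i ih =>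
            intro hi
            have h1 := ih (by omega)
            have h2 := fcurl w (x - k + i) y
            have h3 := hnu (x - k + i)
            have h4 := (hE i (by omega)).1
            have h5 := (hE i (by omega)).2
            push_cast
            rw [show x - (k : ℤ) + ((i : ℤ) + 1) = x - k + i + 1 by ring]
            omega
        have := key k le_rfl
        rwa [sub_add_cancel] at this

variable {M : ℕ} {r : ℤ} {u : ℤ → ℤ → ℕ}

theorem truncZ_origin {Y : ℤ} (hY : 1 < Y) : ¬ truncZ a r Y 0 0 := by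
  rintro ⟨h, -, -⟩
  omega

/-- The levels of the truncated odometer. -/
theorem lev_trunc {Y : ℤ} (h : RF n (truncZ a r Y) (trunc u Y)) (hn : 0 ≤ n) (hY : 1 < Y) (k : ℤ) :
    Lev (fA (trunc u Y)) (fB (trunc u Y)) (fun x y => lastDir (trunc u Y x y))
      (fun x y => FZ (trunc u Y) x y - trunc u Y x y) k := by
  refine h.lev hn (truncZ_origin hY) ?_
  intro x y hZ h1 h2
  exfalso
  obtain ⟨h3, -, -⟩ := hZ
  unfold fA at h1 h2
  rw [sub_add_cancel, trunc_ge u _ (by omega), trunc_ge u _ (by omega)] at h1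
  rw [trunc_ge u _ (by omega), trunc_ge u _ (by omega)] at h2
  norm_num at h1 h2
  omega

/-- The levels of the rotated truncated odometer. -/
theorem lev_trunc_rot {Y : ℤ} (h : RF n (truncZ a r Y) (trunc u Y)) (hn : 0 ≤ n) (hY : 1 < Y)
    (k : ℤ) :
    Lev (fA (rotc (trunc u Y))) (fB (rotc (trunc u Y)))
      (fun x y => lastDir (rotc (trunc u Y) x y))
      (fun x y => FZ (rotc (trunc u Y)) x y - rotc (trunc u Y) x y) k := by
  refine h.rot.lev hn ?_ ?_
  · rintro ⟨h1, -, -⟩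
    omega
  · intro x y hZ h1 h2
    obtain ⟨h3, -, -⟩ := hZ
    subst h3
    rw [fA_rotc] at h2 ⊢
    unfold rotA fB at h2 ⊢
    rw [trunc_ge u _ (by omega), trunc_ge u _ (by omega)] at h2 ⊢
    exact h2

/-- The four fluxes out of the origin are large. -/
theorem Odo.range (h : Odo M (-a) r u) {Y : ℤ} (hY : 1 < Y) :
    fA (trunc u Y) 0 0 ≤ -((r + a - 24) / 4) ∧ (r + a - 24) / 4 ≤ fA (trunc u Y) (-1) 0 ∧
    fB (trunc u Y) 0 0 ≤ -((r + a - 24) / 4) ∧ (r + a - 24) / 4 ≤ fB (trunc u Y) 0 (-1) := by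
  have h1 := h.rotation 1 0
  have h2 := h.rotation 0 1
  have h3 := h.rotation (-1) 0
  have h4 := h.rotation 0 (-1)
  norm_num at h1 h2 h3 h4
  have h5 := h.flux_origin
  unfold FZ toZ at h5
  norm_num at h5
  have h6 := h.orig
  have e0 : trunc u Y 0 0 = M := by rw [trunc_lt u _ (by omega), h6]
  have e1 : trunc u Y 1 0 = u 1 0 := trunc_lt u _ (by omega)
  have e2 : trunc u Y 0 1 = u 0 1 := trunc_lt u _ (by omega)
  have e3 : trunc u Y (-1) 0 = u (-1) 0 := trunc_lt u _ (by omega)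
  have e4 : trunc u Y 0 (-1) = u 0 (-1) := trunc_lt u _ (by omega)
  unfold fA fB
  norm_num
  rw [e0, e1, e2, e3, e4]
  omega

end RotorNE
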