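import Mathlib.Tactic
import Mathlib.Data.Nat.Nth
import Mathlib.Order.Filter.AtTopBot.Basic
import Mathlib.Algebra.BigOperators.Intervals
import Mathlib.Data.Int.Interval
import Pool.Agent.Lib.MP_936783_pr.Adj

/-!
# Crossings of two level curves form a perfect diagonal chain
-/

open Filter

namespace RotorNE

variable {h v : ℤ → ℤ → ℤ} {d : ℤ → ℤ → Dir} {κ : ℤ → ℤ → ℤ} {a b : ℤ}
variable {T T' : ℕ} {p p' : ℕ → ℤ × ℤ} {e e' : ℕ → Dir}

/-- A crossing at the vertex `(x, y)`, passed to the north by the first curve. -/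
structure XN (h v : ℤ → ℤ → ℤ) (a b : ℤ) (T : ℕ) (p : ℕ → ℤ × ℤ) (e : ℕ → Dir)
    (T' : ℕ) (p' : ℕ → ℤ × ℤ) (e' : ℕ → Dir) (t s : ℕ) (x y : ℤ) : Prop where
  t1 : 1 ≤ t
  t2 : t < T
  et : e t = .N
  pt : p t = (x, y - 1)
  pt1 : p (t + 1) = (x, y)
  s1 : 1 ≤ s
  s2 : s < T'
  es : e' s = .S
  ps : p' s = (y, -x)
  ps1 : p' (s + 1) = (y, -x - 1)
  v1 : b ≤ v x (y - 1)
  v2 : v x y < b
  h1 : h (x - 1) y < a
  h2 : a ≤ h x y

/-- A crossing at the vertex `(x, y)`, passed to the south by the first curve. -/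
structure XS (h v : ℤ → ℤ → ℤ) (a b : ℤ) (T : ℕ) (p : ℕ → ℤ × ℤ) (e : ℕ → Dir)
    (T' : ℕ) (p' : ℕ → ℤ × ℤ) (e' : ℕ → Dir) (t s : ℕ) (x y : ℤ) : Prop where
  t1 : 1 ≤ t
  t2 : t < T
  et : e t = .S
  pt : p t = (x, y)
  pt1 : p (t + 1) = (x, y - 1)
  s1 : 1 ≤ s
  s2 : s < T'
  es : e' s = .N
  ps : p' s = (y, -x - 1)
  ps1 : p' (s + 1) = (y, -x)
  v1 : b ≤ v x y
  v2 : v x (y - 1) < b
  h1 : h x y < a
  h2 : a ≤ h (x - 1) y

/-- A crossing at the face with south-west corner `(x, y)`, passed to the east by the first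
curve. -/
structure XE (h v : ℤ → ℤ → ℤ) (a b : ℤ) (T : ℕ) (p : ℕ → ℤ × ℤ) (e : ℕ → Dir)
    (T' : ℕ) (p' : ℕ → ℤ × ℤ) (e' : ℕ → Dir) (t s : ℕ) (x y : ℤ) : Prop where
  t1 : 1 ≤ t
  t2 : t < T
  et : e t = .E
  pt : p t = (x, y)
  pt1 : p (t + 1) = (x + 1, y)
  s1 : 1 ≤ s
  s2 : s < T'
  es : e' s = .W
  ps : p' s = (y + 1, -x - 1)
  ps1 : p' (s + 1) = (y, -x - 1)
  v1 : b ≤ v x y
  v2 : v (x + 1) y < b
  h1 : h x (y + 1) < a
  h2 : a ≤ h x y

/-- A crossing at the face with south-west corner `(x, y)`, passed to the west by the first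
curve. -/
structure XW (h v : ℤ → ℤ → ℤ) (a b : ℤ) (T : ℕ) (p : ℕ → ℤ × ℤ) (e : ℕ → Dir)
    (T' : ℕ) (p' : ℕ → ℤ × ℤ) (e' : ℕ → Dir) (t s : ℕ) (x y : ℤ) : Prop where
  t1 : 1 ≤ t
  t2 : t < T
  et : e t = .W
  pt : p t = (x + 1, y)
  pt1 : p (t + 1) = (x, y)
  s1 : 1 ≤ s
  s2 : s < T'
  es : e' s = .E
  ps : p' s = (y, -x - 1)
  ps1 : p' (s + 1) = (y + 1, -x - 1)
  v1 : b ≤ v (x + 1) y
  v2 : v x y < b
  h1 : h x y < a
  h2 : a ≤ h x (y + 1)

/-- A crossing of the first curve. -/
theorem Pair.cross (P : Pair h v d κ a b T p e T' p' e') {t : ℕ} (ht1 : 1 ≤ t) (ht2 : t < T)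
    (hV1 : b ≤ v (p t).1 (p t).2) (hV2 : v (p (t + 1)).1 (p (t + 1)).2 < b) :
    ∃ s x y, XN h v a b T p e T' p' e' t s x y ∨ XS h v a b T p e T' p' e' t s x y ∨
      XE h v a b T p e T' p' e' t s x y ∨ XW h v a b T p e T' p' e' t s x y := by
  have hstep := P.C.step t ht2
  have hval := P.C.val t ht2
  obtain ⟨⟨x, y⟩, hp⟩ : ∃ q, p t = q := ⟨_, rfl⟩
  rw [hp] at hstep hval hV1
  rw [hstep] at hV2
  cases he : e t
  · rw [he] at hstep hval hV2
    simp only [Dir.vec, Prod.mk_add_mk, add_zero] at hstep hV2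
    simp only [Val] at hval hV1
    obtain ⟨m, m1, m2, m3, m4, m5⟩ := P.crossN (x := x) (y := y + 1) hval.1
      (by rwa [add_sub_cancel_right]) hV2
    exact ⟨m, x, y + 1, Or.inl ⟨ht1, ht2, he, by rw [hp, add_sub_cancel_right], hstep, m1, m2, m3,
      m4, m5, by rwa [add_sub_cancel_right], hV2, hval.1, hval.2⟩⟩
  · rw [he] at hstep hval hV2
    simp only [Dir.vec, Prod.mk_add_mk, add_zero] at hstep hV2
    simp only [Val] at hval hV1
    obtain ⟨m, m1, m2, m3, m4, m5⟩ := P.crossE (x := x) (y := y) hV1 hV2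
    exact ⟨m, x, y, Or.inr (Or.inr (Or.inl ⟨ht1, ht2, he, hp, hstep, m1, m2, m3,
      m4, m5, hV1, hV2, hval.1, hval.2⟩))⟩
  · rw [he] at hstep hval hV2
    simp only [Dir.vec, Prod.mk_add_mk, add_zero] at hstep hV2
    rw [← sub_eq_add_neg] at hstep hV2
    simp only [Val] at hval hV1
    obtain ⟨m, m1, m2, m3, m4, m5⟩ := P.crossS (x := x) (y := y) hV1 hV2
    exact ⟨m, x, y, Or.inr (Or.inl ⟨ht1, ht2, he, hp, hstep, m1, m2, m3,
      m4, m5, hV1, hV2, hval.1, hval.2⟩)⟩
  · rw [he] at hstep hval hV2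
    simp only [Dir.vec, Prod.mk_add_mk, add_zero] at hstep hV2
    rw [← sub_eq_add_neg] at hstep hV2
    simp only [Val] at hval hV1
    obtain ⟨m, m1, m2, m3, m4, m5⟩ := P.crossW (x := x - 1) (y := y) (by rwa [sub_add_cancel]) hV2
    exact ⟨m, x - 1, y, Or.inr (Or.inr (Or.inr ⟨ht1, ht2, he, by rw [hp, sub_add_cancel], hstep,
      m1, m2, m3, m4, m5, by rwa [sub_add_cancel], hV2, hval.1, hval.2⟩))⟩

/-- A crossing of the second curve. -/
theorem Pair.cross' (P : Pair h v d κ a b T p e T' p' e') {s : ℕ} (hs1 : 1 ≤ s) (hs2 : s < T')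
    (hV1 : h (-(p' s).2 - 1) (p' s).1 < a) (hV2 : a ≤ h (-(p' (s + 1)).2 - 1) (p' (s + 1)).1) :
    ∃ t x y, XN h v a b T p e T' p' e' t s x y ∨ XS h v a b T p e T' p' e' t s x y ∨
      XE h v a b T p e T' p' e' t s x y ∨ XW h v a b T p e T' p' e' t s x y := by
  have hstep := P.C'.step s hs2
  have hval := P.C'.val s hs2
  obtain ⟨X, Y, hp⟩ : ∃ X Y : ℤ, p' s = (Y, -X - 1) := by
    refine ⟨-(p' s).2 - 1, (p' s).1, ?_⟩
    ext
    · rfl
    · simp only; ring
  rw [hp] at hstep hval hV1
  rw [hstep] at hV2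
  simp only at hV1 hval
  rw [show -(-X - 1) - 1 = X by ring] at hV1
  cases he : e' s
  · -- N : old west
    rw [he] at hstep hval hV2
    simp only [Dir.vec, Prod.mk_add_mk, add_zero, sub_add_cancel] at hstep hV2
    rw [valV_N] at hval
    rw [show - -X - 1 = X - 1 by ring] at hV2
    obtain ⟨k, hk, hpk, hek⟩ := P.C.all X Y .S ⟨hV1, hV2⟩
    have hk1 : 1 ≤ k := by
      rcases Nat.eq_zero_or_pos k with h0 | h0
      · exfalso
        rw [h0, P.C.p0] at hpk
        have e1 : X = 0 := (congrArg Prod.fst hpk).symm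
        have e2 : Y = 0 := (congrArg Prod.snd hpk).symm
        rw [e1, e2] at hval
        have := P.rangeV
        omega
      · exact h0
    have hst := P.C.step k hk
    rw [hpk, hek] at hst
    simp only [Dir.vec, Prod.mk_add_mk, add_zero] at hst
    rw [← sub_eq_add_neg] at hst
    exact ⟨k, X, Y, Or.inr (Or.inl ⟨hk1, hk, hek, hpk, hst, hs1, hs2, he, hp, hstep, hval.2,
      hval.1, hV1, hV2⟩)⟩
  · -- E : old north
    rw [he] at hstep hval hV2
    simp only [Dir.vec, Prod.mk_add_mk, add_zero] at hstep hV2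
    rw [valV_E] at hval
    rw [show -(-X - 1) - 1 = X by ring] at hV2
    obtain ⟨k, hk, hpk, hek⟩ := P.C.all (X + 1) Y .W
      ⟨by rwa [add_sub_cancel_right], by rwa [add_sub_cancel_right]⟩
    have hk1 : 1 ≤ k := by
      rcases Nat.eq_zero_or_pos k with h0 | h0
      · exfalso
        rw [h0, P.C.e0] at hek
        cases hek
      · exact h0
    have hst := P.C.step k hk
    rw [hpk, hek] at hst
    simp only [Dir.vec, Prod.mk_add_mk, add_zero] at hst
    rw [← sub_eq_add_neg, add_sub_cancel_right] at hst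
    exact ⟨k, X, Y, Or.inr (Or.inr (Or.inr ⟨hk1, hk, hek, hpk, hst, hs1, hs2, he, hp, hstep,
      hval.2, hval.1, hV1, hV2⟩))⟩
  · -- S : old east
    rw [he] at hstep hval hV2
    simp only [Dir.vec, Prod.mk_add_mk, add_zero] at hstep hV2
    rw [valV_S] at hval
    rw [show -(-X - 1 + -1) - 1 = X + 1 by ring] at hV2
    obtain ⟨k, hk, hpk, hek⟩ := P.C.all (X + 1) (Y - 1) .N
      ⟨by rwa [add_sub_cancel_right, sub_add_cancel], by rwa [sub_add_cancel]⟩
    have hk1 : 1 ≤ k := by
      rcases Nat.eq_zero_or_pos k with h0 | h0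
      · exfalso
        rw [h0, P.C.e0] at hek
        cases hek
      · exact h0
    have hst := P.C.step k hk
    rw [hpk, hek] at hst
    simp only [Dir.vec, Prod.mk_add_mk, add_zero, sub_add_cancel] at hst
    refine ⟨k, X + 1, Y, Or.inl ⟨hk1, hk, hek, hpk, hst, hs1, hs2, he, ?_, ?_,
      hval.2, hval.1, ?_, hV2⟩⟩
    · rw [hp]; congr 1; ring
    · rw [hstep]; congr 1; ring
    · rwa [add_sub_cancel_right]
  · -- W : old south
    rw [he] at hstep hval hV2
    simp only [Dir.vec, Prod.mk_add_mk, add_zero] at hstep hV2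
    rw [← sub_eq_add_neg] at hstep hV2
    rw [valV_W] at hval
    rw [show -(-X - 1) - 1 = X by ring] at hV2
    obtain ⟨k, hk, hpk, hek⟩ := P.C.all X (Y - 1) .E
      ⟨by rwa [sub_add_cancel], hV2⟩
    have hk1 : 1 ≤ k := by
      rcases Nat.eq_zero_or_pos k with h0 | h0
      · exfalso
        rw [h0, P.C.e0] at hek
        cases hek
      · exact h0
    have hst := P.C.step k hk
    rw [hpk, hek] at hst
    simp only [Dir.vec, Prod.mk_add_mk, add_zero] at hst
    refine ⟨k, X, Y - 1, Or.inr (Or.inr (Or.inl ⟨hk1, hk, hek, hpk, hst, hs1, hs2, he, ?_, hstep,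
      hval.2, hval.1, ?_, hV2⟩))⟩
    · rw [hp, sub_add_cancel]
    · rwa [sub_add_cancel]

/-- Both neighbours of a face where the first curve steps up. -/
theorem UpFace.nbrs (P : Pair h v d κ a b T p e T' p' e') {s k : ℕ} {x y : ℤ}
    (U : UpFace h v a b T p e T' p' e' s k x y) : 2 ≤ s ∧ 2 ≤ k ∧
    ((XN h v a b T p e T' p' e' (s - 1) (k - 1) x y ∧
      XN h v a b T p e T' p' e' (s + 1) (k + 1) (x + 1) (y + 1)) ∨
     (XS h v a b T p e T' p' e' (s - 1) (k + 1) x (y + 1) ∧
      XS h v a b T p e T' p' e' (s + 1) (k - 1) (x + 1) y)) := by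
  obtain ⟨a1, a2, a3⟩ := U.after P
  obtain ⟨b1, b2, b3⟩ := U.before P
  have hs1 : s - 1 + 1 = s := by omega
  have hvb : v (p (s - 1 + 1)).1 (p (s - 1 + 1)).2 < b := by
    rw [hs1, U.ps]; simp only; have := U.v1; omega
  have hva : b ≤ v (p (s + 1)).1 (p (s + 1)).2 := by
    rw [U.ps1]; exact le_of_eq U.v2.symm
  obtain ⟨sb, xb, yb, hb⟩ := P.cross (show 1 ≤ s - 1 by omega) (by have := U.s2; omega) b2 hvb
  obtain ⟨sa, xa, ya, ha⟩ := P.cross (show 1 ≤ s + 1 by omega) a1 hva a2
  rcases b3 with ⟨c1, c2, c3, c4, c5⟩ | ⟨c1, c2, c3, c4, c5⟩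
  · rcases a3 with ⟨d1, d2, d3, d4, d5⟩ | ⟨d1, d2, d3, d4, d5⟩
    · -- N and N
      refine ⟨b1, c3, Or.inl ⟨?_, ?_⟩⟩
      · rcases hb with hb | hb | hb | hb
        · have e1 := hb.pt
          rw [c2] at e1
          have e2 : x = xb := congrArg Prod.fst e1
          have e3 : y = yb := by
            have := congrArg Prod.snd e1
            simp only at this
            omega
          have e4 : sb = k - 1 := by
            refine P.time' hb.s2 (by have := U.k2; omega) hb.s1 ?_
            rw [hb.ps, c5, e2, e3]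
          rw [e2, e3, ← e4]
          exact hb
        · have := hb.et; rw [c1] at this; cases this
        · have := hb.et; rw [c1] at this; cases this
        · have := hb.et; rw [c1] at this; cases this
      · rcases ha with ha | ha | ha | ha
        · have e1 := ha.pt1
          rw [show s + 1 + 1 = s + 2 by ring, d2] at e1
          have e2 : x + 1 = xa := congrArg Prod.fst e1
          have e3 : y + 1 = ya := congrArg Prod.snd e1
          have e4 : sa = k + 1 := by
            have e5 := P.C'.step (k + 1) d3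
            rw [show k + 1 + 1 = k + 2 by ring, d5, d4] at e5
            refine P.time' ha.s2 (by omega) ha.s1 ?_
            rw [ha.ps, ← e2, ← e3]
            simp only [Dir.vec, Prod.ext_iff, Prod.fst_add, Prod.snd_add] at e5 ⊢
            omega
          rw [e2, e3, ← e4]
          exact ha
        · have := ha.et; rw [d1] at this; cases this
        · have := ha.et; rw [d1] at this; cases this
        · have := ha.et; rw [d1] at this; cases this
    · exfalso
      rw [c4] at d4
      cases d4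
  · rcases a3 with ⟨d1, d2, d3, d4, d5⟩ | ⟨d1, d2, d3, d4, d5⟩
    · exfalso
      rw [c4] at d4
      cases d4
    · -- S and S
      refine ⟨b1, d3, Or.inr ⟨?_, ?_⟩⟩
      · rcases hb with hb | hb | hb | hb
        · have := hb.et; rw [c1] at this; cases this
        · have e1 := hb.pt
          rw [c2] at e1
          have e2 : x = xb := congrArg Prod.fst e1
          have e3 : y + 1 = yb := congrArg Prod.snd e1
          have e4 : sb = k + 1 := by
            refine P.time' hb.s2 (by omega) hb.s1 ?_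
            rw [hb.ps, U.pk1, e2, e3]
          rw [e2, e3, ← e4]
          exact hb
        · have := hb.et; rw [c1] at this; cases this
        · have := hb.et; rw [c1] at this; cases this
      · rcases ha with ha | ha | ha | ha
        · have := ha.et; rw [d1] at this; cases this
        · have e1 := ha.pt1
          rw [show s + 1 + 1 = s + 2 by ring, d2] at e1
          have e2 : x + 1 = xa := congrArg Prod.fst e1
          have e3 : y = ya := by
            have := congrArg Prod.snd e1
            simp only at this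
            omega
          have e4 : sa = k - 1 := by
            refine P.time' ha.s2 (by have := U.k2; omega) ha.s1 ?_
            rw [ha.ps, d5, ← e2, ← e3]
            congr 1
            ring
          rw [e2, e3, ← e4]
          exact ha
        · have := ha.et; rw [d1] at this; cases this
        · have := ha.et; rw [d1] at this; cases this

/-- A chain to the north-east. -/
structure CN (h v : ℤ → ℤ → ℤ) (a b : ℤ) (T : ℕ) (p : ℕ → ℤ × ℤ) (e : ℕ → Dir)
    (T' : ℕ) (p' : ℕ → ℤ × ℤ) (e' : ℕ → Dir) (t s : ℕ) (x y : ℤ) (m : ℕ) : Prop where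
  up : ∀ i : ℕ, i < m →
    UpFace h v a b T p e T' p' e' (t + 2 * i + 1) (s + 2 * i + 1) (x + i) (y + i)
  xn : ∀ i : ℕ, i ≤ m → XN h v a b T p e T' p' e' (t + 2 * i) (s + 2 * i) (x + i) (y + i)
  last : ∀ k, t + 2 * m < k → k ≤ T → v (p k).1 (p k).2 < b

/-- A chain to the south-east. -/
structure CE (h v : ℤ → ℤ → ℤ) (a b : ℤ) (T : ℕ) (p : ℕ → ℤ × ℤ) (e : ℕ → Dir)
    (T' : ℕ) (p' : ℕ → ℤ × ℤ) (e' : ℕ → Dir) (t s : ℕ) (x y : ℤ) (m : ℕ) : Prop where
  up : ∀ i : ℕ, i < m →
    UpFace h v a b T p e T' p' e' (t + 2 * i + 1) (s - 2 * i - 1) (x + i) (y - i - 1)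
  xs : ∀ i : ℕ, i ≤ m → XS h v a b T p e T' p' e' (t + 2 * i) (s - 2 * i) (x + i) (y - i)
  last : ∀ k, t + 2 * m < k → k ≤ T → v (p k).1 (p k).2 < b

theorem Pair.next_up (P : Pair h v d κ a b T p e T' p' e') {t : ℕ} (ht : 1 ≤ t)
    (hV : v (p (t + 1)).1 (p (t + 1)).2 < b)
    (hex : ∃ k, t < k ∧ k ≤ T ∧ b ≤ v (p k).1 (p k).2) :
    ∃ k x y, UpFace h v a b T p e T' p' e' (t + 1) k x y := by
  obtain ⟨k, hk1, hk2, hk3⟩ := hex
  obtain ⟨u, hu1, hu2, hu3, hu4⟩ := exists_switch (fun k => v (p k).1 (p k).2 < b)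
    (show t + 1 ≤ k by omega) hV (by simpa using hk3)
  simp only [not_lt] at hu4
  obtain ⟨k', x, y, U⟩ := P.upFace (s := u) (by omega) (by omega) (hu3 u hu1 (le_refl _)) hu4
  obtain ⟨b1, b2, -⟩ := U.before P
  have hu : u = t + 1 := by
    by_contra hne
    have := hu3 (u - 1) (by omega) (by omega)
    omega
  rw [← hu]
  exact ⟨k', x, y, U⟩

theorem Pair.extN (P : Pair h v d κ a b T p e T' p' e') : ∀ (n s k : ℕ) (x y : ℤ), T - s ≤ n →
    UpFace h v a b T p e T' p' e' (s + 1) (k + 1) x y → XN h v a b T p e T' p' e' s k x y →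
    ∃ m, 1 ≤ m ∧ CN h v a b T p e T' p' e' s k x y m := by
  intro n
  induction n with
  | zero =>
    intro s k x y hn U X
    exfalso
    have := U.s2
    omega
  | succ n ih =>
    intro s k x y hn U X
    obtain ⟨-, -, hnb⟩ := U.nbrs P
    have X2 : XN h v a b T p e T' p' e' (s + 2) (k + 2) (x + 1) (y + 1) := by
      rcases hnb with ⟨-, h2⟩ | ⟨h1, -⟩
      · exact h2
      · exfalso
        have h3 := h1.et
        have h4 := X.et
        rw [Nat.add_sub_cancel] at h3
        rw [h4] at h3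
        cases h3
    by_cases hlast : ∀ j, s + 2 < j → j ≤ T → v (p j).1 (p j).2 < b
    · refine ⟨1, le_refl _, ?_, ?_, ?_⟩
      · intro i hi
        obtain rfl : i = 0 := by omega
        simpa using U
      · intro i hi
        rcases (by omega : i = 0 ∨ i = 1) with rfl | rfl
        · simpa using X
        · simpa using X2
      · simpa using hlast
    · push Not at hlast
      obtain ⟨j, hj1, hj2, hj3⟩ := hlast
      have hX2 : v (p (s + 2 + 1)).1 (p (s + 2 + 1)).2 < b := by
        rw [X2.pt1]; exact X2.v2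
      obtain ⟨k', x', y', U'⟩ := P.next_up (t := s + 2) (by omega) hX2 ⟨j, hj1, hj2, hj3⟩
      have e1 := U'.ps
      rw [X2.pt1] at e1
      have e2 : x + 1 = x' := congrArg Prod.fst e1
      have e3 : y + 1 = y' := congrArg Prod.snd e1
      have e4 : k' = k + 2 + 1 := by
        refine P.time' U'.k2 (by have := X2.s2; omega) U'.k1 ?_
        rw [U'.pk, X2.ps1, e2, e3]
      rw [← e2, ← e3, e4] at U'
      obtain ⟨m, hm, M⟩ := ih (s + 2) (k + 2) (x + 1) (y + 1) (by have := U'.s2; omega) U' X2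
      refine ⟨m + 1, by omega, ?_, ?_, ?_⟩
      · intro i hi
        rcases Nat.eq_zero_or_pos i with h0 | h0
        · subst h0
          simpa using U
        · obtain ⟨i', rfl⟩ : ∃ i', i = i' + 1 := ⟨i - 1, by omega⟩
          have := M.up i' (by omega)
          push_cast
          rw [show x + ((i' : ℤ) + 1) = x + 1 + i' by ring,
            show y + ((i' : ℤ) + 1) = y + 1 + i' by ring,
            show s + 2 * (i' + 1) + 1 = s + 2 + 2 * i' + 1 by ring,
            show k + 2 * (i' + 1) + 1 = k + 2 + 2 * i' + 1 by ring]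
          exact this
      · intro i hi
        rcases Nat.eq_zero_or_pos i with h0 | h0
        · subst h0
          simpa using X
        · obtain ⟨i', rfl⟩ : ∃ i', i = i' + 1 := ⟨i - 1, by omega⟩
          have := M.xn i' (by omega)
          push_cast
          rw [show x + ((i' : ℤ) + 1) = x + 1 + i' by ring,
            show y + ((i' : ℤ) + 1) = y + 1 + i' by ring,
            show s + 2 * (i' + 1) = s + 2 + 2 * i' by ring,
            show k + 2 * (i' + 1) = k + 2 + 2 * i' by ring]
          exact this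
      · intro j hj1 hj2
        exact M.last j (by omega) hj2

theorem Pair.extS (P : Pair h v d κ a b T p e T' p' e') : ∀ (n s k : ℕ) (x y : ℤ), T - s ≤ n →
    UpFace h v a b T p e T' p' e' (s + 1) k x (y - 1) →
    XS h v a b T p e T' p' e' s (k + 1) x y →
    ∃ m, 1 ≤ m ∧ CE h v a b T p e T' p' e' s (k + 1) x y m := by
  intro n
  induction n with
  | zero =>
    intro s k x y hn U X
    exfalso
    have := U.s2
    omega
  | succ n ih =>
    intro s k x y hn U X
    obtain ⟨-, hk2, hnb⟩ := U.nbrs P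
    have X2 : XS h v a b T p e T' p' e' (s + 2) (k - 1) (x + 1) (y - 1) := by
      rcases hnb with ⟨h1, -⟩ | ⟨-, h2⟩
      · exfalso
        have h3 := h1.et
        have h4 := X.et
        rw [Nat.add_sub_cancel] at h3
        rw [h4] at h3
        cases h3
      · exact h2
    by_cases hlast : ∀ j, s + 2 < j → j ≤ T → v (p j).1 (p j).2 < b
    · refine ⟨1, le_refl _, ?_, ?_, ?_⟩
      · intro i hi
        obtain rfl : i = 0 := by omega
        simpa using U
      · intro i hi
        rcases (by omega : i = 0 ∨ i = 1) with rfl | rfl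
        · simpa using X
        · simpa using X2
      · simpa using hlast
    · push Not at hlast
      obtain ⟨j, hj1, hj2, hj3⟩ := hlast
      have hX2 : v (p (s + 2 + 1)).1 (p (s + 2 + 1)).2 < b := by
        rw [X2.pt1]; exact X2.v2
      obtain ⟨k', x', y', U'⟩ := P.next_up (t := s + 2) (by omega) hX2 ⟨j, hj1, hj2, hj3⟩
      have e1 := U'.ps
      rw [X2.pt1] at e1
      have e2 : x + 1 = x' := congrArg Prod.fst e1
      have e3 : y - 1 - 1 = y' := congrArg Prod.snd e1
      have hk3 : 3 ≤ k := by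
        by_contra hc
        have hX1 := X2.s1
        have hk' : k = 2 := by omega
        -- the crossing at time 1 of the second curve would follow the step through the origin
        have h1 := X2.ps
        rw [hk', show (2 : ℕ) - 1 = 1 from rfl, P.pos1'] at h1
        have h2 : y - 1 = 0 := (congrArg Prod.fst h1).symm
        have h3 : (-1 : ℤ) = -(x + 1) - 1 := congrArg Prod.snd h1
        have h4 : x + 1 = 0 := by omega
        have h5 := X2.v1
        rw [h2, h4] at h5
        have := P.rangeV.1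
        omega
      have e4 : k' = k - 1 - 1 := by
        -- the exit of the new face is the entry of the pass
        have h1 : k' + 1 = k - 1 := by
          refine P.time' (show k' + 1 < T' from ?_) (by have := X2.s2; omega) (by omega) ?_
          · rcases eq_or_lt_of_le (show k' + 1 ≤ T' by have := U'.k2; omega) with h1 | h1
            · exfalso
              have h2 := U'.pk1
              rw [h1, P.C'.pT] at h2
              have h3 := X2.ps
              have h4 : p' (k - 1) = p' 0 := by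
                rw [h3, P.C'.p0, h2, ← e2, ← e3]
                congr 1
                ring
              have := P.C'.inj (k - 1) 0 X2.s2 P.C'.hT h4
              omega
            · exact h1
          · rw [U'.pk1, X2.ps, ← e2, ← e3]
            congr 1
            ring
        omega
      rw [← e2, ← e3, e4] at U'
      have hkk : k - 1 - 1 + 1 = k - 1 := by omega
      obtain ⟨m, hm, M⟩ := ih (s + 2) (k - 1 - 1) (x + 1) (y - 1) (by have := U'.s2; omega) U'
        (by rw [hkk]; exact X2)
      rw [hkk] at M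
      refine ⟨m + 1, by omega, ?_, ?_, ?_⟩
      · intro i hi
        rcases Nat.eq_zero_or_pos i with h0 | h0
        · subst h0
          simpa using U
        · obtain ⟨i', rfl⟩ : ∃ i', i = i' + 1 := ⟨i - 1, by omega⟩
          have := M.up i' (by omega)
          push_cast
          rw [show x + ((i' : ℤ) + 1) = x + 1 + i' by ring,
            show y - ((i' : ℤ) + 1) - 1 = y - 1 - i' - 1 by ring,
            show s + 2 * (i' + 1) + 1 = s + 2 + 2 * i' + 1 by ring,
            show k + 1 - 2 * (i' + 1) - 1 = k - 1 - 2 * i' - 1 by omega]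
          exact this
      · intro i hi
        rcases Nat.eq_zero_or_pos i with h0 | h0
        · subst h0
          simpa using X
        · obtain ⟨i', rfl⟩ : ∃ i', i = i' + 1 := ⟨i - 1, by omega⟩
          have := M.xs i' (by omega)
          push_cast
          rw [show x + ((i' : ℤ) + 1) = x + 1 + i' by ring,
            show y - ((i' : ℤ) + 1) = y - 1 - i' by ring,
            show s + 2 * (i' + 1) = s + 2 + 2 * i' by ring,
            show k + 1 - 2 * (i' + 1) = k - 1 - 2 * i' by omega]
          exact this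
      · intro j hj1 hj2
        exact M.last j (by omega) hj2

end RotorNE
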