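import Mathlib.Tactic
import Mathlib.Data.Nat.Nth
import Mathlib.Order.Filter.AtTopBot.Basic
import Mathlib.Algebra.BigOperators.Intervals
import Mathlib.Data.Int.Interval
import Pool.Agent.Lib.MP_936783_pr.Chain

/-!
# The contact of two level curves
-/

open Filter

namespace RotorNE

variable {h v : ℤ → ℤ → ℤ} {d : ℤ → ℤ → Dir} {κ : ℤ → ℤ → ℤ} {a b : ℤ}
variable {T T' : ℕ} {p p' : ℕ → ℤ × ℤ} {e e' : ℕ → Dir}

/-- The vertices and faces of a contact, by type. -/
def Kc.vp : Kc → ℤ → ℤ → Prop
  | .ne x y m => fun X Y => ∃ i : ℕ, i ≤ m ∧ X = x + i ∧ Y = y + i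
  | .se _ _ _ => fun _ _ => False
  | .fe _ _ => fun _ _ => False
  | .fw _ _ => fun _ _ => False
def Kc.vm : Kc → ℤ → ℤ → Prop
  | .ne _ _ _ => fun _ _ => False
  | .se x y m => fun X Y => ∃ i : ℕ, i ≤ m ∧ X = x + i ∧ Y = y - i
  | .fe _ _ => fun _ _ => False
  | .fw _ _ => fun _ _ => False
def Kc.en : Kc → ℤ → ℤ → Prop
  | .ne x y m => fun X Y => ∃ i : ℕ, i < m ∧ X = x + i ∧ Y = y + i
  | .se x y m => fun X Y => ∃ i : ℕ, i < m ∧ X = x + i ∧ Y = y - i - 1
  | .fe _ _ => fun _ _ => False
  | .fw _ _ => fun _ _ => False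
def Kc.es : Kc → ℤ → ℤ → Prop
  | .ne _ _ _ => fun _ _ => False
  | .se _ _ _ => fun _ _ => False
  | .fe x y => fun X Y => X = x ∧ Y = y
  | .fw _ _ => fun _ _ => False
def Kc.wn : Kc → ℤ → ℤ → Prop
  | .ne _ _ _ => fun _ _ => False
  | .se _ _ _ => fun _ _ => False
  | .fe _ _ => fun _ _ => False
  | .fw x y => fun X Y => X = x ∧ Y = y

/-- The cell passed by a step of the first curve. -/
def cellH (q : ℤ × ℤ) : Dir → Cell
  | .N => .vx q.1 (q.2 + 1)
  | .S => .vx q.1 q.2
  | .E => .fc q.1 q.2
  | .W => .fc (q.1 - 1) q.2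

/-- The cell passed by a step of the second curve (rotated coordinates). -/
def cellV (q : ℤ × ℤ) : Dir → Cell
  | .S => .vx (-q.2) q.1
  | .N => .vx (-q.2 - 1) q.1
  | .E => .fc (-q.2 - 1) q.1
  | .W => .fc (-q.2 - 1) (q.1 - 1)

/-- The times at which a function crosses a level. -/
structure OnC (V : ℕ → ℤ) (c : ℤ) (T t0 t1 : ℕ) : Prop where
  h1 : 1 ≤ t0
  h2 : t0 ≤ t1
  h3 : t1 < T
  before : ∀ k, 1 ≤ k → k ≤ t0 → c ≤ V k
  after : ∀ k, t1 < k → k ≤ T → V k < c
  cr0 : V (t0 + 1) < c
  cr1 : c ≤ V t1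

/-- The contact of two level curves. -/
structure IsContact (h v : ℤ → ℤ → ℤ) (a b : ℤ) (T : ℕ) (p : ℕ → ℤ × ℤ) (e : ℕ → Dir)
    (T' : ℕ) (p' : ℕ → ℤ × ℤ) (e' : ℕ → Dir) (K : Kc) (t0 t1 s0 s1 : ℕ) : Prop where
  isK : IsK h v a b K
  on1 : OnC (fun k => v (p k).1 (p k).2) b T t0 t1
  on2 : OnC (fun k => -h (-(p' k).2 - 1) (p' k).1) (1 - a) T' s0 s1
  pin : p t0 = K.nodeIn
  pout : p (t1 + 1) = K.nodeOut
  cin : cellH (p t0) (e t0) = K.hFirst
  cout : cellH (p t1) (e t1) = K.hLast
  pin' : p' s0 = (K.edgeIn.2, -K.edgeIn.1 - 1)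
  pout' : p' (s1 + 1) = (K.edgeOut.2, -K.edgeOut.1 - 1)
  cin' : cellV (p' s0) (e' s0) = K.vFirst
  cout' : cellV (p' s1) (e' s1) = K.vLast
  vp : ∀ X Y, VP h v a b X Y → K.vp X Y
  vm : ∀ X Y, VM h v a b X Y → K.vm X Y
  en : ∀ X Y, EN h v a b X Y → K.en X Y
  es : ∀ X Y, ES h v a b X Y → K.es X Y
  wn : ∀ X Y, WN h v a b X Y → K.wn X Y
  nf1 : ∀ k, t0 ≤ k → k ≤ t1 → (b ≤ v (p k).1 (p k).2 ∧ v (p (k + 1)).1 (p (k + 1)).2 < b) ∨
    (v (p k).1 (p k).2 < b ∧ b ≤ v (p (k + 1)).1 (p (k + 1)).2)
  nf2 : ∀ k, s0 ≤ k → k ≤ s1 →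
    (h (-(p' k).2 - 1) (p' k).1 < a ∧ a ≤ h (-(p' (k + 1)).2 - 1) (p' (k + 1)).1) ∨
    (a ≤ h (-(p' k).2 - 1) (p' k).1 ∧ h (-(p' (k + 1)).2 - 1) (p' (k + 1)).1 < a)

/-- If the crossings of the first curve are known, so is the pattern of the second curve. -/
theorem Pair.on2 (P : Pair h v d κ a b T p e T' p' e') {s0 s1 : ℕ} (hs01 : s0 ≤ s1)
    (hcr : ∀ t s x y, (XN h v a b T p e T' p' e' t s x y ∨ XS h v a b T p e T' p' e' t s x y ∨
      XE h v a b T p e T' p' e' t s x y ∨ XW h v a b T p e T' p' e' t s x y) → s0 ≤ s ∧ s ≤ s1)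
    (h1 : 1 ≤ s0) (h3 : s1 < T')
    (hc0 : a ≤ h (-(p' (s0 + 1)).2 - 1) (p' (s0 + 1)).1)
    (hc1 : h (-(p' s1).2 - 1) (p' s1).1 < a) :
    OnC (fun k => -h (-(p' k).2 - 1) (p' k).1) (1 - a) T' s0 s1 := by
  refine ⟨h1, hs01, h3, ?_, ?_, by omega, by omega⟩
  · intro k hk1 hk2
    by_contra hc
    push Not at hc
    have hk3 : ¬ (h (-(p' k).2 - 1) (p' k).1 < a) := by omega
    have hk4 : h (-(p' 1).2 - 1) (p' 1).1 < a := by
      rw [P.pos1']
      have := P.rangeH.1
      norm_num
      exact this
    obtain ⟨t, ht1, ht2, ht3, ht4⟩ := exists_switch (fun k => h (-(p' k).2 - 1) (p' k).1 < a)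
      hk1 hk4 hk3
    simp only [not_lt] at ht4
    obtain ⟨u, x, y, hu⟩ := P.cross' (s := t) ht1 (by omega) (ht3 t ht1 (le_refl _)) ht4
    have := (hcr u t x y hu).1
    omega
  · intro k hk1 hk2
    by_contra hc
    push Not at hc
    have hk3 : h (-(p' k).2 - 1) (p' k).1 < a := by omega
    have hk4 : ¬ (h (-(p' T').2 - 1) (p' T').1 < a) := by
      rw [P.C'.pT]
      have := P.rangeH.2
      norm_num
      exact this
    obtain ⟨t, ht1, ht2, ht3, ht4⟩ := exists_switch (fun k => h (-(p' k).2 - 1) (p' k).1 < a)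
      hk2 hk3 hk4
    simp only [not_lt] at ht4
    obtain ⟨u, x, y, hu⟩ := P.cross' (s := t) (by omega) (by omega) (ht3 t ht1 (le_refl _)) ht4
    have := (hcr u t x y hu).2
    omega

/-- The time of a crossing on the first curve. -/
theorem cross_time {t s : ℕ} {x y : ℤ}
    (hX : XN h v a b T p e T' p' e' t s x y ∨ XS h v a b T p e T' p' e' t s x y ∨
      XE h v a b T p e T' p' e' t s x y ∨ XW h v a b T p e T' p' e' t s x y) :
    1 ≤ t ∧ t < T ∧ 1 ≤ s ∧ s < T' ∧ b ≤ v (p t).1 (p t).2 ∧
      v (p (t + 1)).1 (p (t + 1)).2 < b := by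
  rcases hX with X | X | X | X
  all_goals exact ⟨X.t1, X.t2, X.s1, X.s2, by rw [X.pt]; exact X.v1, by rw [X.pt1]; exact X.v2⟩

/-- The vertex contacts with positive divergence are passes to the north. -/
theorem Pair.vp_time (P : Pair h v d κ a b T p e T' p' e') {X Y : ℤ} (hV : VP h v a b X Y) :
    ∃ t, 1 ≤ t ∧ t < T ∧ e t = .N ∧ p t = (X, Y - 1) ∧ p (t + 1) = (X, Y) ∧
      b ≤ v (p t).1 (p t).2 ∧ v (p (t + 1)).1 (p (t + 1)).2 < b := by
  obtain ⟨h1, h2, h3, h4⟩ := hV
  obtain ⟨k, hk, hpk, hek⟩ := P.C.all X (Y - 1) .N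
    ⟨by rwa [sub_add_cancel], by rwa [sub_add_cancel]⟩
  have hst := P.C.step k hk
  rw [hpk, hek] at hst
  simp only [Dir.vec, Prod.mk_add_mk, add_zero, sub_add_cancel] at hst
  refine ⟨k, ?_, hk, hek, hpk, hst, by rw [hpk]; exact h4, by rw [hst]; exact h3⟩
  rcases Nat.eq_zero_or_pos k with h0 | h0
  · exfalso
    rw [h0, P.C.e0] at hek
    cases hek
  · exact h0

theorem Pair.vm_time (P : Pair h v d κ a b T p e T' p' e') {X Y : ℤ} (hV : VM h v a b X Y) :
    ∃ t, 1 ≤ t ∧ t < T ∧ e t = .S ∧ p t = (X, Y) ∧ p (t + 1) = (X, Y - 1) ∧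
      b ≤ v (p t).1 (p t).2 ∧ v (p (t + 1)).1 (p (t + 1)).2 < b := by
  obtain ⟨h1, h2, h3, h4⟩ := hV
  obtain ⟨k, hk, hpk, hek⟩ := P.C.all X Y .S ⟨h1, h2⟩
  have hst := P.C.step k hk
  rw [hpk, hek] at hst
  simp only [Dir.vec, Prod.mk_add_mk, add_zero] at hst
  rw [← sub_eq_add_neg] at hst
  refine ⟨k, ?_, hk, hek, hpk, hst, by rw [hpk]; exact h4, by rw [hst]; exact h3⟩
  rcases Nat.eq_zero_or_pos k with h0 | h0
  · exfalso
    rw [h0, P.C.p0] at hpk
    have e1 : X = 0 := (congrArg Prod.fst hpk).symm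
    have e2 : Y = 0 := (congrArg Prod.snd hpk).symm
    rw [e1, e2] at h4
    have := P.rangeV.1
    omega
  · exact h0

theorem Pair.es_time (P : Pair h v d κ a b T p e T' p' e') {X Y : ℤ} (hV : ES h v a b X Y) :
    ∃ t, 1 ≤ t ∧ t < T ∧ e t = .E ∧ p t = (X, Y) ∧ p (t + 1) = (X + 1, Y) ∧
      b ≤ v (p t).1 (p t).2 ∧ v (p (t + 1)).1 (p (t + 1)).2 < b := by
  obtain ⟨h1, h2, h3, h4⟩ := hV
  obtain ⟨k, hk, hpk, hek⟩ := P.C.all X Y .E ⟨h1, h2⟩
  have hst := P.C.step k hk
  rw [hpk, hek] at hst
  simp only [Dir.vec, Prod.mk_add_mk, add_zero] at hst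
  refine ⟨k, ?_, hk, hek, hpk, hst, by rw [hpk]; exact h4, by rw [hst]; exact h3⟩
  rcases Nat.eq_zero_or_pos k with h0 | h0
  · exfalso
    rw [h0, P.C.e0] at hek
    cases hek
  · exact h0

theorem Pair.wn_time (P : Pair h v d κ a b T p e T' p' e') {X Y : ℤ} (hV : WN h v a b X Y) :
    ∃ t, 1 ≤ t ∧ t < T ∧ e t = .W ∧ p t = (X + 1, Y) ∧ p (t + 1) = (X, Y) ∧
      b ≤ v (p t).1 (p t).2 ∧ v (p (t + 1)).1 (p (t + 1)).2 < b := by
  obtain ⟨h1, h2, h3, h4⟩ := hV
  obtain ⟨k, hk, hpk, hek⟩ := P.C.all (X + 1) Y .W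
    ⟨by rwa [add_sub_cancel_right], by rwa [add_sub_cancel_right]⟩
  have hst := P.C.step k hk
  rw [hpk, hek] at hst
  simp only [Dir.vec, Prod.mk_add_mk, add_zero] at hst
  rw [← sub_eq_add_neg, add_sub_cancel_right] at hst
  refine ⟨k, ?_, hk, hek, hpk, hst, by rw [hpk]; exact h4, by rw [hst]; exact h3⟩
  rcases Nat.eq_zero_or_pos k with h0 | h0
  · exfalso
    rw [h0, P.C.e0] at hek
    cases hek
  · exact h0

theorem Pair.en_time (P : Pair h v d κ a b T p e T' p' e') {X Y : ℤ} (hV : EN h v a b X Y) :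
    ∃ t, 1 ≤ t ∧ t < T ∧ e t = .E ∧ p t = (X, Y) ∧ p (t + 1) = (X + 1, Y) ∧
      v (p t).1 (p t).2 < b ∧ b ≤ v (p (t + 1)).1 (p (t + 1)).2 := by
  obtain ⟨h1, h2, h3, h4⟩ := hV
  obtain ⟨k, hk, hpk, hek⟩ := P.C.all X Y .E ⟨h1, h2⟩
  have hst := P.C.step k hk
  rw [hpk, hek] at hst
  simp only [Dir.vec, Prod.mk_add_mk, add_zero] at hst
  refine ⟨k, ?_, hk, hek, hpk, hst, by rw [hpk]; exact h3, by rw [hst]; exact h4⟩
  rcases Nat.eq_zero_or_pos k with h0 | h0
  · exfalso
    rw [h0, P.C.e0] at hek
    cases hek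
  · exact h0

/-- The main theorem on contacts. -/
theorem Pair.contact (P : Pair h v d κ a b T p e T' p' e') :
    ∃ K t0 t1 s0 s1, IsContact h v a b T p e T' p' e' K t0 t1 s0 s1 := by
  have hV1 : b ≤ v (p 1).1 (p 1).2 := by
    rw [P.pos1]
    exact P.rangeV.2
  have hVT : ¬ (b ≤ v (p T).1 (p T).2) := by
    rw [P.C.pT]
    have := P.rangeV.1
    simpa using this
  obtain ⟨t0, ht1, ht2, ht3, ht4⟩ := exists_switch (fun k => b ≤ v (p k).1 (p k).2)
    P.C.hT hV1 hVT
  simp only [not_le] at ht4
  by_cases hlast : ∀ k, t0 < k → k ≤ T → v (p k).1 (p k).2 < b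
  · -- a single crossing
    have honly : ∀ t, 1 ≤ t → t < T → b ≤ v (p t).1 (p t).2 →
        v (p (t + 1)).1 (p (t + 1)).2 < b → t = t0 := by
      intro t g1 g2 g3 g4
      rcases lt_trichotomy t t0 with hh | hh | hh
      · exfalso
        have := ht3 (t + 1) (by omega) (by omega)
        omega
      · exact hh
      · exfalso
        have := hlast t hh (by omega)
        omega
    have hnoup : ∀ t, 1 ≤ t → t < T → v (p t).1 (p t).2 < b →
        ¬ (b ≤ v (p (t + 1)).1 (p (t + 1)).2) := by
      intro t g1 g2 g3 g4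
      rcases Nat.lt_or_ge t0 t with hh | hh
      · have := hlast (t + 1) (by omega) (by omega)
        omega
      · have := ht3 t g1 hh
        omega
    have on1 : OnC (fun k => v (p k).1 (p k).2) b T t0 t0 :=
      ⟨ht1, le_refl _, ht2, ht3, hlast, ht4, ht3 t0 ht1 (le_refl _)⟩
    obtain ⟨s, x, y, hX⟩ := P.cross (t := t0) ht1 ht2 (ht3 t0 ht1 (le_refl _)) ht4
    have hs1 : 1 ≤ s ∧ s < T' := ⟨(cross_time hX).2.2.1, (cross_time hX).2.2.2.1⟩
    have hen : ∀ X Y, EN h v a b X Y → False := by
      intro X Y hV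
      obtain ⟨t, g1, g2, g3, g4, g5, g6, g7⟩ := P.en_time hV
      exact hnoup t g1 g2 g6 g7
    rcases hX with hX | hX | hX | hX
    · have hvp : ∀ X Y, VP h v a b X Y → X = x ∧ Y = y := by
        intro X Y hV
        obtain ⟨t, g1, g2, g3, g4, g5, g6, g7⟩ := P.vp_time hV
        have := honly t g1 g2 g6 g7
        rw [this, hX.pt1] at g5
        exact ⟨(congrArg Prod.fst g5).symm, (congrArg Prod.snd g5).symm⟩
      have hvm : ∀ X Y, VM h v a b X Y → False := by
        intro X Y hV
        obtain ⟨t, g1, g2, g3, g4, g5, g6, g7⟩ := P.vm_time hV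
        have := honly t g1 g2 g6 g7
        rw [this, hX.et] at g3
        cases g3
      have hes : ∀ X Y, ES h v a b X Y → False := by
        intro X Y hV
        obtain ⟨t, g1, g2, g3, g4, g5, g6, g7⟩ := P.es_time hV
        have := honly t g1 g2 g6 g7
        rw [this, hX.et] at g3
        cases g3
      have hwn : ∀ X Y, WN h v a b X Y → False := by
        intro X Y hV
        obtain ⟨t, g1, g2, g3, g4, g5, g6, g7⟩ := P.wn_time hV
        have := honly t g1 g2 g6 g7
        rw [this, hX.et] at g3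
        cases g3
      refine ⟨.ne x y 0, t0, t0, s, s, ?_, on1, ?_, ?_, ?_, ?_, ?_, ?_, ?_, ?_, ?_, ?_, ?_, ?_,
        ?_, ?_, ?_, ?_⟩
      · refine ⟨fun i hi => ?_, fun i hi => absurd hi (Nat.not_lt_zero _)⟩
        obtain rfl : i = 0 := by omega
        simp only [Nat.cast_zero, add_zero]
        exact ⟨hX.h1, hX.h2, hX.v1, hX.v2⟩
      · refine P.on2 (le_refl _) ?_ hs1.1 hs1.2 ?_ ?_
        · intro t s' x' y' hX'
          have g := cross_time hX'
          have g1 := honly t g.1 g.2.1 g.2.2.2.2.1 g.2.2.2.2.2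
          subst g1
          rcases hX' with hX' | hX' | hX' | hX'
          · have e1 := hX'.pt1
            rw [hX.pt1] at e1
            have e2 : x = x' := congrArg Prod.fst e1
            have e3 : y = y' := congrArg Prod.snd e1
            have : s' = s := P.time' hX'.s2 (by omega) hX'.s1 (by rw [hX'.ps, hX.ps, e2, e3])
            omega
          · have := hX'.et; rw [hX.et] at this; cases this
          · have := hX'.et; rw [hX.et] at this; cases this
          · have := hX'.et; rw [hX.et] at this; cases this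
        · rw [hX.ps1]
          simp only
          rw [show -(-x - 1) - 1 = x by ring]
          exact hX.h2
        · rw [hX.ps]
          simp only
          rw [show -(-x) - 1 = x - 1 by ring]
          exact hX.h1
      · rw [hX.pt]; rfl
      · rw [hX.pt1]; simp [Kc.nodeOut]
      · rw [hX.pt, hX.et]; simp [cellH, Kc.hFirst]
      · rw [hX.pt, hX.et]; simp [cellH, Kc.hLast]
      · rw [hX.ps]; simp [Kc.edgeIn]
      · rw [hX.ps1]; simp [Kc.edgeOut]
      · rw [hX.ps, hX.es]; simp [cellV, Kc.vFirst]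
      · rw [hX.ps, hX.es]; simp [cellV, Kc.vLast]
      · intro X Y hV
        obtain ⟨g1, g2⟩ := hvp X Y hV
        exact ⟨0, le_refl _, by simpa using g1, by simpa using g2⟩
      · intro X Y hV; exact (hvm X Y hV).elim
      · intro X Y hV; exact (hen X Y hV).elim
      · intro X Y hV; exact (hes X Y hV).elim
      · intro X Y hV; exact (hwn X Y hV).elim
      · intro k g1 g2
        obtain rfl : k = t0 := by omega
        exact Or.inl ⟨ht3 k ht1 (le_refl _), ht4⟩
      · intro k g1 g2
        obtain rfl : k = s := by omega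
        left
        rw [hX.ps, hX.ps1]
        exact ⟨by simpa using hX.h1, by simpa using hX.h2⟩
    · have hvp : ∀ X Y, VP h v a b X Y → False := by
        intro X Y hV
        obtain ⟨t, g1, g2, g3, g4, g5, g6, g7⟩ := P.vp_time hV
        have := honly t g1 g2 g6 g7
        rw [this, hX.et] at g3
        cases g3
      have hvm : ∀ X Y, VM h v a b X Y → X = x ∧ Y = y := by
        intro X Y hV
        obtain ⟨t, g1, g2, g3, g4, g5, g6, g7⟩ := P.vm_time hV
        have := honly t g1 g2 g6 g7
        rw [this, hX.pt] at g4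
        exact ⟨(congrArg Prod.fst g4).symm, (congrArg Prod.snd g4).symm⟩
      have hes : ∀ X Y, ES h v a b X Y → False := by
        intro X Y hV
        obtain ⟨t, g1, g2, g3, g4, g5, g6, g7⟩ := P.es_time hV
        have := honly t g1 g2 g6 g7
        rw [this, hX.et] at g3
        cases g3
      have hwn : ∀ X Y, WN h v a b X Y → False := by
        intro X Y hV
        obtain ⟨t, g1, g2, g3, g4, g5, g6, g7⟩ := P.wn_time hV
        have := honly t g1 g2 g6 g7
        rw [this, hX.et] at g3
        cases g3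
      refine ⟨.se x y 0, t0, t0, s, s, ?_, on1, ?_, ?_, ?_, ?_, ?_, ?_, ?_, ?_, ?_, ?_, ?_, ?_,
        ?_, ?_, ?_, ?_⟩
      · refine ⟨fun i hi => ?_, fun i hi => absurd hi (Nat.not_lt_zero _)⟩
        obtain rfl : i = 0 := by omega
        simp only [Nat.cast_zero, add_zero, sub_zero]
        exact ⟨hX.h2, hX.h1, hX.v2, hX.v1⟩
      · refine P.on2 (le_refl _) ?_ hs1.1 hs1.2 ?_ ?_
        · intro t s' x' y' hX'
          have g := cross_time hX'
          have g1 := honly t g.1 g.2.1 g.2.2.2.2.1 g.2.2.2.2.2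
          subst g1
          rcases hX' with hX' | hX' | hX' | hX'
          · have := hX'.et; rw [hX.et] at this; cases this
          · have e1 := hX'.pt
            rw [hX.pt] at e1
            have e2 : x = x' := congrArg Prod.fst e1
            have e3 : y = y' := congrArg Prod.snd e1
            have : s' = s := P.time' hX'.s2 (by omega) hX'.s1 (by rw [hX'.ps, hX.ps, e2, e3])
            omega
          · have := hX'.et; rw [hX.et] at this; cases this
          · have := hX'.et; rw [hX.et] at this; cases this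
        · rw [hX.ps1]
          simp only
          rw [show -(-x) - 1 = x - 1 by ring]
          exact hX.h2
        · rw [hX.ps]
          simp only
          rw [show -(-x - 1) - 1 = x by ring]
          exact hX.h1
      · rw [hX.pt]; rfl
      · rw [hX.pt1]; simp [Kc.nodeOut]
      · rw [hX.pt, hX.et]; simp [cellH, Kc.hFirst]
      · rw [hX.pt, hX.et]; simp [cellH, Kc.hLast]
      · rw [hX.ps]; simp [Kc.edgeIn]
      · rw [hX.ps1]; simp [Kc.edgeOut]
      · rw [hX.ps, hX.es]; simp [cellV, Kc.vFirst]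
      · rw [hX.ps, hX.es]; simp [cellV, Kc.vLast]
      · intro X Y hV; exact (hvp X Y hV).elim
      · intro X Y hV
        obtain ⟨g1, g2⟩ := hvm X Y hV
        exact ⟨0, le_refl _, by simpa using g1, by simpa using g2⟩
      · intro X Y hV; exact (hen X Y hV).elim
      · intro X Y hV; exact (hes X Y hV).elim
      · intro X Y hV; exact (hwn X Y hV).elim
      · intro k g1 g2
        obtain rfl : k = t0 := by omega
        exact Or.inl ⟨ht3 k ht1 (le_refl _), ht4⟩
      · intro k g1 g2
        obtain rfl : k = s := by omega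
        left
        rw [hX.ps, hX.ps1]
        exact ⟨by simpa using hX.h1, by simpa using hX.h2⟩
    · have hvp : ∀ X Y, VP h v a b X Y → False := by
        intro X Y hV
        obtain ⟨t, g1, g2, g3, g4, g5, g6, g7⟩ := P.vp_time hV
        have := honly t g1 g2 g6 g7
        rw [this, hX.et] at g3
        cases g3
      have hvm : ∀ X Y, VM h v a b X Y → False := by
        intro X Y hV
        obtain ⟨t, g1, g2, g3, g4, g5, g6, g7⟩ := P.vm_time hV
        have := honly t g1 g2 g6 g7
        rw [this, hX.et] at g3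
        cases g3
      have hes : ∀ X Y, ES h v a b X Y → X = x ∧ Y = y := by
        intro X Y hV
        obtain ⟨t, g1, g2, g3, g4, g5, g6, g7⟩ := P.es_time hV
        have := honly t g1 g2 g6 g7
        rw [this, hX.pt] at g4
        exact ⟨(congrArg Prod.fst g4).symm, (congrArg Prod.snd g4).symm⟩
      have hwn : ∀ X Y, WN h v a b X Y → False := by
        intro X Y hV
        obtain ⟨t, g1, g2, g3, g4, g5, g6, g7⟩ := P.wn_time hV
        have := honly t g1 g2 g6 g7
        rw [this, hX.et] at g3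
        cases g3
      refine ⟨.fe x y, t0, t0, s, s, ?_, on1, ?_, ?_, ?_, ?_, ?_, ?_, ?_, ?_, ?_, ?_, ?_, ?_,
        ?_, ?_, ?_, ?_⟩
      · exact ⟨hX.h2, hX.h1, hX.v1, hX.v2⟩
      · refine P.on2 (le_refl _) ?_ hs1.1 hs1.2 ?_ ?_
        · intro t s' x' y' hX'
          have g := cross_time hX'
          have g1 := honly t g.1 g.2.1 g.2.2.2.2.1 g.2.2.2.2.2
          subst g1
          rcases hX' with hX' | hX' | hX' | hX'
          · have := hX'.et; rw [hX.et] at this; cases this
          · have := hX'.et; rw [hX.et] at this; cases this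
          · have e1 := hX'.pt
            rw [hX.pt] at e1
            have e2 : x = x' := congrArg Prod.fst e1
            have e3 : y = y' := congrArg Prod.snd e1
            have : s' = s := P.time' hX'.s2 (by omega) hX'.s1 (by rw [hX'.ps, hX.ps, e2, e3])
            omega
          · have := hX'.et; rw [hX.et] at this; cases this
        · rw [hX.ps1]
          simp only
          rw [show -(-x - 1) - 1 = x by ring]
          exact hX.h2
        · rw [hX.ps]
          simp only
          rw [show -(-x - 1) - 1 = x by ring]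
          exact hX.h1
      · rw [hX.pt]; rfl
      · rw [hX.pt1]; simp [Kc.nodeOut]
      · rw [hX.pt, hX.et]; simp [cellH, Kc.hFirst]
      · rw [hX.pt, hX.et]; simp [cellH, Kc.hLast]
      · rw [hX.ps]; simp [Kc.edgeIn]
      · rw [hX.ps1]; simp [Kc.edgeOut]
      · rw [hX.ps, hX.es]; simp [cellV, Kc.vFirst]
      · rw [hX.ps, hX.es]; simp [cellV, Kc.vLast]
      · intro X Y hV; exact (hvp X Y hV).elim
      · intro X Y hV; exact (hvm X Y hV).elim
      · intro X Y hV; exact (hen X Y hV).elim
      · intro X Y hV; exact hes X Y hV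
      · intro X Y hV; exact (hwn X Y hV).elim
      · intro k g1 g2
        obtain rfl : k = t0 := by omega
        exact Or.inl ⟨ht3 k ht1 (le_refl _), ht4⟩
      · intro k g1 g2
        obtain rfl : k = s := by omega
        left
        rw [hX.ps, hX.ps1]
        exact ⟨by simpa using hX.h1, by simpa using hX.h2⟩
    · have hvp : ∀ X Y, VP h v a b X Y → False := by
        intro X Y hV
        obtain ⟨t, g1, g2, g3, g4, g5, g6, g7⟩ := P.vp_time hV
        have := honly t g1 g2 g6 g7
        rw [this, hX.et] at g3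
        cases g3
      have hvm : ∀ X Y, VM h v a b X Y → False := by
        intro X Y hV
        obtain ⟨t, g1, g2, g3, g4, g5, g6, g7⟩ := P.vm_time hV
        have := honly t g1 g2 g6 g7
        rw [this, hX.et] at g3
        cases g3
      have hes : ∀ X Y, ES h v a b X Y → False := by
        intro X Y hV
        obtain ⟨t, g1, g2, g3, g4, g5, g6, g7⟩ := P.es_time hV
        have := honly t g1 g2 g6 g7
        rw [this, hX.et] at g3
        cases g3
      have hwn : ∀ X Y, WN h v a b X Y → X = x ∧ Y = y := by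
        intro X Y hV
        obtain ⟨t, g1, g2, g3, g4, g5, g6, g7⟩ := P.wn_time hV
        have := honly t g1 g2 g6 g7
        rw [this, hX.pt1] at g5
        exact ⟨(congrArg Prod.fst g5).symm, (congrArg Prod.snd g5).symm⟩
      refine ⟨.fw x y, t0, t0, s, s, ?_, on1, ?_, ?_, ?_, ?_, ?_, ?_, ?_, ?_, ?_, ?_, ?_, ?_,
        ?_, ?_, ?_, ?_⟩
      · exact ⟨hX.h1, hX.h2, hX.v1, hX.v2⟩
      · refine P.on2 (le_refl _) ?_ hs1.1 hs1.2 ?_ ?_
        · intro t s' x' y' hX'
          have g := cross_time hX'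
          have g1 := honly t g.1 g.2.1 g.2.2.2.2.1 g.2.2.2.2.2
          subst g1
          rcases hX' with hX' | hX' | hX' | hX'
          · have := hX'.et; rw [hX.et] at this; cases this
          · have := hX'.et; rw [hX.et] at this; cases this
          · have := hX'.et; rw [hX.et] at this; cases this
          · have e1 := hX'.pt1
            rw [hX.pt1] at e1
            have e2 : x = x' := congrArg Prod.fst e1
            have e3 : y = y' := congrArg Prod.snd e1
            have : s' = s := P.time' hX'.s2 (by omega) hX'.s1 (by rw [hX'.ps, hX.ps, e2, e3])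
            omega
        · rw [hX.ps1]
          simp only
          rw [show -(-x - 1) - 1 = x by ring]
          exact hX.h2
        · rw [hX.ps]
          simp only
          rw [show -(-x - 1) - 1 = x by ring]
          exact hX.h1
      · rw [hX.pt]; rfl
      · rw [hX.pt1]; simp [Kc.nodeOut]
      · rw [hX.pt, hX.et]; simp [cellH, Kc.hFirst]
      · rw [hX.pt, hX.et]; simp [cellH, Kc.hLast]
      · rw [hX.ps]; simp [Kc.edgeIn]
      · rw [hX.ps1]; simp [Kc.edgeOut]
      · rw [hX.ps, hX.es]; simp [cellV, Kc.vFirst]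
      · rw [hX.ps, hX.es]; simp [cellV, Kc.vLast]
      · intro X Y hV; exact (hvp X Y hV).elim
      · intro X Y hV; exact (hvm X Y hV).elim
      · intro X Y hV; exact (hen X Y hV).elim
      · intro X Y hV; exact (hes X Y hV).elim
      · intro X Y hV; exact hwn X Y hV
      · intro k g1 g2
        obtain rfl : k = t0 := by omega
        exact Or.inl ⟨ht3 k ht1 (le_refl _), ht4⟩
      · intro k g1 g2
        obtain rfl : k = s := by omega
        left
        rw [hX.ps, hX.ps1]
        exact ⟨by simpa using hX.h1, by simpa using hX.h2⟩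
  · -- a chain
    push Not at hlast
    obtain ⟨k, hk1, hk2, hk3⟩ := hlast
    obtain ⟨ku, x, y, U⟩ := P.next_up (t := t0) ht1 ht4 ⟨k, hk1, hk2, hk3⟩
    obtain ⟨-, hk22, hnb⟩ := U.nbrs P
    rcases hnb with ⟨X0, -⟩ | ⟨X0, -⟩
    · -- north-east
      rw [Nat.add_sub_cancel] at X0
      have hku : ku = ku - 1 + 1 := by omega
      rw [hku] at U
      obtain ⟨m, hm, M⟩ := P.extN (T - t0) t0 (ku - 1) x y (le_refl _) U X0
      generalize ku - 1 = s0 at M
      have X0 := M.xn 0 (Nat.zero_le _)
      have Xm := M.xn m (le_refl _)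
      simp only [mul_zero, Nat.cast_zero, add_zero] at X0
      have honly : ∀ t, 1 ≤ t → t < T → b ≤ v (p t).1 (p t).2 →
          v (p (t + 1)).1 (p (t + 1)).2 < b → ∃ i : ℕ, i ≤ m ∧ t = t0 + 2 * i := by
        intro t g1 g2 g3 g4
        have g5 : t0 ≤ t := by
          by_contra hc
          have := ht3 (t + 1) (by omega) (by omega)
          omega
        have g6 : t ≤ t0 + 2 * m := by
          by_contra hc
          have := M.last t (by omega) (by omega)
          omega
        rcases Nat.even_or_odd' (t - t0) with ⟨i, hi | hi⟩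
        · exact ⟨i, by omega, by omega⟩
        · exfalso
          have h1 := M.xn i (by omega)
          have h2 := h1.v2
          have h3 := h1.pt1
          rw [show t = t0 + 2 * i + 1 by omega, h3] at g3
          simp only at g3
          omega
      have hup : ∀ t, 1 ≤ t → t < T → v (p t).1 (p t).2 < b →
          b ≤ v (p (t + 1)).1 (p (t + 1)).2 → ∃ i : ℕ, i < m ∧ t = t0 + 2 * i + 1 := by
        intro t g1 g2 g3 g4
        have g5 : t0 < t := by
          by_contra hc
          have := ht3 t g1 (by omega)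
          omega
        have g6 : t < t0 + 2 * m := by
          by_contra hc
          have := M.last (t + 1) (by omega) (by omega)
          omega
        rcases Nat.even_or_odd' (t - t0) with ⟨i, hi | hi⟩
        · exfalso
          have h1 := M.xn i (by omega)
          have h2 := h1.v1
          have h3 := h1.pt
          rw [show t = t0 + 2 * i by omega, h3] at g3
          simp only at g3
          omega
        · exact ⟨i, by omega, by omega⟩
      refine ⟨.ne x y m, t0, t0 + 2 * m, s0, s0 + 2 * m, ?_, ?_, ?_, ?_, ?_, ?_, ?_, ?_, ?_, ?_,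
        ?_, ?_, ?_, ?_, ?_, ?_, ?_, ?_⟩
      · refine ⟨fun i hi => ?_, fun i hi => ?_⟩
        · have h1 := M.xn i hi
          exact ⟨h1.h1, h1.h2, h1.v1, h1.v2⟩
        · have h1 := M.up i hi
          exact ⟨h1.h1, h1.h2, h1.v1, h1.v2⟩
      · exact ⟨ht1, by omega, Xm.t2, ht3, M.last, ht4, by rw [Xm.pt]; exact Xm.v1⟩
      · refine P.on2 (by omega) ?_ X0.s1 Xm.s2 ?_ ?_
        · intro t s' x' y' hX'
          have g := cross_time hX'
          obtain ⟨i, hi1, hi2⟩ := honly t g.1 g.2.1 g.2.2.2.2.1 g.2.2.2.2.2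
          subst hi2
          have hXi := M.xn i hi1
          rcases hX' with hX' | hX' | hX' | hX'
          · have e1 := hX'.pt1
            rw [hXi.pt1] at e1
            have e2 : x + i = x' := congrArg Prod.fst e1
            have e3 : y + i = y' := congrArg Prod.snd e1
            have : s' = s0 + 2 * i := P.time' hX'.s2 (by have := hXi.s2; omega) hX'.s1
              (by rw [hX'.ps, hXi.ps, e2, e3])
            omega
          · have := hX'.et; rw [hXi.et] at this; cases this
          · have := hX'.et; rw [hXi.et] at this; cases this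
          · have := hX'.et; rw [hXi.et] at this; cases this
        · rw [X0.ps1]
          simp only
          rw [show -(-x - 1) - 1 = x by ring]
          exact X0.h2
        · rw [Xm.ps]
          simp only
          rw [show -(-(x + (m : ℤ))) - 1 = x + m - 1 by ring]
          exact Xm.h1
      · rw [X0.pt]; rfl
      · rw [Xm.pt1]; rfl
      · rw [X0.pt, X0.et]; simp [cellH, Kc.hFirst]
      · rw [Xm.pt, Xm.et]; simp [cellH, Kc.hLast]
      · rw [X0.ps]; simp [Kc.edgeIn]
      · rw [Xm.ps1]; rfl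
      · rw [X0.ps, X0.es]; simp [cellV, Kc.vFirst]
      · rw [Xm.ps, Xm.es]; simp only [cellV, Kc.vLast]; rw [neg_neg]
      · intro X Y hV
        obtain ⟨t, g1, g2, g3, g4, g5, g6, g7⟩ := P.vp_time hV
        obtain ⟨i, hi1, hi2⟩ := honly t g1 g2 g6 g7
        have hXi := M.xn i hi1
        rw [hi2, hXi.pt1] at g5
        exact ⟨i, hi1, (congrArg Prod.fst g5).symm, (congrArg Prod.snd g5).symm⟩
      · intro X Y hV
        exfalso
        obtain ⟨t, g1, g2, g3, g4, g5, g6, g7⟩ := P.vm_time hV
        obtain ⟨i, hi1, hi2⟩ := honly t g1 g2 g6 g7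
        rw [hi2, (M.xn i hi1).et] at g3
        cases g3
      · intro X Y hV
        obtain ⟨t, g1, g2, g3, g4, g5, g6, g7⟩ := P.en_time hV
        obtain ⟨i, hi1, hi2⟩ := hup t g1 g2 g6 g7
        have hXi := M.up i hi1
        rw [hi2, hXi.ps] at g4
        exact ⟨i, hi1, (congrArg Prod.fst g4).symm, (congrArg Prod.snd g4).symm⟩
      · intro X Y hV
        exfalso
        obtain ⟨t, g1, g2, g3, g4, g5, g6, g7⟩ := P.es_time hV
        obtain ⟨i, hi1, hi2⟩ := honly t g1 g2 g6 g7
        rw [hi2, (M.xn i hi1).et] at g3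
        cases g3
      · intro X Y hV
        exfalso
        obtain ⟨t, g1, g2, g3, g4, g5, g6, g7⟩ := P.wn_time hV
        obtain ⟨i, hi1, hi2⟩ := honly t g1 g2 g6 g7
        rw [hi2, (M.xn i hi1).et] at g3
        cases g3
      · intro k g1 g2
        rcases Nat.even_or_odd' (k - t0) with ⟨i, hi | hi⟩
        · left
          have h1 := M.xn i (by omega)
          rw [show k = t0 + 2 * i by omega, h1.pt, h1.pt1]
          exact ⟨h1.v1, h1.v2⟩
        · right
          have h1 := M.up i (by omega)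
          rw [show k = t0 + 2 * i + 1 by omega, h1.ps, h1.ps1]
          simp only
          have h2 := h1.v1
          have h3 := h1.v2
          exact ⟨by omega, by omega⟩
      · intro k g1 g2
        rcases Nat.even_or_odd' (k - s0) with ⟨i, hi | hi⟩
        · left
          have h1 := M.xn i (by omega)
          rw [show k = s0 + 2 * i by omega, h1.ps, h1.ps1]
          simp only
          rw [show -(-(x + (i : ℤ))) - 1 = x + i - 1 by ring,
            show -(-(x + (i : ℤ)) - 1) - 1 = x + i by ring]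
          exact ⟨h1.h1, h1.h2⟩
        · right
          have h1 := M.up i (by omega)
          rw [show k = s0 + 2 * i + 1 by omega, h1.pk, h1.pk1]
          simp only
          rw [show -(-(x + (i : ℤ)) - 1) - 1 = x + i by ring]
          have h2 := h1.h1
          have h3 := h1.h2
          exact ⟨by omega, by omega⟩
    · -- south-east
      rw [Nat.add_sub_cancel] at X0
      obtain ⟨y0, rfl⟩ : ∃ y0, y = y0 - 1 := ⟨y + 1, by ring⟩
      rw [sub_add_cancel] at X0
      obtain ⟨m, hm, M⟩ := P.extS (T - t0) t0 ku x y0 (le_refl _) U X0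
      generalize hs0 : ku + 1 = s0 at M
      have X0 := M.xs 0 (Nat.zero_le _)
      have Xm := M.xs m (le_refl _)
      simp only [mul_zero, Nat.cast_zero, add_zero, Nat.sub_zero, sub_zero] at X0
      have hms : 2 * m < s0 := by have := Xm.s1; omega
      have honly : ∀ t, 1 ≤ t → t < T → b ≤ v (p t).1 (p t).2 →
          v (p (t + 1)).1 (p (t + 1)).2 < b → ∃ i : ℕ, i ≤ m ∧ t = t0 + 2 * i := by
        intro t g1 g2 g3 g4
        have g5 : t0 ≤ t := by
          by_contra hc
          have := ht3 (t + 1) (by omega) (by omega)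
          omega
        have g6 : t ≤ t0 + 2 * m := by
          by_contra hc
          have := M.last t (by omega) (by omega)
          omega
        rcases Nat.even_or_odd' (t - t0) with ⟨i, hi | hi⟩
        · exact ⟨i, by omega, by omega⟩
        · exfalso
          have h1 := M.xs i (by omega)
          have h2 := h1.v2
          have h3 := h1.pt1
          rw [show t = t0 + 2 * i + 1 by omega, h3] at g3
          simp only at g3
          omega
      have hup : ∀ t, 1 ≤ t → t < T → v (p t).1 (p t).2 < b →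
          b ≤ v (p (t + 1)).1 (p (t + 1)).2 → ∃ i : ℕ, i < m ∧ t = t0 + 2 * i + 1 := by
        intro t g1 g2 g3 g4
        have g5 : t0 < t := by
          by_contra hc
          have := ht3 t g1 (by omega)
          omega
        have g6 : t < t0 + 2 * m := by
          by_contra hc
          have := M.last (t + 1) (by omega) (by omega)
          omega
        rcases Nat.even_or_odd' (t - t0) with ⟨i, hi | hi⟩
        · exfalso
          have h1 := M.xs i (by omega)
          have h2 := h1.v1
          have h3 := h1.pt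
          rw [show t = t0 + 2 * i by omega, h3] at g3
          simp only at g3
          omega
        · exact ⟨i, by omega, by omega⟩
      refine ⟨.se x y0 m, t0, t0 + 2 * m, s0 - 2 * m, s0, ?_, ?_, ?_, ?_, ?_, ?_, ?_, ?_, ?_, ?_,
        ?_, ?_, ?_, ?_, ?_, ?_, ?_, ?_⟩
      · refine ⟨fun i hi => ?_, fun i hi => ?_⟩
        · have h1 := M.xs i hi
          exact ⟨h1.h2, h1.h1, h1.v2, h1.v1⟩
        · have h1 := M.up i hi
          have h2 := h1.h2
          rw [sub_add_cancel] at h2
          exact ⟨h1.h1, h2, h1.v1, h1.v2⟩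
      · exact ⟨ht1, by omega, Xm.t2, ht3, M.last, ht4, by rw [Xm.pt]; exact Xm.v1⟩
      · refine P.on2 (by omega) ?_ Xm.s1 X0.s2 ?_ ?_
        · intro t s' x' y' hX'
          have g := cross_time hX'
          obtain ⟨i, hi1, hi2⟩ := honly t g.1 g.2.1 g.2.2.2.2.1 g.2.2.2.2.2
          subst hi2
          have hXi := M.xs i hi1
          rcases hX' with hX' | hX' | hX' | hX'
          · have := hX'.et; rw [hXi.et] at this; cases this
          · have e1 := hX'.pt
            rw [hXi.pt] at e1
            have e2 : x + i = x' := congrArg Prod.fst e1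
            have e3 : y0 - i = y' := congrArg Prod.snd e1
            have : s' = s0 - 2 * i := P.time' hX'.s2 (by have := hXi.s2; omega) hX'.s1
              (by rw [hX'.ps, hXi.ps, e2, e3])
            omega
          · have := hX'.et; rw [hXi.et] at this; cases this
          · have := hX'.et; rw [hXi.et] at this; cases this
        · rw [Xm.ps1]
          simp only
          rw [show -(-(x + (m : ℤ))) - 1 = x + m - 1 by ring]
          exact Xm.h2
        · rw [X0.ps]
          simp only
          rw [show -(-x - 1) - 1 = x by ring]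
          exact X0.h1
      · rw [X0.pt]; rfl
      · rw [Xm.pt1]; rfl
      · rw [X0.pt, X0.et]; simp [cellH, Kc.hFirst]
      · rw [Xm.pt, Xm.et]; simp [cellH, Kc.hLast]
      · rw [Xm.ps]; simp [Kc.edgeIn]
      · rw [X0.ps1]; simp [Kc.edgeOut]
      · rw [Xm.ps, Xm.es]; simp only [cellV, Kc.vFirst]; congr 1; ring
      · rw [X0.ps, X0.es]; simp [cellV, Kc.vLast]
      · intro X Y hV
        exfalso
        obtain ⟨t, g1, g2, g3, g4, g5, g6, g7⟩ := P.vp_time hV
        obtain ⟨i, hi1, hi2⟩ := honly t g1 g2 g6 g7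
        rw [hi2, (M.xs i hi1).et] at g3
        cases g3
      · intro X Y hV
        obtain ⟨t, g1, g2, g3, g4, g5, g6, g7⟩ := P.vm_time hV
        obtain ⟨i, hi1, hi2⟩ := honly t g1 g2 g6 g7
        have hXi := M.xs i hi1
        rw [hi2, hXi.pt] at g4
        exact ⟨i, hi1, (congrArg Prod.fst g4).symm, (congrArg Prod.snd g4).symm⟩
      · intro X Y hV
        obtain ⟨t, g1, g2, g3, g4, g5, g6, g7⟩ := P.en_time hV
        obtain ⟨i, hi1, hi2⟩ := hup t g1 g2 g6 g7
        have hXi := M.up i hi1
        rw [hi2, hXi.ps] at g4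
        exact ⟨i, hi1, (congrArg Prod.fst g4).symm, (congrArg Prod.snd g4).symm⟩
      · intro X Y hV
        exfalso
        obtain ⟨t, g1, g2, g3, g4, g5, g6, g7⟩ := P.es_time hV
        obtain ⟨i, hi1, hi2⟩ := honly t g1 g2 g6 g7
        rw [hi2, (M.xs i hi1).et] at g3
        cases g3
      · intro X Y hV
        exfalso
        obtain ⟨t, g1, g2, g3, g4, g5, g6, g7⟩ := P.wn_time hV
        obtain ⟨i, hi1, hi2⟩ := honly t g1 g2 g6 g7
        rw [hi2, (M.xs i hi1).et] at g3
        cases g3
      · intro k g1 g2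
        rcases Nat.even_or_odd' (k - t0) with ⟨i, hi | hi⟩
        · left
          have h1 := M.xs i (by omega)
          rw [show k = t0 + 2 * i by omega, h1.pt, h1.pt1]
          exact ⟨h1.v1, h1.v2⟩
        · right
          have h1 := M.up i (by omega)
          rw [show k = t0 + 2 * i + 1 by omega, h1.ps, h1.ps1]
          simp only
          have h2 := h1.v1
          have h3 := h1.v2
          exact ⟨by omega, by omega⟩
      · intro k g1 g2
        rcases Nat.even_or_odd' (s0 - k) with ⟨i, hi | hi⟩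
        · left
          have h1 := M.xs i (by omega)
          rw [show k = s0 - 2 * i by omega, h1.ps, h1.ps1]
          simp only
          rw [show -(-(x + (i : ℤ))) - 1 = x + i - 1 by ring,
            show -(-(x + (i : ℤ)) - 1) - 1 = x + i by ring]
          exact ⟨h1.h1, h1.h2⟩
        · right
          have h1 := M.up i (by omega)
          rw [show k = s0 - 2 * i - 1 by omega, h1.pk, h1.pk1]
          simp only
          rw [show -(-(x + (i : ℤ)) - 1) - 1 = x + i by ring]
          have h2 := h1.h1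
          have h3 := h1.h2
          exact ⟨by omega, by omega⟩

end RotorNE
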