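import Mathlib.Tactic
import Mathlib.Data.Nat.Nth
import Mathlib.Order.Filter.AtTopBot.Basic
import Mathlib.Algebra.BigOperators.Intervals
import Mathlib.Data.Int.Interval
import Pool.Agent.Lib.MP_936783_pr.Meet

/-!
# Straight runs between contacts
-/

open Filter

namespace RotorNE

variable {h v : ℤ → ℤ → ℤ} {d : ℤ → ℤ → Dir} {κ : ℤ → ℤ → ℤ} {a b : ℤ}
variable {T T' : ℕ} {p p' : ℕ → ℤ × ℤ} {e e' : ℕ → Dir}

/-- Adding a constant to `v` does not change the hypotheses on a level of `h`. -/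
theorem Lev.shift (L : Lev h v d κ a) (c : ℤ) : Lev h (fun x y => v x y + c) d κ a where
  fld :=
    { div := fun x y => by have := L.fld.div x y; linarith
      curl := fun x y => by have := L.fld.curl x y; linarith
      acyc := L.fld.acyc }
  k1 := L.k1
  k0 := L.k0
  ko := L.ko
  fin := L.fin
  w2 := L.w2
  w3 := fun x y k h1 h2 h3 => by have := L.w3 x y k h1 h2 h3; linarith

/-- A horizontal straight run from the node `P` to the node `Q`. -/
def HRun (h v : ℤ → ℤ → ℤ) (a b : ℤ) (P Q : ℤ × ℤ) : Prop :=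
  P.2 = Q.2 ∧
    ((P.1 ≤ Q.1 ∧ (∀ x, P.1 ≤ x → x ≤ Q.1 → v x Q.2 = b) ∧
      (∀ x, P.1 ≤ x → x < Q.1 → a ≤ h x Q.2 ∧ h x (Q.2 + 1) < a)) ∨
     (Q.1 ≤ P.1 ∧ (∀ x, Q.1 ≤ x → x ≤ P.1 → v x Q.2 = b) ∧
      (∀ x, Q.1 ≤ x → x < P.1 → h x Q.2 < a ∧ a ≤ h x (Q.2 + 1))))

/-- A vertical straight run from the horizontal edge `P` to the horizontal edge `Q`. -/
def VRun (h v : ℤ → ℤ → ℤ) (a b : ℤ) (P Q : ℤ × ℤ) : Prop :=
  P.1 = Q.1 ∧
    ((P.2 ≤ Q.2 ∧ (∀ y, P.2 ≤ y → y ≤ Q.2 → h P.1 y = a) ∧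
      (∀ y, P.2 ≤ y → y < Q.2 → v P.1 y < b ∧ b ≤ v (P.1 + 1) y)) ∨
     (Q.2 ≤ P.2 ∧ (∀ y, Q.2 ≤ y → y ≤ P.2 → h P.1 y = a) ∧
      (∀ y, Q.2 ≤ y → y < P.2 → b ≤ v P.1 y ∧ v (P.1 + 1) y < b)))

/-- Rotation of runs. -/
theorem HRun.toV {c : ℤ} {P Q : ℤ × ℤ} (H : HRun (roth v) (rotv h) b c P Q) :
    VRun h v (-c) b (-P.2 - 1, P.1) (-Q.2 - 1, Q.1) := by
  obtain ⟨h1, h2⟩ := H
  refine ⟨by simp only; rw [h1], ?_⟩
  simp only
  rw [h1]
  unfold roth rotv at h2
  rcases h2 with ⟨g1, g2, g3⟩ | ⟨g1, g2, g3⟩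
  · left
    refine ⟨g1, fun y hy1 hy2 => ?_, fun y hy1 hy2 => ?_⟩
    · have := g2 y hy1 hy2
      linarith
    · have := g3 y hy1 hy2
      rw [show -(Q.2 + 1) = -Q.2 - 1 by ring] at this
      rw [show -Q.2 - 1 + 1 = -Q.2 by ring]
      exact ⟨this.2, this.1⟩
  · right
    refine ⟨g1, fun y hy1 hy2 => ?_, fun y hy1 hy2 => ?_⟩
    · have := g2 y hy1 hy2
      linarith
    · have := g3 y hy1 hy2
      rw [show -(Q.2 + 1) = -Q.2 - 1 by ring] at this
      rw [show -Q.2 - 1 + 1 = -Q.2 by ring]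
      exact ⟨this.2, this.1⟩

/-- Along a stretch where `v` is constant the steps are all to the east or all to the west. -/
theorem Lev.flat_dir (L : Lev h v d κ a) (C : LCurve h a T p e) {A B : ℕ} {c : ℤ} (hA : 1 ≤ A)
    (hAB : A ≤ B) (hB : B ≤ T) (hV : ∀ k, A ≤ k → k ≤ B → v (p k).1 (p k).2 = c)
    (nw : ∀ k, A ≤ k → k < B → e k = .N → κ (p k).1 ((p k).2 + 1) ≤ 0) :
    (∀ k, A ≤ k → k < B → e k = .E) ∨ (∀ k, A ≤ k → k < B → e k = .W) := by
  have hEW : ∀ k, A ≤ k → k < B → e k = .E ∨ e k = .W := by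
    intro k hk1 hk2
    have hf1 := hV k hk1 (by omega)
    have hf2 := hV (k + 1) (by omega) (by omega)
    obtain ⟨g1, g2, g3⟩ := C.walk (i := k) (j := k + 1) (by omega) (by omega) k (le_refl _)
      (by omega)
    cases hek : e k
    · exfalso
      rw [hek] at g1 g2
      have h1 := L.stepN g1
      have h2 := nw k hk1 hk2 hek
      rw [g2] at hf2
      simp only [Dir.vec, Prod.fst_add, Prod.snd_add, add_zero] at hf2
      omega
    · exact Or.inl rfl
    · exfalso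
      rw [hek] at g1 g2 g3
      have h1 := L.stepS g1 (fun hc => g3 ⟨Prod.ext hc.1 hc.2, rfl⟩)
      rw [g2] at hf2
      simp only [Dir.vec, Prod.fst_add, Prod.snd_add, add_zero] at hf2
      rw [← sub_eq_add_neg] at hf2
      omega
    · exact Or.inr rfl
  rcases eq_or_lt_of_le hAB with h0 | h0
  · left
    intro k hk1 hk2
    omega
  rcases hEW A (le_refl _) h0 with h1 | h1
  · left
    intro k hk1
    induction k, hk1 using Nat.le_induction with
    | base => intro _; exact h1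
    | succ k hk ih =>
      intro hk2
      rcases hEW (k + 1) (by omega) hk2 with h2 | h2
      · exact h2
      · exfalso
        have h3 := (C.walk (i := k) (j := k + 2) (by omega) (by omega)).no_rev
        rw [h2, ih (by omega)] at h3
        exact h3 rfl
  · right
    intro k hk1
    induction k, hk1 using Nat.le_induction with
    | base => intro _; exact h1
    | succ k hk ih =>
      intro hk2
      rcases hEW (k + 1) (by omega) hk2 with h2 | h2
      · exfalso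
        have h3 := (C.walk (i := k) (j := k + 2) (by omega) (by omega)).no_rev
        rw [h2, ih (by omega)] at h3
        exact h3 rfl
      · exact h2

theorem run_posE (C : LCurve h a T p e) {A B : ℕ} (hB : B ≤ T)
    (hE : ∀ k, A ≤ k → k < B → e k = .E) (k : ℕ) (hk : A + k ≤ B) :
    p (A + k) = ((p A).1 + k, (p A).2) := by
  induction k with
  | zero => simp
  | succ k ih =>
    have h1 := C.step (A + k) (by omega)
    rw [hE (A + k) (by omega) (by omega), ih (by omega)] at h1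
    rw [show A + (k + 1) = A + k + 1 by ring, h1]
    simp only [Dir.vec, Prod.mk_add_mk, add_zero]
    push_cast
    rw [add_assoc]

theorem run_posW (C : LCurve h a T p e) {A B : ℕ} (hB : B ≤ T)
    (hE : ∀ k, A ≤ k → k < B → e k = .W) (k : ℕ) (hk : A + k ≤ B) :
    p (A + k) = ((p A).1 - k, (p A).2) := by
  induction k with
  | zero => simp
  | succ k ih =>
    have h1 := C.step (A + k) (by omega)
    rw [hE (A + k) (by omega) (by omega), ih (by omega)] at h1
    rw [show A + (k + 1) = A + k + 1 by ring, h1]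
    simp only [Dir.vec, Prod.mk_add_mk, add_zero]
    push_cast
    congr 1
    ring

/-- A stretch where `v` is constant is a straight run. -/
theorem Lev.hrun (L : Lev h v d κ a) (C : LCurve h a T p e) {A B : ℕ} {c : ℤ} (hA : 1 ≤ A)
    (hAB : A ≤ B) (hB : B ≤ T) (hV : ∀ k, A ≤ k → k ≤ B → v (p k).1 (p k).2 = c)
    (nw : ∀ k, A ≤ k → k < B → e k = .N → κ (p k).1 ((p k).2 + 1) ≤ 0) :
    HRun h v a c (p A) (p B) ∧
    (∀ k, A ≤ k → k < B → (p k).2 = (p B).2 ∧
      ((e k = .E ∧ (p A).1 ≤ (p k).1 ∧ (p k).1 + 1 ≤ (p B).1) ∨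
       (e k = .W ∧ (p B).1 + 1 ≤ (p k).1 ∧ (p k).1 ≤ (p A).1))) := by
  obtain ⟨m, rfl⟩ := Nat.exists_eq_add_of_le hAB
  rcases L.flat_dir C hA hAB hB hV nw with hE | hE
  · have hpos : ∀ k : ℕ, k ≤ m → p (A + k) = ((p A).1 + k, (p A).2) :=
      fun k hk => run_posE C hB hE k (by omega)
    refine ⟨⟨by rw [hpos m (le_refl _)], Or.inl ⟨?_, ?_, ?_⟩⟩, ?_⟩
    · rw [hpos m (le_refl _)]
      simp
    · intro x hx1 hx2
      rw [hpos m (le_refl _)] at hx2 ⊢
      simp only at hx2 ⊢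
      obtain ⟨k, hk⟩ : ∃ k : ℕ, x = (p A).1 + k := ⟨(x - (p A).1).toNat, by omega⟩
      have h1 := hV (A + k) (by omega) (by omega)
      rw [hpos k (by omega), ← hk] at h1
      exact h1
    · intro x hx1 hx2
      rw [hpos m (le_refl _)] at hx2 ⊢
      simp only at hx2 ⊢
      obtain ⟨k, hk⟩ : ∃ k : ℕ, x = (p A).1 + k := ⟨(x - (p A).1).toNat, by omega⟩
      have h1 := C.val (A + k) (by omega)
      rw [hpos k (by omega), hE (A + k) (by omega) (by omega), ← hk] at h1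
      exact ⟨h1.2, h1.1⟩
    · intro k hk1 hk2
      obtain ⟨j, rfl⟩ := Nat.exists_eq_add_of_le hk1
      rw [hpos m (le_refl _), hpos j (by omega)]
      refine ⟨rfl, Or.inl ⟨hE _ hk1 hk2, ?_, ?_⟩⟩
      · simp
      · simp only
        omega
  · have hpos : ∀ k : ℕ, k ≤ m → p (A + k) = ((p A).1 - k, (p A).2) :=
      fun k hk => run_posW C hB hE k (by omega)
    refine ⟨⟨by rw [hpos m (le_refl _)], Or.inr ⟨?_, ?_, ?_⟩⟩, ?_⟩
    · rw [hpos m (le_refl _)]
      simp
    · intro x hx1 hx2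
      rw [hpos m (le_refl _)] at hx1 ⊢
      simp only at hx1 ⊢
      obtain ⟨k, hk⟩ : ∃ k : ℕ, x = (p A).1 - k := ⟨((p A).1 - x).toNat, by omega⟩
      have h1 := hV (A + k) (by omega) (by omega)
      rw [hpos k (by omega), ← hk] at h1
      exact h1
    · intro x hx1 hx2
      rw [hpos m (le_refl _)] at hx1 ⊢
      simp only at hx1 ⊢
      obtain ⟨k, hk⟩ : ∃ k : ℕ, x = (p A).1 - k - 1 := ⟨((p A).1 - x - 1).toNat, by omega⟩
      have h1 := C.val (A + k) (by omega)
      rw [hpos k (by omega), hE (A + k) (by omega) (by omega)] at h1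
      simp only [Val] at h1
      rw [← hk] at h1
      exact ⟨h1.1, h1.2⟩
    · intro k hk1 hk2
      obtain ⟨j, rfl⟩ := Nat.exists_eq_add_of_le hk1
      rw [hpos m (le_refl _), hpos j (by omega)]
      refine ⟨rfl, Or.inr ⟨hE _ hk1 hk2, ?_, ?_⟩⟩
      · simp only
        omega
      · simp

/-- The times of consecutive levels. -/
theorem Lev.link (L : Lev h v d κ a) (C : LCurve h a T p e) {c : ℤ} {u0 u1 t0 t1 : ℕ}
    (O' : OnC (fun k => v (p k).1 (p k).2) (c + 1) T u0 u1)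
    (O : OnC (fun k => v (p k).1 (p k).2) c T t0 t1) :
    u1 = t0 ∨ (u1 < t0 ∧ ∀ k, u1 + 1 ≤ k → k ≤ t0 → v (p k).1 (p k).2 = c) := by
  rcases lt_trichotomy u1 t0 with h1 | h1 | h1
  · right
    refine ⟨h1, fun k hk1 hk2 => ?_⟩
    have h2 := O'.after k (by omega) (by have := O.h2; have := O.h3; omega)
    have h3 := O.before k (by omega) hk2
    omega
  · exact Or.inl h1
  · exfalso
    have h2 := L.claimA (show t0 + 1 ≤ u1 by omega) (C.walk (by omega) (by have := O'.h3; omega))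
    have h3 := O.cr0
    have h4 := O'.cr1
    omega

/-- Flat steps are outside the contacts. -/
theorem flat_time {V : ℕ → ℤ} {c : ℤ} {u0 u1 t0 t1 : ℕ} (O' : OnC V (c + 1) T u0 u1)
    (O : OnC V c T t0 t1)
    (nf' : ∀ k, u0 ≤ k → k ≤ u1 → (c + 1 ≤ V k ∧ V (k + 1) < c + 1) ∨
      (V k < c + 1 ∧ c + 1 ≤ V (k + 1)))
    (nf : ∀ k, t0 ≤ k → k ≤ t1 → (c ≤ V k ∧ V (k + 1) < c) ∨ (V k < c ∧ c ≤ V (k + 1)))
    {k : ℕ} (hk1 : 1 ≤ k) (hk2 : k < T) (h1 : V k = c) (h2 : V (k + 1) = c) : u1 < k ∧ k < t0 := by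
  constructor
  · by_contra hc
    by_cases h3 : k < u0
    · have := O'.before k hk1 (by omega)
      omega
    · have := nf' k (by omega) (by omega)
      omega
  · by_contra hc
    by_cases h3 : k ≤ t1
    · have := nf k (by omega) h3
      omega
    · have := O.after k (by omega) (by omega)
      omega

end RotorNE
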