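import Mathlib.Tactic
import Mathlib.Data.Nat.Nth
import Mathlib.Order.Filter.AtTopBot.Basic
import Mathlib.Algebra.BigOperators.Intervals
import Mathlib.Data.Int.Interval
import Pool.Agent.Lib.MP_936783_pr.Links

/-!
# The system of all contacts
-/

open Filter

namespace RotorNE

/-- Global data: all levels up to `R`, sinks in the row `Y` between the columns `l` and `r`. -/
structure Glob (h v : ℤ → ℤ → ℤ) (d : ℤ → ℤ → Dir) (κ : ℤ → ℤ → ℤ) (R l r Y : ℤ) : Prop where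
  L : ∀ a, |a| ≤ R → Lev h v d κ a
  L' : ∀ b, |b| ≤ R → Lev (roth v) (rotv h) (rotd d) (rotk κ) b
  R1 : 1 ≤ R
  rH : h 0 0 < -R ∧ R ≤ h (-1) 0
  rV : v 0 0 < -R ∧ R ≤ v 0 (-1)
  kz : ∀ x y, κ x y = 1 → y = Y ∧ l ≤ x ∧ x < r
  lr : l < r
  Y0 : 0 < Y
  hz : ∀ x, h x Y = 0
  vz : ∀ x, l ≤ x → x < r → v x (Y - 1) < 0 ∧ 0 ≤ v x Y

/-- The system of contacts. -/
structure CSys (h v : ℤ → ℤ → ℤ) (R l r Y : ℤ) (K : ℤ → ℤ → Kc) : Prop where
  isK : ∀ a b, |a| ≤ R → |b| ≤ R → IsK h v a b (K a b)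
  hlink : ∀ a b, |a| ≤ R → |b| ≤ R → |b + 1| ≤ R → HLink h v a b (K a (b + 1)) (K a b)
  vlink : ∀ a b, |a| ≤ R → |b| ≤ R → |a + 1| ≤ R → ¬ (a = 0 ∧ b = 0) →
    VLink h v a b (K a b) (K (a + 1) b)
  cap0 : VRun h v 0 0 (K 0 0).edgeOut (r - 1, Y)
  cap1 : VRun h v 0 0 (l - 1, Y) (K 1 0).edgeIn
  vp : ∀ a b X Y, |a| ≤ R → |b| ≤ R → VP h v a b X Y → (K a b).vp X Y
  vm : ∀ a b X Y, |a| ≤ R → |b| ≤ R → VM h v a b X Y → (K a b).vm X Y
  en : ∀ a b X Y, |a| ≤ R → |b| ≤ R → EN h v a b X Y → (K a b).en X Y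
  es : ∀ a b X Y, |a| ≤ R → |b| ≤ R → ES h v a b X Y → (K a b).es X Y
  wn : ∀ a b X Y, |a| ≤ R → |b| ≤ R → WN h v a b X Y → (K a b).wn X Y
  /-- clean runs to the east -/
  hE : ∀ a b x y, |a| ≤ R → |b| ≤ R → |b + 1| ≤ R → h x (y + 1) < a → a ≤ h x y → v x y = b →
    v (x + 1) y = b → y = (K a b).nodeIn.2 ∧ y = (K a (b + 1)).nodeOut.2 ∧
      (K a (b + 1)).nodeOut.1 ≤ x ∧ x + 1 ≤ (K a b).nodeIn.1
  /-- clean runs to the west -/
  hW : ∀ a b x y, |a| ≤ R → |b| ≤ R → |b + 1| ≤ R → h x y < a → a ≤ h x (y + 1) → v x y = b →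
    v (x + 1) y = b → y = (K a b).nodeIn.2 ∧ y = (K a (b + 1)).nodeOut.2 ∧
      (K a b).nodeIn.1 ≤ x ∧ x + 1 ≤ (K a (b + 1)).nodeOut.1
  /-- clean runs to the north -/
  vN : ∀ a b x y, |a| ≤ R → |b| ≤ R → |a + 1| ≤ R → ¬ (a = 0 ∧ b = 0) → v x y < b →
    b ≤ v (x + 1) y → h x y = a → h x (y + 1) = a → x = (K a b).edgeOut.1 ∧
      x = (K (a + 1) b).edgeIn.1 ∧ (K a b).edgeOut.2 ≤ y ∧ y + 1 ≤ (K (a + 1) b).edgeIn.2
  /-- clean runs to the south -/
  vS : ∀ a b x y, |a| ≤ R → |b| ≤ R → |a + 1| ≤ R → ¬ (a = 0 ∧ b = 0) → b ≤ v x y →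
    v (x + 1) y < b → h x y = a → h x (y + 1) = a → x = (K a b).edgeOut.1 ∧
      x = (K (a + 1) b).edgeIn.1 ∧ (K (a + 1) b).edgeIn.2 ≤ y ∧ y + 1 ≤ (K a b).edgeOut.2
  /-- clean runs of the slope zero -/
  v0N : ∀ x y, v x y < 0 → 0 ≤ v (x + 1) y → h x y = 0 → h x (y + 1) = 0 →
    (x = r - 1 ∧ (K 0 0).edgeOut.2 ≤ y ∧ y + 1 ≤ Y) ∨
    (x = l - 1 ∧ Y ≤ y ∧ y + 1 ≤ (K 1 0).edgeIn.2)
  v0S : ∀ x y, 0 ≤ v x y → v (x + 1) y < 0 → h x y = 0 → h x (y + 1) = 0 →
    (x = r - 1 ∧ Y ≤ y ∧ y + 1 ≤ (K 0 0).edgeOut.2) ∨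
    (x = l - 1 ∧ (K 1 0).edgeIn.2 ≤ y ∧ y + 1 ≤ Y)

variable {h v : ℤ → ℤ → ℤ} {d : ℤ → ℤ → Dir} {κ : ℤ → ℤ → ℤ} {a b : ℤ}
variable {T T' : ℕ} {p p' : ℕ → ℤ × ℤ} {e e' : ℕ → Dir}

/-- The horizontal link. -/
theorem hlink_of (L : Lev h v d κ a) (C : LCurve h a T p e)
    (nw : ∀ x y, Val h a x y .N → κ x (y + 1) ≤ 0)
    {T1 : ℕ} {p1 : ℕ → ℤ × ℤ} {e1 : ℕ → Dir} {K' K : Kc} {u0 u1 w0 w1 t0 t1 s0 s1 : ℕ}
    (I' : IsContact h v a (b + 1) T p e T1 p1 e1 K' u0 u1 w0 w1)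
    (I : IsContact h v a b T p e T' p' e' K t0 t1 s0 s1) :
    HLink h v a b K' K ∧ (∀ k, 1 ≤ k → k < T → v (p k).1 (p k).2 = b →
      v (p (k + 1)).1 (p (k + 1)).2 = b → (p k).2 = K.nodeIn.2 ∧ K'.nodeOut.2 = K.nodeIn.2 ∧
        ((e k = .E ∧ K'.nodeOut.1 ≤ (p k).1 ∧ (p k).1 + 1 ≤ K.nodeIn.1) ∨
         (e k = .W ∧ K.nodeIn.1 + 1 ≤ (p k).1 ∧ (p k).1 ≤ K'.nodeOut.1))) := by
  constructor
  · rcases L.link C I'.on1 I.on1 with h1 | ⟨h1, h2⟩
    · right
      rw [← I'.cout, ← I.cin, h1]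
    · left
      have h3 := (L.hrun C (A := u1 + 1) (B := t0) (c := b) (by omega) (by omega)
        (by have := I.on1.h2; have := I.on1.h3; omega) h2 (by
          intro k hk1 hk2 hk3
          have h4 := C.val k (by have := I.on1.h2; have := I.on1.h3; omega)
          rw [hk3] at h4
          exact nw _ _ h4)).1
      rw [I'.pout, I.pin] at h3
      exact h3
  · intro k hk1 hk2 hk3 hk4
    have hft := flat_time (V := fun k => v (p k).1 (p k).2) I'.on1 I.on1 I'.nf1 I.nf1 hk1 hk2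
      hk3 hk4
    rcases L.link C I'.on1 I.on1 with h1 | ⟨h1, h2⟩
    · omega
    · obtain ⟨h3, h5⟩ := L.hrun C (A := u1 + 1) (B := t0) (c := b) (by omega) (by omega)
        (by have := I.on1.h2; have := I.on1.h3; omega) h2 (by
          intro k hk1 hk2 hk3
          have h4 := C.val k (by have := I.on1.h2; have := I.on1.h3; omega)
          rw [hk3] at h4
          exact nw _ _ h4)
      have h6 := h5 k (by omega) hft.2
      rw [I'.pout, I.pin] at h6
      rw [I'.pout, I.pin] at h3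
      exact ⟨h6.1, h3.1, h6.2⟩

/-- The times of consecutive levels on the second curve. -/
theorem on2_shift {K : Kc} {t0 t1 s0 s1 : ℕ}
    (I : IsContact h v a b T p e T' p' e' K t0 t1 s0 s1) :
    OnC (fun k => rotv h (p' k).1 (p' k).2) (-a + 1) T' s0 s1 := by
  have := I.on2
  rw [show (1 : ℤ) - a = -a + 1 by ring] at this
  exact this

theorem nf2_shift {K : Kc} {t0 t1 s0 s1 : ℕ}
    (I : IsContact h v a b T p e T' p' e' K t0 t1 s0 s1) (k : ℕ) (hk1 : s0 ≤ k) (hk2 : k ≤ s1) :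
    (-a + 1 ≤ rotv h (p' k).1 (p' k).2 ∧ rotv h (p' (k + 1)).1 (p' (k + 1)).2 < -a + 1) ∨
    (rotv h (p' k).1 (p' k).2 < -a + 1 ∧ -a + 1 ≤ rotv h (p' (k + 1)).1 (p' (k + 1)).2) := by
  have := I.nf2 k hk1 hk2
  unfold rotv
  omega

/-- The run between two consecutive contacts on the second curve. -/
theorem vlink_of (L' : Lev (roth v) (rotv h) (rotd d) (rotk κ) b) (C' : LCurve (roth v) b T' p' e')
    {T1 : ℕ} {p1 : ℕ → ℤ × ℤ} {e1 : ℕ → Dir} {K K' : Kc} {t0 t1 s0 s1 u0 u1 w0 w1 : ℕ}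
    (I : IsContact h v a b T p e T' p' e' K t0 t1 s0 s1)
    (I' : IsContact h v (a + 1) b T1 p1 e1 T' p' e' K' u0 u1 w0 w1)
    (nw : ∀ x y, Val (roth v) b x y .N → rotv h x y = -a → rotk κ x (y + 1) ≤ 0) :
    VLink h v a b K K' ∧ (∀ k, 1 ≤ k → k < T' → h (-(p' k).2 - 1) (p' k).1 = a →
      h (-(p' (k + 1)).2 - 1) (p' (k + 1)).1 = a → -(p' k).2 - 1 = K.edgeOut.1 ∧
        K.edgeOut.1 = K'.edgeIn.1 ∧
        ((e' k = .E ∧ K.edgeOut.2 ≤ (p' k).1 ∧ (p' k).1 + 1 ≤ K'.edgeIn.2) ∨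
         (e' k = .W ∧ K'.edgeIn.2 + 1 ≤ (p' k).1 ∧ (p' k).1 ≤ K.edgeOut.2))) := by
  have O := on2_shift I
  have O' : OnC (fun k => rotv h (p' k).1 (p' k).2) (-a) T' w0 w1 := by
    have := on2_shift I'
    rw [show -(a + 1) + 1 = -a by ring] at this
    exact this
  have hB : w0 ≤ T' := by have := O'.h2; have := O'.h3; omega
  have hnw : ∀ A, (∀ k, A ≤ k → k ≤ w0 → rotv h (p' k).1 (p' k).2 = -a) →
      ∀ k, A ≤ k → k < w0 → e' k = .N → rotk κ (p' k).1 ((p' k).2 + 1) ≤ 0 := by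
    intro A hA k hk1 hk2 hk3
    have h4 := C'.val k (by omega)
    rw [hk3] at h4
    exact nw _ _ h4 (hA k hk1 (by omega))
  constructor
  · rcases L'.link C' O O' with h1 | ⟨h1, h2⟩
    · right
      rw [← I.cout', ← I'.cin', h1]
    · left
      have h3 := (L'.hrun C' (A := s1 + 1) (B := w0) (c := -a) (by omega) (by omega)
        hB h2 (hnw _ h2)).1
      have h4 := h3.toV
      rw [I.pout', I'.pin'] at h4
      simp only at h4
      rw [neg_neg, show -(-K.edgeOut.1 - 1) - 1 = K.edgeOut.1 by ring,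
        show -(-K'.edgeIn.1 - 1) - 1 = K'.edgeIn.1 by ring] at h4
      exact h4
  · intro k hk1 hk2 hk3 hk4
    have hft := flat_time (V := fun k => rotv h (p' k).1 (p' k).2) O O' (nf2_shift I) (by
      intro k hk1 hk2
      have := nf2_shift I' k hk1 hk2
      rw [show -(a + 1) + 1 = -a by ring] at this
      exact this) hk1 hk2 (by unfold rotv; rw [hk3]) (by unfold rotv; rw [hk4])
    rcases L'.link C' O O' with h1 | ⟨h1, h2⟩
    · omega
    · obtain ⟨h3, h5⟩ := L'.hrun C' (A := s1 + 1) (B := w0) (c := -a) (by omega) (by omega)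
        hB h2 (hnw _ h2)
      obtain ⟨h6, h7⟩ := h5 k (by omega) hft.2
      have h8 := h3.1
      rw [I'.pin'] at h6 h7
      rw [I.pout'] at h7
      rw [I.pout', I'.pin'] at h8
      simp only at h6 h7 h8
      exact ⟨by omega, by omega, h7⟩

/-- The runs of the slope zero. -/
theorem cap_of (L' : Lev (roth v) (rotv h) (rotd d) (rotk κ) 0) (C' : LCurve (roth v) 0 T' p' e')
    {T1 : ℕ} {p1 : ℕ → ℤ × ℤ} {e1 : ℕ → Dir} {K K' : Kc} {t0 t1 s0 s1 u0 u1 w0 w1 : ℕ}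
    {l r Y : ℤ} (lr : l < r) (Y0 : 0 < Y) (hz : ∀ x, h x Y = 0)
    (vz : ∀ x, l ≤ x → x < r → v x (Y - 1) < 0 ∧ 0 ≤ v x Y)
    (kz : ∀ x y, κ x y = 1 → y = Y ∧ l ≤ x ∧ x < r)
    (I : IsContact h v 0 0 T p e T' p' e' K t0 t1 s0 s1)
    (I' : IsContact h v 1 0 T1 p1 e1 T' p' e' K' u0 u1 w0 w1) :
    VRun h v 0 0 K.edgeOut (r - 1, Y) ∧ VRun h v 0 0 (l - 1, Y) K'.edgeIn ∧
    (∀ k, 1 ≤ k → k < T' → e' k ≠ .N → h (-(p' k).2 - 1) (p' k).1 = 0 →
      h (-(p' (k + 1)).2 - 1) (p' (k + 1)).1 = 0 →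
        ((-(p' k).2 - 1 = r - 1 ∧
          ((e' k = .E ∧ K.edgeOut.2 ≤ (p' k).1 ∧ (p' k).1 + 1 ≤ Y) ∨
           (e' k = .W ∧ Y + 1 ≤ (p' k).1 ∧ (p' k).1 ≤ K.edgeOut.2))) ∨
         (-(p' k).2 - 1 = l - 1 ∧
          ((e' k = .E ∧ Y ≤ (p' k).1 ∧ (p' k).1 + 1 ≤ K'.edgeIn.2) ∨
           (e' k = .W ∧ K'.edgeIn.2 + 1 ≤ (p' k).1 ∧ (p' k).1 ≤ Y))))) := by
  have O := on2_shift I
  rw [neg_zero] at O
  have O' : OnC (fun k => rotv h (p' k).1 (p' k).2) 0 T' w0 w1 := by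
    have := on2_shift I'
    rw [show -(1 : ℤ) + 1 = 0 by ring] at this
    exact this
  have hB : w0 < T' := by have := O'.h2; have := O'.h3; omega
  have hflat : ∀ k, 1 ≤ k → k < T' → h (-(p' k).2 - 1) (p' k).1 = 0 →
      h (-(p' (k + 1)).2 - 1) (p' (k + 1)).1 = 0 → s1 < k ∧ k < w0 := by
    intro k hk1 hk2 hk3 hk4
    refine flat_time (V := fun k => rotv h (p' k).1 (p' k).2) O O' (by
      intro k hk1 hk2
      have := nf2_shift I k hk1 hk2
      rw [neg_zero] at this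
      exact this) (by
      intro k hk1 hk2
      have := nf2_shift I' k hk1 hk2
      rw [show -(1 : ℤ) + 1 = 0 by ring] at this
      exact this) hk1 hk2 (by unfold rotv; rw [hk3]; rfl) (by unfold rotv; rw [hk4]; rfl)
  -- the times of the sinks
  have hsink : ∀ x, l ≤ x → x < r → ∃ k, 1 ≤ k ∧ k < T' ∧ p' k = (Y, -x - 1) ∧ e' k = .N := by
    intro x hx1 hx2
    obtain ⟨k, hk, hp, he⟩ := C'.all _ _ _ (valV_N (v := v) (b := 0) (X := x) (Y := Y)|>.2
      (vz x hx1 hx2))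
    refine ⟨k, ?_, hk, hp, he⟩
    rcases Nat.eq_zero_or_pos k with h0 | h0
    · exfalso
      rw [h0, C'.e0] at he
      cases he
    · exact h0
  obtain ⟨k0, hk01, hk02, hk03, hk04⟩ := hsink (r - 1) (by omega) (by omega)
  have hcons : ∀ j : ℕ, (j : ℤ) ≤ r - 1 - l → k0 + j < T' ∧ p' (k0 + j) = (Y, -(r - 1) - 1 + j) ∧
      e' (k0 + j) = .N := by
    intro j
    induction j with
    | zero =>
      intro _
      exact ⟨hk02, by simpa using hk03, hk04⟩
    | succ j ih =>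
      intro hj
      push_cast at hj
      obtain ⟨g1, g2, g3⟩ := ih (by omega)
      have h1 := C'.step (k0 + j) g1
      rw [g2, g3] at h1
      simp only [Dir.vec, Prod.mk_add_mk, add_zero] at h1
      obtain ⟨k, f1, f2, f3, f4⟩ := hsink (r - 1 - (j + 1)) (by omega) (by omega)
      have h2 : p' k = p' (k0 + j + 1) := by
        rw [f3, h1]
        congr 1
        ring
      have h3 : k = k0 + j + 1 := by
        rcases eq_or_lt_of_le (show k0 + j + 1 ≤ T' by omega) with h4 | h4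
        · exfalso
          rw [h4, C'.pT, f3] at h2
          have := congrArg Prod.fst h2
          simp only at this
          omega
        · exact C'.inj _ _ f2 h4 h2
      rw [← add_assoc]
      rw [h3] at f2 f4
      refine ⟨f2, ?_, f4⟩
      rw [h1]
      push_cast
      congr 1
      ring
  obtain ⟨J, hJ⟩ : ∃ J : ℕ, (J : ℤ) = r - 1 - l := ⟨(r - 1 - l).toNat, by omega⟩
  obtain ⟨hk11, hk12, hk13⟩ := hcons J (le_of_eq hJ)
  -- the value on the sinks is zero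
  have hv0 : ∀ j : ℕ, (j : ℤ) ≤ r - 1 - l → s1 < k0 + j ∧ k0 + j < w0 := by
    intro j hj
    obtain ⟨g1, g2, g3⟩ := hcons j hj
    have h1 := C'.step (k0 + j) g1
    rw [g2, g3] at h1
    refine hflat (k0 + j) (by omega) g1 ?_ ?_
    · rw [g2]; exact hz _
    · rw [h1]; simp only [Dir.vec, Prod.mk_add_mk, add_zero]; exact hz _
  have hA := (hv0 0 (by push_cast; omega)).1
  have hB1 := (hv0 J (le_of_eq hJ)).2
  rw [add_zero] at hA
  obtain ⟨-, hconst⟩ : s1 < w0 ∧ ∀ k, s1 + 1 ≤ k → k ≤ w0 → rotv h (p' k).1 (p' k).2 = 0 := by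
    rcases L'.link C' O O' with h1 | h1
    · omega
    · exact h1
  -- passes to the north in the stretch are sinks
  have hN : ∀ k, s1 + 1 ≤ k → k < w0 → e' k = .N → 0 < rotk κ (p' k).1 ((p' k).2 + 1) →
      k0 ≤ k ∧ k ≤ k0 + J := by
    intro k hk1 hk2 hk3 hk4
    have h1 := L'.k1 (p' k).1 ((p' k).2 + 1)
    have h2 : rotk κ (p' k).1 ((p' k).2 + 1) = 1 := by omega
    unfold rotk at h2
    obtain ⟨g1, g2, g3⟩ := kz _ _ h2
    obtain ⟨j, hj⟩ : ∃ j : ℕ, (j : ℤ) = r - 1 - (-((p' k).2 + 1)) :=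
      ⟨(r - 1 - (-((p' k).2 + 1))).toNat, by omega⟩
    obtain ⟨f1, f2, f3⟩ := hcons j (by omega)
    have h3 : k = k0 + j := by
      refine C'.inj _ _ (by omega) f1 ?_
      rw [f2]
      ext
      · exact g1
      · simp only
        omega
    omega
  have run0 := L'.hrun C' (A := s1 + 1) (B := k0) (c := 0) (by omega) (by omega) (by omega)
    (fun k hk1 hk2 => hconst k hk1 (by omega)) (by
      intro k hk1 hk2 hk3
      by_contra hc
      have := hN k hk1 (by omega) hk3 (by omega)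
      omega)
  have run1 := L'.hrun C' (A := k0 + J + 1) (B := w0) (c := 0) (by omega) (by omega) (by omega)
    (fun k hk1 hk2 => hconst k (by omega) hk2) (by
      intro k hk1 hk2 hk3
      by_contra hc
      have := hN k (by omega) hk2 hk3 (by omega)
      omega)
  have hp1 : p' (k0 + J + 1) = (Y, -l) := by
    have h1 := C'.step (k0 + J) hk11
    rw [hk12, hk13] at h1
    rw [h1]
    simp only [Dir.vec, Prod.mk_add_mk, add_zero]
    congr 1
    omega
  refine ⟨?_, ?_, ?_⟩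
  · have h4 := run0.1.toV
    rw [I.pout', hk03] at h4
    simp only at h4
    rw [neg_zero, show -(-K.edgeOut.1 - 1) - 1 = K.edgeOut.1 by ring,
      show -(-(r - 1) - 1) - 1 = r - 1 by ring] at h4
    exact h4
  · have h4 := run1.1.toV
    rw [I'.pin', hp1] at h4
    simp only at h4
    rw [neg_zero, neg_neg, show -(-K'.edgeIn.1 - 1) - 1 = K'.edgeIn.1 by ring] at h4
    exact h4
  · intro k hk1 hk2 hk3 hk4 hk5
    obtain ⟨g1, g2⟩ := hflat k hk1 hk2 hk4 hk5
    rcases Nat.lt_or_ge k k0 with h1 | h1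
    · left
      obtain ⟨f1, f2⟩ := run0.2 k (by omega) h1
      rw [hk03] at f1 f2
      rw [I.pout'] at f2
      simp only at f1 f2
      exact ⟨by omega, f2⟩
    · rcases Nat.lt_or_ge (k0 + J) k with h2 | h2
      · right
        obtain ⟨f1, f2⟩ := run1.2 k (by omega) g2
        have f3 := run1.1.1
        rw [I'.pin'] at f1 f2 f3
        rw [hp1] at f2 f3
        simp only at f1 f2 f3
        exact ⟨by omega, f2⟩
      · exfalso
        obtain ⟨j, rfl⟩ := Nat.exists_eq_add_of_le h1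
        exact hk3 (hcons j (by omega)).2.2

/-- The system of contacts exists. -/
theorem Glob.sys {R l r Y : ℤ} (G : Glob h v d κ R l r Y) : ∃ K, CSys h v R l r Y K := by
  have hR := G.R1
  have hcH : ∀ a : ℤ, ∃ (T : ℕ) (p : ℕ → ℤ × ℤ) (e : ℕ → Dir), |a| ≤ R → LCurve h a T p e := by
    intro a
    by_cases ha : |a| ≤ R
    · obtain ⟨T, p, e, C⟩ := (G.L a ha).exists_curve ⟨0, 0, .S, by
        have := G.rH
        rw [abs_le] at ha
        refine ⟨by omega, ?_⟩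
        rw [zero_sub]
        omega⟩
      exact ⟨T, p, e, fun _ => C⟩
    · exact ⟨0, fun _ => (0, 0), fun _ => .N, fun h => absurd h ha⟩
  have hcV : ∀ b : ℤ, ∃ (T : ℕ) (p : ℕ → ℤ × ℤ) (e : ℕ → Dir),
      |b| ≤ R → LCurve (roth v) b T p e := by
    intro b
    by_cases hb : |b| ≤ R
    · obtain ⟨T, p, e, C⟩ := (G.L' b hb).exists_curve ⟨0, 0, .S, by
        have := G.rV
        rw [abs_le] at hb
        unfold Val roth
        rw [zero_sub, neg_zero]
        exact ⟨by omega, by omega⟩⟩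
      exact ⟨T, p, e, fun _ => C⟩
    · exact ⟨0, fun _ => (0, 0), fun _ => .N, fun h => absurd h hb⟩
  choose T p e hC using hcH
  choose T' p' e' hC' using hcV
  have hnw : ∀ a : ℤ, |a| ≤ R → ∀ x y, Val h a x y .N → κ x (y + 1) ≤ 0 := by
    intro a ha x y hN
    by_contra hc
    have h1 := (G.L a ha).k1 x (y + 1)
    obtain ⟨h2, -, -⟩ := G.kz x (y + 1) (by omega)
    obtain ⟨h3, h4⟩ := hN
    rw [h2, G.hz] at h3 h4
    omega
  have hct : ∀ a b : ℤ, ∃ (K : Kc) (t0 t1 s0 s1 : ℕ), |a| ≤ R → |b| ≤ R →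
      IsContact h v a b (T a) (p a) (e a) (T' b) (p' b) (e' b) K t0 t1 s0 s1 := by
    intro a b
    by_cases hab : |a| ≤ R ∧ |b| ≤ R
    · have P : Pair h v d κ a b (T a) (p a) (e a) (T' b) (p' b) (e' b) :=
        ⟨G.L a hab.1, G.L' b hab.2, hC a hab.1, hC' b hab.2, hnw a hab.1⟩
      obtain ⟨K, t0, t1, s0, s1, I⟩ := P.contact
      exact ⟨K, t0, t1, s0, s1, fun _ _ => I⟩
    · exact ⟨.fe 0 0, 0, 0, 0, 0, fun h1 h2 => absurd ⟨h1, h2⟩ hab⟩
  choose K t0 t1 s0 s1 hI using hct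
  have hH := fun (a b : ℤ) (ha : |a| ≤ R) (hb : |b| ≤ R) (hb1 : |b + 1| ≤ R) =>
    hlink_of (G.L a ha) (hC a ha) (hnw a ha) (hI a (b + 1) ha hb1) (hI a b ha hb)
  have hV := fun (a b : ℤ) (ha : |a| ≤ R) (hb : |b| ≤ R) (ha1 : |a + 1| ≤ R)
    (hab : ¬ (a = 0 ∧ b = 0)) =>
    vlink_of (G.L' b hb) (hC' b hb) (hI a b ha hb) (hI (a + 1) b ha1 hb) (by
      intro x y hN hval
      by_contra hc
      have h1 := (G.L' b hb).k1 x (y + 1)
      have h2 : rotk κ x (y + 1) = 1 := by omega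
      unfold rotk at h2
      obtain ⟨h3, h4, h5⟩ := G.kz _ _ h2
      -- `h = 0` at the sinks, hence `a = 0`
      have h6 : rotv h x y = 0 := by
        unfold rotv
        rw [h3, G.hz, neg_zero]
      have ha0 : a = 0 := by omega
      -- `b = 0` from the values of `v` at the sinks
      obtain ⟨h7, h8⟩ := hN
      unfold roth at h7 h8
      rw [h3] at h7 h8
      have hsum := (G.L a ha).fld.div (-(y + 1)) Y
      rw [← h3] at hsum
      rw [h2] at hsum
      rw [h3, G.hz, G.hz] at hsum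
      have h9 := G.vz _ h4 h5
      exact hab ⟨ha0, by omega⟩)
  have hcap := cap_of (G.L' 0 (by simpa using by omega)) (hC' 0 (by simpa using by omega)) G.lr
    G.Y0 G.hz G.vz G.kz (hI 0 0 (by simpa using by omega) (by simpa using by omega))
    (hI 1 0 (by simpa using hR) (by simpa using by omega))
  refine ⟨K, ?_⟩
  constructor
  · exact fun a b ha hb => (hI a b ha hb).isK
  · exact fun a b ha hb hb1 => (hH a b ha hb hb1).1
  · exact fun a b ha hb ha1 hab => (hV a b ha hb ha1 hab).1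
  · exact hcap.1
  · exact hcap.2.1
  · exact fun a b X Y ha hb hK => (hI a b ha hb).vp X Y hK
  · exact fun a b X Y ha hb hK => (hI a b ha hb).vm X Y hK
  · exact fun a b X Y ha hb hK => (hI a b ha hb).en X Y hK
  · exact fun a b X Y ha hb hK => (hI a b ha hb).es X Y hK
  · exact fun a b X Y ha hb hK => (hI a b ha hb).wn X Y hK
  · -- hE
    intro a b x y ha hb hb1 h1 h2 h3 h4
    obtain ⟨k, hk, hpk, hek⟩ := (hC a ha).all x y .E ⟨h1, h2⟩
    have hk1 : 1 ≤ k := by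
      rcases Nat.eq_zero_or_pos k with h0 | h0
      · exfalso
        rw [h0, (hC a ha).e0] at hek
        cases hek
      · exact h0
    have hst := (hC a ha).step k hk
    rw [hpk, hek] at hst
    simp only [Dir.vec, Prod.mk_add_mk, add_zero] at hst
    have := (hH a b ha hb hb1).2 k hk1 hk (by rw [hpk]; exact h3) (by rw [hst]; exact h4)
    rw [hpk, hek] at this
    simp only at this
    obtain ⟨g1, g2, g3 | g3⟩ := this
    · exact ⟨g1, by omega, g3.2.1, g3.2.2⟩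
    · cases g3.1
  · -- hW
    intro a b x y ha hb hb1 h1 h2 h3 h4
    obtain ⟨k, hk, hpk, hek⟩ := (hC a ha).all (x + 1) y .W
      ⟨by rwa [add_sub_cancel_right], by rwa [add_sub_cancel_right]⟩
    have hk1 : 1 ≤ k := by
      rcases Nat.eq_zero_or_pos k with h0 | h0
      · exfalso
        rw [h0, (hC a ha).e0] at hek
        cases hek
      · exact h0
    have hst := (hC a ha).step k hk
    rw [hpk, hek] at hst
    simp only [Dir.vec, Prod.mk_add_mk, add_zero, add_neg_cancel_right] at hst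
    have := (hH a b ha hb hb1).2 k hk1 hk (by rw [hpk]; exact h4) (by rw [hst]; exact h3)
    rw [hpk, hek] at this
    simp only at this
    obtain ⟨g1, g2, g3 | g3⟩ := this
    · cases g3.1
    · exact ⟨g1, by omega, by omega, g3.2.2⟩
  · -- vN
    intro a b x y ha hb ha1 hab h1 h2 h3 h4
    obtain ⟨k, hk, hpk, hek⟩ := (hC' b hb).all _ _ _ (valV_E (v := v) (b := b) (X := x) (Y := y)|>.2
      ⟨h1, h2⟩)
    have hk1 : 1 ≤ k := by
      rcases Nat.eq_zero_or_pos k with h0 | h0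
      · exfalso
        rw [h0, (hC' b hb).e0] at hek
        cases hek
      · exact h0
    have hst := (hC' b hb).step k hk
    rw [hpk, hek] at hst
    simp only [Dir.vec, Prod.mk_add_mk, add_zero] at hst
    have := (hV a b ha hb ha1 hab).2 k hk1 hk
      (by rw [hpk]; simp only; rw [show -(-x - 1) - 1 = x by ring]; exact h3)
      (by rw [hst]; simp only; rw [show -(-x - 1) - 1 = x by ring]; exact h4)
    rw [hpk, hek] at this
    simp only at this
    obtain ⟨g1, g2, g3 | g3⟩ := this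
    · exact ⟨by omega, by omega, g3.2.1, g3.2.2⟩
    · cases g3.1
  · -- vS
    intro a b x y ha hb ha1 hab h1 h2 h3 h4
    obtain ⟨k, hk, hpk, hek⟩ := (hC' b hb).all _ _ _
      (valV_W (v := v) (b := b) (X := x) (Y := y + 1)|>.2
      ⟨by rwa [add_sub_cancel_right], by rwa [add_sub_cancel_right]⟩)
    have hk1 : 1 ≤ k := by
      rcases Nat.eq_zero_or_pos k with h0 | h0
      · exfalso
        rw [h0, (hC' b hb).e0] at hek
        cases hek
      · exact h0
    have hst := (hC' b hb).step k hk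
    rw [hpk, hek] at hst
    simp only [Dir.vec, Prod.mk_add_mk, add_zero, add_neg_cancel_right] at hst
    have := (hV a b ha hb ha1 hab).2 k hk1 hk
      (by rw [hpk]; simp only; rw [show -(-x - 1) - 1 = x by ring]; exact h4)
      (by rw [hst]; simp only; rw [show -(-x - 1) - 1 = x by ring]; exact h3)
    rw [hpk, hek] at this
    simp only at this
    obtain ⟨g1, g2, g3 | g3⟩ := this
    · cases g3.1
    · exact ⟨by omega, by omega, by omega, g3.2.2⟩
  · -- v0N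
    intro x y h1 h2 h3 h4
    obtain ⟨k, hk, hpk, hek⟩ := (hC' 0 (by simpa using by omega)).all _ _ _
      (valV_E (v := v) (b := 0) (X := x) (Y := y)|>.2 ⟨h1, h2⟩)
    have hk1 : 1 ≤ k := by
      rcases Nat.eq_zero_or_pos k with h0 | h0
      · exfalso
        rw [h0, (hC' 0 (by simpa using by omega)).e0] at hek
        cases hek
      · exact h0
    have hst := (hC' 0 (by simpa using by omega)).step k hk
    rw [hpk, hek] at hst
    simp only [Dir.vec, Prod.mk_add_mk, add_zero] at hst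
    have := hcap.2.2 k hk1 hk (by rw [hek]; intro h; cases h)
      (by rw [hpk]; simp only; rw [show -(-x - 1) - 1 = x by ring]; exact h3)
      (by rw [hst]; simp only; rw [show -(-x - 1) - 1 = x by ring]; exact h4)
    rw [hpk, hek] at this
    simp only at this
    rcases this with ⟨g1, g2 | g2⟩ | ⟨g1, g2 | g2⟩
    · exact Or.inl ⟨by omega, g2.2.1, g2.2.2⟩
    · cases g2.1
    · exact Or.inr ⟨by omega, g2.2.1, g2.2.2⟩
    · cases g2.1
  · -- v0S
    intro x y h1 h2 h3 h4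
    obtain ⟨k, hk, hpk, hek⟩ := (hC' 0 (by simpa using by omega)).all _ _ _
      (valV_W (v := v) (b := 0) (X := x) (Y := y + 1)|>.2
      ⟨by rwa [add_sub_cancel_right], by rwa [add_sub_cancel_right]⟩)
    have hk1 : 1 ≤ k := by
      rcases Nat.eq_zero_or_pos k with h0 | h0
      · exfalso
        rw [h0, (hC' 0 (by simpa using by omega)).e0] at hek
        cases hek
      · exact h0
    have hst := (hC' 0 (by simpa using by omega)).step k hk
    rw [hpk, hek] at hst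
    simp only [Dir.vec, Prod.mk_add_mk, add_zero, add_neg_cancel_right] at hst
    have := hcap.2.2 k hk1 hk (by rw [hek]; intro h; cases h)
      (by rw [hpk]; simp only; rw [show -(-x - 1) - 1 = x by ring]; exact h4)
      (by rw [hst]; simp only; rw [show -(-x - 1) - 1 = x by ring]; exact h3)
    rw [hpk, hek] at this
    simp only at this
    rcases this with ⟨g1, g2 | g2⟩ | ⟨g1, g2 | g2⟩
    · cases g2.1
    · exact Or.inl ⟨by omega, by omega, g2.2.2⟩
    · cases g2.1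
    · exact Or.inr ⟨by omega, by omega, by omega⟩

end RotorNE
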