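import Mathlib.Tactic
import Mathlib.Data.Nat.Nth
import Mathlib.Order.Filter.AtTopBot.Basic
import Mathlib.Algebra.BigOperators.Intervals
import Mathlib.Data.Int.Interval
import Pool.Agent.Lib.MP_936783_pr.Sys
import Pool.Agent.Lib.MP_936783_pr.Bridge

/-!
# The system of contacts of the truncated odometer
-/

open Filter

namespace RotorNE

theorem lastDir_succ (k : ℤ) : lastDir (k + 1) = (lastDir k).next := by
  rcases lastDir_cases k with ⟨h, h'⟩ | ⟨h, h'⟩ | ⟨h, h'⟩ | ⟨h, h'⟩ <;>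
  rcases lastDir_cases (k + 1) with ⟨g, g'⟩ | ⟨g, g'⟩ | ⟨g, g'⟩ | ⟨g, g'⟩ <;>
  first
  | (exfalso; omega)
  | (rw [h', g']; rfl)

theorem trunc_glob {M : ℕ} {a r Y R : ℤ} {u : ℤ → ℤ → ℕ} (h : Odo M (-a) r u)
    (rf : RF (r + a) (truncZ a r Y) (trunc u Y)) (hY : 1 < Y)
    (hYu : ∀ x, -a ≤ x → x < r → u x (Y - 1) = 1) (hR1 : 1 ≤ R) (hR : 4 * R + 28 ≤ r + a) :
    Glob (fA (trunc u Y)) (fB (trunc u Y)) (fun x y => lastDir (trunc u Y x y))
      (fun x y => FZ (trunc u Y) x y - trunc u Y x y) R (-a) r Y := by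
  obtain ⟨r1, r2, r3, r4⟩ := h.range hY
  have hq : R + 1 ≤ (r + a - 24) / 4 := by omega
  refine ⟨?_, ?_, hR1, ⟨by omega, by omega⟩, ⟨by omega, by omega⟩, ?_, by omega, by omega, ?_, ?_⟩
  · intro k _
    exact lev_trunc rf (by omega) hY k
  · intro k _
    have h1 := (lev_trunc_rot rf (by omega) hY k).shift 1
    have e1 : fA (rotc (trunc u Y)) = roth (fB (trunc u Y)) := by
      rw [fA_rotc]; rfl
    have e2 : (fun x y => fB (rotc (trunc u Y)) x y + 1) = rotv (fA (trunc u Y)) := by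
      rw [fB_rotc]
      funext x y
      unfold rotB rotv
      ring
    have e3 : (fun x y => lastDir (rotc (trunc u Y) x y)) =
        rotd (fun x y => lastDir (trunc u Y x y)) := by
      funext x y
      unfold rotd rotc
      exact lastDir_succ _
    have e4 : (fun x y => FZ (rotc (trunc u Y)) x y - rotc (trunc u Y) x y) =
        rotk (fun x y => FZ (trunc u Y) x y - trunc u Y x y) := by
      funext x y
      rw [FZ_rotc]
      unfold rotk rotc
      ring
    rw [e1, e2, e3, e4] at h1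
    exact h1
  · intro x y hk
    by_contra hc
    by_cases hxy : x = 0 ∧ y = 0
    · obtain ⟨rfl, rfl⟩ := hxy
      have := rf.orig
      omega
    · have := rf.kappa_ne hxy hc
      omega
  · intro x
    unfold fA
    rw [trunc_ge u _ le_rfl, trunc_ge u _ le_rfl]
    norm_num
  · intro x hx1 hx2
    unfold fB
    rw [sub_add_cancel, trunc_ge u _ le_rfl, trunc_ge u _ (by omega : Y ≤ Y + 1),
      trunc_lt u _ (by omega : Y - 1 < Y), hYu x hx1 hx2]
    norm_num

/-- The system of contacts of the truncated odometer. -/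
theorem trunc_sys {M : ℕ} {a r Y R : ℤ} {u : ℤ → ℤ → ℕ} (h : Odo M (-a) r u)
    (rf : RF (r + a) (truncZ a r Y) (trunc u Y)) (hY : 1 < Y)
    (hYu : ∀ x, -a ≤ x → x < r → u x (Y - 1) = 1) (hR1 : 1 ≤ R) (hR : 4 * R + 28 ≤ r + a) :
    ∃ K, CSys (fA (trunc u Y)) (fB (trunc u Y)) R (-a) r Y K :=
  (trunc_glob h rf hY hYu hR1 hR).sys

end RotorNE
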