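import Mathlib.Tactic
import Mathlib.Data.Nat.Nth
import Mathlib.Order.Filter.AtTopBot.Basic
import Mathlib.Algebra.BigOperators.Intervals
import Mathlib.Data.Int.Interval
import Pool.Agent.Lib.MP_936783_pr.Contact

/-!
# The tilted odometer along runs and chains

`wp w a b x y = w x y - 4 (a x + b y)` is constant up to a bounded error along the straight runs
with `B = b` of the `a`-level curve and along the contact chain of the corner `(a, b)`.
-/

namespace RotorNE

/-- The odometer minus the plane of slope `4 (a, b)`. -/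
def wp (w : ℤ → ℤ → ℤ) (a b x y : ℤ) : ℤ := w x y - 4 * (a * x + b * y)

theorem wp_rot (w : ℤ → ℤ → ℤ) (a b x y : ℤ) :
    wp (rotc w) b (-a) x y = wp w a b (-y) x + 1 := by
  unfold wp rotc
  ring

/-- One horizontal step. -/
theorem wp_hstep (w : ℤ → ℤ → ℤ) (a b x y : ℤ) :
    wp w a b x y + 4 * (fA w x y - a) - 1 ≤ wp w a b (x + 1) y ∧
    wp w a b (x + 1) y ≤ wp w a b x y + 4 * (fA w x y - a) + 5 := by
  unfold wp fA
  constructor
  · have h : 4 * (a * (x + 1) + b * y) = 4 * (a * x + b * y) + 4 * a := by ring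
    rw [h]
    omega
  · have h : 4 * (a * (x + 1) + b * y) = 4 * (a * x + b * y) + 4 * a := by ring
    rw [h]
    omega

/-- One vertical step. -/
theorem wp_vstep (w : ℤ → ℤ → ℤ) (a b x y : ℤ) :
    wp w a b x y + 4 * (fB w x y - b) - 1 ≤ wp w a b x (y + 1) ∧
    wp w a b x (y + 1) ≤ wp w a b x y + 4 * (fB w x y - b) + 5 := by
  unfold wp fB
  constructor
  · have h : 4 * (a * x + b * (y + 1)) = 4 * (a * x + b * y) + 4 * b := by ring
    rw [h]
    omega
  · have h : 4 * (a * x + b * (y + 1)) = 4 * (a * x + b * y) + 4 * b := by ring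
    rw [h]
    omega

/-- The number of exits to the west minus the plane. -/
def wt (w : ℤ → ℤ → ℤ) (a b x y : ℤ) : ℤ := w x y / 4 - (a * x + b * y)

theorem wp_wt (w : ℤ → ℤ → ℤ) (a b x y : ℤ) :
    4 * wt w a b x y ≤ wp w a b x y ∧ wp w a b x y ≤ 4 * wt w a b x y + 3 := by
  unfold wp wt
  omega

theorem wt_hstep (w : ℤ → ℤ → ℤ) (a b x y : ℤ) :
    wt w a b x y + (fA w x y - a) ≤ wt w a b (x + 1) y ∧
    wt w a b (x + 1) y ≤ wt w a b x y + (fA w x y - a) + 1 := by
  unfold wt fA
  constructor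
  · have h : a * (x + 1) + b * y = a * x + b * y + a := by ring
    rw [h]
    omega
  · have h : a * (x + 1) + b * y = a * x + b * y + a := by ring
    rw [h]
    omega

theorem wt_vstep (w : ℤ → ℤ → ℤ) (a b x y : ℤ) :
    wt w a b x y + (fB w x y - b) - 1 ≤ wt w a b x (y + 1) ∧
    wt w a b x (y + 1) ≤ wt w a b x y + (fB w x y - b) + 1 := by
  unfold wt fB
  constructor
  · have h : a * x + b * (y + 1) = a * x + b * y + b := by ring
    rw [h]
    omega
  · have h : a * x + b * (y + 1) = a * x + b * y + b := by ring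
    rw [h]
    omega

/-- Along a horizontal row with `A ≥ a` the tilted number of exits is nondecreasing. -/
theorem wt_row_up (w : ℤ → ℤ → ℤ) (a b x y : ℤ) (k : ℕ) (h : ∀ i : ℕ, i < k → a ≤ fA w (x + i) y) :
    ∀ i j : ℕ, i ≤ j → j ≤ k → wt w a b (x + i) y ≤ wt w a b (x + j) y := by
  intro i j hij hjk
  induction j with
  | zero =>
    obtain rfl : i = 0 := by omega
    exact le_refl _
  | succ j ih =>
    rcases Nat.lt_or_ge i (j + 1) with h1 | h1
    · have h2 := ih (by omega) (by omega)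
      have h3 := (wt_hstep w a b (x + j) y).1
      have h4 := h j (by omega)
      push_cast
      rw [show x + ((j : ℤ) + 1) = x + j + 1 by ring]
      linarith
    · obtain rfl : i = j + 1 := by omega
      exact le_refl _

/-- Along a horizontal row with `A < a` the tilted number of exits is nonincreasing. -/
theorem wt_row_down (w : ℤ → ℤ → ℤ) (a b x y : ℤ) (k : ℕ)
    (h : ∀ i : ℕ, i < k → fA w (x + i) y < a) :
    ∀ i j : ℕ, i ≤ j → j ≤ k → wt w a b (x + j) y ≤ wt w a b (x + i) y := by
  intro i j hij hjk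
  induction j with
  | zero =>
    obtain rfl : i = 0 := by omega
    exact le_refl _
  | succ j ih =>
    rcases Nat.lt_or_ge i (j + 1) with h1 | h1
    · have h2 := ih (by omega) (by omega)
      have h3 := (wt_hstep w a b (x + j) y).2
      have h4 := h j (by omega)
      push_cast
      rw [show x + ((j : ℤ) + 1) = x + j + 1 by ring]
      linarith
    · obtain rfl : i = j + 1 := by omega
      exact le_refl _

/-- The tilted odometer is constant up to a bounded error on both sides of a straight run. -/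
theorem run_const (w : ℤ → ℤ → ℤ) (a b x y : ℤ) (k : ℕ)
    (hB : ∀ i : ℕ, i ≤ k → fB w (x + i) y = b)
    (hA : (∀ i : ℕ, i < k → a ≤ fA w (x + i) y ∧ fA w (x + i) (y + 1) < a) ∨
      (∀ i : ℕ, i < k → fA w (x + i) y < a ∧ a ≤ fA w (x + i) (y + 1))) :
    ∀ i j : ℕ, i ≤ k → j ≤ k → |wp w a b (x + i) y - wp w a b (x + j) y| ≤ 11 ∧
      |wp w a b (x + i) (y + 1) - wp w a b (x + j) y| ≤ 16 := by
  -- reduction to the bottom row
  have key : ∀ i j : ℕ, i ≤ j → j ≤ k → |wt w a b (x + i) y - wt w a b (x + j) y| ≤ 2 := by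
    intro i j hij hjk
    have e1 := wt_vstep w a b (x + i) y
    have e2 := wt_vstep w a b (x + j) y
    rw [hB i (by omega)] at e1
    rw [hB j hjk] at e2
    rcases hA with hA | hA
    · have h1 := wt_row_up w a b x y k (fun i hi => (hA i hi).1) i j hij hjk
      have h2 := wt_row_down w a b x (y + 1) k (fun i hi => (hA i hi).2) i j hij hjk
      rw [abs_le]
      constructor <;> linarith
    · have h1 := wt_row_down w a b x y k (fun i hi => (hA i hi).1) i j hij hjk
      have h2 := wt_row_up w a b x (y + 1) k (fun i hi => (hA i hi).2) i j hij hjk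
      rw [abs_le]
      constructor <;> linarith
  have key2 : ∀ i j : ℕ, i ≤ k → j ≤ k → |wp w a b (x + i) y - wp w a b (x + j) y| ≤ 11 := by
    intro i j hi hj
    have e1 := wp_wt w a b (x + i) y
    have e2 := wp_wt w a b (x + j) y
    rcases le_total i j with h | h
    · have h1 := key i j h hj
      rw [abs_le] at h1 ⊢
      constructor <;> linarith
    · have h1 := key j i h hi
      rw [abs_le] at h1 ⊢
      constructor <;> linarith
  intro i j hi hj
  refine ⟨key2 i j hi hj, ?_⟩
  have h1 := key2 i j hi hj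
  have h2 := wp_vstep w a b (x + i) y
  rw [hB i hi] at h2
  rw [abs_le] at h1 ⊢
  constructor <;> linarith

/-- One step along a bad face of direction `(1, 1)`. -/
theorem chain_step_pos (w : ℤ → ℤ → ℤ) (a b x y : ℤ) (h1 : fA w x y = a)
    (h2 : fA w x (y + 1) = a - 1) (h3 : fB w x y = b - 1) (h4 : fB w (x + 1) y = b) :
    wt w a b (x + 1) (y + 1) ≤ wt w a b x y ∧
    (w x y + 1) / 4 - (a * x + b * y) ≤ (w (x + 1) (y + 1) + 1) / 4 -
      (a * (x + 1) + b * (y + 1)) := by
  unfold wt
  unfold fA at h1 h2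
  unfold fB at h3 h4
  have h : a * (x + 1) + b * (y + 1) = a * x + b * y + a + b := by ring
  rw [h]
  omega

/-- One step along a bad face of direction `(1, -1)`. -/
theorem chain_step_neg (w : ℤ → ℤ → ℤ) (a b x y : ℤ) (h1 : fA w x (y - 1) = a)
    (h2 : fA w x y = a - 1) (h3 : fB w x (y - 1) = b - 1) (h4 : fB w (x + 1) (y - 1) = b) :
    wt w a b x y ≤ wt w a b (x + 1) (y - 1) ∧
    (w (x + 1) (y - 1) + 3) / 4 - (a * (x + 1) + b * (y - 1)) ≤ (w x y + 3) / 4 -
      (a * x + b * y) := by
  unfold wt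
  unfold fA at h1 h2
  unfold fB at h3 h4
  rw [show y - 1 + 1 = y by ring] at h3 h4
  have h : a * (x + 1) + b * (y - 1) = a * x + b * y + a - b := by ring
  rw [h]
  omega

/-- The tilted odometer along a chain of direction `(1, 1)`. -/
theorem chain_const_pos (w : ℤ → ℤ → ℤ) (a b x y : ℤ) (m : ℕ)
    (h : ∀ k : ℕ, k < m → fA w (x + k) (y + k) = a ∧ fA w (x + k) (y + k + 1) = a - 1 ∧
      fB w (x + k) (y + k) = b - 1 ∧ fB w (x + k + 1) (y + k) = b) :
    ∀ k : ℕ, k ≤ m → |wp w a b (x + k) (y + k) - wp w a b x y| ≤ 7 := by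
  have key : ∀ k : ℕ, k ≤ m → wt w a b (x + k) (y + k) ≤ wt w a b x y ∧
      (w x y + 1) / 4 - (a * x + b * y) ≤ (w (x + k) (y + k) + 1) / 4 -
      (a * (x + k) + b * (y + k)) := by
    intro k
    induction k with
    | zero => intro _; simp
    | succ k ih =>
      intro hk
      obtain ⟨g1, g2⟩ := ih (by omega)
      obtain ⟨e1, e2, e3, e4⟩ := h k (by omega)
      obtain ⟨f1, f2⟩ := chain_step_pos w a b (x + k) (y + k) e1 e2 e3 e4
      push_cast
      rw [show x + ((k : ℤ) + 1) = x + k + 1 by ring, show y + ((k : ℤ) + 1) = y + k + 1 by ring]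
      exact ⟨le_trans f1 g1, le_trans g2 f2⟩
  intro k hk
  obtain ⟨g1, g2⟩ := key k hk
  unfold wt at g1
  unfold wp
  rw [abs_le]
  constructor <;> omega

/-- The tilted odometer along a chain of direction `(1, -1)`. -/
theorem chain_const_neg (w : ℤ → ℤ → ℤ) (a b x y : ℤ) (m : ℕ)
    (h : ∀ k : ℕ, k < m → fA w (x + k) (y - k - 1) = a ∧ fA w (x + k) (y - k) = a - 1 ∧
      fB w (x + k) (y - k - 1) = b - 1 ∧ fB w (x + k + 1) (y - k - 1) = b) :
    ∀ k : ℕ, k ≤ m → |wp w a b (x + k) (y - k) - wp w a b x y| ≤ 7 := by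
  have key : ∀ k : ℕ, k ≤ m → wt w a b x y ≤ wt w a b (x + k) (y - k) ∧
      (w (x + k) (y - k) + 3) / 4 - (a * (x + k) + b * (y - k)) ≤ (w x y + 3) / 4 -
      (a * x + b * y) := by
    intro k
    induction k with
    | zero => intro _; simp
    | succ k ih =>
      intro hk
      obtain ⟨g1, g2⟩ := ih (by omega)
      obtain ⟨e1, e2, e3, e4⟩ := h k (by omega)
      obtain ⟨f1, f2⟩ := chain_step_neg w a b (x + k) (y - k) e1 e2 e3 e4
      push_cast
      rw [show x + ((k : ℤ) + 1) = x + k + 1 by ring, show y - ((k : ℤ) + 1) = y - k - 1 by ring]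
      exact ⟨le_trans g1 f1, le_trans f2 g2⟩
  intro k hk
  obtain ⟨g1, g2⟩ := key k hk
  unfold wt at g1
  unfold wp
  rw [abs_le]
  constructor <;> omega

end RotorNE
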