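import Mathlib.Tactic
import Mathlib.Data.Nat.Nth
import Mathlib.Order.Filter.AtTopBot.Basic
import Mathlib.Algebra.BigOperators.Intervals
import Mathlib.Data.Int.Interval
import Pool.Agent.Lib.MP_936783_pr.TLoc
import Pool.Agent.Lib.MP_936783_pr.Cells

/-!
# The potential of the contacts

`Kc.T w a b K` is the value of `w - 4 (a x + b y)` at the contact `K` of slope `(a, b)`.  It is
independent of the cell of the contact up to a bounded error, and along the links it changes by
`4` times the coordinate of the link.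
-/

namespace RotorNE

/-! ### Vertical runs -/

/-- The number of exits to the south minus the plane. -/
def st (w : ℤ → ℤ → ℤ) (a b x y : ℤ) : ℤ := (w x y + 1) / 4 - (a * x + b * y)

theorem wp_st (w : ℤ → ℤ → ℤ) (a b x y : ℤ) :
    4 * st w a b x y - 1 ≤ wp w a b x y ∧ wp w a b x y ≤ 4 * st w a b x y + 2 := by
  unfold wp st
  omega

theorem st_vstep (w : ℤ → ℤ → ℤ) (a b x y : ℤ) :
    st w a b x y + (fB w x y - b) ≤ st w a b x (y + 1) ∧
    st w a b x (y + 1) ≤ st w a b x y + (fB w x y - b) + 1 := by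
  unfold st fB
  constructor
  · have h : a * x + b * (y + 1) = a * x + b * y + b := by ring
    rw [h]
    omega
  · have h : a * x + b * (y + 1) = a * x + b * y + b := by ring
    rw [h]
    omega

theorem st_hstep (w : ℤ → ℤ → ℤ) (a b x y : ℤ) :
    st w a b x y + (fA w x y - a) - 1 ≤ st w a b (x + 1) y ∧
    st w a b (x + 1) y ≤ st w a b x y + (fA w x y - a) + 2 := by
  unfold st fA
  constructor
  · have h : a * (x + 1) + b * y = a * x + b * y + a := by ring
    rw [h]
    omega
  · have h : a * (x + 1) + b * y = a * x + b * y + a := by ring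
    rw [h]
    omega

theorem st_col_up (w : ℤ → ℤ → ℤ) (a b x y : ℤ) (k : ℕ) (h : ∀ i : ℕ, i < k → b ≤ fB w x (y + i)) :
    ∀ i j : ℕ, i ≤ j → j ≤ k → st w a b x (y + i) ≤ st w a b x (y + j) := by
  intro i j hij hjk
  induction j with
  | zero =>
    obtain rfl : i = 0 := by omega
    exact le_refl _
  | succ j ih =>
    rcases Nat.lt_or_ge i (j + 1) with h1 | h1
    · have h2 := ih (by omega) (by omega)
      have h3 := (st_vstep w a b x (y + j)).1
      have h4 := h j (by omega)
      push_cast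
      rw [show y + ((j : ℤ) + 1) = y + j + 1 by ring]
      linarith
    · obtain rfl : i = j + 1 := by omega
      exact le_refl _

theorem st_col_down (w : ℤ → ℤ → ℤ) (a b x y : ℤ) (k : ℕ)
    (h : ∀ i : ℕ, i < k → fB w x (y + i) < b) :
    ∀ i j : ℕ, i ≤ j → j ≤ k → st w a b x (y + j) ≤ st w a b x (y + i) := by
  intro i j hij hjk
  induction j with
  | zero =>
    obtain rfl : i = 0 := by omega
    exact le_refl _
  | succ j ih =>
    rcases Nat.lt_or_ge i (j + 1) with h1 | h1
    · have h2 := ih (by omega) (by omega)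
      have h3 := (st_vstep w a b x (y + j)).2
      have h4 := h j (by omega)
      push_cast
      rw [show y + ((j : ℤ) + 1) = y + j + 1 by ring]
      linarith
    · obtain rfl : i = j + 1 := by omega
      exact le_refl _

/-- The tilted odometer is constant up to a bounded error on both sides of a vertical run. -/
theorem vrun_const (w : ℤ → ℤ → ℤ) (a b x y : ℤ) (k : ℕ)
    (hA : ∀ i : ℕ, i ≤ k → fA w x (y + i) = a)
    (hB : (∀ i : ℕ, i < k → fB w x (y + i) < b ∧ b ≤ fB w (x + 1) (y + i)) ∨
      (∀ i : ℕ, i < k → b ≤ fB w x (y + i) ∧ fB w (x + 1) (y + i) < b)) :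
    ∀ i j : ℕ, i ≤ k → j ≤ k → |wp w a b x (y + i) - wp w a b x (y + j)| ≤ 15 := by
  have key : ∀ i j : ℕ, i ≤ j → j ≤ k → |st w a b x (y + i) - st w a b x (y + j)| ≤ 3 := by
    intro i j hij hjk
    have e1 := st_hstep w a b x (y + i)
    have e2 := st_hstep w a b x (y + j)
    rw [hA i (by omega)] at e1
    rw [hA j hjk] at e2
    rcases hB with hB | hB
    · have h1 := st_col_down w a b x y k (fun i hi => (hB i hi).1) i j hij hjk
      have h2 := st_col_up w a b (x + 1) y k (fun i hi => (hB i hi).2) i j hij hjk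
      rw [abs_le]
      constructor <;> linarith
    · have h1 := st_col_up w a b x y k (fun i hi => (hB i hi).1) i j hij hjk
      have h2 := st_col_down w a b (x + 1) y k (fun i hi => (hB i hi).2) i j hij hjk
      rw [abs_le]
      constructor <;> linarith
  intro i j hi hj
  have e1 := wp_st w a b x (y + i)
  have e2 := wp_st w a b x (y + j)
  rcases le_total i j with h | h
  · have h1 := key i j h hj
    rw [abs_le] at h1 ⊢
    constructor <;> linarith
  · have h1 := key j i h hi
    rw [abs_le] at h1 ⊢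
    constructor <;> linarith

/-! ### The potential -/

/-- The value of the tilted odometer at a contact. -/
def Kc.T (w : ℤ → ℤ → ℤ) (a b : ℤ) : Kc → ℤ
  | .ne x y _ => wp w a b x y
  | .se x y _ => wp w a b x y
  | .fe x y => min (wp w a b (x + 1) y) (wp w a b x (y + 1))
  | .fw x y => min (wp w a b x y) (wp w a b (x + 1) (y + 1))

/-- The reference site of a node (vertical edge) is its lower end. -/
theorem T_nodeIn {w : ℤ → ℤ → ℤ} {a b : ℤ} {K : Kc} (hK : IsK (fA w) (fB w) a b K)
    (hv : fB w K.nodeIn.1 K.nodeIn.2 = b) :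
    |K.T w a b - wp w a b K.nodeIn.1 K.nodeIn.2| ≤ 13 := by
  cases K with
  | ne x y m =>
    simp only [Kc.nodeIn, Kc.T] at hv ⊢
    have h1 := wp_vstep w a b x (y - 1)
    rw [hv, sub_add_cancel] at h1
    rw [abs_le]
    omega
  | se x y m =>
    simp only [Kc.nodeIn, Kc.T]
    simp
  | fe x y =>
    simp only [Kc.nodeIn, Kc.T, IsK] at hv hK ⊢
    have h1 := wp_vstep w a b x y
    have h2 := wp_hstep w a b x y
    rw [hv] at h1
    rw [abs_le]
    omega
  | fw x y =>
    simp only [Kc.nodeIn, Kc.T, IsK] at hv hK ⊢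
    have h1 := wp_vstep w a b (x + 1) y
    have h2 := wp_hstep w a b x y
    rw [hv] at h1
    rw [abs_le]
    omega

theorem T_nodeOut {w : ℤ → ℤ → ℤ} {a b : ℤ} {K : Kc} (hK : IsK (fA w) (fB w) a b K)
    (hv : fB w K.nodeOut.1 K.nodeOut.2 = b - 1) :
    |K.T w a b - wp w a b K.nodeOut.1 K.nodeOut.2| ≤ 13 := by
  cases K with
  | ne x y m =>
    simp only [Kc.nodeOut, Kc.T, IsK] at hv hK ⊢
    have h1 := chain_const_pos w a b x y m hK.2 m le_rfl
    rw [abs_le] at h1 ⊢
    omega
  | se x y m =>
    simp only [Kc.nodeOut, Kc.T, IsK] at hv hK ⊢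
    have h1 := chain_const_neg w a b x y m hK.2 m le_rfl
    have h2 := wp_vstep w a b (x + m) (y - m - 1)
    rw [hv, sub_add_cancel] at h2
    rw [abs_le] at h1 ⊢
    omega
  | fe x y =>
    simp only [Kc.nodeOut, Kc.T, IsK] at hv hK ⊢
    have h1 := wp_vstep w a b (x + 1) y
    have h2 := wp_hstep w a b x (y + 1)
    rw [hv] at h1
    rw [abs_le]
    omega
  | fw x y =>
    simp only [Kc.nodeOut, Kc.T, IsK] at hv hK ⊢
    have h1 := wp_vstep w a b x y
    have h2 := wp_hstep w a b x (y + 1)
    rw [hv] at h1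
    rw [abs_le]
    omega

theorem T_edgeOut {w : ℤ → ℤ → ℤ} {a b : ℤ} {K : Kc} (hK : IsK (fA w) (fB w) a b K)
    (hv : fA w K.edgeOut.1 K.edgeOut.2 = a) :
    |K.T w a b - wp w a b K.edgeOut.1 K.edgeOut.2| ≤ 13 := by
  cases K with
  | ne x y m =>
    simp only [Kc.edgeOut, Kc.T, IsK] at hv hK ⊢
    have h1 := chain_const_pos w a b x y m hK.2 m le_rfl
    rw [abs_le] at h1 ⊢
    omega
  | se x y m =>
    simp only [Kc.edgeOut, Kc.T, IsK] at hv hK ⊢
    have h2 := wp_hstep w a b (x - 1) y
    rw [hv, sub_add_cancel] at h2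
    rw [abs_le]
    omega
  | fe x y =>
    simp only [Kc.edgeOut, Kc.T, IsK] at hv hK ⊢
    have h1 := wp_vstep w a b x y
    have h2 := wp_hstep w a b x y
    rw [hv] at h2
    rw [abs_le]
    omega
  | fw x y =>
    simp only [Kc.edgeOut, Kc.T, IsK] at hv hK ⊢
    have h1 := wp_vstep w a b x y
    have h2 := wp_hstep w a b x (y + 1)
    rw [hv] at h2
    rw [abs_le]
    omega

theorem T_edgeIn {w : ℤ → ℤ → ℤ} {a b : ℤ} {K : Kc} (hK : IsK (fA w) (fB w) a b K)
    (hv : fA w K.edgeIn.1 K.edgeIn.2 = a - 1) :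
    |K.T w a b - wp w a b K.edgeIn.1 K.edgeIn.2| ≤ 13 := by
  cases K with
  | ne x y m =>
    simp only [Kc.edgeIn, Kc.T, IsK] at hv hK ⊢
    have h1 := wp_hstep w a b (x - 1) y
    rw [hv, sub_add_cancel] at h1
    rw [abs_le]
    omega
  | se x y m =>
    simp only [Kc.edgeIn, Kc.T, IsK] at hv hK ⊢
    have h1 := chain_const_neg w a b x y m hK.2 m le_rfl
    rw [abs_le] at h1 ⊢
    omega
  | fe x y =>
    simp only [Kc.edgeIn, Kc.T, IsK] at hv hK ⊢
    have h1 := wp_vstep w a b (x + 1) y
    have h2 := wp_hstep w a b x (y + 1)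
    rw [hv] at h2
    rw [abs_le]
    omega
  | fw x y =>
    simp only [Kc.edgeIn, Kc.T, IsK] at hv hK ⊢
    have h1 := wp_vstep w a b (x + 1) y
    have h2 := wp_hstep w a b x y
    rw [hv] at h2
    rw [abs_le]
    omega

theorem wp_succ_b (w : ℤ → ℤ → ℤ) (a b x y : ℤ) : wp w a (b + 1) x y = wp w a b x y - 4 * y := by
  unfold wp; ring

theorem wp_succ_a (w : ℤ → ℤ → ℤ) (a b x y : ℤ) : wp w (a + 1) b x y = wp w a b x y - 4 * x := by
  unfold wp; ring

/-- The ends of a horizontal link are at the same height. -/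
theorem link_y {w : ℤ → ℤ → ℤ} {a b : ℤ} {K K' : Kc} (hL : HLink (fA w) (fB w) a b K' K) :
    |K'.nodeOut.2 - K.nodeIn.2| ≤ 1 := by
  rcases hL with ⟨h, -⟩ | h
  · rw [h]; simp
  · cases K <;> cases K' <;> simp only [Kc.hLast, Kc.hFirst, Cell.vx.injEq, Cell.fc.injEq,
      reduceCtorEq] at h <;> simp only [Kc.nodeOut, Kc.nodeIn] <;> rw [abs_le] <;> omega

/-- The ends of a vertical link have the same abscissa. -/
theorem link_x {w : ℤ → ℤ → ℤ} {a b : ℤ} {K K' : Kc} (hL : VLink (fA w) (fB w) a b K K') :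
    |K.edgeOut.1 - K'.edgeIn.1| ≤ 1 := by
  rcases hL with ⟨h, -⟩ | h
  · rw [h]; simp
  · cases K <;> cases K' <;> simp only [Kc.vLast, Kc.vFirst, Cell.vx.injEq, Cell.fc.injEq,
      reduceCtorEq] at h <;> simp only [Kc.edgeOut, Kc.edgeIn] <;> rw [abs_le] <;> omega

/-- The potential along a horizontal link. -/
theorem T_hlink {w : ℤ → ℤ → ℤ} {a b : ℤ} {K K' : Kc} (hK' : IsK (fA w) (fB w) a (b + 1) K')
    (hK : IsK (fA w) (fB w) a b K) (hL : HLink (fA w) (fB w) a b K' K) :
    |K'.T w a (b + 1) - K.T w a b + 4 * K.nodeIn.2| ≤ 40 := by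
  rcases hL with ⟨hy, hrun⟩ | hcell
  · -- run
    have hv1 : fB w K.nodeIn.1 K.nodeIn.2 = b := by
      rcases hrun with ⟨h1, h2, -⟩ | ⟨h1, h2, -⟩
      · exact h2 _ h1 le_rfl
      · exact h2 _ le_rfl h1
    have hv2 : fB w K'.nodeOut.1 K'.nodeOut.2 = b + 1 - 1 := by
      rw [hy, add_sub_cancel_right]
      rcases hrun with ⟨h1, h2, -⟩ | ⟨h1, h2, -⟩
      · exact h2 _ le_rfl h1
      · exact h2 _ h1 le_rfl
    have e1 := T_nodeIn hK hv1
    have e2 := T_nodeOut hK' hv2
    have e3 : |wp w a b K'.nodeOut.1 K.nodeIn.2 - wp w a b K.nodeIn.1 K.nodeIn.2| ≤ 11 := by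
      rcases hrun with ⟨h1, h2, h3⟩ | ⟨h1, h2, h3⟩
      · have := (run_const w a b K'.nodeOut.1 K.nodeIn.2 (K.nodeIn.1 - K'.nodeOut.1).toNat
          (fun i hi => h2 _ (by omega) (by omega))
          (Or.inl (fun i hi => h3 _ (by omega) (by omega))) 0 (K.nodeIn.1 - K'.nodeOut.1).toNat
          (by omega) le_rfl).1
        rw [show K'.nodeOut.1 + ((K.nodeIn.1 - K'.nodeOut.1).toNat : ℤ) = K.nodeIn.1 by omega]
          at this
        simpa using this
      · have := (run_const w a b K.nodeIn.1 K.nodeIn.2 (K'.nodeOut.1 - K.nodeIn.1).toNat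
          (fun i hi => h2 _ (by omega) (by omega))
          (Or.inr (fun i hi => h3 _ (by omega) (by omega))) (K'.nodeOut.1 - K.nodeIn.1).toNat 0
          le_rfl (by omega)).1
        rw [show K.nodeIn.1 + ((K'.nodeOut.1 - K.nodeIn.1).toNat : ℤ) = K'.nodeOut.1 by omega]
          at this
        simpa using this
    rw [wp_succ_b, hy] at e2
    rw [abs_le] at e1 e2 e3 ⊢
    constructor <;> linarith
  · -- common cell
    cases K' with
    | ne x' y' m' =>
      have e1 := chain_const_pos w a (b + 1) x' y' m' hK'.2 m' le_rfl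
      rw [wp_succ_b, wp_succ_b] at e1
      cases K with
      | ne x y m =>
        simp only [Kc.hLast, Kc.hFirst, Cell.vx.injEq] at hcell
        obtain ⟨rfl, rfl⟩ := hcell
        simp only [Kc.T, Kc.nodeIn]
        rw [wp_succ_b]
        rw [abs_le] at e1 ⊢
        constructor <;> linarith
      | se x y m =>
        simp only [Kc.hLast, Kc.hFirst, Cell.vx.injEq] at hcell
        obtain ⟨rfl, rfl⟩ := hcell
        simp only [Kc.T, Kc.nodeIn]
        rw [wp_succ_b]
        rw [abs_le] at e1 ⊢
        constructor <;> linarith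
      | fe x y => simp [Kc.hLast, Kc.hFirst] at hcell
      | fw x y => simp [Kc.hLast, Kc.hFirst] at hcell
    | se x' y' m' =>
      have e1 := chain_const_neg w a (b + 1) x' y' m' hK'.2 m' le_rfl
      rw [wp_succ_b, wp_succ_b] at e1
      cases K with
      | ne x y m =>
        simp only [Kc.hLast, Kc.hFirst, Cell.vx.injEq] at hcell
        obtain ⟨rfl, rfl⟩ := hcell
        simp only [Kc.T, Kc.nodeIn]
        rw [wp_succ_b]
        rw [abs_le] at e1 ⊢
        constructor <;> linarith
      | se x y m =>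
        simp only [Kc.hLast, Kc.hFirst, Cell.vx.injEq] at hcell
        obtain ⟨rfl, rfl⟩ := hcell
        simp only [Kc.T, Kc.nodeIn]
        rw [wp_succ_b]
        rw [abs_le] at e1 ⊢
        constructor <;> linarith
      | fe x y => simp [Kc.hLast, Kc.hFirst] at hcell
      | fw x y => simp [Kc.hLast, Kc.hFirst] at hcell
    | fe x' y' =>
      cases K with
      | ne x y m => simp [Kc.hLast, Kc.hFirst] at hcell
      | se x y m => simp [Kc.hLast, Kc.hFirst] at hcell
      | fe x y =>
        simp only [Kc.hLast, Kc.hFirst, Cell.fc.injEq] at hcell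
        obtain ⟨rfl, rfl⟩ := hcell
        simp only [Kc.T, Kc.nodeIn]
        rw [wp_succ_b, wp_succ_b]
        rw [abs_le]
        omega
      | fw x y =>
        simp only [Kc.hLast, Kc.hFirst, Cell.fc.injEq] at hcell
        obtain ⟨rfl, rfl⟩ := hcell
        simp only [IsK] at hK hK'
        omega
    | fw x' y' =>
      cases K with
      | ne x y m => simp [Kc.hLast, Kc.hFirst] at hcell
      | se x y m => simp [Kc.hLast, Kc.hFirst] at hcell
      | fe x y =>
        simp only [Kc.hLast, Kc.hFirst, Cell.fc.injEq] at hcell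
        obtain ⟨rfl, rfl⟩ := hcell
        simp only [IsK] at hK hK'
        omega
      | fw x y =>
        simp only [Kc.hLast, Kc.hFirst, Cell.fc.injEq] at hcell
        obtain ⟨rfl, rfl⟩ := hcell
        simp only [Kc.T, Kc.nodeIn]
        rw [wp_succ_b, wp_succ_b]
        rw [abs_le]
        omega

/-- The potential along a vertical link. -/
theorem T_vlink {w : ℤ → ℤ → ℤ} {a b : ℤ} {K K' : Kc} (hK : IsK (fA w) (fB w) a b K)
    (hK' : IsK (fA w) (fB w) (a + 1) b K') (hL : VLink (fA w) (fB w) a b K K') :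
    |K'.T w (a + 1) b - K.T w a b + 4 * K.edgeOut.1| ≤ 45 := by
  rcases hL with ⟨hx, hrun⟩ | hcell
  · -- run
    have hv1 : fA w K.edgeOut.1 K.edgeOut.2 = a := by
      rcases hrun with ⟨h1, h2, -⟩ | ⟨h1, h2, -⟩
      · exact h2 _ le_rfl h1
      · exact h2 _ h1 le_rfl
    have hv2 : fA w K'.edgeIn.1 K'.edgeIn.2 = a + 1 - 1 := by
      rw [← hx, add_sub_cancel_right]
      rcases hrun with ⟨h1, h2, -⟩ | ⟨h1, h2, -⟩
      · exact h2 _ h1 le_rfl
      · exact h2 _ le_rfl h1
    have e1 := T_edgeOut hK hv1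
    have e2 := T_edgeIn hK' hv2
    have e3 : |wp w a b K.edgeOut.1 K.edgeOut.2 - wp w a b K.edgeOut.1 K'.edgeIn.2| ≤ 15 := by
      rcases hrun with ⟨h1, h2, h3⟩ | ⟨h1, h2, h3⟩
      · have := (vrun_const w a b K.edgeOut.1 K.edgeOut.2 (K'.edgeIn.2 - K.edgeOut.2).toNat
          (fun i hi => h2 _ (by omega) (by omega))
          (Or.inl (fun i hi => h3 _ (by omega) (by omega))) 0 (K'.edgeIn.2 - K.edgeOut.2).toNat
          (by omega) le_rfl)
        rw [show K.edgeOut.2 + ((K'.edgeIn.2 - K.edgeOut.2).toNat : ℤ) = K'.edgeIn.2 by omega]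
          at this
        simpa using this
      · have := (vrun_const w a b K.edgeOut.1 K'.edgeIn.2 (K.edgeOut.2 - K'.edgeIn.2).toNat
          (fun i hi => h2 _ (by omega) (by omega))
          (Or.inr (fun i hi => h3 _ (by omega) (by omega))) (K.edgeOut.2 - K'.edgeIn.2).toNat 0
          le_rfl (by omega))
        rw [show K'.edgeIn.2 + ((K.edgeOut.2 - K'.edgeIn.2).toNat : ℤ) = K.edgeOut.2 by omega]
          at this
        simpa using this
    rw [wp_succ_a, ← hx] at e2
    rw [abs_le] at e1 e2 e3 ⊢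
    constructor <;> linarith
  · -- common cell
    cases K' with
    | ne x' y' m' =>
      cases K with
      | ne x y m =>
        have e1 := chain_const_pos w a b x y m hK.2 m le_rfl
        simp only [Kc.vLast, Kc.vFirst, Cell.vx.injEq] at hcell
        obtain ⟨rfl, rfl⟩ := hcell
        simp only [Kc.T, Kc.edgeOut]
        rw [wp_succ_a]
        rw [abs_le] at e1 ⊢
        constructor <;> linarith
      | se x y m =>
        simp only [Kc.vLast, Kc.vFirst, Cell.vx.injEq] at hcell
        obtain ⟨rfl, rfl⟩ := hcell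
        simp only [Kc.T, Kc.edgeOut]
        rw [wp_succ_a]
        rw [abs_le]
        constructor <;> linarith
      | fe x y => simp [Kc.vLast, Kc.vFirst] at hcell
      | fw x y => simp [Kc.vLast, Kc.vFirst] at hcell
    | se x' y' m' =>
      have e2 := chain_const_neg w (a + 1) b x' y' m' hK'.2 m' le_rfl
      rw [wp_succ_a, wp_succ_a] at e2
      cases K with
      | ne x y m =>
        have e1 := chain_const_pos w a b x y m hK.2 m le_rfl
        simp only [Kc.vLast, Kc.vFirst, Cell.vx.injEq] at hcell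
        obtain ⟨h1, h2⟩ := hcell
        simp only [Kc.T, Kc.edgeOut]
        rw [wp_succ_a]
        rw [← h1, ← h2] at e2
        rw [abs_le] at e1 e2 ⊢
        constructor <;> linarith
      | se x y m =>
        simp only [Kc.vLast, Kc.vFirst, Cell.vx.injEq] at hcell
        obtain ⟨rfl, rfl⟩ := hcell
        simp only [Kc.T, Kc.edgeOut]
        rw [wp_succ_a]
        rw [abs_le] at e2 ⊢
        constructor <;> linarith
      | fe x y => simp [Kc.vLast, Kc.vFirst] at hcell
      | fw x y => simp [Kc.vLast, Kc.vFirst] at hcell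
    | fe x' y' =>
      cases K with
      | ne x y m => simp [Kc.vLast, Kc.vFirst] at hcell
      | se x y m => simp [Kc.vLast, Kc.vFirst] at hcell
      | fe x y =>
        simp only [Kc.vLast, Kc.vFirst, Cell.fc.injEq] at hcell
        obtain ⟨rfl, rfl⟩ := hcell
        simp only [Kc.T, Kc.edgeOut]
        rw [wp_succ_a, wp_succ_a]
        rw [abs_le]
        omega
      | fw x y =>
        simp only [Kc.vLast, Kc.vFirst, Cell.fc.injEq] at hcell
        obtain ⟨rfl, rfl⟩ := hcell
        simp only [IsK] at hK hK'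
        omega
    | fw x' y' =>
      cases K with
      | ne x y m => simp [Kc.vLast, Kc.vFirst] at hcell
      | se x y m => simp [Kc.vLast, Kc.vFirst] at hcell
      | fe x y =>
        simp only [Kc.vLast, Kc.vFirst, Cell.fc.injEq] at hcell
        obtain ⟨rfl, rfl⟩ := hcell
        simp only [IsK] at hK hK'
        omega
      | fw x y =>
        simp only [Kc.vLast, Kc.vFirst, Cell.fc.injEq] at hcell
        obtain ⟨rfl, rfl⟩ := hcell
        simp only [Kc.T, Kc.edgeOut]
        rw [wp_succ_a, wp_succ_a]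
        rw [abs_le]
        omega

end RotorNE
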