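import Mathlib.Tactic
import Mathlib.Data.Nat.Nth
import Mathlib.Data.Int.Interval
import Mathlib.Data.Int.ConditionallyCompleteOrder
import Mathlib.Data.Int.Star
import Mathlib.Algebra.Order.Star.Real
import Mathlib.Analysis.SpecialFunctions.Integrals.Basic
import Mathlib.Analysis.Fourier.RiemannLebesgueLemma
import Mathlib.Analysis.SpecificLimits.Basic
import Mathlib.Analysis.Asymptotics.SpecificAsymptotics
import Mathlib.MeasureTheory.Integral.Prod
import Mathlib.MeasureTheory.Measure.Lebesgue.Basic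
import Pool.Agent.Lib.MP_936783_pr.Inst
import Pool.Agent.Lib.MP_936783_pr.TPot
import Pool.Agent.Lib.MP_936783_pr.Conv
import Pool.Agent.Lib.MP_936783_pr.Final

/-!
# Convergence of the contacts of the odometers `uN n`
-/

open Filter Topology

namespace RotorNE

variable {M : ℕ} {a r Y R : ℤ} {u : ℤ → ℤ → ℕ}

/-! ### Location of nonzero fluxes -/

theorem trunc_nonneg (u : ℤ → ℤ → ℕ) (Y x y : ℤ) : 0 ≤ trunc u Y x y := by
  unfold trunc
  split_ifs
  · positivity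
  · exact le_rfl

theorem Odo.loc_two (h : Odo M (-a) r u) {x y : ℤ} (hw : 2 ≤ trunc u Y x y) :
    -a ≤ x ∧ x < r ∧ -a - 2 ≤ y ∧ y ≤ a := by
  have hu : 2 ≤ u x y := by
    unfold trunc at hw
    split_ifs at hw
    · exact_mod_cast hw
    · omega
  have hu1 : 1 ≤ u x y := by omega
  exact ⟨h.x_ge hu1, h.x_lt hu1, h.bottom hu1, h.y_le hu⟩

theorem Odo.loc_three (h : Odo M (-a) r u) {x y : ℤ} (hw : 3 ≤ trunc u Y x y) : x ≤ a := by
  have hu : 3 ≤ u x y := by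
    unfold trunc at hw
    split_ifs at hw
    · exact_mod_cast hw
    · omega
  exact h.x_le hu

theorem Odo.loc_flux (h : Odo M (-a) r u) {x y : ℤ} (hw : fA (trunc u Y) x y ≠ 0) :
    -a - 1 ≤ x ∧ x < r ∧ -a - 2 ≤ y ∧ y ≤ a := by
  have n1 := trunc_nonneg u Y x y
  have n2 := trunc_nonneg u Y (x + 1) y
  unfold fA at hw
  by_cases h1 : 2 ≤ trunc u Y x y
  · have := h.loc_two h1
    omega
  · have h2 : 2 ≤ trunc u Y (x + 1) y := by omega
    have := h.loc_two h2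
    omega

theorem Odo.loc_neg (h : Odo M (-a) r u) {x y : ℤ} (hw : fA (trunc u Y) x y < -1) : x ≤ a := by
  have n1 := trunc_nonneg u Y x y
  have n2 := trunc_nonneg u Y (x + 1) y
  unfold fA at hw
  exact h.loc_three (x := x) (y := y) (Y := Y) (by omega)

/-- Location of the contacts. -/
theorem Odo.loc_contact (h : Odo M (-a) r u) {p q : ℤ} {K : Kc}
    (hK : IsK (fA (trunc u Y)) (fB (trunc u Y)) p q K) :
    (-a - 3 ≤ K.edgeIn.1 ∧ K.edgeIn.1 ≤ r + 1) ∧ (-a - 3 ≤ K.edgeOut.1 ∧ K.edgeOut.1 ≤ r + 1) ∧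
    (-a - 4 ≤ K.nodeIn.2 ∧ K.nodeIn.2 ≤ a + 1) ∧ (-a - 4 ≤ K.nodeOut.2 ∧ K.nodeOut.2 ≤ a + 1) := by
  have key : ∀ x y x' y' : ℤ, fA (trunc u Y) x y < p → p ≤ fA (trunc u Y) x' y' →
      |x - x'| ≤ 1 → |y - y'| ≤ 1 →
      (-a - 2 ≤ x ∧ x ≤ r) ∧ (-a - 2 ≤ x' ∧ x' ≤ r) ∧
      (-a - 3 ≤ y ∧ y ≤ a + 1) ∧ (-a - 3 ≤ y' ∧ y' ≤ a + 1) := by
    intro x y x' y' h1 h2 hx hy
    rw [abs_le] at hx hy
    by_cases h3 : fA (trunc u Y) x y = 0
    · have := h.loc_flux (x := x') (y := y') (Y := Y) (by omega)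
      omega
    · have := h.loc_flux (x := x) (y := y) (Y := Y) h3
      omega
  cases K with
  | ne x y m =>
    simp only [IsK, Kc.edgeIn, Kc.edgeOut, Kc.nodeIn, Kc.nodeOut] at hK ⊢
    obtain ⟨h1, -⟩ := hK
    obtain ⟨a1, a2, -⟩ := h1 0 (by omega)
    obtain ⟨b1, b2, -⟩ := h1 m le_rfl
    simp only [Nat.cast_zero, add_zero] at a1 a2
    have k1 := key _ _ _ _ a1 a2 (by rw [abs_le]; omega) (by rw [abs_le]; omega)
    have k2 := key _ _ _ _ b1 b2 (by rw [abs_le]; omega) (by rw [abs_le]; omega)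
    omega
  | se x y m =>
    simp only [IsK, Kc.edgeIn, Kc.edgeOut, Kc.nodeIn, Kc.nodeOut] at hK ⊢
    obtain ⟨h1, -⟩ := hK
    obtain ⟨a1, a2, -⟩ := h1 0 (by omega)
    obtain ⟨b1, b2, -⟩ := h1 m le_rfl
    simp only [Nat.cast_zero, add_zero, sub_zero] at a1 a2
    have k1 := key _ _ _ _ a2 a1 (by rw [abs_le]; omega) (by rw [abs_le]; omega)
    have k2 := key _ _ _ _ b2 b1 (by rw [abs_le]; omega) (by rw [abs_le]; omega)
    omega
  | fe x y =>
    simp only [IsK, Kc.edgeIn, Kc.edgeOut, Kc.nodeIn, Kc.nodeOut] at hK ⊢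
    obtain ⟨a1, a2, -⟩ := hK
    have k1 := key _ _ _ _ a2 a1 (by rw [abs_le]; omega) (by rw [abs_le]; omega)
    omega
  | fw x y =>
    simp only [IsK, Kc.edgeIn, Kc.edgeOut, Kc.nodeIn, Kc.nodeOut] at hK ⊢
    obtain ⟨a1, a2, -⟩ := hK
    have k1 := key _ _ _ _ a1 a2 (by rw [abs_le]; omega) (by rw [abs_le]; omega)
    omega

/-- Abscissa of the contact of slope `(-1, 0)`. -/
theorem Odo.loc_minus (h : Odo M (-a) r u) {q : ℤ} {K : Kc}
    (hK : IsK (fA (trunc u Y)) (fB (trunc u Y)) (-1) q K) : K.edgeOut.1 ≤ a + 1 := by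
  cases K with
  | ne x y m =>
    simp only [IsK, Kc.edgeOut] at hK ⊢
    have := h.loc_neg (hK.1 m le_rfl).1
    omega
  | se x y m =>
    simp only [IsK, Kc.edgeOut] at hK ⊢
    have h1 := (hK.1 0 (by omega)).2.1
    simp only [Nat.cast_zero, add_zero, sub_zero] at h1
    have := h.loc_neg h1
    omega
  | fe x y =>
    simp only [IsK, Kc.edgeOut] at hK ⊢
    have := h.loc_neg hK.2.1
    omega
  | fw x y =>
    simp only [IsK, Kc.edgeOut] at hK ⊢
    have := h.loc_neg hK.1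
    omega

/-- The relations between contacts. -/
theorem tdata_of (h : Odo M (-a) r u) (hR : 1 ≤ R) {K : ℤ → ℤ → Kc}
    (C : CSys (fA (trunc u Y)) (fB (trunc u Y)) R (-a) r Y K) :
    TData (R - 1) 50 a r (fun p q => (K p q).T (trunc u Y) p q) (fun p q => (K p q).edgeIn.1)
      (fun p q => (K p q).edgeOut.1) (fun p q => (K p q).nodeIn.2)
      (fun p q => (K p q).nodeOut.2) := by
  have ha := h.a_nonneg
  have hr := h.hr
  have hs : ∀ p : ℤ, |p| ≤ R - 1 → |p| ≤ R ∧ |p + 1| ≤ R := by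
    intro p hp
    rw [abs_le] at hp ⊢
    rw [abs_le]
    omega
  have z0 : |(0 : ℤ)| ≤ R := by rw [abs_zero]; omega
  have z1 : |(1 : ℤ)| ≤ R := by rw [abs_one]; omega
  have zm : |(-1 : ℤ)| ≤ R := by rw [abs_neg, abs_one]; omega
  have hoff : ∀ y, trunc u Y (-a - 1) y = 0 := by
    intro y
    unfold trunc
    rw [h.off (-a - 1) y (Or.inl (by omega))]
    simp
  refine ⟨?_, ?_, ?_, ?_, ?_, ?_, ?_, ?_, ?_, ?_, ?_, ha, hr, ?_, ?_, ?_⟩
  · intro p q hp hq h0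
    obtain ⟨p1, p2⟩ := hs p hp
    obtain ⟨q1, q2⟩ := hs q hq
    have := T_vlink (C.isK p q p1 q1) (C.isK (p + 1) q p2 q1) (C.vlink p q p1 q1 p2 h0)
    exact this.trans (by norm_num)
  · intro p q hp hq
    obtain ⟨p1, p2⟩ := hs p hp
    obtain ⟨q1, q2⟩ := hs q hq
    have := T_hlink (C.isK p (q + 1) p1 q2) (C.isK p q p1 q1) (C.hlink p q p1 q1 q2)
    exact this.trans (by norm_num)
  · intro p q hp hq h0
    obtain ⟨p1, p2⟩ := hs p hp
    obtain ⟨q1, q2⟩ := hs q hq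
    exact (link_x (C.vlink p q p1 q1 p2 h0)).trans (by norm_num)
  · intro p q hp hq
    obtain ⟨p1, p2⟩ := hs p hp
    obtain ⟨q1, q2⟩ := hs q hq
    exact (link_y (C.hlink p q p1 q1 q2)).trans (by norm_num)
  · intro p q _ _
    rw [(K p q).cr]
    simp
  · -- t0
    obtain ⟨h1, h2⟩ := C.cap0
    have hv : fA (trunc u Y) (K 0 0).edgeOut.1 (K 0 0).edgeOut.2 = 0 := by
      rcases h2 with ⟨g1, g2, -⟩ | ⟨g1, g2, -⟩
      · exact g2 _ le_rfl g1
      · exact g2 _ g1 le_rfl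
    have h3 := T_edgeOut (C.isK 0 0 z0 z0) hv
    have h4 : wp (trunc u Y) 0 0 (K 0 0).edgeOut.1 (K 0 0).edgeOut.2 =
        trunc u Y (K 0 0).edgeOut.1 (K 0 0).edgeOut.2 := by
      unfold wp
      ring
    have h5 : trunc u Y (K 0 0).edgeOut.1 (K 0 0).edgeOut.2 ≤ 1 := by
      rw [h1]
      unfold trunc
      split_ifs
      · have := h.last_col (K 0 0).edgeOut.2
        simp only
        exact_mod_cast this
      · norm_num
    have h6 := trunc_nonneg u Y (K 0 0).edgeOut.1 (K 0 0).edgeOut.2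
    rw [h4] at h3
    rw [abs_le] at h3 ⊢
    constructor <;> linarith [h3.1, h3.2]
  · have h1 := C.cap0.1
    simp only at h1 ⊢
    rw [h1, abs_le]
    omega
  · have h1 := C.cap1.1
    simp only at h1 ⊢
    rw [← h1, abs_le]
    omega
  · -- t1
    obtain ⟨h1, h2⟩ := C.cap1
    simp only at h1 h2
    have hv : fA (trunc u Y) (K 1 0).edgeIn.1 (K 1 0).edgeIn.2 = 1 - 1 := by
      rw [← h1, sub_self]
      rcases h2 with ⟨g1, g2, -⟩ | ⟨g1, g2, -⟩
      · exact g2 _ g1 le_rfl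
      · exact g2 _ le_rfl g1
    have h3 := T_edgeIn (C.isK 1 0 z1 z0) hv
    have h4 : wp (trunc u Y) 1 0 (K 1 0).edgeIn.1 (K 1 0).edgeIn.2 = 4 * (a + 1) := by
      unfold wp
      rw [← h1, hoff]
      ring
    rw [h4] at h3
    rw [abs_le] at h3 ⊢
    constructor <;> linarith [h3.1, h3.2]
  · intro p q hp hq
    obtain ⟨p1, -⟩ := hs p hp
    obtain ⟨q1, -⟩ := hs q hq
    have := h.loc_contact (C.isK p q p1 q1)
    rw [abs_le]
    omega
  · intro p q hp hq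
    obtain ⟨p1, -⟩ := hs p hp
    obtain ⟨q1, -⟩ := hs q hq
    have := h.loc_contact (C.isK p q p1 q1)
    rw [abs_le]
    omega
  · -- u1
    have h1 := h.loc_minus (C.isK (-1) 0 zm z0)
    have h2 := link_x (C.vlink (-1) 0 zm z0 (by norm_num; omega) (by omega))
    norm_num at h2
    rw [abs_le] at h2
    omega
  · have := h.loc_contact (C.isK 0 0 z0 z0)
    omega
  · have := h.loc_contact (C.isK 0 0 z0 z0)
    omega

/-- Systems of contacts for smaller `R`. -/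
theorem CSys.mono {h v : ℤ → ℤ → ℤ} {R R' l r Y : ℤ} {K : ℤ → ℤ → Kc} (C : CSys h v R' l r Y K)
    (hR : R ≤ R') : CSys h v R l r Y K where
  isK a b ha hb := C.isK a b (ha.trans hR) (hb.trans hR)
  hlink a b ha hb hb' := C.hlink a b (ha.trans hR) (hb.trans hR) (hb'.trans hR)
  vlink a b ha hb ha' h0 := C.vlink a b (ha.trans hR) (hb.trans hR) (ha'.trans hR) h0
  cap0 := C.cap0
  cap1 := C.cap1
  vp a b X Y ha hb := C.vp a b X Y (ha.trans hR) (hb.trans hR)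
  vm a b X Y ha hb := C.vm a b X Y (ha.trans hR) (hb.trans hR)
  en a b X Y ha hb := C.en a b X Y (ha.trans hR) (hb.trans hR)
  es a b X Y ha hb := C.es a b X Y (ha.trans hR) (hb.trans hR)
  wn a b X Y ha hb := C.wn a b X Y (ha.trans hR) (hb.trans hR)
  hE a b x y ha hb hb' := C.hE a b x y (ha.trans hR) (hb.trans hR) (hb'.trans hR)
  hW a b x y ha hb hb' := C.hW a b x y (ha.trans hR) (hb.trans hR) (hb'.trans hR)
  vN a b x y ha hb ha' := C.vN a b x y (ha.trans hR) (hb.trans hR) (ha'.trans hR)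
  vS a b x y ha hb ha' := C.vS a b x y (ha.trans hR) (hb.trans hR) (ha'.trans hR)
  v0N := C.v0N
  v0S := C.v0S

/-! ### The sequence -/

open Classical in
/-- The cap row. -/
noncomputable def YN (n : ℕ) : ℤ :=
  if h : ∃ Y : ℤ, ∀ x y, -aN n ≤ x → x < rN n → Y ≤ y → uN n x y = 1 then max h.choose 0 + n + 20
  else n + 20

/-- The truncated odometer. -/
noncomputable def wN (n : ℕ) : ℤ → ℤ → ℤ := trunc (uN n) (YN n)

theorem YN_ge (n : ℕ) : (n : ℤ) + 20 ≤ YN n := by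
  unfold YN
  split_ifs with h
  · have := le_max_right h.choose 0
    omega
  · omega

theorem YN_spec' {n : ℕ} (hn : 1 ≤ n) :
    ∀ x y, -aN n ≤ x → x < rN n → YN n - 10 ≤ y → uN n x y = 1 := by
  obtain ⟨h1, -⟩ := uN_full hn
  have hfar := h1.far
  intro x y hx1 hx2 hy
  unfold YN at hy
  rw [dif_pos hfar] at hy
  exact hfar.choose_spec x y hx1 hx2 (by have := le_max_left hfar.choose 0; omega)

theorem YN_spec {n : ℕ} (hn : 1 ≤ n) : 1 < YN n ∧
    ∀ x y, -aN n ≤ x → x < rN n → YN n - 1 ≤ y → uN n x y = 1 :=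
  ⟨by have := YN_ge n; omega, fun x y h1 h2 h3 => YN_spec' hn x y h1 h2 (by omega)⟩

theorem rfN {n : ℕ} (hn : 1 ≤ n) : RF (rN n + aN n) (truncZ (aN n) (rN n) (YN n)) (wN n) := by
  obtain ⟨h1, -, -, -, h5⟩ := uN_full hn
  obtain ⟨h6, h7⟩ := YN_spec hn
  exact h1.rf h5 h6 h7

theorem exists_KN : ∃ K : ℕ → ℤ → ℤ → Kc, ∀ R : ℕ, ∀ᶠ n in atTop,
    CSys (fA (wN n)) (fB (wN n)) R (-aN n) (rN n) (YN n) (K n) := by
  have : Nonempty (ℤ → ℤ → Kc) := ⟨fun _ _ => Kc.fe 0 0⟩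
  refine exists_diag (fun n R K => CSys (fA (wN n)) (fB (wN n)) (R : ℤ) (-aN n) (rN n) (YN n) K)
    (fun n R R' K hR hK => hK.mono (by exact_mod_cast hR)) ?_
  intro R
  filter_upwards [eventually_ge_atTop (4 * (R + 1) + 28)] with n hn
  have hn1 : 1 ≤ n := by omega
  obtain ⟨h1, -, h3, -, -⟩ := uN_full hn1
  obtain ⟨h6, h7⟩ := YN_spec hn1
  obtain ⟨K, hK⟩ := trunc_sys (R := (R : ℤ) + 1) h1 (rfN hn1) h6
    (fun x hx1 hx2 => h7 x _ hx1 hx2 le_rfl) (by omega) (by omega)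
  exact ⟨K, hK.mono (by omega)⟩

/-- The contacts. -/
noncomputable def KN : ℕ → ℤ → ℤ → Kc := exists_KN.choose

theorem KN_spec (R : ℕ) : ∀ᶠ n in atTop,
    CSys (fA (wN n)) (fB (wN n)) R (-aN n) (rN n) (YN n) (KN n) :=
  exists_KN.choose_spec R

theorem sysN : Sys (fun n p q => (KN n p q).T (wN n) p q) (fun n p q => (KN n p q).edgeIn.1)
    (fun n p q => (KN n p q).edgeOut.1) (fun n p q => (KN n p q).nodeIn.2)
    (fun n p q => (KN n p q).nodeOut.2) aN rN := by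
  intro R
  refine ⟨50, ?_⟩
  filter_upwards [KN_spec (R.toNat + 1), eventually_ge_atTop 1] with n hn h1
  obtain ⟨h2, -⟩ := uN_full h1
  have h3 := tdata_of h2 (by push_cast; omega) hn
  have hle : R ≤ ((R.toNat + 1 : ℕ) : ℤ) - 1 := by push_cast; omega
  exact ⟨fun p q hp hq h0 => h3.tx p q (hp.trans hle) (hq.trans hle) h0,
    fun p q hp hq => h3.ty p q (hp.trans hle) (hq.trans hle),
    fun p q hp hq h0 => h3.lx p q (hp.trans hle) (hq.trans hle) h0,
    fun p q hp hq => h3.ly p q (hp.trans hle) (hq.trans hle),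
    fun p q hp hq => h3.cr p q (hp.trans hle) (hq.trans hle),
    h3.t0, h3.xo0, h3.xi1, h3.t1,
    fun p q hp hq => h3.bx p q (hp.trans hle) (hq.trans hle),
    fun p q hp hq => h3.by' p q (hp.trans hle) (hq.trans hle), h3.na, h3.nr, h3.u1, h3.u2, h3.u3⟩

/-- **Convergence of the potential.** -/
theorem conv_T (p q : ℤ) : Tendsto (fun n => ((KN n p q).T (wN n) p q : ℝ) / n) atTop
    (𝓝 (Kernel.A p q)) := sysN.conv tendsto_aN tendsto_rN p q

theorem conv_Xo {p q : ℤ} (h0 : ¬ (p = 0 ∧ q = 0)) :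
    Tendsto (fun n => ((KN n p q).edgeOut.1 : ℝ) / n) atTop (𝓝 (xi p q)) :=
  sysN.conv_Xo tendsto_aN tendsto_rN h0

theorem conv_Xi (p q : ℤ) :
    Tendsto (fun n => ((KN n p q).edgeIn.1 : ℝ) / n) atTop (𝓝 (xi (p - 1) q)) :=
  sysN.conv_Xi tendsto_aN tendsto_rN p q

theorem conv_Yi (p q : ℤ) :
    Tendsto (fun n => ((KN n p q).nodeIn.2 : ℝ) / n) atTop (𝓝 (eta p q)) :=
  sysN.conv_Yi tendsto_aN tendsto_rN p q

theorem conv_Yo (p q : ℤ) :
    Tendsto (fun n => ((KN n p q).nodeOut.2 : ℝ) / n) atTop (𝓝 (eta p (q - 1))) :=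
  sysN.conv_Yo tendsto_aN tendsto_rN p q

theorem conv_Xo0 : Tendsto (fun n => ((KN n 0 0).edgeOut.1 : ℝ) / n) atTop (𝓝 (3 / 4)) :=
  sysN.conv_Xo0 tendsto_rN

end RotorNE
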