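import Mathlib.Tactic
import Mathlib.Data.Nat.Nth
import Mathlib.Data.Int.Interval
import Mathlib.Data.Int.ConditionallyCompleteOrder
import Mathlib.Data.Int.Star
import Mathlib.Algebra.Order.Star.Real
import Mathlib.Analysis.SpecialFunctions.Integrals.Basic
import Mathlib.Analysis.Fourier.RiemannLebesgueLemma
import Mathlib.Analysis.SpecificLimits.Basic
import Mathlib.Analysis.Asymptotics.SpecificAsymptotics
import Mathlib.MeasureTheory.Integral.Prod
import Mathlib.MeasureTheory.Measure.Lebesgue.Basic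
import Pool.Agent.Lib.MP_936783_pr.Contact
import Pool.Agent.Lib.MP_936783_pr.Final

/-!
# Reduction to the first quadrant of fluxes

The rotation `w ↦ rotc w` by a quarter turn permutes the eight kinds of triangles. It suffices to
prove the convergence of the labels for fluxes `(a, b)` with `a, b ≥ 0` in the four frames.
-/

open Filter Topology

noncomputable section

namespace RotorNE

open Kernel

/-- The odometer in the frame `f`. -/
def WW (f n : ℕ) : ℤ → ℤ → ℤ := rotc^[f] (toZ (uN n))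

lemma WW_zero (n : ℕ) : WW 0 n = toZ (uN n) := rfl

lemma WW_succ (f n : ℕ) : WW (f + 1) n = rotc (WW f n) := by
  unfold WW
  rw [Function.iterate_succ_apply']

/-- Eventually, all fluxes and residues at distance at most two from `n z` are `(a, b, r)`. -/
def EvL (f : ℕ) (z : ℝ × ℝ) (a b r : ℤ) : Prop :=
  ∀ᶠ n : ℕ in atTop, ∀ x y : ℤ, |(x : ℝ) - n * z.1| ≤ 2 → |(y : ℝ) - n * z.2| ≤ 2 →
    fA (WW f n) x y = a ∧ fB (WW f n) x y = b ∧ WW f n x y % 4 = r

/-- The labels in the first quadrant of fluxes, in all four frames. -/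
def FrameLabels : Prop :=
  ∀ f : ℕ, f < 4 → ∀ a b : ℤ, 0 ≤ a → 0 ≤ b → ∀ z : ℝ × ℝ, z ∈ Gen →
    (z ∈ tri .nl a b → EvL f z a b 0) ∧ (z ∈ tri .nh (a + 1) (b + 1) → EvL f z a b 2) ∧
    (z ∈ tri .sl a (b + 1) → EvL f z a b 1) ∧ (z ∈ tri .sh (a + 1) b → EvL f z a b 3) ∧
    (z ∈ tri .fl a b → EvL f z a b 0) ∧ (z ∈ tri .fh a b → EvL f z a b 2)

/-- Windows around the midpoints of edges. -/
def EvM (f : ℕ) (z : ℝ × ℝ) (a b r : ℤ) : Prop :=
  ∀ᶠ n : ℕ in atTop,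
    (∀ x y : ℤ, |(x : ℝ) + 1 / 2 - n * z.1| ≤ 3 / 2 → |(y : ℝ) - n * z.2| ≤ 3 / 2 →
      fA (WW f n) x y = a) ∧
    (∀ x y : ℤ, |(x : ℝ) - n * z.1| ≤ 3 / 2 → |(y : ℝ) + 1 / 2 - n * z.2| ≤ 3 / 2 →
      fB (WW f n) x y = b) ∧
    (∀ x y : ℤ, |(x : ℝ) - n * z.1| ≤ 3 / 2 → |(y : ℝ) - n * z.2| ≤ 3 / 2 →
      WW f n x y % 4 = r)

lemma EvL.evM {f : ℕ} {z : ℝ × ℝ} {a b r : ℤ} (h : EvL f z a b r) : EvM f z a b r := by
  filter_upwards [h] with n hn
  refine ⟨fun x y hx hy => (hn x y ?_ ?_).1, fun x y hx hy => (hn x y ?_ ?_).2.1,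
    fun x y hx hy => (hn x y ?_ ?_).2.2⟩
  · rw [abs_le] at hx ⊢
    constructor <;> linarith [hx.1, hx.2]
  · linarith
  · linarith
  · rw [abs_le] at hy ⊢
    constructor <;> linarith [hy.1, hy.2]
  · linarith
  · linarith

/-- One rotation. -/
lemma EvM.down {f : ℕ} {z : ℝ × ℝ} {a b r : ℤ}
    (h : EvM (f + 1) (z.2, -z.1) b (-1 - a) ((r + 1) % 4)) (hr : 0 ≤ r) (hr' : r < 4) :
    EvM f z a b r := by
  filter_upwards [h] with n hn
  obtain ⟨hA, hB, hR⟩ := hn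
  rw [WW_succ] at hA hB hR
  rw [fA_rotc] at hA
  rw [fB_rotc] at hB
  unfold rotA at hA
  unfold rotB at hB
  unfold rotc at hR
  refine ⟨fun x y hx hy => ?_, fun x y hx hy => ?_, fun x y hx hy => ?_⟩
  · have := hB y (-x - 1) hy (by
      push_cast
      rw [abs_le] at hx ⊢
      constructor <;> linarith [hx.1, hx.2])
    rw [show -(-x - 1) - 1 = x by ring] at this
    omega
  · have := hA y (-x) hy (by
      push_cast
      rw [abs_le] at hx ⊢
      constructor <;> linarith [hx.1, hx.2])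
    rw [neg_neg] at this
    exact this
  · have := hR y (-x) hy (by
      push_cast
      rw [abs_le] at hx ⊢
      constructor <;> linarith [hx.1, hx.2])
    rw [neg_neg] at this
    omega

lemma gen_rot {z : ℝ × ℝ} (hz : z ∈ Gen) : ((z.2, -z.1) : ℝ × ℝ) ∈ Gen := by
  obtain ⟨⟨h1, h2⟩, h3, h4⟩ := hz
  refine ⟨⟨h3, h4⟩, ?_, ?_⟩
  · simpa using h1
  · intro a b he
    simp only at he
    refine h2 (-1 - a) b ?_
    rw [xi_refl]
    linarith

/-- The rotation of the kinds. -/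
def rotK : Kind → Kind
  | .nl => .sl
  | .nh => .sh
  | .sl => .nh
  | .sh => .nl
  | .fl => .gh
  | .fh => .gl
  | .gl => .fl
  | .gh => .fh

/-- The rotation of the second index. -/
def rotI : Kind → ℤ → ℤ
  | .nl, a => -a
  | .nh, a => -a
  | .sl, a => -a
  | .sh, a => -a
  | .fl, a => -1 - a
  | .fh, a => -1 - a
  | .gl, a => -1 - a
  | .gh, a => -1 - a

lemma xi_eta (a b : ℤ) : xi b (-a) = eta a b := by
  rw [xi_refl', eta_eq]

lemma tri_rot {k : Kind} {a b : ℤ} {z : ℝ × ℝ} (h : z ∈ tri k a b) :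
    ((z.2, -z.1) : ℝ × ℝ) ∈ tri (rotK k) b (rotI k a) := by
  -- positions
  have x1 : xi b (-a) = eta a b := xi_eta a b
  have x2 : xi (b - 1) (-a) = eta a (b - 1) := xi_eta a (b - 1)
  have y1 : eta b (-a) = -xi (a - 1) b := by
    rw [eta_eq, show (-a : ℤ) = -1 - (a - 1) by ring, xi_refl]
  have y2 : eta b (-a - 1) = -xi a b := by
    rw [eta_eq, show (-a - 1 : ℤ) = -1 - a by ring, xi_refl]
  have u1 : xi b (-1 - a) = eta (a + 1) b := by
    rw [show (-1 - a : ℤ) = -(a + 1) by ring, xi_eta]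
  have u2 : xi b (-1 - a + 1) = eta a b := by
    rw [show (-1 - a + 1 : ℤ) = -a by ring, xi_eta]
  have v1 : eta b (-1 - a) = -xi a b := by rw [eta_eq, xi_refl]
  have v2 : eta (b + 1) (-1 - a) = -xi a (b + 1) := by rw [eta_eq, xi_refl]
  have c1 := xi_sub a b
  have c2 := fun h => eta_sub (a := a) (b := b) h
  have c3 := xi_up a b
  have c4 := eta_up a b
  cases k
  · obtain ⟨h0, h1, h2, h3, h4, h5⟩ := h
    have c2 := c2 h0
    refine ⟨by simp only [rotI]; omega, ?_, ?_, ?_, ?_, ?_⟩ <;>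
      simp only [x1, x2, y1, y2, rotI] <;> linarith
  · obtain ⟨h0, h1, h2, h3, h4, h5⟩ := h
    have c2 := c2 h0
    refine ⟨by simp only [rotI]; omega, ?_, ?_, ?_, ?_, ?_⟩ <;>
      simp only [x1, x2, y1, y2, rotI] <;> linarith
  · obtain ⟨h0, h1, h2, h3, h4, h5⟩ := h
    have c2 := c2 h0
    refine ⟨by simp only [rotI]; omega, ?_, ?_, ?_, ?_, ?_⟩ <;>
      simp only [x1, x2, y1, y2, rotI] <;> linarith
  · obtain ⟨h0, h1, h2, h3, h4, h5⟩ := h
    have c2 := c2 h0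
    refine ⟨by simp only [rotI]; omega, ?_, ?_, ?_, ?_, ?_⟩ <;>
      simp only [x1, x2, y1, y2, rotI] <;> linarith
  · obtain ⟨h1, h2, h3, h4, h5⟩ := h
    refine ⟨?_, ?_, ?_, ?_, ?_⟩ <;> simp only [u1, u2, v1, v2, rotI] <;> linarith
  · obtain ⟨h1, h2, h3, h4, h5⟩ := h
    refine ⟨?_, ?_, ?_, ?_, ?_⟩ <;> simp only [u1, u2, v1, v2, rotI] <;> linarith
  · obtain ⟨h1, h2, h3, h4, h5⟩ := h
    refine ⟨?_, ?_, ?_, ?_, ?_⟩ <;> simp only [u1, u2, v1, v2, rotI] <;> linarith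
  · obtain ⟨h1, h2, h3, h4, h5⟩ := h
    refine ⟨?_, ?_, ?_, ?_, ?_⟩ <;> simp only [u1, u2, v1, v2, rotI] <;> linarith

/-- The statement for one kind in one frame. -/
def PL (f : ℕ) (k : Kind) (a b : ℤ) : Prop :=
  ∀ z ∈ tri k a b, z ∈ Gen → EvM f z (labOf k a b).1 (labOf k a b).2.1 (labOf k a b).2.2

lemma lab_rot (k : Kind) (a b : ℤ) : (labOf (rotK k) b (rotI k a)).1 = (labOf k a b).2.1 ∧
    (labOf (rotK k) b (rotI k a)).2.1 = -1 - (labOf k a b).1 := by
  cases k <;> simp only [labOf, rotK, rotI, true_and] <;> omega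

lemma lab_rot' (k : Kind) (a b : ℤ) : ((labOf (rotK k) b (rotI k a)).2.2 : ℤ) =
    (((labOf k a b).2.2 : ℤ) + 1) % 4 := by
  cases k <;> simp only [labOf, rotK] <;> rfl

lemma PL.down {f : ℕ} {k : Kind} {a b : ℤ} (h : PL (f + 1) (rotK k) b (rotI k a)) :
    PL f k a b := by
  intro z hz hg
  have h1 := h _ (tri_rot hz) (gen_rot hg)
  apply EvM.down
  · obtain ⟨e1, e2⟩ := lab_rot k a b
    rw [e1, e2, lab_rot'] at h1
    exact h1
  · positivity
  · cases k <;> simp [labOf]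

lemma PL.base (H : FrameLabels) {f : ℕ} (hf : f < 4) (k : Kind) (a b : ℤ)
    (ha : 0 ≤ (labOf k a b).1) (hb : 0 ≤ (labOf k a b).2.1) : PL f k a b := by
  intro z hz hg
  apply EvL.evM
  cases k <;> simp only [labOf] at ha hb ⊢
  · exact (H f hf a b ha hb z hg).1 hz
  · have := (H f hf (a - 1) (b - 1) ha hb z hg).2.1
    rw [sub_add_cancel, sub_add_cancel] at this
    exact this hz
  · have := (H f hf a (b - 1) ha hb z hg).2.2.1
    rw [sub_add_cancel] at this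
    exact this hz
  · have := (H f hf (a - 1) b ha hb z hg).2.2.2.1
    rw [sub_add_cancel] at this
    exact this hz
  · exact (H f hf a b ha hb z hg).2.2.2.2.1 hz
  · exact (H f hf a b ha hb z hg).2.2.2.2.2 hz
  · exfalso
    obtain ⟨h1, h2, -⟩ := hz
    have := D_lt a b ha hb
    have := xi_up a b
    linarith
  · exfalso
    obtain ⟨h1, h2, -⟩ := hz
    have := D_lt a b ha hb
    have := xi_up a b
    linarith

lemma PL.all (H : FrameLabels) (k : Kind) (a b : ℤ) : PL 0 k a b := by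
  obtain ⟨e1, e2⟩ := lab_rot k a b
  obtain ⟨e3, e4⟩ := lab_rot (rotK k) b (rotI k a)
  obtain ⟨e5, e6⟩ := lab_rot (rotK (rotK k)) (rotI k a) (rotI (rotK k) b)
  rcases le_or_gt 0 (labOf k a b).1 with ha | ha <;> rcases le_or_gt 0 (labOf k a b).2.1 with hb | hb
  · exact PL.base H (by norm_num) k a b ha hb
  · refine PL.down (PL.down (PL.down ?_))
    exact PL.base H (by norm_num) _ _ _ (by omega) (by omega)
  · refine PL.down ?_
    exact PL.base H (by norm_num) _ _ _ (by omega) (by omega)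
  · refine PL.down (PL.down ?_)
    exact PL.base H (by norm_num) _ _ _ (by omega) (by omega)

/-- **Reduction to the first quadrant of fluxes.** -/
theorem limitTiles_of_frames (H : FrameLabels) : LimitTiles labN := by
  intro k a b z hz hg
  have h := PL.all H k a b z hz hg
  filter_upwards [h] with n hn
  obtain ⟨hA, hB, hR⟩ := hn
  obtain ⟨fx1, fx2⟩ : (⌊(n : ℝ) * z.1⌋ : ℝ) ≤ n * z.1 ∧ (n : ℝ) * z.1 < (⌊(n : ℝ) * z.1⌋ : ℝ) + 1 :=
    ⟨Int.floor_le _, Int.lt_floor_add_one _⟩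
  obtain ⟨fy1, fy2⟩ : (⌊(n : ℝ) * z.2⌋ : ℝ) ≤ n * z.2 ∧ (n : ℝ) * z.2 < (⌊(n : ℝ) * z.2⌋ : ℝ) + 1 :=
    ⟨Int.floor_le _, Int.lt_floor_add_one _⟩
  have h1 := hA ⌊(n : ℝ) * z.1⌋ ⌊(n : ℝ) * z.2⌋ (by rw [abs_le]; constructor <;> linarith)
    (by rw [abs_le]; constructor <;> linarith)
  have h2 := hB ⌊(n : ℝ) * z.1⌋ ⌊(n : ℝ) * z.2⌋ (by rw [abs_le]; constructor <;> linarith)
    (by rw [abs_le]; constructor <;> linarith)
  have h3 := hR ⌊(n : ℝ) * z.1⌋ ⌊(n : ℝ) * z.2⌋ (by rw [abs_le]; constructor <;> linarith)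
    (by rw [abs_le]; constructor <;> linarith)
  unfold labN labU
  refine Prod.ext ?_ (Prod.ext ?_ ?_)
  · rw [← h1]
    rfl
  · rw [← h2]
    rfl
  · have h4 : ((uN n ⌊(n : ℝ) * z.1⌋ ⌊(n : ℝ) * z.2⌋ : ℕ) : ℤ) % 4 = (labOf k a b).2.2 := h3
    simp only
    omega

end RotorNE
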