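import Mathlib.Tactic
import Mathlib.Data.Nat.Nth
import Mathlib.Order.Filter.AtTopBot.Basic
import Mathlib.Algebra.BigOperators.Intervals
import Mathlib.Data.Int.Interval
import Pool.Agent.Lib.MP_936783_pr.TPot
import Pool.Agent.Lib.MP_936783_pr.Inst

/-!
# Rotation of the contact system

The rotation sends the site `(x, y)` to `(y, -x)` and the slope `(a, b)` to `(b, -a)`.
-/

namespace RotorNE

/-- The rotated contact. -/
def Kc.rot : Kc → Kc
  | .ne x y m => .se y (-x) m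
  | .se x y m => .ne (y - m) (-x - m) m
  | .fe x y => .fw y (-x - 1)
  | .fw x y => .fe y (-x - 1)

theorem Kc.rot_nodeIn (K : Kc) : K.rot.nodeIn = (K.edgeIn.2, -K.edgeIn.1 - 1) := by
  cases K <;> refine Prod.ext ?_ ?_ <;> simp only [Kc.rot, Kc.nodeIn, Kc.edgeIn] <;> omega

theorem Kc.rot_nodeOut (K : Kc) : K.rot.nodeOut = (K.edgeOut.2, -K.edgeOut.1 - 1) := by
  cases K <;> refine Prod.ext ?_ ?_ <;> simp only [Kc.rot, Kc.nodeOut, Kc.edgeOut] <;> omega

theorem Kc.rot_edgeIn (K : Kc) : K.rot.edgeIn = (K.nodeOut.2, -K.nodeOut.1) := by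
  cases K <;> refine Prod.ext ?_ ?_ <;> simp only [Kc.rot, Kc.nodeOut, Kc.edgeIn] <;> omega

theorem Kc.rot_edgeOut (K : Kc) : K.rot.edgeOut = (K.nodeIn.2, -K.nodeIn.1) := by
  cases K <;> refine Prod.ext ?_ ?_ <;> simp only [Kc.rot, Kc.nodeIn, Kc.edgeOut] <;> omega

theorem Kc.rot_vp (K : Kc) (x y : ℤ) : K.rot.vp x y ↔ K.vm (-y) x := by
  cases K with
  | ne x0 y0 m => simp only [Kc.rot, Kc.vp, Kc.vm]
  | se x0 y0 m =>
    simp only [Kc.rot, Kc.vp, Kc.vm]
    constructor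
    · rintro ⟨i, h1, h2, h3⟩
      exact ⟨m - i, by omega, by omega, by omega⟩
    · rintro ⟨i, h1, h2, h3⟩
      exact ⟨m - i, by omega, by omega, by omega⟩
  | fe x0 y0 => simp only [Kc.rot, Kc.vp, Kc.vm]
  | fw x0 y0 => simp only [Kc.rot, Kc.vp, Kc.vm]

theorem Kc.rot_vm (K : Kc) (x y : ℤ) : K.rot.vm x y ↔ K.vp (-y) x := by
  cases K with
  | ne x0 y0 m =>
    simp only [Kc.rot, Kc.vp, Kc.vm]
    constructor
    · rintro ⟨i, h1, h2, h3⟩
      exact ⟨i, h1, by omega, by omega⟩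
    · rintro ⟨i, h1, h2, h3⟩
      exact ⟨i, h1, by omega, by omega⟩
  | se x0 y0 m => simp only [Kc.rot, Kc.vp, Kc.vm]
  | fe x0 y0 => simp only [Kc.rot, Kc.vp, Kc.vm]
  | fw x0 y0 => simp only [Kc.rot, Kc.vp, Kc.vm]

theorem Kc.rot_en (K : Kc) (x y : ℤ) : K.rot.en x y ↔ K.en (-y - 1) x := by
  cases K with
  | ne x0 y0 m =>
    simp only [Kc.rot, Kc.en]
    constructor
    · rintro ⟨i, h1, h2, h3⟩
      exact ⟨i, h1, by omega, by omega⟩
    · rintro ⟨i, h1, h2, h3⟩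
      exact ⟨i, h1, by omega, by omega⟩
  | se x0 y0 m =>
    simp only [Kc.rot, Kc.en]
    constructor
    · rintro ⟨i, h1, h2, h3⟩
      exact ⟨m - 1 - i, by omega, by omega, by omega⟩
    · rintro ⟨i, h1, h2, h3⟩
      exact ⟨m - 1 - i, by omega, by omega, by omega⟩
  | fe x0 y0 => simp only [Kc.rot, Kc.en]
  | fw x0 y0 => simp only [Kc.rot, Kc.en]

theorem Kc.rot_es (K : Kc) (x y : ℤ) : K.rot.es x y ↔ K.wn (-y - 1) x := by
  cases K with
  | ne x0 y0 m => simp only [Kc.rot, Kc.es, Kc.wn]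
  | se x0 y0 m => simp only [Kc.rot, Kc.es, Kc.wn]
  | fe x0 y0 => simp only [Kc.rot, Kc.es, Kc.wn]
  | fw x0 y0 =>
    simp only [Kc.rot, Kc.es, Kc.wn]
    omega

theorem Kc.rot_wn (K : Kc) (x y : ℤ) : K.rot.wn x y ↔ K.es (-y - 1) x := by
  cases K with
  | ne x0 y0 m => simp only [Kc.rot, Kc.es, Kc.wn]
  | se x0 y0 m => simp only [Kc.rot, Kc.es, Kc.wn]
  | fe x0 y0 =>
    simp only [Kc.rot, Kc.es, Kc.wn]
    omega
  | fw x0 y0 => simp only [Kc.rot, Kc.es, Kc.wn]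

theorem IsK_rot {A B : ℤ → ℤ → ℤ} {a b : ℤ} {K : Kc} (h : IsK A B a b K) :
    IsK (rotA B) (rotB A) b (-a) K.rot := by
  cases K with
  | ne x y m =>
    simp only [Kc.rot, IsK, rotA, rotB] at h ⊢
    constructor
    · intro i hi
      obtain ⟨h1, h2, h3, h4⟩ := h.1 i hi
      rw [show -(-x - (i : ℤ)) = x + i by ring, show y + (i : ℤ) - 1 = y + i - 1 by ring,
        show -(-x - (i : ℤ) - 1) - 1 = x + i by ring, show x + (i : ℤ) - 1 = x + i - 1 by ring]
      exact ⟨h3, h4, by omega, by omega⟩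
    · intro i hi
      obtain ⟨h1, h2, h3, h4⟩ := h.2 i hi
      rw [show -(-x - (i : ℤ)) = x + i by ring, show -(-x - (i : ℤ) - 1) = x + i + 1 by ring,
        show x + (i : ℤ) + 1 - 1 = x + i by ring,
        show y + (i : ℤ) + 1 = y + i + 1 by ring]
      exact ⟨h4, h3, by omega, by omega⟩
  | se x y m =>
    simp only [Kc.rot, IsK, rotA, rotB] at h ⊢
    constructor
    · intro i hi
      obtain ⟨h1, h2, h3, h4⟩ := h.1 (m - i) (by omega)
      have e : ((m - i : ℕ) : ℤ) = m - i := by omega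
      rw [e] at h1 h2 h3 h4
      rw [show -(-x - (m : ℤ) + i) = x + (m - i) by ring,
        show y - (m : ℤ) + i = y - (m - i) by ring,
        show -(-x - (m : ℤ) + i - 1) - 1 = x + (m - i) by ring]
      exact ⟨h3, h4, by omega, by omega⟩
    · intro i hi
      obtain ⟨h1, h2, h3, h4⟩ := h.2 (m - 1 - i) (by omega)
      have e : ((m - 1 - i : ℕ) : ℤ) = m - 1 - i := by omega
      rw [e] at h1 h2 h3 h4
      rw [show -(-x - (m : ℤ) + i) = x + (m - 1 - i) + 1 by ring,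
        show -(-x - (m : ℤ) + i + 1) = x + (m - 1 - i) by ring,
        show x + ((m : ℤ) - 1 - i) + 1 - 1 = x + (m - 1 - i) by ring,
        show y - (m : ℤ) + i = y - (m - 1 - i) - 1 by ring,
        show y - ((m : ℤ) - 1 - i) - 1 + 1 = y - (m - 1 - i) by ring]
      exact ⟨h4, h3, by omega, by omega⟩
  | fe x y =>
    simp only [Kc.rot, IsK, rotA, rotB] at h ⊢
    rw [show -(-x - 1) = x + 1 by ring, show -(-x - 1 + 1) = x by ring,
      show x + 1 - 1 = x by ring]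
    omega
  | fw x y =>
    simp only [Kc.rot, IsK, rotA, rotB] at h ⊢
    rw [show -(-x - 1) = x + 1 by ring, show -(-x - 1 + 1) = x by ring,
      show x + 1 - 1 = x by ring]
    omega

theorem HLink_rot {A B : ℤ → ℤ → ℤ} {a b : ℤ} {K K' : Kc} (h : VLink A B a b K K') :
    HLink (rotA B) (rotB A) b (-a - 1) K.rot K'.rot := by
  rcases h with ⟨hx, h⟩ | h
  · refine Or.inl ⟨?_, ?_⟩
    · rw [Kc.rot_nodeOut, Kc.rot_nodeIn]
      simp only
      rw [hx]
    · rw [Kc.rot_nodeOut, Kc.rot_nodeIn]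
      simp only [rotA, rotB]
      rw [show -(-K'.edgeIn.1 - 1) - 1 = K'.edgeIn.1 by ring,
        show -(-K'.edgeIn.1 - 1) = K'.edgeIn.1 + 1 by ring,
        show -(-K'.edgeIn.1 - 1 + 1) = K'.edgeIn.1 by ring, ← hx]
      rcases h with ⟨h1, h2, h3⟩ | ⟨h1, h2, h3⟩
      · refine Or.inl ⟨h1, fun x g1 g2 => ?_, fun x g1 g2 => ?_⟩
        · rw [h2 x g1 g2]
        · exact (h3 x g1 g2).symm
      · refine Or.inr ⟨h1, fun x g1 g2 => ?_, fun x g1 g2 => ?_⟩
        · rw [h2 x g1 g2]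
        · exact (h3 x g1 g2).symm
  · refine Or.inr ?_
    cases K <;> cases K' <;> simp only [Kc.vLast, Kc.vFirst, Cell.vx.injEq, Cell.fc.injEq,
      reduceCtorEq] at h <;> simp only [Kc.rot, Kc.hLast, Kc.hFirst, Cell.vx.injEq,
      Cell.fc.injEq] <;> omega

theorem VLink_rot {A B : ℤ → ℤ → ℤ} {a b : ℤ} {K K' : Kc} (h : HLink A B a b K' K) :
    VLink (rotA B) (rotB A) b (-a) K.rot K'.rot := by
  rcases h with ⟨hx, h⟩ | h
  · refine Or.inl ⟨?_, ?_⟩
    · rw [Kc.rot_edgeOut, Kc.rot_edgeIn]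
      simp only
      rw [hx]
    · rw [Kc.rot_edgeOut, Kc.rot_edgeIn]
      simp only [rotA, rotB]
      rcases h with ⟨h1, h2, h3⟩ | ⟨h1, h2, h3⟩
      · refine Or.inl ⟨by omega, fun x g1 g2 => h2 _ (by omega) (by omega), fun x g1 g2 => ?_⟩
        have := h3 (-x - 1) (by omega) (by omega)
        constructor <;> omega
      · refine Or.inr ⟨by omega, fun x g1 g2 => h2 _ (by omega) (by omega), fun x g1 g2 => ?_⟩
        have := h3 (-x - 1) (by omega) (by omega)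
        constructor <;> omega
  · refine Or.inr ?_
    cases K <;> cases K' <;> simp only [Kc.hLast, Kc.hFirst, Cell.vx.injEq, Cell.fc.injEq,
      reduceCtorEq] at h <;> simp only [Kc.rot, Kc.vLast, Kc.vFirst, Cell.vx.injEq,
      Cell.fc.injEq] <;> omega

/-- A contact system for all slopes in the box of radius `R`, in any of the four frames. The
predicates `exH`, `exV` single out the exceptional link. -/
structure FSys (h v : ℤ → ℤ → ℤ) (R : ℤ) (exH exV : ℤ → ℤ → Prop) (K : ℤ → ℤ → Kc) : Prop where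
  isK : ∀ a b, |a| ≤ R → |b| ≤ R → IsK h v a b (K a b)
  hlink : ∀ a b, |a| ≤ R → |b| ≤ R → |b + 1| ≤ R → ¬ exH a b → HLink h v a b (K a (b + 1)) (K a b)
  vlink : ∀ a b, |a| ≤ R → |b| ≤ R → |a + 1| ≤ R → ¬ exV a b → VLink h v a b (K a b) (K (a + 1) b)
  vp : ∀ a b X Y, |a| ≤ R → |b| ≤ R → VP h v a b X Y → (K a b).vp X Y
  vm : ∀ a b X Y, |a| ≤ R → |b| ≤ R → VM h v a b X Y → (K a b).vm X Y
  en : ∀ a b X Y, |a| ≤ R → |b| ≤ R → EN h v a b X Y → (K a b).en X Y
  es : ∀ a b X Y, |a| ≤ R → |b| ≤ R → ES h v a b X Y → (K a b).es X Y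
  wn : ∀ a b X Y, |a| ≤ R → |b| ≤ R → WN h v a b X Y → (K a b).wn X Y
  /-- clean runs to the east -/
  hE : ∀ a b x y, |a| ≤ R → |b| ≤ R → |b + 1| ≤ R → ¬ exH a b → h x (y + 1) < a → a ≤ h x y →
    v x y = b → v (x + 1) y = b → y = (K a b).nodeIn.2 ∧ y = (K a (b + 1)).nodeOut.2 ∧
      (K a (b + 1)).nodeOut.1 ≤ x ∧ x + 1 ≤ (K a b).nodeIn.1
  /-- clean runs to the west -/
  hW : ∀ a b x y, |a| ≤ R → |b| ≤ R → |b + 1| ≤ R → ¬ exH a b → h x y < a → a ≤ h x (y + 1) →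
    v x y = b → v (x + 1) y = b → y = (K a b).nodeIn.2 ∧ y = (K a (b + 1)).nodeOut.2 ∧
      (K a b).nodeIn.1 ≤ x ∧ x + 1 ≤ (K a (b + 1)).nodeOut.1
  /-- clean runs to the north -/
  vN : ∀ a b x y, |a| ≤ R → |b| ≤ R → |a + 1| ≤ R → ¬ exV a b → v x y < b →
    b ≤ v (x + 1) y → h x y = a → h x (y + 1) = a → x = (K a b).edgeOut.1 ∧
      x = (K (a + 1) b).edgeIn.1 ∧ (K a b).edgeOut.2 ≤ y ∧ y + 1 ≤ (K (a + 1) b).edgeIn.2
  /-- clean runs to the south -/
  vS : ∀ a b x y, |a| ≤ R → |b| ≤ R → |a + 1| ≤ R → ¬ exV a b → b ≤ v x y →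
    v (x + 1) y < b → h x y = a → h x (y + 1) = a → x = (K a b).edgeOut.1 ∧
      x = (K (a + 1) b).edgeIn.1 ∧ (K (a + 1) b).edgeIn.2 ≤ y ∧ y + 1 ≤ (K a b).edgeOut.2

/-- The rotated contact system. -/
def rotKc (K : ℤ → ℤ → Kc) : ℤ → ℤ → Kc := fun a b => (K (-b) a).rot

/-- The rotated exceptional links. -/
def rotEH (exV : ℤ → ℤ → Prop) : ℤ → ℤ → Prop := fun a b => exV (-b - 1) a

def rotEV (exH : ℤ → ℤ → Prop) : ℤ → ℤ → Prop := fun a b => exH (-b) a

theorem FSys.rot {A B : ℤ → ℤ → ℤ} {R : ℤ} {exH exV : ℤ → ℤ → Prop} {K : ℤ → ℤ → Kc}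
    (h : FSys A B R exH exV K) :
    FSys (rotA B) (rotB A) R (rotEH exV) (rotEV exH) (rotKc K) := by
  refine ⟨?_, ?_, ?_, ?_, ?_, ?_, ?_, ?_, ?_, ?_, ?_, ?_⟩
  · intro a b ha hb
    have := IsK_rot (h.isK (-b) a (by rwa [abs_neg]) ha)
    rwa [neg_neg] at this
  · intro a b ha hb hb' hex
    have h1 := h.vlink (-b - 1) a (by rw [show -b - 1 = -(b + 1) by ring, abs_neg]; exact hb') ha
      (by rw [show -b - 1 + 1 = -b by ring, abs_neg]; exact hb) hex
    have h2 := HLink_rot h1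
    rw [show -(-b - 1) - 1 = b by ring] at h2
    unfold rotKc
    rw [show -(b + 1) = -b - 1 by ring]
    rwa [show -b - 1 + 1 = -b by ring] at h2
  · intro a b ha hb ha' hex
    have h1 := h.hlink (-b) a (by rwa [abs_neg]) ha ha' hex
    have h2 := VLink_rot h1
    rwa [neg_neg] at h2
  · intro a b x y ha hb hc
    unfold rotKc
    rw [Kc.rot_vp]
    refine h.vm (-b) a (-y) x (by rwa [abs_neg]) ha ?_
    rwa [show b = -(-b) by ring, VP_rot] at hc
  · intro a b x y ha hb hc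
    unfold rotKc
    rw [Kc.rot_vm]
    refine h.vp (-b) a (-y) x (by rwa [abs_neg]) ha ?_
    rwa [show b = -(-b) by ring, VM_rot] at hc
  · intro a b x y ha hb hc
    unfold rotKc
    rw [Kc.rot_en]
    refine h.en (-b) a (-y - 1) x (by rwa [abs_neg]) ha ?_
    rwa [show b = -(-b) by ring, EN_rot] at hc
  · intro a b x y ha hb hc
    unfold rotKc
    rw [Kc.rot_es]
    refine h.wn (-b) a (-y - 1) x (by rwa [abs_neg]) ha ?_
    rwa [show b = -(-b) by ring, ES_rot] at hc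
  · intro a b x y ha hb hc
    unfold rotKc
    rw [Kc.rot_wn]
    refine h.es (-b) a (-y - 1) x (by rwa [abs_neg]) ha ?_
    rwa [show b = -(-b) by ring, WN_rot] at hc
  · intro a b x y ha hb hb' hex g1 g2 g3 g4
    unfold rotA at g1 g2
    unfold rotB at g3 g4
    rw [show -(y + 1) = -y - 1 by ring] at g1
    have h1 := h.vN (-b - 1) a (-y - 1) x
      (by rw [show -b - 1 = -(b + 1) by ring, abs_neg]; exact hb') ha
      (by rw [show -b - 1 + 1 = -b by ring, abs_neg]; exact hb) hex g1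
      (by rw [show -y - 1 + 1 = -y by ring]; exact g2) (by omega) (by omega)
    rw [show -b - 1 + 1 = -b by ring] at h1
    unfold rotKc
    rw [show -(b + 1) = -b - 1 by ring, Kc.rot_nodeIn, Kc.rot_nodeOut]
    simp only
    omega
  · intro a b x y ha hb hb' hex g1 g2 g3 g4
    unfold rotA at g1 g2
    unfold rotB at g3 g4
    rw [show -(y + 1) = -y - 1 by ring] at g2
    have h1 := h.vS (-b - 1) a (-y - 1) x
      (by rw [show -b - 1 = -(b + 1) by ring, abs_neg]; exact hb') ha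
      (by rw [show -b - 1 + 1 = -b by ring, abs_neg]; exact hb) hex g2
      (by rw [show -y - 1 + 1 = -y by ring]; exact g1) (by omega) (by omega)
    rw [show -b - 1 + 1 = -b by ring] at h1
    unfold rotKc
    rw [show -(b + 1) = -b - 1 by ring, Kc.rot_nodeIn, Kc.rot_nodeOut]
    simp only
    omega
  · intro a b x y ha hb ha' hex g1 g2 g3 g4
    unfold rotB at g1 g2
    unfold rotA at g3 g4
    rw [show -(y + 1) = -y - 1 by ring] at g4
    have h1 := h.hE (-b) a (-y - 1) x (by rwa [abs_neg]) ha ha' hex (by omega) (by omega)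
      g4 (by rw [show -y - 1 + 1 = -y by ring]; exact g3)
    unfold rotKc
    rw [Kc.rot_edgeIn, Kc.rot_edgeOut]
    simp only
    omega
  · intro a b x y ha hb ha' hex g1 g2 g3 g4
    unfold rotB at g1 g2
    unfold rotA at g3 g4
    rw [show -(y + 1) = -y - 1 by ring] at g4
    have h1 := h.hW (-b) a (-y - 1) x (by rwa [abs_neg]) ha ha' hex (by omega) (by omega)
      g4 (by rw [show -y - 1 + 1 = -y by ring]; exact g3)
    unfold rotKc
    rw [Kc.rot_edgeIn, Kc.rot_edgeOut]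
    simp only
    omega

/-- Frame `0`. -/
theorem CSys.toF {h v : ℤ → ℤ → ℤ} {R l r Y : ℤ} {K : ℤ → ℤ → Kc} (S : CSys h v R l r Y K) :
    FSys h v R (fun _ _ => False) (fun a b => a = 0 ∧ b = 0) K := by
  refine ⟨S.isK, ?_, S.vlink, S.vp, S.vm, S.en, S.es, S.wn, ?_, ?_, S.vN, S.vS⟩
  · intro a b ha hb hb' _
    exact S.hlink a b ha hb hb'
  · intro a b x y ha hb hb' _
    exact S.hE a b x y ha hb hb'
  · intro a b x y ha hb hb' _
    exact S.hW a b x y ha hb hb'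

end RotorNE
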