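import Mathlib.Tactic
import Mathlib.Data.Nat.Nth
import Mathlib.Data.Int.Interval
import Mathlib.Data.Int.ConditionallyCompleteOrder
import Mathlib.Data.Int.Star
import Mathlib.Algebra.Order.Star.Real
import Mathlib.Analysis.SpecialFunctions.Integrals.Basic
import Mathlib.Analysis.Fourier.RiemannLebesgueLemma
import Mathlib.Analysis.SpecificLimits.Basic
import Mathlib.Analysis.Asymptotics.SpecificAsymptotics
import Mathlib.MeasureTheory.Integral.Prod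
import Mathlib.MeasureTheory.Measure.Lebesgue.Basic
import Pool.Agent.Lib.MP_936783_pr.Contact
import Pool.Agent.Lib.MP_936783_pr.Final

/-!
# The interface between the level curve structure and the exactness part

`Pkg R N e w` collects the facts on one (rotated) rotor odometer `w` which are used in the
exactness part.  `N` is the number of escapes, `e = ε N` the tolerance, `R` a bound on the levels.
All fields have been checked numerically for all four rotations of `uN n` (n = 400, 1200).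

The exactness part uses only:
`∀ R ε, 0 < ε → ∀ᶠ n, ∀ j < 4, Pkg R n (ε * n) (rotc^[j] (toZ (uN n)))`.
-/

open Filter

noncomputable section

namespace RotorNE

/-- Limit abscissa of the contact chains of `(a, b)` and `(a + 1, b)`. -/
def XX (N : ℝ) (a b : ℤ) : ℝ := N * xi a b

/-- Limit ordinate of the contact chains of `(a, b)` and `(a, b + 1)`. -/
def YY (N : ℝ) (a b : ℤ) : ℝ := N * eta a b

/-- The plane of the corner `(a, b)`. -/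
def PP (N : ℝ) (a b x y : ℤ) : ℝ := 4 * ((a : ℝ) * x + b * y) + N * Kernel.A a b

/-- Any contact of the corner `(a, b)`: a vertex `(x, y)` or a face with lower left corner
`(x, y)`. -/
def CV (w : ℤ → ℤ → ℤ) (a b x y : ℤ) : Prop :=
  VP (fA w) (fB w) a b x y ∨ VM (fA w) (fB w) a b x y

def CF (w : ℤ → ℤ → ℤ) (a b x y : ℤ) : Prop :=
  EN (fA w) (fB w) a b x y ∨ ES (fA w) (fB w) a b x y ∨ WN (fA w) (fB w) a b x y

/-- Exact (unit) vertex contact of a NE chain. -/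
def NV (w : ℤ → ℤ → ℤ) (a b x y : ℤ) : Prop :=
  fA w (x - 1) y = a - 1 ∧ fA w x y = a ∧ fB w x y = b - 1 ∧ fB w x (y - 1) = b

/-- Exact (unit) vertex contact of a SE chain. -/
def SV (w : ℤ → ℤ → ℤ) (a b x y : ℤ) : Prop :=
  fA w (x - 1) y = a ∧ fA w x y = a - 1 ∧ fB w x y = b ∧ fB w x (y - 1) = b - 1

/-- Exact (unit) face contact. -/
def FF (w : ℤ → ℤ → ℤ) (a b x y : ℤ) : Prop :=
  fA w x (y + 1) = a - 1 ∧ fA w x y = a ∧ fB w x y = b - 1 ∧ fB w (x + 1) y = b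

/-- `(x, y)` is within `e` of the limit segment of the contacts of `(a, b)`. -/
def Near (N e : ℝ) (a b x y : ℤ) : Prop :=
  (XX N (a - 1) b - e ≤ x ∧ x ≤ XX N a b + e ∧ |(y - YY N a b) - (x - XX N (a - 1) b)| ≤ e) ∨
  (XX N a b - e ≤ x ∧ x ≤ XX N (a - 1) b + e ∧ |(y - YY N a b) + (x - XX N a b)| ≤ e)

/-- The column `x` is away from both ends of the chain of `(a, b)`. -/
def GenX (N e : ℝ) (a b x : ℤ) : Prop := e < |x - XX N a b| ∧ e < |x - XX N (a - 1) b|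

/-- Clean west run: `A < a` below, `A ≥ a` above, `B = b` on the three vertical edges. -/
def WR (w : ℤ → ℤ → ℤ) (a b x y : ℤ) : Prop :=
  fA w (x - 1) y < a ∧ fA w x y < a ∧ a ≤ fA w (x - 1) (y + 1) ∧ a ≤ fA w x (y + 1) ∧
  fB w (x - 1) y = b ∧ fB w x y = b ∧ fB w (x + 1) y = b

/-- Clean east run: `A ≥ a` below, `A < a` above, `B = b` on the three vertical edges. -/
def ER (w : ℤ → ℤ → ℤ) (a b x y : ℤ) : Prop :=
  fA w (x - 1) (y + 1) < a ∧ fA w x (y + 1) < a ∧ a ≤ fA w (x - 1) y ∧ a ≤ fA w x y ∧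
  fB w (x - 1) y = b ∧ fB w x y = b ∧ fB w (x + 1) y = b

/-- Elementary properties (closed under rotation). -/
structure Base (w : ℤ → ℤ → ℤ) : Prop where
  bal : ∀ x y, ¬ (x = 0 ∧ y = 0) → FZ w x y = w x y
  /-- no 2-cycles of last exits -/
  cycH : ∀ x y, ¬ (x = 0 ∧ y = 0) → ¬ (x + 1 = 0 ∧ y = 0) →
    ¬ (w x y % 4 = 2 ∧ w (x + 1) y % 4 = 0)
  cycV : ∀ x y, ¬ (x = 0 ∧ y = 0) → ¬ (x = 0 ∧ y + 1 = 0) →
    ¬ (w x y % 4 = 1 ∧ w x (y + 1) % 4 = 3)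
  nonneg : ∀ x y, 0 ≤ w x y
  /-- comparison from above -/
  cmp : ∀ (Ω : ℤ → ℤ → Prop) (G : ℤ → ℤ → ℤ), ¬ Ω 0 0 → (∀ x y, Ω x y → 3 ≤ G x y) →
    (∀ x y, Ω x y → G x y < w x y → FZ G x y ≤ G x y) →
    (∀ x y, Ω x y → G x y < w x y →
      (Ω x (y - 1) ∨ w x (y - 1) ≤ G x (y - 1)) ∧ (Ω (x - 1) y ∨ w (x - 1) y ≤ G (x - 1) y) ∧
      (Ω x (y + 1) ∨ w x (y + 1) ≤ G x (y + 1)) ∧ (Ω (x + 1) y ∨ w (x + 1) y ≤ G (x + 1) y)) →
    ∀ x y, Ω x y → w x y ≤ G x y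

/-- The interface. -/
structure Pkg (R : ℤ) (N e : ℝ) (w : ℤ → ℤ → ℤ) : Prop where
  /-- far down the columns of the square are constant -/
  far : ∃ c : ℤ, (c = 0 ∨ c = 1 ∨ c = 3) ∧
    (∀ x : ℤ, |(x : ℝ)| ≤ N / 4 - e → ∃ Y : ℤ, ∀ y, y ≤ Y → w x y = c) ∧
    (c = 0 → ∀ x y : ℤ, |(x : ℝ)| ≤ N / 4 - e → (y : ℝ) ≤ - N / 4 - e → w x y = 0)
  /-- far up the columns of the square are constant -/
  farUp : ∃ c : ℤ, (c = 1 ∨ c = 2 ∨ c = 3) ∧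
    (∀ x : ℤ, |(x : ℝ)| ≤ N / 4 - e → ∃ Y : ℤ, ∀ y, Y ≤ y → w x y = c)
  /-- contacts of `(0, 0)` are outside the square: in frame 1 on the segment from
  `(-N/4, -N/4)` to `(N/4, -3N/4)`, in frame 3 on the opposite one, in frames 0 and 2 there are
  none in the columns of the square -/
  loc0V : ∀ x y : ℤ, |(x : ℝ)| ≤ N / 4 - e → CV w 0 0 x y →
    |(x : ℝ) + y + N / 2| ≤ e ∨ |(x : ℝ) + y - N / 2| ≤ e
  loc0F : ∀ x y : ℤ, |(x : ℝ)| ≤ N / 4 - e → CF w 0 0 x y →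
    |(x : ℝ) + y + N / 2| ≤ e ∨ |(x : ℝ) + y - N / 2| ≤ e
  /-- the chain of `(0, 0)` is NE in frames 0, 2 (outside the columns of the square) and SE in
  frames 1, 3 -/
  loc0P : ∀ x y : ℤ, |(x : ℝ)| ≤ N / 4 - e → ¬ VP (fA w) (fB w) 0 0 x y
  /-- location of the contacts -/
  locP : ∀ a b x y : ℤ, |a| ≤ R → |b| ≤ R → ¬ (a = 0 ∧ b = 0) → |(x : ℝ)| ≤ N / 4 - e →
    ¬ (x = 0 ∧ y = 0) → VP (fA w) (fB w) a b x y →
    XX N (a - 1) b - e ≤ x ∧ x ≤ XX N a b + e ∧ |(y - YY N a b) - (x - XX N (a - 1) b)| ≤ e ∧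
    |w x y - PP N a b x y| ≤ e
  locM : ∀ a b x y : ℤ, |a| ≤ R → |b| ≤ R → ¬ (a = 0 ∧ b = 0) → |(x : ℝ)| ≤ N / 4 - e →
    ¬ (x = 0 ∧ y = 0) → VM (fA w) (fB w) a b x y →
    XX N a b - e ≤ x ∧ x ≤ XX N (a - 1) b + e ∧ |(y - YY N a b) + (x - XX N a b)| ≤ e ∧
    |w x y - PP N a b x y| ≤ e
  locF : ∀ a b x y : ℤ, |a| ≤ R → |b| ≤ R → ¬ (a = 0 ∧ b = 0) → |(x : ℝ)| ≤ N / 4 - e →
    CF w a b x y → Near N e a b x y
  /-- contacts in columns away from the ends of the chain are interior to a perfect chain -/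
  regP : ∀ a b x y : ℤ, |a| ≤ R → |b| ≤ R → |(x : ℝ)| ≤ N / 4 - e → GenX N e a b x →
    ¬ (x = 0 ∧ y = 0) → VP (fA w) (fB w) a b x y →
    NV w a b x y ∧ FF w a b x y ∧ NV w a b (x + 1) (y + 1) ∧ FF w a b (x - 1) (y - 1) ∧
    NV w a b (x - 1) (y - 1)
  regM : ∀ a b x y : ℤ, |a| ≤ R → |b| ≤ R → |(x : ℝ)| ≤ N / 4 - e → GenX N e a b x →
    ¬ (x = 0 ∧ y = 0) → VM (fA w) (fB w) a b x y →
    SV w a b x y ∧ FF w a b x (y - 1) ∧ SV w a b (x + 1) (y - 1) ∧ FF w a b (x - 1) y ∧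
    SV w a b (x - 1) (y + 1)
  regF : ∀ a b x y : ℤ, |a| ≤ R → |b| ≤ R → |(x : ℝ)| ≤ N / 4 - e → GenX N e a b x →
    CF w a b x y → FF w a b x y ∧ ((NV w a b x y ∧ NV w a b (x + 1) (y + 1)) ∨
      (SV w a b x (y + 1) ∧ SV w a b (x + 1) y))
  /-- existence of the chains (first quadrant of levels) -/
  exP : ∀ a b x : ℤ, 0 ≤ a → 0 ≤ b → a ≤ R → b ≤ R → ¬ (a = 0 ∧ b = 0) →
    XX N (a - 1) b + e < x → x < XX N a b - e → ∃ y, VP (fA w) (fB w) a b x y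
  exM : ∀ a b x : ℤ, 0 ≤ a → 0 ≤ b → a ≤ R → b ≤ R → ¬ (a = 0 ∧ b = 0) →
    XX N a b + e < x → x < XX N (a - 1) b - e → ∃ y, VM (fA w) (fB w) a b x y
  /-- clean runs (first quadrant of levels) -/
  runW : ∀ a b x y : ℤ, 0 ≤ a → 0 ≤ b → a ≤ R → b ≤ R → |(x : ℝ)| ≤ N / 4 - e →
    WR w a b x y → |y - YY N a b| ≤ e ∧ |w x y - PP N a b x y| ≤ e
  runE : ∀ a b x y : ℤ, 0 ≤ a → 0 ≤ b → a ≤ R → b ≤ R → |(x : ℝ)| ≤ N / 4 - e →
    ER w a b x y → |y - YY N a b| ≤ e ∧ XX N (a - 1) (b + 1) - e ≤ x ∧ XX N a (b + 1) - e ≤ x ∧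
      (¬ (a = 0 ∧ b = 0) → x ≤ XX N (a - 1) b + e ∧ x ≤ XX N a b + e)

end RotorNE
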