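import Mathlib.Tactic
import Mathlib.Data.Nat.Nth
import Mathlib.Data.Int.Interval
import Mathlib.Data.Int.ConditionallyCompleteOrder
import Mathlib.Data.Int.Star
import Mathlib.Algebra.Order.Star.Real
import Mathlib.Analysis.SpecialFunctions.Integrals.Basic
import Mathlib.Analysis.Fourier.RiemannLebesgueLemma
import Mathlib.Analysis.SpecificLimits.Basic
import Mathlib.Analysis.Asymptotics.SpecificAsymptotics
import Mathlib.MeasureTheory.Integral.Prod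
import Mathlib.MeasureTheory.Measure.Lebesgue.Basic
import Pool.Agent.Lib.MP_936783_pr.Frame
import Pool.Agent.Lib.MP_936783_pr.Pkg

/-!
# The fields of `Pkg` in a generic frame
-/

namespace RotorNE

/-! ### Integer facts on one contact -/

/-- The faces of a contact. -/
def Kc.cf (K : Kc) (x y : ℤ) : Prop := K.en x y ∨ K.es x y ∨ K.wn x y

theorem Kc.vp_range {K : Kc} {x y : ℤ} (h : K.vp x y) :
    K.edgeIn.1 < x ∧ x ≤ K.edgeOut.1 ∧ K.nodeIn.2 < y ∧ y ≤ K.nodeOut.2 ∧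
    y - K.nodeIn.2 = x - K.edgeIn.1 := by
  cases K with
  | ne x0 y0 m =>
    simp only [Kc.vp, Kc.edgeIn, Kc.edgeOut, Kc.nodeIn, Kc.nodeOut] at h ⊢
    obtain ⟨i, h1, h2, h3⟩ := h
    omega
  | se x0 y0 m => exact absurd h (by simp [Kc.vp])
  | fe x0 y0 => exact absurd h (by simp [Kc.vp])
  | fw x0 y0 => exact absurd h (by simp [Kc.vp])

theorem Kc.vm_range {K : Kc} {x y : ℤ} (h : K.vm x y) :
    K.edgeOut.1 < x ∧ x ≤ K.edgeIn.1 ∧ K.nodeOut.2 < y ∧ y ≤ K.nodeIn.2 ∧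
    y - K.nodeIn.2 = -(x - K.edgeOut.1) + 1 := by
  cases K with
  | ne x0 y0 m => exact absurd h (by simp [Kc.vm])
  | se x0 y0 m =>
    simp only [Kc.vm, Kc.edgeIn, Kc.edgeOut, Kc.nodeIn, Kc.nodeOut] at h ⊢
    obtain ⟨i, h1, h2, h3⟩ := h
    omega
  | fe x0 y0 => exact absurd h (by simp [Kc.vm])
  | fw x0 y0 => exact absurd h (by simp [Kc.vm])

theorem Kc.cf_range {K : Kc} {x y : ℤ} (h : K.cf x y) :
    (K.edgeIn.1 ≤ x ∧ x ≤ K.edgeOut.1 ∧ K.nodeIn.2 ≤ y ∧ y ≤ K.nodeOut.2 ∧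
      y - K.nodeIn.2 = x - K.edgeIn.1) ∨
    (K.edgeOut.1 ≤ x ∧ x ≤ K.edgeIn.1 ∧ K.nodeOut.2 ≤ y ∧ y ≤ K.nodeIn.2 ∧
      y - K.nodeIn.2 = -(x - K.edgeOut.1)) := by
  unfold Kc.cf at h
  cases K with
  | ne x0 y0 m =>
    simp only [Kc.en, Kc.es, Kc.wn, or_false, Kc.edgeIn, Kc.edgeOut, Kc.nodeIn,
      Kc.nodeOut] at h ⊢
    obtain ⟨i, h1, h2, h3⟩ := h
    left
    omega
  | se x0 y0 m =>
    simp only [Kc.en, Kc.es, Kc.wn, or_false, Kc.edgeIn, Kc.edgeOut, Kc.nodeIn,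
      Kc.nodeOut] at h ⊢
    obtain ⟨i, h1, h2, h3⟩ := h
    right
    omega
  | fe x0 y0 =>
    simp only [Kc.en, Kc.es, Kc.wn, or_false, false_or, Kc.edgeIn, Kc.edgeOut, Kc.nodeIn,
      Kc.nodeOut] at h ⊢
    left
    omega
  | fw x0 y0 =>
    simp only [Kc.en, Kc.es, Kc.wn, or_false, false_or, Kc.edgeIn, Kc.edgeOut, Kc.nodeIn,
      Kc.nodeOut] at h ⊢
    left
    omega

theorem T_vp {w : ℤ → ℤ → ℤ} {a b x y : ℤ} {K : Kc} (hK : IsK (fA w) (fB w) a b K)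
    (h : K.vp x y) : |wp w a b x y - K.T w a b| ≤ 7 := by
  cases K with
  | ne x0 y0 m =>
    simp only [Kc.vp, Kc.T, IsK] at h hK ⊢
    obtain ⟨i, h1, rfl, rfl⟩ := h
    exact chain_const_pos w a b x0 y0 m hK.2 i h1
  | se x0 y0 m => exact absurd h (by simp [Kc.vp])
  | fe x0 y0 => exact absurd h (by simp [Kc.vp])
  | fw x0 y0 => exact absurd h (by simp [Kc.vp])

theorem T_vm {w : ℤ → ℤ → ℤ} {a b x y : ℤ} {K : Kc} (hK : IsK (fA w) (fB w) a b K)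
    (h : K.vm x y) : |wp w a b x y - K.T w a b| ≤ 7 := by
  cases K with
  | ne x0 y0 m => exact absurd h (by simp [Kc.vm])
  | se x0 y0 m =>
    simp only [Kc.vm, Kc.T, IsK] at h hK ⊢
    obtain ⟨i, h1, rfl, rfl⟩ := h
    exact chain_const_neg w a b x0 y0 m hK.2 i h1
  | fe x0 y0 => exact absurd h (by simp [Kc.vm])
  | fw x0 y0 => exact absurd h (by simp [Kc.vm])

/-- Two cells away from the ends (abscissa). -/
def Kc.Far (K : Kc) (x : ℤ) : Prop := 4 ≤ |x - K.edgeOut.1| ∧ 4 ≤ |x - K.edgeIn.1|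

theorem ne_unit {h v : ℤ → ℤ → ℤ} {a b x0 y0 : ℤ} {m : ℕ} (hK : IsK h v a b (.ne x0 y0 m))
    {x y : ℤ} (h1 : x0 ≤ x) (h2 : x < x0 + m) (h3 : y - y0 = x - x0) :
    h x y = a ∧ h x (y + 1) = a - 1 ∧ v x y = b - 1 ∧ v (x + 1) y = b := by
  obtain ⟨i, rfl⟩ : ∃ i : ℕ, x = x0 + i := ⟨(x - x0).toNat, by omega⟩
  obtain rfl : y = y0 + i := by omega
  exact hK.2 i (by omega)

theorem se_unit {h v : ℤ → ℤ → ℤ} {a b x0 y0 : ℤ} {m : ℕ} (hK : IsK h v a b (.se x0 y0 m))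
    {x y : ℤ} (h1 : x0 ≤ x) (h2 : x < x0 + m) (h3 : y - y0 = -(x - x0) - 1) :
    h x y = a ∧ h x (y + 1) = a - 1 ∧ v x y = b - 1 ∧ v (x + 1) y = b := by
  obtain ⟨i, rfl⟩ : ∃ i : ℕ, x = x0 + i := ⟨(x - x0).toNat, by omega⟩
  obtain rfl : y = y0 - i - 1 := by omega
  have := hK.2 i (by omega)
  rwa [show y0 - (i : ℤ) - 1 + 1 = y0 - i by ring]

theorem FF_of {w : ℤ → ℤ → ℤ} {a b x y : ℤ}
    (h : fA w x y = a ∧ fA w x (y + 1) = a - 1 ∧ fB w x y = b - 1 ∧ fB w (x + 1) y = b) :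
    FF w a b x y := ⟨h.2.1, h.1, h.2.2.1, h.2.2.2⟩

theorem NV_of {w : ℤ → ℤ → ℤ} {a b x y : ℤ}
    (h : fA w x y = a ∧ fA w x (y + 1) = a - 1 ∧ fB w x y = b - 1 ∧ fB w (x + 1) y = b)
    (h' : fA w (x - 1) (y - 1) = a ∧ fA w (x - 1) (y - 1 + 1) = a - 1 ∧
      fB w (x - 1) (y - 1) = b - 1 ∧ fB w (x - 1 + 1) (y - 1) = b) : NV w a b x y := by
  rw [sub_add_cancel, sub_add_cancel] at h'
  exact ⟨h'.2.1, h.1, h.2.2.1, h'.2.2.2⟩

theorem SV_of {w : ℤ → ℤ → ℤ} {a b x y : ℤ}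
    (h : fA w x (y - 1) = a ∧ fA w x (y - 1 + 1) = a - 1 ∧ fB w x (y - 1) = b - 1 ∧
      fB w (x + 1) (y - 1) = b)
    (h' : fA w (x - 1) y = a ∧ fA w (x - 1) (y + 1) = a - 1 ∧
      fB w (x - 1) y = b - 1 ∧ fB w (x - 1 + 1) y = b) : SV w a b x y := by
  rw [sub_add_cancel] at h h'
  exact ⟨h'.1, h.2.1, h'.2.2.2, h.2.2.1⟩

theorem regP_int {w : ℤ → ℤ → ℤ} {a b x y : ℤ} {K : Kc} (hK : IsK (fA w) (fB w) a b K)
    (h : K.vp x y) (hf : K.Far x) :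
    NV w a b x y ∧ FF w a b x y ∧ NV w a b (x + 1) (y + 1) ∧ FF w a b (x - 1) (y - 1) ∧
    NV w a b (x - 1) (y - 1) := by
  have hr := Kc.vp_range h
  obtain ⟨hf1, hf2⟩ := hf
  have g1 : x + 4 ≤ K.edgeOut.1 := by
    rcases abs_cases (x - K.edgeOut.1) with ⟨e1, e2⟩ | ⟨e1, e2⟩ <;> omega
  have g2 : K.edgeIn.1 + 4 ≤ x := by
    rcases abs_cases (x - K.edgeIn.1) with ⟨e1, e2⟩ | ⟨e1, e2⟩ <;> omega
  cases K with
  | ne x0 y0 m =>
    simp only [Kc.edgeIn, Kc.edgeOut, Kc.nodeIn, Kc.nodeOut] at hr g1 g2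
    have e0 := ne_unit hK (x := x) (y := y) (by omega) (by omega) (by omega)
    have e1 := ne_unit hK (x := x - 1) (y := y - 1) (by omega) (by omega) (by omega)
    have e2 := ne_unit hK (x := x - 1 - 1) (y := y - 1 - 1) (by omega) (by omega) (by omega)
    have e3 := ne_unit hK (x := x + 1) (y := y + 1) (by omega) (by omega) (by omega)
    refine ⟨NV_of e0 e1, FF_of e0, NV_of e3 ?_, FF_of e1, NV_of e1 e2⟩
    rw [add_sub_cancel_right, add_sub_cancel_right]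
    exact e0
  | se x0 y0 m => exact absurd h (by simp [Kc.vp])
  | fe x0 y0 => exact absurd h (by simp [Kc.vp])
  | fw x0 y0 => exact absurd h (by simp [Kc.vp])

theorem regM_int {w : ℤ → ℤ → ℤ} {a b x y : ℤ} {K : Kc} (hK : IsK (fA w) (fB w) a b K)
    (h : K.vm x y) (hf : K.Far x) :
    SV w a b x y ∧ FF w a b x (y - 1) ∧ SV w a b (x + 1) (y - 1) ∧ FF w a b (x - 1) y ∧
    SV w a b (x - 1) (y + 1) := by
  have hr := Kc.vm_range h
  obtain ⟨hf1, hf2⟩ := hf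
  have g1 : x + 4 ≤ K.edgeIn.1 := by
    rcases abs_cases (x - K.edgeIn.1) with ⟨e1, e2⟩ | ⟨e1, e2⟩ <;> omega
  have g2 : K.edgeOut.1 + 4 ≤ x := by
    rcases abs_cases (x - K.edgeOut.1) with ⟨e1, e2⟩ | ⟨e1, e2⟩ <;> omega
  cases K with
  | ne x0 y0 m => exact absurd h (by simp [Kc.vm])
  | se x0 y0 m =>
    simp only [Kc.edgeIn, Kc.edgeOut, Kc.nodeIn, Kc.nodeOut] at hr g1 g2
    have e0 := se_unit hK (x := x) (y := y - 1) (by omega) (by omega) (by omega)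
    have e1 := se_unit hK (x := x - 1) (y := y) (by omega) (by omega) (by omega)
    have e2 := se_unit hK (x := x - 1 - 1) (y := y + 1) (by omega) (by omega) (by omega)
    have e3 := se_unit hK (x := x + 1) (y := y - 1 - 1) (by omega) (by omega) (by omega)
    refine ⟨SV_of e0 e1, FF_of e0, SV_of e3 ?_, FF_of e1, SV_of ?_ e2⟩
    · rw [add_sub_cancel_right]
      exact e0
    · rw [add_sub_cancel_right]
      exact e1
  | fe x0 y0 => exact absurd h (by simp [Kc.vm])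
  | fw x0 y0 => exact absurd h (by simp [Kc.vm])

theorem regF_int {w : ℤ → ℤ → ℤ} {a b x y : ℤ} {K : Kc} (hK : IsK (fA w) (fB w) a b K)
    (h : K.cf x y) (hf : K.Far x) :
    FF w a b x y ∧ ((NV w a b x y ∧ NV w a b (x + 1) (y + 1)) ∨
      (SV w a b x (y + 1) ∧ SV w a b (x + 1) y)) := by
  have hr := Kc.cf_range h
  obtain ⟨hf1, hf2⟩ := hf
  cases K with
  | ne x0 y0 m =>
    simp only [Kc.edgeIn, Kc.edgeOut, Kc.nodeIn, Kc.nodeOut] at hr hf1 hf2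
    have g1 : x + 4 ≤ x0 + m := by
      rcases abs_cases (x - (x0 + m)) with ⟨e1, e2⟩ | ⟨e1, e2⟩ <;> omega
    have g2 : x0 - 1 + 4 ≤ x := by
      rcases abs_cases (x - (x0 - 1)) with ⟨e1, e2⟩ | ⟨e1, e2⟩ <;> omega
    have e0 := ne_unit hK (x := x) (y := y) (by omega) (by omega) (by omega)
    have e1 := ne_unit hK (x := x - 1) (y := y - 1) (by omega) (by omega) (by omega)
    have e3 := ne_unit hK (x := x + 1) (y := y + 1) (by omega) (by omega) (by omega)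
    refine ⟨FF_of e0, Or.inl ⟨NV_of e0 e1, NV_of e3 ?_⟩⟩
    rw [add_sub_cancel_right, add_sub_cancel_right]
    exact e0
  | se x0 y0 m =>
    simp only [Kc.edgeIn, Kc.edgeOut, Kc.nodeIn, Kc.nodeOut] at hr hf1 hf2
    have g1 : x + 4 ≤ x0 + m := by
      rcases abs_cases (x - (x0 + m)) with ⟨e1, e2⟩ | ⟨e1, e2⟩ <;> omega
    have g2 : x0 - 1 + 4 ≤ x := by
      rcases abs_cases (x - (x0 - 1)) with ⟨e1, e2⟩ | ⟨e1, e2⟩ <;> omega
    have e0 := se_unit hK (x := x) (y := y) (by omega) (by omega) (by omega)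
    have e1 := se_unit hK (x := x - 1) (y := y + 1) (by omega) (by omega) (by omega)
    have e3 := se_unit hK (x := x + 1) (y := y - 1) (by omega) (by omega) (by omega)
    refine ⟨FF_of e0, Or.inr ⟨SV_of ?_ e1, SV_of e3 ?_⟩⟩
    · rw [add_sub_cancel_right]
      exact e0
    · rw [add_sub_cancel_right]
      exact e0
  | fe x0 y0 =>
    exfalso
    simp only [Kc.edgeIn, Kc.edgeOut, Kc.nodeIn, Kc.nodeOut] at hr hf1 hf2
    rcases abs_cases (x - x0) with ⟨e1, e2⟩ | ⟨e1, e2⟩ <;> omega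
  | fw x0 y0 =>
    exfalso
    simp only [Kc.edgeIn, Kc.edgeOut, Kc.nodeIn, Kc.nodeOut] at hr hf1 hf2
    rcases abs_cases (x - x0) with ⟨e1, e2⟩ | ⟨e1, e2⟩ <;> omega

theorem exP_int {w : ℤ → ℤ → ℤ} {a b x : ℤ} {K : Kc} (hK : IsK (fA w) (fB w) a b K)
    (h1 : K.edgeIn.1 < x) (h2 : x ≤ K.edgeOut.1) : ∃ y, VP (fA w) (fB w) a b x y := by
  cases K with
  | ne x0 y0 m =>
    simp only [Kc.edgeIn, Kc.edgeOut] at h1 h2
    obtain ⟨i, rfl⟩ : ∃ i : ℕ, x = x0 + i := ⟨(x - x0).toNat, by omega⟩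
    refine ⟨y0 + i, ?_⟩
    obtain ⟨g1, g2, g3, g4⟩ := hK.1 i (by omega)
    exact ⟨g1, g2, g4, g3⟩
  | se x0 y0 m =>
    exfalso
    simp only [Kc.edgeIn, Kc.edgeOut] at h1 h2
    omega
  | fe x0 y0 =>
    exfalso
    simp only [Kc.edgeIn, Kc.edgeOut] at h1 h2
    omega
  | fw x0 y0 =>
    exfalso
    simp only [Kc.edgeIn, Kc.edgeOut] at h1 h2
    omega

theorem exM_int {w : ℤ → ℤ → ℤ} {a b x : ℤ} {K : Kc} (hK : IsK (fA w) (fB w) a b K)
    (h1 : K.edgeOut.1 < x) (h2 : x ≤ K.edgeIn.1) : ∃ y, VM (fA w) (fB w) a b x y := by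
  cases K with
  | ne x0 y0 m =>
    exfalso
    simp only [Kc.edgeIn, Kc.edgeOut] at h1 h2
    omega
  | se x0 y0 m =>
    simp only [Kc.edgeIn, Kc.edgeOut] at h1 h2
    obtain ⟨i, rfl⟩ : ∃ i : ℕ, x = x0 + i := ⟨(x - x0).toNat, by omega⟩
    refine ⟨y0 - i, ?_⟩
    obtain ⟨g1, g2, g3, g4⟩ := hK.1 i (by omega)
    exact ⟨g2, g1, g3, g4⟩
  | fe x0 y0 =>
    exfalso
    simp only [Kc.edgeIn, Kc.edgeOut] at h1 h2
    omega
  | fw x0 y0 =>
    exfalso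
    simp only [Kc.edgeIn, Kc.edgeOut] at h1 h2
    omega

theorem Kc.nodeOut_ge (K : Kc) : K.edgeIn.1 ≤ K.nodeOut.1 ∧ K.edgeOut.1 ≤ K.nodeOut.1 := by
  cases K <;> simp only [Kc.edgeIn, Kc.edgeOut, Kc.nodeOut] <;> omega

theorem Kc.nodeIn_le (K : Kc) : K.nodeIn.1 ≤ K.edgeIn.1 + 1 ∧ K.nodeIn.1 ≤ K.edgeOut.1 + 1 := by
  cases K <;> simp only [Kc.edgeIn, Kc.edgeOut, Kc.nodeIn] <;> omega

/-- The value on a clean run to the west. -/
theorem runW_int {w : ℤ → ℤ → ℤ} {a b x y : ℤ} {K K' : Kc} (hK : IsK (fA w) (fB w) a b K)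
    (hL : HLink (fA w) (fB w) a b K' K) (hw : fA w x y < a)
    (hy : y = K.nodeIn.2) (h1 : K.nodeIn.1 ≤ x) (h2 : x + 1 ≤ K'.nodeOut.1) :
    |wp w a b x y - K.T w a b| ≤ 30 := by
  rcases hL with ⟨hy', hrun⟩ | hcell
  · rcases hrun with ⟨g1, -, -⟩ | ⟨g1, g2, g3⟩
    · omega
    · subst hy
      obtain ⟨k, hk⟩ : ∃ k : ℕ, K'.nodeOut.1 = K.nodeIn.1 + k :=
        ⟨(K'.nodeOut.1 - K.nodeIn.1).toNat, by omega⟩
      obtain ⟨i, rfl⟩ : ∃ i : ℕ, x = K.nodeIn.1 + i := ⟨(x - K.nodeIn.1).toNat, by omega⟩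
      have e1 := (run_const w a b K.nodeIn.1 K.nodeIn.2 k
        (fun j hj => g2 _ (by omega) (by omega))
        (Or.inr fun j hj => g3 _ (by omega) (by omega)) i 0 (by omega) (by omega)).1
      have e2 := T_nodeIn hK (g2 _ le_rfl g1)
      push_cast at e1
      rw [add_zero] at e1
      rw [abs_le] at e1 e2 ⊢
      omega
  · exfalso
    cases K with
    | ne x0 y0 m =>
      cases K' with
      | ne x1 y1 m1 =>
        simp only [Kc.hLast, Kc.hFirst, Cell.vx.injEq] at hcell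
        simp only [Kc.nodeIn, Kc.nodeOut] at h1 h2
        omega
      | se x1 y1 m1 =>
        simp only [Kc.hLast, Kc.hFirst, Cell.vx.injEq] at hcell
        simp only [Kc.nodeIn, Kc.nodeOut] at h1 h2
        omega
      | fe x1 y1 => simp [Kc.hLast, Kc.hFirst] at hcell
      | fw x1 y1 => simp [Kc.hLast, Kc.hFirst] at hcell
    | se x0 y0 m =>
      cases K' with
      | ne x1 y1 m1 =>
        simp only [Kc.hLast, Kc.hFirst, Cell.vx.injEq] at hcell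
        simp only [Kc.nodeIn, Kc.nodeOut] at h1 h2
        omega
      | se x1 y1 m1 =>
        simp only [Kc.hLast, Kc.hFirst, Cell.vx.injEq] at hcell
        simp only [Kc.nodeIn, Kc.nodeOut] at h1 h2
        omega
      | fe x1 y1 => simp [Kc.hLast, Kc.hFirst] at hcell
      | fw x1 y1 => simp [Kc.hLast, Kc.hFirst] at hcell
    | fe x0 y0 =>
      simp only [Kc.nodeIn, IsK] at h1 hy hK
      cases K' with
      | ne x1 y1 m1 => simp [Kc.hLast, Kc.hFirst] at hcell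
      | se x1 y1 m1 => simp [Kc.hLast, Kc.hFirst] at hcell
      | fe x1 y1 =>
        simp only [Kc.hLast, Kc.hFirst, Cell.fc.injEq] at hcell
        simp only [Kc.nodeOut] at h2
        obtain rfl : x = x0 := by omega
        subst hy
        omega
      | fw x1 y1 =>
        simp only [Kc.hLast, Kc.hFirst, Cell.fc.injEq] at hcell
        simp only [Kc.nodeOut] at h2
        omega
    | fw x0 y0 =>
      simp only [Kc.nodeIn] at h1
      cases K' with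
      | ne x1 y1 m1 => simp [Kc.hLast, Kc.hFirst] at hcell
      | se x1 y1 m1 => simp [Kc.hLast, Kc.hFirst] at hcell
      | fe x1 y1 =>
        simp only [Kc.hLast, Kc.hFirst, Cell.fc.injEq] at hcell
        simp only [Kc.nodeOut] at h2
        omega
      | fw x1 y1 =>
        simp only [Kc.hLast, Kc.hFirst, Cell.fc.injEq] at hcell
        simp only [Kc.nodeOut] at h2
        omega

end RotorNE
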