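import Mathlib.Tactic
import Mathlib.Data.Nat.Nth
import Mathlib.Data.Int.Interval
import Mathlib.Data.Int.ConditionallyCompleteOrder
import Mathlib.Data.Int.Star
import Mathlib.Algebra.Order.Star.Real
import Mathlib.Analysis.SpecialFunctions.Integrals.Basic
import Mathlib.Analysis.Fourier.RiemannLebesgueLemma
import Mathlib.Analysis.SpecificLimits.Basic
import Mathlib.Analysis.Asymptotics.SpecificAsymptotics
import Mathlib.MeasureTheory.Integral.Prod
import Mathlib.MeasureTheory.Measure.Lebesgue.Basic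
import Pool.Agent.Lib.MP_936783_pr.PkgA
import Pool.Agent.Lib.MP_936783_pr.Frames

/-!
# `Pkg` in a generic frame

`FConv R N e w K`: the positions of the contacts of the slopes other than `(0, 0)` and the values
at all contacts are within `e` of `N` times their limits.  These relations are closed under
rotation (up to bounded errors), and they imply all fields of `Pkg` except `far`, `farUp`, with the
exception of a few facts on the slope `(0, 0)` collected in `Zero`.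
-/

noncomputable section

namespace RotorNE

structure FConv (R : ℤ) (N e : ℝ) (w : ℤ → ℤ → ℤ) (K : ℤ → ℤ → Kc) : Prop where
  xo : ∀ a b, |a| ≤ R → |b| ≤ R → ¬ (a = 0 ∧ b = 0) → |((K a b).edgeOut.1 : ℝ) - XX N a b| ≤ e
  xi : ∀ a b, |a| ≤ R → |b| ≤ R → ¬ (a = 0 ∧ b = 0) →
    |((K a b).edgeIn.1 : ℝ) - XX N (a - 1) b| ≤ e
  yi : ∀ a b, |a| ≤ R → |b| ≤ R → ¬ (a = 0 ∧ b = 0) → |((K a b).nodeIn.2 : ℝ) - YY N a b| ≤ e
  yo : ∀ a b, |a| ≤ R → |b| ≤ R → ¬ (a = 0 ∧ b = 0) →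
    |((K a b).nodeOut.2 : ℝ) - YY N a (b - 1)| ≤ e
  t : ∀ a b, |a| ≤ R → |b| ≤ R → |((K a b).T w a b : ℝ) - N * Kernel.A a b| ≤ e

theorem T_rot {w : ℤ → ℤ → ℤ} {a b : ℤ} {K : Kc} (hK : IsK (fA w) (fB w) a b K) :
    |K.rot.T (rotc w) b (-a) - K.T w a b| ≤ 8 := by
  cases K with
  | ne x y m =>
    simp only [Kc.rot, Kc.T, wp_rot, neg_neg]
    rw [abs_le]
    omega
  | se x y m =>
    have h := chain_const_neg w a b x y m hK.2 m le_rfl
    simp only [Kc.rot, Kc.T, wp_rot]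
    rw [show -(-x - (m : ℤ)) = x + m by ring]
    rw [abs_le] at h ⊢
    omega
  | fe x y =>
    simp only [Kc.rot, Kc.T, wp_rot]
    rw [show -(-x - 1) = x + 1 by ring, show -(-x - 1 + 1) = x by ring]
    rw [abs_le]
    omega
  | fw x y =>
    simp only [Kc.rot, Kc.T, wp_rot]
    rw [show -(-x - 1) = x + 1 by ring, show -(-x - 1 + 1) = x by ring]
    rw [abs_le]
    omega

theorem FConv.rot {R : ℤ} {N e : ℝ} {w : ℤ → ℤ → ℤ} {K : ℤ → ℤ → Kc}
    (hK : ∀ a b, |a| ≤ R → |b| ≤ R → IsK (fA w) (fB w) a b (K a b)) (C : FConv R N e w K) :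
    FConv R N (e + 8) (rotc w) (rotKc K) := by
  have hxe : ∀ a b : ℤ, XX N a b = YY N (-b) a := by
    intro a b
    unfold XX YY
    rw [← xi_eta, neg_neg]
  have hye : ∀ a b : ℤ, YY N a b = -XX N (-b - 1) a := by
    intro a b
    unfold XX YY
    rw [eta_eq, show (-b - 1 : ℤ) = -1 - b by ring, xi_refl]
    ring
  refine ⟨?_, ?_, ?_, ?_, ?_⟩
  · intro a b ha hb hab
    unfold rotKc
    rw [Kc.rot_edgeOut]
    have h := C.yi (-b) a (by rwa [abs_neg]) ha (by omega)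
    rw [hxe]
    exact h.trans (by linarith)
  · intro a b ha hb hab
    unfold rotKc
    rw [Kc.rot_edgeIn]
    have h := C.yo (-b) a (by rwa [abs_neg]) ha (by omega)
    rw [hxe]
    exact h.trans (by linarith)
  · intro a b ha hb hab
    unfold rotKc
    rw [Kc.rot_nodeIn]
    have h := C.xi (-b) a (by rwa [abs_neg]) ha (by omega)
    rw [hye]
    simp only
    push_cast
    rw [abs_le] at h ⊢
    constructor <;> linarith [h.1, h.2]
  · intro a b ha hb hab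
    unfold rotKc
    rw [Kc.rot_nodeOut]
    have h := C.xo (-b) a (by rwa [abs_neg]) ha (by omega)
    rw [hye, show (-(b - 1) - 1 : ℤ) = -b by ring]
    simp only
    push_cast
    rw [abs_le] at h ⊢
    constructor <;> linarith [h.1, h.2]
  · intro a b ha hb
    unfold rotKc
    have h := C.t (-b) a (by rwa [abs_neg]) ha
    have h2 := T_rot (hK (-b) a (by rwa [abs_neg]) ha)
    rw [neg_neg] at h2
    rw [Kernel.A_neg, Kernel.A_symm] at h
    have h3 : |(((K (-b) a).rot.T (rotc w) a b : ℤ) : ℝ) - ((K (-b) a).T w (-b) a : ℤ)| ≤ 8 := by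
      exact_mod_cast h2
    rw [abs_le] at h h3 ⊢
    constructor <;> linarith [h.1, h.2, h3.1, h3.2]

/-- Facts on the slope `(0, 0)`. -/
structure Zero (N e : ℝ) (exH : ℤ → ℤ → Prop) (w : ℤ → ℤ → ℤ) (K : Kc) : Prop where
  loc : ∀ x y : ℤ, (K.vp x y ∨ K.vm x y ∨ K.cf x y) → |(x : ℝ)| ≤ N / 4 - e →
    |(x : ℝ) + y + N / 2| ≤ e ∨ |(x : ℝ) + y - N / 2| ≤ e
  locp : ∀ x y : ℤ, K.vp x y → |(x : ℝ)| ≤ N / 4 - e → False
  reg : ∀ x y : ℤ, (K.vp x y ∨ K.vm x y ∨ K.cf x y) → |(x : ℝ)| ≤ N / 4 - e →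
    GenX N e 0 0 x → K.Far x
  runW : exH 0 0 → ∀ x y : ℤ, |(x : ℝ)| ≤ N / 4 - e → WR w 0 0 x y →
    |y - YY N 0 0| ≤ e ∧ |w x y - PP N 0 0 x y| ≤ e
  runE : exH 0 0 → ∀ x y : ℤ, |(x : ℝ)| ≤ N / 4 - e → ER w 0 0 x y → False

/-- The fields of `Pkg` other than `far` and `farUp`. -/
structure GPkg (R : ℤ) (N e : ℝ) (w : ℤ → ℤ → ℤ) : Prop where
  loc0V : ∀ x y : ℤ, |(x : ℝ)| ≤ N / 4 - e → CV w 0 0 x y →
    |(x : ℝ) + y + N / 2| ≤ e ∨ |(x : ℝ) + y - N / 2| ≤ e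
  loc0F : ∀ x y : ℤ, |(x : ℝ)| ≤ N / 4 - e → CF w 0 0 x y →
    |(x : ℝ) + y + N / 2| ≤ e ∨ |(x : ℝ) + y - N / 2| ≤ e
  loc0P : ∀ x y : ℤ, |(x : ℝ)| ≤ N / 4 - e → ¬ VP (fA w) (fB w) 0 0 x y
  locP : ∀ a b x y : ℤ, |a| ≤ R → |b| ≤ R → ¬ (a = 0 ∧ b = 0) → |(x : ℝ)| ≤ N / 4 - e →
    ¬ (x = 0 ∧ y = 0) → VP (fA w) (fB w) a b x y →
    XX N (a - 1) b - e ≤ x ∧ x ≤ XX N a b + e ∧ |(y - YY N a b) - (x - XX N (a - 1) b)| ≤ e ∧
    |w x y - PP N a b x y| ≤ e
  locM : ∀ a b x y : ℤ, |a| ≤ R → |b| ≤ R → ¬ (a = 0 ∧ b = 0) → |(x : ℝ)| ≤ N / 4 - e →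
    ¬ (x = 0 ∧ y = 0) → VM (fA w) (fB w) a b x y →
    XX N a b - e ≤ x ∧ x ≤ XX N (a - 1) b + e ∧ |(y - YY N a b) + (x - XX N a b)| ≤ e ∧
    |w x y - PP N a b x y| ≤ e
  locF : ∀ a b x y : ℤ, |a| ≤ R → |b| ≤ R → ¬ (a = 0 ∧ b = 0) → |(x : ℝ)| ≤ N / 4 - e →
    CF w a b x y → Near N e a b x y
  regP : ∀ a b x y : ℤ, |a| ≤ R → |b| ≤ R → |(x : ℝ)| ≤ N / 4 - e → GenX N e a b x →
    ¬ (x = 0 ∧ y = 0) → VP (fA w) (fB w) a b x y →
    NV w a b x y ∧ FF w a b x y ∧ NV w a b (x + 1) (y + 1) ∧ FF w a b (x - 1) (y - 1) ∧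
    NV w a b (x - 1) (y - 1)
  regM : ∀ a b x y : ℤ, |a| ≤ R → |b| ≤ R → |(x : ℝ)| ≤ N / 4 - e → GenX N e a b x →
    ¬ (x = 0 ∧ y = 0) → VM (fA w) (fB w) a b x y →
    SV w a b x y ∧ FF w a b x (y - 1) ∧ SV w a b (x + 1) (y - 1) ∧ FF w a b (x - 1) y ∧
    SV w a b (x - 1) (y + 1)
  regF : ∀ a b x y : ℤ, |a| ≤ R → |b| ≤ R → |(x : ℝ)| ≤ N / 4 - e → GenX N e a b x →
    CF w a b x y → FF w a b x y ∧ ((NV w a b x y ∧ NV w a b (x + 1) (y + 1)) ∨
      (SV w a b x (y + 1) ∧ SV w a b (x + 1) y))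
  exP : ∀ a b x : ℤ, 0 ≤ a → 0 ≤ b → a ≤ R → b ≤ R → ¬ (a = 0 ∧ b = 0) →
    XX N (a - 1) b + e < x → x < XX N a b - e → ∃ y, VP (fA w) (fB w) a b x y
  exM : ∀ a b x : ℤ, 0 ≤ a → 0 ≤ b → a ≤ R → b ≤ R → ¬ (a = 0 ∧ b = 0) →
    XX N a b + e < x → x < XX N (a - 1) b - e → ∃ y, VM (fA w) (fB w) a b x y
  runW : ∀ a b x y : ℤ, 0 ≤ a → 0 ≤ b → a ≤ R → b ≤ R → |(x : ℝ)| ≤ N / 4 - e →
    WR w a b x y → |y - YY N a b| ≤ e ∧ |w x y - PP N a b x y| ≤ e
  runE : ∀ a b x y : ℤ, 0 ≤ a → 0 ≤ b → a ≤ R → b ≤ R → |(x : ℝ)| ≤ N / 4 - e →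
    ER w a b x y → |y - YY N a b| ≤ e ∧ XX N (a - 1) (b + 1) - e ≤ x ∧ XX N a (b + 1) - e ≤ x ∧
      (¬ (a = 0 ∧ b = 0) → x ≤ XX N (a - 1) b + e ∧ x ≤ XX N a b + e)

theorem wp_PP {N : ℝ} {w : ℤ → ℤ → ℤ} {a b x y : ℤ} :
    (w x y : ℝ) - PP N a b x y = ((wp w a b x y : ℤ) : ℝ) - N * Kernel.A a b := by
  unfold PP wp
  push_cast
  ring

/-- Distances are at least `4`. -/
theorem four_le {x z : ℤ} {X e e' : ℝ} (h1 : e < |(x : ℝ) - X|) (h2 : |(z : ℝ) - X| ≤ e')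
    (h3 : e' + 4 ≤ e) : 4 ≤ |x - z| := by
  by_contra hc
  push Not at hc
  have h4 : |((x - z : ℤ) : ℝ)| < 4 := by exact_mod_cast hc
  push_cast at h4
  have h5 : |(x : ℝ) - X| ≤ |(x : ℝ) - z| + |(z : ℝ) - X| := by
    have := abs_add_le ((x : ℝ) - z) ((z : ℝ) - X)
    rwa [sub_add_sub_cancel] at this
  linarith

theorem GPkg.of {R : ℤ} {N e1 e : ℝ} {w : ℤ → ℤ → ℤ} {K : ℤ → ℤ → Kc}
    {exH exV : ℤ → ℤ → Prop} (S : FSys (fA w) (fB w) (R + 1) exH exV K)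
    (C : FConv (R + 1) N e1 w K) (hex : ∀ a b : ℤ, 0 ≤ a → 0 ≤ b → exH a b → a = 0 ∧ b = 0)
    (Z : Zero N e exH w (K 0 0)) (h1 : 0 ≤ e1) (he : 2 * e1 + 40 ≤ e) (hR : 0 ≤ R) :
    GPkg R N e w := by
  have r0 : |(0 : ℤ)| ≤ R + 1 := by rw [abs_zero]; omega
  have hV : ∀ a b x y, |a| ≤ R + 1 → |b| ≤ R + 1 → CV w a b x y →
      (K a b).vp x y ∨ (K a b).vm x y ∨ (K a b).cf x y := by
    intro a b x y ha hb h
    rcases h with h | h
    · exact Or.inl (S.vp a b x y ha hb h)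
    · exact Or.inr (Or.inl (S.vm a b x y ha hb h))
  have hF' : ∀ a b x y, |a| ≤ R + 1 → |b| ≤ R + 1 → CF w a b x y → (K a b).cf x y := by
    intro a b x y ha hb h
    rcases h with h | h | h
    · exact Or.inl (S.en a b x y ha hb h)
    · exact Or.inr (Or.inl (S.es a b x y ha hb h))
    · exact Or.inr (Or.inr (S.wn a b x y ha hb h))
  have hreg : ∀ a b x y : ℤ, |a| ≤ R → |b| ≤ R → |(x : ℝ)| ≤ N / 4 - e → GenX N e a b x →
      ((K a b).vp x y ∨ (K a b).vm x y ∨ (K a b).cf x y) → (K a b).Far x := by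
    intro a b x y ha hb hx hg hc
    by_cases hab : a = 0 ∧ b = 0
    · obtain ⟨rfl, rfl⟩ := hab
      exact Z.reg x y hc hx hg
    · exact ⟨four_le hg.1 (C.xo a b (by omega) (by omega) hab) (by linarith),
        four_le hg.2 (C.xi a b (by omega) (by omega) hab) (by linarith)⟩
  refine ⟨?_, ?_, ?_, ?_, ?_, ?_, ?_, ?_, ?_, ?_, ?_, ?_, ?_⟩
  · intro x y hx h
    exact Z.loc x y (hV 0 0 x y r0 r0 h) hx
  · intro x y hx h
    exact Z.loc x y (Or.inr (Or.inr (hF' 0 0 x y r0 r0 h))) hx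
  · intro x y hx h
    exact Z.locp x y (S.vp 0 0 x y r0 r0 h) hx
  · -- locP
    intro a b x y ha hb hab hx _ h
    have ha' : |a| ≤ R + 1 := by omega
    have hb' : |b| ≤ R + 1 := by omega
    have hc := S.vp a b x y ha' hb' h
    obtain ⟨g1, g2, g3, g4, g5⟩ := Kc.vp_range hc
    have c1 := C.xo a b ha' hb' hab
    have c2 := C.xi a b ha' hb' hab
    have c3 := C.yi a b ha' hb' hab
    have c4 := C.t a b ha' hb'
    have c5 := T_vp (S.isK a b ha' hb') hc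
    have c5' : |((wp w a b x y : ℤ) : ℝ) - ((K a b).T w a b : ℤ)| ≤ 7 := by exact_mod_cast c5
    have g1' : ((K a b).edgeIn.1 : ℝ) < x := by exact_mod_cast g1
    have g2' : (x : ℝ) ≤ (K a b).edgeOut.1 := by exact_mod_cast g2
    have g5' : (y : ℝ) - (K a b).nodeIn.2 = x - (K a b).edgeIn.1 := by exact_mod_cast g5
    rw [wp_PP]
    rw [abs_le] at c1 c2 c3 c4 c5'
    refine ⟨by linarith [c2.1, c2.2], by linarith [c1.1, c1.2], ?_, ?_⟩
    · rw [abs_le]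
      constructor <;> linarith [c2.1, c2.2, c3.1, c3.2]
    · rw [abs_le]
      constructor <;> linarith [c4.1, c4.2, c5'.1, c5'.2]
  · -- locM
    intro a b x y ha hb hab hx _ h
    have ha' : |a| ≤ R + 1 := by omega
    have hb' : |b| ≤ R + 1 := by omega
    have hc := S.vm a b x y ha' hb' h
    obtain ⟨g1, g2, g3, g4, g5⟩ := Kc.vm_range hc
    have c1 := C.xo a b ha' hb' hab
    have c2 := C.xi a b ha' hb' hab
    have c3 := C.yi a b ha' hb' hab
    have c4 := C.t a b ha' hb'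
    have c5 := T_vm (S.isK a b ha' hb') hc
    have c5' : |((wp w a b x y : ℤ) : ℝ) - ((K a b).T w a b : ℤ)| ≤ 7 := by exact_mod_cast c5
    have g1' : ((K a b).edgeOut.1 : ℝ) < x := by exact_mod_cast g1
    have g2' : (x : ℝ) ≤ (K a b).edgeIn.1 := by exact_mod_cast g2
    have g5' : (y : ℝ) - (K a b).nodeIn.2 = -(x - (K a b).edgeOut.1) + 1 := by exact_mod_cast g5
    rw [wp_PP]
    rw [abs_le] at c1 c2 c3 c4 c5'
    refine ⟨by linarith [c1.1, c1.2], by linarith [c2.1, c2.2], ?_, ?_⟩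
    · rw [abs_le]
      constructor <;> linarith [c1.1, c1.2, c3.1, c3.2]
    · rw [abs_le]
      constructor <;> linarith [c4.1, c4.2, c5'.1, c5'.2]
  · -- locF
    intro a b x y ha hb hab hx h
    have ha' : |a| ≤ R + 1 := by omega
    have hb' : |b| ≤ R + 1 := by omega
    have hc := hF' a b x y ha' hb' h
    have c1 := C.xo a b ha' hb' hab
    have c2 := C.xi a b ha' hb' hab
    have c3 := C.yi a b ha' hb' hab
    rw [abs_le] at c1 c2 c3
    rcases Kc.cf_range hc with ⟨g1, g2, -, -, g5⟩ | ⟨g1, g2, -, -, g5⟩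
    · left
      have g1' : ((K a b).edgeIn.1 : ℝ) ≤ x := by exact_mod_cast g1
      have g2' : (x : ℝ) ≤ (K a b).edgeOut.1 := by exact_mod_cast g2
      have g5' : (y : ℝ) - (K a b).nodeIn.2 = x - (K a b).edgeIn.1 := by exact_mod_cast g5
      refine ⟨by linarith [c2.1, c2.2], by linarith [c1.1, c1.2], ?_⟩
      rw [abs_le]
      constructor <;> linarith [c2.1, c2.2, c3.1, c3.2]
    · right
      have g1' : ((K a b).edgeOut.1 : ℝ) ≤ x := by exact_mod_cast g1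
      have g2' : (x : ℝ) ≤ (K a b).edgeIn.1 := by exact_mod_cast g2
      have g5' : (y : ℝ) - (K a b).nodeIn.2 = -(x - (K a b).edgeOut.1) := by exact_mod_cast g5
      refine ⟨by linarith [c1.1, c1.2], by linarith [c2.1, c2.2], ?_⟩
      rw [abs_le]
      constructor <;> linarith [c1.1, c1.2, c3.1, c3.2]
  · -- regP
    intro a b x y ha hb hx hg _ h
    have hc := S.vp a b x y (by omega) (by omega) h
    exact regP_int (S.isK a b (by omega) (by omega)) hc (hreg a b x y ha hb hx hg (Or.inl hc))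
  · intro a b x y ha hb hx hg _ h
    have hc := S.vm a b x y (by omega) (by omega) h
    exact regM_int (S.isK a b (by omega) (by omega)) hc
      (hreg a b x y ha hb hx hg (Or.inr (Or.inl hc)))
  · intro a b x y ha hb hx hg h
    have hc := hF' a b x y (by omega) (by omega) h
    exact regF_int (S.isK a b (by omega) (by omega)) hc
      (hreg a b x y ha hb hx hg (Or.inr (Or.inr hc)))
  · -- exP
    intro a b x ha hb haR hbR hab g1 g2
    have ha' : |a| ≤ R + 1 := by rw [abs_of_nonneg ha]; omega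
    have hb' : |b| ≤ R + 1 := by rw [abs_of_nonneg hb]; omega
    have c1 := C.xo a b ha' hb' hab
    have c2 := C.xi a b ha' hb' hab
    rw [abs_le] at c1 c2
    refine exP_int (S.isK a b ha' hb') ?_ ?_
    · have : ((K a b).edgeIn.1 : ℝ) < x := by linarith [c2.1, c2.2]
      exact_mod_cast this
    · have : (x : ℝ) ≤ (K a b).edgeOut.1 := by linarith [c1.1, c1.2]
      exact_mod_cast this
  · -- exM
    intro a b x ha hb haR hbR hab g1 g2
    have ha' : |a| ≤ R + 1 := by rw [abs_of_nonneg ha]; omega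
    have hb' : |b| ≤ R + 1 := by rw [abs_of_nonneg hb]; omega
    have c1 := C.xo a b ha' hb' hab
    have c2 := C.xi a b ha' hb' hab
    rw [abs_le] at c1 c2
    refine exM_int (S.isK a b ha' hb') ?_ ?_
    · have : ((K a b).edgeOut.1 : ℝ) < x := by linarith [c1.1, c1.2]
      exact_mod_cast this
    · have : (x : ℝ) ≤ (K a b).edgeIn.1 := by linarith [c2.1, c2.2]
      exact_mod_cast this
  · -- runW
    intro a b x y ha hb haR hbR hx h
    by_cases hexab : exH a b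
    · obtain ⟨rfl, rfl⟩ := hex a b ha hb hexab
      exact Z.runW hexab x y hx h
    have ha' : |a| ≤ R + 1 := by rw [abs_of_nonneg ha]; omega
    have hb' : |b| ≤ R + 1 := by rw [abs_of_nonneg hb]; omega
    have hb1 : |b + 1| ≤ R + 1 := by rw [abs_of_nonneg (by omega)]; omega
    obtain ⟨k1, k2, k3, k4, k5, k6, k7⟩ := h
    obtain ⟨g1, g2, g3, g4⟩ := S.hW a b x y ha' hb' hb1 hexab k2 k4 k6 k7
    have c3 := C.yo a (b + 1) ha' hb1 (by omega)
    rw [add_sub_cancel_right, ← g2] at c3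
    refine ⟨c3.trans (by linarith), ?_⟩
    have c4 := C.t a b ha' hb'
    have c5 := runW_int (S.isK a b ha' hb') (S.hlink a b ha' hb' hb1 hexab) k2 g1 g3 g4
    have c5' : |((wp w a b x y : ℤ) : ℝ) - ((K a b).T w a b : ℤ)| ≤ 30 := by exact_mod_cast c5
    rw [wp_PP]
    rw [abs_le] at c4 c5' ⊢
    constructor <;> linarith [c4.1, c4.2, c5'.1, c5'.2]
  · -- runE
    intro a b x y ha hb haR hbR hx h
    by_cases hexab : exH a b
    · obtain ⟨rfl, rfl⟩ := hex a b ha hb hexab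
      exact absurd (Z.runE hexab x y hx h) id
    have ha' : |a| ≤ R + 1 := by rw [abs_of_nonneg ha]; omega
    have hb' : |b| ≤ R + 1 := by rw [abs_of_nonneg hb]; omega
    have hb1 : |b + 1| ≤ R + 1 := by rw [abs_of_nonneg (by omega)]; omega
    obtain ⟨k1, k2, k3, k4, k5, k6, k7⟩ := h
    obtain ⟨g1, g2, g3, g4⟩ := S.hE a b x y ha' hb' hb1 hexab k2 k4 k6 k7
    have c3 := C.yo a (b + 1) ha' hb1 (by omega)
    rw [add_sub_cancel_right, ← g2] at c3
    have c1 := C.xo a (b + 1) ha' hb1 (by omega)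
    have c2 := C.xi a (b + 1) ha' hb1 (by omega)
    obtain ⟨n1, n2⟩ := (K a (b + 1)).nodeOut_ge
    have n1' : ((K a (b + 1)).edgeIn.1 : ℝ) ≤ x := by exact_mod_cast n1.trans g3
    have n2' : ((K a (b + 1)).edgeOut.1 : ℝ) ≤ x := by exact_mod_cast n2.trans g3
    rw [abs_le] at c1 c2
    refine ⟨c3.trans (by linarith), by linarith [c2.1, c2.2], by linarith [c1.1, c1.2], ?_⟩
    intro hab
    have d1 := C.xo a b ha' hb' hab
    have d2 := C.xi a b ha' hb' hab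
    obtain ⟨m1, m2⟩ := (K a b).nodeIn_le
    have m1' : (x : ℝ) ≤ (K a b).edgeIn.1 := by
      have : x ≤ (K a b).edgeIn.1 := by omega
      exact_mod_cast this
    have m2' : (x : ℝ) ≤ (K a b).edgeOut.1 := by
      have : x ≤ (K a b).edgeOut.1 := by omega
      exact_mod_cast this
    rw [abs_le] at d1 d2
    exact ⟨by linarith [d2.1, d2.2], by linarith [d1.1, d1.2]⟩

end RotorNE
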