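import Mathlib.Tactic
import Mathlib.Data.Nat.Nth
import Mathlib.Data.Int.Interval
import Mathlib.Data.Int.ConditionallyCompleteOrder
import Mathlib.Data.Int.Star
import Mathlib.Algebra.Order.Star.Real
import Mathlib.Analysis.SpecialFunctions.Integrals.Basic
import Mathlib.Analysis.Fourier.RiemannLebesgueLemma
import Mathlib.Analysis.SpecificLimits.Basic
import Mathlib.Analysis.Asymptotics.SpecificAsymptotics
import Mathlib.MeasureTheory.Integral.Prod
import Mathlib.MeasureTheory.Measure.Lebesgue.Basic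
import Pool.Agent.Lib.MP_936783_pr.PkgB

/-!
# Transfer between a truncated odometer and the odometer
-/

noncomputable section

namespace RotorNE

/-- The fields agree in the window of radius `k`. -/
def SameF (w w' : ℤ → ℤ → ℤ) (x y k : ℤ) : Prop :=
  ∀ X Y, |X - x| ≤ k → |Y - y| ≤ k → fA w X Y = fA w' X Y ∧ fB w X Y = fB w' X Y

theorem SameF.of {w w' : ℤ → ℤ → ℤ} {x y : ℤ}
    (h : ∀ X Y, |X - x| ≤ 3 → |Y - y| ≤ 3 → w X Y = w' X Y) : SameF w w' x y 2 := by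
  intro X Y hX hY
  rw [abs_le] at hX hY
  unfold fA fB
  rw [h X Y (by rw [abs_le]; omega) (by rw [abs_le]; omega),
    h (X + 1) Y (by rw [abs_le]; omega) (by rw [abs_le]; omega),
    h X (Y + 1) (by rw [abs_le]; omega) (by rw [abs_le]; omega)]
  exact ⟨rfl, rfl⟩

theorem SameF.shift {w w' : ℤ → ℤ → ℤ} {x y x' y' : ℤ} (h : SameF w w' x y 2)
    (hx : |x' - x| ≤ 1) (hy : |y' - y| ≤ 1) : SameF w w' x' y' 1 := by
  intro X Y hX hY
  rw [abs_le] at hX hY hx hy
  exact h X Y (by rw [abs_le]; omega) (by rw [abs_le]; omega)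

section
variable {w w' : ℤ → ℤ → ℤ} {a b x y : ℤ}

theorem SameF.eqs (h : SameF w w' x y 1) :
    fA w x y = fA w' x y ∧ fA w (x - 1) y = fA w' (x - 1) y ∧
    fA w x (y + 1) = fA w' x (y + 1) ∧ fA w (x - 1) (y + 1) = fA w' (x - 1) (y + 1) ∧
    fB w x y = fB w' x y ∧ fB w x (y - 1) = fB w' x (y - 1) ∧
    fB w (x + 1) y = fB w' (x + 1) y ∧ fB w (x - 1) y = fB w' (x - 1) y :=
  ⟨(h x y (by simp) (by simp)).1, (h (x - 1) y (by simp) (by simp)).1,
    (h x (y + 1) (by simp) (by simp)).1, (h (x - 1) (y + 1) (by simp) (by simp)).1,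
    (h x y (by simp) (by simp)).2, (h x (y - 1) (by simp) (by simp)).2,
    (h (x + 1) y (by simp) (by simp)).2, (h (x - 1) y (by simp) (by simp)).2⟩

theorem SameF.vp (h : SameF w w' x y 1) :
    VP (fA w) (fB w) a b x y ↔ VP (fA w') (fB w') a b x y := by
  obtain ⟨e1, e2, e3, e4, e5, e6, e7, e8⟩ := h.eqs
  simp only [VP, e1, e2, e5, e6]

theorem SameF.vm (h : SameF w w' x y 1) :
    VM (fA w) (fB w) a b x y ↔ VM (fA w') (fB w') a b x y := by
  obtain ⟨e1, e2, e3, e4, e5, e6, e7, e8⟩ := h.eqs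
  simp only [VM, e1, e2, e5, e6]

theorem SameF.cv (h : SameF w w' x y 1) : CV w a b x y ↔ CV w' a b x y := by
  unfold CV
  rw [h.vp, h.vm]

theorem SameF.cf (h : SameF w w' x y 1) : CF w a b x y ↔ CF w' a b x y := by
  obtain ⟨e1, e2, e3, e4, e5, e6, e7, e8⟩ := h.eqs
  simp only [CF, EN, ES, WN, e1, e3, e5, e7]

theorem SameF.nv (h : SameF w w' x y 1) : NV w a b x y ↔ NV w' a b x y := by
  obtain ⟨e1, e2, e3, e4, e5, e6, e7, e8⟩ := h.eqs
  simp only [NV, e1, e2, e5, e6]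

theorem SameF.sv (h : SameF w w' x y 1) : SV w a b x y ↔ SV w' a b x y := by
  obtain ⟨e1, e2, e3, e4, e5, e6, e7, e8⟩ := h.eqs
  simp only [SV, e1, e2, e5, e6]

theorem SameF.ff (h : SameF w w' x y 1) : FF w a b x y ↔ FF w' a b x y := by
  obtain ⟨e1, e2, e3, e4, e5, e6, e7, e8⟩ := h.eqs
  simp only [FF, e1, e3, e5, e7]

theorem SameF.wr (h : SameF w w' x y 1) : WR w a b x y ↔ WR w' a b x y := by
  obtain ⟨e1, e2, e3, e4, e5, e6, e7, e8⟩ := h.eqs
  simp only [WR, e1, e2, e3, e4, e5, e7, e8]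

theorem SameF.er (h : SameF w w' x y 1) : ER w a b x y ↔ ER w' a b x y := by
  obtain ⟨e1, e2, e3, e4, e5, e6, e7, e8⟩ := h.eqs
  simp only [ER, e1, e2, e3, e4, e5, e7, e8]

/-- The fields are constant near a point. -/
def FlatF (w : ℤ → ℤ → ℤ) (x y : ℤ) : Prop :=
  ∃ c d, ∀ X Y, |X - x| ≤ 1 → |Y - y| ≤ 1 → fA w X Y = c ∧ fB w X Y = d

/-- The horizontal field is constant near a point. -/
def FlatA (w : ℤ → ℤ → ℤ) (x y : ℤ) : Prop :=
  ∃ c, ∀ X Y, |X - x| ≤ 1 → |Y - y| ≤ 1 → fA w X Y = c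

theorem FlatF.flatA (h : FlatF w x y) : FlatA w x y := by
  obtain ⟨c, d, h⟩ := h
  exact ⟨c, fun X Y hX hY => (h X Y hX hY).1⟩

theorem FlatA.cv (h : FlatA w x y) : ¬ CV w a b x y := by
  obtain ⟨c, h⟩ := h
  have e1 := h x y (by simp) (by simp)
  have e2 := h (x - 1) y (by simp) (by simp)
  rintro (⟨h1, h2, -, -⟩ | ⟨h1, h2, -, -⟩) <;> omega

theorem FlatA.cf (h : FlatA w x y) : ¬ CF w a b x y := by
  obtain ⟨c, h⟩ := h
  have e1 := h x y (by simp) (by simp)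
  have e2 := h x (y + 1) (by simp) (by simp)
  rintro (⟨h1, h2, -, -⟩ | ⟨h1, h2, -, -⟩ | ⟨h1, h2, -, -⟩) <;> omega

theorem FlatA.wr (h : FlatA w x y) : ¬ WR w a b x y := by
  obtain ⟨c, h⟩ := h
  have e1 := h x y (by simp) (by simp)
  have e2 := h x (y + 1) (by simp) (by simp)
  rintro ⟨-, h1, -, h2, -⟩
  omega

theorem FlatA.er (h : FlatA w x y) : ¬ ER w a b x y := by
  obtain ⟨c, h⟩ := h
  have e1 := h x y (by simp) (by simp)
  have e2 := h x (y + 1) (by simp) (by simp)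
  rintro ⟨-, h1, -, h2, -⟩
  omega

end

/-- In the columns of the square, either `w` and `w'` agree, or both are flat. -/
structure Agr (N e : ℝ) (w w' : ℤ → ℤ → ℤ) : Prop where
  alt : ∀ x y : ℤ, |(x : ℝ)| ≤ N / 4 - e →
    (∀ X Y, |X - x| ≤ 3 → |Y - y| ≤ 3 → w X Y = w' X Y) ∨ (FlatA w x y ∧ FlatA w' x y)

theorem xx_mem {N : ℝ} (hN : 0 ≤ N) (a b : ℤ) : -(N / 4) ≤ XX N a b ∧ XX N a b ≤ N / 4 := by
  obtain ⟨h1, h2⟩ := xi_mem a b
  unfold XX
  constructor <;> nlinarith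

theorem GPkg.transfer {R : ℤ} {N e : ℝ} {w w' : ℤ → ℤ → ℤ} (hN : 0 ≤ N) (G : GPkg R N e w')
    (A : Agr N e w w') : GPkg R N e w := by
  have key : ∀ x y : ℤ, |(x : ℝ)| ≤ N / 4 - e → ¬ FlatA w x y → SameF w w' x y 2 ∧
      w x y = w' x y := by
    intro x y hx hf
    rcases A.alt x y hx with h | ⟨h, -⟩
    · exact ⟨SameF.of h, h x y (by simp) (by simp)⟩
    · exact absurd h hf
  have s0 : ∀ {x y : ℤ}, SameF w w' x y 2 → SameF w w' x y 1 :=
    fun h => h.shift (by simp) (by simp)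
  have key' : ∀ x y : ℤ, |(x : ℝ)| ≤ N / 4 - e → ¬ FlatA w' x y → SameF w w' x y 2 ∧
      w x y = w' x y := by
    intro x y hx hf
    rcases A.alt x y hx with h | ⟨-, h⟩
    · exact ⟨SameF.of h, h x y (by simp) (by simp)⟩
    · exact absurd h hf
  refine ⟨?_, ?_, ?_, ?_, ?_, ?_, ?_, ?_, ?_, ?_, ?_, ?_, ?_⟩
  · intro x y hx h
    obtain ⟨s, -⟩ := key x y hx (fun hf => hf.cv h)
    exact G.loc0V x y hx ((s0 s).cv.1 h)
  · intro x y hx h
    obtain ⟨s, -⟩ := key x y hx (fun hf => hf.cf h)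
    exact G.loc0F x y hx ((s0 s).cf.1 h)
  · intro x y hx h
    obtain ⟨s, -⟩ := key x y hx (fun hf => hf.cv (a := 0) (b := 0) (Or.inl h))
    exact G.loc0P x y hx ((s0 s).vp.1 h)
  · intro a b x y ha hb hab hx h0 h
    obtain ⟨s, s'⟩ := key x y hx (fun hf => hf.cv (a := a) (b := b) (Or.inl h))
    rw [s']
    exact G.locP a b x y ha hb hab hx h0 ((s0 s).vp.1 h)
  · intro a b x y ha hb hab hx h0 h
    obtain ⟨s, s'⟩ := key x y hx (fun hf => hf.cv (a := a) (b := b) (Or.inr h))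
    rw [s']
    exact G.locM a b x y ha hb hab hx h0 ((s0 s).vm.1 h)
  · intro a b x y ha hb hab hx h
    obtain ⟨s, s'⟩ := key x y hx (fun hf => hf.cf h)
    exact G.locF a b x y ha hb hab hx ((s0 s).cf.1 h)
  · intro a b x y ha hb hx hg h0 h
    obtain ⟨s, s'⟩ := key x y hx (fun hf => hf.cv (a := a) (b := b) (Or.inl h))
    rw [(s0 s).nv, (s0 s).ff, (s.shift (x' := x + 1) (y' := y + 1) (by simp) (by simp)).nv,
      (s.shift (x' := x - 1) (y' := y - 1) (by simp) (by simp)).ff,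
      (s.shift (x' := x - 1) (y' := y - 1) (by simp) (by simp)).nv]
    exact G.regP a b x y ha hb hx hg h0 ((s0 s).vp.1 h)
  · intro a b x y ha hb hx hg h0 h
    obtain ⟨s, s'⟩ := key x y hx (fun hf => hf.cv (a := a) (b := b) (Or.inr h))
    rw [(s0 s).sv, (s.shift (x' := x) (y' := y - 1) (by simp) (by simp)).ff,
      (s.shift (x' := x + 1) (y' := y - 1) (by simp) (by simp)).sv,
      (s.shift (x' := x - 1) (y' := y) (by simp) (by simp)).ff,
      (s.shift (x' := x - 1) (y' := y + 1) (by simp) (by simp)).sv]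
    exact G.regM a b x y ha hb hx hg h0 ((s0 s).vm.1 h)
  · intro a b x y ha hb hx hg h
    obtain ⟨s, s'⟩ := key x y hx (fun hf => hf.cf h)
    rw [(s0 s).ff, (s0 s).nv, (s.shift (x' := x + 1) (y' := y + 1) (by simp) (by simp)).nv,
      (s.shift (x' := x) (y' := y + 1) (by simp) (by simp)).sv,
      (s.shift (x' := x + 1) (y' := y) (by simp) (by simp)).sv]
    exact G.regF a b x y ha hb hx hg ((s0 s).cf.1 h)
  · intro a b x ha hb haR hbR hab g1 g2
    obtain ⟨y, hy⟩ := G.exP a b x ha hb haR hbR hab g1 g2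
    have hx : |(x : ℝ)| ≤ N / 4 - e := by
      have m1 := xx_mem hN (a - 1) b
      have m2 := xx_mem hN a b
      rw [abs_le]
      constructor <;> linarith [m1.1, m2.2]
    obtain ⟨s, s'⟩ := key' x y hx (fun hf => hf.cv (a := a) (b := b) (Or.inl hy))
    exact ⟨y, (s0 s).vp.2 hy⟩
  · intro a b x ha hb haR hbR hab g1 g2
    obtain ⟨y, hy⟩ := G.exM a b x ha hb haR hbR hab g1 g2
    have hx : |(x : ℝ)| ≤ N / 4 - e := by
      have m1 := xx_mem hN (a - 1) b
      have m2 := xx_mem hN a b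
      rw [abs_le]
      constructor <;> linarith [m1.2, m2.1]
    obtain ⟨s, s'⟩ := key' x y hx (fun hf => hf.cv (a := a) (b := b) (Or.inr hy))
    exact ⟨y, (s0 s).vm.2 hy⟩
  · intro a b x y ha hb haR hbR hx h
    obtain ⟨s, s'⟩ := key x y hx (fun hf => hf.wr h)
    rw [s']
    exact G.runW a b x y ha hb haR hbR hx ((s0 s).wr.1 h)
  · intro a b x y ha hb haR hbR hx h
    obtain ⟨s, s'⟩ := key x y hx (fun hf => hf.er h)
    exact G.runE a b x y ha hb haR hbR hx ((s0 s).er.1 h)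

end RotorNE
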