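import Mathlib.Tactic
import Mathlib.Data.Nat.Nth
import Mathlib.Data.Int.Interval
import Mathlib.Data.Int.ConditionallyCompleteOrder
import Mathlib.Data.Int.Star
import Mathlib.Algebra.Order.Star.Real
import Mathlib.Analysis.SpecialFunctions.Integrals.Basic
import Mathlib.Analysis.Fourier.RiemannLebesgueLemma
import Mathlib.Analysis.SpecificLimits.Basic
import Mathlib.Analysis.Asymptotics.SpecificAsymptotics
import Mathlib.MeasureTheory.Integral.Prod
import Mathlib.MeasureTheory.Measure.Lebesgue.Basic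
import Pool.Agent.Lib.MP_936783_pr.ConvN
import Pool.Agent.Lib.MP_936783_pr.PkgC

/-!
# The truncated odometer and the odometer agree in the columns of the square
-/

open Filter Topology

namespace RotorNE

theorem agrN_aux {ε : ℝ} (h : 0 < ε) : ∀ᶠ n : ℕ in atTop, 1 ≤ n ∧
    ∀ x : ℤ, |(x : ℝ)| ≤ (n : ℝ) / 4 - ε * n → (-aN n ≤ x - 5 ∧ x + 5 < rN n ∧ x + 5 < YN n ∧
      -x + 5 < YN n ∧ -aN n ≤ -x - 5 ∧ -x + 5 < rN n) := by
  have h1 := (tendsto_aN.const_sub (1 / 4 : ℝ))
  have h2 := tendsto_rN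
  rw [sub_self] at h1
  have h5 : Tendsto (fun n : ℕ => (6 : ℝ) / n) atTop (𝓝 0) :=
    tendsto_const_div_atTop_nhds_zero_nat 6
  filter_upwards [eventually_ge_atTop 1, h1.eventually_lt_const (half_pos h),
    h2.eventually_const_lt (by norm_num : (1 / 2 : ℝ) < 3 / 4),
    h5.eventually_lt_const (half_pos h), h5.eventually_lt_const (by norm_num : (0 : ℝ) < 1 / 8)]
    with n hn a1 a2 a3 a4
  refine ⟨hn, ?_⟩
  intro x hx
  have hn0 : (0 : ℝ) < n := by exact_mod_cast hn
  have b1 : (1 / 4 - ε / 2) * n < aN n := by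
    have : 1 / 4 - ε / 2 < (aN n : ℝ) / n := by linarith
    rwa [lt_div_iff₀ hn0] at this
  have b2 : 1 / 2 * (n : ℝ) < rN n := by rwa [lt_div_iff₀ hn0] at a2
  have b3 : 6 < ε / 2 * n := by rwa [div_lt_iff₀ hn0] at a3
  have b4 : (6 : ℝ) < 1 / 8 * n := by rwa [div_lt_iff₀ hn0] at a4
  have b5 : 0 < ε * n := by positivity
  have hY : (n : ℝ) + 20 ≤ YN n := by exact_mod_cast YN_ge n
  rw [abs_le] at hx
  have c1 : (-aN n : ℝ) ≤ x - 5 := by linarith [hx.1, hx.2]
  have c2 : (x : ℝ) + 5 < rN n := by linarith [hx.1, hx.2]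
  have c3 : (x : ℝ) + 5 < YN n := by linarith [hx.1, hx.2]
  have c4 : -(x : ℝ) + 5 < YN n := by linarith [hx.1, hx.2]
  have c5 : (-aN n : ℝ) ≤ -x - 5 := by linarith [hx.1, hx.2]
  have c6 : -(x : ℝ) + 5 < rN n := by linarith [hx.1, hx.2]
  exact ⟨by exact_mod_cast c1, by exact_mod_cast c2, by exact_mod_cast c3, by exact_mod_cast c4,
    by exact_mod_cast c5, by exact_mod_cast c6⟩

theorem wN_lt {n : ℕ} (x : ℤ) {y : ℤ} (h : y < YN n) : wN n x y = toZ (uN n) x y :=
  trunc_lt _ _ h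

theorem wN_mem {n : ℕ} (hn : 1 ≤ n) {x y : ℤ} (h1 : -aN n ≤ x) (h2 : x < rN n)
    (h3 : YN n - 10 ≤ y) : toZ (uN n) x y = 1 ∧ (wN n x y = 0 ∨ wN n x y = 1) := by
  have h := YN_spec' hn x y h1 h2 h3
  have h' : toZ (uN n) x y = 1 := by
    unfold toZ
    rw [h]
    rfl
  refine ⟨h', ?_⟩
  by_cases hy : y < YN n
  · rw [wN_lt x hy]
    exact Or.inr h'
  · exact Or.inl (trunc_ge _ _ (by omega))

/-- **Transfer.** -/
theorem agrN {ε : ℝ} (h : 0 < ε) : ∀ᶠ n : ℕ in atTop, ∀ j < 4,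
    Agr n (ε * n) (WW j n) (rotc^[j] (wN n)) := by
  filter_upwards [agrN_aux h] with n hn
  obtain ⟨hn1, hx⟩ := hn
  intro j hj
  constructor
  intro x y hxy
  obtain ⟨c1, c2, c3, c4, c5, c6⟩ := hx x hxy
  obtain rfl | rfl | rfl | rfl : j = 0 ∨ j = 1 ∨ j = 2 ∨ j = 3 := by omega
  · -- frame 0
    by_cases hy : y + 3 < YN n
    · left
      intro X Y hX hY
      rw [abs_le] at hY
      exact (wN_lt X (by omega)).symm
    · right
      constructor
      · refine ⟨0, fun X Y hX hY => ?_⟩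
        rw [abs_le] at hX hY
        have e1 := (wN_mem hn1 (x := X) (y := Y) (by omega) (by omega) (by omega)).1
        have e2 := (wN_mem hn1 (x := X + 1) (y := Y) (by omega) (by omega) (by omega)).1
        change fA (toZ (uN n)) X Y = 0
        unfold fA
        rw [e1, e2]
        norm_num
      · refine ⟨0, fun X Y hX hY => ?_⟩
        rw [abs_le] at hX hY
        have e1 := (wN_mem hn1 (x := X) (y := Y) (by omega) (by omega) (by omega)).2
        have e2 := (wN_mem hn1 (x := X + 1) (y := Y) (by omega) (by omega) (by omega)).2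
        change fA (wN n) X Y = 0
        unfold fA
        omega
  · -- frame 1
    left
    intro X Y hX hY
    rw [abs_le] at hX
    change toZ (uN n) (-Y) X + 1 = wN n (-Y) X + 1
    rw [wN_lt (-Y) (by omega)]
  · -- frame 2
    by_cases hy : -y + 3 < YN n
    · left
      intro X Y hX hY
      rw [abs_le] at hY
      change toZ (uN n) (-X) (-Y) + 1 + 1 = wN n (-X) (-Y) + 1 + 1
      rw [wN_lt (-X) (by omega)]
    · right
      constructor
      · refine ⟨-1, fun X Y hX hY => ?_⟩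
        rw [abs_le] at hX hY
        have e1 := (wN_mem hn1 (x := -X) (y := -Y) (by omega) (by omega) (by omega)).1
        have e2 := (wN_mem hn1 (x := -(X + 1)) (y := -Y) (by omega) (by omega) (by omega)).1
        change (toZ (uN n) (-(X + 1)) (-Y) + 1 + 1) / 4 - (toZ (uN n) (-X) (-Y) + 1 + 1 + 2) / 4 = -1
        rw [e1, e2]
        norm_num
      · refine ⟨-1, fun X Y hX hY => ?_⟩
        rw [abs_le] at hX hY
        have e1 := (wN_mem hn1 (x := -X) (y := -Y) (by omega) (by omega) (by omega)).2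
        have e2 := (wN_mem hn1 (x := -(X + 1)) (y := -Y) (by omega) (by omega) (by omega)).2
        change (wN n (-(X + 1)) (-Y) + 1 + 1) / 4 - (wN n (-X) (-Y) + 1 + 1 + 2) / 4 = -1
        omega
  · -- frame 3
    left
    intro X Y hX hY
    rw [abs_le] at hX
    change toZ (uN n) (-(-Y)) (-X) + 1 + 1 + 1 = wN n (-(-Y)) (-X) + 1 + 1 + 1
    rw [wN_lt (-(-Y)) (by omega)]

end RotorNE
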