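import Mathlib.Tactic
import Mathlib.Data.Nat.Nth
import Mathlib.Data.Int.Interval
import Mathlib.Data.Int.ConditionallyCompleteOrder
import Mathlib.Data.Int.Star
import Mathlib.Algebra.Order.Star.Real
import Mathlib.Analysis.SpecialFunctions.Integrals.Basic
import Mathlib.Analysis.Fourier.RiemannLebesgueLemma
import Mathlib.Analysis.SpecificLimits.Basic
import Mathlib.Analysis.Asymptotics.SpecificAsymptotics
import Mathlib.MeasureTheory.Integral.Prod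
import Mathlib.MeasureTheory.Measure.Lebesgue.Basic
import Pool.Agent.Lib.MP_936783_pr.Asymp

/-!
# The limit outside the square
-/

open Filter MeasureTheory

namespace RotorNE

theorem floor_bounds (t : ℝ) : (⌊t⌋ : ℝ) ≤ t ∧ t < (⌊t⌋ : ℝ) + 1 :=
  ⟨Int.floor_le t, Int.lt_floor_add_one t⟩

theorem south_region {X Y : ℝ} (h1 : 1 / 4 < X) (h2 : X - 1 / 2 < Y) (h3 : Y < 1 / 4) :
    ∀ᶠ n : ℕ in atTop, rho n (⌊(n : ℝ) * X⌋, ⌊(n : ℝ) * Y⌋) = Dir.S := by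
  obtain ⟨ε, hε, e1, e2, e3⟩ : ∃ ε : ℝ, 0 < ε ∧ 8 * ε ≤ X - 1 / 4 ∧ 8 * ε ≤ Y - (X - 1 / 2) ∧
      8 * ε ≤ 1 / 4 - Y :=
    ⟨min (X - 1 / 4) (min (Y - (X - 1 / 2)) (1 / 4 - Y)) / 8, by
      have : 0 < min (X - 1 / 4) (min (Y - (X - 1 / 2)) (1 / 4 - Y)) := by
        simp only [lt_min_iff]; exact ⟨by linarith, by linarith, by linarith⟩
      linarith, by
      have := min_le_left (X - 1 / 4) (min (Y - (X - 1 / 2)) (1 / 4 - Y)); linarith, by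
      have := min_le_right (X - 1 / 4) (min (Y - (X - 1 / 2)) (1 / 4 - Y))
      have := min_le_left (Y - (X - 1 / 2)) (1 / 4 - Y); linarith, by
      have := min_le_right (X - 1 / 4) (min (Y - (X - 1 / 2)) (1 / 4 - Y))
      have := min_le_right (Y - (X - 1 / 2)) (1 / 4 - Y); linarith⟩
  obtain ⟨N, hN⟩ := asymp ε hε
  obtain ⟨N2, hN2⟩ := exists_nat_ge (10 / ε)
  refine eventually_atTop.2 ⟨max N N2, fun n hn => ?_⟩
  obtain ⟨M, a, r, u, j, hodo, hconf, hM, hra, hja, hj2, hj, ha1, ha2⟩ :=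
    hN n (le_trans (le_max_left _ _) hn)
  have hnε : 10 ≤ ε * n := by
    have h : (N2 : ℝ) ≤ n := by exact_mod_cast le_trans (le_max_right _ _) hn
    have := le_trans hN2 h
    rw [div_le_iff₀ hε] at this
    linarith
  have hn0 : (0 : ℝ) ≤ n := Nat.cast_nonneg n
  obtain ⟨-, hS, -⟩ := hodo.exterior hM j hja hj2
  obtain ⟨fx1, fx2⟩ := floor_bounds ((n : ℝ) * X)
  obtain ⟨fy1, fy2⟩ := floor_bounds ((n : ℝ) * Y)
  set x := ⌊(n : ℝ) * X⌋
  set y := ⌊(n : ℝ) * Y⌋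
  have g1 : a < x := by
    have : (a : ℝ) < x := by nlinarith
    exact_mod_cast this
  have g2 : x - 2 * a + 2 * j + 2 ≤ y := by
    have : (x : ℝ) - 2 * a + 2 * j + 2 ≤ y := by nlinarith
    exact_mod_cast this
  have g3 : y ≤ a - j := by
    have : (y : ℝ) ≤ a - j := by nlinarith
    exact_mod_cast this
  rw [hconf]
  unfold confOf
  simp only
  rw [hS x y g1 g2 g3]
  rfl

theorem east_region {X Y : ℝ} (h1 : -1 / 4 < X) (h2 : X < 3 / 4) (h3 : 1 / 4 < Y) :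
    ∀ᶠ n : ℕ in atTop, rho n (⌊(n : ℝ) * X⌋, ⌊(n : ℝ) * Y⌋) = Dir.E := by
  obtain ⟨ε, hε, e1, e2, e3⟩ : ∃ ε : ℝ, 0 < ε ∧ 8 * ε ≤ X + 1 / 4 ∧ 8 * ε ≤ 3 / 4 - X ∧
      8 * ε ≤ Y - 1 / 4 :=
    ⟨min (X + 1 / 4) (min (3 / 4 - X) (Y - 1 / 4)) / 8, by
      have : 0 < min (X + 1 / 4) (min (3 / 4 - X) (Y - 1 / 4)) := by
        simp only [lt_min_iff]; exact ⟨by linarith, by linarith, by linarith⟩
      linarith, by
      have := min_le_left (X + 1 / 4) (min (3 / 4 - X) (Y - 1 / 4)); linarith, by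
      have := min_le_right (X + 1 / 4) (min (3 / 4 - X) (Y - 1 / 4))
      have := min_le_left (3 / 4 - X) (Y - 1 / 4); linarith, by
      have := min_le_right (X + 1 / 4) (min (3 / 4 - X) (Y - 1 / 4))
      have := min_le_right (3 / 4 - X) (Y - 1 / 4); linarith⟩
  obtain ⟨N, hN⟩ := asymp ε hε
  obtain ⟨N2, hN2⟩ := exists_nat_ge (10 / ε)
  refine eventually_atTop.2 ⟨max N N2, fun n hn => ?_⟩
  obtain ⟨M, a, r, u, j, hodo, hconf, hM, hra, hja, hj2, hj, ha1, ha2⟩ :=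
    hN n (le_trans (le_max_left _ _) hn)
  have hnε : 10 ≤ ε * n := by
    have h : (N2 : ℝ) ≤ n := by exact_mod_cast le_trans (le_max_right _ _) hn
    have := le_trans hN2 h
    rw [div_le_iff₀ hε] at this
    linarith
  have hn0 : (0 : ℝ) ≤ n := Nat.cast_nonneg n
  obtain ⟨-, -, hE⟩ := hodo.exterior hM j hja hj2
  obtain ⟨fx1, fx2⟩ := floor_bounds ((n : ℝ) * X)
  obtain ⟨fy1, fy2⟩ := floor_bounds ((n : ℝ) * Y)
  set x := ⌊(n : ℝ) * X⌋
  set y := ⌊(n : ℝ) * Y⌋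
  have g1 : a < y := by
    have : (a : ℝ) < y := by nlinarith
    exact_mod_cast this
  have g2 : -a + j ≤ x := by
    have : -(a : ℝ) + j ≤ x := by nlinarith
    exact_mod_cast this
  have g3 : x ≤ 3 * a - 3 * j - 2 := by
    have : (x : ℝ) ≤ 3 * a - 3 * j - 2 := by nlinarith
    exact_mod_cast this
  rw [hconf]
  unfold confOf
  simp only
  rw [hE x y g1 g2 g3]
  rfl

theorem north_region {X Y : ℝ} (h : X < -1 / 4 ∨ 3 / 4 < X ∨ Y < -1 / 4 ∨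
    (1 / 4 < X ∧ Y < X - 1 / 2)) :
    ∀ᶠ n : ℕ in atTop, rho n (⌊(n : ℝ) * X⌋, ⌊(n : ℝ) * Y⌋) = Dir.N := by
  obtain ⟨ε, hε, hh⟩ : ∃ ε : ℝ, 0 < ε ∧ (8 * ε ≤ -1 / 4 - X ∨ 8 * ε ≤ X - 3 / 4 ∨
      8 * ε ≤ -1 / 4 - Y ∨ (8 * ε ≤ X - 1 / 4 ∧ 8 * ε ≤ X - 1 / 2 - Y)) := by
    rcases h with h | h | h | ⟨h, h'⟩
    · exact ⟨(-1 / 4 - X) / 8, by linarith, Or.inl (by linarith)⟩
    · exact ⟨(X - 3 / 4) / 8, by linarith, Or.inr (Or.inl (by linarith))⟩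
    · exact ⟨(-1 / 4 - Y) / 8, by linarith, Or.inr (Or.inr (Or.inl (by linarith)))⟩
    · refine ⟨min (X - 1 / 4) (X - 1 / 2 - Y) / 8, ?_, Or.inr (Or.inr (Or.inr ⟨?_, ?_⟩))⟩
      · have : 0 < min (X - 1 / 4) (X - 1 / 2 - Y) := by
          simp only [lt_min_iff]; exact ⟨by linarith, by linarith⟩
        linarith
      · have := min_le_left (X - 1 / 4) (X - 1 / 2 - Y); linarith
      · have := min_le_right (X - 1 / 4) (X - 1 / 2 - Y); linarith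
  obtain ⟨N, hN⟩ := asymp ε hε
  obtain ⟨N2, hN2⟩ := exists_nat_ge (10 / ε)
  refine eventually_atTop.2 ⟨max N N2, fun n hn => ?_⟩
  obtain ⟨M, a, r, u, j, hodo, hconf, hM, hra, hja, hj2, hj, ha1, ha2⟩ :=
    hN n (le_trans (le_max_left _ _) hn)
  have hnε : 10 ≤ ε * n := by
    have h : (N2 : ℝ) ≤ n := by exact_mod_cast le_trans (le_max_right _ _) hn
    have := le_trans hN2 h
    rw [div_le_iff₀ hε] at this
    linarith
  have hn0 : (0 : ℝ) ≤ n := Nat.cast_nonneg n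
  obtain ⟨fx1, fx2⟩ := floor_bounds ((n : ℝ) * X)
  obtain ⟨fy1, fy2⟩ := floor_bounds ((n : ℝ) * Y)
  set x := ⌊(n : ℝ) * X⌋
  set y := ⌊(n : ℝ) * Y⌋
  have hu : u x y = 0 := by
    rcases hh with hh | hh | hh | ⟨hh, hh'⟩
    · refine hodo.off x y (Or.inl ?_)
      have : (x : ℝ) < -a := by nlinarith
      exact_mod_cast this
    · refine hodo.off x y (Or.inr ?_)
      have hr : (r : ℝ) = n - a := by
        have : r = n - a := by omega
        rw [this]; push_cast; ring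
      have : (r : ℝ) ≤ x := by rw [hr]; nlinarith
      exact_mod_cast this
    · by_contra hne
      have h1 := hodo.bottom (x := x) (y := y) (by omega)
      have h2 : -(a : ℝ) - 2 ≤ y := by exact_mod_cast h1
      nlinarith
    · by_contra hne
      have g1 : a < x := by
        have : (a : ℝ) < x := by nlinarith
        exact_mod_cast this
      have h1 := hodo.diag (x - a).toNat y (by omega)
        (by rw [show a + ((x - a).toNat : ℤ) = x by omega]; omega)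
      have h2 : x - 2 * a - 4 ≤ y := by omega
      have h3 : (x : ℝ) - 2 * a - 4 ≤ y := by exact_mod_cast h2
      nlinarith
  rw [hconf]
  unfold confOf
  simp only
  rw [hu]
  rfl

theorem ae_lines : ∀ᵐ p : ℝ × ℝ, p.1 ≠ 1 / 4 ∧ p.1 ≠ -1 / 4 ∧ p.1 ≠ 3 / 4 ∧ p.2 ≠ 1 / 4 ∧
    p.2 ≠ -1 / 4 ∧ p.2 ≠ p.1 - 1 / 2 := by
  have hm : MeasurableSet {p : ℝ × ℝ | p.1 ≠ 1 / 4 ∧ p.1 ≠ -1 / 4 ∧ p.1 ≠ 3 / 4 ∧ p.2 ≠ 1 / 4 ∧
      p.2 ≠ -1 / 4 ∧ p.2 ≠ p.1 - 1 / 2} := by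
    refine (IsOpen.measurableSet ?_)
    refine IsOpen.and ?_ (IsOpen.and ?_ (IsOpen.and ?_ (IsOpen.and ?_ (IsOpen.and ?_ ?_))))
    · exact isOpen_ne_fun (by fun_prop) (by fun_prop)
    · exact isOpen_ne_fun (by fun_prop) (by fun_prop)
    · exact isOpen_ne_fun (by fun_prop) (by fun_prop)
    · exact isOpen_ne_fun (by fun_prop) (by fun_prop)
    · exact isOpen_ne_fun (by fun_prop) (by fun_prop)
    · exact isOpen_ne_fun (by fun_prop) (by fun_prop)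
  rw [Measure.volume_eq_prod, Measure.ae_prod_iff_ae_ae hm]
  have hne : ∀ c : ℝ, ∀ᵐ x : ℝ, x ≠ c := by
    intro c
    rw [ae_iff]
    simp
  filter_upwards [hne (1 / 4), hne (-1 / 4), hne (3 / 4)] with x h1 h2 h3
  filter_upwards [hne (1 / 4), hne (-1 / 4), hne (x - 1 / 2)] with y h4 h5 h6
  exact ⟨h1, h2, h3, h4, h5, h6⟩

/-- Almost everywhere convergence outside the square. -/
theorem ae_outside : ∀ᵐ p : ℝ × ℝ, ¬ (|p.1| ≤ 1 / 4 ∧ |p.2| ≤ 1 / 4) →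
      ∃ d : Dir, ∀ᶠ n : ℕ in atTop, rho n (⌊(n : ℝ) * p.1⌋, ⌊(n : ℝ) * p.2⌋) = d := by
  filter_upwards [ae_lines] with p hp hsq
  obtain ⟨X, Y⟩ := p
  simp only at hp hsq ⊢
  obtain ⟨h1, h2, h3, h4, h5, h6⟩ := hp
  rw [abs_le, abs_le] at hsq
  rcases lt_or_gt_of_ne h2 with g1 | g1
  · exact ⟨_, north_region (Or.inl g1)⟩
  rcases lt_or_gt_of_ne h3 with g2 | g2
  swap
  · exact ⟨_, north_region (Or.inr (Or.inl g2))⟩
  rcases lt_or_gt_of_ne h5 with g3 | g3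
  · exact ⟨_, north_region (Or.inr (Or.inr (Or.inl g3)))⟩
  rcases lt_or_gt_of_ne h4 with g4 | g4
  swap
  · exact ⟨_, east_region g1 g2 g4⟩
  rcases lt_or_gt_of_ne h1 with g5 | g5
  · exact absurd ⟨⟨by linarith, by linarith⟩, ⟨by linarith, by linarith⟩⟩ hsq
  rcases lt_or_gt_of_ne h6 with g6 | g6
  · exact ⟨_, north_region (Or.inr (Or.inr (Or.inr ⟨g5, g6⟩)))⟩
  · exact ⟨_, south_region g5 g6 g4⟩

end RotorNE
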