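import Mathlib.Tactic
import Mathlib.Data.Nat.Nth
import Mathlib.Data.Int.Interval
import Mathlib.Data.Int.ConditionallyCompleteOrder
import Mathlib.Data.Int.Star
import Mathlib.Algebra.Order.Star.Real
import Mathlib.Analysis.SpecialFunctions.Integrals.Basic
import Mathlib.Analysis.Fourier.RiemannLebesgueLemma
import Mathlib.Analysis.SpecificLimits.Basic
import Mathlib.Analysis.Asymptotics.SpecificAsymptotics
import Mathlib.MeasureTheory.Integral.Prod
import Mathlib.MeasureTheory.Measure.Lebesgue.Basic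
import Pool.Agent.Lib.MP_936783_pr.Outside
import Pool.Agent.Lib.MP_936783_pr.Frames

/-!
# The almost everywhere convergence on the whole plane, from the labels in the four frames
-/

open Filter MeasureTheory

namespace RotorNE

/-- Almost everywhere convergence. -/
theorem ae_plane (H : FrameLabels) : ∀ᵐ p : ℝ × ℝ,
    ∃ d : Dir, ∀ᶠ n : ℕ in atTop, rho n (⌊(n : ℝ) * p.1⌋, ⌊(n : ℝ) * p.2⌋) = d := by
  filter_upwards [ae_outside, ae_square (limitTiles_of_frames H)] with p h1 h2
  by_cases hp : |p.1| ≤ 1 / 4 ∧ |p.2| ≤ 1 / 4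
  · apply h2
    obtain ⟨g1, g2⟩ := hp
    rw [abs_le] at g1 g2
    exact ⟨⟨by linarith [g1.1], g1.2⟩, ⟨by linarith [g2.1], g2.2⟩⟩
  · exact h1 hp

end RotorNE
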