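import Mathlib.Tactic
import Mathlib.Data.Nat.Nth
import Mathlib.Data.Int.Interval
import Mathlib.Data.Int.ConditionallyCompleteOrder
import Mathlib.Data.Int.Star
import Mathlib.Algebra.Order.Star.Real
import Mathlib.Analysis.SpecialFunctions.Integrals.Basic
import Mathlib.Analysis.Fourier.RiemannLebesgueLemma
import Mathlib.Analysis.SpecificLimits.Basic
import Mathlib.Analysis.Asymptotics.SpecificAsymptotics
import Mathlib.MeasureTheory.Integral.Prod
import Mathlib.MeasureTheory.Measure.Lebesgue.Basic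
import Pool.Agent.Lib.MP_936783_pr.Frames
import Pool.Agent.Lib.MP_936783_pr.Pkg

/-!
# The elementary properties of the odometers in the four frames
-/

open Filter

noncomputable section

namespace RotorNE

/-- Acyclicity of last exits, for all finite sets of sites. -/
def Acy (w : ℤ → ℤ → ℤ) : Prop :=
  ∀ D : Finset (ℤ × ℤ), D.Nonempty → ∃ p ∈ D, lastNb w p ∉ D

theorem Acy.rot {w : ℤ → ℤ → ℤ} (h : Acy w) : Acy (rotc w) := by
  classical
  intro D hD
  have hne : (D.image (fun p : ℤ × ℤ => ((-p.2, p.1) : ℤ × ℤ))).Nonempty := hD.image _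
  obtain ⟨q, hq, hq'⟩ := h _ hne
  rw [Finset.mem_image] at hq
  obtain ⟨⟨x, y⟩, hxy, rfl⟩ := hq
  refine ⟨(x, y), hxy, fun hin => hq' ?_⟩
  rw [lastNb_rotc] at hin
  rw [Finset.mem_image]
  exact ⟨_, hin, by simp⟩

theorem Acy.cycH {w : ℤ → ℤ → ℤ} (h : Acy w) (x y : ℤ) :
    ¬ (w x y % 4 = 2 ∧ w (x + 1) y % 4 = 0) := by
  classical
  rintro ⟨h1, h2⟩
  obtain ⟨p, hp, hp'⟩ := h {(x, y), (x + 1, y)} ⟨(x, y), by simp⟩
  simp only [Finset.mem_insert, Finset.mem_singleton] at hp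
  rcases hp with rfl | rfl
  · apply hp'
    have : lastDir (w x y) = .E := by
      rcases lastDir_cases (w x y) with ⟨g, g'⟩ | ⟨g, g'⟩ | ⟨g, g'⟩ | ⟨g, g'⟩
      · omega
      · omega
      · exact g'
      · omega
    unfold lastNb
    rw [this]
    simp [Dir.vec]
  · apply hp'
    have : lastDir (w (x + 1) y) = .W := by
      rcases lastDir_cases (w (x + 1) y) with ⟨g, g'⟩ | ⟨g, g'⟩ | ⟨g, g'⟩ | ⟨g, g'⟩
      · exact g'
      · omega
      · omega
      · omega
    unfold lastNb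
    rw [this]
    simp [Dir.vec]

theorem Acy.cycV {w : ℤ → ℤ → ℤ} (h : Acy w) (x y : ℤ) :
    ¬ (w x y % 4 = 1 ∧ w x (y + 1) % 4 = 3) := by
  classical
  rintro ⟨h1, h2⟩
  obtain ⟨p, hp, hp'⟩ := h {(x, y), (x, y + 1)} ⟨(x, y), by simp⟩
  simp only [Finset.mem_insert, Finset.mem_singleton] at hp
  rcases hp with rfl | rfl
  · apply hp'
    have : lastDir (w x y) = .N := by
      rcases lastDir_cases (w x y) with ⟨g, g'⟩ | ⟨g, g'⟩ | ⟨g, g'⟩ | ⟨g, g'⟩
      · omega
      · exact g'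
      · omega
      · omega
    unfold lastNb
    rw [this]
    simp [Dir.vec]
  · apply hp'
    have : lastDir (w x (y + 1)) = .S := by
      rcases lastDir_cases (w x (y + 1)) with ⟨g, g'⟩ | ⟨g, g'⟩ | ⟨g, g'⟩ | ⟨g, g'⟩
      · omega
      · omega
      · omega
      · exact g'
    unfold lastNb
    rw [this]
    simp [Dir.vec]

/-- Acyclicity for the odometers. -/
theorem Odo.acy {M : ℕ} {a r : ℤ} {u : ℤ → ℤ → ℕ} (h : Odo M (-a) r u)
    (hac : ∀ D : Finset (ℤ × ℤ), D.Nonempty → (∀ p ∈ D, 1 ≤ u p.1 p.2) →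
      ∃ p ∈ D, lastNb (toZ u) p ∉ D) : Acy (toZ u) := by
  classical
  intro D hD
  by_contra hcon
  push Not at hcon
  -- sites which have not been visited move west
  have hW : ∀ p : ℤ × ℤ, u p.1 p.2 = 0 → lastNb (toZ u) p = (p.1 - 1, p.2) := by
    intro p hp
    unfold lastNb toZ
    rw [hp]
    simp [lastDir, Dir.vec, Prod.ext_iff, sub_eq_add_neg]
  by_cases hvis : ∃ p ∈ D, 1 ≤ u p.1 p.2
  · set D1 := D.filter (fun p => 1 ≤ u p.1 p.2) with hD1
    obtain ⟨p, hp, hp'⟩ := hac D1 (by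
      obtain ⟨p, hp, hp'⟩ := hvis
      exact ⟨p, by rw [hD1, Finset.mem_filter]; exact ⟨hp, hp'⟩⟩) (by
      intro p hp
      rw [hD1, Finset.mem_filter] at hp
      exact hp.2)
    rw [hD1, Finset.mem_filter] at hp
    apply hp'
    rw [hD1, Finset.mem_filter]
    refine ⟨hcon p hp.1, ?_⟩
    -- the neighbour is visited
    obtain ⟨x, y⟩ := p
    simp only at hp
    by_contra hne
    have hz : u (lastNb (toZ u) (x, y)).1 (lastNb (toZ u) (x, y)).2 = 0 := by omega
    have hn0 : ¬ ((lastNb (toZ u) (x, y)).1 = 0 ∧ (lastNb (toZ u) (x, y)).2 = 0) := by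
      rintro ⟨g1, g2⟩
      rw [g1, g2, h.orig] at hz
      have hb : u x y ≤ M := h.least (fun _ _ => M) (by
        intro x y _
        unfold F
        simp only
        omega) le_rfl x y
      omega
    have hb := h.bal _ _ hn0
    rw [hz] at hb
    unfold F at hb
    unfold lastNb toZ at hb
    simp only at hb
    rcases lastDir_cases (u x y : ℤ) with ⟨g, g'⟩ | ⟨g, g'⟩ | ⟨g, g'⟩ | ⟨g, g'⟩ <;>
    rw [g'] at hb <;> simp only [Dir.vec, Prod.mk_add_mk, add_zero,
      neg_add_cancel_right, add_sub_cancel_right] at hb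
    · omega
    · omega
    · omega
    · omega
  · push Not at hvis
    obtain ⟨p, hp⟩ := hD
    have hall : ∀ k : ℕ, (p.1 - k, p.2) ∈ D := by
      intro k
      induction k with
      | zero => simpa using hp
      | succ k ih =>
        have h1 := hcon _ ih
        have h2 := hvis _ ih
        rw [hW _ (by simp only at h2 ⊢; omega)] at h1
        push_cast
        rw [show p.1 - ((k : ℤ) + 1) = p.1 - k - 1 by ring]
        exact h1
    have hinj : Function.Injective (fun k : ℕ => ((p.1 - k, p.2) : ℤ × ℤ)) := by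
      intro k k' hk
      simp only [Prod.mk.injEq] at hk
      omega
    exact Set.not_injOn_infinite_finite_image
      (f := fun k : ℕ => ((p.1 - k, p.2) : ℤ × ℤ)) Set.infinite_univ
      (Set.Finite.subset (Finset.finite_toSet D) (by
        rintro _ ⟨k, -, rfl⟩
        exact hall k)) hinj.injOn

/-- Comparison from above with functions which are at least `c`. -/
def Cmp (c : ℤ) (w : ℤ → ℤ → ℤ) : Prop :=
  ∀ (Ω : ℤ → ℤ → Prop) (G : ℤ → ℤ → ℤ), ¬ Ω 0 0 → (∀ x y, Ω x y → c ≤ G x y) →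
    (∀ x y, Ω x y → G x y < w x y → FZ G x y ≤ G x y) →
    (∀ x y, Ω x y → G x y < w x y →
      (Ω x (y - 1) ∨ w x (y - 1) ≤ G x (y - 1)) ∧ (Ω (x - 1) y ∨ w (x - 1) y ≤ G (x - 1) y) ∧
      (Ω x (y + 1) ∨ w x (y + 1) ≤ G x (y + 1)) ∧ (Ω (x + 1) y ∨ w (x + 1) y ≤ G (x + 1) y)) →
    ∀ x y, Ω x y → w x y ≤ G x y

theorem Cmp.rot {c : ℤ} {w : ℤ → ℤ → ℤ} (h : Cmp c w) : Cmp (c + 1) (rotc w) := by
  intro Ω G h0 hc hG hbd x y hxy
  have hrot : G = rotc (fun x y => G y (-x) - 1) := by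
    funext x y
    unfold rotc
    simp
  have key := h (fun x y => Ω y (-x)) (fun x y => G y (-x) - 1) (by simpa using h0)
    (fun x y hh => by have := hc _ _ hh; omega) (by
      intro x y h1 h2
      have h3 := hG y (-x) h1 (by
        unfold rotc
        simp only [neg_neg] at h2 ⊢
        omega)
      rw [hrot, FZ_rotc] at h3
      unfold rotc at h3
      simp only [neg_neg] at h3
      omega) (by
      intro x y h1 h2
      obtain ⟨g1, g2, g3, g4⟩ := hbd y (-x) h1 (by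
        unfold rotc
        simp only [neg_neg] at h2 ⊢
        omega)
      unfold rotc at g1 g2 g3 g4
      rw [show -(-x - 1) = x + 1 by ring] at g1
      rw [neg_neg] at g2 g4
      rw [show -(-x + 1) = x - 1 by ring] at g3
      rw [show -(x - 1) = -x + 1 by ring, show -(x + 1) = -x - 1 by ring]
      refine ⟨?_, ?_, ?_, ?_⟩
      · rcases g2 with g | g
        · exact Or.inl g
        · right; omega
      · rcases g3 with g | g
        · exact Or.inl g
        · right; omega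
      · rcases g4 with g | g
        · exact Or.inl g
        · right; omega
      · rcases g1 with g | g
        · exact Or.inl g
        · right; omega)
  have h1 := key (-y) x (by simpa using hxy)
  simp only [neg_neg] at h1
  unfold rotc
  omega

theorem Cmp.mono {c c' : ℤ} {w : ℤ → ℤ → ℤ} (h : Cmp c w) (hc : c ≤ c') : Cmp c' w :=
  fun Ω G h0 hG => h Ω G h0 (fun x y hh => le_trans hc (hG x y hh))

/-- Balance off the origin. -/
def Bal (w : ℤ → ℤ → ℤ) : Prop := ∀ x y, ¬ (x = 0 ∧ y = 0) → FZ w x y = w x y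

theorem Bal.rot {w : ℤ → ℤ → ℤ} (h : Bal w) : Bal (rotc w) := by
  intro x y hxy
  rw [FZ_rotc, h (-y) x (by omega)]
  rfl

/-- The elementary properties in the four frames. -/
theorem baseN {n : ℕ} (hn : 1 ≤ n) {j : ℕ} (hj : j < 4) : Base (WW j n) := by
  obtain ⟨M, l, r, hodo, -, -, -⟩ := uN_spec hn
  obtain ⟨a, rfl⟩ : ∃ a : ℤ, l = -a := ⟨-l, by ring⟩
  have key : ∀ j : ℕ, Acy (WW j n) ∧ Bal (WW j n) ∧ Cmp j (WW j n) ∧
      ∀ x y, 0 ≤ WW j n x y := by
    intro j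
    induction j with
    | zero =>
      rw [WW_zero]
      refine ⟨hodo.acy (fun D hD hpos => uN_acyc hn D hD hpos), fun x y hxy => hodo.balZ hxy, ?_,
        fun x y => by unfold toZ; positivity⟩
      intro Ω G h0 hc hG hbd
      exact hodo.upper Ω G h0 (fun x y hh => by have := hc x y hh; push_cast at this; exact this)
        hG hbd
    | succ j ih =>
      obtain ⟨h1, h2, h3, h4⟩ := ih
      rw [WW_succ]
      refine ⟨h1.rot, h2.rot, ?_, fun x y => ?_⟩
      · have := h3.rot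
        push_cast
        exact this
      · have := h4 (-y) x
        unfold rotc
        omega
  obtain ⟨h1, h2, h3, h4⟩ := key j
  exact ⟨h2, fun x y _ _ => h1.cycH x y, fun x y _ _ => h1.cycV x y, h4,
    h3.mono (by omega)⟩

theorem WW_one (n : ℕ) (x y : ℤ) : WW 1 n x y = uN n (-y) x + 1 := by
  rw [WW_succ, WW_zero]; rfl

theorem WW_two (n : ℕ) (x y : ℤ) : WW 2 n x y = uN n (-x) (-y) + 2 := by
  rw [WW_succ]
  unfold rotc
  rw [WW_one]
  ring

theorem WW_three (n : ℕ) (x y : ℤ) : WW 3 n x y = uN n y (-x) + 3 := by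
  rw [WW_succ]
  unfold rotc
  rw [WW_two, neg_neg]
  ring

/-- The far field in the four frames. -/
theorem farN {ε : ℝ} (hε : 0 < ε) : ∃ N : ℕ, ∀ n : ℕ, N ≤ n → ∀ j : ℕ, j < 4 →
    (∃ c : ℤ, (c = 0 ∨ c = 1 ∨ c = 3) ∧
      (∀ x : ℤ, |(x : ℝ)| ≤ (n : ℝ) / 4 - ε * n → ∃ Y : ℤ, ∀ y, y ≤ Y → WW j n x y = c) ∧
      (c = 0 → ∀ x y : ℤ, |(x : ℝ)| ≤ (n : ℝ) / 4 - ε * n → (y : ℝ) ≤ - (n : ℝ) / 4 - ε * n →
        WW j n x y = 0)) ∧
    (∃ c : ℤ, (c = 1 ∨ c = 2 ∨ c = 3) ∧
      (∀ x : ℤ, |(x : ℝ)| ≤ (n : ℝ) / 4 - ε * n → ∃ Y : ℤ, ∀ y, Y ≤ y → WW j n x y = c)) := by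
  obtain ⟨N, hN⟩ := asympN (ε / 2) (by positivity)
  obtain ⟨N2, hN2⟩ := exists_nat_ge (10 / ε)
  refine ⟨max N N2, fun n hn j hj => ?_⟩
  obtain ⟨M, a, r, j', hodo, -, -, hra, -, -, -, ha1, ha2⟩ :=
    hN n (le_trans (le_max_left _ _) hn)
  have hnε : 10 ≤ ε * n := by
    have h : (N2 : ℝ) ≤ n := by exact_mod_cast le_trans (le_max_right _ _) hn
    have := le_trans hN2 h
    rw [div_le_iff₀ hε] at this
    linarith
  have hr : (r : ℝ) = n - a := by
    have : r = n - a := by omega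
    rw [this]; push_cast; ring
  have hcol : ∀ x : ℤ, |(x : ℝ)| ≤ (n : ℝ) / 4 - ε * n → -a ≤ x ∧ x < r ∧ -a ≤ -x ∧ -x < r := by
    intro x hx
    rw [abs_le] at hx
    have h1 : -(a : ℝ) ≤ x := by nlinarith
    have h2 : (x : ℝ) < r := by rw [hr]; nlinarith
    have h3 : -(a : ℝ) ≤ -x := by nlinarith
    have h4 : -(x : ℝ) < r := by rw [hr]; nlinarith
    exact ⟨by exact_mod_cast h1, by exact_mod_cast h2, by exact_mod_cast h3, by exact_mod_cast h4⟩
  obtain ⟨Y0, hY0⟩ := hodo.far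
  have hlow : ∀ x y : ℤ, y < -a - 2 → uN n x y = 0 := by
    intro x y hy
    by_contra hc
    have := hodo.bottom (x := x) (y := y) (by omega)
    omega
  rcases (by omega : j = 0 ∨ j = 1 ∨ j = 2 ∨ j = 3) with rfl | rfl | rfl | rfl
  · refine ⟨⟨0, Or.inl rfl, fun x _ => ⟨-a - 3, fun y hy => ?_⟩, fun _ x y _ hy => ?_⟩,
      ⟨1, Or.inl rfl, fun x hx => ⟨Y0, fun y hy => ?_⟩⟩⟩
    · rw [WW_zero]
      unfold toZ
      rw [hlow x y (by omega)]
      rfl
    · rw [WW_zero]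
      unfold toZ
      have h1 : (y : ℝ) < -a - 2 := by nlinarith
      rw [hlow x y (by exact_mod_cast h1)]
      rfl
    · rw [WW_zero]
      unfold toZ
      obtain ⟨g1, g2, -, -⟩ := hcol x hx
      rw [hY0 x y g1 g2 hy]
      rfl
  · refine ⟨⟨1, Or.inr (Or.inl rfl), fun x _ => ⟨-r, fun y hy => ?_⟩, fun h => by omega⟩,
      ⟨1, Or.inl rfl, fun x _ => ⟨a + 1, fun y hy => ?_⟩⟩⟩
    · rw [WW_one, hodo.off (-y) x (Or.inr (by omega))]
      rfl
    · rw [WW_one, hodo.off (-y) x (Or.inl (by omega))]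
      rfl
  · refine ⟨⟨3, Or.inr (Or.inr rfl), fun x hx => ⟨-Y0, fun y hy => ?_⟩, fun h => by omega⟩,
      ⟨2, Or.inr (Or.inl rfl), fun x _ => ⟨a + 3, fun y hy => ?_⟩⟩⟩
    · obtain ⟨-, -, g1, g2⟩ := hcol x hx
      rw [WW_two, hY0 (-x) (-y) g1 g2 (by omega)]
      rfl
    · rw [WW_two, hlow (-x) (-y) (by omega)]
      rfl
  · refine ⟨⟨3, Or.inr (Or.inr rfl), fun x _ => ⟨-a - 1, fun y hy => ?_⟩, fun h => by omega⟩,
      ⟨3, Or.inr (Or.inr rfl), fun x _ => ⟨r, fun y hy => ?_⟩⟩⟩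
    · rw [WW_three, hodo.off y (-x) (Or.inl (by omega))]
      rfl
    · rw [WW_three, hodo.off y (-x) (Or.inr (by omega))]
      rfl

end RotorNE
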