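import Mathlib
import Pool.Agent.Lib.MP_936783_pr.Inst
import Pool.Agent.Lib.MP_936783_pr.TPot
import Pool.Agent.Lib.MP_936783_pr.Final

/-!
# Boundary data of the system of contacts
-/

open Filter

namespace RotorNE

/-- A priori bounds and boundary values of a system of contacts. -/
structure KBd (w : ℤ → ℤ → ℤ) (R a r : ℤ) (K : ℤ → ℤ → Kc) : Prop where
  yIn : ∀ p q, |p| ≤ R → |q| ≤ R → -a - 3 ≤ (K p q).nodeIn.2 ∧ (K p q).nodeIn.2 ≤ a + 3
  yOut : ∀ p q, |p| ≤ R → |q| ≤ R → -a - 3 ≤ (K p q).nodeOut.2 ∧ (K p q).nodeOut.2 ≤ a + 3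
  xIn : ∀ p q, |p| ≤ R → |q| ≤ R → -a - 3 ≤ (K p q).edgeIn.1 ∧ (K p q).edgeIn.1 ≤ r + 3
  xOut : ∀ p q, |p| ≤ R → |q| ≤ R → -a - 3 ≤ (K p q).edgeOut.1 ∧ (K p q).edgeOut.1 ≤ r + 3
  T00 : |(K 0 0).T w 0 0| ≤ 14
  Xo00 : (K 0 0).edgeOut.1 = r - 1
  Xi10 : (K 1 0).edgeIn.1 = -a - 1
  T10 : |(K 1 0).T w 1 0 - 4 * a| ≤ 17
  Xi00 : (K 0 0).edgeIn.1 ≤ a + 2

section
variable {M : ℕ} {a r Y R : ℤ} {u : ℤ → ℤ → ℕ}

theorem Odo.trunc_small (h : Odo M (-a) r u) (x : ℤ) {y : ℤ} (hy : a < y) :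
    0 ≤ trunc u Y x y ∧ trunc u Y x y ≤ 1 := by
  unfold trunc
  split_ifs
  · refine ⟨by positivity, ?_⟩
    by_contra hc
    push Not at hc
    have := h.y_le (x := x) (y := y) (by omega)
    omega
  · norm_num

theorem Odo.trunc_zero_low (h : Odo M (-a) r u) (x : ℤ) {y : ℤ} (hy : y < -a - 2) :
    trunc u Y x y = 0 := by
  unfold trunc
  split_ifs
  · have : u x y = 0 := by
      by_contra hc
      have := h.bottom (x := x) (y := y) (by omega)
      omega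
    simp [this]
  · rfl

theorem Odo.trunc_zero_off (h : Odo M (-a) r u) {x : ℤ} (y : ℤ) (hx : x < -a ∨ r ≤ x) :
    trunc u Y x y = 0 := by
  unfold trunc
  rw [h.off x y hx]
  simp

theorem Odo.fA_high (h : Odo M (-a) r u) (x : ℤ) {y : ℤ} (hy : a < y) :
    fA (trunc u Y) x y = 0 := by
  have h1 := h.trunc_small (Y := Y) x hy
  have h2 := h.trunc_small (Y := Y) (x + 1) hy
  unfold fA
  omega

theorem Odo.fA_low (h : Odo M (-a) r u) (x : ℤ) {y : ℤ} (hy : y < -a - 2) :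
    fA (trunc u Y) x y = 0 := by
  unfold fA
  rw [h.trunc_zero_low _ hy, h.trunc_zero_low _ hy]
  norm_num

theorem Odo.fB_off (h : Odo M (-a) r u) {x : ℤ} (y : ℤ) (hx : x < -a ∨ r ≤ x) :
    fB (trunc u Y) x y = 0 := by
  unfold fB
  rw [h.trunc_zero_off _ hx, h.trunc_zero_off _ hx]
  norm_num

/-- The cells of a contact are in the box. -/
theorem Odo.isK_box (h : Odo M (-a) r u) {p q : ℤ} {K : Kc}
    (hK : IsK (fA (trunc u Y)) (fB (trunc u Y)) p q K) :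
    (-a - 3 ≤ K.nodeIn.2 ∧ K.nodeIn.2 ≤ a + 3) ∧ (-a - 3 ≤ K.nodeOut.2 ∧ K.nodeOut.2 ≤ a + 3) ∧
    (-a - 3 ≤ K.edgeIn.1 ∧ K.edgeIn.1 ≤ r + 3) ∧ (-a - 3 ≤ K.edgeOut.1 ∧ K.edgeOut.1 ≤ r + 3) := by
  have hlo : ∀ x y, y < -a - 2 → fA (trunc u Y) x y = 0 := fun x y hy => h.fA_low x hy
  have hhi : ∀ x y, a < y → fA (trunc u Y) x y = 0 := fun x y hy => h.fA_high x hy
  have hof : ∀ x y, (x < -a ∨ r ≤ x) → fB (trunc u Y) x y = 0 := fun x y hx => h.fB_off y hx
  -- vertices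
  have key : ∀ x y, fA (trunc u Y) (x - 1) y ≠ fA (trunc u Y) x y →
      fB (trunc u Y) x (y - 1) ≠ fB (trunc u Y) x y →
      -a - 2 ≤ y ∧ y ≤ a ∧ -a ≤ x ∧ x < r := by
    intro x y h1 h2
    refine ⟨?_, ?_, ?_, ?_⟩
    · by_contra hc
      exact h1 (by rw [hlo _ _ (by omega), hlo _ _ (by omega)])
    · by_contra hc
      exact h1 (by rw [hhi _ _ (by omega), hhi _ _ (by omega)])
    · by_contra hc
      exact h2 (by rw [hof _ _ (by omega), hof _ _ (by omega)])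
    · by_contra hc
      exact h2 (by rw [hof _ _ (by omega), hof _ _ (by omega)])
  cases K with
  | ne x y m =>
    obtain ⟨h1, -⟩ := hK
    have h2 := h1 0 (Nat.zero_le _)
    have h3 := h1 m le_rfl
    simp only [Nat.cast_zero, add_zero] at h2
    have k2 := key x y (by omega) (by omega)
    have k3 := key (x + m) (y + m) (by omega) (by omega)
    simp only [Kc.nodeIn, Kc.nodeOut, Kc.edgeIn, Kc.edgeOut]
    omega
  | se x y m =>
    obtain ⟨h1, -⟩ := hK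
    have h2 := h1 0 (Nat.zero_le _)
    have h3 := h1 m le_rfl
    simp only [Nat.cast_zero, add_zero, sub_zero] at h2
    have k2 := key x y (by omega) (by omega)
    have k3 := key (x + m) (y - m) (by omega) (by omega)
    simp only [Kc.nodeIn, Kc.nodeOut, Kc.edgeIn, Kc.edgeOut]
    omega
  | fe x y =>
    obtain ⟨h1, h2, h3, h4⟩ := hK
    have e1 : -a - 2 ≤ y + 1 := by
      by_contra hc
      rw [hlo _ _ (by omega)] at h1 h2
      omega
    have e2 : y ≤ a := by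
      by_contra hc
      rw [hhi _ _ (by omega)] at h1 h2
      omega
    have e3 : -a ≤ x + 1 := by
      by_contra hc
      rw [hof _ _ (by omega)] at h3 h4
      omega
    have e4 : x < r := by
      by_contra hc
      rw [hof _ _ (by omega)] at h3 h4
      omega
    simp only [Kc.nodeIn, Kc.nodeOut, Kc.edgeIn, Kc.edgeOut]
    omega
  | fw x y =>
    obtain ⟨h1, h2, h3, h4⟩ := hK
    have e1 : -a - 2 ≤ y + 1 := by
      by_contra hc
      rw [hlo _ _ (by omega)] at h1 h2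
      omega
    have e2 : y ≤ a := by
      by_contra hc
      rw [hhi _ _ (by omega)] at h1 h2
      omega
    have e3 : -a ≤ x + 1 := by
      by_contra hc
      rw [hof _ _ (by omega)] at h3 h4
      omega
    have e4 : x < r := by
      by_contra hc
      rw [hof _ _ (by omega)] at h3 h4
      omega
    simp only [Kc.nodeIn, Kc.nodeOut, Kc.edgeIn, Kc.edgeOut]
    omega

/-- Large eastward flux occurs only to the left of `a`. -/
theorem Odo.fA_neg (h : Odo M (-a) r u) {x y : ℤ} (hx : fA (trunc u Y) x y < -1) : x ≤ a := by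
  have h0 : 0 ≤ trunc u Y (x + 1) y := by
    unfold trunc
    split_ifs
    · positivity
    · norm_num
  have h1 : 6 ≤ trunc u Y x y := by
    unfold fA at hx
    omega
  unfold trunc at h1
  split_ifs at h1
  · exact h.x_le (x := x) (y := y) (by omega)
  · omega

theorem Odo.isK_neg (h : Odo M (-a) r u) {q : ℤ} {K : Kc}
    (hK : IsK (fA (trunc u Y)) (fB (trunc u Y)) (-1) q K) : K.edgeOut.1 ≤ a + 1 := by
  cases K with
  | ne x y m =>
    obtain ⟨h1, -⟩ := hK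
    have h3 := h.fA_neg (h1 m le_rfl).1
    simp only [Kc.edgeOut]
    omega
  | se x y m =>
    obtain ⟨h1, -⟩ := hK
    have h3 := h.fA_neg (h1 0 (Nat.zero_le _)).2.1
    simp only [Kc.edgeOut, Nat.cast_zero, add_zero] at h3 ⊢
    omega
  | fe x y =>
    have h3 := h.fA_neg hK.2.1
    simp only [Kc.edgeOut]
    omega
  | fw x y =>
    have h3 := h.fA_neg hK.1
    simp only [Kc.edgeOut]
    omega

theorem CSys.kbd (h : Odo M (-a) r u) (hR : 1 ≤ R) {K : ℤ → ℤ → Kc}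
    (C : CSys (fA (trunc u Y)) (fB (trunc u Y)) R (-a) r Y K) : KBd (trunc u Y) R a r K := by
  have hR0 : |(0 : ℤ)| ≤ R := by rw [abs_zero]; omega
  have hR1 : |(1 : ℤ)| ≤ R := by rw [abs_one]; omega
  have hR1' : |(-1 : ℤ)| ≤ R := by rw [abs_neg, abs_one]; omega
  have hX0 : (K 0 0).edgeOut.1 = r - 1 := C.cap0.1
  have hX1 : (K 1 0).edgeIn.1 = -a - 1 := C.cap1.1.symm
  refine ⟨?_, ?_, ?_, ?_, ?_, hX0, hX1, ?_, ?_⟩
  · exact fun p q hp hq => (h.isK_box (C.isK p q hp hq)).1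
  · exact fun p q hp hq => (h.isK_box (C.isK p q hp hq)).2.1
  · exact fun p q hp hq => (h.isK_box (C.isK p q hp hq)).2.2.1
  · exact fun p q hp hq => (h.isK_box (C.isK p q hp hq)).2.2.2
  · have h0 : fA (trunc u Y) (K 0 0).edgeOut.1 (K 0 0).edgeOut.2 = 0 := by
      rcases C.cap0.2 with ⟨g1, g2, -⟩ | ⟨g1, g2, -⟩
      · exact g2 _ le_rfl g1
      · exact g2 _ g1 le_rfl
    have h1 := T_edgeOut (C.isK 0 0 hR0 hR0) h0
    have h2 : 0 ≤ trunc u Y (K 0 0).edgeOut.1 (K 0 0).edgeOut.2 ∧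
        trunc u Y (K 0 0).edgeOut.1 (K 0 0).edgeOut.2 ≤ 1 := by
      rw [hX0]
      unfold trunc
      split_ifs
      · have := h.last_col (K 0 0).edgeOut.2
        exact ⟨by positivity, by exact_mod_cast this⟩
      · norm_num
    unfold wp at h1
    rw [abs_le] at h1 ⊢
    simp only [zero_mul, add_zero, mul_zero, sub_zero] at h1
    omega
  · have h0 : fA (trunc u Y) (K 1 0).edgeIn.1 (K 1 0).edgeIn.2 = 1 - 1 := by
      rw [hX1]
      have hc := C.cap1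
      rw [show (K 1 0).edgeIn = (-a - 1, (K 1 0).edgeIn.2) from Prod.ext hX1 rfl] at hc
      rcases hc.2 with ⟨g1, g2, -⟩ | ⟨g1, g2, -⟩
      · exact g2 _ g1 le_rfl
      · exact g2 _ le_rfl g1
    have h1 := T_edgeIn (C.isK 1 0 hR1 hR0) h0
    have h2 : trunc u Y (K 1 0).edgeIn.1 (K 1 0).edgeIn.2 = 0 := by
      rw [hX1]
      exact h.trunc_zero_off _ (Or.inl (by omega))
    unfold wp at h1
    rw [h2, hX1] at h1
    rw [abs_le] at h1 ⊢
    omega
  · have h1 := link_x (C.vlink (-1) 0 hR1' hR0 (by simpa using by omega) (by omega))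
    rw [show (-1 : ℤ) + 1 = 0 by ring] at h1
    have h2 := h.isK_neg (C.isK (-1) 0 hR1' hR0)
    rw [abs_le] at h1
    omega

/-- The system of contacts for the fixed odometers. -/
theorem exists_sysN (R : ℤ) (hR : 1 ≤ R) : ∃ N : ℕ, ∀ n : ℕ, N ≤ n →
    ∀ (M : ℕ) (a r : ℤ), Odo M (-a) r (uN n) → r + a = n →
    ∀ Y0 : ℤ, ∃ (Y : ℤ) (K : ℤ → ℤ → Kc), Y0 ≤ Y ∧ 1 < Y ∧
      (∀ x y, -a ≤ x → x < r → Y - 1 ≤ y → uN n x y = 1) ∧
      RF (r + a) (truncZ a r Y) (trunc (uN n) Y) ∧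
      CSys (fA (trunc (uN n) Y)) (fB (trunc (uN n) Y)) R (-a) r Y K ∧
      KBd (trunc (uN n) Y) R a r K := by
  refine ⟨(4 * R + 28).toNat + 1, fun n hn M a r hodo hra Y0 => ?_⟩
  obtain ⟨Y1, hY1⟩ := hodo.far
  have hY : ∀ x y, -a ≤ x → x < r → max (max (Y1 + 1) 2) Y0 - 1 ≤ y → uN n x y = 1 := by
    intro x y hx1 hx2 hy
    refine hY1 x y hx1 hx2 ?_
    have := le_max_left (max (Y1 + 1) 2) Y0
    have := le_max_left (Y1 + 1) 2
    omega
  have h2 : 1 < max (max (Y1 + 1) 2) Y0 := by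
    have := le_max_left (max (Y1 + 1) 2) Y0
    have := le_max_right (Y1 + 1) 2
    omega
  have rf := hodo.rf (fun D hD hpos => uN_acyc (by omega) D hD hpos) h2 hY
  obtain ⟨K, hK⟩ := trunc_sys (R := R) hodo rf h2 (fun x hx1 hx2 => hY x _ hx1 hx2 le_rfl) hR
    (by omega)
  exact ⟨_, K, le_max_right _ _, h2, hY, rf, hK, hK.kbd hodo hR⟩

end

end RotorNE
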