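import Mathlib.Tactic
import Mathlib.Data.Nat.Nth
import Mathlib.Data.Int.Interval
import Mathlib.Data.Int.ConditionallyCompleteOrder
import Mathlib.Data.Int.Star
import Mathlib.Algebra.Order.Star.Real
import Mathlib.Analysis.SpecialFunctions.Integrals.Basic
import Mathlib.Analysis.Fourier.RiemannLebesgueLemma
import Mathlib.Analysis.SpecificLimits.Basic
import Mathlib.Analysis.Asymptotics.SpecificAsymptotics
import Mathlib.MeasureTheory.Integral.Prod
import Mathlib.MeasureTheory.Measure.Lebesgue.Basic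
import Pool.Agent.Lib.MP_936783_pr.Pkg

/-!
# Exactness I: local analysis of columns in a region of constant flux
-/

namespace RotorNE

/-- The flux around the site `(x, y)` is `(a, b)`. -/
def St (w : ℤ → ℤ → ℤ) (a b x y : ℤ) : Prop :=
  fA w (x - 1) y = a ∧ fA w x y = a ∧ fB w x (y - 1) = b ∧ fB w x y = b

/-- Vertex contacts of `(a, b)` at `(x, y)` are regular. -/
def OkV (w : ℤ → ℤ → ℤ) (a b x y : ℤ) : Prop :=
  (VP (fA w) (fB w) a b x y → NV w a b x y ∧ FF w a b x y ∧ FF w a b (x - 1) (y - 1)) ∧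
  (VM (fA w) (fB w) a b x y → SV w a b x y ∧ FF w a b x (y - 1) ∧ FF w a b (x - 1) y)

/-- Face contacts of `(a, b)` at the face `(x, y)` are regular. -/
def OkF (w : ℤ → ℤ → ℤ) (a b x y : ℤ) : Prop :=
  CF w a b x y → FF w a b x y ∧ ((NV w a b x y ∧ NV w a b (x + 1) (y + 1)) ∨
      (SV w a b x (y + 1) ∧ SV w a b (x + 1) y))

/-- All contacts of `(a, b)` near the point `(x, y)` are regular. -/
def Ok (w : ℤ → ℤ → ℤ) (a b x y : ℤ) : Prop :=
  OkV w a b x y ∧ OkF w a b (x - 1) y ∧ OkF w a b x y ∧ OkF w a b (x - 1) (y - 1) ∧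
    OkF w a b x (y - 1)

/-- The four corners of `(a, b)` are regular at `(x, y)`. -/
def Ok4 (w : ℤ → ℤ → ℤ) (a b x y : ℤ) : Prop :=
  Ok w a b x y ∧ Ok w (a + 1) b x y ∧ Ok w a (b + 1) x y ∧ Ok w (a + 1) (b + 1) x y

theorem Ok_of_not {w : ℤ → ℤ → ℤ} {a b x y : ℤ} (h : ¬ CV w a b x y) (h1 : ¬ CF w a b (x - 1) y)
    (h2 : ¬ CF w a b x y) (h3 : ¬ CF w a b (x - 1) (y - 1)) (h4 : ¬ CF w a b x (y - 1)) :
    Ok w a b x y :=
  ⟨⟨fun h' => absurd (Or.inl h') h, fun h' => absurd (Or.inr h') h⟩, fun h' => absurd h' h1,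
    fun h' => absurd h' h2, fun h' => absurd h' h3, fun h' => absurd h' h4⟩

section steps

variable {w : ℤ → ℤ → ℤ} {a b x y : ℤ}

theorem Base.div (h : Base w) (hxy : ¬ (x = 0 ∧ y = 0)) :
    fA w x y - fA w (x - 1) y = fB w x (y - 1) - fB w x y := by
  have := fdiv w x y
  rw [h.bal x y hxy] at this
  linarith

/-- The curl inequality. -/
theorem curl_ge (w : ℤ → ℤ → ℤ) (x y : ℤ) :
    -1 ≤ fA w x y + fB w (x + 1) y - fA w x (y + 1) - fB w x y := by
  have h1 := fcurl w x y
  have h2 := fnu_nonneg w x y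
  linarith

/-- Exits downwards. -/
theorem down_step (h : Base w) (hs : St w a b x y) (h0 : ¬ (x = 0 ∧ y - 1 = 0))
    (hok : Ok4 w a b x (y - 1)) :
    St w a b x (y - 1) ∨ NV w (a + 1) (b + 1) x (y - 1) ∨ SV w (a + 1) b x (y - 1) ∨
      WR w a b x (y - 1) ∨ ER w (a + 1) b x (y - 1) := by
  obtain ⟨s1, s2, s3, s4⟩ := hs
  have hd := h.div h0
  have cl := curl_ge w (x - 1) (y - 1)
  have cr := curl_ge w x (y - 1)
  obtain ⟨⟨v00, fl00, fr00, -, -⟩, ⟨v10, fl10, fr10, -, -⟩, ⟨v01, fl01, fr01, -, -⟩,
    ⟨v11, fl11, fr11, -, -⟩⟩ := hok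
  unfold OkV VP VM at v00 v10 v01 v11
  unfold OkF CF EN ES WN at fl00 fr00 fl10 fr10 fl01 fr01 fl11 fr11
  unfold NV SV FF at *
  simp only [sub_add_cancel] at *
  unfold St WR ER
  simp only [sub_add_cancel]
  rcases lt_or_ge (fA w (x - 1) (y - 1)) a with h1 | h1
  · rcases lt_or_ge (fA w x (y - 1)) a with h2 | h2
    · -- west run
      have e1 : fB w (x - 1) (y - 1) = b := by
        by_contra hne
        have := fl00 (Or.inr (Or.inr (by omega))); omega
      have e2 : fB w (x + 1) (y - 1) = b := by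
        by_contra hne
        have := fr01 (Or.inr (Or.inr (by omega))); omega
      right; right; right; left
      omega
    · exfalso
      have := v01.1 (by omega)
      omega
  · rcases lt_or_ge (fA w x (y - 1)) a with h2 | h2
    · exfalso
      have := v00.2 (by omega)
      omega
    · rcases eq_or_lt_of_le h1 with h3 | h3
      · rcases eq_or_lt_of_le h2 with h4 | h4
        · left
          omega
        · right; left
          have := v11.1 (by omega)
          omega
      · rcases eq_or_lt_of_le h2 with h4 | h4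
        · right; right; left
          have := v10.2 (by omega)
          omega
        · -- east run
          have e1 : fB w (x - 1) (y - 1) = b := by
            rcases lt_trichotomy (fB w (x - 1) (y - 1)) b with g | g | g
            · have := fl10 (Or.inl (by omega)); omega
            · exact g
            · have := fl11 (Or.inr (Or.inl (by omega))); omega
          have e2 : fB w (x + 1) (y - 1) = b := by
            rcases lt_trichotomy (fB w (x + 1) (y - 1)) b with g | g | g
            · have := fr10 (Or.inr (Or.inl (by omega))); omega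
            · exact g
            · have := fr11 (Or.inl (by omega)); omega
          right; right; right; right
          omega

/-- Exits upwards. -/
theorem up_step (h : Base w) (hs : St w a b x y) (h0 : ¬ (x = 0 ∧ y + 1 = 0))
    (hok : Ok4 w a b x (y + 1)) :
    St w a b x (y + 1) ∨ NV w a b x (y + 1) ∨ SV w a (b + 1) x (y + 1) ∨
      WR w (a + 1) b x y ∨ ER w a b x y := by
  obtain ⟨s1, s2, s3, s4⟩ := hs
  have hd := h.div h0
  have cl := curl_ge w (x - 1) y
  have cr := curl_ge w x y
  obtain ⟨⟨v00, -, -, fl00, fr00⟩, ⟨v10, -, -, fl10, fr10⟩, ⟨v01, -, -, fl01, fr01⟩,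
    ⟨v11, -, -, fl11, fr11⟩⟩ := hok
  unfold OkV VP VM at v00 v10 v01 v11
  unfold OkF CF EN ES WN at fl00 fr00 fl10 fr10 fl01 fr01 fl11 fr11
  unfold NV SV FF at *
  simp only [sub_add_cancel, add_sub_cancel_right] at *
  unfold St WR ER
  simp only [add_sub_cancel_right]
  rcases lt_or_ge (fA w (x - 1) (y + 1)) a with h1 | h1
  · rcases lt_or_ge (fA w x (y + 1)) a with h2 | h2
    · -- east run
      have e1 : fB w (x - 1) y = b := by
        rcases lt_trichotomy (fB w (x - 1) y) b with g | g | g
        · have := fl00 (Or.inl (by omega)); omega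
        · exact g
        · have := fl01 (Or.inr (Or.inl (by omega))); omega
      have e2 : fB w (x + 1) y = b := by
        rcases lt_trichotomy (fB w (x + 1) y) b with g | g | g
        · have := fr00 (Or.inr (Or.inl (by omega))); omega
        · exact g
        · have := fr01 (Or.inl (by omega)); omega
      right; right; right; right
      omega
    · rcases eq_or_lt_of_le h2 with h3 | h3
      · right; left
        have := v00.1 (by omega)
        omega
      · exfalso
        have := v00.1 (by omega)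
        omega
  · rcases lt_or_ge (fA w x (y + 1)) a with h2 | h2
    · right; right; left
      have := v01.2 (by omega)
      omega
    · rcases eq_or_lt_of_le h1 with h3 | h3
      · rcases eq_or_lt_of_le h2 with h4 | h4
        · left
          omega
        · exfalso
          have := v10.1 (by omega)
          omega
      · rcases eq_or_lt_of_le h2 with h4 | h4
        · exfalso
          have := v11.2 (by omega)
          omega
        · -- west run
          have e1 : fB w (x - 1) y = b := by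
            by_contra hne
            have := fl10 (Or.inr (Or.inr (by omega))); omega
          have e2 : fB w (x + 1) y = b := by
            by_contra hne
            have := fr11 (Or.inr (Or.inr (by omega))); omega
          right; right; right; left
          omega

theorem ind4_cases (k c : ℤ) : (ind4 k c = 1 ∧ k % 4 = c) ∨ (ind4 k c = 0 ∧ ¬ k % 4 = c) := by
  unfold ind4
  split_ifs with h
  · exact Or.inl ⟨rfl, h⟩
  · exact Or.inr ⟨rfl, h⟩

/-- The defect of a face with a `(3, 0)` pair on top. -/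
theorem fnu_top {x y : ℤ} (h1 : w x (y + 1) % 4 = 3) (h2 : w (x + 1) (y + 1) % 4 = 0)
    (hc : ¬ (w x y % 4 = 1 ∧ w x (y + 1) % 4 = 3)) :
    fnu w x y ≤ 1 ∧ (fnu w x y = 1 → w (x + 1) y % 4 = 0) := by
  unfold fnu
  have e1 : ind4 (w (x + 1) (y + 1)) 3 = 0 := by unfold ind4; rw [if_neg (by omega)]
  have e2 : ind4 (w x (y + 1)) 2 = 0 := by unfold ind4; rw [if_neg (by omega)]
  have e3 : ind4 (w x y) 1 = 0 := by unfold ind4; rw [if_neg (by tauto)]
  have := ind4_cases (w (x + 1) y) 0
  omega

/-- The defect of a face with a colour 3 in the upper right corner. -/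
theorem fnu_ur {x y : ℤ} (h1 : w (x + 1) (y + 1) % 4 = 3) :
    1 ≤ fnu w x y ∧ (fnu w x y = 1 → ¬ w (x + 1) y % 4 = 0) := by
  unfold fnu
  have e1 : ind4 (w (x + 1) (y + 1)) 3 = 1 := by unfold ind4; rw [if_pos h1]
  have e2 : 0 ≤ ind4 (w x y) 1 := by unfold ind4; split_ifs <;> norm_num
  have e3 : 0 ≤ ind4 (w x (y + 1)) 2 := by unfold ind4; split_ifs <;> norm_num
  have := ind4_cases (w (x + 1) y) 0
  omega

/-- The defect of a face whose upper corners are not coloured 2 and 3 is at most 2. -/
theorem fnu_le_two {x y : ℤ} (h1 : ¬ w x (y + 1) % 4 = 2) (h2 : ¬ w (x + 1) (y + 1) % 4 = 3) :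
    fnu w x y ≤ 2 := by
  unfold fnu
  have e1 : ind4 (w (x + 1) (y + 1)) 3 = 0 := by unfold ind4; rw [if_neg h2]
  have e2 : ind4 (w x (y + 1)) 2 = 0 := by unfold ind4; rw [if_neg h1]
  have e3 : ind4 (w x y) 1 ≤ 1 := by unfold ind4; split_ifs <;> norm_num
  have e4 : ind4 (w (x + 1) y) 0 ≤ 1 := by unfold ind4; split_ifs <;> norm_num
  omega

/-- Ridges, middle column. -/
theorem ridge_mid (h : Base w) (hx : x ≠ 0) (hx' : x + 1 ≠ 0) (bl : fB w (x - 1) (y - 1) = b)
    (sm : St w a b x y) (br : fB w (x + 1) (y - 1) = b) (c3 : w x y % 4 = 3)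
    (c0 : w (x + 1) y % 4 = 0) (okm : Ok4 w a b x (y - 1)) :
    St w a b x (y - 1) ∧ w x (y - 1) % 4 = 3 ∧ w (x + 1) (y - 1) % 4 = 0 := by
  have dm := down_step h sm (by tauto) okm
  have cycv := h.cycV x (y - 1) (by tauto) (by tauto)
  have cych := h.cycH x (y - 1) (by tauto) (by tauto)
  have fl := fcurl w (x - 1) (y - 1)
  have fr := fcurl w x (y - 1)
  have ft := fnu_top (w := w) (x := x) (y := y - 1) (by rwa [sub_add_cancel])
    (by rwa [sub_add_cancel]) cycv
  have hL := fnu_ur (w := w) (x := x - 1) (y := y - 1) (by simpa only [sub_add_cancel] using c3)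
  obtain ⟨sm1, sm2, sm3, sm4⟩ := sm
  simp only [sub_add_cancel] at *
  have hm : St w a b x (y - 1) := by
    obtain ⟨-, ⟨⟨-, v10⟩, -⟩, -, ⟨⟨v11, -⟩, -⟩⟩ := okm
    clear cycv cych
    rcases dm with g | g | g | g | g
    · exact g
    · exfalso
      obtain ⟨g1, g2, g3, g4⟩ := g
      obtain ⟨-, ⟨k1, k2, k3, k4⟩, -⟩ := v11 ⟨by omega, by omega, by omega, by omega⟩
      omega
    · exfalso
      obtain ⟨g1, g2, g3, g4⟩ := g
      obtain ⟨-, -, ⟨k1, k2, k3, k4⟩⟩ := v10 ⟨by omega, by omega, by omega, by omega⟩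
      omega
    · exfalso
      obtain ⟨g1, g2, g3, g4, g5, g6, g7⟩ := g
      omega
    · exfalso
      obtain ⟨g1, g2, g3, g4, g5, g6, g7⟩ := g
      omega
  obtain ⟨m1, m2, m3, m4⟩ := hm
  have hLL : fnu w (x - 1) (y - 1) = 1 := by omega
  have hRR : fnu w x (y - 1) = 1 := by omega
  have c0' := ft.2 hRR
  have c3' := hL.2 hLL
  refine ⟨⟨m1, m2, m3, m4⟩, ?_, c0'⟩
  clear ft hL fl fr dm
  omega

/-- A horizontal `(3, 0)` pair in a region of constant flux propagates downwards. -/
theorem ridge_step (h : Base w) (hx : x < -1 ∨ 1 < x) (sl : St w a b (x - 1) y)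
    (sm : St w a b x y) (sr : St w a b (x + 1) y) (c3 : w x y % 4 = 3)
    (c0 : w (x + 1) y % 4 = 0) (okl : Ok4 w a b (x - 1) (y - 1)) (okm : Ok4 w a b x (y - 1))
    (okr : Ok4 w a b (x + 1) (y - 1)) (okd : Ok4 w a b x (y - 2)) :
    St w a b (x - 1) (y - 1) ∧ St w a b x (y - 1) ∧ St w a b (x + 1) (y - 1) ∧
      w x (y - 1) % 4 = 3 ∧ w (x + 1) (y - 1) % 4 = 0 := by
  have dl := down_step h sl (by omega) okl
  have dr := down_step h sr (by omega) okr
  obtain ⟨hm, c3', c0'⟩ := ridge_mid h (by omega) (by omega) sl.2.2.1 sm sr.2.2.1 c3 c0 okm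
  obtain ⟨m1, m2, m3, m4⟩ := hm
  -- the right column
  have hr : St w a b (x + 1) (y - 1) := by
    obtain ⟨-, -, -, ⟨⟨v11, -⟩, -⟩⟩ := okr
    rcases dr with g | g | g | g | g
    · exact g
    · exfalso
      obtain ⟨g1, g2, g3, g4⟩ := g
      obtain ⟨-, -, ⟨k1, k2, k3, k4⟩⟩ := v11 ⟨by omega, by omega, by omega, by omega⟩
      have f1 := fcurl w x (y - 1 - 1)
      have f2 := fnu_le_two (w := w) (x := x) (y := y - 1 - 1)
        (by rw [sub_add_cancel]; omega) (by rw [sub_add_cancel]; omega)
      simp only [add_sub_cancel_right, sub_add_cancel] at k1 k2 k3 k4 f1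
      omega
    · exfalso
      have := g.1
      simp only [add_sub_cancel_right] at this
      omega
    · exfalso
      have := g.1
      simp only [add_sub_cancel_right] at this
      omega
    · exfalso
      have := g.2.2.1
      simp only [add_sub_cancel_right] at this
      omega
  have hl : St w a b (x - 1) (y - 1) := by
    rcases dl with g | g | g | g | g
    · exact g
    · exfalso
      have := g.2.1
      omega
    · exfalso
      obtain ⟨g1, g2, g3, g4⟩ := g
      obtain ⟨-, ⟨-, -, -, fb, -⟩, -, -⟩ := okm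
      obtain ⟨-, ⟨⟨-, v10⟩, -⟩, -, -⟩ := okl
      obtain ⟨-, ⟨k1, k2, k3, k4⟩, -⟩ := v10 ⟨by omega, by omega, by omega, by omega⟩
      simp only [sub_add_cancel] at k1 k2 k3 k4
      obtain ⟨-, hh⟩ := fb (Or.inl ⟨by simp only [sub_add_cancel]; omega, by omega,
        by omega, by simp only [sub_add_cancel]; omega⟩)
      simp only [sub_add_cancel] at hh
      rcases hh with ⟨-, ⟨q1, q2, q3, q4⟩⟩ | ⟨-, ⟨q1, q2, q3, q4⟩⟩
      · omega
      · have r3 := hr.2.2.1
        rw [show y - 1 - 1 = y - 2 by ring] at q1 q2 q3 q4 m3 r3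
        obtain ⟨-, ⟨⟨-, u10⟩, -⟩, -, -⟩ := okd
        obtain ⟨-, ⟨t1, t2, t3, t4⟩, -⟩ := u10 ⟨by omega, by omega, by omega, by omega⟩
        have cycv' := h.cycV x (y - 2) (by omega) (by omega)
        have cych' := h.cycH x (y - 2) (by omega) (by omega)
        have hf := fnu_top (w := w) (x := x) (y := y - 2)
          (by rw [show y - 2 + 1 = y - 1 by ring]; exact c3')
          (by rw [show y - 2 + 1 = y - 1 by ring]; exact c0') cycv'
        have f2 := fcurl w x (y - 2)
        have f3 := fcurl w x (y - 2 - 1)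
        rw [show y - 2 + 1 = y - 1 by ring] at cycv' f2
        have hc := hf.2 (by omega)
        simp only [sub_add_cancel] at f3 t1
        have f4 := fnu_le_two (w := w) (x := x) (y := y - 2 - 1)
          (by rw [sub_add_cancel]; omega) (by rw [sub_add_cancel]; omega)
        clear hf cych' cycv' f2
        omega
    · exfalso
      have := g.2.1
      omega
    · exfalso
      have := g.2.2.2.1
      omega
  exact ⟨hl, ⟨m1, m2, m3, m4⟩, hr, c3', c0'⟩

end steps

end RotorNE
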