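import Mathlib.Tactic
import Mathlib.Data.Nat.Nth
import Mathlib.Data.Int.Interval
import Mathlib.Data.Int.ConditionallyCompleteOrder
import Mathlib.Data.Int.Star
import Mathlib.Algebra.Order.Star.Real
import Mathlib.Analysis.SpecialFunctions.Integrals.Basic
import Mathlib.Analysis.Fourier.RiemannLebesgueLemma
import Mathlib.Analysis.SpecificLimits.Basic
import Mathlib.Analysis.Asymptotics.SpecificAsymptotics
import Mathlib.MeasureTheory.Integral.Prod
import Mathlib.MeasureTheory.Measure.Lebesgue.Basic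
import Pool.Agent.Lib.MP_936783_pr.ExLocal

/-!
# Exactness II: ridges, growth along columns, and the box lemma
-/

namespace RotorNE

variable {w : ℤ → ℤ → ℤ} {a b : ℤ}

/-- No horizontal `(3, 0)` pairs in columns with regular contacts. -/
theorem no_ridge (h : Base w) {x y : ℤ} (hx : x < -1 ∨ 1 < x)
    (hok : ∀ t, t < y → Ok4 w a b (x - 1) t ∧ Ok4 w a b x t ∧ Ok4 w a b (x + 1) t)
    (hfar : ∃ Y c : ℤ, ∀ t, t ≤ Y → w x t = c ∧ w (x + 1) t = c)
    (sl : St w a b (x - 1) y) (sm : St w a b x y) (sr : St w a b (x + 1) y) :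
    ¬ (w x y % 4 = 3 ∧ w (x + 1) y % 4 = 0) := by
  rintro ⟨c3, c0⟩
  have key : ∀ k : ℕ, St w a b (x - 1) (y - k) ∧ St w a b x (y - k) ∧ St w a b (x + 1) (y - k) ∧
      w x (y - k) % 4 = 3 ∧ w (x + 1) (y - k) % 4 = 0 := by
    intro k
    induction k with
    | zero =>
      simp only [Nat.cast_zero, sub_zero]
      exact ⟨sl, sm, sr, c3, c0⟩
    | succ k ih =>
      obtain ⟨i1, i2, i3, i4, i5⟩ := ih
      have := ridge_step h hx i1 i2 i3 i4 i5 (hok _ (by omega)).1 (hok _ (by omega)).2.1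
        (hok _ (by omega)).2.2 (hok _ (by omega)).2.1
      push_cast
      rw [show y - ((k : ℤ) + 1) = y - k - 1 by ring]
      exact this
  obtain ⟨Y, c, hY⟩ := hfar
  obtain ⟨-, -, -, k1, k2⟩ := key (y - Y).toNat
  obtain ⟨e1, e2⟩ := hY (y - ((y - Y).toNat : ℕ)) (by omega)
  rw [e1] at k1
  rw [e2] at k2
  omega

/-- Growth along columns. -/
theorem vgrow {x y : ℤ} (k : ℕ) (hB : ∀ t, y ≤ t → t < y + k → fB w x t = b) :
    4 * (b * k) - 3 ≤ w x (y + k) - w x y ∧ w x (y + k) - w x y ≤ 4 * ((b + 1) * k) + 3 := by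
  have key : b * k ≤ (w x (y + k) + 3) / 4 - (w x y + 3) / 4 ∧
      (w x (y + k) + 3) / 4 - (w x y + 3) / 4 ≤ (b + 1) * k := by
    induction k with
    | zero => simp
    | succ k ih =>
      have ih' := ih (fun t h1 h2 => hB t h1 (by push_cast; omega))
      have h1 := hB (y + k) (by omega) (by push_cast; omega)
      unfold fB at h1
      push_cast
      rw [show y + ((k : ℤ) + 1) = y + k + 1 by ring]
      have e1 : b * ((k : ℤ) + 1) = b * k + b := by ring
      have e2 : (b + 1) * ((k : ℤ) + 1) = (b + 1) * k + (b + 1) := by ring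
      rw [e1, e2]
      omega
  have e : (b + 1) * (k : ℤ) = b * k + k := by ring
  rw [e] at key ⊢
  omega

/-- Growth along rows. -/
theorem hgrow {x y : ℤ} (k : ℕ) (hA : ∀ t, x ≤ t → t < x + k → fA w t y = a) :
    4 * (a * k) - 3 ≤ w (x + k) y - w x y ∧ w (x + k) y - w x y ≤ 4 * ((a + 1) * k) + 3 := by
  have key : a * k ≤ (w (x + k) y + 2) / 4 - (w x y + 2) / 4 ∧
      (w (x + k) y + 2) / 4 - (w x y + 2) / 4 ≤ (a + 1) * k := by
    induction k with
    | zero => simp
    | succ k ih =>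
      have ih' := ih (fun t h1 h2 => hA t h1 (by push_cast; omega))
      have h1 := hA (x + k) (by omega) (by push_cast; omega)
      unfold fA at h1
      push_cast
      rw [show x + ((k : ℤ) + 1) = x + k + 1 by ring]
      have e1 : a * ((k : ℤ) + 1) = a * k + a := by ring
      have e2 : (a + 1) * ((k : ℤ) + 1) = (a + 1) * k + (a + 1) := by ring
      rw [e1, e2]
      omega
  have e : (a + 1) * (k : ℤ) = a * k + k := by ring
  rw [e] at key ⊢
  omega

/-- In the box of half-size `L` around `(x0, y0)` the flux is `(a, b)` and there are neither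
2-cycles nor ridges. -/
structure BoxHyp (w : ℤ → ℤ → ℤ) (a b x0 y0 L : ℤ) : Prop where
  st : ∀ x y, |x - x0| ≤ L → |y - y0| ≤ L → St w a b x y
  hor : ∀ x y, |x - x0| ≤ L → |x + 1 - x0| ≤ L → |y - y0| ≤ L →
    ¬ (w x y % 4 = 2 ∧ w (x + 1) y % 4 = 0) ∧ ¬ (w x y % 4 = 3 ∧ w (x + 1) y % 4 = 0) ∧
    ¬ (w x y % 4 = 2 ∧ w (x + 1) y % 4 = 1)
  ver : ∀ x y, |x - x0| ≤ L → |y - y0| ≤ L → |y + 1 - y0| ≤ L →
    ¬ (w x y % 4 = 1 ∧ w x (y + 1) % 4 = 3) ∧ ¬ (w x y % 4 = 1 ∧ w x (y + 1) % 4 = 0) ∧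
    ¬ (w x y % 4 = 2 ∧ w x (y + 1) % 4 = 3)

theorem St_rotc {x y : ℤ} : St (rotc w) b (-1 - a) x y ↔ St w a b (-y) x := by
  unfold St
  rw [fA_rotc, fB_rotc]
  unfold rotA rotB
  rw [show -(y - 1) - 1 = -y by ring]
  omega

theorem BoxHyp.rot {x0 y0 L : ℤ} (h : BoxHyp w a b x0 y0 L) :
    BoxHyp (rotc w) b (-1 - a) y0 (-x0) L := by
  have e1 : ∀ y : ℤ, |(-y) - x0| = |y - -x0| := by
    intro y
    rw [show (-y) - x0 = -(y - -x0) by ring, abs_neg]
  refine ⟨?_, ?_, ?_⟩
  · intro x y hx hy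
    rw [St_rotc]
    exact h.st _ _ (by rw [e1]; exact hy) hx
  · intro x y hx hx1 hy
    have := h.ver (-y) x (by rw [e1]; exact hy) hx hx1
    unfold rotc
    omega
  · intro x y hx hy hy1
    have := h.hor (-(y + 1)) x (by rw [e1]; exact hy1)
      (by rw [show -(y + 1) + 1 = -y by ring, e1]; exact hy) hx
    rw [show -(y + 1) + 1 = -y by ring] at this
    unfold rotc
    omega

/-- The defect of faces in the box is one. -/
theorem St.nu {x y : ℤ} (h1 : St w a b x y) (h2 : St w a b (x + 1) (y + 1)) :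
    fnu w x y = 1 := by
  have := fcurl w x y
  obtain ⟨-, s2, -, s4⟩ := h1
  obtain ⟨t1, -, t3, -⟩ := h2
  simp only [add_sub_cancel_right] at t1 t3
  omega

theorem BoxHyp.up1 {x0 y0 L : ℤ} (h : BoxHyp w a b x0 y0 L) {x y : ℤ} (hx : |x - x0| ≤ L)
    (hx1 : |x + 1 - x0| ≤ L) (hy : |y - y0| ≤ L) (hy1 : |y + 1 - y0| ≤ L) (h1 : w x y % 4 = 1) :
    w x (y + 1) % 4 = 1 := by
  have hv := h.ver x y hx hy hy1
  have hn := (h.st x y hx hy).nu (h.st (x + 1) (y + 1) hx1 hy1)
  have : ¬ w x (y + 1) % 4 = 2 := by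
    intro h2
    unfold fnu at hn
    have e1 : ind4 (w x y) 1 = 1 := by unfold ind4; rw [if_pos h1]
    have e2 : ind4 (w x (y + 1)) 2 = 1 := by unfold ind4; rw [if_pos h2]
    have e3 : 0 ≤ ind4 (w (x + 1) y) 0 := by unfold ind4; split_ifs <;> norm_num
    have e4 : 0 ≤ ind4 (w (x + 1) (y + 1)) 3 := by unfold ind4; split_ifs <;> norm_num
    omega
  omega

theorem BoxHyp.right2 {x0 y0 L : ℤ} (h : BoxHyp w a b x0 y0 L) {x y : ℤ} (hx : |x - x0| ≤ L)
    (hx1 : |x + 1 - x0| ≤ L) (hy : |y - y0| ≤ L) (hy1 : |y - 1 - y0| ≤ L) (h1 : w x y % 4 = 2) :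
    w (x + 1) y % 4 = 2 := by
  have hv := h.hor x y hx hx1 hy
  have hn := (h.st x (y - 1) hx hy1).nu (by rw [sub_add_cancel]; exact h.st (x + 1) y hx1 hy)
  have : ¬ w (x + 1) y % 4 = 3 := by
    intro h2
    unfold fnu at hn
    rw [sub_add_cancel] at hn
    have e1 : ind4 (w (x + 1) y) 3 = 1 := by unfold ind4; rw [if_pos h2]
    have e2 : ind4 (w x y) 2 = 1 := by unfold ind4; rw [if_pos h1]
    have e3 : 0 ≤ ind4 (w (x + 1) (y - 1)) 0 := by unfold ind4; split_ifs <;> norm_num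
    have e4 : 0 ≤ ind4 (w x (y - 1)) 1 := by unfold ind4; split_ifs <;> norm_num
    omega
  omega

/-- Box lemma for the plane of residue 0. -/
theorem BoxHyp.zero {x0 y0 : ℤ} {L : ℕ} (h : BoxHyp w a b x0 y0 (2 * L + 1)) {D t : ℝ}
    (hD : D < 2 * L)
    (hp : ∀ x y : ℤ, |x - x0| ≤ 2 * L + 1 → |y - y0| ≤ 2 * L + 1 →
      |(w x y : ℝ) - (4 * (a * x + b * y) + t)| ≤ D) : w x0 y0 % 4 = 0 := by
  -- no colour 1
  have n1 : ∀ x y : ℤ, |x - x0| ≤ 2 * L → |y - y0| ≤ L → ¬ w x y % 4 = 1 := by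
    intro x y hx hy h1
    rw [abs_le] at hx hy
    have key : ∀ k : ℕ, k ≤ L → w x (y + k) % 4 = 1 ∧ w x (y + k) = w x y + 4 * ((b + 1) * k) := by
      intro k
      induction k with
      | zero => intro _; simpa using h1
      | succ k ih =>
        intro hk
        obtain ⟨i1, i2⟩ := ih (by omega)
        have hu := h.up1 (x := x) (y := y + k) (by rw [abs_le]; omega) (by rw [abs_le]; omega)
          (by rw [abs_le]; omega) (by rw [abs_le]; omega) i1
        have hs := (h.st x (y + k) (by rw [abs_le]; omega) (by rw [abs_le]; omega)).2.2.2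
        unfold fB at hs
        push_cast
        rw [show y + ((k : ℤ) + 1) = y + k + 1 by ring,
          show (b + 1) * ((k : ℤ) + 1) = (b + 1) * k + (b + 1) by ring]
        omega
    obtain ⟨-, hL⟩ := key L le_rfl
    have p1 := hp x y (by rw [abs_le]; omega) (by rw [abs_le]; omega)
    have p2 := hp x (y + L) (by rw [abs_le]; omega) (by rw [abs_le]; omega)
    rw [hL] at p2
    rw [abs_le] at p1 p2
    push_cast at p2
    nlinarith [p1.1, p1.2, p2.1, p2.2]
  -- no colour 2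
  have n2 : ∀ x y : ℤ, |x - x0| ≤ L → |y - y0| ≤ 2 * L → ¬ w x y % 4 = 2 := by
    intro x y hx hy h1
    rw [abs_le] at hx hy
    have key : ∀ k : ℕ, k ≤ L → w (x + k) y % 4 = 2 ∧ w (x + k) y = w x y + 4 * ((a + 1) * k) := by
      intro k
      induction k with
      | zero => intro _; simpa using h1
      | succ k ih =>
        intro hk
        obtain ⟨i1, i2⟩ := ih (by omega)
        have hu := h.right2 (x := x + k) (y := y) (by rw [abs_le]; omega) (by rw [abs_le]; omega)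
          (by rw [abs_le]; omega) (by rw [abs_le]; omega) i1
        have hs := (h.st (x + k) y (by rw [abs_le]; omega) (by rw [abs_le]; omega)).2.1
        unfold fA at hs
        push_cast
        rw [show x + ((k : ℤ) + 1) = x + k + 1 by ring,
          show (a + 1) * ((k : ℤ) + 1) = (a + 1) * k + (a + 1) by ring]
        omega
    obtain ⟨-, hL⟩ := key L le_rfl
    have p1 := hp x y (by rw [abs_le]; omega) (by rw [abs_le]; omega)
    have p2 := hp (x + L) y (by rw [abs_le]; omega) (by rw [abs_le]; omega)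
    rw [hL] at p2
    rw [abs_le] at p1 p2
    push_cast at p2
    nlinarith [p1.1, p1.2, p2.1, p2.2]
  -- the colour of the centre is not 3
  have n3 : ¬ w x0 y0 % 4 = 3 := by
    intro h1
    have key : ∀ k : ℕ, k ≤ L → w (x0 + k) y0 % 4 = 3 ∧
        w (x0 + k) y0 = w x0 y0 + 4 * ((a + 1) * k) := by
      intro k
      induction k with
      | zero => intro _; simpa using h1
      | succ k ih =>
        intro hk
        obtain ⟨i1, i2⟩ := ih (by omega)
        have hv := h.hor (x0 + k) y0 (by rw [abs_le]; omega) (by rw [abs_le]; omega)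
          (by rw [abs_le]; omega)
        have m1 := n1 (x0 + k + 1) y0 (by rw [abs_le]; omega) (by rw [abs_le]; omega)
        have m2 := n2 (x0 + k + 1) y0 (by rw [abs_le]; omega) (by rw [abs_le]; omega)
        have hs := (h.st (x0 + k) y0 (by rw [abs_le]; omega) (by rw [abs_le]; omega)).2.1
        unfold fA at hs
        push_cast
        rw [show x0 + ((k : ℤ) + 1) = x0 + k + 1 by ring,
          show (a + 1) * ((k : ℤ) + 1) = (a + 1) * k + (a + 1) by ring]
        omega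
    obtain ⟨-, hL⟩ := key L le_rfl
    have p1 := hp x0 y0 (by rw [abs_le]; omega) (by rw [abs_le]; omega)
    have p2 := hp (x0 + L) y0 (by rw [abs_le]; omega) (by rw [abs_le]; omega)
    rw [hL] at p2
    rw [abs_le] at p1 p2
    push_cast at p2
    nlinarith [p1.1, p1.2, p2.1, p2.2]
  have m1 := n1 x0 y0 (by simp) (by simp)
  have m2 := n2 x0 y0 (by simp) (by simp)
  omega

theorem rotc_plane {x0 y0 M : ℤ} {p q : ℤ} {D t : ℝ}
    (hp : ∀ x y : ℤ, |x - x0| ≤ M → |y - y0| ≤ M →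
      |(w x y : ℝ) - (4 * (p * x + q * y) + t)| ≤ D) :
    ∀ x y : ℤ, |x - y0| ≤ M → |y - -x0| ≤ M →
      |(rotc w x y : ℝ) - (4 * ((q : ℤ) * x + (-p : ℤ) * y) + (t + 1))| ≤ D := by
  intro x y hx hy
  have := hp (-y) x (by rw [show (-y) - x0 = -(y - -x0) by ring, abs_neg]; exact hy) hx
  unfold rotc
  push_cast
  push_cast at this
  rw [show (w (-y) x : ℝ) + 1 - (4 * ((q : ℝ) * x + -(p : ℝ) * y) + (t + 1)) =
    (w (-y) x : ℝ) - (4 * ((p : ℝ) * -y + q * x) + t) by ring]
  exact this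

/-- Box lemma for the plane of residue 3. -/
theorem BoxHyp.three {x0 y0 : ℤ} {L : ℕ} (h : BoxHyp w a b x0 y0 (2 * L + 1)) {D t : ℝ}
    (hD : D < 2 * L)
    (hp : ∀ x y : ℤ, |x - x0| ≤ 2 * L + 1 → |y - y0| ≤ 2 * L + 1 →
      |(w x y : ℝ) - (4 * ((a + 1 : ℤ) * x + (b : ℤ) * y) + t)| ≤ D) : w x0 y0 % 4 = 3 := by
  have h1 := h.rot.zero (D := D) (t := t + 1) hD (by
    have := rotc_plane hp
    intro x y hx hy
    have := this x y hx hy
    rw [show -(a + 1) = -1 - a by ring] at this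
    exact this)
  unfold rotc at h1
  rw [neg_neg] at h1
  omega

/-- Box lemma for the plane of residue 2. -/
theorem BoxHyp.two {x0 y0 : ℤ} {L : ℕ} (h : BoxHyp w a b x0 y0 (2 * L + 1)) {D t : ℝ}
    (hD : D < 2 * L)
    (hp : ∀ x y : ℤ, |x - x0| ≤ 2 * L + 1 → |y - y0| ≤ 2 * L + 1 →
      |(w x y : ℝ) - (4 * ((a + 1 : ℤ) * x + (b + 1 : ℤ) * y) + t)| ≤ D) : w x0 y0 % 4 = 2 := by
  have h1 := h.rot.three (D := D) (t := t + 1) hD (by
    have := rotc_plane hp
    intro x y hx hy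
    have := this x y hx hy
    rw [show -(a + 1) = -1 - a by ring] at this
    exact this)
  unfold rotc at h1
  rw [neg_neg] at h1
  omega

/-- Box lemma for the plane of residue 1. -/
theorem BoxHyp.one {x0 y0 : ℤ} {L : ℕ} (h : BoxHyp w a b x0 y0 (2 * L + 1)) {D t : ℝ}
    (hD : D < 2 * L)
    (hp : ∀ x y : ℤ, |x - x0| ≤ 2 * L + 1 → |y - y0| ≤ 2 * L + 1 →
      |(w x y : ℝ) - (4 * ((a : ℤ) * x + (b + 1 : ℤ) * y) + t)| ≤ D) : w x0 y0 % 4 = 1 := by
  have h1 := h.rot.two (D := D) (t := t + 1) hD (by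
    have := rotc_plane hp
    intro x y hx hy
    have := this x y hx hy
    rw [show -a = -1 - a + 1 by ring] at this
    exact this)
  unfold rotc at h1
  rw [neg_neg] at h1
  omega

end RotorNE
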