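import Mathlib.Tactic
import Mathlib.Data.Nat.Nth
import Mathlib.Data.Int.Interval
import Mathlib.Data.Int.ConditionallyCompleteOrder
import Mathlib.Data.Int.Star
import Mathlib.Algebra.Order.Star.Real
import Mathlib.Analysis.SpecialFunctions.Integrals.Basic
import Mathlib.Analysis.Fourier.RiemannLebesgueLemma
import Mathlib.Analysis.SpecificLimits.Basic
import Mathlib.Analysis.Asymptotics.SpecificAsymptotics
import Mathlib.MeasureTheory.Integral.Prod
import Mathlib.MeasureTheory.Measure.Lebesgue.Basic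
import Pool.Agent.Lib.MP_936783_pr.ExBox

/-!
# Exactness III: columns, exits, anchors
-/

noncomputable section

namespace RotorNE

variable {w : ℤ → ℤ → ℤ} {a b R : ℤ} {N e : ℝ}

/-- The column `x` is generic for the four corners of `(a, b)`. -/
structure GCol (N e : ℝ) (a b x : ℤ) : Prop where
  h0 : x < -3 ∨ 3 < x
  hx : |(x : ℝ)| ≤ N / 4 - e - 3
  g : ∀ a' b' : ℤ, (a' = a - 1 ∨ a' = a ∨ a' = a + 1) → (b' = b ∨ b' = b + 1) →
    e + 3 < |(x : ℝ) - XX N a' b'|

theorem GCol.genX {x : ℤ} (h : GCol N e a b x) {d a' b' : ℤ} (hd : |d| ≤ 3)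
    (ha : a' = a ∨ a' = a + 1) (hb : b' = b ∨ b' = b + 1) : GenX N e a' b' (x + d) := by
  have h1 := h.g a' b' (by omega) hb
  have h2 := h.g (a' - 1) b' (by omega) hb
  have hd' : |(d : ℝ)| ≤ 3 := by exact_mod_cast hd
  have t1 := abs_sub_abs_le_abs_sub ((x : ℝ) - XX N a' b') (-(d : ℝ))
  have t2 := abs_sub_abs_le_abs_sub ((x : ℝ) - XX N (a' - 1) b') (-(d : ℝ))
  rw [abs_neg] at t1 t2
  unfold GenX
  push_cast
  rw [show (x : ℝ) + d - XX N a' b' = (x : ℝ) - XX N a' b' - -(d : ℝ) by ring,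
    show (x : ℝ) + d - XX N (a' - 1) b' = (x : ℝ) - XX N (a' - 1) b' - -(d : ℝ) by ring]
  constructor <;> linarith

theorem GCol.abs_le {x : ℤ} (h : GCol N e a b x) {d : ℤ} (hd : |d| ≤ 3) :
    |((x + d : ℤ) : ℝ)| ≤ N / 4 - e := by
  have hd' : |(d : ℝ)| ≤ 3 := by exact_mod_cast hd
  have := abs_add_le (x : ℝ) (d : ℝ)
  have := h.hx
  push_cast
  linarith

theorem okF_gen (hp : Pkg R N e w) {a' b' x y : ℤ} (ha : |a'| ≤ R) (hb : |b'| ≤ R)
    (hx : |(x : ℝ)| ≤ N / 4 - e) (hg : GenX N e a' b' x) : OkF w a' b' x y :=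
  fun hc => hp.regF a' b' x y ha hb hx hg hc

theorem okV_gen (hp : Pkg R N e w) {a' b' x y : ℤ} (ha : |a'| ≤ R) (hb : |b'| ≤ R)
    (hx : |(x : ℝ)| ≤ N / 4 - e) (hg : GenX N e a' b' x) (h0 : ¬ (x = 0 ∧ y = 0)) :
    OkV w a' b' x y := by
  constructor
  · intro hc
    obtain ⟨h1, h2, -, h4, -⟩ := hp.regP a' b' x y ha hb hx hg h0 hc
    exact ⟨h1, h2, h4⟩
  · intro hc
    obtain ⟨h1, h2, -, h4, -⟩ := hp.regM a' b' x y ha hb hx hg h0 hc
    exact ⟨h1, h2, h4⟩

theorem ok_gen (hp : Pkg R N e w) {a' b' x y : ℤ} (ha : |a'| ≤ R) (hb : |b'| ≤ R)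
    (hx : |(x : ℝ)| ≤ N / 4 - e) (hx' : |((x - 1 : ℤ) : ℝ)| ≤ N / 4 - e)
    (hg : GenX N e a' b' x) (hg' : GenX N e a' b' (x - 1)) (h0 : ¬ (x = 0 ∧ y = 0)) :
    Ok w a' b' x y :=
  ⟨okV_gen hp ha hb hx hg h0, okF_gen hp ha hb hx' hg', okF_gen hp ha hb hx hg,
    okF_gen hp ha hb hx' hg', okF_gen hp ha hb hx hg⟩

theorem GCol.ok4 {x : ℤ} (h : GCol N e a b x) (hp : Pkg R N e w) (ha : 0 ≤ a) (hb : 0 ≤ b)
    (haR : a + 1 ≤ R) (hbR : b + 1 ≤ R) {d : ℤ} (hd : |d| ≤ 2) (t : ℤ) :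
    Ok4 w a b (x + d) t := by
  have hd1 : |d| ≤ 3 := by omega
  have hd2 : |d - 1| ≤ 3 := by rw [_root_.abs_le] at hd ⊢; omega
  have h0 : ¬ (x + d = 0 ∧ t = 0) := by
    have := h.h0
    rw [_root_.abs_le] at hd
    omega
  have key : ∀ a' b' : ℤ, (a' = a ∨ a' = a + 1) → (b' = b ∨ b' = b + 1) →
      Ok w a' b' (x + d) t := by
    intro a' b' h1 h2
    refine ok_gen hp (by rw [_root_.abs_le]; omega) (by rw [_root_.abs_le]; omega) (h.abs_le hd1)
      ?_ (h.genX hd1 h1 h2) ?_ h0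
    · have := h.abs_le hd2
      rw [show x + (d - 1) = x + d - 1 by ring] at this
      exact this
    · have := h.genX hd2 h1 h2
      rw [show x + (d - 1) = x + d - 1 by ring] at this
      exact this
  exact ⟨key a b (by simp) (by simp), key (a + 1) b (by simp) (by simp),
    key a (b + 1) (by simp) (by simp), key (a + 1) (b + 1) (by simp) (by simp)⟩

theorem ok_far (hp : Pkg R N e w) {a' b' x y : ℤ} (ha : |a'| ≤ R) (hb : |b'| ≤ R)
    (hne : ¬ (a' = 0 ∧ b' = 0))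
    (hx : |(x : ℝ)| ≤ N / 4 - e) (hx' : |((x - 1 : ℤ) : ℝ)| ≤ N / 4 - e)
    (h0 : ¬ (x = 0 ∧ y = 0))
    (hf : ∀ x' y' : ℤ, x - 1 ≤ x' → x' ≤ x → y - 1 ≤ y' → y' ≤ y → ¬ Near N e a' b' x' y') :
    Ok w a' b' x y := by
  refine Ok_of_not ?_ ?_ ?_ ?_ ?_
  · rintro (hc | hc)
    · obtain ⟨h1, h2, h3, -⟩ := hp.locP a' b' x y ha hb hne hx h0 hc
      exact hf x y (by omega) le_rfl (by omega) le_rfl (Or.inl ⟨h1, h2, h3⟩)
    · obtain ⟨h1, h2, h3, -⟩ := hp.locM a' b' x y ha hb hne hx h0 hc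
      exact hf x y (by omega) le_rfl (by omega) le_rfl (Or.inr ⟨h1, h2, h3⟩)
  · exact fun hc => hf (x - 1) y le_rfl (by omega) (by omega) le_rfl
      (hp.locF a' b' _ _ ha hb hne hx' hc)
  · exact fun hc => hf x y (by omega) le_rfl (by omega) le_rfl (hp.locF a' b' _ _ ha hb hne hx hc)
  · exact fun hc => hf (x - 1) (y - 1) le_rfl (by omega) le_rfl (by omega)
      (hp.locF a' b' _ _ ha hb hne hx' hc)
  · exact fun hc => hf x (y - 1) (by omega) le_rfl le_rfl (by omega)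
      (hp.locF a' b' _ _ ha hb hne hx hc)

theorem ok_far0 (hp : Pkg R N e w) {x y : ℤ}
    (hx : |(x : ℝ)| ≤ N / 4 - e) (hx' : |((x - 1 : ℤ) : ℝ)| ≤ N / 4 - e)
    (h1 : e - N / 2 < (x : ℝ) + y - 2) (h2 : (x : ℝ) + y < N / 2 - e) :
    Ok w 0 0 x y := by
  have hx1 : ∀ x' y' : ℤ, x - 1 ≤ x' → x' ≤ x → y - 1 ≤ y' → y' ≤ y →
      ¬ (|(x' : ℝ) + y' + N / 2| ≤ e ∨ |(x' : ℝ) + y' - N / 2| ≤ e) := by
    intro x' y' g1 g2 g3 g4 hc
    have g1' : (x : ℝ) - 1 ≤ x' := by exact_mod_cast g1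
    have g2' : (x' : ℝ) ≤ x := by exact_mod_cast g2
    have g3' : (y : ℝ) - 1 ≤ y' := by exact_mod_cast g3
    have g4' : (y' : ℝ) ≤ y := by exact_mod_cast g4
    rw [abs_le, abs_le] at hc
    rcases hc with hc | hc <;> linarith [hc.1, hc.2]
  refine Ok_of_not ?_ ?_ ?_ ?_ ?_
  · exact fun hc => hx1 x y (by omega) le_rfl (by omega) le_rfl (hp.loc0V x y hx hc)
  · exact fun hc => hx1 (x - 1) y le_rfl (by omega) (by omega) le_rfl (hp.loc0F _ _ hx' hc)
  · exact fun hc => hx1 x y (by omega) le_rfl (by omega) le_rfl (hp.loc0F _ _ hx hc)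
  · exact fun hc => hx1 (x - 1) (y - 1) le_rfl (by omega) le_rfl (by omega)
      (hp.loc0F _ _ hx' hc)
  · exact fun hc => hx1 x (y - 1) (by omega) le_rfl le_rfl (by omega) (hp.loc0F _ _ hx hc)

/-! ### Descending and ascending -/

theorem descend (h : Base w) {x y0 y1 : ℤ} (hs : St w a b x y0)
    (hc : ∀ t, y1 ≤ t → t < y0 → ¬ (x = 0 ∧ t = 0) ∧ Ok4 w a b x t ∧
      ¬ NV w (a + 1) (b + 1) x t ∧ ¬ SV w (a + 1) b x t ∧ ¬ WR w a b x t ∧
      ¬ ER w (a + 1) b x t) : ∀ t, y1 ≤ t → t ≤ y0 → St w a b x t := by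
  have key : ∀ k : ℕ, y1 ≤ y0 - k → St w a b x (y0 - k) := by
    intro k
    induction k with
    | zero => intro _; simpa using hs
    | succ k ih =>
      intro hk
      push_cast at hk ⊢
      have hs' := ih (by omega)
      obtain ⟨c1, c2, c3, c4, c5, c6⟩ := hc (y0 - k - 1) (by omega) (by omega)
      rw [show y0 - ((k : ℤ) + 1) = y0 - k - 1 by ring]
      rcases down_step h hs' c1 c2 with g | g | g | g | g
      · exact g
      · exact absurd g c3
      · exact absurd g c4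
      · exact absurd g c5
      · exact absurd g c6
  intro t h1 h2
  have := key (y0 - t).toNat (by omega)
  rwa [show y0 - ((y0 - t).toNat : ℤ) = t by omega] at this

theorem ascend (h : Base w) {x y0 y1 : ℤ} (hs : St w a b x y0)
    (hc : ∀ t, y0 ≤ t → t < y1 → ¬ (x = 0 ∧ t + 1 = 0) ∧ Ok4 w a b x (t + 1) ∧
      ¬ NV w a b x (t + 1) ∧ ¬ SV w a (b + 1) x (t + 1) ∧ ¬ WR w (a + 1) b x t ∧
      ¬ ER w a b x t) : ∀ t, y0 ≤ t → t ≤ y1 → St w a b x t := by
  have key : ∀ k : ℕ, y0 + k ≤ y1 → St w a b x (y0 + k) := by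
    intro k
    induction k with
    | zero => intro _; simpa using hs
    | succ k ih =>
      intro hk
      push_cast at hk ⊢
      have hs' := ih (by omega)
      obtain ⟨c1, c2, c3, c4, c5, c6⟩ := hc (y0 + k) (by omega) (by omega)
      rw [show y0 + ((k : ℤ) + 1) = y0 + k + 1 by ring]
      rcases up_step h hs' c1 c2 with g | g | g | g | g
      · exact g
      · exact absurd g c3
      · exact absurd g c4
      · exact absurd g c5
      · exact absurd g c6
  intro t h1 h2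
  have := key (t - y0).toNat (by omega)
  rwa [show y0 + ((t - y0).toNat : ℤ) = t by omega] at this

/-- Exit downwards through a clean west run. -/
theorem exit_down (h : Base w) {x y0 : ℤ} (hs : St w a b x y0)
    (hc : ∀ t, t < y0 → ¬ (x = 0 ∧ t = 0) ∧ Ok4 w a b x t ∧
      ¬ NV w (a + 1) (b + 1) x t ∧ ¬ SV w (a + 1) b x t ∧ ¬ ER w (a + 1) b x t) :
    (∃ t, t < y0 ∧ WR w a b x t ∧ ∀ s, t < s → s ≤ y0 → St w a b x s) ∨
      (∀ s, s ≤ y0 → St w a b x s) := by
  classical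
  by_cases hall : ∀ k : ℕ, St w a b x (y0 - k)
  · right
    intro s hs'
    have := hall (y0 - s).toNat
    rwa [show y0 - ((y0 - s).toNat : ℤ) = s by omega] at this
  · left
    push Not at hall
    set k := Nat.find hall with hk
    have hk1 := Nat.find_spec hall
    rw [← hk] at hk1
    have hk2 : ∀ j, j < k → St w a b x (y0 - j) := fun j hj => by
      by_contra hcon
      exact Nat.find_min hall hj hcon
    have hk0 : 0 < k := by
      rcases Nat.eq_zero_or_pos k with h0 | h0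
      · rw [h0] at hk1
        exact absurd (by simpa using hs) hk1
      · exact h0
    obtain ⟨j, hj⟩ : ∃ j, k = j + 1 := ⟨k - 1, by omega⟩
    have hs' := hk2 j (by omega)
    obtain ⟨c1, c2, c3, c4, c6⟩ := hc (y0 - j - 1) (by omega)
    rw [hj] at hk1
    push_cast at hk1
    rw [show y0 - ((j : ℤ) + 1) = y0 - j - 1 by ring] at hk1
    refine ⟨y0 - j - 1, by omega, ?_, ?_⟩
    · rcases down_step h hs' c1 c2 with g | g | g | g | g
      · exact absurd g hk1
      · exact absurd g c3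
      · exact absurd g c4
      · exact g
      · exact absurd g c6
    · intro s h1 h2
      have := hk2 (y0 - s).toNat (by omega)
      rwa [show y0 - ((y0 - s).toNat : ℤ) = s by omega] at this

/-- Exit upwards through a clean west run. -/
theorem exit_up (h : Base w) {x y0 : ℤ} (hs : St w a b x y0)
    (hc : ∀ t, y0 ≤ t → ¬ (x = 0 ∧ t + 1 = 0) ∧ Ok4 w a b x (t + 1) ∧
      ¬ NV w a b x (t + 1) ∧ ¬ SV w a (b + 1) x (t + 1) ∧ ¬ ER w a b x t) :
    (∃ t, y0 ≤ t ∧ WR w (a + 1) b x t ∧ ∀ s, y0 ≤ s → s ≤ t → St w a b x s) ∨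
      (∀ s, y0 ≤ s → St w a b x s) := by
  classical
  by_cases hall : ∀ k : ℕ, St w a b x (y0 + k)
  · right
    intro s hs'
    have := hall (s - y0).toNat
    rwa [show y0 + ((s - y0).toNat : ℤ) = s by omega] at this
  · left
    push Not at hall
    set k := Nat.find hall with hk
    have hk1 := Nat.find_spec hall
    rw [← hk] at hk1
    have hk2 : ∀ j, j < k → St w a b x (y0 + j) := fun j hj => by
      by_contra hcon
      exact Nat.find_min hall hj hcon
    have hk0 : 0 < k := by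
      rcases Nat.eq_zero_or_pos k with h0 | h0
      · rw [h0] at hk1
        exact absurd (by simpa using hs) hk1
      · exact h0
    obtain ⟨j, hj⟩ : ∃ j, k = j + 1 := ⟨k - 1, by omega⟩
    have hs' := hk2 j (by omega)
    obtain ⟨c1, c2, c3, c4, c6⟩ := hc (y0 + j) (by omega)
    rw [hj] at hk1
    push_cast at hk1
    rw [show y0 + ((j : ℤ) + 1) = y0 + j + 1 by ring] at hk1
    refine ⟨y0 + j, by omega, ?_, ?_⟩
    · rcases up_step h hs' c1 c2 with g | g | g | g | g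
      · exact absurd g hk1
      · exact absurd g c3
      · exact absurd g c4
      · exact g
      · exact absurd g c6
    · intro s h1 h2
      have := hk2 (s - y0).toNat (by omega)
      rwa [show y0 + ((s - y0).toNat : ℤ) = s by omega] at this

end RotorNE
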