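import Mathlib.Tactic
import Mathlib.Data.Nat.Nth
import Mathlib.Data.Int.Interval
import Mathlib.Data.Int.ConditionallyCompleteOrder
import Mathlib.Data.Int.Star
import Mathlib.Algebra.Order.Star.Real
import Mathlib.Analysis.SpecialFunctions.Integrals.Basic
import Mathlib.Analysis.Fourier.RiemannLebesgueLemma
import Mathlib.Analysis.SpecificLimits.Basic
import Mathlib.Analysis.Asymptotics.SpecificAsymptotics
import Mathlib.MeasureTheory.Integral.Prod
import Mathlib.MeasureTheory.Measure.Lebesgue.Basic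
import Pool.Agent.Lib.MP_936783_pr.ExCtx

/-!
# Exactness IV: anchors on chains and extension of clean runs
-/

namespace RotorNE

variable {w : ℤ → ℤ → ℤ} {a b x y : ℤ}

theorem anchor0 (h : Base w) (h0 : ¬ (x = 0 ∧ y - 1 = 0)) (hv : VP (fA w) (fB w) a b x y)
    (hok : OkV w a b x y) (h1 : ¬ VM (fA w) (fB w) a b x (y - 1))
    (h2 : ¬ VP (fA w) (fB w) (a + 1) (b + 1) x (y - 1)) : St w a b x (y - 1) := by
  obtain ⟨⟨n1, n2, n3, n4⟩, -, ⟨f1, f2, f3, f4⟩⟩ := hok.1 hv
  have hd := h.div h0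
  rw [sub_add_cancel] at f1 f4
  unfold VM at h1
  unfold VP at h2
  unfold St
  rcases lt_trichotomy (fA w x (y - 1)) a with g | g | g
  · exact absurd ⟨g, by omega, by omega, by omega⟩ h1
  · omega
  · exact absurd ⟨by omega, by omega, by omega, by omega⟩ h2

theorem anchor2 (h : Base w) (h0 : ¬ (x = 0 ∧ y + 1 = 0))
    (hv : VP (fA w) (fB w) (a + 1) (b + 1) x y)
    (hok : OkV w (a + 1) (b + 1) x y) (h1 : ¬ VP (fA w) (fB w) a b x (y + 1))
    (h2 : ¬ VM (fA w) (fB w) (a + 1) (b + 1) x (y + 1)) : St w a b x (y + 1) := by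
  obtain ⟨⟨n1, n2, n3, n4⟩, ⟨f1, f2, f3, f4⟩, -⟩ := hok.1 hv
  have hd := h.div h0
  rw [add_sub_cancel_right] at hd
  unfold VP at h1
  unfold VM at h2
  unfold St
  rw [add_sub_cancel_right] at h1 h2 ⊢
  rcases lt_trichotomy (fA w (x - 1) (y + 1)) a with g | g | g
  · exact absurd ⟨g, by omega, by omega, by omega⟩ h1
  · omega
  · exact absurd ⟨by omega, by omega, by omega, by omega⟩ h2

theorem anchor1 (h : Base w) (h0 : ¬ (x = 0 ∧ y - 1 = 0))
    (hv : VM (fA w) (fB w) a (b + 1) x y)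
    (hok : OkV w a (b + 1) x y) (h1 : ¬ VP (fA w) (fB w) a (b + 1) x (y - 1))
    (h2 : ¬ VM (fA w) (fB w) (a + 1) b x (y - 1)) : St w a b x (y - 1) := by
  obtain ⟨⟨n1, n2, n3, n4⟩, ⟨f1, f2, f3, f4⟩, -⟩ := hok.2 hv
  have hd := h.div h0
  rw [sub_add_cancel] at f1
  unfold VP at h1
  unfold VM at h2
  unfold St
  rcases lt_trichotomy (fA w (x - 1) (y - 1)) a with g | g | g
  · exact absurd ⟨g, by omega, by omega, by omega⟩ h1
  · omega
  · exact absurd ⟨by omega, by omega, by omega, by omega⟩ h2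

theorem anchor3 (h : Base w) (h0 : ¬ (x = 0 ∧ y + 1 = 0))
    (hv : VM (fA w) (fB w) (a + 1) b x y)
    (hok : OkV w (a + 1) b x y) (h1 : ¬ VP (fA w) (fB w) (a + 1) b x (y + 1))
    (h2 : ¬ VM (fA w) (fB w) a (b + 1) x (y + 1)) : St w a b x (y + 1) := by
  obtain ⟨⟨n1, n2, n3, n4⟩, -, ⟨f1, f2, f3, f4⟩⟩ := hok.2 hv
  have hd := h.div h0
  rw [add_sub_cancel_right] at hd
  rw [sub_add_cancel] at f4
  unfold VP at h1
  unfold VM at h2
  unfold St
  rw [add_sub_cancel_right] at h1 h2 ⊢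
  rcases lt_trichotomy (fA w x (y + 1)) a with g | g | g
  · exact absurd ⟨g, by omega, by omega, by omega⟩ h2
  · omega
  · exact absurd ⟨by omega, by omega, by omega, by omega⟩ h1

/-- Extension of a bottom run to the right. -/
theorem botR (h : Base w) (h0 : ¬ (x + 1 = 0 ∧ y = 0)) (h0' : ¬ (x + 1 = 0 ∧ y + 1 = 0))
    (hs : St w a b x (y + 1)) (hr : WR w a b x y)
    (k1 : ¬ VP (fA w) (fB w) (a + 1) b (x + 1) (y + 1))
    (k2 : ¬ VM (fA w) (fB w) a (b + 1) (x + 1) (y + 1))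
    (k3 : ¬ VP (fA w) (fB w) a (b + 1) (x + 1) y)
    (k4 : ¬ WN (fA w) (fB w) a (b + 1) (x + 1) y) :
    St w a b (x + 1) (y + 1) ∧ WR w a b (x + 1) y := by
  obtain ⟨s1, s2, s3, s4⟩ := hs
  obtain ⟨r1, r2, r3, r4, r5, r6, r7⟩ := hr
  have hd := h.div h0
  have hd' := h.div h0'
  have hc := curl_ge w (x + 1) y
  unfold VP at k1 k3
  unfold VM at k2
  unfold WN at k4
  unfold St WR
  simp only [add_sub_cancel_right] at *
  have e1 : fA w (x + 1) (y + 1) = a := by
    rcases lt_trichotomy (fA w (x + 1) (y + 1)) a with g | g | g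
    · exact absurd ⟨g, by omega, by omega, by omega⟩ k2
    · exact g
    · exact absurd ⟨by omega, by omega, by omega, by omega⟩ k1
  have e2 : fA w (x + 1) y < a := by
    by_contra g
    exact k3 ⟨by omega, by omega, by omega, by omega⟩
  have e3 : fB w (x + 1 + 1) y = b := by
    by_contra g
    exact k4 ⟨by omega, by omega, by omega, by omega⟩
  omega

/-- Extension of a bottom run to the left. -/
theorem botL (h : Base w) (h0 : ¬ (x - 1 = 0 ∧ y = 0)) (h0' : ¬ (x - 1 = 0 ∧ y + 1 = 0))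
    (hs : St w a b x (y + 1)) (hr : WR w a b x y)
    (k1 : ¬ VP (fA w) (fB w) a b (x - 1) (y + 1))
    (k2 : ¬ VM (fA w) (fB w) (a + 1) (b + 1) (x - 1) (y + 1))
    (k3 : ¬ VM (fA w) (fB w) a b (x - 1) y)
    (k4 : ¬ WN (fA w) (fB w) a b (x - 1 - 1) y) :
    St w a b (x - 1) (y + 1) ∧ WR w a b (x - 1) y := by
  obtain ⟨s1, s2, s3, s4⟩ := hs
  obtain ⟨r1, r2, r3, r4, r5, r6, r7⟩ := hr
  have hd := h.div h0
  have hd' := h.div h0'
  have hc := curl_ge w (x - 1 - 1) y
  unfold VP at k1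
  unfold VM at k2 k3
  unfold WN at k4
  unfold St WR
  simp only [add_sub_cancel_right, sub_add_cancel] at *
  have e1 : fA w (x - 1 - 1) (y + 1) = a := by
    rcases lt_trichotomy (fA w (x - 1 - 1) (y + 1)) a with g | g | g
    · exact absurd ⟨g, by omega, by omega, by omega⟩ k1
    · exact g
    · exact absurd ⟨by omega, by omega, by omega, by omega⟩ k2
  have e2 : fA w (x - 1 - 1) y < a := by
    by_contra g
    exact k3 ⟨by omega, by omega, by omega, by omega⟩
  have e3 : fB w (x - 1 - 1) y = b := by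
    by_contra g
    exact k4 ⟨by omega, by omega, by omega, by omega⟩
  omega

/-- Extension of a top run to the right. -/
theorem topR (h : Base w) (h0 : ¬ (x + 1 = 0 ∧ y = 0)) (h0' : ¬ (x + 1 = 0 ∧ y + 1 = 0))
    (hs : St w a b x y) (hr : WR w (a + 1) b x y)
    (k1 : ¬ VP (fA w) (fB w) (a + 1) (b + 1) (x + 1) y)
    (k2 : ¬ VM (fA w) (fB w) a b (x + 1) y)
    (k3 : ¬ VM (fA w) (fB w) (a + 1) (b + 1) (x + 1) (y + 1))
    (k4 : ¬ WN (fA w) (fB w) (a + 1) (b + 1) (x + 1) y) :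
    St w a b (x + 1) y ∧ WR w (a + 1) b (x + 1) y := by
  obtain ⟨s1, s2, s3, s4⟩ := hs
  obtain ⟨r1, r2, r3, r4, r5, r6, r7⟩ := hr
  have hd := h.div h0
  have hd' := h.div h0'
  have hc := curl_ge w (x + 1) y
  unfold VP at k1
  unfold VM at k2 k3
  unfold WN at k4
  unfold St WR
  simp only [add_sub_cancel_right] at *
  have e1 : fA w (x + 1) y = a := by
    rcases lt_trichotomy (fA w (x + 1) y) a with g | g | g
    · exact absurd ⟨g, by omega, by omega, by omega⟩ k2
    · exact g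
    · exact absurd ⟨by omega, by omega, by omega, by omega⟩ k1
  have e2 : a + 1 ≤ fA w (x + 1) (y + 1) := by
    by_contra g
    exact k3 ⟨by omega, by omega, by omega, by omega⟩
  have e3 : fB w (x + 1 + 1) y = b := by
    by_contra g
    exact k4 ⟨by omega, by omega, by omega, by omega⟩
  omega

/-- Extension of a top run to the left. -/
theorem topL (h : Base w) (h0 : ¬ (x - 1 = 0 ∧ y = 0)) (h0' : ¬ (x - 1 = 0 ∧ y + 1 = 0))
    (hs : St w a b x y) (hr : WR w (a + 1) b x y)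
    (k1 : ¬ VP (fA w) (fB w) a (b + 1) (x - 1) y)
    (k2 : ¬ VM (fA w) (fB w) (a + 1) b (x - 1) y)
    (k3 : ¬ VP (fA w) (fB w) (a + 1) b (x - 1) (y + 1))
    (k4 : ¬ WN (fA w) (fB w) (a + 1) b (x - 1 - 1) y) :
    St w a b (x - 1) y ∧ WR w (a + 1) b (x - 1) y := by
  obtain ⟨s1, s2, s3, s4⟩ := hs
  obtain ⟨r1, r2, r3, r4, r5, r6, r7⟩ := hr
  have hd := h.div h0
  have hd' := h.div h0'
  have hc := curl_ge w (x - 1 - 1) y
  unfold VP at k1 k3
  unfold VM at k2
  unfold WN at k4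
  unfold St WR
  simp only [add_sub_cancel_right, sub_add_cancel] at *
  have e1 : fA w (x - 1 - 1) y = a := by
    rcases lt_trichotomy (fA w (x - 1 - 1) y) a with g | g | g
    · exact absurd ⟨g, by omega, by omega, by omega⟩ k1
    · exact g
    · exact absurd ⟨by omega, by omega, by omega, by omega⟩ k2
  have e2 : a + 1 ≤ fA w (x - 1 - 1) (y + 1) := by
    by_contra g
    exact k3 ⟨by omega, by omega, by omega, by omega⟩
  have e3 : fB w (x - 1 - 1) y = b := by
    by_contra g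
    exact k4 ⟨by omega, by omega, by omega, by omega⟩
  omega

end RotorNE
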