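import Mathlib.Tactic
import Mathlib.Data.Nat.Nth
import Mathlib.Data.Int.Interval
import Mathlib.Data.Int.ConditionallyCompleteOrder
import Mathlib.Data.Int.Star
import Mathlib.Algebra.Order.Star.Real
import Mathlib.Analysis.SpecialFunctions.Integrals.Basic
import Mathlib.Analysis.Fourier.RiemannLebesgueLemma
import Mathlib.Analysis.SpecificLimits.Basic
import Mathlib.Analysis.Asymptotics.SpecificAsymptotics
import Mathlib.MeasureTheory.Integral.Prod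
import Mathlib.MeasureTheory.Measure.Lebesgue.Basic
import Pool.Agent.Lib.MP_936783_pr.ExAnchor

/-!
# Exactness V: the maximum of two planes
-/

namespace RotorNE

/-- The maximum of the planes of residues 0 and 2 with constant flux `(a, b)`. -/
def Gmax (a b t0 t2 : ℤ) : ℤ → ℤ → ℤ :=
  fun x y => max (4 * (a * x + b * y + t0)) (4 * ((a + 1) * x + (b + 1) * y + t2) + 2)

theorem FZ_Gmax (a b t0 t2 x y : ℤ) : FZ (Gmax a b t0 t2) x y ≤ Gmax a b t0 t2 x y := by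
  unfold FZ Gmax
  set p := a * x + b * y + t0 with hp
  set q := (a + 1) * x + (b + 1) * y + t2 with hq
  rw [show a * x + b * (y - 1) + t0 = p - b by rw [hp]; ring,
    show (a + 1) * x + (b + 1) * (y - 1) + t2 = q - b - 1 by rw [hq]; ring,
    show a * (x - 1) + b * y + t0 = p - a by rw [hp]; ring,
    show (a + 1) * (x - 1) + (b + 1) * y + t2 = q - a - 1 by rw [hq]; ring,
    show a * x + b * (y + 1) + t0 = p + b by rw [hp]; ring,
    show (a + 1) * x + (b + 1) * (y + 1) + t2 = q + b + 1 by rw [hq]; ring,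
    show a * (x + 1) + b * y + t0 = p + a by rw [hp]; ring,
    show (a + 1) * (x + 1) + (b + 1) * y + t2 = q + a + 1 by rw [hq]; ring]
  clear_value p q
  simp only [max_def]
  split_ifs <;> omega

/-- Comparison on a rectangle avoiding the origin. -/
theorem cmp_rect {w : ℤ → ℤ → ℤ} (h : Base w) {a b t0 t2 x1 x2 y1 y2 : ℤ}
    (h0 : ¬ (x1 ≤ 0 ∧ 0 ≤ x2 ∧ y1 ≤ 0 ∧ 0 ≤ y2))
    (h3 : ∀ x y, x1 ≤ x → x ≤ x2 → y1 ≤ y → y ≤ y2 → 3 ≤ Gmax a b t0 t2 x y)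
    (hb : ∀ x y, x1 ≤ x → x ≤ x2 → y1 ≤ y → y ≤ y2 → (x = x1 ∨ x = x2 ∨ y = y1 ∨ y = y2) →
      w x y ≤ Gmax a b t0 t2 x y) :
    ∀ x y, x1 ≤ x → x ≤ x2 → y1 ≤ y → y ≤ y2 → w x y ≤ Gmax a b t0 t2 x y := by
  have := h.cmp (fun x y => x1 ≤ x ∧ x ≤ x2 ∧ y1 ≤ y ∧ y ≤ y2) (Gmax a b t0 t2) h0
    (fun x y hxy => h3 x y hxy.1 hxy.2.1 hxy.2.2.1 hxy.2.2.2)
    (fun x y _ _ => FZ_Gmax a b t0 t2 x y) (by
      rintro x y ⟨g1, g2, g3, g4⟩ hlt
      have hne : ¬ (x = x1 ∨ x = x2 ∨ y = y1 ∨ y = y2) :=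
        fun hc => absurd (hb x y g1 g2 g3 g4 hc) (not_le.2 hlt)
      refine ⟨Or.inl ⟨g1, g2, ?_, ?_⟩, Or.inl ⟨?_, ?_, g3, g4⟩, Or.inl ⟨g1, g2, ?_, ?_⟩,
        Or.inl ⟨?_, ?_, g3, g4⟩⟩ <;> omega)
  exact fun x y g1 g2 g3 g4 => this x y ⟨g1, g2, g3, g4⟩

end RotorNE
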