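import Mathlib.Tactic
import Mathlib.Data.Nat.Nth
import Mathlib.Data.Int.Interval
import Mathlib.Data.Int.ConditionallyCompleteOrder
import Mathlib.Data.Int.Star
import Mathlib.Algebra.Order.Star.Real
import Mathlib.Analysis.SpecialFunctions.Integrals.Basic
import Mathlib.Analysis.Fourier.RiemannLebesgueLemma
import Mathlib.Analysis.SpecificLimits.Basic
import Mathlib.Analysis.Asymptotics.SpecificAsymptotics
import Mathlib.MeasureTheory.Integral.Prod
import Mathlib.MeasureTheory.Measure.Lebesgue.Basic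
import Pool.Agent.Lib.MP_936783_pr.ExMax

/-!
# Exactness VI: the tiles in the first quadrant of fluxes
-/

noncomputable section

namespace RotorNE

open Kernel

variable {w : ℤ → ℤ → ℤ} {a b R : ℤ} {N e : ℝ}

/-- The setting. -/
structure Ctx (R : ℤ) (N e : ℝ) (w : ℤ → ℤ → ℤ) (a b : ℤ) : Prop where
  pkg : Pkg R N e w
  base : Base w
  ha : 0 ≤ a
  hb : 0 ≤ b
  haR : a + 1 ≤ R
  hbR : b + 1 ≤ R
  he : 8 ≤ e
  hN : 0 < N
  gap : 40 * e < XX N a (b + 1) - XX N a b

theorem XX_mem (hN : 0 ≤ N) (a b : ℤ) : -(N / 4) ≤ XX N a b ∧ XX N a b ≤ N / 4 := by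
  have h := xi_mem a b
  unfold XX
  constructor <;> nlinarith [h.1, h.2]

theorem YY_mem (hN : 0 ≤ N) (a b : ℤ) : -(N / 4) ≤ YY N a b ∧ YY N a b ≤ N / 4 := by
  have h := eta_mem a b
  unfold YY
  constructor <;> nlinarith [h.1, h.2]

theorem Ctx.sqF (_c : Ctx R N e w a b) :
    YY N (a + 1) b - YY N a b = XX N a (b + 1) - XX N a b := by
  have h1 := xi_up a b
  have h2 := eta_up a b
  unfold XX YY
  rw [← mul_sub, ← mul_sub, h1, h2]

theorem Ctx.r1 (c : Ctx R N e w a b) :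
    YY N a (b + 1) + (XX N a (b + 1) - XX N (a - 1) (b + 1)) = YY N a b := by
  have hb := c.hb
  have h1 := xi_sub a (b + 1)
  have h2 := eta_sub (a := a) (b := b + 1) (by omega)
  rw [add_sub_cancel_right] at h2
  unfold XX YY
  rw [← mul_sub, h1, ← h2]
  ring

theorem Ctx.r2 (c : Ctx R N e w a b) :
    YY N (a + 1) (b + 1) + (XX N (a + 1) (b + 1) - XX N a (b + 1)) = YY N (a + 1) b := by
  have hb := c.hb
  have h1 := xi_sub (a + 1) (b + 1)
  have h2 := eta_sub (a := a + 1) (b := b + 1) (by omega)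
  rw [add_sub_cancel_right] at h1 h2
  unfold XX YY
  rw [← mul_sub, h1, ← h2]
  ring

theorem XX_le (hN : 0 ≤ N) {a b : ℤ} (h : |b| ≤ |a|) (h0 : ¬ (a = 0 ∧ b = 0)) :
    XX N (a - 1) b ≤ XX N a b := mul_le_mul_of_nonneg_left (xi_le h h0) hN

theorem XX_ge (hN : 0 ≤ N) {a b : ℤ} (h : |a| ≤ |b|) :
    XX N a b ≤ XX N (a - 1) b := mul_le_mul_of_nonneg_left (xi_ge h) hN

/-- Relations if `b < a`. -/
theorem Ctx.caseA (c : Ctx R N e w a b) (h : b < a) :
    XX N (a - 1) b ≤ XX N a b ∧ XX N a b ≤ XX N (a + 1) b ∧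
      XX N (a - 1) (b + 1) ≤ XX N a (b + 1) ∧ XX N a (b + 1) ≤ XX N (a + 1) (b + 1) := by
  have ha := c.ha
  have hb := c.hb
  have hN := c.hN.le
  refine ⟨XX_le hN ?_ (by omega), ?_, XX_le hN ?_ (by omega), ?_⟩
  · rw [abs_of_nonneg ha, abs_of_nonneg hb]; omega
  · have := XX_le (N := N) hN (a := a + 1) (b := b)
      (by rw [abs_of_nonneg (by omega : (0 : ℤ) ≤ a + 1), abs_of_nonneg hb]; omega) (by omega)
    rwa [add_sub_cancel_right] at this
  · rw [abs_of_nonneg ha, abs_of_nonneg (by omega : (0 : ℤ) ≤ b + 1)]; omega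
  · have := XX_le (N := N) hN (a := a + 1) (b := b + 1)
      (by rw [abs_of_nonneg (by omega : (0 : ℤ) ≤ a + 1),
        abs_of_nonneg (by omega : (0 : ℤ) ≤ b + 1)]; omega) (by omega)
    rwa [add_sub_cancel_right] at this

/-- Relations if `a ≤ b`. -/
theorem Ctx.caseB (c : Ctx R N e w a b) (h : a ≤ b) :
    XX N a b ≤ XX N (a - 1) b ∧ XX N (a + 1) b ≤ XX N a (b + 1) ∧
      XX N a (b + 1) ≤ XX N (a - 1) (b + 1) ∧ XX N (a + 1) (b + 1) ≤ XX N a (b + 1) := by
  have ha := c.ha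
  have hb := c.hb
  have hN := c.hN.le
  have h4 : XX N (a + 1) (b + 1) ≤ XX N a (b + 1) := by
    have := XX_ge (N := N) hN (a := a + 1) (b := b + 1)
      (by rw [abs_of_nonneg (by omega : (0 : ℤ) ≤ a + 1),
        abs_of_nonneg (by omega : (0 : ℤ) ≤ b + 1)]; omega)
    rwa [add_sub_cancel_right] at this
  refine ⟨XX_ge hN ?_, ?_, XX_ge hN ?_, h4⟩
  · rw [abs_of_nonneg ha, abs_of_nonneg hb]; omega
  · refine le_trans ?_ h4
    have h1 := xi_up (a + 1) b
    have h2 := D_lt (a + 1) b (by omega) hb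
    exact mul_le_mul_of_nonneg_left (by linarith) hN
  · rw [abs_of_nonneg ha, abs_of_nonneg (by omega : (0 : ℤ) ≤ b + 1)]; omega

/-- `XX` increases with `b`. -/
theorem Ctx.up (c : Ctx R N e w a b) : XX N (a + 1) b ≤ XX N (a + 1) (b + 1) ∧
    (1 ≤ a → XX N (a - 1) b ≤ XX N (a - 1) (b + 1)) := by
  have ha := c.ha
  have hb := c.hb
  have hN := c.hN.le
  constructor
  · have h1 := xi_up (a + 1) b
    have h2 := D_lt (a + 1) b (by omega) hb
    exact mul_le_mul_of_nonneg_left (by linarith) hN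
  · intro h
    have h1 := xi_up (a - 1) b
    have h2 := D_lt (a - 1) b (by omega) hb
    exact mul_le_mul_of_nonneg_left (by linarith) hN

theorem ok_far' (hp : Pkg R N e w) {a' b' x y : ℤ} (ha : |a'| ≤ R) (hb : |b'| ≤ R)
    (hne : ¬ (a' = 0 ∧ b' = 0)) (hx : |(x : ℝ)| ≤ N / 4 - e - 1) (h0 : ¬ (x = 0 ∧ y = 0))
    (hf : ∀ x' y' : ℝ, (x : ℝ) - 1 ≤ x' → x' ≤ x → (y : ℝ) - 1 ≤ y' → y' ≤ y →
      ¬ ((XX N (a' - 1) b' - e ≤ x' ∧ x' ≤ XX N a' b' + e ∧
          |(y' - YY N a' b') - (x' - XX N (a' - 1) b')| ≤ e) ∨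
        (XX N a' b' - e ≤ x' ∧ x' ≤ XX N (a' - 1) b' + e ∧
          |(y' - YY N a' b') + (x' - XX N a' b')| ≤ e))) :
    Ok w a' b' x y := by
  rw [abs_le] at hx
  refine ok_far hp ha hb hne (by rw [abs_le]; constructor <;> linarith [hx.1, hx.2])
    (by push_cast; rw [abs_le]; constructor <;> linarith [hx.1, hx.2]) h0 ?_
  intro x' y' h1 h2 h3 h4 hn
  exact hf x' y' (by exact_mod_cast h1) (by exact_mod_cast h2) (by exact_mod_cast h3)
    (by exact_mod_cast h4) hn

theorem ok_gen' (hp : Pkg R N e w) (he : 8 ≤ e) {a' b' x y : ℤ} (ha : |a'| ≤ R) (hb : |b'| ≤ R)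
    (hx : |(x : ℝ)| ≤ N / 4 - e - 1) (h0 : ¬ (x = 0 ∧ y = 0))
    (hg : (XX N (a' - 1) b' + 2 * e < x ∧ x < XX N a' b' - 2 * e) ∨
      (XX N a' b' + 2 * e < x ∧ x < XX N (a' - 1) b' - 2 * e)) : Ok w a' b' x y := by
  rw [abs_le] at hx
  refine ok_gen hp ha hb (by rw [abs_le]; constructor <;> linarith [hx.1, hx.2])
    (by push_cast; rw [abs_le]; constructor <;> linarith [hx.1, hx.2]) ?_ ?_ h0
  · unfold GenX
    rcases hg with hg | hg
    · constructor
      · rw [abs_sub_comm, abs_of_pos (by linarith)]; linarith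
      · rw [abs_of_pos (by linarith)]; linarith
    · constructor
      · rw [abs_of_pos (by linarith)]; linarith
      · rw [abs_sub_comm, abs_of_pos (by linarith)]; linarith
  · unfold GenX
    push_cast
    rcases hg with hg | hg
    · constructor
      · rw [abs_sub_comm, abs_of_pos (by linarith)]; linarith
      · rw [abs_of_pos (by linarith)]; linarith
    · constructor
      · rw [abs_of_pos (by linarith)]; linarith
      · rw [abs_sub_comm, abs_of_pos (by linarith)]; linarith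

theorem XX_neg (hN : 0 < N) {a b : ℤ} (ha : 0 ≤ a) : XX N a b < 0 := by
  have := A_strict_x a b ha
  unfold XX xi
  exact mul_neg_of_pos_of_neg hN (by linarith)

theorem YY_neg (hN : 0 < N) {a b : ℤ} (hb : 0 ≤ b) : YY N a b < 0 := by
  have := XX_neg hN (a := b) (b := a) hb
  unfold XX at this
  unfold YY
  rwa [eta_eq]

/-! ### Tile 0: below a NE chain of `(a, b)` -/

theorem Ctx.ok_T0 (c : Ctx R N e w a b) (hlt : b < a) {x y : ℤ}
    (h1 : XX N (a - 1) b + 4 * e < x) (h2 : x < XX N a b - 4 * e)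
    (h3 : YY N a b + 2 * e < y) : Ok4 w a b x y := by
  obtain ⟨A1, A2, A3, A4⟩ := c.caseA hlt
  have ha := c.ha
  have hb := c.hb
  have haR := c.haR
  have hbR := c.hbR
  have he := c.he
  have hg := c.gap
  have r1 := c.r1
  have m1 := XX_mem c.hN.le (a - 1) b
  have m2 := XX_neg c.hN (b := b) ha
  have hx : |(x : ℝ)| ≤ N / 4 - e - 1 := by rw [abs_le]; constructor <;> linarith [m1.1]
  have h0 : ¬ (x = 0 ∧ y = 0) := by
    rintro ⟨rfl, -⟩
    push_cast at h2
    linarith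
  refine ⟨?_, ?_, ?_, ?_⟩
  · exact ok_gen' c.pkg he (by rw [abs_le]; omega) (by rw [abs_le]; omega) hx h0
      (Or.inl ⟨by linarith, by linarith⟩)
  · refine ok_far' c.pkg (by rw [abs_le]; omega) (by rw [abs_le]; omega) (by omega) hx h0 ?_
    rintro x' y' g1 g2 g3 g4 (⟨n1, n2, n3⟩ | ⟨n1, n2, n3⟩)
    · rw [add_sub_cancel_right] at n1
      linarith
    · linarith
  · refine ok_far' c.pkg (by rw [abs_le]; omega) (by rw [abs_le]; omega) (by omega) hx h0 ?_
    rintro x' y' g1 g2 g3 g4 (⟨n1, n2, n3⟩ | ⟨n1, n2, n3⟩)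
    · rw [abs_le] at n3
      linarith [n3.1, n3.2]
    · linarith
  · refine ok_far' c.pkg (by rw [abs_le]; omega) (by rw [abs_le]; omega) (by omega) hx h0 ?_
    rintro x' y' g1 g2 g3 g4 (⟨n1, n2, n3⟩ | ⟨n1, n2, n3⟩)
    · rw [add_sub_cancel_right] at n1
      linarith
    · linarith

/-- The exclusion of the exits downwards (in the columns of `T0`, `F`, `T1`). -/
theorem Ctx.no_down (c : Ctx R N e w a b) {x t : ℤ} (hx0 : |(x : ℝ)| ≤ N / 4 - e)
    (h0 : ¬ (x = 0 ∧ t = 0)) (hx : (x : ℝ) < XX N a (b + 1) - e ∨ XX N (a + 1) (b + 1) + e < x)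
    (hx' : (x : ℝ) < XX N (a + 1) b - e ∨ XX N a b + e < x) :
    ¬ NV w (a + 1) (b + 1) x t ∧ ¬ SV w (a + 1) b x t ∧ ¬ ER w (a + 1) b x t := by
  have ha := c.ha
  have hb := c.hb
  have haR := c.haR
  have hbR := c.hbR
  have hg := c.gap
  have he := c.he
  refine ⟨?_, ?_, ?_⟩
  · rintro ⟨n1, n2, n3, n4⟩
    have := c.pkg.locP (a + 1) (b + 1) x t (by rw [abs_le]; omega) (by rw [abs_le]; omega)
      (by omega) hx0 h0 ⟨by omega, by omega, by omega, by omega⟩
    rw [add_sub_cancel_right] at this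
    rcases hx with hx | hx <;> linarith [this.1, this.2.1]
  · rintro ⟨n1, n2, n3, n4⟩
    have := c.pkg.locM (a + 1) b x t (by rw [abs_le]; omega) (by rw [abs_le]; omega)
      (by omega) hx0 h0 ⟨by omega, by omega, by omega, by omega⟩
    rw [add_sub_cancel_right] at this
    rcases hx' with hx | hx <;> linarith [this.1, this.2.1]
  · intro h
    have := c.pkg.runE (a + 1) b x t (by omega) hb haR (by omega) hx0 h
    rw [add_sub_cancel_right] at this
    have h2 := this.2.2.2 (by omega)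
    linarith [this.2.1, h2.1]

/-- The exclusion of the exits upwards (in the columns of `T2`, `F`, `T3`). -/
theorem Ctx.no_up (c : Ctx R N e w a b) {x t : ℤ} (hx0 : |(x : ℝ)| ≤ N / 4 - e)
    (h0 : ¬ (x = 0 ∧ t + 1 = 0)) (h00 : a = 0 → b = 0 → (x : ℝ) < XX N a (b + 1) - e)
    (hx : (x : ℝ) < XX N (a - 1) b - e ∨ XX N a b + e < x)
    (hx' : (x : ℝ) < XX N a (b + 1) - e ∨ XX N (a - 1) (b + 1) + e < x) :
    ¬ NV w a b x (t + 1) ∧ ¬ SV w a (b + 1) x (t + 1) ∧ ¬ ER w a b x t := by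
  have ha := c.ha
  have hb := c.hb
  have haR := c.haR
  have hbR := c.hbR
  have hg := c.gap
  have he := c.he
  refine ⟨?_, ?_, ?_⟩
  · rintro ⟨n1, n2, n3, n4⟩
    by_cases hab : a = 0 ∧ b = 0
    · obtain ⟨rfl, rfl⟩ := hab
      exact c.pkg.loc0P x (t + 1) hx0 ⟨by omega, by omega, by omega, by omega⟩
    · have := c.pkg.locP a b x (t + 1) (by rw [abs_le]; omega) (by rw [abs_le]; omega)
        hab hx0 h0 ⟨by omega, by omega, by omega, by omega⟩
      rcases hx with hx | hx <;> linarith [this.1, this.2.1]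
  · rintro ⟨n1, n2, n3, n4⟩
    have := c.pkg.locM a (b + 1) x (t + 1) (by rw [abs_le]; omega) (by rw [abs_le]; omega)
      (by omega) hx0 h0 ⟨by omega, by omega, by omega, by omega⟩
    rcases hx' with hx | hx <;> linarith [this.1, this.2.1]
  · intro h
    have := c.pkg.runE a b x t ha hb (by omega) (by omega) hx0 h
    by_cases hab : a = 0 ∧ b = 0
    · linarith [this.2.2.1, h00 hab.1 hab.2]
    · linarith [this.2.2.1, (this.2.2.2 hab).2]

/-- Growth along columns, real version. -/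
theorem col_grow {x y y' : ℤ} (hy : y ≤ y') (hB : ∀ t, y ≤ t → t < y' → fB w x t = b) :
    (w x y : ℝ) + 4 * b * (y' - y) - 3 ≤ w x y' ∧
      (w x y' : ℝ) ≤ w x y + 4 * (b + 1) * (y' - y) + 3 := by
  obtain ⟨k, rfl⟩ : ∃ k : ℕ, y' = y + k := ⟨(y' - y).toNat, by omega⟩
  obtain ⟨h1, h2⟩ := vgrow (w := w) (b := b) (x := x) (y := y) k hB
  have h1' : (4 * ((b : ℝ) * k) - 3) ≤ w x (y + k) - w x y := by exact_mod_cast h1
  have h2' : (w x (y + k) : ℝ) - w x y ≤ 4 * (((b : ℝ) + 1) * k) + 3 := by exact_mod_cast h2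
  push_cast
  constructor
  · nlinarith
  · nlinarith

theorem Ctx.T0 (c : Ctx R N e w a b) (hlt : b < a) {x y : ℤ}
    (h1 : XX N (a - 1) b + 4 * e < x) (h2 : x < XX N a b - 4 * e)
    (h3 : YY N a b + 4 * e < y) (h4 : y < YY N a b + (x - XX N (a - 1) b) - 2 * e) :
    St w a b x y ∧ (w x y : ℝ) ≤ PP N a b x y + e + 3 := by
  obtain ⟨A1, A2, A3, A4⟩ := c.caseA hlt
  have ha := c.ha
  have hb := c.hb
  have haR := c.haR
  have hbR := c.hbR
  have he := c.he
  have hg := c.gap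
  have m1 := XX_mem c.hN.le (a - 1) b
  have m2 := XX_neg c.hN (b := b) ha
  have hx : |(x : ℝ)| ≤ N / 4 - e := by rw [abs_le]; constructor <;> linarith [m1.1]
  have hx0 : x ≠ 0 := by
    rintro rfl
    push_cast at h2
    linarith
  obtain ⟨yc, hv⟩ := c.pkg.exP a b x ha hb (by omega) (by omega) (by omega) (by linarith)
    (by linarith)
  have loc := c.pkg.locP a b x yc (by rw [abs_le]; omega) (by rw [abs_le]; omega) (by omega) hx
    (by tauto) hv
  obtain ⟨l1, l2, l3, l4⟩ := loc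
  rw [abs_le] at l3 l4
  have hyc : (y : ℝ) + 1 < yc := by linarith [l3.1]
  have hyc' : y + 1 < yc := by exact_mod_cast hyc
  have hst : St w a b x (yc - 1) := by
    refine anchor0 c.base (by tauto) hv (c.ok_T0 hlt h1 h2 (by linarith)).1.1 ?_ ?_
    · intro hc
      have := c.pkg.locM a b x (yc - 1) (by rw [abs_le]; omega) (by rw [abs_le]; omega) (by omega)
        hx (by tauto) hc
      linarith [this.1]
    · intro hc
      have := c.pkg.locP (a + 1) (b + 1) x (yc - 1) (by rw [abs_le]; omega)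
        (by rw [abs_le]; omega) (by omega) hx (by tauto) hc
      rw [add_sub_cancel_right] at this
      linarith [this.1]
  have hcol : ∀ t, y ≤ t → t ≤ yc - 1 → St w a b x t := by
    refine descend c.base hst (fun t ht1 ht2 => ?_)
    have ht : (y : ℝ) ≤ t := by exact_mod_cast ht1
    obtain ⟨q1, q2, q3⟩ := c.no_down (x := x) (t := t) hx (by tauto) (Or.inl (by linarith))
      (Or.inl (by linarith))
    refine ⟨by tauto, c.ok_T0 hlt h1 h2 (by linarith), q1, q2, ?_, q3⟩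
    intro hr
    have := (c.pkg.runW a b x t ha hb (by omega) (by omega) hx hr).1
    rw [abs_le] at this
    linarith [this.2]
  refine ⟨hcol y le_rfl (by omega), ?_⟩
  have hB : ∀ t, y ≤ t → t < yc → fB w x t = b := fun t g1 g2 => (hcol t g1 (by omega)).2.2.2
  have := (col_grow (by omega) hB).1
  unfold PP at *
  nlinarith [l4.1, l4.2]

/-- The bottom of a generic column. -/
theorem Ctx.bottom (c : Ctx R N e w a b) {x y : ℤ} (hg : GCol N e a b x) (hs : St w a b x y)
    (hx : (x : ℝ) < XX N a (b + 1) - e ∨ XX N (a + 1) (b + 1) + e < x)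
    (hx' : (x : ℝ) < XX N (a + 1) b - e ∨ XX N a b + e < x) :
    (∃ t, t < y ∧ WR w a b x t ∧ (∀ s, t < s → s ≤ y → St w a b x s) ∧
      |(t : ℝ) - YY N a b| ≤ e ∧ |(w x t : ℝ) - PP N a b x t| ≤ e) ∨
    (a = 0 ∧ b = 0 ∧ (∀ s, s ≤ y → St w a b x s) ∧
      ∀ x y : ℤ, |(x : ℝ)| ≤ N / 4 - e → (y : ℝ) ≤ - N / 4 - e → w x y = 0) := by
  have ha := c.ha
  have hb := c.hb
  have haR := c.haR
  have hbR := c.hbR
  have hx0 : x ≠ 0 := by have := hg.h0; omega
  have hxN : |(x : ℝ)| ≤ N / 4 - e := by have := hg.hx; linarith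
  rcases exit_down c.base hs (fun t _ => by
    obtain ⟨q1, q2, q3⟩ := c.no_down (x := x) (t := t) hxN (by tauto) hx hx'
    have := hg.ok4 c.pkg ha hb haR hbR (d := 0) (by simp) t
    rw [add_zero] at this
    exact ⟨by tauto, this, q1, q2, q3⟩) with ⟨t, h1, h2, h3⟩ | hall
  · obtain ⟨r1, r2⟩ := c.pkg.runW a b x t ha hb (by omega) (by omega) hxN h2
    exact Or.inl ⟨t, h1, h2, h3, r1, r2⟩
  · right
    obtain ⟨k, hk, hfar, hzero⟩ := c.pkg.far
    obtain ⟨Y0, hY0⟩ := hfar x hxN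
    obtain ⟨Y1, hY1⟩ := hfar (x - 1) (hg.abs_le (d := -1) (by simp))
    obtain ⟨Y2, hY2⟩ := hfar (x + 1) (hg.abs_le (d := 1) (by simp))
    set s := min y (min (min Y0 Y1) Y2) - 1 with hsdef
    have e0 := hY0 s (by omega)
    have e0' := hY0 (s - 1) (by omega)
    have e0'' := hY0 (s + 1) (by omega)
    have e1 := hY1 s (by omega)
    have e2 := hY2 s (by omega)
    obtain ⟨q1, q2, q3, q4⟩ := hall s (by omega)
    unfold fA at q2
    unfold fB at q4
    rw [e0, e2] at q2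
    rw [e0, e0''] at q4
    have hk0 : k = 0 := by omega
    subst hk0
    exact ⟨by omega, by omega, hall, hzero rfl⟩

/-- The top of a generic column. -/
theorem Ctx.top (c : Ctx R N e w a b) {x y : ℤ} (hg : GCol N e a b x) (hs : St w a b x y)
    (h00 : a = 0 → b = 0 → (x : ℝ) < XX N a (b + 1) - e)
    (hx : (x : ℝ) < XX N (a - 1) b - e ∨ XX N a b + e < x)
    (hx' : (x : ℝ) < XX N a (b + 1) - e ∨ XX N (a - 1) (b + 1) + e < x) :
    ∃ t, y ≤ t ∧ WR w (a + 1) b x t ∧ (∀ s, y ≤ s → s ≤ t → St w a b x s) ∧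
      |(t : ℝ) - YY N (a + 1) b| ≤ e ∧ |(w x t : ℝ) - PP N (a + 1) b x t| ≤ e := by
  have ha := c.ha
  have hb := c.hb
  have haR := c.haR
  have hbR := c.hbR
  have hx0 : x ≠ 0 := by have := hg.h0; omega
  have hxN : |(x : ℝ)| ≤ N / 4 - e := by have := hg.hx; linarith
  rcases exit_up c.base hs (fun t _ => by
    obtain ⟨q1, q2, q3⟩ := c.no_up (x := x) (t := t) hxN (by tauto) h00 hx hx'
    have := hg.ok4 c.pkg ha hb haR hbR (d := 0) (by simp) (t + 1)
    rw [add_zero] at this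
    exact ⟨by tauto, this, q1, q2, q3⟩) with ⟨t, h1, h2, h3⟩ | hall
  · obtain ⟨r1, r2⟩ := c.pkg.runW (a + 1) b x t (by omega) hb (by omega) (by omega) hxN h2
    exact ⟨t, h1, h2, h3, r1, r2⟩
  · exfalso
    obtain ⟨k, hk, hfar⟩ := c.pkg.farUp
    obtain ⟨Y0, hY0⟩ := hfar x hxN
    obtain ⟨Y2, hY2⟩ := hfar (x + 1) (hg.abs_le (d := 1) (by simp))
    set s := max y (max Y0 Y2) with hsdef
    have e0 := hY0 s (by omega)
    have e0'' := hY0 (s + 1) (by omega)
    have e2 := hY2 s (by omega)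
    obtain ⟨q1, q2, q3, q4⟩ := hall s (by omega)
    unfold fA at q2
    unfold fB at q4
    rw [e0, e2] at q2
    rw [e0, e0''] at q4
    omega

theorem Ctx.T0_ge (c : Ctx R N e w a b) (hlt : b < a) {x y : ℤ} (hg : GCol N e a b x)
    (h1 : XX N (a - 1) b + 4 * e < x) (h2 : x < XX N a b - 4 * e)
    (h3 : YY N a b + 4 * e < y) (h4 : y < YY N a b + (x - XX N (a - 1) b) - 2 * e) :
    PP N a b x y - e - 3 ≤ (w x y : ℝ) := by
  obtain ⟨A1, A2, A3, A4⟩ := c.caseA hlt
  have hgap := c.gap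
  have he := c.he
  have hs := (c.T0 hlt h1 h2 h3 h4).1
  have hb := c.hb
  rcases c.bottom hg hs (Or.inl (by linarith)) (Or.inl (by linarith)) with
    ⟨t, t1, t2, t3, t4, t5⟩ | ⟨h0, -⟩
  · have hB : ∀ s, t ≤ s → s < y → fB w x s = b := by
      intro s g1 g2
      rcases eq_or_lt_of_le g1 with rfl | g
      · exact t2.2.2.2.2.2.1
      · exact (t3 s g (by omega)).2.2.2
    have := (col_grow (by omega) hB).1
    rw [abs_le] at t5
    unfold PP at *
    nlinarith [t5.1, t5.2]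
  · omega

/-! ### Tile 2: above a NE chain of `(a + 1, b + 1)` -/

theorem PP_YY (N : ℝ) (a b x y : ℤ) : PP N a b x y - PP N a (b + 1) x y = 4 * (YY N a b - y) := by
  unfold PP YY eta
  push_cast
  ring

theorem PP_XX (N : ℝ) (a b x y : ℤ) : PP N a b x y - PP N (a + 1) b x y = 4 * (XX N a b - x) := by
  unfold PP XX xi
  push_cast
  ring

theorem Ctx.ok_T2 (c : Ctx R N e w a b) (hlt : b < a) {x y : ℤ}
    (h1 : XX N a (b + 1) + 4 * e < x) (h2 : x < XX N (a + 1) (b + 1) - 4 * e)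
    (h3 : y < YY N (a + 1) b - 2 * e) : Ok4 w a b x y := by
  obtain ⟨A1, A2, A3, A4⟩ := c.caseA hlt
  have ha := c.ha
  have hb := c.hb
  have haR := c.haR
  have hbR := c.hbR
  have he := c.he
  have hg := c.gap
  have r2 := c.r2
  have m1 := XX_mem c.hN.le a (b + 1)
  have m2 := XX_neg c.hN (a := a + 1) (b := b + 1) (by omega)
  have hx : |(x : ℝ)| ≤ N / 4 - e - 1 := by rw [abs_le]; constructor <;> linarith [m1.1]
  have h0 : ¬ (x = 0 ∧ y = 0) := by
    rintro ⟨rfl, -⟩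
    push_cast at h2
    linarith
  refine ⟨?_, ?_, ?_, ?_⟩
  · refine ok_far' c.pkg (by rw [abs_le]; omega) (by rw [abs_le]; omega) (by omega) hx h0 ?_
    rintro x' y' g1 g2 g3 g4 (⟨n1, n2, n3⟩ | ⟨n1, n2, n3⟩) <;> linarith
  · refine ok_far' c.pkg (by rw [abs_le]; omega) (by rw [abs_le]; omega) (by omega) hx h0 ?_
    rintro x' y' g1 g2 g3 g4 (⟨n1, n2, n3⟩ | ⟨n1, n2, n3⟩)
    · rw [add_sub_cancel_right, abs_le] at n3
      linarith [n3.1, n3.2]
    · rw [add_sub_cancel_right] at n2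
      linarith
  · refine ok_far' c.pkg (by rw [abs_le]; omega) (by rw [abs_le]; omega) (by omega) hx h0 ?_
    rintro x' y' g1 g2 g3 g4 (⟨n1, n2, n3⟩ | ⟨n1, n2, n3⟩) <;> linarith
  · exact ok_gen' c.pkg he (by rw [abs_le]; omega) (by rw [abs_le]; omega) hx h0
      (Or.inl ⟨by rw [add_sub_cancel_right]; linarith, by linarith⟩)

theorem Ctx.T2 (c : Ctx R N e w a b) (hlt : b < a) {x y : ℤ}
    (h1 : XX N a (b + 1) + 4 * e < x) (h2 : x < XX N (a + 1) (b + 1) - 4 * e)
    (h3 : y < YY N (a + 1) b - 4 * e)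
    (h4 : YY N (a + 1) (b + 1) + (x - XX N a (b + 1)) + 2 * e < y) :
    St w a b x y ∧ (w x y : ℝ) ≤ PP N (a + 1) (b + 1) x y + e + 3 := by
  obtain ⟨A1, A2, A3, A4⟩ := c.caseA hlt
  have ha := c.ha
  have hb := c.hb
  have haR := c.haR
  have hbR := c.hbR
  have he := c.he
  have hg := c.gap
  have r2 := c.r2
  have m1 := XX_mem c.hN.le a (b + 1)
  have m2 := XX_neg c.hN (a := a + 1) (b := b + 1) (by omega)
  have hx : |(x : ℝ)| ≤ N / 4 - e := by rw [abs_le]; constructor <;> linarith [m1.1]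
  have hx0 : x ≠ 0 := by
    rintro rfl
    push_cast at h2
    linarith
  obtain ⟨yc, hv⟩ := c.pkg.exP (a + 1) (b + 1) x (by omega) (by omega) (by omega) (by omega)
    (by omega) (by rw [add_sub_cancel_right]; linarith) (by linarith)
  have loc := c.pkg.locP (a + 1) (b + 1) x yc (by rw [abs_le]; omega) (by rw [abs_le]; omega)
    (by omega) hx (by tauto) hv
  obtain ⟨l1, l2, l3, l4⟩ := loc
  rw [add_sub_cancel_right] at l3
  rw [abs_le] at l3 l4
  have hyc : (yc : ℝ) + 1 < y := by linarith [l3.1]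
  have hyc' : yc + 1 < y := by exact_mod_cast hyc
  have hok := (c.ok_T2 hlt h1 h2 (y := yc) (by linarith)).2.2.2.1
  have hst : St w a b x (yc + 1) := by
    refine anchor2 c.base (by tauto) hv hok ?_ ?_
    · intro hc
      have := c.pkg.locP a b x (yc + 1) (by rw [abs_le]; omega) (by rw [abs_le]; omega) (by omega)
        hx (by tauto) hc
      linarith [this.2.1]
    · intro hc
      have := c.pkg.locM (a + 1) (b + 1) x (yc + 1) (by rw [abs_le]; omega)
        (by rw [abs_le]; omega) (by omega) hx (by tauto) hc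
      rw [add_sub_cancel_right] at this
      linarith [this.2.1]
  have hcol : ∀ t, yc + 1 ≤ t → t ≤ y → St w a b x t := by
    refine ascend c.base hst (fun t ht1 ht2 => ?_)
    have ht : (t : ℝ) + 1 ≤ y := by exact_mod_cast ht2
    obtain ⟨q1, q2, q3⟩ := c.no_up (x := x) (t := t) hx (by tauto) (by omega)
      (Or.inr (by linarith)) (Or.inr (by linarith))
    refine ⟨by tauto, c.ok_T2 hlt h1 h2 (by push_cast; linarith), q1, q2, ?_, q3⟩
    intro hr
    have := (c.pkg.runW (a + 1) b x t (by omega) hb (by omega) (by omega) hx hr).1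
    rw [abs_le] at this
    linarith [this.1]
  refine ⟨hcol y (by omega) le_rfl, ?_⟩
  have hB : ∀ t, yc ≤ t → t < y → fB w x t = b := by
    intro t g1 g2
    rcases eq_or_lt_of_le g1 with rfl | g
    · have := (hok.1 hv).1.2.2.1
      omega
    · exact (hcol t (by omega) (by omega)).2.2.2
  have := (col_grow (by omega) hB).2
  unfold PP at *
  push_cast at *
  nlinarith [l4.1, l4.2]

theorem Ctx.T2_ge (c : Ctx R N e w a b) (hlt : b < a) {x y : ℤ} (hg : GCol N e a b x)
    (h1 : XX N a (b + 1) + 4 * e < x) (h2 : x < XX N (a + 1) (b + 1) - 4 * e)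
    (h3 : y < YY N (a + 1) b - 4 * e)
    (h4 : YY N (a + 1) (b + 1) + (x - XX N a (b + 1)) + 2 * e < y) :
    PP N (a + 1) (b + 1) x y - 5 * e - 3 ≤ (w x y : ℝ) := by
  obtain ⟨A1, A2, A3, A4⟩ := c.caseA hlt
  have hgap := c.gap
  have he := c.he
  have hs := (c.T2 hlt h1 h2 h3 h4).1
  have hb := c.hb
  obtain ⟨t, t1, t2, t3, t4, t5⟩ := c.top hg hs (by omega) (Or.inr (by linarith))
    (Or.inr (by linarith))
  have hB : ∀ s, y ≤ s → s < t → fB w x s = b := fun s g1 g2 => (t3 s g1 (by omega)).2.2.2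
  have := (col_grow t1 hB).2
  have hp := PP_YY N (a + 1) b x t
  rw [abs_le] at t4 t5
  have hq : PP N (a + 1) (b + 1) x t - PP N (a + 1) (b + 1) x y = 4 * (b + 1) * (t - y) := by
    unfold PP
    push_cast
    ring
  linarith [t4.1, t4.2, t5.1, t5.2]

/-! ### Tile 1: below a SE chain of `(a, b + 1)` -/

theorem Ctx.ok_T1 (c : Ctx R N e w a b) (hle : a ≤ b) {x y : ℤ}
    (h1 : XX N a (b + 1) + 4 * e < x) (h2 : x < XX N (a - 1) (b + 1) - 4 * e)
    (h3 : YY N a b + 2 * e < y) (h4 : y < YY N a (b + 1) - 2 * e) : Ok4 w a b x y := by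
  obtain ⟨A1, A2, A3, A4⟩ := c.caseB hle
  have ha := c.ha
  have hb := c.hb
  have haR := c.haR
  have hbR := c.hbR
  have he := c.he
  have hg := c.gap
  have m1 := XX_mem c.hN.le a (b + 1)
  have m2 := XX_mem c.hN.le (a - 1) (b + 1)
  have m3 := YY_neg c.hN (a := a) (b := b + 1) (by omega)
  have hx : |(x : ℝ)| ≤ N / 4 - e - 1 := by
    rw [abs_le]; constructor <;> linarith [m1.1, m2.2]
  have h0 : ¬ (x = 0 ∧ y = 0) := by
    rintro ⟨-, rfl⟩
    push_cast at h4
    linarith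
  refine ⟨?_, ?_, ?_, ?_⟩
  · by_cases hab : a = 0 ∧ b = 0
    · obtain ⟨rfl, rfl⟩ := hab
      rw [abs_le] at hx
      have e1 : XX N 0 0 = -(N / 4) := by
        unfold XX xi
        rw [A_zero, zero_add, A_one]
        ring
      have e2 : YY N 0 0 = -(N / 4) := by
        unfold YY
        rw [eta_eq]
        exact e1
      refine ok_far0 c.pkg (by rw [abs_le]; constructor <;> linarith [hx.1, hx.2])
        (by push_cast; rw [abs_le]; constructor <;> linarith [hx.1, hx.2]) ?_ ?_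
      · linarith
      · linarith [hx.2]
    · refine ok_far' c.pkg (by rw [abs_le]; omega) (by rw [abs_le]; omega) hab hx h0 ?_
      rintro x' y' g1 g2 g3 g4 (⟨n1, n2, n3⟩ | ⟨n1, n2, n3⟩)
      · linarith
      · rw [abs_le] at n3
        linarith [n3.1, n3.2]
  · refine ok_far' c.pkg (by rw [abs_le]; omega) (by rw [abs_le]; omega) (by omega) hx h0 ?_
    rintro x' y' g1 g2 g3 g4 (⟨n1, n2, n3⟩ | ⟨n1, n2, n3⟩)
    · linarith
    · rw [add_sub_cancel_right] at n2
      linarith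
  · exact ok_gen' c.pkg he (by rw [abs_le]; omega) (by rw [abs_le]; omega) hx h0
      (Or.inr ⟨by linarith, by linarith⟩)
  · refine ok_far' c.pkg (by rw [abs_le]; omega) (by rw [abs_le]; omega) (by omega) hx h0 ?_
    rintro x' y' g1 g2 g3 g4 (⟨n1, n2, n3⟩ | ⟨n1, n2, n3⟩)
    · linarith
    · rw [add_sub_cancel_right] at n2
      linarith

theorem Ctx.T1 (c : Ctx R N e w a b) (hle : a ≤ b) {x y : ℤ} (hx0 : x ≠ 0)
    (h1 : XX N a (b + 1) + 4 * e < x) (h2 : x < XX N (a - 1) (b + 1) - 4 * e)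
    (h3 : YY N a b + 4 * e < y)
    (h4 : y < YY N a (b + 1) - (x - XX N a (b + 1)) - 2 * e) :
    St w a b x y ∧ PP N a (b + 1) x y - e - 3 ≤ (w x y : ℝ) := by
  obtain ⟨A1, A2, A3, A4⟩ := c.caseB hle
  have ha := c.ha
  have hb := c.hb
  have haR := c.haR
  have hbR := c.hbR
  have he := c.he
  have hg := c.gap
  have m1 := XX_mem c.hN.le a (b + 1)
  have m2 := XX_mem c.hN.le (a - 1) (b + 1)
  have hx : |(x : ℝ)| ≤ N / 4 - e := by rw [abs_le]; constructor <;> linarith [m1.1, m2.2]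
  obtain ⟨yc, hv⟩ := c.pkg.exM a (b + 1) x (by omega) (by omega) (by omega) (by omega)
    (by omega) (by linarith) (by linarith)
  have loc := c.pkg.locM a (b + 1) x yc (by rw [abs_le]; omega) (by rw [abs_le]; omega)
    (by omega) hx (by tauto) hv
  obtain ⟨l1, l2, l3, l4⟩ := loc
  rw [abs_le] at l3 l4
  have hyc : (y : ℝ) + 1 < yc := by linarith [l3.1]
  have hyc' : y + 1 < yc := by exact_mod_cast hyc
  have hst : St w a b x (yc - 1) := by
    refine anchor1 c.base (by tauto) hv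
      (c.ok_T1 hle h1 h2 (y := yc) (by linarith) (by linarith [l3.2])).2.2.1.1 ?_ ?_
    · intro hc
      have := c.pkg.locP a (b + 1) x (yc - 1) (by rw [abs_le]; omega) (by rw [abs_le]; omega)
        (by omega) hx (by tauto) hc
      linarith [this.2.1]
    · intro hc
      have := c.pkg.locM (a + 1) b x (yc - 1) (by rw [abs_le]; omega)
        (by rw [abs_le]; omega) (by omega) hx (by tauto) hc
      rw [add_sub_cancel_right] at this
      linarith [this.2.1]
  have hcol : ∀ t, y ≤ t → t ≤ yc - 1 → St w a b x t := by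
    refine descend c.base hst (fun t ht1 ht2 => ?_)
    have ht : (y : ℝ) ≤ t := by exact_mod_cast ht1
    have ht' : (t : ℝ) + 1 ≤ yc := by exact_mod_cast (by omega : t + 1 ≤ yc)
    obtain ⟨q1, q2, q3⟩ := c.no_down (x := x) (t := t) hx (by tauto) (Or.inr (by linarith))
      (Or.inr (by linarith))
    refine ⟨by tauto, c.ok_T1 hle h1 h2 (by linarith) (by linarith [l3.2]), q1, q2, ?_, q3⟩
    intro hr
    have := (c.pkg.runW a b x t ha hb (by omega) (by omega) hx hr).1
    rw [abs_le] at this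
    linarith [this.2]
  refine ⟨hcol y le_rfl (by omega), ?_⟩
  have hB : ∀ t, y ≤ t → t < yc → fB w x t = b := fun t g1 g2 => (hcol t g1 (by omega)).2.2.2
  have := (col_grow (by omega) hB).2
  have hq : PP N a (b + 1) x yc - PP N a (b + 1) x y = 4 * (b + 1) * (yc - y) := by
    unfold PP
    push_cast
    ring
  linarith [l4.1, l4.2]

theorem PP01 (N : ℝ) (x y : ℤ) : PP N 0 (0 + 1) x y = 4 * y + N := by
  unfold PP
  rw [zero_add, A_symm, A_one]
  push_cast
  ring

theorem Ctx.T1_le (c : Ctx R N e w a b) (hle : a ≤ b) {x y : ℤ} (hg : GCol N e a b x)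
    (h1 : XX N a (b + 1) + 4 * e < x) (h2 : x < XX N (a - 1) (b + 1) - 4 * e)
    (h3 : YY N a b + 4 * e < y)
    (h4 : y < YY N a (b + 1) - (x - XX N a (b + 1)) - 2 * e) :
    (w x y : ℝ) ≤ PP N a (b + 1) x y + 5 * e + 3 := by
  obtain ⟨A1, A2, A3, A4⟩ := c.caseB hle
  have hgap := c.gap
  have he := c.he
  have hx0 : x ≠ 0 := by have := hg.h0; omega
  have hs := (c.T1 hle hx0 h1 h2 h3 h4).1
  have hxN : |(x : ℝ)| ≤ N / 4 - e := by have := hg.hx; linarith
  rcases c.bottom hg hs (Or.inr (by linarith)) (Or.inr (by linarith)) with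
    ⟨t, t1, t2, t3, t4, t5⟩ | ⟨rfl, rfl, t3, t4⟩
  · have hB : ∀ s, t ≤ s → s < y → fB w x s = b := by
      intro s g1 g2
      rcases eq_or_lt_of_le g1 with rfl | g
      · exact t2.2.2.2.2.2.1
      · exact (t3 s g (by omega)).2.2.2
    have := (col_grow (by omega) hB).2
    have hp := PP_YY N a b x t
    rw [abs_le] at t4 t5
    have hq : PP N a (b + 1) x y - PP N a (b + 1) x t = 4 * (b + 1) * (y - t) := by
      unfold PP
      push_cast
      ring
    linarith [t4.1, t4.2, t5.1, t5.2]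
  · have e2 : YY N 0 0 = -(N / 4) := by
      unfold YY
      rw [eta_eq]
      unfold xi
      rw [A_zero, zero_add, A_one]
      ring
    set t0 := ⌊-N / 4 - e⌋ with ht0
    have f1 : (t0 : ℝ) ≤ -N / 4 - e := Int.floor_le _
    have f2 : -N / 4 - e < (t0 : ℝ) + 1 := Int.lt_floor_add_one _
    have hty : t0 ≤ y := by
      have : (t0 : ℝ) ≤ y := by linarith
      exact_mod_cast this
    have hB : ∀ s, t0 ≤ s → s < y → fB w x s = 0 := fun s g1 g2 => (t3 s (by omega)).2.2.2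
    have := (col_grow hty hB).2
    rw [t4 x t0 hxN f1] at this
    rw [PP01]
    push_cast at this
    linarith

/-! ### Tile 3: above a SE chain of `(a + 1, b)` -/

theorem Ctx.ok_T3 (c : Ctx R N e w a b) (hlt : a + 1 < b) {x y : ℤ}
    (h1 : XX N (a + 1) b + 4 * e < x) (h2 : x < XX N a b - 4 * e)
    (h3 : y < YY N (a + 1) b - 2 * e) : Ok4 w a b x y := by
  obtain ⟨A1, A2, A3, A4⟩ := c.caseB (by omega)
  have ha := c.ha
  have hb := c.hb
  have haR := c.haR
  have hbR := c.hbR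
  have he := c.he
  have hg := c.gap
  have r2 := c.r2
  have m1 := XX_mem c.hN.le (a + 1) b
  have m2 := XX_neg c.hN (b := b) ha
  have hx : |(x : ℝ)| ≤ N / 4 - e - 1 := by rw [abs_le]; constructor <;> linarith [m1.1]
  have h0 : ¬ (x = 0 ∧ y = 0) := by
    rintro ⟨rfl, -⟩
    push_cast at h2
    linarith
  refine ⟨?_, ?_, ?_, ?_⟩
  · refine ok_far' c.pkg (by rw [abs_le]; omega) (by rw [abs_le]; omega) (by omega) hx h0 ?_
    rintro x' y' g1 g2 g3 g4 (⟨n1, n2, n3⟩ | ⟨n1, n2, n3⟩) <;> linarith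
  · exact ok_gen' c.pkg he (by rw [abs_le]; omega) (by rw [abs_le]; omega) hx h0
      (Or.inr ⟨by linarith, by rw [add_sub_cancel_right]; linarith⟩)
  · refine ok_far' c.pkg (by rw [abs_le]; omega) (by rw [abs_le]; omega) (by omega) hx h0 ?_
    rintro x' y' g1 g2 g3 g4 (⟨n1, n2, n3⟩ | ⟨n1, n2, n3⟩) <;> linarith
  · refine ok_far' c.pkg (by rw [abs_le]; omega) (by rw [abs_le]; omega) (by omega) hx h0 ?_
    rintro x' y' g1 g2 g3 g4 (⟨n1, n2, n3⟩ | ⟨n1, n2, n3⟩)
    · rw [add_sub_cancel_right] at n1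
      linarith
    · rw [abs_le] at n3
      linarith [n3.1, n3.2]

theorem Ctx.T3 (c : Ctx R N e w a b) (hlt : a + 1 < b) {x y : ℤ}
    (h1 : XX N (a + 1) b + 4 * e < x) (h2 : x < XX N a b - 4 * e)
    (h3 : y < YY N (a + 1) b - 4 * e)
    (h4 : YY N (a + 1) b - (x - XX N (a + 1) b) + 2 * e < y) :
    St w a b x y ∧ PP N (a + 1) b x y - e - 3 ≤ (w x y : ℝ) := by
  obtain ⟨A1, A2, A3, A4⟩ := c.caseB (by omega)
  have ha := c.ha
  have hb := c.hb
  have haR := c.haR
  have hbR := c.hbR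
  have he := c.he
  have hg := c.gap
  have m1 := XX_mem c.hN.le (a + 1) b
  have m2 := XX_neg c.hN (b := b) ha
  have hx : |(x : ℝ)| ≤ N / 4 - e := by rw [abs_le]; constructor <;> linarith [m1.1]
  have hx0 : x ≠ 0 := by
    rintro rfl
    push_cast at h2
    linarith
  obtain ⟨yc, hv⟩ := c.pkg.exM (a + 1) b x (by omega) (by omega) (by omega) (by omega)
    (by omega) (by linarith) (by rw [add_sub_cancel_right]; linarith)
  have loc := c.pkg.locM (a + 1) b x yc (by rw [abs_le]; omega) (by rw [abs_le]; omega)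
    (by omega) hx (by tauto) hv
  obtain ⟨l1, l2, l3, l4⟩ := loc
  rw [abs_le] at l3 l4
  have hyc : (yc : ℝ) + 1 < y := by linarith [l3.2]
  have hyc' : yc + 1 < y := by exact_mod_cast hyc
  have hok := (c.ok_T3 hlt h1 h2 (y := yc) (by linarith [l3.2])).2.1.1
  have hst : St w a b x (yc + 1) := by
    refine anchor3 c.base (by tauto) hv hok ?_ ?_
    · intro hc
      have := c.pkg.locP (a + 1) b x (yc + 1) (by rw [abs_le]; omega) (by rw [abs_le]; omega)
        (by omega) hx (by tauto) hc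
      rw [add_sub_cancel_right] at this
      linarith [this.1]
    · intro hc
      have := c.pkg.locM a (b + 1) x (yc + 1) (by rw [abs_le]; omega)
        (by rw [abs_le]; omega) (by omega) hx (by tauto) hc
      linarith [this.1]
  have hcol : ∀ t, yc + 1 ≤ t → t ≤ y → St w a b x t := by
    refine ascend c.base hst (fun t ht1 ht2 => ?_)
    have ht : (t : ℝ) + 1 ≤ y := by exact_mod_cast ht2
    obtain ⟨q1, q2, q3⟩ := c.no_up (x := x) (t := t) hx (by tauto) (by omega)
      (Or.inl (by linarith)) (Or.inl (by linarith))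
    refine ⟨by tauto, c.ok_T3 hlt h1 h2 (by push_cast; linarith), q1, q2, ?_, q3⟩
    intro hr
    have := (c.pkg.runW (a + 1) b x t (by omega) hb (by omega) (by omega) hx hr).1
    rw [abs_le] at this
    linarith [this.1]
  refine ⟨hcol y (by omega) le_rfl, ?_⟩
  have hB : ∀ t, yc ≤ t → t < y → fB w x t = b := by
    intro t g1 g2
    rcases eq_or_lt_of_le g1 with rfl | g
    · exact (hok.2 hv).1.2.2.1
    · exact (hcol t (by omega) (by omega)).2.2.2
  have := (col_grow (by omega) hB).1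
  have hq : PP N (a + 1) b x y - PP N (a + 1) b x yc = 4 * b * (y - yc) := by
    unfold PP
    push_cast
    ring
  linarith [l4.1, l4.2]

theorem Ctx.T3_le (c : Ctx R N e w a b) (hlt : a + 1 < b) {x y : ℤ} (hg : GCol N e a b x)
    (h1 : XX N (a + 1) b + 4 * e < x) (h2 : x < XX N a b - 4 * e)
    (h3 : y < YY N (a + 1) b - 4 * e)
    (h4 : YY N (a + 1) b - (x - XX N (a + 1) b) + 2 * e < y) :
    (w x y : ℝ) ≤ PP N (a + 1) b x y + e + 3 := by
  obtain ⟨A1, A2, A3, A4⟩ := c.caseB (by omega)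
  have hgap := c.gap
  have he := c.he
  have hs := (c.T3 hlt h1 h2 h3 h4).1
  have hb := c.hb
  have ha := c.ha
  obtain ⟨t, t1, t2, t3, t4, t5⟩ := c.top hg hs (by omega) (Or.inl (by linarith))
    (Or.inl (by linarith))
  have hB : ∀ s, y ≤ s → s < t → fB w x s = b := fun s g1 g2 => (t3 s g1 (by omega)).2.2.2
  have := (col_grow t1 hB).1
  rw [abs_le] at t4 t5
  have hq : PP N (a + 1) b x t - PP N (a + 1) b x y = 4 * b * (t - y) := by
    unfold PP
    push_cast
    ring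
  linarith [t4.1, t4.2, t5.1, t5.2]

end RotorNE
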