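import Mathlib.Tactic
import Mathlib.Data.Nat.Nth
import Mathlib.Data.Int.Interval
import Mathlib.Data.Int.ConditionallyCompleteOrder
import Mathlib.Data.Int.Star
import Mathlib.Algebra.Order.Star.Real
import Mathlib.Analysis.SpecialFunctions.Integrals.Basic
import Mathlib.Analysis.Fourier.RiemannLebesgueLemma
import Mathlib.Analysis.SpecificLimits.Basic
import Mathlib.Analysis.Asymptotics.SpecificAsymptotics
import Mathlib.MeasureTheory.Integral.Prod
import Mathlib.MeasureTheory.Measure.Lebesgue.Basic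
import Pool.Agent.Lib.MP_936783_pr.ExTile

/-!
# Exactness VII: the diagonal squares in the first quadrant of fluxes
-/

noncomputable section

namespace RotorNE

open Kernel

variable {w : ℤ → ℤ → ℤ} {a b R : ℤ} {N e : ℝ}

theorem ext_right {P : ℤ → Prop} {g x2 : ℤ} (h0 : P g)
    (hs : ∀ x, g ≤ x → x < x2 → P x → P (x + 1)) : ∀ x, g ≤ x → x ≤ x2 → P x := by
  have key : ∀ k : ℕ, g + k ≤ x2 → P (g + k) := by
    intro k
    induction k with
    | zero => intro _; simpa using h0
    | succ k ih =>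
      intro hk
      push_cast at hk ⊢
      rw [← add_assoc]
      exact hs _ (by omega) (by omega) (ih (by omega))
  intro x h1 h2
  have := key (x - g).toNat (by omega)
  rwa [show g + ((x - g).toNat : ℤ) = x by omega] at this

theorem ext_left {P : ℤ → Prop} {g x1 : ℤ} (h0 : P g)
    (hs : ∀ x, x1 < x → x ≤ g → P x → P (x - 1)) : ∀ x, x1 ≤ x → x ≤ g → P x := by
  have key : ∀ k : ℕ, x1 ≤ g - k → P (g - k) := by
    intro k
    induction k with
    | zero => intro _; simpa using h0
    | succ k ih =>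
      intro hk
      push_cast at hk ⊢
      rw [← sub_sub]
      exact hs _ (by omega) (by omega) (ih (by omega))
  intro x h1 h2
  have := key (g - x).toNat (by omega)
  rwa [show g - ((g - x).toNat : ℤ) = x by omega] at this

/-- The size of the picture. -/
theorem Ctx.big (c : Ctx R N e w a b) : 160 * e < N := by
  have h1 := c.gap
  have h2 := XX_mem c.hN.le a b
  have h3 := XX_neg c.hN (b := b + 1) c.ha
  linarith [h2.1]

theorem Ctx.colF (c : Ctx R N e w a b) {x : ℤ} (h1 : XX N a b + 9 * e - 2 ≤ x)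
    (h2 : (x : ℝ) ≤ XX N a (b + 1)) : |(x : ℝ)| ≤ N / 4 - e - 1 ∧ x < 0 := by
  have h3 := XX_mem c.hN.le a b
  have h4 := XX_neg c.hN (b := b + 1) c.ha
  have he := c.he
  have hb := c.big
  refine ⟨by rw [abs_le]; constructor <;> linarith [h3.1], ?_⟩
  have : (x : ℝ) < 0 := by linarith
  exact_mod_cast this

theorem Ctx.ok_F (c : Ctx R N e w a b) {x y : ℤ}
    (h1 : XX N a b + 9 * e < x) (h2 : x < XX N a (b + 1) - 9 * e)
    (h3 : YY N a b - e - 4 ≤ y) (h4 : (y : ℝ) ≤ YY N (a + 1) b + e + 1) : Ok4 w a b x y := by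
  have ha := c.ha
  have hb := c.hb
  have haR := c.haR
  have hbR := c.hbR
  have he := c.he
  have hg := c.gap
  have hbig := c.big
  have r1 := c.r1
  have r2 := c.r2
  have m3 := YY_mem c.hN.le a b
  have m4 := YY_neg c.hN (a := a + 1) hb
  have m5 := XX_mem c.hN.le a b
  obtain ⟨hx, hxneg⟩ := c.colF (x := x) (by linarith) (by linarith)
  have hxneg' : (x : ℝ) < 0 := by exact_mod_cast hxneg
  have h0 : ¬ (x = 0 ∧ y = 0) := by omega
  refine ⟨?_, ?_, ?_, ?_⟩
  · by_cases hab : a = 0 ∧ b = 0
    · obtain ⟨rfl, rfl⟩ := hab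
      rw [abs_le] at hx
      refine ok_far0 c.pkg (by rw [abs_le]; constructor <;> linarith [hx.1, hx.2])
        (by push_cast; rw [abs_le]; constructor <;> linarith [hx.1, hx.2]) ?_ ?_
      · linarith [m3.1, m5.1]
      · linarith
    · refine ok_far' c.pkg (by rw [abs_le]; omega) (by rw [abs_le]; omega) hab hx h0 ?_
      rintro x' y' g1 g2 g3 g4 (⟨n1, n2, n3⟩ | ⟨n1, n2, n3⟩)
      · linarith
      · rw [abs_le] at n3
        linarith [n3.1, n3.2]
  · refine ok_far' c.pkg (by rw [abs_le]; omega) (by rw [abs_le]; omega) (by omega) hx h0 ?_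
    rintro x' y' g1 g2 g3 g4 (⟨n1, n2, n3⟩ | ⟨n1, n2, n3⟩)
    · rw [add_sub_cancel_right] at n3
      rw [abs_le] at n3
      linarith [n3.1, n3.2]
    · rw [add_sub_cancel_right] at n2
      linarith
  · refine ok_far' c.pkg (by rw [abs_le]; omega) (by rw [abs_le]; omega) (by omega) hx h0 ?_
    rintro x' y' g1 g2 g3 g4 (⟨n1, n2, n3⟩ | ⟨n1, n2, n3⟩)
    · rw [abs_le] at n3
      linarith [n3.1, n3.2]
    · linarith
  · refine ok_far' c.pkg (by rw [abs_le]; omega) (by rw [abs_le]; omega) (by omega) hx h0 ?_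
    rintro x' y' g1 g2 g3 g4 (⟨n1, n2, n3⟩ | ⟨n1, n2, n3⟩)
    · rw [add_sub_cancel_right] at n1
      linarith
    · rw [abs_le] at n3
      linarith [n3.1, n3.2]

/-- Moving the value from a clean run to the next row. -/
theorem run_next {x y : ℤ} (hr : WR w a b x y) (h : |(w x y : ℝ) - PP N a b x y| ≤ e) :
    |(w x (y + 1) : ℝ) - PP N a b x (y + 1)| ≤ e + 7 := by
  have hB := hr.2.2.2.2.2.1
  unfold fB at hB
  have h1 : 4 * b - 3 ≤ w x (y + 1) - w x y ∧ w x (y + 1) - w x y ≤ 4 * b + 7 := by omega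
  have h2 : (4 * (b : ℝ) - 3) ≤ w x (y + 1) - w x y := by exact_mod_cast h1.1
  have h3 : (w x (y + 1) : ℝ) - w x y ≤ 4 * b + 7 := by exact_mod_cast h1.2
  rw [abs_le] at h ⊢
  have hq : PP N a b x (y + 1) - PP N a b x y = 4 * b := by
    unfold PP
    push_cast
    ring
  constructor <;> linarith [h.1, h.2]

/-- The bottom run in the columns of the diagonal square. -/
theorem Ctx.F_bot (c : Ctx R N e w a b)
    (hgB : ∃ g : ℤ, GCol N e a b g ∧ ((b < a ∧ XX N (a - 1) b + 8 * e < g ∧
        (g : ℝ) < XX N a b - 4 * e) ∨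
      (a ≤ b ∧ XX N a (b + 1) + 4 * e < g ∧ (g : ℝ) < XX N (a - 1) (b + 1) - 8 * e ∧ g < 0))) :
    ∃ y0 : ℤ, YY N a b - e - 4 ≤ y0 ∧ (y0 : ℝ) ≤ YY N a b + e ∧
      ∀ x : ℤ, XX N a b + 10 * e ≤ x → (x : ℝ) ≤ XX N a (b + 1) - 10 * e →
        St w a b x (y0 + 1) ∧ |(w x (y0 + 1) : ℝ) - PP N a b x (y0 + 1)| ≤ e + 7 := by
  have ha := c.ha
  have hb := c.hb
  have haR := c.haR
  have hbR := c.hbR
  have he := c.he
  have hgap := c.gap
  have hbig := c.big
  have r1 := c.r1
  have r2 := c.r2
  have sq := c.sqF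
  have m1 := XX_mem c.hN.le (a - 1) b
  have m3 := YY_mem c.hN.le a b
  have m4 := YY_neg c.hN (a := a) hb
  have m5 := XX_mem c.hN.le a b
  have m6 := XX_neg c.hN (b := b) ha
  obtain ⟨g, hg, hgc⟩ := hgB
  rcases hgc with ⟨hlt, g1, g2⟩ | ⟨hle, g1, g2, g3⟩
  · -- from the left
    obtain ⟨A1, A2, A3, A4⟩ := c.caseA hlt
    have f1 := Int.floor_le (YY N a b + 4 * e)
    have f2 := Int.lt_floor_add_one (YY N a b + 4 * e)
    have hs := (c.T0 hlt (x := g) (y := ⌊YY N a b + 4 * e⌋ + 1) (by linarith) g2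
      (by push_cast; linarith) (by push_cast; linarith)).1
    rcases c.bottom hg hs (Or.inl (by linarith)) (Or.inl (by linarith)) with
      ⟨t, t1, t2, t3, t4, t5⟩ | ⟨h0, h0', -⟩
    · rw [abs_le] at t4
      refine ⟨t, by linarith [t4.1], by linarith [t4.2], ?_⟩
      have key := ext_right (P := fun x => St w a b x (t + 1) ∧ WR w a b x t) (g := g)
        (x2 := ⌊XX N a (b + 1) - 10 * e⌋) ⟨t3 (t + 1) (by omega) (by omega), t2⟩ (by
          rintro x x1 x2 ⟨p1, p2⟩
          have x1' : (g : ℝ) ≤ x := by exact_mod_cast x1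
          have x2' : (x : ℝ) + 1 ≤ XX N a (b + 1) - 10 * e := by
            have := Int.floor_le (XX N a (b + 1) - 10 * e)
            have h : (x : ℝ) + 1 ≤ ⌊XX N a (b + 1) - 10 * e⌋ := by exact_mod_cast x2
            linarith
          have hxN : |((x + 1 : ℤ) : ℝ)| ≤ N / 4 - e := by
            push_cast
            rw [abs_le]
            constructor <;> linarith [m1.1, XX_neg c.hN (b := b + 1) ha]
          have hx0 : x + 1 ≠ 0 := by
            intro h
            have : ((x + 1 : ℤ) : ℝ) = 0 := by rw [h]; simp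
            push_cast at this
            linarith [XX_neg c.hN (b := b + 1) ha]
          refine botR c.base (by tauto) (by tauto) p1 p2 ?_ ?_ ?_ ?_
          · intro hc
            obtain ⟨n1, n2, n3, -⟩ := c.pkg.locP (a + 1) b (x + 1) (t + 1) (by rw [abs_le]; omega)
              (by rw [abs_le]; omega) (by omega) hxN (by tauto) hc
            rw [add_sub_cancel_right] at n1 n3
            push_cast at n1 n2 n3
            rw [abs_le] at n3
            linarith [n3.1, n3.2, t4.1, t4.2]
          · intro hc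
            obtain ⟨n1, n2, n3, -⟩ := c.pkg.locM a (b + 1) (x + 1) (t + 1) (by rw [abs_le]; omega)
              (by rw [abs_le]; omega) (by omega) hxN (by tauto) hc
            push_cast at n1
            linarith
          · intro hc
            obtain ⟨n1, n2, n3, -⟩ := c.pkg.locP a (b + 1) (x + 1) t (by rw [abs_le]; omega)
              (by rw [abs_le]; omega) (by omega) hxN (by tauto) hc
            push_cast at n1 n2 n3
            rw [abs_le] at n3
            linarith [n3.1, n3.2, t4.1, t4.2]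
          · intro hc
            rcases c.pkg.locF a (b + 1) (x + 1) t (by rw [abs_le]; omega)
              (by rw [abs_le]; omega) (by omega) hxN (Or.inr (Or.inr hc)) with
              ⟨n1, n2, n3⟩ | ⟨n1, n2, n3⟩
            · push_cast at n1 n2 n3
              rw [abs_le] at n3
              linarith [n3.1, n3.2, t4.1, t4.2]
            · push_cast at n1
              linarith)
      intro x x1 x2
      have hgx : g ≤ x := by
        have : (g : ℝ) ≤ x := by linarith
        exact_mod_cast this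
      obtain ⟨q1, q2⟩ := key x hgx (Int.le_floor.2 x2)
      have hxN : |(x : ℝ)| ≤ N / 4 - e := by
        have := (c.colF (x := x) (by linarith) (by linarith)).1
        linarith
      have hx0 : x ≠ 0 := by
        have := (c.colF (x := x) (by linarith) (by linarith)).2
        omega
      exact ⟨q1, run_next q2 (c.pkg.runW a b x t ha hb (by omega) (by omega) hxN q2).2⟩
    · omega
  · -- from the right
    obtain ⟨A1, A2, A3, A4⟩ := c.caseB hle
    have f1 := Int.floor_le (YY N a b + 4 * e)
    have f2 := Int.lt_floor_add_one (YY N a b + 4 * e)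
    have g3' : (g : ℝ) < 0 := by exact_mod_cast g3
    have hs := (c.T1 hle (x := g) (y := ⌊YY N a b + 4 * e⌋ + 1) (by omega) g1 (by linarith)
      (by push_cast; linarith) (by push_cast; linarith)).1
    rcases c.bottom hg hs (Or.inr (by linarith)) (Or.inr (by linarith)) with
      ⟨t, t1, t2, t3, t4, t5⟩ | ⟨rfl, rfl, -, hz⟩
    · rw [abs_le] at t4
      refine ⟨t, by linarith [t4.1], by linarith [t4.2], ?_⟩
      have key := ext_left (P := fun x => St w a b x (t + 1) ∧ WR w a b x t) (g := g)
        (x1 := ⌈XX N a b + 10 * e⌉) ⟨t3 (t + 1) (by omega) (by omega), t2⟩ (by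
          rintro x x1 x2 ⟨p1, p2⟩
          have x1' : XX N a b + 10 * e ≤ (x : ℝ) - 1 := by
            have := Int.le_ceil (XX N a b + 10 * e)
            have h : (⌈XX N a b + 10 * e⌉ : ℝ) + 1 ≤ x := by exact_mod_cast x1
            linarith
          have x2' : (x : ℝ) ≤ g := by exact_mod_cast x2
          have hxN : |((x - 1 : ℤ) : ℝ)| ≤ N / 4 - e := by
            push_cast
            rw [abs_le]
            constructor <;> linarith [m5.1]
          have hxN2 : |((x - 1 - 1 : ℤ) : ℝ)| ≤ N / 4 - e := by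
            push_cast
            rw [abs_le]
            constructor <;> linarith [m5.1]
          have hx0 : x - 1 ≠ 0 := by omega
          refine botL c.base (by tauto) (by tauto) p1 p2 ?_ ?_ ?_ ?_
          · intro hc
            by_cases hab : a = 0 ∧ b = 0
            · obtain ⟨rfl, rfl⟩ := hab
              exact c.pkg.loc0P _ _ hxN hc
            · obtain ⟨n1, n2, n3, -⟩ := c.pkg.locP a b (x - 1) (t + 1) (by rw [abs_le]; omega)
                (by rw [abs_le]; omega) hab hxN (by tauto) hc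
              push_cast at n1 n2 n3
              linarith
          · intro hc
            obtain ⟨n1, n2, n3, -⟩ := c.pkg.locM (a + 1) (b + 1) (x - 1) (t + 1)
              (by rw [abs_le]; omega) (by rw [abs_le]; omega) (by omega) hxN (by tauto) hc
            rw [add_sub_cancel_right] at n2
            push_cast at n1 n2 n3
            rw [abs_le] at n3
            linarith [n3.1, n3.2, t4.1, t4.2]
          · intro hc
            by_cases hab : a = 0 ∧ b = 0
            · obtain ⟨rfl, rfl⟩ := hab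
              have := c.pkg.loc0V _ _ hxN (Or.inr hc)
              push_cast at this
              rw [abs_le, abs_le] at this
              rcases this with n | n <;> linarith [n.1, n.2, m3.1, m5.1]
            · obtain ⟨n1, n2, n3, -⟩ := c.pkg.locM a b (x - 1) t (by rw [abs_le]; omega)
                (by rw [abs_le]; omega) hab hxN (by tauto) hc
              push_cast at n1 n2 n3
              rw [abs_le] at n3
              linarith [n3.1, n3.2, t4.1, t4.2]
          · intro hc
            by_cases hab : a = 0 ∧ b = 0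
            · obtain ⟨rfl, rfl⟩ := hab
              have := c.pkg.loc0F _ _ hxN2 (Or.inr (Or.inr hc))
              push_cast at this
              rw [abs_le, abs_le] at this
              rcases this with n | n <;> linarith [n.1, n.2, m3.1, m5.1]
            · rcases c.pkg.locF a b (x - 1 - 1) t (by rw [abs_le]; omega)
                (by rw [abs_le]; omega) hab hxN2 (Or.inr (Or.inr hc)) with
                ⟨n1, n2, n3⟩ | ⟨n1, n2, n3⟩
              · push_cast at n2
                linarith
              · push_cast at n1 n2 n3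
                rw [abs_le] at n3
                linarith [n3.1, n3.2, t4.1, t4.2])
      intro x x1 x2
      have hgx : x ≤ g := by
        have : (x : ℝ) ≤ g := by linarith
        exact_mod_cast this
      obtain ⟨q1, q2⟩ := key x (Int.ceil_le.2 x1) hgx
      have hxN : |(x : ℝ)| ≤ N / 4 - e := by
        have := (c.colF (x := x) (by linarith) (by linarith)).1
        linarith
      have hx0 : x ≠ 0 := by
        have := (c.colF (x := x) (by linarith) (by linarith)).2
        omega
      exact ⟨q1, run_next q2 (c.pkg.runW a b x t ha hb (by omega) (by omega) hxN q2).2⟩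
    · -- the zero region
      have hYY : YY N 0 0 = -(N / 4) := by
        have h1 := PP_YY N 0 0 0 0
        rw [PP01] at h1
        unfold PP at h1
        rw [A_zero] at h1
        push_cast at h1
        linarith
      have f3 := Int.floor_le (-(N / 4) - e)
      have f4 := Int.lt_floor_add_one (-(N / 4) - e)
      refine ⟨⌊-(N / 4) - e⌋ - 2, by push_cast; linarith, by push_cast; linarith, ?_⟩
      intro x x1 x2
      obtain ⟨hxN, hx0⟩ := c.colF (x := x) (by linarith) (by linarith)
      rw [abs_le] at hxN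
      set t := ⌊-(N / 4) - e⌋ - 2 with ht
      have ht' : (t : ℝ) + 2 ≤ -(N / 4) - e := by rw [ht]; push_cast; linarith
      have z1 : w x (t + 1) = 0 := hz x (t + 1) (by rw [abs_le]; constructor <;> linarith [hxN.1, hxN.2])
        (by push_cast; linarith)
      have z2 : w (x - 1) (t + 1) = 0 := hz (x - 1) (t + 1)
        (by push_cast; rw [abs_le]; constructor <;> linarith [hxN.1, hxN.2]) (by push_cast; linarith)
      have z3 : w (x + 1) (t + 1) = 0 := hz (x + 1) (t + 1)
        (by push_cast; rw [abs_le]; constructor <;> linarith [hxN.1, hxN.2]) (by push_cast; linarith)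
      have z4 : w x t = 0 := hz x t
        (by rw [abs_le]; constructor <;> linarith [hxN.1, hxN.2]) (by linarith)
      have z5 : w x (t + 1 + 1) = 0 := hz x (t + 1 + 1)
        (by rw [abs_le]; constructor <;> linarith [hxN.1, hxN.2]) (by push_cast; linarith)
      constructor
      · unfold St fA fB
        rw [sub_add_cancel, add_sub_cancel_right, z1, z2, z3, z4, z5]
        norm_num
      · rw [z1]
        unfold PP
        rw [A_zero]
        push_cast
        rw [abs_le]
        constructor <;> linarith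

/-- The columns of the diagonal square, upwards. -/
theorem Ctx.F_col (c : Ctx R N e w a b) {x y0 : ℤ}
    (h1 : XX N a b + 10 * e ≤ x) (h2 : (x : ℝ) ≤ XX N a (b + 1) - 10 * e)
    (h3 : YY N a b - e - 4 ≤ y0) (hs : St w a b x (y0 + 1)) {y : ℤ}
    (hy : y0 + 1 ≤ y) (hy2 : (y : ℝ) ≤ YY N (a + 1) b - 4 * e) : St w a b x y := by
  have ha := c.ha
  have hb := c.hb
  have he := c.he
  obtain ⟨hxN, hx0⟩ := c.colF (x := x) (by linarith) (by linarith)
  have hxN' : |(x : ℝ)| ≤ N / 4 - e := by linarith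
  refine ascend c.base hs (y1 := y) (fun t ht1 ht2 => ?_) y hy le_rfl
  have ht : (t : ℝ) + 1 ≤ y := by exact_mod_cast ht2
  have ht' : (y0 : ℝ) + 1 ≤ t := by exact_mod_cast ht1
  obtain ⟨q1, q2, q3⟩ := c.no_up (x := x) (t := t) hxN' (by omega)
    (fun _ _ => by linarith) (Or.inr (by linarith)) (Or.inl (by linarith))
  refine ⟨by omega, c.ok_F (by linarith) (by linarith) (by push_cast; linarith)
    (by push_cast; linarith), q1, q2, ?_, q3⟩
  intro hr
  have := (c.pkg.runW (a + 1) b x t (by omega) hb (by have := c.haR; omega)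
    (by have := c.hbR; omega) hxN' hr).1
  rw [abs_le] at this
  linarith [this.1]

/-- The top run in the columns of the diagonal square. -/
theorem Ctx.F_top (c : Ctx R N e w a b) {g y : ℤ} (hg : GCol N e a b g)
    (g1 : XX N a b + 10 * e ≤ g) (g2 : (g : ℝ) ≤ XX N a (b + 1) - 10 * e)
    (hs : St w a b g y) (hy : (y : ℝ) ≤ YY N (a + 1) b - 4 * e) :
    ∃ t : ℤ, YY N (a + 1) b - e ≤ t ∧ (t : ℝ) ≤ YY N (a + 1) b + e ∧
      ∀ x : ℤ, XX N a b + 10 * e ≤ x → (x : ℝ) ≤ XX N a (b + 1) - 10 * e →
        St w a b x t ∧ |(w x t : ℝ) - PP N (a + 1) b x t| ≤ e := by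
  have ha := c.ha
  have hb := c.hb
  have haR := c.haR
  have hbR := c.hbR
  have he := c.he
  have hgap := c.gap
  have hbig := c.big
  have r1 := c.r1
  have r2 := c.r2
  have sq := c.sqF
  have m3 := YY_mem c.hN.le a b
  have m4 := YY_neg c.hN (a := a) hb
  have m5 := XX_mem c.hN.le a b
  have m6 := XX_neg c.hN (b := b + 1) ha
  have m7 := YY_neg c.hN (a := a + 1) hb
  obtain ⟨t, t1, t2, t3, t4, t5⟩ := c.top hg hs (fun _ _ => by linarith) (Or.inr (by linarith))
    (Or.inl (by linarith))
  rw [abs_le] at t4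
  refine ⟨t, by linarith [t4.1], by linarith [t4.2], ?_⟩
  have keyR := ext_right (P := fun x => St w a b x t ∧ WR w (a + 1) b x t) (g := g)
    (x2 := ⌊XX N a (b + 1) - 10 * e⌋) ⟨t3 t t1 le_rfl, t2⟩ (by
      rintro x x1 x2 ⟨p1, p2⟩
      have x1' : (g : ℝ) ≤ x := by exact_mod_cast x1
      have x2' : (x : ℝ) + 1 ≤ XX N a (b + 1) - 10 * e := by
        have := Int.floor_le (XX N a (b + 1) - 10 * e)
        have h : (x : ℝ) + 1 ≤ ⌊XX N a (b + 1) - 10 * e⌋ := by exact_mod_cast x2
        linarith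
      obtain ⟨hxN, hx0⟩ := c.colF (x := x + 1) (by push_cast; linarith) (by push_cast; linarith)
      have hxN : |((x + 1 : ℤ) : ℝ)| ≤ N / 4 - e := by linarith
      refine topR c.base (by omega) (by omega) p1 p2 ?_ ?_ ?_ ?_
      · intro hc
        obtain ⟨n1, n2, n3, -⟩ := c.pkg.locP (a + 1) (b + 1) (x + 1) t (by rw [abs_le]; omega)
          (by rw [abs_le]; omega) (by omega) hxN (by omega) hc
        rw [add_sub_cancel_right] at n1
        push_cast at n1
        linarith
      · intro hc
        by_cases hab : a = 0 ∧ b = 0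
        · obtain ⟨rfl, rfl⟩ := hab
          have := c.pkg.loc0V _ _ hxN (Or.inr hc)
          push_cast at this
          rw [abs_le, abs_le] at this
          rcases this with n | n <;> linarith [n.1, n.2, m3.1, m5.1, t4.1, t4.2]
        · obtain ⟨n1, n2, n3, -⟩ := c.pkg.locM a b (x + 1) t (by rw [abs_le]; omega)
            (by rw [abs_le]; omega) hab hxN (by omega) hc
          push_cast at n1 n2 n3
          rw [abs_le] at n3
          linarith [n3.1, n3.2, t4.1, t4.2]
      · intro hc
        obtain ⟨n1, n2, n3, -⟩ := c.pkg.locM (a + 1) (b + 1) (x + 1) (t + 1)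
          (by rw [abs_le]; omega) (by rw [abs_le]; omega) (by omega) hxN (by omega) hc
        push_cast at n3
        rw [abs_le] at n3
        linarith [n3.1, n3.2, t4.1, t4.2]
      · intro hc
        rcases c.pkg.locF (a + 1) (b + 1) (x + 1) t (by rw [abs_le]; omega)
          (by rw [abs_le]; omega) (by omega) hxN (Or.inr (Or.inr hc)) with
          ⟨n1, n2, n3⟩ | ⟨n1, n2, n3⟩
        · rw [add_sub_cancel_right] at n1
          push_cast at n1
          linarith
        · push_cast at n3
          rw [abs_le] at n3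
          linarith [n3.1, n3.2, t4.1, t4.2])
  have keyL := ext_left (P := fun x => St w a b x t ∧ WR w (a + 1) b x t) (g := g)
    (x1 := ⌈XX N a b + 10 * e⌉) ⟨t3 t t1 le_rfl, t2⟩ (by
      rintro x x1 x2 ⟨p1, p2⟩
      have x1' : XX N a b + 10 * e ≤ (x : ℝ) - 1 := by
        have := Int.le_ceil (XX N a b + 10 * e)
        have h : (⌈XX N a b + 10 * e⌉ : ℝ) + 1 ≤ x := by exact_mod_cast x1
        linarith
      have x2' : (x : ℝ) ≤ g := by exact_mod_cast x2
      obtain ⟨hxN, hx0⟩ := c.colF (x := x - 1) (by push_cast; linarith) (by push_cast; linarith)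
      obtain ⟨hxN2, hx02⟩ := c.colF (x := x - 1 - 1) (by push_cast; linarith)
        (by push_cast; linarith)
      have hxN : |((x - 1 : ℤ) : ℝ)| ≤ N / 4 - e := by linarith
      have hxN2 : |((x - 1 - 1 : ℤ) : ℝ)| ≤ N / 4 - e := by linarith
      refine topL c.base (by omega) (by omega) p1 p2 ?_ ?_ ?_ ?_
      · intro hc
        obtain ⟨n1, n2, n3, -⟩ := c.pkg.locP a (b + 1) (x - 1) t (by rw [abs_le]; omega)
          (by rw [abs_le]; omega) (by omega) hxN (by omega) hc
        push_cast at n1 n2 n3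
        rw [abs_le] at n3
        linarith [n3.1, n3.2, t4.1, t4.2]
      · intro hc
        obtain ⟨n1, n2, n3, -⟩ := c.pkg.locM (a + 1) b (x - 1) t
          (by rw [abs_le]; omega) (by rw [abs_le]; omega) (by omega) hxN (by omega) hc
        rw [add_sub_cancel_right] at n2
        push_cast at n2
        linarith
      · intro hc
        obtain ⟨n1, n2, n3, -⟩ := c.pkg.locP (a + 1) b (x - 1) (t + 1) (by rw [abs_le]; omega)
          (by rw [abs_le]; omega) (by omega) hxN (by omega) hc
        rw [add_sub_cancel_right] at n3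
        push_cast at n3
        rw [abs_le] at n3
        linarith [n3.1, n3.2, t4.1, t4.2]
      · intro hc
        rcases c.pkg.locF (a + 1) b (x - 1 - 1) t (by rw [abs_le]; omega)
          (by rw [abs_le]; omega) (by omega) hxN2 (Or.inr (Or.inr hc)) with
          ⟨n1, n2, n3⟩ | ⟨n1, n2, n3⟩
        · rw [add_sub_cancel_right] at n3
          push_cast at n3
          rw [abs_le] at n3
          linarith [n3.1, n3.2, t4.1, t4.2]
        · rw [add_sub_cancel_right] at n2
          push_cast at n2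
          linarith)
  intro x x1 x2
  have hq : St w a b x t ∧ WR w (a + 1) b x t := by
    rcases le_total g x with h | h
    · exact keyR x h (Int.le_floor.2 x2)
    · exact keyL x (Int.ceil_le.2 x1) h
  obtain ⟨q1, q2⟩ := hq
  obtain ⟨hxN, hx0⟩ := c.colF (x := x) (by linarith) (by linarith)
  exact ⟨q1, (c.pkg.runW (a + 1) b x t (by omega) hb (by omega) (by omega) (by linarith) q2).2⟩

/-- The columns of the diagonal square, downwards. -/
theorem Ctx.F_col' (c : Ctx R N e w a b) {x t : ℤ}
    (h1 : XX N a b + 10 * e ≤ x) (h2 : (x : ℝ) ≤ XX N a (b + 1) - 10 * e)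
    (h3 : (t : ℝ) ≤ YY N (a + 1) b + e) (hs : St w a b x t) {y : ℤ}
    (hy : y ≤ t) (hy2 : YY N a b + 4 * e ≤ y) : St w a b x y := by
  have ha := c.ha
  have hb := c.hb
  have he := c.he
  obtain ⟨hxN, hx0⟩ := c.colF (x := x) (by linarith) (by linarith)
  have hxN' : |(x : ℝ)| ≤ N / 4 - e := by linarith
  refine descend c.base hs (y1 := y) (fun s ht1 ht2 => ?_) y le_rfl hy
  have ht : (s : ℝ) + 1 ≤ t := by exact_mod_cast ht2
  have ht' : (y : ℝ) ≤ s := by exact_mod_cast ht1
  obtain ⟨q1, q2, q3⟩ := c.no_down (x := x) (t := s) hxN' (by omega)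
    (Or.inl (by linarith)) (Or.inr (by linarith))
  refine ⟨by omega, c.ok_F (by linarith) (by linarith) (by linarith)
    (by linarith), q1, q2, ?_, q3⟩
  intro hr
  have := (c.pkg.runW a b x s ha hb (by have := c.haR; omega)
    (by have := c.hbR; omega) hxN' hr).1
  rw [abs_le] at this
  linarith [this.2]

/-- The diagonal square. -/
theorem Ctx.F (c : Ctx R N e w a b)
    (hgF : ∃ g : ℤ, GCol N e a b g ∧ XX N a b + 10 * e ≤ g ∧ (g : ℝ) ≤ XX N a (b + 1) - 10 * e)
    (hgB : ∃ g : ℤ, GCol N e a b g ∧ ((b < a ∧ XX N (a - 1) b + 8 * e < g ∧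
        (g : ℝ) < XX N a b - 4 * e) ∨
      (a ≤ b ∧ XX N a (b + 1) + 4 * e < g ∧ (g : ℝ) < XX N (a - 1) (b + 1) - 8 * e ∧ g < 0)))
    {x y : ℤ} (hx1 : XX N a b + 12 * e < x) (hx2 : (x : ℝ) < XX N a (b + 1) - 12 * e)
    (hy1 : YY N a b + 12 * e < y) (hy2 : (y : ℝ) < YY N (a + 1) b - 12 * e) :
    St w a b x y ∧ max (PP N a b x y) (PP N (a + 1) (b + 1) x y) - 6 * e ≤ (w x y : ℝ) ∧
      (w x y : ℝ) ≤ max (PP N a b x y) (PP N (a + 1) (b + 1) x y) + 62 * e := by
  have ha := c.ha
  have hb := c.hb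
  have haR := c.haR
  have hbR := c.hbR
  have he := c.he
  have hgap := c.gap
  have hbig := c.big
  have sq := c.sqF
  have hbR' : (0 : ℝ) ≤ b := by exact_mod_cast hb
  obtain ⟨y0, y01, y02, hbot⟩ := c.F_bot hgB
  obtain ⟨g, hg, g1, g2⟩ := hgF
  have hsg : St w a b g ⌊YY N (a + 1) b - 4 * e⌋ := by
    have f1 := Int.floor_le (YY N (a + 1) b - 4 * e)
    have f2 := Int.lt_floor_add_one (YY N (a + 1) b - 4 * e)
    refine c.F_col g1 g2 y01 (hbot g g1 g2).1 ?_ f1
    have : (y0 : ℝ) + 1 ≤ ⌊YY N (a + 1) b - 4 * e⌋ := by linarith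
    exact_mod_cast this
  obtain ⟨t, t1, t2, htop⟩ := c.F_top hg g1 g2 hsg (Int.floor_le _)
  -- all columns
  have hall : ∀ x y : ℤ, XX N a b + 10 * e ≤ x → (x : ℝ) ≤ XX N a (b + 1) - 10 * e →
      y0 + 1 ≤ y → y ≤ t → St w a b x y := by
    intro x y x1 x2 y1 y2
    by_cases hy : (y : ℝ) ≤ YY N (a + 1) b - 4 * e
    · exact c.F_col x1 x2 y01 (hbot x x1 x2).1 y1 hy
    · push Not at hy
      exact c.F_col' x1 x2 t2 (htop x x1 x2).1 y2 (by linarith)
  -- bounds
  have hbd : ∀ x y : ℤ, XX N a b + 10 * e ≤ x → (x : ℝ) ≤ XX N a (b + 1) - 10 * e →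
      y0 + 1 ≤ y → y ≤ t → PP N a b x y - e - 10 ≤ w x y ∧
        (w x y : ℝ) ≤ PP N a (b + 1) x y + 5 * e + 26 ∧
        (w x y : ℝ) ≤ PP N (a + 1) b x y + e + 3 ∧
        PP N (a + 1) (b + 1) x y - 5 * e - 3 ≤ w x y := by
    intro x y x1 x2 y1 y2
    have g1 := col_grow (w := w) (x := x) (b := b) y1
      (fun s s1 s2 => (hall x s x1 x2 s1 (by omega)).2.2.2)
    have g2 := col_grow (w := w) (x := x) (b := b) y2
      (fun s s1 s2 => (hall x s x1 x2 (by omega) (by omega)).2.2.2)
    have v1 := (hbot x x1 x2).2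
    have v2 := (htop x x1 x2).2
    rw [abs_le] at v1 v2
    have q1 : PP N a b x y - PP N a b x (y0 + 1) = 4 * b * (y - (y0 + 1)) := by
      unfold PP
      push_cast
      ring
    have q2 : PP N (a + 1) b x t - PP N (a + 1) b x y = 4 * b * (t - y) := by
      unfold PP
      push_cast
      ring
    have q3 := PP_YY N a b x y
    have q4 := PP_YY N (a + 1) b x y
    have e1 : 4 * ((b : ℝ) + 1) * (y - (y0 + 1)) = 4 * b * (y - (y0 + 1)) + 4 * (y - (y0 + 1)) := by
      ring
    have e2 : 4 * ((b : ℝ) + 1) * (t - y) = 4 * b * (t - y) + 4 * (t - y) := by ring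
    push_cast at g1
    rw [e1] at g1
    rw [e2] at g2
    refine ⟨by linarith [g1.1, v1.1], by linarith [g1.2, v1.2], by linarith [g2.1, v2.2],
      by linarith [g2.2, v2.1]⟩
  -- the rectangle
  set x1 := ⌈XX N a b + 10 * e⌉ with hx1d
  set x2 := ⌊XX N a (b + 1) - 10 * e⌋ with hx2d
  set y1 := ⌈YY N a b + 10 * e⌉ with hy1d
  set y2 := ⌊YY N (a + 1) b - 10 * e⌋ with hy2d
  have a1 := Int.le_ceil (XX N a b + 10 * e)
  have a2 := Int.ceil_lt_add_one (XX N a b + 10 * e)
  have a3 := Int.floor_le (XX N a (b + 1) - 10 * e)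
  have a4 := Int.lt_floor_add_one (XX N a (b + 1) - 10 * e)
  have a5 := Int.le_ceil (YY N a b + 10 * e)
  have a6 := Int.ceil_lt_add_one (YY N a b + 10 * e)
  have a7 := Int.floor_le (YY N (a + 1) b - 10 * e)
  have a8 := Int.lt_floor_add_one (YY N (a + 1) b - 10 * e)
  rw [← hx1d] at a1 a2
  rw [← hx2d] at a3 a4
  rw [← hy1d] at a5 a6
  rw [← hy2d] at a7 a8
  set t0 := ⌈(N * A a b + 60 * e) / 4⌉ with ht0
  set t2' := ⌈(N * A (a + 1) (b + 1) + 60 * e) / 4⌉ with ht2
  have b1 := Int.le_ceil ((N * A a b + 60 * e) / 4)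
  have b2 := Int.ceil_lt_add_one ((N * A a b + 60 * e) / 4)
  have b3 := Int.le_ceil ((N * A (a + 1) (b + 1) + 60 * e) / 4)
  have b4 := Int.ceil_lt_add_one ((N * A (a + 1) (b + 1) + 60 * e) / 4)
  rw [← ht0] at b1 b2
  rw [← ht2] at b3 b4
  -- the comparison function
  have G1 : ∀ x y : ℤ, PP N a b x y + 60 * e ≤ (Gmax a b t0 t2' x y : ℝ) := by
    intro x y
    unfold Gmax PP
    push_cast
    exact le_trans (by linarith) (le_max_left _ _)
  have G2 : ∀ x y : ℤ, PP N (a + 1) (b + 1) x y + 60 * e ≤ (Gmax a b t0 t2' x y : ℝ) := by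
    intro x y
    unfold Gmax PP
    push_cast
    exact le_trans (by linarith) (le_max_right _ _)
  have G3 : ∀ x y : ℤ, (Gmax a b t0 t2' x y : ℝ) ≤
      max (PP N a b x y) (PP N (a + 1) (b + 1) x y) + 60 * e + 6 := by
    intro x y
    have m1 := le_max_left (PP N a b x y) (PP N (a + 1) (b + 1) x y)
    have m2 := le_max_right (PP N a b x y) (PP N (a + 1) (b + 1) x y)
    unfold PP at m1 m2 ⊢
    unfold Gmax
    push_cast at m1 m2 ⊢
    apply max_le <;> linarith
  -- rows and columns in the rectangle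
  have hrec : ∀ x y : ℤ, x1 ≤ x → x ≤ x2 → y1 ≤ y → y ≤ y2 →
      XX N a b + 10 * e ≤ x ∧ (x : ℝ) ≤ XX N a (b + 1) - 10 * e ∧ y0 + 1 ≤ y ∧ y ≤ t ∧
      (y1 : ℝ) ≤ y ∧ (y : ℝ) ≤ y2 := by
    intro x y c1 c2 c3 c4
    have c1' : (x1 : ℝ) ≤ x := by exact_mod_cast c1
    have c2' : (x : ℝ) ≤ x2 := by exact_mod_cast c2
    have c3' : (y1 : ℝ) ≤ y := by exact_mod_cast c3
    have c4' : (y : ℝ) ≤ y2 := by exact_mod_cast c4
    refine ⟨by linarith, by linarith, ?_, ?_, c3', c4'⟩
    · have : (y0 : ℝ) + 1 ≤ y := by linarith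
      exact_mod_cast this
    · have : (y : ℝ) ≤ t := by linarith
      exact_mod_cast this
  have hy12 : y1 ≤ y2 := by
    have : (y1 : ℝ) ≤ y2 := by linarith
    exact_mod_cast this
  have hcmp := cmp_rect c.base (a := a) (b := b) (t0 := t0) (t2 := t2') (x1 := x1) (x2 := x2)
    (y1 := y1) (y2 := y2) (by
      rintro ⟨c1, c2, c3, c4⟩
      have h := XX_neg c.hN (b := b + 1) ha
      have c2' : (0 : ℝ) ≤ x2 := by exact_mod_cast c2
      linarith)
    (by
      intro x y c1 c2 c3 c4
      obtain ⟨d1, d2, d3, d4, d5, d6⟩ := hrec x y c1 c2 c3 c4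
      obtain ⟨-, -, e3, e4, -, -⟩ := hrec x y1 c1 c2 le_rfl hy12
      obtain ⟨-, i2, -, -⟩ := hbd x y1 d1 d2 e3 e4
      have q3 := PP_YY N a b x y1
      have hw : (0 : ℝ) ≤ w x y1 := by exact_mod_cast c.base.nonneg x y1
      have q1 : PP N a b x y - PP N a b x y1 = 4 * b * (y - y1) := by
        unfold PP
        ring
      have q2 : 0 ≤ 4 * (b : ℝ) * (y - y1) := mul_nonneg (by linarith) (by linarith)
      have := G1 x y
      have h3 : (3 : ℝ) ≤ Gmax a b t0 t2' x y := by linarith
      exact_mod_cast h3)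
    (by
      intro x y c1 c2 c3 c4 hbdry
      obtain ⟨d1, d2, d3, d4, d5, d6⟩ := hrec x y c1 c2 c3 c4
      obtain ⟨i1, i2, i3, i4⟩ := hbd x y d1 d2 d3 d4
      have k1 := G1 x y
      have k2 := G2 x y
      have q1 := PP_XX N a b x y
      have q2 := PP_XX N a (b + 1) x y
      have q3 := PP_YY N a b x y
      have q4 := PP_YY N (a + 1) b x y
      have h : (w x y : ℝ) ≤ Gmax a b t0 t2' x y := by
        rcases hbdry with rfl | rfl | rfl | rfl <;> linarith
      exact_mod_cast h)
  have hcx1 : x1 ≤ x := by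
    rw [hx1d]
    exact Int.ceil_le.2 (by linarith)
  have hcx2 : x ≤ x2 := by
    rw [hx2d]
    exact Int.le_floor.2 (by linarith)
  have hcy1 : y1 ≤ y := by
    rw [hy1d]
    exact Int.ceil_le.2 (by linarith)
  have hcy2 : y ≤ y2 := by
    rw [hy2d]
    exact Int.le_floor.2 (by linarith)
  obtain ⟨d1, d2, d3, d4, d5, d6⟩ := hrec x y hcx1 hcx2 hcy1 hcy2
  obtain ⟨i1, i2, i3, i4⟩ := hbd x y d1 d2 d3 d4
  refine ⟨hall x y d1 d2 d3 d4, ?_, ?_⟩
  · have : max (PP N a b x y) (PP N (a + 1) (b + 1) x y) ≤ w x y + 6 * e :=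
      max_le (by linarith) (by linarith)
    linarith
  · have h : (w x y : ℝ) ≤ Gmax a b t0 t2' x y := by
      exact_mod_cast hcmp x y hcx1 hcx2 hcy1 hcy2
    linarith [G3 x y]

end RotorNE
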