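import Mathlib.Tactic
import Mathlib.Data.Nat.Nth
import Mathlib.Data.Int.Interval
import Mathlib.Data.Int.ConditionallyCompleteOrder
import Mathlib.Data.Int.Star
import Mathlib.Algebra.Order.Star.Real
import Mathlib.Analysis.SpecialFunctions.Integrals.Basic
import Mathlib.Analysis.Fourier.RiemannLebesgueLemma
import Mathlib.Analysis.SpecificLimits.Basic
import Mathlib.Analysis.Asymptotics.SpecificAsymptotics
import Mathlib.MeasureTheory.Integral.Prod
import Mathlib.MeasureTheory.Measure.Lebesgue.Basic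
import Pool.Agent.Lib.MP_936783_pr.PkgC
import Pool.Agent.Lib.MP_936783_pr.ConvN

/-!
# The slope zero in the four frames, and the fields of `Pkg` for the truncated odometer
-/

open Filter Topology

noncomputable section

namespace RotorNE

/-- Positions of one contact. -/
structure ZP (K : Kc) (X X' Y Y' e : ℝ) : Prop where
  xi : |(K.edgeIn.1 : ℝ) - X| ≤ e
  xo : |(K.edgeOut.1 : ℝ) - X'| ≤ e
  yi : |(K.nodeIn.2 : ℝ) - Y| ≤ e
  yo : |(K.nodeOut.2 : ℝ) - Y'| ≤ e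

theorem ZP.rot {K : Kc} {X X' Y Y' e : ℝ} (h : ZP K X X' Y Y' e) :
    ZP K.rot Y' Y (-X) (-X') (e + 1) := by
  obtain ⟨h1, h2, h3, h4⟩ := h
  refine ⟨?_, ?_, ?_, ?_⟩
  · rw [Kc.rot_edgeIn]
    exact h4.trans (by linarith)
  · rw [Kc.rot_edgeOut]
    exact h3.trans (by linarith)
  · rw [Kc.rot_nodeIn]
    push_cast
    rw [abs_le] at h1 ⊢
    constructor <;> linarith [h1.1, h1.2]
  · rw [Kc.rot_nodeOut]
    push_cast
    rw [abs_le] at h2 ⊢
    constructor <;> linarith [h2.1, h2.2]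

theorem xx_zero (N : ℝ) : XX N 0 0 = -(N / 4) := by
  unfold XX xi
  rw [Kernel.A_zero, zero_add, Kernel.A_one]
  ring

theorem xx_neg_one (N : ℝ) : XX N (0 - 1) 0 = N / 4 := by
  unfold XX xi
  rw [show (0 - 1 : ℤ) = -1 by norm_num, show (-1 + 1 : ℤ) = 0 by norm_num, Kernel.A_zero,
    Kernel.A_neg, Kernel.A_one]
  ring

theorem yy_zero (N : ℝ) : YY N 0 0 = -(N / 4) := by
  have h := xx_zero N
  unfold XX at h
  unfold YY
  rw [eta_eq]
  exact h

theorem pp_zero (N : ℝ) (x y : ℤ) : PP N 0 0 x y = 0 := by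
  unfold PP
  rw [Kernel.A_zero]
  push_cast
  ring

theorem Zero.ofX {N e e1 X X' Y Y' : ℝ} {exH : ℤ → ℤ → Prop} {w : ℤ → ℤ → ℤ} {K : Kc}
    (h : ZP K X X' Y Y' e1) (hX : (N / 4 ≤ X ∧ N / 4 ≤ X') ∨ (X ≤ -(N / 4) ∧ X' ≤ -(N / 4)))
    (he : e1 < e) (hex : ¬ exH 0 0) : Zero N e exH w K := by
  have key : ∀ x y : ℤ, (K.vp x y ∨ K.vm x y ∨ K.cf x y) → |(x : ℝ)| ≤ N / 4 - e → False := by
    intro x y hc hx
    have hr : (K.edgeIn.1 ≤ x ∧ x ≤ K.edgeOut.1) ∨ (K.edgeOut.1 ≤ x ∧ x ≤ K.edgeIn.1) := by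
      rcases hc with hc | hc | hc
      · have := Kc.vp_range hc
        omega
      · have := Kc.vm_range hc
        omega
      · have := Kc.cf_range hc
        omega
    obtain ⟨h1, h2, -, -⟩ := h
    rw [abs_le] at h1 h2 hx
    rcases hr with ⟨g1, g2⟩ | ⟨g1, g2⟩
    · have g1' : (K.edgeIn.1 : ℝ) ≤ x := by exact_mod_cast g1
      have g2' : (x : ℝ) ≤ K.edgeOut.1 := by exact_mod_cast g2
      rcases hX with ⟨k1, k2⟩ | ⟨k1, k2⟩
      · linarith [h1.1, hx.2]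
      · linarith [h2.2, hx.1]
    · have g1' : (K.edgeOut.1 : ℝ) ≤ x := by exact_mod_cast g1
      have g2' : (x : ℝ) ≤ K.edgeIn.1 := by exact_mod_cast g2
      rcases hX with ⟨k1, k2⟩ | ⟨k1, k2⟩
      · linarith [h2.1, hx.2]
      · linarith [h1.2, hx.1]
  exact ⟨fun x y hc hx => (key x y hc hx).elim, fun x y hc hx => key x y (Or.inl hc) hx,
    fun x y hc hx => (key x y hc hx).elim, fun h => (hex h).elim, fun h => (hex h).elim⟩

theorem Zero.ofY {N e e1 Y Y' : ℝ} {exH : ℤ → ℤ → Prop} {w : ℤ → ℤ → ℤ} {K : Kc}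
    (h : ZP K (N / 4) (-(N / 4)) Y Y' e1) (hY : Y = -(N / 4) ∨ Y = 3 * N / 4)
    (h0 : 0 ≤ e1) (he : 2 * e1 + 4 ≤ e)
    (hW : exH 0 0 → ∀ x y : ℤ, |(x : ℝ)| ≤ N / 4 - e → WR w 0 0 x y →
      |y - YY N 0 0| ≤ e ∧ |w x y - PP N 0 0 x y| ≤ e)
    (hE : exH 0 0 → ∀ x y : ℤ, |(x : ℝ)| ≤ N / 4 - e → ER w 0 0 x y → False) :
    Zero N e exH w K := by
  obtain ⟨h1, h2, h3, h4⟩ := h
  refine ⟨?_, ?_, ?_, hW, hE⟩
  · intro x y hc hx
    rw [abs_le] at h1 h2 h3 hx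
    have hr : (K.edgeIn.1 ≤ x ∧ x ≤ K.edgeOut.1) ∨
        (x + y - 1 ≤ K.edgeOut.1 + K.nodeIn.2 ∧ K.edgeOut.1 + K.nodeIn.2 ≤ x + y) := by
      rcases hc with hc | hc | hc
      · have := Kc.vp_range hc
        omega
      · have := Kc.vm_range hc
        omega
      · have := Kc.cf_range hc
        omega
    rcases hr with ⟨g1, g2⟩ | ⟨g1, g2⟩
    · exfalso
      have g1' : (K.edgeIn.1 : ℝ) ≤ x := by exact_mod_cast g1
      linarith [h1.1, hx.2]
    · have g1' : (x : ℝ) + y - 1 ≤ K.edgeOut.1 + K.nodeIn.2 := by exact_mod_cast g1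
      have g2' : (K.edgeOut.1 : ℝ) + K.nodeIn.2 ≤ x + y := by exact_mod_cast g2
      rcases hY with rfl | rfl
      · left
        rw [abs_le]
        constructor <;> linarith [h2.1, h2.2, h3.1, h3.2]
      · right
        rw [abs_le]
        constructor <;> linarith [h2.1, h2.2, h3.1, h3.2]
  · intro x y hc hx
    rw [abs_le] at h1 hx
    have g1' : (K.edgeIn.1 : ℝ) < x := by exact_mod_cast (Kc.vp_range hc).1
    linarith [h1.1, hx.2]
  · intro x y hc hx hg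
    refine ⟨four_le (hg.1.trans_le le_rfl) ?_ (by linarith : e1 + 4 ≤ e),
      four_le (hg.2.trans_le le_rfl) ?_ (by linarith : e1 + 4 ≤ e)⟩
    · rw [xx_zero]
      exact h2
    · rw [xx_neg_one]
      exact h1

/-! ### Frame three -/

theorem fA_rot3 (w : ℤ → ℤ → ℤ) (x y : ℤ) :
    fA (rotc (rotc (rotc w))) x y = -fB w y (-x - 1) - 1 := by
  rw [fA_rotc, fB_rotc, fA_rotc]
  unfold rotA rotB
  simp only
  rw [show -(-y) = y by ring]

theorem fB_rot3 (w : ℤ → ℤ → ℤ) (x y : ℤ) :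
    fB (rotc (rotc (rotc w))) x y = fA w y (-x) := by
  rw [fB_rotc, fA_rotc, fB_rotc]
  unfold rotA rotB
  simp only
  rw [show -(-y - 1) - 1 = y by ring]
  ring

theorem rotc3 (w : ℤ → ℤ → ℤ) (x y : ℤ) : rotc (rotc (rotc w)) x y = w y (-x) + 3 := by
  unfold rotc
  rw [neg_neg]
  ring

theorem WR_three {w : ℤ → ℤ → ℤ} {R a r Y : ℤ} {K : ℤ → ℤ → Kc}
    (C : CSys (fA w) (fB w) R (-a) r Y K) {x y : ℤ} (h : WR (rotc (rotc (rotc w))) 0 0 x y) :
    Y ≤ -x - 1 ∨ y = -a - 1 := by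
  obtain ⟨-, h2, -, h4, -, h6, h7⟩ := h
  rw [fA_rot3] at h2 h4
  rw [fB_rot3] at h6 h7
  rw [show -(x + 1) = -x - 1 by ring] at h7
  have := C.v0S y (-x - 1) (by omega) (by omega) h7 (by rw [show -x - 1 + 1 = -x by ring]; exact h6)
  omega

theorem ER_three {w : ℤ → ℤ → ℤ} {R a r Y : ℤ} {K : ℤ → ℤ → Kc}
    (C : CSys (fA w) (fB w) R (-a) r Y K) {x y : ℤ} (h : ER (rotc (rotc (rotc w))) 0 0 x y) :
    (K 0 0).edgeOut.2 ≤ -x - 1 ∨ Y ≤ -x - 1 := by
  obtain ⟨-, h2, -, h4, -, h6, h7⟩ := h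
  rw [fA_rot3] at h2 h4
  rw [fB_rot3] at h6 h7
  rw [show -(x + 1) = -x - 1 by ring] at h7
  have := C.v0N y (-x - 1) (by omega) (by omega) h7 (by rw [show -x - 1 + 1 = -x by ring]; exact h6)
  omega

theorem Kc.edgeOut_snd {K : Kc} (h : K.edgeIn.1 < K.edgeOut.1) : K.edgeOut.2 = K.nodeOut.2 := by
  cases K with
  | ne x y m => rfl
  | se x y m =>
    exfalso
    simp only [Kc.edgeIn, Kc.edgeOut] at h
    omega
  | fe x y =>
    exfalso
    simp only [Kc.edgeIn, Kc.edgeOut] at h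
    omega
  | fw x y =>
    exfalso
    simp only [Kc.edgeIn, Kc.edgeOut] at h
    omega

theorem FSys.rotc {w : ℤ → ℤ → ℤ} {R : ℤ} {exH exV : ℤ → ℤ → Prop} {K : ℤ → ℤ → Kc}
    (h : FSys (fA w) (fB w) R exH exV K) :
    FSys (fA (RotorNE.rotc w)) (fB (RotorNE.rotc w)) R (rotEH exV) (rotEV exH) (rotKc K) := by
  rw [fA_rotc, fB_rotc]
  exact h.rot

/-- The four frames of the truncated odometer. -/
theorem gpkg_frames {R a r Y : ℤ} {N e1 e : ℝ} {w : ℤ → ℤ → ℤ} {K : ℤ → ℤ → Kc}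
    (C : CSys (fA w) (fB w) (R + 1) (-a) r Y K) (F : FConv (R + 1) N e1 w K) (hN : 0 ≤ N)
    (hz : ZP (K 0 0) (N / 4) (3 * N / 4) (-(N / 4)) (N / 4) e1)
    (hw : ∀ y, w (-a - 1) y = 0) (hYN : N / 4 ≤ Y) (ha : |(a : ℝ) - N / 4| ≤ e1)
    (h0 : 0 ≤ e1) (he : 2 * e1 + 100 ≤ e) (hR : 0 ≤ R) (j : ℕ) (hj : j < 4) :
    GPkg R N e (rotc^[j] w) := by
  have S0 := C.toF
  have S1 := S0.rotc
  have S2 := S1.rotc
  have S3 := S2.rotc
  have F1 := F.rot S0.isK
  have F2 := F1.rot S1.isK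
  have F3 := F2.rot S2.isK
  have k0 : ∀ K : ℤ → ℤ → Kc, rotKc K 0 0 = (K 0 0).rot := by
    intro K
    unfold rotKc
    rw [neg_zero]
  have z1 := hz.rot
  have z2 := z1.rot
  have z3 := z2.rot
  rw [← k0] at z1
  rw [← k0, ← k0] at z2
  rw [← k0, ← k0, ← k0] at z3
  obtain rfl | rfl | rfl | rfl : j = 0 ∨ j = 1 ∨ j = 2 ∨ j = 3 := by omega
  · rw [Function.iterate_zero, id]
    refine GPkg.of S0 F (fun a b _ _ h => h.elim) (Zero.ofX hz ?_ (by linarith) id) h0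
      (by linarith) hR
    left
    constructor <;> linarith
  · have e1' : rotc^[1] w = rotc w := rfl
    rw [e1']
    refine GPkg.of S1 F1 ?_ (Zero.ofY z1 (Or.inl rfl) (by linarith) (by linarith) ?_ ?_)
      (by linarith) (by linarith) hR
    · rintro a b ha hb ⟨h1, h2⟩
      omega
    · rintro ⟨h1, h2⟩
      omega
    · rintro ⟨h1, h2⟩
      omega
  · have e2' : rotc^[2] w = rotc (rotc w) := rfl
    rw [e2']
    refine GPkg.of S2 F2 (fun a b _ _ h => h.elim) (Zero.ofX z2 ?_ (by linarith) id)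
      (by linarith) (by linarith) hR
    right
    constructor <;> linarith
  · have e3' : rotc^[3] w = rotc (rotc (rotc w)) := rfl
    rw [e3']
    have hz3 : ZP (rotKc (rotKc (rotKc K)) 0 0) (N / 4) (-(N / 4)) (3 * N / 4) (N / 4)
        (e1 + 1 + 1 + 1) := by
      obtain ⟨q1, q2, q3, q4⟩ := z3
      rw [neg_neg] at q1 q4
      rw [show - -(3 * N / 4) = 3 * N / 4 by ring] at q3
      exact ⟨q1, q2, q3, q4⟩
    refine GPkg.of S3 F3 ?_ (Zero.ofY hz3 (Or.inr rfl) (by linarith) (by linarith) ?_ ?_)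
      (by linarith) (by linarith) hR
    · rintro a b ha hb ⟨h1, h2⟩
      omega
    · intro _ x y hx h
      rw [abs_le] at hx
      rcases WR_three C h with g | rfl
      · exfalso
        have g' : (Y : ℝ) ≤ -x - 1 := by exact_mod_cast g
        linarith [hx.1]
      · rw [rotc3, hw, yy_zero, pp_zero]
        rw [abs_le] at ha
        constructor
        · push_cast
          rw [abs_le]
          constructor <;> linarith [ha.1, ha.2]
        · push_cast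
          rw [abs_le]
          constructor <;> linarith
    · intro _ x y hx h
      rw [abs_le] at hx
      rcases ER_three C h with g | g
      · have hz' := hz
        obtain ⟨q1, q2, q3, q4⟩ := hz'
        rw [abs_le] at q1 q2 q4
        have h1 : (K 0 0).edgeIn.1 < (K 0 0).edgeOut.1 := by
          have : ((K 0 0).edgeIn.1 : ℝ) < (K 0 0).edgeOut.1 := by
            linarith [q1.2, q2.1, hx.1, hx.2]
          exact_mod_cast this
        rw [Kc.edgeOut_snd h1] at g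
        have g' : ((K 0 0).nodeOut.2 : ℝ) ≤ -x - 1 := by exact_mod_cast g
        linarith [q4.1, hx.1]
      · have g' : (Y : ℝ) ≤ -x - 1 := by exact_mod_cast g
        linarith [hx.1]

/-! ### Convergence -/

theorem ev_close {f : ℕ → ℤ} {c : ℝ} (h : Tendsto (fun n => (f n : ℝ) / n) atTop (𝓝 c)) {δ : ℝ}
    (hδ : 0 < δ) : ∀ᶠ n : ℕ in atTop, |(f n : ℝ) - n * c| ≤ δ * n := by
  have h1 := (Metric.tendsto_nhds.1 h) δ hδ
  filter_upwards [h1, eventually_ge_atTop 1] with n hn hn1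
  have hn0 : (0 : ℝ) < n := by exact_mod_cast hn1
  rw [Real.dist_eq] at hn
  have e : (f n : ℝ) - n * c = n * ((f n : ℝ) / n - c) := by field_simp
  rw [e, abs_mul, abs_of_pos hn0]
  nlinarith

theorem ev_box {P : ℕ → ℤ → ℤ → Prop} (R : ℤ) (h : ∀ a b, ∀ᶠ n : ℕ in atTop, P n a b) :
    ∀ᶠ n : ℕ in atTop, ∀ a b : ℤ, |a| ≤ R → |b| ≤ R → P n a b := by
  have h1 : ∀ᶠ n : ℕ in atTop, ∀ p ∈ (Finset.Icc (-R) R ×ˢ Finset.Icc (-R) R : Finset (ℤ × ℤ)),
      P n p.1 p.2 := by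
    rw [Filter.eventually_all_finset]
    intro p _
    exact h p.1 p.2
  filter_upwards [h1] with n hn a b ha hb
  rw [abs_le] at ha hb
  exact hn (a, b) (by simp [Finset.mem_product, Finset.mem_Icc, ha.1, ha.2, hb.1, hb.2])

theorem fconvN (R : ℤ) {δ : ℝ} (hδ : 0 < δ) :
    ∀ᶠ n : ℕ in atTop, FConv R n (δ * n) (wN n) (KN n) := by
  have h1 := ev_box (P := fun n a b => ¬ (a = 0 ∧ b = 0) →
    |((KN n a b).edgeOut.1 : ℝ) - XX n a b| ≤ δ * n) R (by
      intro a b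
      by_cases hab : a = 0 ∧ b = 0
      · exact Eventually.of_forall fun n h => (h hab).elim
      · filter_upwards [ev_close (conv_Xo hab) hδ] with n hn _
        exact hn)
  have h2 := ev_box (P := fun n a b => |((KN n a b).edgeIn.1 : ℝ) - XX n (a - 1) b| ≤ δ * n) R
    (fun a b => ev_close (conv_Xi a b) hδ)
  have h3 := ev_box (P := fun n a b => |((KN n a b).nodeIn.2 : ℝ) - YY n a b| ≤ δ * n) R
    (fun a b => ev_close (conv_Yi a b) hδ)
  have h4 := ev_box (P := fun n a b => |((KN n a b).nodeOut.2 : ℝ) - YY n a (b - 1)| ≤ δ * n) R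
    (fun a b => ev_close (conv_Yo a b) hδ)
  have h5 := ev_box (P := fun n a b => |((KN n a b).T (wN n) a b : ℝ) - n * Kernel.A a b| ≤ δ * n) R
    (fun a b => ev_close (conv_T a b) hδ)
  filter_upwards [h1, h2, h3, h4, h5] with n g1 g2 g3 g4 g5
  exact ⟨g1, fun a b ha hb _ => g2 a b ha hb, fun a b ha hb _ => g3 a b ha hb,
    fun a b ha hb _ => g4 a b ha hb, g5⟩

theorem zpN {δ : ℝ} (hδ : 0 < δ) : ∀ᶠ n : ℕ in atTop,
    ZP (KN n 0 0) ((n : ℝ) / 4) (3 * n / 4) (-((n : ℝ) / 4)) ((n : ℝ) / 4) (δ * n) := by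
  filter_upwards [ev_close (conv_Xi 0 0) hδ, ev_close conv_Xo0 hδ, ev_close (conv_Yi 0 0) hδ,
    ev_close (conv_Yo 0 0) hδ] with n h1 h2 h3 h4
  have e1 := xx_neg_one n
  have e2 := yy_zero n
  unfold XX at e1
  unfold YY at e2
  rw [e1] at h1
  rw [e2] at h3
  have e3 : (n : ℝ) * eta 0 (0 - 1) = n / 4 := by
    rw [eta_eq]
    exact e1
  rw [e3] at h4
  refine ⟨h1, ?_, h3, h4⟩
  rwa [show (n : ℝ) * (3 / 4) = 3 * n / 4 by ring] at h2

end RotorNE
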