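import Mathlib.Tactic
import Mathlib.Data.Nat.Nth
import Mathlib.Data.Int.Interval
import Mathlib.Data.Int.ConditionallyCompleteOrder
import Mathlib.Data.Int.Star
import Mathlib.Algebra.Order.Star.Real
import Mathlib.Analysis.SpecialFunctions.Integrals.Basic
import Mathlib.Analysis.Fourier.RiemannLebesgueLemma
import Mathlib.Analysis.SpecificLimits.Basic
import Mathlib.Analysis.Asymptotics.SpecificAsymptotics
import Mathlib.MeasureTheory.Integral.Prod
import Mathlib.MeasureTheory.Measure.Lebesgue.Basic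
import Pool.Agent.Lib.MP_936783_pr.PkgD
import Pool.Agent.Lib.MP_936783_pr.AgrN
import Pool.Agent.Lib.MP_936783_pr.BaseN

/-!
# `Pkg` for the odometer, in all four frames
-/

open Filter Topology

noncomputable section

namespace RotorNE

theorem gpkgN {R : ℤ} (hR : 0 ≤ R) {ε : ℝ} (hε : 0 < ε) :
    ∀ᶠ n : ℕ in atTop, ∀ j : ℕ, j < 4 → GPkg R n (ε * n) (WW j n) := by
  have hδ : 0 < ε / 4 := by positivity
  have ha := ev_close tendsto_aN hδ
  obtain ⟨n1, hn1⟩ := exists_nat_ge (400 / ε)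
  filter_upwards [KN_spec (R.toNat + 1), fconvN (R + 1) hδ, zpN hδ, ha, agrN hε,
    eventually_ge_atTop 1, eventually_ge_atTop n1] with n h1 h2 h3 h4 h5 h6 h7 j hj
  obtain ⟨hodo, -, -, -, -⟩ := uN_full h6
  have hbig : 400 ≤ ε * n := by
    have h8 : 400 / ε ≤ n := hn1.trans (by exact_mod_cast h7)
    rw [div_le_iff₀ hε] at h8
    linarith
  have hcast : ((R.toNat + 1 : ℕ) : ℤ) = R + 1 := by
    push_cast
    omega
  rw [hcast] at h1
  have hw : ∀ y, wN n (-aN n - 1) y = 0 := by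
    intro y
    unfold wN trunc
    rw [hodo.off _ _ (Or.inl (by omega))]
    simp
  have hY : (n : ℝ) / 4 ≤ YN n := by
    have h9 : (n : ℤ) ≤ YN n := by have := YN_ge n; omega
    have h10 : (n : ℝ) ≤ YN n := by exact_mod_cast h9
    have : (0 : ℝ) ≤ n := Nat.cast_nonneg n
    linarith
  have h4' : |(aN n : ℝ) - (n : ℝ) / 4| ≤ ε / 4 * n := by
    rwa [show (n : ℝ) * (1 / 4) = n / 4 by ring] at h4
  have G := gpkg_frames h1 h2 (Nat.cast_nonneg n) h3 hw hY h4' (by positivity)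
    (show 2 * (ε / 4 * n) + 100 ≤ ε * n by linarith) hR j hj
  exact G.transfer (Nat.cast_nonneg n) (h5 j hj)

theorem Pkg.mono {R R' : ℤ} {N e : ℝ} {w : ℤ → ℤ → ℤ} (h : Pkg R' N e w) (hR : R ≤ R') :
    Pkg R N e w where
  far := h.far
  farUp := h.farUp
  loc0V := h.loc0V
  loc0F := h.loc0F
  loc0P := h.loc0P
  locP a b x y ha hb := h.locP a b x y (ha.trans hR) (hb.trans hR)
  locM a b x y ha hb := h.locM a b x y (ha.trans hR) (hb.trans hR)
  locF a b x y ha hb := h.locF a b x y (ha.trans hR) (hb.trans hR)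
  regP a b x y ha hb := h.regP a b x y (ha.trans hR) (hb.trans hR)
  regM a b x y ha hb := h.regM a b x y (ha.trans hR) (hb.trans hR)
  regF a b x y ha hb := h.regF a b x y (ha.trans hR) (hb.trans hR)
  exP a b x ha hb haR hbR := h.exP a b x ha hb (haR.trans hR) (hbR.trans hR)
  exM a b x ha hb haR hbR := h.exM a b x ha hb (haR.trans hR) (hbR.trans hR)
  runW a b x y ha hb haR hbR := h.runW a b x y ha hb (haR.trans hR) (hbR.trans hR)
  runE a b x y ha hb haR hbR := h.runE a b x y ha hb (haR.trans hR) (hbR.trans hR)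

/-- **All facts used in the exactness part.** -/
theorem pkgN (R : ℤ) {ε : ℝ} (hε : 0 < ε) :
    ∀ᶠ n : ℕ in atTop, ∀ j : ℕ, j < 4 → Pkg R n (ε * n) (WW j n) := by
  obtain ⟨n1, hn1⟩ := farN hε
  filter_upwards [gpkgN (le_max_right R 0) hε, eventually_ge_atTop n1] with n h1 h2 j hj
  obtain ⟨f1, f2⟩ := hn1 n h2 j hj
  have g := h1 j hj
  exact Pkg.mono (R' := max R 0) ⟨f1, f2, g.loc0V, g.loc0F, g.loc0P, g.locP, g.locM, g.locF, g.regP,
    g.regM, g.regF, g.exP, g.exM, g.runW, g.runE⟩ (le_max_left _ _)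

end RotorNE
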