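import Mathlib.Tactic
import Mathlib.Data.Nat.Nth
import Mathlib.Data.Int.Interval
import Mathlib.Data.Int.ConditionallyCompleteOrder
import Mathlib.Data.Int.Star
import Mathlib.Algebra.Order.Star.Real
import Mathlib.Analysis.SpecialFunctions.Integrals.Basic
import Mathlib.Analysis.Fourier.RiemannLebesgueLemma
import Mathlib.Analysis.SpecificLimits.Basic
import Mathlib.Analysis.Asymptotics.SpecificAsymptotics
import Mathlib.MeasureTheory.Integral.Prod
import Mathlib.MeasureTheory.Measure.Lebesgue.Basic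
import Pool.Agent.Lib.MP_936783_pr.ExCtx
import Pool.Agent.Lib.MP_936783_pr.BaseN
import Pool.Agent.Lib.MP_936783_pr.PkgN

/-!
# Exactness, last step: a region of constant flux where the odometer is close to a plane
-/

open Filter

noncomputable section

namespace RotorNE

/-! ### Shift by four -/

theorem WW_add_four (j n : ℕ) (x y : ℤ) : WW (j + 4) n x y = WW j n x y + 4 := by
  rw [show j + 4 = j + 1 + 1 + 1 + 1 by ring, WW_succ, WW_succ, WW_succ, WW_succ]
  unfold rotc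
  simp only [neg_neg]
  ring

theorem St_shift {w w' : ℤ → ℤ → ℤ} (h : ∀ x y, w' x y = w x y + 4) {a b x y : ℤ} :
    St w' a b x y ↔ St w a b x y := by
  unfold St fA fB
  simp only [h]
  omega

/-! ### Generic columns -/

theorem GCol.ok4' {w : ℤ → ℤ → ℤ} {a b R : ℤ} {N e : ℝ} {x : ℤ} (h : GCol N e a b x)
    (hp : Pkg R N e w) (ha : |a| + 1 ≤ R) (hb : |b| + 1 ≤ R) {d : ℤ} (hd : |d| ≤ 2) (t : ℤ) :
    Ok4 w a b (x + d) t := by
  have hd1 : |d| ≤ 3 := by omega
  have hd2 : |d - 1| ≤ 3 := by rw [_root_.abs_le] at hd ⊢; omega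
  have h0 : ¬ (x + d = 0 ∧ t = 0) := by
    have := h.h0
    rw [_root_.abs_le] at hd
    omega
  have ha' := _root_.abs_le.1 (show |a| ≤ R - 1 by omega)
  have hb' := _root_.abs_le.1 (show |b| ≤ R - 1 by omega)
  have key : ∀ a' b' : ℤ, (a' = a ∨ a' = a + 1) → (b' = b ∨ b' = b + 1) →
      Ok w a' b' (x + d) t := by
    intro a' b' h1 h2
    refine ok_gen hp (by rw [_root_.abs_le]; omega) (by rw [_root_.abs_le]; omega) (h.abs_le hd1)
      ?_ (h.genX hd1 h1 h2) ?_ h0
    · have := h.abs_le hd2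
      rw [show x + (d - 1) = x + d - 1 by ring] at this
      exact this
    · have := h.genX hd2 h1 h2
      rw [show x + (d - 1) = x + d - 1 by ring] at this
      exact this
  exact ⟨key a b (by simp) (by simp), key (a + 1) b (by simp) (by simp),
    key a (b + 1) (by simp) (by simp), key (a + 1) (b + 1) (by simp) (by simp)⟩

/-- The distance of a generic abscissa to the six relevant positions. -/
theorem gcol_margin {s : ℝ} (hs : s ≠ 0 ∧ ∀ a b : ℤ, s ≠ xi a b) (hs1 : |s| < 1 / 4) (a b : ℤ) :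
    ∃ m : ℝ, 0 < m ∧ ∀ n : ℕ, 100 ≤ m * n → ∀ x : ℤ, |(x : ℝ) - n * s| ≤ m * n →
      GCol n (m * n) a b x := by
  obtain ⟨h0, h1⟩ := hs
  have hpos : ∀ a' b' : ℤ, 0 < |s - xi a' b'| := fun a' b' => abs_pos.2 (sub_ne_zero.2 (h1 a' b'))
  obtain ⟨m, hm, k0, k1, k2⟩ : ∃ m : ℝ, 0 < m ∧ 4 * m ≤ |s| ∧ 4 * m ≤ 1 / 4 - |s| ∧
      ∀ a' b' : ℤ, (a' = a - 1 ∨ a' = a ∨ a' = a + 1) → (b' = b ∨ b' = b + 1) →
        4 * m ≤ |s - xi a' b'| := by
    refine ⟨min (min |s| (1 / 4 - |s|)) (min (min (|s - xi (a - 1) b|) (|s - xi (a - 1) (b + 1)|))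
      (min (min (|s - xi a b|) (|s - xi a (b + 1)|))
        (min (|s - xi (a + 1) b|) (|s - xi (a + 1) (b + 1)|)))) / 4, ?_, ?_, ?_, ?_⟩
    · have e1 : 0 < |s| := abs_pos.2 h0
      have e2 : 0 < 1 / 4 - |s| := by linarith
      have := hpos (a - 1) b
      have := hpos (a - 1) (b + 1)
      have := hpos a b
      have := hpos a (b + 1)
      have := hpos (a + 1) b
      have := hpos (a + 1) (b + 1)
      positivity
    · rw [mul_div_cancel₀ _ (by norm_num)]
      exact (min_le_left _ _).trans (min_le_left _ _)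
    · rw [mul_div_cancel₀ _ (by norm_num)]
      exact (min_le_left _ _).trans (min_le_right _ _)
    · intro a' b' ha hb
      rw [mul_div_cancel₀ _ (by norm_num)]
      refine (min_le_right _ _).trans ?_
      rcases ha with rfl | rfl | rfl <;> rcases hb with rfl | rfl
      · exact (min_le_left _ _).trans (min_le_left _ _)
      · exact (min_le_left _ _).trans (min_le_right _ _)
      · exact (min_le_right _ _).trans ((min_le_left _ _).trans (min_le_left _ _))
      · exact (min_le_right _ _).trans ((min_le_left _ _).trans (min_le_right _ _))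
      · exact (min_le_right _ _).trans ((min_le_right _ _).trans (min_le_left _ _))
      · exact (min_le_right _ _).trans ((min_le_right _ _).trans (min_le_right _ _))
  refine ⟨m, hm, fun n hn x hx => ?_⟩
  have hn0 : (0 : ℝ) ≤ n := Nat.cast_nonneg n
  have e1 : |(n : ℝ) * s| = n * |s| := by rw [abs_mul, abs_of_nonneg hn0]
  have t1 := abs_sub_abs_le_abs_sub (x : ℝ) (n * s)
  have t2 := abs_sub_abs_le_abs_sub ((n : ℝ) * s) (x : ℝ)
  rw [abs_sub_comm] at t2
  rw [e1] at t1 t2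
  have k0' : 4 * (m * n) ≤ n * |s| := by nlinarith
  have k1' : 4 * (m * n) ≤ n / 4 - n * |s| := by nlinarith
  refine ⟨?_, by linarith, ?_⟩
  · have : (3 : ℝ) < |(x : ℝ)| := by linarith
    rcases lt_abs.1 this with g | g
    · right
      exact_mod_cast g
    · left
      have : (x : ℝ) < -3 := by linarith
      exact_mod_cast this
  · intro a' b' ha hb
    have k2' : 4 * (m * n) ≤ n * |s - xi a' b'| := by nlinarith [k2 a' b' ha hb]
    have e2 : |(n : ℝ) * s - XX n a' b'| = n * |s - xi a' b'| := by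
      unfold XX
      rw [← mul_sub, abs_mul, abs_of_nonneg hn0]
    have t3 := abs_sub_le ((n : ℝ) * s) x (XX n a' b')
    rw [e2, abs_sub_comm ((n : ℝ) * s) x] at t3
    linarith

/-- No ridges. -/
theorem ridge_free (j : ℕ) {s : ℝ} (hs : s ≠ 0 ∧ ∀ a b : ℤ, s ≠ xi a b) (hs1 : |s| < 1 / 4)
    (a b : ℤ) : ∃ m : ℝ, 0 < m ∧ ∀ᶠ n : ℕ in atTop, ∀ x y : ℤ, |(x : ℝ) - n * s| ≤ m * n →
      St (WW j n) a b (x - 1) y → St (WW j n) a b x y → St (WW j n) a b (x + 1) y →
      ¬ (WW j n x y % 4 = 3 ∧ WW j n (x + 1) y % 4 = 0) := by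
  induction j using Nat.strong_induction_on with
  | _ j ih =>
    rcases Nat.lt_or_ge j 4 with hj | hj
    · obtain ⟨m, hm, hcol⟩ := gcol_margin hs hs1 a b
      refine ⟨m, hm, ?_⟩
      obtain ⟨n1, hn1⟩ := exists_nat_ge (100 / m)
      filter_upwards [pkgN (|a| + |b| + 1) hm, eventually_ge_atTop n1, eventually_ge_atTop 1]
        with n h1 h2 h3 x y hx sl sm sr
      have hbig : 100 ≤ m * n := by
        have h8 : 100 / m ≤ n := hn1.trans (by exact_mod_cast h2)
        rw [div_le_iff₀ hm] at h8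
        linarith
      have hp := h1 j hj
      have hc := hcol n hbig x hx
      have ha : |a| + 1 ≤ |a| + |b| + 1 := by have := abs_nonneg b; omega
      have hb : |b| + 1 ≤ |a| + |b| + 1 := by have := abs_nonneg a; omega
      refine no_ridge (baseN h3 hj) ?_ ?_ ?_ sl sm sr
      · have := hc.h0
        omega
      · intro t _
        have q1 := hc.ok4' hp ha hb (d := -1) (by norm_num) t
        have q2 := hc.ok4' hp ha hb (d := 0) (by norm_num) t
        have q3 := hc.ok4' hp ha hb (d := 1) (by norm_num) t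
        rw [add_zero] at q2
        exact ⟨q1, q2, q3⟩
      · obtain ⟨c, -, hc1, -⟩ := hp.far
        obtain ⟨Y1, hY1⟩ := hc1 x (by have := hc.abs_le (d := 0) (by norm_num); simpa using this)
        obtain ⟨Y2, hY2⟩ := hc1 (x + 1) (hc.abs_le (d := 1) (by norm_num))
        exact ⟨min Y1 Y2, c, fun t ht => ⟨hY1 t (ht.trans (min_le_left _ _)),
          hY2 t (ht.trans (min_le_right _ _))⟩⟩
    · obtain ⟨i, rfl⟩ : ∃ i, j = i + 4 := ⟨j - 4, by omega⟩
      obtain ⟨m, hm, h⟩ := ih i (by omega)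
      refine ⟨m, hm, ?_⟩
      filter_upwards [h] with n hn x y hx sl sm sr
      rw [St_shift (WW_add_four i n)] at sl sm sr
      have := hn x y hx sl sm sr
      rw [WW_add_four, WW_add_four]
      omega

/-- On a box around `n z` the flux is `(a, b)` and the odometer is close to the plane of the
corner `(p, q)`. -/
def HP (f : ℕ) (z : ℝ × ℝ) (a b p q : ℤ) : Prop :=
  ∃ δ : ℝ, 0 < δ ∧ ∀ ε : ℝ, 0 < ε → ∀ᶠ n : ℕ in atTop, ∀ x y : ℤ,
    |(x : ℝ) - n * z.1| ≤ δ * n → |(y : ℝ) - n * z.2| ≤ δ * n → St (WW f n) a b x y ∧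
      |(WW f n x y : ℝ) - (4 * ((p : ℝ) * x + q * y) + n * Kernel.A p q)| ≤ ε * n

/-- The label in a region of constant flux where the odometer is close to a plane. -/
theorem evL_of_plane {f : ℕ} (hf : f < 4) {z : ℝ × ℝ} (hz : z ∈ Gen) (hz1 : |z.1| < 1 / 4)
    (hz2 : |z.2| < 1 / 4) {a b p q r : ℤ}
    (hk : (p = a ∧ q = b ∧ r = 0) ∨ (p = a ∧ q = b + 1 ∧ r = 1) ∨
      (p = a + 1 ∧ q = b + 1 ∧ r = 2) ∨ (p = a + 1 ∧ q = b ∧ r = 3))
    {δ : ℝ} (hδ : 0 < δ) (H : ∀ ε : ℝ, 0 < ε → ∀ᶠ n : ℕ in atTop, ∀ x y : ℤ,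
      |(x : ℝ) - n * z.1| ≤ δ * n → |(y : ℝ) - n * z.2| ≤ δ * n → St (WW f n) a b x y ∧
        |(WW f n x y : ℝ) - (4 * ((p : ℝ) * x + q * y) + n * Kernel.A p q)| ≤ ε * n) :
    EvL f z a b r := by
  obtain ⟨hg1, hg2⟩ := hz
  have hg1' : -z.1 ≠ 0 ∧ ∀ a b : ℤ, -z.1 ≠ xi a b := by
    refine ⟨neg_ne_zero.2 hg1.1, fun a b he => hg1.2 (-1 - a) b ?_⟩
    rw [xi_refl]
    linarith
  have hg2' : -z.2 ≠ 0 ∧ ∀ a b : ℤ, -z.2 ≠ xi a b := by
    refine ⟨neg_ne_zero.2 hg2.1, fun a b he => hg2.2 (-1 - a) b ?_⟩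
    rw [xi_refl]
    linarith
  obtain ⟨m0, hm0, r0⟩ := ridge_free f hg1 hz1 a b
  obtain ⟨m1, hm1, r1⟩ := ridge_free (f + 1) hg2 hz2 b (-1 - a)
  obtain ⟨m2, hm2, r2⟩ := ridge_free (f + 2) hg1' (by rwa [abs_neg]) (-1 - a) (-1 - b)
  obtain ⟨m3, hm3, r3⟩ := ridge_free (f + 3) hg2' (by rwa [abs_neg]) (-1 - b) a
  -- the size of the box
  have hz0 : 0 < |z.1| := abs_pos.2 hg1.1
  obtain ⟨m, hm, k1, k2, k3, k4, k5, k6⟩ : ∃ m : ℝ, 0 < m ∧ 4 * m ≤ δ ∧ 4 * m ≤ m0 ∧ 4 * m ≤ m1 ∧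
      4 * m ≤ m2 ∧ 4 * m ≤ m3 ∧ 4 * m ≤ |z.1| := by
    refine ⟨min (min δ (min m0 m1)) (min (min m2 m3) |z.1|) / 4, by positivity, ?_, ?_, ?_, ?_, ?_, ?_⟩
      <;> rw [mul_div_cancel₀ _ (by norm_num)]
    · exact (min_le_left _ _).trans (min_le_left _ _)
    · exact (min_le_left _ _).trans ((min_le_right _ _).trans (min_le_left _ _))
    · exact (min_le_left _ _).trans ((min_le_right _ _).trans (min_le_right _ _))
    · exact (min_le_right _ _).trans ((min_le_left _ _).trans (min_le_left _ _))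
    · exact (min_le_right _ _).trans ((min_le_left _ _).trans (min_le_right _ _))
    · exact (min_le_right _ _).trans (min_le_right _ _)
  obtain ⟨n1, hn1⟩ := exists_nat_ge (100 / m)
  filter_upwards [r0, r1, r2, r3, H (m / 2) (by positivity), eventually_ge_atTop n1,
    eventually_ge_atTop 1] with n h0 h1 h2 h3 hH g1 g2 x0 y0 hx0 hy0
  have hbig : 100 ≤ m * n := by
    have h8 : 100 / m ≤ n := hn1.trans (by exact_mod_cast g1)
    rw [div_le_iff₀ hm] at h8
    linarith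
  have hn0 : (0 : ℝ) ≤ n := Nat.cast_nonneg n
  have kδ : 4 * (m * n) ≤ δ * n := by nlinarith
  have k0' : 4 * (m * n) ≤ m0 * n := by nlinarith
  have k1' : 4 * (m * n) ≤ m1 * n := by nlinarith
  have k2' : 4 * (m * n) ≤ m2 * n := by nlinarith
  have k3' : 4 * (m * n) ≤ m3 * n := by nlinarith
  have k6' : 4 * (m * n) ≤ |(n : ℝ) * z.1| := by
    rw [abs_mul, abs_of_nonneg hn0]
    nlinarith
  set L : ℕ := ⌊m * n⌋₊ with hL
  have hL1 : (L : ℝ) ≤ m * n := Nat.floor_le (by positivity)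
  have hL2 : m * n < L + 1 := Nat.lt_floor_add_one _
  -- points of the box
  have near : ∀ {c : ℤ} {c0 : ℤ} {s : ℝ}, |(c0 : ℝ) - n * s| ≤ 2 → |c - c0| ≤ 2 * L + 2 →
      |(c : ℝ) - n * s| ≤ 3 * (m * n) := by
    intro c c0 s e1 e2
    have e3 : |(c : ℝ) - c0| ≤ 2 * L + 2 := by exact_mod_cast e2
    have e4 := abs_sub_le (c : ℝ) c0 (n * s)
    linarith
  have hst : ∀ x y : ℤ, |x - x0| ≤ 2 * L + 2 → |y - y0| ≤ 2 * L + 2 → St (WW f n) a b x y :=
    fun x y e1 e2 => (hH x y ((near hx0 e1).trans (by linarith))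
      ((near hy0 e2).trans (by linarith))).1
  have hx00 : ∀ x : ℤ, |x - x0| ≤ 2 * L + 2 → x ≠ 0 := by
    intro x e1 e2
    have := near hx0 e1
    rw [e2, Int.cast_zero, zero_sub, abs_neg] at this
    linarith
  have hbase := baseN g2 hf
  have hbox : BoxHyp (WW f n) a b x0 y0 (2 * L + 1) := by
    refine ⟨fun x y e1 e2 => hst x y (by omega) (by omega), fun x y e1 e2 e3 => ⟨?_, ?_, ?_⟩,
      fun x y e1 e2 e3 => ⟨?_, ?_, ?_⟩⟩
    · refine hbase.cycH x y ?_ ?_
      · exact fun hc => hx00 x (by omega) hc.1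
      · exact fun hc => hx00 (x + 1) (by omega) hc.1
    · rw [abs_le] at e1 e2
      refine h0 x y ((near hx0 (by rw [abs_le]; omega)).trans (by linarith))
        (hst _ _ (by rw [abs_le]; omega) (by omega)) (hst _ _ (by rw [abs_le]; omega) (by omega))
        (hst _ _ (by rw [abs_le]; omega) (by omega))
    · -- (2, 1)
      rintro ⟨c1, c2⟩
      rw [abs_le] at e1 e2
      have s2 : ∀ X Y : ℤ, St (WW (f + 2) n) (-1 - a) (-1 - b) X Y ↔ St (WW f n) a b (-X) (-Y) := by
        intro X Y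
        rw [show f + 2 = f + 1 + 1 by ring, WW_succ, WW_succ, St_rotc, St_rotc]
      have v2 : ∀ X Y : ℤ, WW (f + 2) n X Y = WW f n (-X) (-Y) + 2 := by
        intro X Y
        rw [show f + 2 = f + 1 + 1 by ring, WW_succ, WW_succ]
        unfold rotc
        ring
      refine h2 (-x - 1) (-y) ?_ ((s2 _ _).2 ?_) ((s2 _ _).2 ?_) ((s2 _ _).2 ?_) ⟨?_, ?_⟩
      · have := near hx0 (c := x + 1) (by rw [abs_le]; omega)
        push_cast at this ⊢
        rw [show -(x : ℝ) - 1 - n * -z.1 = -((x : ℝ) + 1 - n * z.1) by ring, abs_neg]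
        linarith
      · rw [show -(-x - 1 - 1) = x + 2 by ring, neg_neg]
        exact hst _ _ (by rw [abs_le]; omega) (by omega)
      · rw [show -(-x - 1) = x + 1 by ring, neg_neg]
        exact hst _ _ (by rw [abs_le]; omega) (by omega)
      · rw [show -(-x - 1 + 1) = x by ring, neg_neg]
        exact hst _ _ (by rw [abs_le]; omega) (by omega)
      · rw [v2, show -(-x - 1) = x + 1 by ring, neg_neg]
        omega
      · rw [v2, show -(-x - 1 + 1) = x by ring, neg_neg]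
        omega
    · refine hbase.cycV x y ?_ ?_
      · exact fun hc => hx00 x (by omega) hc.1
      · exact fun hc => hx00 x (by omega) hc.1
    · -- (1, 0)
      rintro ⟨c1, c2⟩
      rw [abs_le] at e2 e3
      have s3 : ∀ X Y : ℤ, St (WW (f + 3) n) (-1 - b) a X Y ↔ St (WW f n) a b Y (-X) := by
        intro X Y
        rw [show f + 3 = f + 1 + 1 + 1 by ring, WW_succ, WW_succ, WW_succ,
          show a = -1 - (-1 - a) by ring, St_rotc, St_rotc, show -1 - (-1 - a) = a by ring,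
          St_rotc, neg_neg]
      have v3 : ∀ X Y : ℤ, WW (f + 3) n X Y = WW f n Y (-X) + 3 := by
        intro X Y
        rw [show f + 3 = f + 1 + 1 + 1 by ring, WW_succ, WW_succ, WW_succ]
        unfold rotc
        rw [neg_neg]
        ring
      refine h3 (-y - 1) x ?_ ((s3 _ _).2 ?_) ((s3 _ _).2 ?_) ((s3 _ _).2 ?_) ⟨?_, ?_⟩
      · have := near hy0 (c := y + 1) (by rw [abs_le]; omega)
        push_cast at this ⊢
        rw [show -(y : ℝ) - 1 - n * -z.2 = -((y : ℝ) + 1 - n * z.2) by ring, abs_neg]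
        linarith
      · rw [show -(-y - 1 - 1) = y + 2 by ring]
        exact hst _ _ (by omega) (by rw [abs_le]; omega)
      · rw [show -(-y - 1) = y + 1 by ring]
        exact hst _ _ (by omega) (by rw [abs_le]; omega)
      · rw [show -(-y - 1 + 1) = y by ring]
        exact hst _ _ (by omega) (by rw [abs_le]; omega)
      · rw [v3, show -(-y - 1) = y + 1 by ring]
        omega
      · rw [v3, show -(-y - 1 + 1) = y by ring]
        omega
    · -- (2, 3)
      rintro ⟨c1, c2⟩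
      rw [abs_le] at e2 e3
      have s1 : ∀ X Y : ℤ, St (WW (f + 1) n) b (-1 - a) X Y ↔ St (WW f n) a b (-Y) X := by
        intro X Y
        rw [WW_succ, St_rotc]
      have v1 : ∀ X Y : ℤ, WW (f + 1) n X Y = WW f n (-Y) X + 1 := by
        intro X Y
        rw [WW_succ]
        rfl
      refine h1 y (-x) ?_ ((s1 _ _).2 ?_) ((s1 _ _).2 ?_) ((s1 _ _).2 ?_) ⟨?_, ?_⟩
      · have := near hy0 (c := y) (by rw [abs_le]; omega)
        linarith
      · rw [neg_neg]
        exact hst _ _ (by omega) (by rw [abs_le]; omega)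
      · rw [neg_neg]
        exact hst _ _ (by omega) (by rw [abs_le]; omega)
      · rw [neg_neg]
        exact hst _ _ (by omega) (by rw [abs_le]; omega)
      · rw [v1, neg_neg]
        omega
      · rw [v1, neg_neg]
        omega
  have hpl : ∀ x y : ℤ, |x - x0| ≤ 2 * L + 1 → |y - y0| ≤ 2 * L + 1 →
      |(WW f n x y : ℝ) - (4 * ((p : ℝ) * x + q * y) + n * Kernel.A p q)| ≤ m / 2 * n :=
    fun x y e1 e2 => (hH x y ((near hx0 (by omega)).trans (by linarith))
      ((near hy0 (by omega)).trans (by linarith))).2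
  have hD : m / 2 * n < 2 * L := by nlinarith
  have hs := hst x0 y0 (by rw [sub_self, abs_zero]; positivity) (by rw [sub_self, abs_zero]; positivity)
  refine ⟨hs.2.1, hs.2.2.2, ?_⟩
  rcases hk with ⟨rfl, rfl, rfl⟩ | ⟨rfl, rfl, rfl⟩ | ⟨rfl, rfl, rfl⟩ | ⟨rfl, rfl, rfl⟩
  · exact hbox.zero hD hpl
  · exact hbox.one hD hpl
  · exact hbox.two hD hpl
  · exact hbox.three hD hpl

theorem HP.evL {f : ℕ} (hf : f < 4) {z : ℝ × ℝ} (hz : z ∈ Gen) (hz1 : |z.1| < 1 / 4)
    (hz2 : |z.2| < 1 / 4) {a b p q r : ℤ} (h : HP f z a b p q)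
    (hk : (p = a ∧ q = b ∧ r = 0) ∨ (p = a ∧ q = b + 1 ∧ r = 1) ∨
      (p = a + 1 ∧ q = b + 1 ∧ r = 2) ∨ (p = a + 1 ∧ q = b ∧ r = 3)) : EvL f z a b r := by
  obtain ⟨δ, hδ, H⟩ := h
  exact evL_of_plane hf hz hz1 hz2 hk hδ H

end RotorNE
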