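import Mathlib.Tactic
import Mathlib.Data.Nat.Nth
import Mathlib.Data.Int.Interval
import Mathlib.Data.Int.ConditionallyCompleteOrder
import Mathlib.Data.Int.Star
import Mathlib.Algebra.Order.Star.Real
import Mathlib.Analysis.SpecialFunctions.Integrals.Basic
import Mathlib.Analysis.Fourier.RiemannLebesgueLemma
import Mathlib.Analysis.SpecificLimits.Basic
import Mathlib.Analysis.Asymptotics.SpecificAsymptotics
import Mathlib.MeasureTheory.Integral.Prod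
import Mathlib.MeasureTheory.Measure.Lebesgue.Basic
import Pool.Agent.Lib.MP_936783_pr.ExFin

/-!
# The labels in the first quadrant of fluxes, from the tile lemmas
-/

open Filter

noncomputable section

namespace RotorNE

/-- The tile lemmas. -/
structure Tiles : Prop where
  nl : ∀ f : ℕ, f < 4 → ∀ a b : ℤ, 0 ≤ a → 0 ≤ b → ∀ z : ℝ × ℝ, z ∈ Gen → z ∈ tri .nl a b →
    HP f z a b a b
  nh : ∀ f : ℕ, f < 4 → ∀ a b : ℤ, 0 ≤ a → 0 ≤ b → ∀ z : ℝ × ℝ, z ∈ Gen →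
    z ∈ tri .nh (a + 1) (b + 1) → HP f z a b (a + 1) (b + 1)
  sl : ∀ f : ℕ, f < 4 → ∀ a b : ℤ, 0 ≤ a → 0 ≤ b → ∀ z : ℝ × ℝ, z ∈ Gen →
    z ∈ tri .sl a (b + 1) → HP f z a b a (b + 1)
  sh : ∀ f : ℕ, f < 4 → ∀ a b : ℤ, 0 ≤ a → 0 ≤ b → ∀ z : ℝ × ℝ, z ∈ Gen →
    z ∈ tri .sh (a + 1) b → HP f z a b (a + 1) b
  fl : ∀ f : ℕ, f < 4 → ∀ a b : ℤ, 0 ≤ a → 0 ≤ b → ∀ z : ℝ × ℝ, z ∈ Gen → z ∈ tri .fl a b →
    HP f z a b a b
  fh : ∀ f : ℕ, f < 4 → ∀ a b : ℤ, 0 ≤ a → 0 ≤ b → ∀ z : ℝ × ℝ, z ∈ Gen → z ∈ tri .fh a b →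
    HP f z a b (a + 1) (b + 1)

theorem in_open {s l u : ℝ} (h1 : l < s) (h2 : s < u) (hl : l ∈ Set.Icc (-(1 / 4) : ℝ) (1 / 4))
    (hu : u ∈ Set.Icc (-(1 / 4) : ℝ) (1 / 4)) : |s| < 1 / 4 := by
  rw [abs_lt]
  constructor <;> linarith [hl.1, hu.2]

theorem frameLabels_of (T : Tiles) : FrameLabels := by
  intro f hf a b ha hb z hz
  refine ⟨fun h => ?_, fun h => ?_, fun h => ?_, fun h => ?_, fun h => ?_, fun h => ?_⟩
  · have H := T.nl f hf a b ha hb z hz h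
    obtain ⟨-, h1, h2, h3, h4, -⟩ := h
    exact H.evL hf hz (in_open h1 h2 (xi_mem _ _) (xi_mem _ _))
      (in_open h3 h4 (eta_mem _ _) (eta_mem _ _)) (by simp)
  · have H := T.nh f hf a b ha hb z hz h
    obtain ⟨-, h1, h2, h3, h4, -⟩ := h
    exact H.evL hf hz (in_open h1 h2 (xi_mem _ _) (xi_mem _ _))
      (in_open h3 h4 (eta_mem _ _) (eta_mem _ _)) (by simp)
  · have H := T.sl f hf a b ha hb z hz h
    obtain ⟨-, h1, h2, h3, h4, -⟩ := h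
    exact H.evL hf hz (in_open h1 h2 (xi_mem _ _) (xi_mem _ _))
      (in_open h3 h4 (eta_mem _ _) (eta_mem _ _)) (by simp)
  · have H := T.sh f hf a b ha hb z hz h
    obtain ⟨-, h1, h2, h3, h4, -⟩ := h
    exact H.evL hf hz (in_open h1 h2 (xi_mem _ _) (xi_mem _ _))
      (in_open h3 h4 (eta_mem _ _) (eta_mem _ _)) (by simp)
  · have H := T.fl f hf a b ha hb z hz h
    obtain ⟨h1, h2, h3, h4, -⟩ := h
    exact H.evL hf hz (in_open h1 h2 (xi_mem _ _) (xi_mem _ _))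
      (in_open h3 h4 (eta_mem _ _) (eta_mem _ _)) (by simp)
  · have H := T.fh f hf a b ha hb z hz h
    obtain ⟨h1, h2, h3, h4, -⟩ := h
    exact H.evL hf hz (in_open h1 h2 (xi_mem _ _) (xi_mem _ _))
      (in_open h3 h4 (eta_mem _ _) (eta_mem _ _)) (by simp)

end RotorNE
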