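import Mathlib.Tactic
import Mathlib.Data.Nat.Nth
import Mathlib.Data.Int.Interval
import Mathlib.Data.Int.ConditionallyCompleteOrder
import Mathlib.Data.Int.Star
import Mathlib.Algebra.Order.Star.Real
import Mathlib.Analysis.SpecialFunctions.Integrals.Basic
import Mathlib.Analysis.Fourier.RiemannLebesgueLemma
import Mathlib.Analysis.SpecificLimits.Basic
import Mathlib.Topology.Algebra.Module.Cardinality
import Mathlib.Analysis.Asymptotics.SpecificAsymptotics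
import Mathlib.MeasureTheory.Integral.Prod
import Mathlib.MeasureTheory.Measure.Lebesgue.Basic
import Pool.Agent.Lib.MP_936783_pr.ExTile
import Pool.Agent.Lib.MP_936783_pr.Exact

/-!
# Exactness, the squares `F`: from the estimate in one frame to the labels
-/

open Filter Topology

noncomputable section

namespace RotorNE

/-- The statement of `Ctx.F`. -/
def CtxFStmt : Prop :=
  ∀ (R : ℤ) (N e : ℝ) (w : ℤ → ℤ → ℤ) (a b : ℤ), Ctx R N e w a b →
    (∃ g : ℤ, GCol N e a b g ∧ XX N a b + 10 * e ≤ g ∧ (g : ℝ) ≤ XX N a (b + 1) - 10 * e) →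
    (∃ g : ℤ, GCol N e a b g ∧ ((b < a ∧ XX N (a - 1) b + 8 * e < g ∧
        (g : ℝ) < XX N a b - 4 * e) ∨
      (a ≤ b ∧ XX N a (b + 1) + 4 * e < g ∧ (g : ℝ) < XX N (a - 1) (b + 1) - 8 * e ∧ g < 0))) →
    ∀ x y : ℤ, XX N a b + 12 * e < x → (x : ℝ) < XX N a (b + 1) - 12 * e →
      YY N a b + 12 * e < y → (y : ℝ) < YY N (a + 1) b - 12 * e →
      St w a b x y ∧ max (PP N a b x y) (PP N (a + 1) (b + 1) x y) - 6 * e ≤ (w x y : ℝ) ∧
        (w x y : ℝ) ≤ max (PP N a b x y) (PP N (a + 1) (b + 1) x y) + 62 * e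

theorem GCol.mono {N e e' : ℝ} {a b x : ℤ} (h : GCol N e' a b x) (he : e ≤ e') :
    GCol N e a b x :=
  ⟨h.h0, by linarith [h.hx], fun a' b' h1 h2 => by linarith [h.g a' b' h1 h2]⟩

/-- A generic abscissa in an interval. -/
theorem exists_generic {l u : ℝ} (h : l < u) :
    ∃ t, l < t ∧ t < u ∧ t ≠ 0 ∧ ∀ a b : ℤ, t ≠ xi a b := by
  have hc : ({0} ∪ Set.range fun p : ℤ × ℤ => xi p.1 p.2 : Set ℝ).Countable :=
    (Set.countable_singleton 0).union (Set.countable_range _)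
  obtain ⟨t, ht, h1⟩ := (hc.dense_compl ℝ).exists_between h
  refine ⟨t, h1.1, h1.2, fun h0 => ht (Or.inl h0), fun a b hab => ht (Or.inr ⟨(a, b), hab.symm⟩)⟩

theorem floor_near {n : ℕ} {t m : ℝ} (hm : 1 ≤ m * n) :
    |((⌊(n : ℝ) * t⌋ : ℤ) : ℝ) - n * t| ≤ m * n := by
  have h1 := Int.floor_le ((n : ℝ) * t)
  have h2 := Int.lt_floor_add_one ((n : ℝ) * t)
  rw [abs_le]
  constructor <;> linarith

theorem f_core (HF : CtxFStmt) {f : ℕ} (hf : f < 4) {a b : ℤ} (ha : 0 ≤ a) (hb : 0 ≤ b)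
    {z : ℝ × ℝ} {δ : ℝ} (hδ : 0 < δ) (k1 : xi a b + 2 * δ ≤ z.1)
    (k2 : z.1 + 2 * δ ≤ xi a (b + 1)) (k3 : eta a b + 2 * δ ≤ z.2)
    (k4 : z.2 + 2 * δ ≤ eta (a + 1) b) {ε : ℝ} (hε : 0 < ε) :
    ∀ᶠ n : ℕ in atTop, ∀ x y : ℤ, |(x : ℝ) - n * z.1| ≤ δ * n → |(y : ℝ) - n * z.2| ≤ δ * n →
      St (WW f n) a b x y ∧
      |(WW f n x y : ℝ) - max (PP n a b x y) (PP n (a + 1) (b + 1) x y)| ≤ ε * n := by
  have hlt : xi a b < xi a (b + 1) := by linarith
  -- the generic column in the square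
  obtain ⟨t, t1, t2, t3⟩ := exists_generic hlt
  obtain ⟨mt, hmt, gt⟩ := gcol_margin t3 (in_open t1 t2 (xi_mem _ _) (xi_mem _ _)) a b
  -- the generic column on the left or on the right
  obtain ⟨s, hs⟩ : ∃ s : ℝ, (s ≠ 0 ∧ ∀ a b : ℤ, s ≠ xi a b) ∧ |s| < 1 / 4 ∧
      ((b < a ∧ xi (a - 1) b < s ∧ s < xi a b) ∨
        (a ≤ b ∧ xi a (b + 1) < s ∧ s < xi (a - 1) (b + 1) ∧ s < 0)) := by
    rcases lt_or_ge b a with hba | hab
    · obtain ⟨s, s1, s2, s3⟩ := exists_generic (xi_lt (a := a) (b := b)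
        (by rw [abs_of_nonneg ha, abs_of_nonneg hb]; exact hba))
      exact ⟨s, s3, in_open s1 s2 (xi_mem _ _) (xi_mem _ _), Or.inl ⟨hba, s1, s2⟩⟩
    · have h1 : xi a (b + 1) < xi (a - 1) (b + 1) :=
        xi_gt (by rw [abs_of_nonneg ha, abs_of_nonneg (by omega : (0 : ℤ) ≤ b + 1)]; omega)
      have h2 : xi a (b + 1) < 0 := by
        have := XX_neg (N := 1) one_pos (b := b + 1) ha
        unfold XX at this
        linarith
      obtain ⟨s, s1, s2, s3⟩ := exists_generic (lt_min h1 h2)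
      have s4 := s2.trans_le (min_le_left _ _)
      exact ⟨s, s3, in_open s1 s4 (xi_mem _ _) (xi_mem _ _),
        Or.inr ⟨hab, s1, s4, s2.trans_le (min_le_right _ _)⟩⟩
  obtain ⟨s3, hs4, hs5⟩ := hs
  obtain ⟨ms, hms, gs⟩ := gcol_margin s3 hs4 a b
  obtain ⟨dt, hdt, dt1, dt2⟩ : ∃ d : ℝ, 0 < d ∧ xi a b + d ≤ t ∧ t + d ≤ xi a (b + 1) :=
    ⟨min (t - xi a b) (xi a (b + 1) - t), lt_min (by linarith) (by linarith),
      by linarith [min_le_left (t - xi a b) (xi a (b + 1) - t)],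
      by linarith [min_le_right (t - xi a b) (xi a (b + 1) - t)]⟩
  obtain ⟨ds, hds, ds1⟩ : ∃ d : ℝ, 0 < d ∧ ((b < a ∧ xi (a - 1) b + d ≤ s ∧ s + d ≤ xi a b) ∨
        (a ≤ b ∧ xi a (b + 1) + d ≤ s ∧ s + d ≤ xi (a - 1) (b + 1) ∧ s < 0)) := by
    rcases hs5 with ⟨h0, h1, h2⟩ | ⟨h0, h1, h2, h3⟩
    · refine ⟨min (s - xi (a - 1) b) (xi a b - s), lt_min (by linarith) (by linarith),
        Or.inl ⟨h0, ?_, ?_⟩⟩
      · linarith [min_le_left (s - xi (a - 1) b) (xi a b - s)]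
      · linarith [min_le_right (s - xi (a - 1) b) (xi a b - s)]
    · refine ⟨min (s - xi a (b + 1)) (xi (a - 1) (b + 1) - s), lt_min (by linarith) (by linarith),
        Or.inr ⟨h0, ?_, ?_, h3⟩⟩
      · linarith [min_le_left (s - xi a (b + 1)) (xi (a - 1) (b + 1) - s)]
      · linarith [min_le_right (s - xi a (b + 1)) (xi (a - 1) (b + 1) - s)]
  -- the error
  obtain ⟨κ, hκ, q1, q2, q3, q4, q5, q6⟩ : ∃ κ : ℝ, 0 < κ ∧ 100 * κ ≤ ε ∧ 100 * κ ≤ δ ∧
      100 * κ ≤ mt ∧ 100 * κ ≤ ms ∧ 100 * κ ≤ dt ∧ 100 * κ ≤ ds := by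
    refine ⟨min (min ε δ) (min (min mt ms) (min dt ds)) / 100, by positivity, ?_, ?_, ?_, ?_, ?_,
      ?_⟩ <;> rw [mul_div_cancel₀ _ (by norm_num)]
    · exact (min_le_left _ _).trans (min_le_left _ _)
    · exact (min_le_left _ _).trans (min_le_right _ _)
    · exact (min_le_right _ _).trans ((min_le_left _ _).trans (min_le_left _ _))
    · exact (min_le_right _ _).trans ((min_le_left _ _).trans (min_le_right _ _))
    · exact (min_le_right _ _).trans ((min_le_right _ _).trans (min_le_left _ _))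
    · exact (min_le_right _ _).trans ((min_le_right _ _).trans (min_le_right _ _))
  obtain ⟨n1, hn1⟩ := exists_nat_ge (8 / κ)
  filter_upwards [pkgN (max a b + 1) hκ, eventually_ge_atTop n1, eventually_ge_atTop 1]
    with n hpkg g1 g2 x y hx hy
  have hκn : 8 ≤ κ * n := by
    have h8 : 8 / κ ≤ n := hn1.trans (by exact_mod_cast g1)
    rw [div_le_iff₀ hκ] at h8
    linarith
  have hn0 : (0 : ℝ) < n := by exact_mod_cast g2
  -- scaling
  have sc : ∀ {p q : ℝ}, p ≤ q → (n : ℝ) * p ≤ n * q := fun h =>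
    mul_le_mul_of_nonneg_left h hn0.le
  have w1 := sc q1
  have w2 := sc q2
  have w3 := sc q3
  have w4 := sc q4
  have w5 := sc q5
  have w6 := sc q6
  have v1 := sc k1
  have v2 := sc k2
  have v3 := sc k3
  have v4 := sc k4
  have u1 := sc dt1
  have u2 := sc dt2
  have c : Ctx (max a b + 1) n (κ * n) (WW f n) a b := by
    refine ⟨hpkg f hf, baseN g2 hf, ha, hb, ?_, ?_, hκn, hn0, ?_⟩
    · have := le_max_left a b
      omega
    · have := le_max_right a b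
      omega
    · unfold XX
      linarith
  have hgF : ∃ g : ℤ, GCol n (κ * n) a b g ∧ XX n a b + 10 * (κ * n) ≤ g ∧
      (g : ℝ) ≤ XX n a (b + 1) - 10 * (κ * n) := by
    have fl := abs_le.1 (floor_near (n := n) (t := t) (m := κ) (by linarith))
    refine ⟨⌊(n : ℝ) * t⌋, ?_, ?_, ?_⟩
    · refine (gt n (by linarith) _ (floor_near (by linarith))).mono (by linarith)
    · unfold XX
      linarith [fl.1]
    · unfold XX
      linarith [fl.2]
  have hgB : ∃ g : ℤ, GCol n (κ * n) a b g ∧ ((b < a ∧ XX n (a - 1) b + 8 * (κ * n) < g ∧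
        (g : ℝ) < XX n a b - 4 * (κ * n)) ∨
      (a ≤ b ∧ XX n a (b + 1) + 4 * (κ * n) < g ∧
        (g : ℝ) < XX n (a - 1) (b + 1) - 8 * (κ * n) ∧ g < 0)) := by
    have fl := abs_le.1 (floor_near (n := n) (t := s) (m := κ) (by linarith))
    refine ⟨⌊(n : ℝ) * s⌋, ?_, ?_⟩
    · refine (gs n (by linarith) _ (floor_near (by linarith))).mono (by linarith)
    · rcases ds1 with ⟨h0, h1, h2⟩ | ⟨h0, h1, h2, h3⟩
      · left
        have y1 := sc h1
        have y2 := sc h2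
        refine ⟨h0, ?_, ?_⟩
        · unfold XX
          linarith [fl.1]
        · unfold XX
          linarith [fl.2]
      · right
        have y1 := sc h1
        have y2 := sc h2
        refine ⟨h0, ?_, ?_, ?_⟩
        · unfold XX
          linarith [fl.1]
        · unfold XX
          linarith [fl.2]
        · have h4 : (n : ℝ) * s < 0 := mul_neg_of_pos_of_neg hn0 h3
          exact Int.floor_lt_zero.2 h4
  rw [abs_le] at hx hy
  obtain ⟨r1, r2, r3⟩ := HF _ _ _ _ a b c hgF hgB x y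
    (by unfold XX; linarith [hx.1]) (by unfold XX; linarith [hx.2])
    (by unfold YY; linarith [hy.1]) (by unfold YY; linarith [hy.2])
  refine ⟨r1, ?_⟩
  rw [abs_le]
  constructor <;> linarith

theorem PP_diag (N : ℝ) (a b x y : ℤ) : PP N a b x y - PP N (a + 1) (b + 1) x y =
    4 * (XX N a (b + 1) + YY N a b - x - y) := by
  have h1 := PP_YY N a b x y
  have h2 := PP_XX N a (b + 1) x y
  linarith

theorem tile_fl (HF : CtxFStmt) {f : ℕ} (hf : f < 4) {a b : ℤ} (ha : 0 ≤ a) (hb : 0 ≤ b)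
    {z : ℝ × ℝ} (h : z ∈ tri .fl a b) : HP f z a b a b := by
  obtain ⟨h1, h2, h3, h4, h5⟩ := h
  obtain ⟨δ, hδ, k1, k2, k3, k4, k5⟩ : ∃ δ : ℝ, 0 < δ ∧ xi a b + 2 * δ ≤ z.1 ∧
      z.1 + 2 * δ ≤ xi a (b + 1) ∧ eta a b + 2 * δ ≤ z.2 ∧ z.2 + 2 * δ ≤ eta (a + 1) b ∧
      z.1 + z.2 + 2 * δ ≤ xi a (b + 1) + eta a b := by
    have p1 : 0 < z.1 - xi a b := by linarith
    have p2 : 0 < xi a (b + 1) - z.1 := by linarith
    have p3 : 0 < z.2 - eta a b := by linarith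
    have p4 : 0 < eta (a + 1) b - z.2 := by linarith
    have p5 : 0 < xi a (b + 1) + eta a b - (z.1 + z.2) := by linarith
    have l1 := min_le_left (min (z.1 - xi a b) (xi a (b + 1) - z.1))
      (min (min (z.2 - eta a b) (eta (a + 1) b - z.2)) (xi a (b + 1) + eta a b - (z.1 + z.2)))
    have l2 := min_le_right (min (z.1 - xi a b) (xi a (b + 1) - z.1))
      (min (min (z.2 - eta a b) (eta (a + 1) b - z.2)) (xi a (b + 1) + eta a b - (z.1 + z.2)))
    have l3 := min_le_left (z.1 - xi a b) (xi a (b + 1) - z.1)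
    have l4 := min_le_right (z.1 - xi a b) (xi a (b + 1) - z.1)
    have l5 := min_le_left (min (z.2 - eta a b) (eta (a + 1) b - z.2))
      (xi a (b + 1) + eta a b - (z.1 + z.2))
    have l6 := min_le_right (min (z.2 - eta a b) (eta (a + 1) b - z.2))
      (xi a (b + 1) + eta a b - (z.1 + z.2))
    have l7 := min_le_left (z.2 - eta a b) (eta (a + 1) b - z.2)
    have l8 := min_le_right (z.2 - eta a b) (eta (a + 1) b - z.2)
    refine ⟨min (min (z.1 - xi a b) (xi a (b + 1) - z.1))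
      (min (min (z.2 - eta a b) (eta (a + 1) b - z.2))
        (xi a (b + 1) + eta a b - (z.1 + z.2))) / 2, by positivity, ?_, ?_, ?_, ?_, ?_⟩ <;>
      linarith
  refine ⟨δ, hδ, fun ε hε => ?_⟩
  filter_upwards [f_core HF hf ha hb hδ k1 k2 k3 k4 hε] with n hn x y hx hy
  obtain ⟨r1, r2⟩ := hn x y hx hy
  refine ⟨r1, ?_⟩
  have hn0 : (0 : ℝ) ≤ n := Nat.cast_nonneg n
  have e1 := PP_diag n a b x y
  have e2 := mul_le_mul_of_nonneg_left k5 hn0
  rw [abs_le] at hx hy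
  have e3 : PP n (a + 1) (b + 1) x y ≤ PP n a b x y := by
    unfold XX YY at e1
    linarith [hx.2, hy.2]
  rw [max_eq_left e3] at r2
  exact r2

theorem tile_fh (HF : CtxFStmt) {f : ℕ} (hf : f < 4) {a b : ℤ} (ha : 0 ≤ a) (hb : 0 ≤ b)
    {z : ℝ × ℝ} (h : z ∈ tri .fh a b) : HP f z a b (a + 1) (b + 1) := by
  obtain ⟨h1, h2, h3, h4, h5⟩ := h
  obtain ⟨δ, hδ, k1, k2, k3, k4, k5⟩ : ∃ δ : ℝ, 0 < δ ∧ xi a b + 2 * δ ≤ z.1 ∧
      z.1 + 2 * δ ≤ xi a (b + 1) ∧ eta a b + 2 * δ ≤ z.2 ∧ z.2 + 2 * δ ≤ eta (a + 1) b ∧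
      xi a (b + 1) + eta a b + 2 * δ ≤ z.1 + z.2 := by
    have p1 : 0 < z.1 - xi a b := by linarith
    have p2 : 0 < xi a (b + 1) - z.1 := by linarith
    have p3 : 0 < z.2 - eta a b := by linarith
    have p4 : 0 < eta (a + 1) b - z.2 := by linarith
    have p5 : 0 < z.1 + z.2 - (xi a (b + 1) + eta a b) := by linarith
    have l1 := min_le_left (min (z.1 - xi a b) (xi a (b + 1) - z.1))
      (min (min (z.2 - eta a b) (eta (a + 1) b - z.2)) (z.1 + z.2 - (xi a (b + 1) + eta a b)))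
    have l2 := min_le_right (min (z.1 - xi a b) (xi a (b + 1) - z.1))
      (min (min (z.2 - eta a b) (eta (a + 1) b - z.2)) (z.1 + z.2 - (xi a (b + 1) + eta a b)))
    have l3 := min_le_left (z.1 - xi a b) (xi a (b + 1) - z.1)
    have l4 := min_le_right (z.1 - xi a b) (xi a (b + 1) - z.1)
    have l5 := min_le_left (min (z.2 - eta a b) (eta (a + 1) b - z.2))
      (z.1 + z.2 - (xi a (b + 1) + eta a b))
    have l6 := min_le_right (min (z.2 - eta a b) (eta (a + 1) b - z.2))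
      (z.1 + z.2 - (xi a (b + 1) + eta a b))
    have l7 := min_le_left (z.2 - eta a b) (eta (a + 1) b - z.2)
    have l8 := min_le_right (z.2 - eta a b) (eta (a + 1) b - z.2)
    refine ⟨min (min (z.1 - xi a b) (xi a (b + 1) - z.1))
      (min (min (z.2 - eta a b) (eta (a + 1) b - z.2))
        (z.1 + z.2 - (xi a (b + 1) + eta a b))) / 2, by positivity, ?_, ?_, ?_, ?_, ?_⟩ <;>
      linarith
  refine ⟨δ, hδ, fun ε hε => ?_⟩
  filter_upwards [f_core HF hf ha hb hδ k1 k2 k3 k4 hε] with n hn x y hx hy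
  obtain ⟨r1, r2⟩ := hn x y hx hy
  refine ⟨r1, ?_⟩
  have hn0 : (0 : ℝ) ≤ n := Nat.cast_nonneg n
  have e1 := PP_diag n a b x y
  have e2 := mul_le_mul_of_nonneg_left k5 hn0
  rw [abs_le] at hx hy
  have e3 : PP n a b x y ≤ PP n (a + 1) (b + 1) x y := by
    unfold XX YY at e1
    linarith [hx.1, hy.1]
  rw [max_eq_right e3] at r2
  exact r2

end RotorNE
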