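import Mathlib.Tactic
import Mathlib.Data.Nat.Nth
import Mathlib.Data.Int.Interval
import Mathlib.Data.Int.ConditionallyCompleteOrder
import Mathlib.Data.Int.Star
import Mathlib.Algebra.Order.Star.Real
import Mathlib.Analysis.SpecialFunctions.Integrals.Basic
import Mathlib.Analysis.Fourier.RiemannLebesgueLemma
import Mathlib.Analysis.SpecificLimits.Basic
import Mathlib.Analysis.Asymptotics.SpecificAsymptotics
import Mathlib.MeasureTheory.Integral.Prod
import Mathlib.MeasureTheory.Measure.Lebesgue.Basic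
import Pool.Agent.Lib.MP_936783_pr.ExTile
import Pool.Agent.Lib.MP_936783_pr.ExFin

/-!
# Exactness: the tiles `nl`, `nh`, `sl`, `sh`
-/

open Filter

noncomputable section

namespace RotorNE

open Kernel

/-- From a pointwise statement in the setting `Ctx` to the statement with margins. -/
theorem HP_of {f : ℕ} (hf : f < 4) {a b p q : ℤ} (ha : 0 ≤ a) (hb : 0 ≤ b) {z : ℝ × ℝ}
    (hz : z ∈ Gen) (hz1 : |z.1| < 1 / 4) {m1 : ℝ} (hm1 : 0 < m1)
    (H : ∀ (N e : ℝ) (w : ℤ → ℤ → ℤ) (x y : ℤ), Ctx (a + b + 1) N e w a b → GCol N e a b x →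
      e ≤ m1 * N → |(x : ℝ) - N * z.1| ≤ m1 * N → |(y : ℝ) - N * z.2| ≤ m1 * N →
      St w a b x y ∧ |(w x y : ℝ) - PP N p q x y| ≤ 5 * e + 3) :
    HP f z a b p q := by
  obtain ⟨mg, hmg, hcol⟩ := gcol_margin hz.1 hz1 a b
  have hg : 0 < xi a (b + 1) - xi a b := by
    rw [xi_up]
    have := D_lt a b ha hb
    linarith
  set g := xi a (b + 1) - xi a b with hgdef
  obtain ⟨δ, hδ, d1, d2, d3⟩ : ∃ δ : ℝ, 0 < δ ∧ δ ≤ m1 ∧ δ ≤ mg ∧ 80 * δ ≤ g := by
    refine ⟨min m1 (min mg (g / 80)), by positivity, min_le_left _ _,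
      (min_le_right _ _).trans (min_le_left _ _), ?_⟩
    have : min m1 (min mg (g / 80)) ≤ g / 80 := (min_le_right _ _).trans (min_le_right _ _)
    linarith
  refine ⟨δ, hδ, fun ε hε => ?_⟩
  obtain ⟨μ, hμ, u1, u2⟩ : ∃ μ : ℝ, 0 < μ ∧ 12 * μ ≤ ε ∧ μ ≤ δ := by
    refine ⟨min (ε / 12) δ, by positivity, ?_, min_le_right _ _⟩
    have := min_le_left (ε / 12) δ
    linarith
  obtain ⟨n1, hn1⟩ := exists_nat_ge (8 / μ)
  obtain ⟨n2, hn2⟩ := exists_nat_ge (100 / mg)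
  obtain ⟨n3, hn3⟩ := exists_nat_ge (6 / ε)
  filter_upwards [pkgN (a + b + 1) hμ, eventually_ge_atTop n1, eventually_ge_atTop n2,
    eventually_ge_atTop n3, eventually_ge_atTop 1] with n hp g1 g2 g3 g4 x y hx hy
  have hn0 : (1 : ℝ) ≤ n := by exact_mod_cast g4
  have k1 : 8 ≤ μ * n := by
    have h8 : 8 / μ ≤ n := hn1.trans (by exact_mod_cast g1)
    rw [div_le_iff₀ hμ] at h8
    linarith
  have k2 : 100 ≤ mg * n := by
    have h8 : 100 / mg ≤ n := hn2.trans (by exact_mod_cast g2)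
    rw [div_le_iff₀ hmg] at h8
    linarith
  have k3 : 6 ≤ ε * n := by
    have h8 : 6 / ε ≤ n := hn3.trans (by exact_mod_cast g3)
    rw [div_le_iff₀ hε] at h8
    linarith
  have l1 : δ * n ≤ m1 * n := by nlinarith
  have l2 : δ * n ≤ mg * n := by nlinarith
  have l3 : μ * n ≤ δ * n := by nlinarith
  have l4 : 12 * (μ * n) ≤ ε * n := by nlinarith
  have l5 : 80 * (μ * n) ≤ g * n := by nlinarith
  have hc : GCol n (μ * n) a b x := by
    have h := hcol n k2 x (hx.trans l2)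
    refine ⟨h.h0, ?_, ?_⟩
    · have := h.hx
      linarith
    · intro a' b' h1 h2
      have := h.g a' b' h1 h2
      linarith
  have hctx : Ctx (a + b + 1) n (μ * n) (WW f n) a b := by
    refine ⟨hp f hf, baseN g4 hf, ha, hb, by omega, by omega, k1, by linarith, ?_⟩
    unfold XX
    rw [← mul_sub, ← hgdef]
    nlinarith
  obtain ⟨r1, r2⟩ := H n (μ * n) (WW f n) x y hctx hc (l3.trans l1) (hx.trans l1) (hy.trans l1)
  refine ⟨r1, ?_⟩
  unfold PP at r2
  linarith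

theorem tri_nl_lt {a b : ℤ} (ha : 0 ≤ a) (hb : 0 ≤ b) {z : ℝ × ℝ} (h : z ∈ tri .nl a b) :
    b < a := by
  obtain ⟨-, h1, h2, -⟩ := h
  by_contra hc
  have := xi_ge (a := a) (b := b) (by rw [abs_of_nonneg ha, abs_of_nonneg hb]; omega)
  linarith

theorem tile_nl {f : ℕ} (hf : f < 4) {a b : ℤ} (ha : 0 ≤ a) (hb : 0 ≤ b) {z : ℝ × ℝ}
    (hz : z ∈ Gen) (h : z ∈ tri .nl a b) : HP f z a b a b := by
  have hlt := tri_nl_lt ha hb h
  obtain ⟨-, h1, h2, h3, h4, h5⟩ := h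
  have hz1 : |z.1| < 1 / 4 := by
    have := xi_mem (a - 1) b
    have := xi_mem a b
    rw [abs_lt]
    constructor <;> linarith [this.1, this.2, (xi_mem (a - 1) b).1]
  obtain ⟨m, hm, c1, c2, c3, c4⟩ : ∃ m : ℝ, 0 < m ∧ 8 * m ≤ z.1 - xi (a - 1) b ∧
      8 * m ≤ xi a b - z.1 ∧ 8 * m ≤ z.2 - eta a b ∧
      8 * m ≤ (z.1 - xi (a - 1) b) - (z.2 - eta a b) := by
    have p1 : 0 < z.1 - xi (a - 1) b := by linarith
    have p2 : 0 < xi a b - z.1 := by linarith
    have p3 : 0 < z.2 - eta a b := by linarith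
    have p4 : 0 < (z.1 - xi (a - 1) b) - (z.2 - eta a b) := by linarith
    refine ⟨min (min (z.1 - xi (a - 1) b) (xi a b - z.1)) (min (z.2 - eta a b)
      ((z.1 - xi (a - 1) b) - (z.2 - eta a b))) / 8, by positivity, ?_, ?_, ?_, ?_⟩ <;>
      rw [mul_div_cancel₀ _ (by norm_num)]
    · exact (min_le_left _ _).trans (min_le_left _ _)
    · exact (min_le_left _ _).trans (min_le_right _ _)
    · exact (min_le_right _ _).trans (min_le_left _ _)
    · exact (min_le_right _ _).trans (min_le_right _ _)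
  refine HP_of hf ha hb hz hz1 hm fun N e w x y c hg he hx hy => ?_
  have hN := c.hN
  have e8 := c.he
  rw [abs_le] at hx hy
  have q1 : XX N (a - 1) b + 4 * e < x := by
    unfold XX; nlinarith [hx.1, mul_le_mul_of_nonneg_left c1 hN.le]
  have q2 : (x : ℝ) < XX N a b - 4 * e := by
    unfold XX; nlinarith [hx.2, mul_le_mul_of_nonneg_left c2 hN.le]
  have q3 : YY N a b + 4 * e < y := by
    unfold YY; nlinarith [hy.1, mul_le_mul_of_nonneg_left c3 hN.le]
  have q4 : (y : ℝ) < YY N a b + (x - XX N (a - 1) b) - 2 * e := by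
    unfold YY XX; nlinarith [hy.2, hx.1, mul_le_mul_of_nonneg_left c4 hN.le]
  obtain ⟨r1, r2⟩ := c.T0 hlt q1 q2 q3 q4
  have r3 := c.T0_ge hlt hg q1 q2 q3 q4
  refine ⟨r1, ?_⟩
  rw [abs_le]
  constructor <;> linarith

theorem tile_nh {f : ℕ} (hf : f < 4) {a b : ℤ} (ha : 0 ≤ a) (hb : 0 ≤ b) {z : ℝ × ℝ}
    (hz : z ∈ Gen) (h : z ∈ tri .nh (a + 1) (b + 1)) : HP f z a b (a + 1) (b + 1) := by
  obtain ⟨-, h1, h2, h3, h4, h5⟩ := h
  rw [add_sub_cancel_right] at h1 h4 h5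
  have hlt : b < a := by
    by_contra hc
    have := xi_ge (a := a + 1) (b := b + 1) (by
      rw [abs_of_nonneg (by omega : (0 : ℤ) ≤ a + 1), abs_of_nonneg (by omega : (0 : ℤ) ≤ b + 1)]
      omega)
    rw [add_sub_cancel_right] at this
    linarith
  have hz1 : |z.1| < 1 / 4 := by
    rw [abs_lt]
    constructor <;> linarith [(xi_mem (a + 1) (b + 1)).2, (xi_mem a (b + 1)).1]
  obtain ⟨m, hm, c1, c2, c3, c4⟩ : ∃ m : ℝ, 0 < m ∧ 8 * m ≤ z.1 - xi a (b + 1) ∧
      8 * m ≤ xi (a + 1) (b + 1) - z.1 ∧ 8 * m ≤ eta (a + 1) b - z.2 ∧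
      8 * m ≤ (z.2 - eta (a + 1) (b + 1)) - (z.1 - xi a (b + 1)) := by
    have p1 : 0 < z.1 - xi a (b + 1) := by linarith
    have p2 : 0 < xi (a + 1) (b + 1) - z.1 := by linarith
    have p3 : 0 < eta (a + 1) b - z.2 := by linarith
    have p4 : 0 < (z.2 - eta (a + 1) (b + 1)) - (z.1 - xi a (b + 1)) := by linarith
    refine ⟨min (min (z.1 - xi a (b + 1)) (xi (a + 1) (b + 1) - z.1)) (min (eta (a + 1) b - z.2)
      ((z.2 - eta (a + 1) (b + 1)) - (z.1 - xi a (b + 1)))) / 8, by positivity, ?_, ?_, ?_, ?_⟩ <;>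
      rw [mul_div_cancel₀ _ (by norm_num)]
    · exact (min_le_left _ _).trans (min_le_left _ _)
    · exact (min_le_left _ _).trans (min_le_right _ _)
    · exact (min_le_right _ _).trans (min_le_left _ _)
    · exact (min_le_right _ _).trans (min_le_right _ _)
  refine HP_of hf ha hb hz hz1 hm fun N e w x y c hg he hx hy => ?_
  have hN := c.hN
  have e8 := c.he
  rw [abs_le] at hx hy
  have q1 : XX N a (b + 1) + 4 * e < x := by
    unfold XX; nlinarith [hx.1, mul_le_mul_of_nonneg_left c1 hN.le]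
  have q2 : (x : ℝ) < XX N (a + 1) (b + 1) - 4 * e := by
    unfold XX; nlinarith [hx.2, mul_le_mul_of_nonneg_left c2 hN.le]
  have q3 : (y : ℝ) < YY N (a + 1) b - 4 * e := by
    unfold YY; nlinarith [hy.2, mul_le_mul_of_nonneg_left c3 hN.le]
  have q4 : YY N (a + 1) (b + 1) + (x - XX N a (b + 1)) + 2 * e < y := by
    unfold YY XX; nlinarith [hy.1, hx.2, mul_le_mul_of_nonneg_left c4 hN.le]
  obtain ⟨r1, r2⟩ := c.T2 hlt q1 q2 q3 q4
  have r3 := c.T2_ge hlt hg q1 q2 q3 q4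
  refine ⟨r1, ?_⟩
  rw [abs_le]
  constructor <;> linarith

theorem tile_sl {f : ℕ} (hf : f < 4) {a b : ℤ} (ha : 0 ≤ a) (hb : 0 ≤ b) {z : ℝ × ℝ}
    (hz : z ∈ Gen) (h : z ∈ tri .sl a (b + 1)) : HP f z a b a (b + 1) := by
  obtain ⟨h0, h1, h2, h3, h4, h5⟩ := h
  rw [add_sub_cancel_right] at h3
  have hle : a ≤ b := by
    by_contra hc
    have := xi_le (a := a) (b := b + 1) (by
      rw [abs_of_nonneg ha, abs_of_nonneg (by omega : (0 : ℤ) ≤ b + 1)]
      omega) h0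
    linarith
  have hz1 : |z.1| < 1 / 4 := by
    rw [abs_lt]
    constructor <;> linarith [(xi_mem (a - 1) (b + 1)).2, (xi_mem a (b + 1)).1]
  obtain ⟨m, hm, c1, c2, c3, c4⟩ : ∃ m : ℝ, 0 < m ∧ 8 * m ≤ z.1 - xi a (b + 1) ∧
      8 * m ≤ xi (a - 1) (b + 1) - z.1 ∧ 8 * m ≤ z.2 - eta a b ∧
      8 * m ≤ xi a (b + 1) + eta a (b + 1) - (z.1 + z.2) := by
    have p1 : 0 < z.1 - xi a (b + 1) := by linarith
    have p2 : 0 < xi (a - 1) (b + 1) - z.1 := by linarith
    have p3 : 0 < z.2 - eta a b := by linarith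
    have p4 : 0 < xi a (b + 1) + eta a (b + 1) - (z.1 + z.2) := by linarith
    refine ⟨min (min (z.1 - xi a (b + 1)) (xi (a - 1) (b + 1) - z.1)) (min (z.2 - eta a b)
      (xi a (b + 1) + eta a (b + 1) - (z.1 + z.2))) / 8, by positivity, ?_, ?_, ?_, ?_⟩ <;>
      rw [mul_div_cancel₀ _ (by norm_num)]
    · exact (min_le_left _ _).trans (min_le_left _ _)
    · exact (min_le_left _ _).trans (min_le_right _ _)
    · exact (min_le_right _ _).trans (min_le_left _ _)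
    · exact (min_le_right _ _).trans (min_le_right _ _)
  refine HP_of hf ha hb hz hz1 hm fun N e w x y c hg he hx hy => ?_
  have hN := c.hN
  have e8 := c.he
  rw [abs_le] at hx hy
  have q1 : XX N a (b + 1) + 4 * e < x := by
    unfold XX; nlinarith [hx.1, mul_le_mul_of_nonneg_left c1 hN.le]
  have q2 : (x : ℝ) < XX N (a - 1) (b + 1) - 4 * e := by
    unfold XX; nlinarith [hx.2, mul_le_mul_of_nonneg_left c2 hN.le]
  have q3 : YY N a b + 4 * e < y := by
    unfold YY; nlinarith [hy.1, mul_le_mul_of_nonneg_left c3 hN.le]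
  have q4 : (y : ℝ) < YY N a (b + 1) - (x - XX N a (b + 1)) - 2 * e := by
    unfold YY XX; nlinarith [hy.2, hx.2, mul_le_mul_of_nonneg_left c4 hN.le]
  have hx0 : x ≠ 0 := by have := hg.h0; omega
  obtain ⟨r1, r2⟩ := c.T1 hle hx0 q1 q2 q3 q4
  have r3 := c.T1_le hle hg q1 q2 q3 q4
  refine ⟨r1, ?_⟩
  rw [abs_le]
  constructor <;> linarith

theorem tile_sh {f : ℕ} (hf : f < 4) {a b : ℤ} (ha : 0 ≤ a) (hb : 0 ≤ b) {z : ℝ × ℝ}
    (hz : z ∈ Gen) (h : z ∈ tri .sh (a + 1) b) : HP f z a b (a + 1) b := by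
  obtain ⟨h0, h1, h2, h3, h4, h5⟩ := h
  rw [add_sub_cancel_right] at h2
  have hlt : a + 1 < b := by
    by_contra hc
    have := xi_le (a := a + 1) (b := b) (by
      rw [abs_of_nonneg (by omega : (0 : ℤ) ≤ a + 1), abs_of_nonneg hb]
      omega) h0
    rw [add_sub_cancel_right] at this
    linarith
  have hz1 : |z.1| < 1 / 4 := by
    rw [abs_lt]
    constructor <;> linarith [(xi_mem a b).2, (xi_mem (a + 1) b).1]
  obtain ⟨m, hm, c1, c2, c3, c4⟩ : ∃ m : ℝ, 0 < m ∧ 8 * m ≤ z.1 - xi (a + 1) b ∧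
      8 * m ≤ xi a b - z.1 ∧ 8 * m ≤ eta (a + 1) b - z.2 ∧
      8 * m ≤ (z.1 + z.2) - (xi (a + 1) b + eta (a + 1) b) := by
    have p1 : 0 < z.1 - xi (a + 1) b := by linarith
    have p2 : 0 < xi a b - z.1 := by linarith
    have p3 : 0 < eta (a + 1) b - z.2 := by linarith
    have p4 : 0 < (z.1 + z.2) - (xi (a + 1) b + eta (a + 1) b) := by linarith
    refine ⟨min (min (z.1 - xi (a + 1) b) (xi a b - z.1)) (min (eta (a + 1) b - z.2)
      ((z.1 + z.2) - (xi (a + 1) b + eta (a + 1) b))) / 8, by positivity, ?_, ?_, ?_, ?_⟩ <;>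
      rw [mul_div_cancel₀ _ (by norm_num)]
    · exact (min_le_left _ _).trans (min_le_left _ _)
    · exact (min_le_left _ _).trans (min_le_right _ _)
    · exact (min_le_right _ _).trans (min_le_left _ _)
    · exact (min_le_right _ _).trans (min_le_right _ _)
  refine HP_of hf ha hb hz hz1 hm fun N e w x y c hg he hx hy => ?_
  have hN := c.hN
  have e8 := c.he
  rw [abs_le] at hx hy
  have q1 : XX N (a + 1) b + 4 * e < x := by
    unfold XX; nlinarith [hx.1, mul_le_mul_of_nonneg_left c1 hN.le]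
  have q2 : (x : ℝ) < XX N a b - 4 * e := by
    unfold XX; nlinarith [hx.2, mul_le_mul_of_nonneg_left c2 hN.le]
  have q3 : (y : ℝ) < YY N (a + 1) b - 4 * e := by
    unfold YY; nlinarith [hy.2, mul_le_mul_of_nonneg_left c3 hN.le]
  have q4 : YY N (a + 1) b - (x - XX N (a + 1) b) + 2 * e < y := by
    unfold YY XX; nlinarith [hy.1, hx.1, mul_le_mul_of_nonneg_left c4 hN.le]
  obtain ⟨r1, r2⟩ := c.T3 hlt q1 q2 q3 q4
  have r3 := c.T3_le hlt hg q1 q2 q3 q4
  refine ⟨r1, ?_⟩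
  rw [abs_le]
  constructor <;> linarith

end RotorNE
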