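import Mathlib
import Pool.Agent.Lib.MP_936783_pr.Frame
import Pool.Agent.Lib.MP_936783_pr.Pkg

/-!
# Local facts on a contact whose position is known
-/

open Filter

noncomputable section

namespace RotorNE

/-- The contact `K` of slope `(a, b)` is at its limit position, up to `e`. -/
structure Pos (N e : ℝ) (w : ℤ → ℤ → ℤ) (a b : ℤ) (K : Kc) : Prop where
  xo : |(K.edgeOut.1 : ℝ) - XX N a b| ≤ e
  xi : |(K.edgeIn.1 : ℝ) - XX N (a - 1) b| ≤ e
  yi : |(K.nodeIn.2 : ℝ) - YY N a b| ≤ e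
  yo : |(K.nodeOut.2 : ℝ) - YY N a (b - 1)| ≤ e
  t : |(K.T w a b : ℝ) - N * Kernel.A a b| ≤ e

variable {N e e' : ℝ} {w : ℤ → ℤ → ℤ} {a b : ℤ} {K : Kc}

theorem PP_eq (w : ℤ → ℤ → ℤ) (N : ℝ) (a b x y : ℤ) :
    (w x y : ℝ) - PP N a b x y = (wp w a b x y : ℝ) - N * Kernel.A a b := by
  unfold PP wp
  push_cast
  ring

theorem Pos.wval (P : Pos N e w a b K) {x y : ℤ} {c : ℤ}
    (hw : |K.T w a b - wp w a b x y| ≤ c) : |(w x y : ℝ) - PP N a b x y| ≤ e + c := by
  rw [PP_eq]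
  have h1 : |(K.T w a b : ℝ) - (wp w a b x y : ℝ)| ≤ c := by exact_mod_cast hw
  have h2 := P.t
  rw [abs_le] at h1 h2 ⊢
  constructor <;> linarith

theorem Pos.locP (P : Pos N e w a b K) (hK : IsK (fA w) (fB w) a b K) (he : 2 * e + 30 ≤ e')
    {x y : ℤ} (hv : K.vp x y) :
    XX N (a - 1) b - e' ≤ x ∧ x ≤ XX N a b + e' ∧ |(y - YY N a b) - (x - XX N (a - 1) b)| ≤ e' ∧
      |w x y - PP N a b x y| ≤ e' := by
  have he0 : 0 ≤ e := le_trans (abs_nonneg _) P.xo
  cases K with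
  | ne x0 y0 m =>
    obtain ⟨i, hi, rfl, rfl⟩ := hv
    have h1 := P.xo
    have h2 := P.xi
    have h3 := P.yi
    have h5 : |Kc.T w a b (.ne x0 y0 m) - wp w a b (x0 + i) (y0 + i)| ≤ 7 := by
      have := chain_const_pos w a b x0 y0 m hK.2 i hi
      simp only [Kc.T]
      rw [abs_le] at this ⊢
      omega
    have h6 := P.wval h5
    have hi' : (i : ℝ) ≤ m := by exact_mod_cast hi
    have hi0 : (0 : ℝ) ≤ i := Nat.cast_nonneg i
    simp only [Kc.edgeOut, Kc.edgeIn, Kc.nodeIn] at h1 h2 h3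
    push_cast at h1 h2 h3 h6 ⊢
    rw [abs_le] at h1 h2 h3 h6
    refine ⟨by linarith, by linarith, ?_, ?_⟩
    · rw [abs_le]
      constructor <;> linarith
    · rw [abs_le]
      constructor <;> linarith
  | se x0 y0 m => exact hv.elim
  | fe x0 y0 => exact hv.elim
  | fw x0 y0 => exact hv.elim

theorem Pos.locM (P : Pos N e w a b K) (hK : IsK (fA w) (fB w) a b K) (he : 2 * e + 30 ≤ e')
    {x y : ℤ} (hv : K.vm x y) :
    XX N a b - e' ≤ x ∧ x ≤ XX N (a - 1) b + e' ∧ |(y - YY N a b) + (x - XX N a b)| ≤ e' ∧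
      |w x y - PP N a b x y| ≤ e' := by
  have he0 : 0 ≤ e := le_trans (abs_nonneg _) P.xo
  cases K with
  | se x0 y0 m =>
    obtain ⟨i, hi, rfl, rfl⟩ := hv
    have h1 := P.xo
    have h2 := P.xi
    have h3 := P.yi
    have h5 : |Kc.T w a b (.se x0 y0 m) - wp w a b (x0 + i) (y0 - i)| ≤ 7 := by
      have := chain_const_neg w a b x0 y0 m hK.2 i hi
      simp only [Kc.T]
      rw [abs_le] at this ⊢
      omega
    have h6 := P.wval h5
    have hi' : (i : ℝ) ≤ m := by exact_mod_cast hi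
    have hi0 : (0 : ℝ) ≤ i := Nat.cast_nonneg i
    simp only [Kc.edgeOut, Kc.edgeIn, Kc.nodeIn] at h1 h2 h3
    push_cast at h1 h2 h3 h6 ⊢
    rw [abs_le] at h1 h2 h3 h6
    refine ⟨by linarith, by linarith, ?_, ?_⟩
    · rw [abs_le]
      constructor <;> linarith
    · rw [abs_le]
      constructor <;> linarith
  | ne x0 y0 m => exact hv.elim
  | fe x0 y0 => exact hv.elim
  | fw x0 y0 => exact hv.elim

theorem Pos.locF (P : Pos N e w a b K) (he : 2 * e + 30 ≤ e')
    {x y : ℤ} (hv : K.en x y ∨ K.es x y ∨ K.wn x y) : Near N e' a b x y := by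
  have he0 : 0 ≤ e := le_trans (abs_nonneg _) P.xo
  have h1 := P.xo
  have h2 := P.xi
  have h3 := P.yi
  cases K with
  | ne x0 y0 m =>
    rcases hv with hv | hv | hv
    · obtain ⟨i, hi, rfl, rfl⟩ := hv
      have hi' : (i : ℝ) + 1 ≤ m := by exact_mod_cast hi
      have hi0 : (0 : ℝ) ≤ i := Nat.cast_nonneg i
      simp only [Kc.edgeOut, Kc.edgeIn, Kc.nodeIn] at h1 h2 h3
      push_cast at h1 h2 h3
      rw [abs_le] at h1 h2 h3
      left
      push_cast
      refine ⟨by linarith, by linarith, ?_⟩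
      rw [abs_le]
      constructor <;> linarith
    · exact hv.elim
    · exact hv.elim
  | se x0 y0 m =>
    rcases hv with hv | hv | hv
    · obtain ⟨i, hi, rfl, rfl⟩ := hv
      have hi' : (i : ℝ) + 1 ≤ m := by exact_mod_cast hi
      have hi0 : (0 : ℝ) ≤ i := Nat.cast_nonneg i
      simp only [Kc.edgeOut, Kc.edgeIn, Kc.nodeIn] at h1 h2 h3
      push_cast at h1 h2 h3
      rw [abs_le] at h1 h2 h3
      right
      push_cast
      refine ⟨by linarith, by linarith, ?_⟩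
      rw [abs_le]
      constructor <;> linarith
    · exact hv.elim
    · exact hv.elim
  | fe x0 y0 =>
    rcases hv with hv | hv | hv
    · exact hv.elim
    · obtain ⟨rfl, rfl⟩ := hv
      simp only [Kc.edgeOut, Kc.edgeIn, Kc.nodeIn] at h1 h2 h3
      rw [abs_le] at h1 h2 h3
      left
      refine ⟨by linarith, by linarith, ?_⟩
      rw [abs_le]
      constructor <;> linarith
    · exact hv.elim
  | fw x0 y0 =>
    rcases hv with hv | hv | hv
    · exact hv.elim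
    · exact hv.elim
    · obtain ⟨rfl, rfl⟩ := hv
      simp only [Kc.edgeOut, Kc.edgeIn, Kc.nodeIn] at h1 h2 h3
      rw [abs_le] at h1 h2 h3
      left
      refine ⟨by linarith, by linarith, ?_⟩
      rw [abs_le]
      constructor <;> linarith

/-- A column away from the limit positions is away from the ends of the contact. -/
theorem Pos.gen (P : Pos N e w a b K) (he : 2 * e + 30 ≤ e') {x : ℤ} (hg : GenX N e' a b x) :
    (x + 10 ≤ K.edgeIn.1 ∨ K.edgeIn.1 + 10 ≤ x) ∧ (x + 10 ≤ K.edgeOut.1 ∨ K.edgeOut.1 + 10 ≤ x) := by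
  have he0 : 0 ≤ e := le_trans (abs_nonneg _) P.xo
  obtain ⟨g1, g2⟩ := hg
  have h1 := P.xo
  have h2 := P.xi
  rw [abs_le] at h1 h2
  constructor
  · rcases lt_abs.1 g2 with h | h
    · right
      have : (K.edgeIn.1 : ℝ) + 10 ≤ x := by linarith
      exact_mod_cast this
    · left
      have : (x : ℝ) + 10 ≤ K.edgeIn.1 := by linarith
      exact_mod_cast this
  · rcases lt_abs.1 g1 with h | h
    · right
      have : (K.edgeOut.1 : ℝ) + 10 ≤ x := by linarith
      exact_mod_cast this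
    · left
      have : (x : ℝ) + 10 ≤ K.edgeOut.1 := by linarith
      exact_mod_cast this

/-- Interior vertices and faces of a chain. -/
theorem ne_vertex {x0 y0 : ℤ} {m : ℕ} (hK : IsK (fA w) (fB w) a b (.ne x0 y0 m)) {i : ℕ}
    (hi0 : 0 < i) (him : i < m) : NV w a b (x0 + i) (y0 + i) := by
  have h1 := hK.2 i him
  have h2 := hK.2 (i - 1) (by omega)
  have e1 : ((i - 1 : ℕ) : ℤ) = i - 1 := by omega
  rw [e1] at h2
  refine ⟨?_, h1.1, h1.2.2.1, ?_⟩
  · rw [show x0 + (i : ℤ) - 1 = x0 + (i - 1) by ring,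
      show y0 + (i : ℤ) = y0 + (i - 1) + 1 by ring]
    exact h2.2.1
  · rw [show y0 + (i : ℤ) - 1 = y0 + (i - 1) by ring,
      show x0 + (i : ℤ) = x0 + (i - 1) + 1 by ring]
    exact h2.2.2.2

theorem ne_face {x0 y0 : ℤ} {m : ℕ} (hK : IsK (fA w) (fB w) a b (.ne x0 y0 m)) {i : ℕ}
    (him : i < m) : FF w a b (x0 + i) (y0 + i) := by
  have h1 := hK.2 i him
  exact ⟨h1.2.1, h1.1, h1.2.2.1, h1.2.2.2⟩

theorem se_vertex {x0 y0 : ℤ} {m : ℕ} (hK : IsK (fA w) (fB w) a b (.se x0 y0 m)) {i : ℕ}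
    (hi0 : 0 < i) (him : i < m) : SV w a b (x0 + i) (y0 - i) := by
  have h1 := hK.2 i him
  have h2 := hK.2 (i - 1) (by omega)
  have e1 : ((i - 1 : ℕ) : ℤ) = i - 1 := by omega
  rw [e1] at h2
  refine ⟨?_, h1.2.1, ?_, h1.2.2.1⟩
  · rw [show x0 + (i : ℤ) - 1 = x0 + (i - 1) by ring,
      show y0 - (i : ℤ) = y0 - (i - 1) - 1 by ring]
    exact h2.1
  · rw [show y0 - (i : ℤ) = y0 - (i - 1) - 1 by ring,
      show x0 + (i : ℤ) = x0 + (i - 1) + 1 by ring]
    exact h2.2.2.2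

theorem se_face {x0 y0 : ℤ} {m : ℕ} (hK : IsK (fA w) (fB w) a b (.se x0 y0 m)) {i : ℕ}
    (him : i < m) : FF w a b (x0 + i) (y0 - i - 1) := by
  have h1 := hK.2 i him
  refine ⟨?_, h1.1, h1.2.2.1, h1.2.2.2⟩
  rw [sub_add_cancel]
  exact h1.2.1

theorem Pos.regP (P : Pos N e w a b K) (hK : IsK (fA w) (fB w) a b K) (he : 2 * e + 30 ≤ e')
    {x y : ℤ} (hg : GenX N e' a b x) (hv : K.vp x y) :
    NV w a b x y ∧ FF w a b x y ∧ NV w a b (x + 1) (y + 1) ∧ FF w a b (x - 1) (y - 1) ∧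
      NV w a b (x - 1) (y - 1) := by
  have hg' := P.gen he hg
  cases K with
  | ne x0 y0 m =>
    obtain ⟨i, hi, rfl, rfl⟩ := hv
    simp only [Kc.edgeIn, Kc.edgeOut] at hg'
    have e1 : ((i - 1 : ℕ) : ℤ) = i - 1 := by omega
    refine ⟨ne_vertex hK (by omega) (by omega), ne_face hK (by omega), ?_, ?_, ?_⟩
    · have := ne_vertex hK (i := i + 1) (by omega) (by omega)
      push_cast at this
      rw [← add_assoc, ← add_assoc] at this
      exact this
    · have := ne_face hK (i := i - 1) (by omega)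
      rw [e1, ← add_sub_assoc, ← add_sub_assoc] at this
      exact this
    · have := ne_vertex hK (i := i - 1) (by omega) (by omega)
      rw [e1, ← add_sub_assoc, ← add_sub_assoc] at this
      exact this
  | se x0 y0 m => exact hv.elim
  | fe x0 y0 => exact hv.elim
  | fw x0 y0 => exact hv.elim

theorem Pos.regM (P : Pos N e w a b K) (hK : IsK (fA w) (fB w) a b K) (he : 2 * e + 30 ≤ e')
    {x y : ℤ} (hg : GenX N e' a b x) (hv : K.vm x y) :
    SV w a b x y ∧ FF w a b x (y - 1) ∧ SV w a b (x + 1) (y - 1) ∧ FF w a b (x - 1) y ∧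
      SV w a b (x - 1) (y + 1) := by
  have hg' := P.gen he hg
  cases K with
  | se x0 y0 m =>
    obtain ⟨i, hi, rfl, rfl⟩ := hv
    simp only [Kc.edgeIn, Kc.edgeOut] at hg'
    have e1 : ((i - 1 : ℕ) : ℤ) = i - 1 := by omega
    refine ⟨se_vertex hK (by omega) (by omega), se_face hK (by omega), ?_, ?_, ?_⟩
    · have := se_vertex hK (i := i + 1) (by omega) (by omega)
      push_cast at this
      rw [← add_assoc, ← sub_sub] at this
      exact this
    · have := se_face hK (i := i - 1) (by omega)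
      rw [e1, ← add_sub_assoc, show y0 - ((i : ℤ) - 1) - 1 = y0 - i by ring] at this
      exact this
    · have := se_vertex hK (i := i - 1) (by omega) (by omega)
      rw [e1, ← add_sub_assoc, show y0 - ((i : ℤ) - 1) = y0 - i + 1 by ring] at this
      exact this
  | ne x0 y0 m => exact hv.elim
  | fe x0 y0 => exact hv.elim
  | fw x0 y0 => exact hv.elim

theorem Pos.regF (P : Pos N e w a b K) (hK : IsK (fA w) (fB w) a b K) (he : 2 * e + 30 ≤ e')
    {x y : ℤ} (hg : GenX N e' a b x) (hv : K.en x y ∨ K.es x y ∨ K.wn x y) :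
    FF w a b x y ∧ ((NV w a b x y ∧ NV w a b (x + 1) (y + 1)) ∨
      (SV w a b x (y + 1) ∧ SV w a b (x + 1) y)) := by
  have hg' := P.gen he hg
  cases K with
  | ne x0 y0 m =>
    rcases hv with hv | hv | hv
    · obtain ⟨i, hi, rfl, rfl⟩ := hv
      simp only [Kc.edgeIn, Kc.edgeOut] at hg'
      refine ⟨ne_face hK hi, Or.inl ⟨ne_vertex hK (by omega) hi, ?_⟩⟩
      have := ne_vertex hK (i := i + 1) (by omega) (by omega)
      push_cast at this
      rw [← add_assoc, ← add_assoc] at this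
      exact this
    · exact hv.elim
    · exact hv.elim
  | se x0 y0 m =>
    rcases hv with hv | hv | hv
    · obtain ⟨i, hi, rfl, rfl⟩ := hv
      simp only [Kc.edgeIn, Kc.edgeOut] at hg'
      refine ⟨se_face hK hi, Or.inr ⟨?_, ?_⟩⟩
      · rw [sub_add_cancel]
        exact se_vertex hK (by omega) hi
      · have := se_vertex hK (i := i + 1) (by omega) (by omega)
        push_cast at this
        rw [← add_assoc, ← sub_sub] at this
        exact this
    · exact hv.elim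
    · exact hv.elim
  | fe x0 y0 =>
    exfalso
    rcases hv with hv | hv | hv
    · exact hv.elim
    · obtain ⟨rfl, rfl⟩ := hv
      simp only [Kc.edgeIn, Kc.edgeOut] at hg'
      omega
    · exact hv.elim
  | fw x0 y0 =>
    exfalso
    rcases hv with hv | hv | hv
    · exact hv.elim
    · exact hv.elim
    · obtain ⟨rfl, rfl⟩ := hv
      simp only [Kc.edgeIn, Kc.edgeOut] at hg'
      omega

theorem Pos.exP (P : Pos N e w a b K) (hK : IsK (fA w) (fB w) a b K) (he : 2 * e + 30 ≤ e')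
    {x : ℤ} (h1 : XX N (a - 1) b + e' < x) (h2 : x < XX N a b - e') :
    ∃ y, VP (fA w) (fB w) a b x y := by
  have he0 : 0 ≤ e := le_trans (abs_nonneg _) P.xo
  have h3 := P.xo
  have h4 := P.xi
  rw [abs_le] at h3 h4
  have g1 : (K.edgeIn.1 : ℝ) + 1 < x := by linarith
  have g2 : (x : ℝ) + 1 < K.edgeOut.1 := by linarith
  have g1' : K.edgeIn.1 + 1 < x := by exact_mod_cast g1
  have g2' : x + 1 < K.edgeOut.1 := by exact_mod_cast g2
  cases K with
  | ne x0 y0 m =>
    simp only [Kc.edgeIn, Kc.edgeOut] at g1' g2'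
    obtain ⟨i, hi⟩ : ∃ i : ℕ, x = x0 + i := ⟨(x - x0).toNat, by omega⟩
    have := hK.1 i (by omega)
    refine ⟨y0 + i, ?_⟩
    rw [hi]
    exact ⟨this.1, this.2.1, this.2.2.2, this.2.2.1⟩
  | se x0 y0 m =>
    exfalso
    simp only [Kc.edgeIn, Kc.edgeOut] at g1' g2'
    omega
  | fe x0 y0 =>
    exfalso
    simp only [Kc.edgeIn, Kc.edgeOut] at g1' g2'
    omega
  | fw x0 y0 =>
    exfalso
    simp only [Kc.edgeIn, Kc.edgeOut] at g1' g2'
    omega

theorem Pos.exM (P : Pos N e w a b K) (hK : IsK (fA w) (fB w) a b K) (he : 2 * e + 30 ≤ e')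
    {x : ℤ} (h1 : XX N a b + e' < x) (h2 : x < XX N (a - 1) b - e') :
    ∃ y, VM (fA w) (fB w) a b x y := by
  have he0 : 0 ≤ e := le_trans (abs_nonneg _) P.xo
  have h3 := P.xo
  have h4 := P.xi
  rw [abs_le] at h3 h4
  have g1 : (K.edgeOut.1 : ℝ) + 1 < x := by linarith
  have g2 : (x : ℝ) + 1 < K.edgeIn.1 := by linarith
  have g1' : K.edgeOut.1 + 1 < x := by exact_mod_cast g1
  have g2' : x + 1 < K.edgeIn.1 := by exact_mod_cast g2
  cases K with
  | se x0 y0 m =>
    simp only [Kc.edgeIn, Kc.edgeOut] at g1' g2'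
    obtain ⟨i, hi⟩ : ∃ i : ℕ, x = x0 + i := ⟨(x - x0).toNat, by omega⟩
    have := hK.1 i (by omega)
    refine ⟨y0 - i, ?_⟩
    rw [hi]
    exact ⟨this.2.1, this.1, this.2.2.1, this.2.2.2⟩
  | ne x0 y0 m =>
    exfalso
    simp only [Kc.edgeIn, Kc.edgeOut] at g1' g2'
    omega
  | fe x0 y0 =>
    exfalso
    simp only [Kc.edgeIn, Kc.edgeOut] at g1' g2'
    omega
  | fw x0 y0 =>
    exfalso
    simp only [Kc.edgeIn, Kc.edgeOut] at g1' g2'
    omega

/-! ### Runs -/

theorem Kc.edge_le_nodeOut (K : Kc) : K.edgeIn.1 ≤ K.nodeOut.1 ∧ K.edgeOut.1 ≤ K.nodeOut.1 := by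
  cases K <;> simp only [Kc.edgeIn, Kc.edgeOut, Kc.nodeOut] <;> omega

theorem Kc.nodeIn_le_edge (K : Kc) :
    K.nodeIn.1 ≤ K.edgeIn.1 + 1 ∧ K.nodeIn.1 ≤ K.edgeOut.1 + 1 := by
  cases K <;> simp only [Kc.edgeIn, Kc.edgeOut, Kc.nodeIn] <;> omega

/-- The value on a run. -/
theorem run_value {K' : Kc} (hK' : IsK (fA w) (fB w) a (b + 1) K')
    (hK : IsK (fA w) (fB w) a b K) (hL : HLink (fA w) (fB w) a b K' K) {x : ℤ}
    (hx : (K'.nodeOut.1 ≤ x ∧ x + 1 ≤ K.nodeIn.1 ∧ fB w x K.nodeIn.2 = b ∧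
        fA w x (K.nodeIn.2 + 1) < a) ∨
      (K.nodeIn.1 ≤ x ∧ x + 1 ≤ K'.nodeOut.1 ∧ fA w x K.nodeIn.2 < a)) :
    |K.T w a b - wp w a b x K.nodeIn.2| ≤ 24 := by
  have hrun : ∀ c : Prop, (HRun (fA w) (fB w) a b K'.nodeOut K.nodeIn → c) →
      (K'.hLast = K.hFirst → c) → c := by
    intro c h1 h2
    rcases hL with h | h
    · exact h1 h
    · exact h2 h
  apply hrun
  · rintro ⟨hy, h | h⟩
    · obtain ⟨h1, h2, h3⟩ := h
      have hxx : K'.nodeOut.1 ≤ x ∧ x ≤ K.nodeIn.1 := by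
        rcases hx with hx | hx
        · exact ⟨hx.1, by omega⟩
        · omega
      have e1 := T_nodeIn hK (h2 _ h1 le_rfl)
      have e2 := (run_const w a b K'.nodeOut.1 K.nodeIn.2 (K.nodeIn.1 - K'.nodeOut.1).toNat
          (fun i hi => h2 _ (by omega) (by omega))
          (Or.inl (fun i hi => h3 _ (by omega) (by omega))) (x - K'.nodeOut.1).toNat
          (K.nodeIn.1 - K'.nodeOut.1).toNat (by omega) le_rfl).1
      rw [show K'.nodeOut.1 + ((K.nodeIn.1 - K'.nodeOut.1).toNat : ℤ) = K.nodeIn.1 by omega,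
        show K'.nodeOut.1 + ((x - K'.nodeOut.1).toNat : ℤ) = x by omega] at e2
      rw [abs_le] at e1 e2 ⊢
      constructor <;> linarith
    · obtain ⟨h1, h2, h3⟩ := h
      have hxx : K.nodeIn.1 ≤ x ∧ x ≤ K'.nodeOut.1 := by
        rcases hx with hx | hx
        · omega
        · exact ⟨hx.1, by omega⟩
      have e1 := T_nodeIn hK (h2 _ le_rfl h1)
      have e2 := (run_const w a b K.nodeIn.1 K.nodeIn.2 (K'.nodeOut.1 - K.nodeIn.1).toNat
          (fun i hi => h2 _ (by omega) (by omega))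
          (Or.inr (fun i hi => h3 _ (by omega) (by omega))) (x - K.nodeIn.1).toNat 0
          (by omega) (Nat.zero_le _)).1
      rw [show K.nodeIn.1 + ((x - K.nodeIn.1).toNat : ℤ) = x by omega] at e2
      simp only [Nat.cast_zero, add_zero] at e2
      rw [abs_le] at e1 e2 ⊢
      constructor <;> linarith
  · intro hcell
    exfalso
    cases K' <;> cases K <;> simp only [Kc.hLast, Kc.hFirst, Cell.vx.injEq, Cell.fc.injEq,
      reduceCtorEq] at hcell <;> simp only [Kc.nodeOut, Kc.nodeIn, IsK] at hx hK hK'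
    · omega
    · omega
    · omega
    · omega
    · obtain ⟨rfl, rfl⟩ := hcell
      rcases hx with hx | hx
      · omega
      · have : x = _ := le_antisymm (by omega) hx.1
        subst this
        omega
    · obtain ⟨rfl, rfl⟩ := hcell
      omega
    · obtain ⟨rfl, rfl⟩ := hcell
      omega
    · obtain ⟨rfl, rfl⟩ := hcell
      rcases hx with hx | hx
      · have : x = _ := le_antisymm (by omega) hx.1
        subst this
        omega
      · omega

theorem Pos.runW (P : Pos N e w a b K) {K' : Kc} (hK' : IsK (fA w) (fB w) a (b + 1) K')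
    (hK : IsK (fA w) (fB w) a b K) (hL : HLink (fA w) (fB w) a b K' K) (he : 2 * e + 30 ≤ e')
    {x y : ℤ} (hr : WR w a b x y)
    (hW : y = K.nodeIn.2 ∧ K.nodeIn.1 ≤ x ∧ x + 1 ≤ K'.nodeOut.1) :
    |y - YY N a b| ≤ e' ∧ |w x y - PP N a b x y| ≤ e' := by
  have he0 : 0 ≤ e := le_trans (abs_nonneg _) P.xo
  obtain ⟨rfl, h1, h2⟩ := hW
  have h3 := P.wval (run_value hK' hK hL (x := x) (Or.inr ⟨h1, h2, hr.2.1⟩))
  refine ⟨le_trans P.yi (by linarith), le_trans h3 (by push_cast; linarith)⟩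

theorem Pos.runE (P : Pos N e w a b K) {K' : Kc} (hK' : IsK (fA w) (fB w) a (b + 1) K')
    (hK : IsK (fA w) (fB w) a b K) (hL : HLink (fA w) (fB w) a b K' K) (he : 2 * e + 30 ≤ e')
    {x y : ℤ} (hr : ER w a b x y)
    (hE : y = K.nodeIn.2 ∧ K'.nodeOut.1 ≤ x ∧ x + 1 ≤ K.nodeIn.1) :
    |y - YY N a b| ≤ e' ∧ |w x y - PP N a b x y| ≤ e' := by
  have he0 : 0 ≤ e := le_trans (abs_nonneg _) P.xo
  obtain ⟨rfl, h1, h2⟩ := hE
  have h3 := P.wval (run_value hK' hK hL (x := x) (Or.inl ⟨h1, h2, hr.2.2.2.2.2.1, hr.2.1⟩))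
  refine ⟨le_trans P.yi (by linarith), le_trans h3 (by push_cast; linarith)⟩

/-- The left bound of an east run. -/
theorem Pos.runE_left {K' : Kc} (P' : Pos N e w a (b + 1) K') (he : 2 * e + 30 ≤ e')
    {x : ℤ} (h1 : K'.nodeOut.1 ≤ x) : XX N (a - 1) (b + 1) - e' ≤ x ∧ XX N a (b + 1) - e' ≤ x := by
  have he0 : 0 ≤ e := le_trans (abs_nonneg _) P'.xo
  obtain ⟨g1, g2⟩ := K'.edge_le_nodeOut
  have h2 := P'.xi
  have h3 := P'.xo
  have f1 : (K'.edgeIn.1 : ℝ) ≤ x := by exact_mod_cast le_trans g1 h1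
  have f2 : (K'.edgeOut.1 : ℝ) ≤ x := by exact_mod_cast le_trans g2 h1
  rw [abs_le] at h2 h3
  constructor <;> linarith

/-- The right bound of an east run. -/
theorem Pos.runE_right (P : Pos N e w a b K) (he : 2 * e + 30 ≤ e')
    {x : ℤ} (h1 : x + 1 ≤ K.nodeIn.1) : x ≤ XX N (a - 1) b + e' ∧ x ≤ XX N a b + e' := by
  have he0 : 0 ≤ e := le_trans (abs_nonneg _) P.xo
  obtain ⟨g1, g2⟩ := K.nodeIn_le_edge
  have h2 := P.xi
  have h3 := P.xo
  have f1 : (x : ℝ) ≤ K.edgeIn.1 := by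
    have : x ≤ K.edgeIn.1 := by omega
    exact_mod_cast this
  have f2 : (x : ℝ) ≤ K.edgeOut.1 := by
    have : x ≤ K.edgeOut.1 := by omega
    exact_mod_cast this
  rw [abs_le] at h2 h3
  constructor <;> linarith

end RotorNE
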