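import Mathlib.Tactic
import Mathlib.Data.Nat.Nth
import Mathlib.Data.Int.Interval
import Mathlib.Data.Int.ConditionallyCompleteOrder
import Mathlib.Data.Int.Star
import Mathlib.Algebra.Order.Star.Real
import Mathlib.Analysis.SpecialFunctions.Integrals.Basic
import Mathlib.Analysis.Fourier.RiemannLebesgueLemma
import Mathlib.Analysis.SpecificLimits.Basic
import Mathlib.Analysis.Asymptotics.SpecificAsymptotics
import Mathlib.MeasureTheory.Integral.Prod
import Mathlib.MeasureTheory.Measure.Lebesgue.Basic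

/-!
# The potential kernel of the simple random walk on `ℤ²`: Fourier representation
-/

open MeasureTheory Filter Set Real

open scoped Topology FourierTransform

noncomputable section

namespace RotorNE

namespace Kernel

/-! ### Riemann–Lebesgue -/

lemma rl_exp {f : ℝ → ℝ} (_hf : Integrable f) :
    Tendsto (fun s : ℝ => ∫ v : ℝ, Complex.exp (-(v * s * Complex.I)) * (f v : ℂ)) atTop (𝓝 0) := by
  have h1 := Real.tendsto_integral_exp_smul_cocompact (fun v : ℝ => (f v : ℂ))
  have h2 : Tendsto (fun s : ℝ => s / (2 * π)) atTop (cocompact ℝ) := by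
    refine Tendsto.mono_right ?_ atTop_le_cocompact
    exact tendsto_id.atTop_div_const (by positivity)
  refine (h1.comp h2).congr fun s => ?_
  simp only [Function.comp]
  apply integral_congr_ae
  refine Eventually.of_forall fun v => ?_
  simp only [Circle.smul_def, Real.fourierChar_apply, smul_eq_mul]
  congr 2
  have hpi : (π : ℂ) ≠ 0 := by exact_mod_cast Real.pi_ne_zero
  push_cast
  field_simp

lemma exp_integrable {f : ℝ → ℝ} (hf : Integrable f) (s : ℝ) :
    Integrable fun v : ℝ => Complex.exp (-(v * s * Complex.I)) * (f v : ℂ) := by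
  have h1 : Integrable fun v : ℝ => (f v : ℂ) := hf.ofReal
  refine h1.bdd_mul (c := 1) ?_ ?_
  · exact (by fun_prop : Continuous fun v : ℝ => Complex.exp (-(v * s * Complex.I))).aestronglyMeasurable
  · refine Eventually.of_forall fun v => ?_
    have : (-(v * s * Complex.I) : ℂ) = ((-(v * s) : ℝ) : ℂ) * Complex.I := by push_cast; ring
    rw [this, Complex.norm_exp_ofReal_mul_I]

lemma rl_cos {f : ℝ → ℝ} (hf : Integrable f) :
    Tendsto (fun s : ℝ => ∫ v : ℝ, cos (s * v) * f v) atTop (𝓝 0) := by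
  have h := (Complex.continuous_re.tendsto _).comp (rl_exp hf)
  simp only [Complex.zero_re] at h
  refine h.congr fun s => ?_
  simp only [Function.comp]
  have h2 := Complex.reCLM.integral_comp_comm (exp_integrable hf s)
  simp only [Complex.reCLM_apply] at h2
  rw [← h2]
  apply integral_congr_ae
  refine Eventually.of_forall fun v => ?_
  have : (-(v * s * Complex.I) : ℂ) = ((-(s * v) : ℝ) : ℂ) * Complex.I := by push_cast; ring
  simp only [this, Complex.re_mul_ofReal, Complex.exp_ofReal_mul_I_re, Real.cos_neg]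

lemma rl_sin {f : ℝ → ℝ} (hf : Integrable f) :
    Tendsto (fun s : ℝ => ∫ v : ℝ, sin (s * v) * f v) atTop (𝓝 0) := by
  have h := (Complex.continuous_im.tendsto _).comp (rl_exp hf)
  simp only [Complex.zero_im] at h
  have h' := h.neg
  rw [neg_zero] at h'
  refine h'.congr fun s => ?_
  simp only [Function.comp]
  have h2 := Complex.imCLM.integral_comp_comm (exp_integrable hf s)
  simp only [Complex.imCLM_apply] at h2
  rw [← h2, ← integral_neg]
  apply integral_congr_ae
  refine Eventually.of_forall fun v => ?_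
  have : (-(v * s * Complex.I) : ℂ) = ((-(s * v) : ℝ) : ℂ) * Complex.I := by push_cast; ring
  simp only [this, Complex.im_mul_ofReal, Complex.exp_ofReal_mul_I_im, Real.sin_neg]
  ring

/-! ### The kernel -/

/-- The interval `(0, π]` with Lebesgue measure. -/
def mu : Measure ℝ := volume.restrict (Ioc 0 π)

instance : IsFiniteMeasure mu := by unfold mu; infer_instance

/-- The square. -/
def nu : Measure (ℝ × ℝ) := mu.prod mu

instance : IsFiniteMeasure nu := by unfold nu; infer_instance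

/-- `1 - (cos θ + cos φ) / 2`. -/
def den (θ φ : ℝ) : ℝ := sin (θ / 2) ^ 2 + sin (φ / 2) ^ 2

/-- Integrand. -/
def kf (x y : ℝ) (z : ℝ × ℝ) : ℝ := (1 - cos (x * z.1) * cos (y * z.2)) / den z.1 z.2

/-- The potential kernel, normalised by `A 1 0 = 1`. -/
def A (x y : ℤ) : ℝ := (1 / π ^ 2) * ∫ z, kf x y z ∂nu

lemma den_nonneg (θ φ : ℝ) : 0 ≤ den θ φ := by unfold den; positivity

lemma den_symm (θ φ : ℝ) : den θ φ = den φ θ := by unfold den; ring

lemma sin_half_pos {θ : ℝ} (h : θ ∈ Ioc 0 π) : 0 < sin (θ / 2) :=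
  Real.sin_pos_of_pos_of_lt_pi (by linarith [h.1]) (by linarith [h.1, h.2, Real.pi_pos])

lemma den_pos {θ φ : ℝ} (h : θ ∈ Ioc 0 π) : 0 < den θ φ := by
  have := sin_half_pos h
  unfold den
  positivity

lemma den_pos' {θ φ : ℝ} (h : φ ∈ Ioc 0 π) : 0 < den θ φ := by
  rw [den_symm]; exact den_pos h

lemma abs_sin_nat (n : ℕ) (α : ℝ) : |sin (n * α)| ≤ n * |sin α| := by
  induction n with
  | zero => simp
  | succ n ih =>
    have e : ((n + 1 : ℕ) : ℝ) * α = n * α + α := by push_cast; ring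
    rw [e, Real.sin_add]
    have h1 : |sin (n * α) * cos α| ≤ |sin (n * α)| := by
      rw [abs_mul]
      exact mul_le_of_le_one_right (abs_nonneg _) (Real.abs_cos_le_one _)
    have h2 : |cos (n * α) * sin α| ≤ |sin α| := by
      rw [abs_mul]
      exact mul_le_of_le_one_left (abs_nonneg _) (Real.abs_cos_le_one _)
    calc |sin (n * α) * cos α + cos (n * α) * sin α|
        ≤ |sin (n * α) * cos α| + |cos (n * α) * sin α| := abs_add_le _ _
      _ ≤ n * |sin α| + |sin α| := by linarith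
      _ = ((n + 1 : ℕ) : ℝ) * |sin α| := by push_cast; ring

lemma abs_sin_int (n : ℤ) (α : ℝ) : |sin (n * α)| ≤ |(n : ℝ)| * |sin α| := by
  obtain ⟨m, rfl | rfl⟩ := n.eq_nat_or_neg
  · have := abs_sin_nat m α
    simpa using this
  · have := abs_sin_nat m α
    have e : ((-(m : ℤ) : ℤ) : ℝ) * α = -(m * α) := by push_cast; ring
    rw [e, Real.sin_neg, abs_neg]
    push_cast
    rw [abs_neg, Nat.abs_cast]
    exact this

lemma one_sub_cos_le (n : ℤ) (θ : ℝ) : 1 - cos (n * θ) ≤ 2 * (n : ℝ) ^ 2 * sin (θ / 2) ^ 2 := by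
  have h1 : 1 - cos (n * θ) = 2 * sin (n * (θ / 2)) ^ 2 := by
    have e : (n : ℝ) * θ = 2 * (n * (θ / 2)) := by ring
    rw [e, Real.cos_two_mul]
    have := Real.sin_sq_add_cos_sq (n * (θ / 2))
    linarith
  rw [h1]
  have h2 := abs_sin_int n (θ / 2)
  have h3 : sin (n * (θ / 2)) ^ 2 ≤ (|(n : ℝ)| * |sin (θ / 2)|) ^ 2 := by
    rw [← sq_abs (sin (n * (θ / 2)))]
    exact pow_le_pow_left₀ (abs_nonneg _) h2 2
  rw [mul_pow, sq_abs, sq_abs] at h3
  linarith

lemma kf_bound (x y : ℤ) (z : ℝ × ℝ) : |kf x y z| ≤ 2 * ((x : ℝ) ^ 2 + (y : ℝ) ^ 2) := by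
  unfold kf
  have h0 : 0 ≤ 1 - cos (x * z.1) * cos (y * z.2) := by
    have h1 := Real.abs_cos_le_one (x * z.1)
    have h2 := Real.abs_cos_le_one (y * z.2)
    have h3 : |cos (x * z.1) * cos (y * z.2)| ≤ 1 := by
      rw [abs_mul]
      exact mul_le_one₀ h1 (abs_nonneg _) h2
    linarith [(abs_le.1 h3).2]
  rw [abs_div, abs_of_nonneg h0, abs_of_nonneg (den_nonneg _ _)]
  rcases (den_nonneg z.1 z.2).eq_or_lt with h | h
  · rw [← h, div_zero]
    positivity
  · rw [div_le_iff₀ h]
    have a1 := one_sub_cos_le x z.1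
    have a2 := one_sub_cos_le y z.2
    have a3 : 1 - cos (x * z.1) * cos (y * z.2) ≤
        (1 - cos (x * z.1)) + (1 - cos (y * z.2)) := by
      have c1 : 0 ≤ 1 - cos (x * z.1) := by linarith [Real.cos_le_one (x * z.1)]
      have c2 : 0 ≤ 1 - cos (y * z.2) := by linarith [Real.cos_le_one (y * z.2)]
      nlinarith [mul_nonneg c1 c2]
    have a4 : 2 * (x : ℝ) ^ 2 * sin (z.1 / 2) ^ 2 + 2 * (y : ℝ) ^ 2 * sin (z.2 / 2) ^ 2 ≤
        2 * ((x : ℝ) ^ 2 + (y : ℝ) ^ 2) * den z.1 z.2 := by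
      unfold den
      have b1 : 0 ≤ (x : ℝ) ^ 2 * sin (z.2 / 2) ^ 2 := by positivity
      have b2 : 0 ≤ (y : ℝ) ^ 2 * sin (z.1 / 2) ^ 2 := by positivity
      nlinarith
    linarith

lemma measurable_den : Measurable fun z : ℝ × ℝ => den z.1 z.2 := by
  unfold den
  fun_prop

lemma kf_integrable (x y : ℤ) : Integrable (kf x y) nu := by
  refine (integrable_const (2 * ((x : ℝ) ^ 2 + (y : ℝ) ^ 2))).mono' ?_
    (Eventually.of_forall fun z => by rw [Real.norm_eq_abs]; exact kf_bound x y z)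
  apply Measurable.aestronglyMeasurable
  unfold kf
  exact (by fun_prop : Measurable fun z : ℝ × ℝ => 1 - cos (x * z.1) * cos (y * z.2)).div
    measurable_den

lemma ae_mem : ∀ᵐ z ∂nu, z.1 ∈ Ioc 0 π ∧ z.2 ∈ Ioc 0 π := by
  have h1 : ∀ᵐ t ∂mu, t ∈ Ioc 0 π := ae_restrict_mem measurableSet_Ioc
  have h2 := (Measure.quasiMeasurePreserving_fst (μ := mu) (ν := mu)).ae h1
  have h3 := (Measure.quasiMeasurePreserving_snd (μ := mu) (ν := mu)).ae h1
  filter_upwards [h2, h3] with z a b using ⟨a, b⟩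

lemma A_zero : A 0 0 = 0 := by
  unfold A kf
  simp

lemma A_neg (x y : ℤ) : A (-x) y = A x y := by
  unfold A kf
  congr 1
  apply integral_congr_ae
  refine Eventually.of_forall fun z => ?_
  have : ((-x : ℤ) : ℝ) * z.1 = -(x * z.1) := by push_cast; ring
  simp only [this, Real.cos_neg]

lemma A_symm (x y : ℤ) : A y x = A x y := by
  unfold A
  congr 1
  have h := integral_prod_swap (μ := mu) (ν := mu) (kf y x)
  unfold nu
  rw [← h]
  apply integral_congr_ae
  refine Eventually.of_forall fun z => ?_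
  simp only [kf, Prod.fst_swap, Prod.snd_swap]
  rw [den_symm]
  ring

lemma integral_cos_int (x : ℤ) : ∫ t, cos (x * t) ∂mu = if x = 0 then π else 0 := by
  unfold mu
  rw [← intervalIntegral.integral_of_le Real.pi_pos.le]
  split_ifs with h
  · subst h
    simp
  · have hx : (x : ℝ) ≠ 0 := by exact_mod_cast h
    rw [intervalIntegral.integral_comp_mul_left (fun t => cos t) hx, integral_cos]
    rw [mul_zero, Real.sin_zero, sub_zero, Real.sin_int_mul_pi, smul_zero]

/-- The Laplacian of `A`. -/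
lemma A_lap (x y : ℤ) : A (x + 1) y + A (x - 1) y + A x (y + 1) + A x (y - 1) - 4 * A x y =
    if x = 0 ∧ y = 0 then 4 else 0 := by
  have h1 : A (x + 1) y + A (x - 1) y + A x (y + 1) + A x (y - 1) - 4 * A x y =
      (1 / π ^ 2) * ∫ z, (kf ((x + 1 : ℤ) : ℝ) y z + kf ((x - 1 : ℤ) : ℝ) y z +
        kf x ((y + 1 : ℤ) : ℝ) z + kf x ((y - 1 : ℤ) : ℝ) z - 4 * kf x y z) ∂nu := by
    rw [integral_sub, integral_add, integral_add, integral_add, integral_const_mul]
    · unfold A
      ring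
    · exact kf_integrable _ _
    · exact kf_integrable _ _
    · exact (kf_integrable _ _).add (kf_integrable _ _)
    · exact kf_integrable _ _
    · exact ((kf_integrable _ _).add (kf_integrable _ _)).add (kf_integrable _ _)
    · exact kf_integrable _ _
    · exact (((kf_integrable _ _).add (kf_integrable _ _)).add (kf_integrable _ _)).add
        (kf_integrable _ _)
    · exact (kf_integrable _ _).const_mul _
  have h2 : ∫ z, (kf ((x + 1 : ℤ) : ℝ) y z + kf ((x - 1 : ℤ) : ℝ) y z +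
        kf x ((y + 1 : ℤ) : ℝ) z + kf x ((y - 1 : ℤ) : ℝ) z - 4 * kf x y z) ∂nu =
      ∫ z, 4 * (cos (x * z.1) * cos (y * z.2)) ∂nu := by
    apply integral_congr_ae
    filter_upwards [ae_mem] with z hz
    have hden := den_pos (φ := z.2) hz.1
    have e1 : ∀ (x : ℤ) (t : ℝ), cos (((x + 1 : ℤ) : ℝ) * t) + cos (((x - 1 : ℤ) : ℝ) * t) =
        2 * cos (x * t) * cos t := by
      intro x t
      have a1 : ((x + 1 : ℤ) : ℝ) * t = x * t + t := by push_cast; ring
      have a2 : ((x - 1 : ℤ) : ℝ) * t = x * t - t := by push_cast; ring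
      rw [a1, a2, Real.cos_add, Real.cos_sub]
      ring
    have e2 : ∀ t : ℝ, cos t = 1 - 2 * sin (t / 2) ^ 2 := by
      intro t
      have a : t = 2 * (t / 2) := by ring
      conv_lhs => rw [a, Real.cos_two_mul]
      have := Real.sin_sq_add_cos_sq (t / 2)
      linarith
    unfold kf
    rw [← add_div, ← add_div, ← add_div, mul_div_assoc', ← sub_div, div_eq_iff hden.ne']
    have b1 := e1 x z.1
    have b2 := e1 y z.2
    have c1 := e2 z.1
    have c2 := e2 z.2
    unfold den
    calc _ = 4 * (cos (x * z.1) * cos (y * z.2)) -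
          (cos (((x + 1 : ℤ) : ℝ) * z.1) + cos (((x - 1 : ℤ) : ℝ) * z.1)) * cos (y * z.2) -
          (cos (((y + 1 : ℤ) : ℝ) * z.2) + cos (((y - 1 : ℤ) : ℝ) * z.2)) * cos (x * z.1) := by
            ring
      _ = _ := by rw [b1, b2, c1, c2]; ring
  rw [h1, h2, integral_const_mul]
  have h3 : ∫ z, cos (x * z.1) * cos (y * z.2) ∂nu =
      (∫ t, cos (x * t) ∂mu) * ∫ t, cos (y * t) ∂mu :=
    integral_prod_mul (fun t : ℝ => cos (x * t)) (fun t : ℝ => cos (y * t))
  rw [h3, integral_cos_int, integral_cos_int]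
  have hpi := Real.pi_ne_zero
  by_cases hx : x = 0
  · by_cases hy : y = 0
    · simp only [hx, hy, if_true, and_self]
      field_simp
    · simp [hx, hy]
  · simp [hx]

/-! ### Differences -/

/-- `cos (a t) - cos ((a+1) t)`. -/
def S (a : ℤ) (t : ℝ) : ℝ := cos (a * t) - cos (((a + 1 : ℤ) : ℝ) * t)

lemma S_eq (a : ℤ) (t : ℝ) : S a t = 2 * (sin ((a + 1 / 2 : ℝ) * t) * sin (t / 2)) := by
  unfold S
  have a1 : (a : ℝ) * t = (a + 1 / 2 : ℝ) * t - t / 2 := by ring
  have a2 : ((a + 1 : ℤ) : ℝ) * t = (a + 1 / 2 : ℝ) * t + t / 2 := by push_cast; ring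
  rw [a1, a2, Real.cos_sub, Real.cos_add]
  ring

lemma S_abs (a : ℤ) (t : ℝ) : |S a t| ≤ 2 * |sin (t / 2)| := by
  rw [S_eq, abs_mul, abs_mul, abs_two]
  have := Real.abs_sin_le_one ((a + 1 / 2 : ℝ) * t)
  have h := mul_le_of_le_one_left (abs_nonneg (sin (t / 2))) this
  linarith

lemma S_abs' (a : ℤ) (t : ℝ) : |S a t| ≤ 2 * |((2 * a + 1 : ℤ) : ℝ)| * sin (t / 2) ^ 2 := by
  rw [S_eq, abs_mul, abs_mul, abs_two]
  have e : (a + 1 / 2 : ℝ) * t = ((2 * a + 1 : ℤ) : ℝ) * (t / 2) := by push_cast; ring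
  rw [e]
  have h := abs_sin_int (2 * a + 1) (t / 2)
  have h2 := mul_le_mul_of_nonneg_right h (abs_nonneg (sin (t / 2)))
  have h3 : |sin (t / 2)| * |sin (t / 2)| = sin (t / 2) ^ 2 := by
    rw [← abs_mul, ← sq, abs_of_nonneg (sq_nonneg _)]
  calc 2 * (|sin (((2 * a + 1 : ℤ) : ℝ) * (t / 2))| * |sin (t / 2)|)
      ≤ 2 * (|((2 * a + 1 : ℤ) : ℝ)| * |sin (t / 2)| * |sin (t / 2)|) := by linarith
    _ = 2 * |((2 * a + 1 : ℤ) : ℝ)| * (|sin (t / 2)| * |sin (t / 2)|) := by ring
    _ = _ := by rw [h3]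

lemma SS_bound (a b : ℤ) (z : ℝ × ℝ) : |S a z.1 * S b z.2 / den z.1 z.2| ≤ 2 := by
  rw [abs_div, abs_of_nonneg (den_nonneg _ _), abs_mul]
  rcases (den_nonneg z.1 z.2).eq_or_lt with h | h
  · rw [← h, div_zero]; norm_num
  · rw [div_le_iff₀ h]
    have h1 := mul_le_mul (S_abs a z.1) (S_abs b z.2) (abs_nonneg _) (by positivity)
    refine h1.trans ?_
    unfold den
    have h2 := sq_nonneg (|sin (z.1 / 2)| - |sin (z.2 / 2)|)
    have h3 := sq_abs (sin (z.1 / 2))
    have h4 := sq_abs (sin (z.2 / 2))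
    nlinarith

lemma measurable_S (a : ℤ) : Measurable (S a) := by
  unfold S
  fun_prop

lemma SS_integrable (a b : ℤ) :
    Integrable (fun z : ℝ × ℝ => S a z.1 * S b z.2 / den z.1 z.2) nu := by
  refine (integrable_const (2 : ℝ)).mono' ?_
    (Eventually.of_forall fun z => by rw [Real.norm_eq_abs]; exact SS_bound a b z)
  apply Measurable.aestronglyMeasurable
  exact (((measurable_S a).comp measurable_fst).mul ((measurable_S b).comp measurable_snd)).div
    measurable_den

/-- Mixed second difference. -/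
lemma A_mixed (a b : ℤ) : A (a + 1) (b + 1) - A (a + 1) b - A a (b + 1) + A a b =
    -((1 / π ^ 2) * ∫ z, S a z.1 * S b z.2 / den z.1 z.2 ∂nu) := by
  have h1 : A (a + 1) (b + 1) - A (a + 1) b - A a (b + 1) + A a b =
      (1 / π ^ 2) * ∫ z, (kf ((a + 1 : ℤ) : ℝ) ((b + 1 : ℤ) : ℝ) z - kf ((a + 1 : ℤ) : ℝ) b z -
        kf a ((b + 1 : ℤ) : ℝ) z + kf a b z) ∂nu := by
    rw [integral_add, integral_sub, integral_sub]
    · unfold A
      ring
    · exact kf_integrable _ _
    · exact kf_integrable _ _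
    · exact (kf_integrable _ _).sub (kf_integrable _ _)
    · exact kf_integrable _ _
    · exact ((kf_integrable _ _).sub (kf_integrable _ _)).sub (kf_integrable _ _)
    · exact kf_integrable _ _
  rw [h1, ← mul_neg, ← integral_neg]
  congr 1
  apply integral_congr_ae
  refine Eventually.of_forall fun z => ?_
  simp only [kf, S]
  ring

/-- First difference. -/
lemma A_diff (a b : ℤ) : A (a + 1) b - A a b =
    (1 / π ^ 2) * ∫ z, S a z.1 * cos (b * z.2) / den z.1 z.2 ∂nu := by
  have h1 : A (a + 1) b - A a b =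
      (1 / π ^ 2) * ∫ z, (kf ((a + 1 : ℤ) : ℝ) b z - kf a b z) ∂nu := by
    rw [integral_sub (kf_integrable _ _) (kf_integrable _ _)]
    unfold A
    ring
  rw [h1]
  congr 1
  apply integral_congr_ae
  refine Eventually.of_forall fun z => ?_
  simp only [kf, S]
  ring

end Kernel

end RotorNE
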