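import Pool.Agent.Lib.MP_936783_pr.KernelA

/-!
# The potential kernel of `ℤ²`: decay of the differences
-/

open MeasureTheory Filter Set Real

open scoped Topology

noncomputable section

namespace RotorNE

namespace Kernel

/-- Inner integral. -/
def R (a : ℤ) (φ : ℝ) : ℝ := ∫ t, S a t / den t φ ∂mu

lemma measurable_den_left (φ : ℝ) : Measurable fun t : ℝ => den t φ := by
  unfold den
  fun_prop

lemma measurable_den_right (t : ℝ) : Measurable fun φ : ℝ => den t φ := by
  unfold den
  fun_prop

lemma tendsto_R {φ : ℝ} (hφ : φ ∈ Ioc 0 π) : Tendsto (fun a : ℕ => R a φ) atTop (𝓝 0) := by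
  set f : ℝ → ℝ := indicator (Ioc 0 π) (fun t => 2 * sin (t / 2) / den t φ) with hf
  have hc := sin_half_pos hφ
  have hbd : ∀ t : ℝ, |2 * sin (t / 2) / den t φ| ≤ 2 / sin (φ / 2) ^ 2 := by
    intro t
    have hden : sin (φ / 2) ^ 2 ≤ den t φ := by
      unfold den
      have := sq_nonneg (sin (t / 2))
      linarith
    have h2 : 0 < sin (φ / 2) ^ 2 := by positivity
    rw [abs_div, abs_of_nonneg (den_nonneg _ _), abs_mul, abs_two]
    have h3 := Real.abs_sin_le_one (t / 2)
    exact div_le_div₀ (by norm_num) (by linarith) h2 hden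
  have hint : Integrable f := by
    rw [hf, integrable_indicator_iff measurableSet_Ioc]
    have : IsFiniteMeasure (volume.restrict (Ioc 0 π)) := by infer_instance
    refine (integrable_const (2 / sin (φ / 2) ^ 2)).mono' ?_
      (Eventually.of_forall fun t => by rw [Real.norm_eq_abs]; exact hbd t)
    apply Measurable.aestronglyMeasurable
    exact (by fun_prop : Measurable fun t : ℝ => 2 * sin (t / 2)).div (measurable_den_left φ)
  have h1 := rl_sin hint
  have h2 : Tendsto (fun a : ℕ => (a : ℝ) + 1 / 2) atTop atTop :=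
    tendsto_atTop_add_const_right _ _ tendsto_natCast_atTop_atTop
  refine (h1.comp h2).congr fun a => ?_
  simp only [Function.comp]
  unfold R mu
  rw [← integral_indicator measurableSet_Ioc]
  apply integral_congr_ae
  refine Eventually.of_forall fun t => ?_
  by_cases ht : t ∈ Ioc 0 π
  · simp only [hf, indicator_of_mem ht]
    rw [S_eq]
    push_cast
    ring
  · simp only [hf, indicator_of_notMem ht, mul_zero]

/-- Weight. -/
def W (a : ℤ) (φ : ℝ) : ℝ := 2 * |sin (φ / 2)| * |R a φ|

lemma W_bound (a : ℤ) (φ : ℝ) : ‖W a φ‖ ≤ 2 * mu.real univ := by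
  have h1 : W a φ = ‖∫ t, (2 * |sin (φ / 2)|) * (S a t / den t φ) ∂mu‖ := by
    rw [integral_const_mul, norm_mul]
    unfold W R
    rw [Real.norm_eq_abs, Real.norm_eq_abs, abs_mul, abs_two, abs_abs]
  rw [h1, norm_norm]
  refine norm_integral_le_of_norm_le_const (Eventually.of_forall fun t => ?_)
  rw [Real.norm_eq_abs, abs_mul, abs_div, abs_of_nonneg (den_nonneg _ _), abs_mul, abs_two,
    abs_abs, mul_div_assoc']
  rcases (den_nonneg t φ).eq_or_lt with h | h
  · rw [← h, div_zero]; norm_num
  · rw [div_le_iff₀ h]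
    have h2 := mul_le_mul_of_nonneg_left (S_abs a t) (show 0 ≤ 2 * |sin (φ / 2)| by positivity)
    refine h2.trans ?_
    unfold den
    have h3 := sq_nonneg (|sin (t / 2)| - |sin (φ / 2)|)
    have h4 := sq_abs (sin (t / 2))
    have h5 := sq_abs (sin (φ / 2))
    nlinarith

lemma measurable_W (a : ℤ) : StronglyMeasurable (W a) := by
  have h1 : StronglyMeasurable (fun φ : ℝ => R a φ) := by
    unfold R
    have h2 : StronglyMeasurable (Function.uncurry fun (t φ : ℝ) => S a t / den t φ) := by
      apply Measurable.stronglyMeasurable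
      exact ((measurable_S a).comp measurable_fst).div measurable_den
    exact h2.integral_prod_left
  unfold W
  have h3 : StronglyMeasurable fun φ : ℝ => 2 * |sin (φ / 2)| :=
    (by fun_prop : Measurable fun φ : ℝ => 2 * |sin (φ / 2)|).stronglyMeasurable
  exact h3.mul (by simpa only [Real.norm_eq_abs] using h1.norm)

lemma W_integrable (a : ℤ) : Integrable (W a) mu :=
  (integrable_const (2 * mu.real univ)).mono' (measurable_W a).aestronglyMeasurable
    (Eventually.of_forall fun φ => W_bound a φ)

lemma tendsto_W : Tendsto (fun a : ℕ => ∫ φ, W a φ ∂mu) atTop (𝓝 0) := by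
  have h := tendsto_integral_of_dominated_convergence (μ := mu) (F := fun (a : ℕ) φ => W a φ)
    (f := fun _ => (0 : ℝ)) (fun _ => 2 * mu.real univ)
    (fun a => (measurable_W a).aestronglyMeasurable) (integrable_const _)
    (fun a => Eventually.of_forall fun φ => W_bound a φ) ?_
  · simpa using h
  · have hm : ∀ᵐ t ∂mu, t ∈ Ioc 0 π := ae_restrict_mem measurableSet_Ioc
    filter_upwards [hm] with φ hφ
    unfold W
    have := (tendsto_R hφ).abs.const_mul (2 * |sin (φ / 2)|)
    simpa using this

/-- The mixed second difference. -/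
def D (a b : ℤ) : ℝ := A (a + 1) (b + 1) - A (a + 1) b - A a (b + 1) + A a b

lemma D_le_W (a b : ℤ) : |D a b| ≤ (1 / π ^ 2) * ∫ φ, W a φ ∂mu := by
  have h1 : ∫ z, S a z.1 * S b z.2 / den z.1 z.2 ∂nu = ∫ φ, S b φ * R a φ ∂mu := by
    have h := integral_prod_symm (μ := mu) (ν := mu)
      (fun z : ℝ × ℝ => S a z.1 * S b z.2 / den z.1 z.2) (SS_integrable a b)
    unfold nu
    rw [h]
    apply integral_congr_ae
    refine Eventually.of_forall fun φ => ?_
    simp only [R]
    rw [← integral_const_mul]
    apply integral_congr_ae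
    refine Eventually.of_forall fun t => ?_
    simp only
    ring
  unfold D
  rw [A_mixed, h1, abs_neg, abs_mul, abs_of_pos (by positivity : (0:ℝ) < 1 / π ^ 2)]
  apply mul_le_mul_of_nonneg_left _ (by positivity)
  rw [← Real.norm_eq_abs]
  refine norm_integral_le_of_norm_le (W_integrable a) (Eventually.of_forall fun φ => ?_)
  rw [Real.norm_eq_abs, abs_mul]
  unfold W
  exact mul_le_mul_of_nonneg_right (S_abs b φ) (abs_nonneg _)

/-- The mixed differences decay uniformly. -/
lemma D_decay {ε : ℝ} (hε : 0 < ε) : ∃ N : ℕ, ∀ a b : ℤ, (N : ℤ) ≤ a → |D a b| ≤ ε := by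
  have h := (tendsto_W.const_mul (1 / π ^ 2))
  rw [mul_zero] at h
  obtain ⟨N, hN⟩ := eventually_atTop.1 (h.eventually_le_const hε)
  refine ⟨N, fun a b ha => (D_le_W a b).trans ?_⟩
  have h2 := hN a.toNat (by omega)
  have e : ((a.toNat : ℕ) : ℤ) = a := Int.toNat_of_nonneg (by omega)
  rw [e] at h2
  exact h2

/-- Inner integral. -/
def Q (b : ℤ) (t : ℝ) : ℝ := ∫ φ, cos (b * φ) / den t φ ∂mu

lemma tendsto_Q {t : ℝ} (ht : t ∈ Ioc 0 π) : Tendsto (fun b : ℕ => Q b t) atTop (𝓝 0) := by
  set f : ℝ → ℝ := indicator (Ioc 0 π) (fun φ => 1 / den t φ) with hf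
  have hc := sin_half_pos ht
  have hbd : ∀ φ : ℝ, |1 / den t φ| ≤ 1 / sin (t / 2) ^ 2 := by
    intro φ
    have hden : sin (t / 2) ^ 2 ≤ den t φ := by
      unfold den
      have := sq_nonneg (sin (φ / 2))
      linarith
    have h2 : 0 < sin (t / 2) ^ 2 := by positivity
    rw [abs_div, abs_of_nonneg (den_nonneg _ _), abs_one]
    exact div_le_div₀ (by norm_num) le_rfl h2 hden
  have hint : Integrable f := by
    rw [hf, integrable_indicator_iff measurableSet_Ioc]
    have : IsFiniteMeasure (volume.restrict (Ioc 0 π)) := by infer_instance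
    refine (integrable_const (1 / sin (t / 2) ^ 2)).mono' ?_
      (Eventually.of_forall fun t => by rw [Real.norm_eq_abs]; exact hbd t)
    apply Measurable.aestronglyMeasurable
    exact measurable_const.div (measurable_den_right t)
  have h1 := rl_cos hint
  refine (h1.comp tendsto_natCast_atTop_atTop).congr fun b => ?_
  simp only [Function.comp]
  unfold Q mu
  rw [← integral_indicator measurableSet_Ioc]
  apply integral_congr_ae
  refine Eventually.of_forall fun φ => ?_
  by_cases hφ : φ ∈ Ioc 0 π
  · simp only [hf, indicator_of_mem hφ]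
    push_cast
    ring
  · simp only [hf, indicator_of_notMem hφ, mul_zero]

lemma SC_bound (a b : ℤ) (z : ℝ × ℝ) :
    |S a z.1 * cos (b * z.2) / den z.1 z.2| ≤ 2 * |((2 * a + 1 : ℤ) : ℝ)| := by
  rw [abs_div, abs_of_nonneg (den_nonneg _ _), abs_mul]
  rcases (den_nonneg z.1 z.2).eq_or_lt with h | h
  · rw [← h, div_zero]; positivity
  · rw [div_le_iff₀ h]
    have h1 := mul_le_mul (S_abs' a z.1) (Real.abs_cos_le_one (b * z.2)) (abs_nonneg _)
      (by positivity)
    refine h1.trans ?_
    rw [mul_one]
    unfold den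
    apply mul_le_mul_of_nonneg_left _ (by positivity)
    have := sq_nonneg (sin (z.2 / 2))
    linarith

lemma SC_integrable (a b : ℤ) :
    Integrable (fun z : ℝ × ℝ => S a z.1 * cos (b * z.2) / den z.1 z.2) nu := by
  refine (integrable_const (2 * |((2 * a + 1 : ℤ) : ℝ)|)).mono' ?_
    (Eventually.of_forall fun z => by rw [Real.norm_eq_abs]; exact SC_bound a b z)
  apply Measurable.aestronglyMeasurable
  exact (((measurable_S a).comp measurable_fst).mul
    (by fun_prop : Measurable fun z : ℝ × ℝ => cos (b * z.2))).div measurable_den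

lemma A_diff_eq (a b : ℤ) : A (a + 1) b - A a b = (1 / π ^ 2) * ∫ t, S a t * Q b t ∂mu := by
  rw [A_diff]
  congr 1
  have h := integral_prod (μ := mu) (ν := mu)
    (fun z : ℝ × ℝ => S a z.1 * cos (b * z.2) / den z.1 z.2) (SC_integrable a b)
  unfold nu
  rw [h]
  apply integral_congr_ae
  refine Eventually.of_forall fun t => ?_
  simp only [Q]
  rw [← integral_const_mul]
  apply integral_congr_ae
  refine Eventually.of_forall fun φ => ?_
  simp only
  ring

/-- The horizontal differences tend to zero in the vertical direction. -/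
lemma A_diff_tendsto (a : ℤ) : Tendsto (fun b : ℕ => A (a + 1) b - A a b) atTop (𝓝 0) := by
  simp_rw [A_diff_eq]
  have h := tendsto_integral_of_dominated_convergence (μ := mu)
    (F := fun (b : ℕ) t => S a t * Q b t)
    (f := fun _ => (0 : ℝ)) (fun _ => 2 * |((2 * a + 1 : ℤ) : ℝ)| * mu.real univ)
    (fun b => ?_) (integrable_const _)
    (fun b => Eventually.of_forall fun t => ?_) ?_
  · have h2 := h.const_mul (1 / π ^ 2)
    simpa using h2
  · -- measurability
    apply StronglyMeasurable.aestronglyMeasurable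
    have h1 : StronglyMeasurable (fun t : ℝ => Q b t) := by
      unfold Q
      have h2 : StronglyMeasurable (Function.uncurry fun (t φ : ℝ) => cos (b * φ) / den t φ) := by
        apply Measurable.stronglyMeasurable
        exact (by fun_prop : Measurable fun z : ℝ × ℝ => cos (b * z.2)).div measurable_den
      exact h2.integral_prod_right
    exact (measurable_S a).stronglyMeasurable.mul h1
  · have h1 : S a t * Q b t = ∫ φ, S a t * (cos (b * φ) / den t φ) ∂mu := by
      rw [integral_const_mul]
      rfl
    rw [h1]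
    refine norm_integral_le_of_norm_le_const (Eventually.of_forall fun φ => ?_)
    rw [Real.norm_eq_abs, mul_div_assoc']
    exact SC_bound a b (t, φ)
  · have hm : ∀ᵐ t ∂mu, t ∈ Ioc 0 π := ae_restrict_mem measurableSet_Ioc
    filter_upwards [hm] with t ht
    have := (tendsto_Q ht).const_mul (S a t)
    simpa using this

end Kernel

end RotorNE
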