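import Pool.Agent.Lib.MP_936783_pr.KernelB

/-!
# The potential kernel of `ℤ²`: signs of the differences, gradient bound, uniqueness
-/

open Filter

open scoped Topology

noncomputable section

namespace RotorNE

namespace Kernel

/-! ### Mixed differences are negative -/

lemma D_symm (a b : ℤ) : D b a = D a b := by
  unfold D
  rw [A_symm (a + 1) (b + 1), A_symm a (b + 1), A_symm (a + 1) b, A_symm a b]
  ring

lemma D_neg (a b : ℤ) : D (-1 - a) b = -D a b := by
  unfold D
  have e1 : (-1 - a + 1 : ℤ) = -a := by ring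
  have e2 : (-1 - a : ℤ) = -(a + 1) := by ring
  rw [e1, e2, A_neg, A_neg, A_neg, A_neg]
  ring

lemma D_neg' (a b : ℤ) : D a (-1 - b) = -D a b := by
  rw [D_symm (-1 - b) a, D_neg, D_symm]

lemma D_lap (a b : ℤ) (ha : 0 ≤ a) (hb : 0 ≤ b) :
    D (a + 1) b + D (a - 1) b + D a (b + 1) + D a (b - 1) - 4 * D a b =
      if a = 0 ∧ b = 0 then 4 else 0 := by
  have h1 := A_lap (a + 1) (b + 1)
  have h2 := A_lap (a + 1) b
  have h3 := A_lap a (b + 1)
  have h4 := A_lap a b
  rw [if_neg (by omega)] at h1 h2 h3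
  unfold D
  rw [← h4]
  have e1 : (a + 1 - 1 : ℤ) = a := by ring
  have e2 : (b + 1 - 1 : ℤ) = b := by ring
  have e3 : (a - 1 + 1 : ℤ) = a := by ring
  have e4 : (b - 1 + 1 : ℤ) = b := by ring
  rw [e1, e2] at h1
  rw [e1] at h2
  rw [e2] at h3
  rw [e3, e4]
  linarith

lemma D_nonpos (a b : ℤ) (ha : 0 ≤ a) (hb : 0 ≤ b) : D a b ≤ 0 := by
  by_contra hpos
  push Not at hpos
  obtain ⟨N, hN⟩ := D_decay (half_pos hpos)
  have hN' : ∀ x y : ℤ, (N : ℤ) ≤ y → |D x y| ≤ D a b / 2 := fun x y hy => by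
    rw [← D_symm]; exact hN y x hy
  -- a maximiser
  obtain ⟨p, hp, hmax⟩ := Finset.exists_max_image ((Finset.Icc (0:ℤ) N) ×ˢ (Finset.Icc (0:ℤ) N))
    (fun p => D p.1 p.2) ⟨(0, 0), by simp⟩
  rw [Finset.mem_product, Finset.mem_Icc, Finset.mem_Icc] at hp
  have hab : a ≤ N ∧ b ≤ N := by
    constructor
    · by_contra h
      have := (abs_le.1 (hN a b (by omega))).2
      linarith
    · by_contra h
      have := (abs_le.1 (hN' a b (by omega))).2
      linarith
  have hm : D a b ≤ D p.1 p.2 :=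
    hmax (a, b) (by rw [Finset.mem_product, Finset.mem_Icc, Finset.mem_Icc]; exact ⟨⟨ha, hab.1⟩, hb, hab.2⟩)
  set m := D p.1 p.2 with hmdef
  have hle : ∀ x y : ℤ, 0 ≤ x → 0 ≤ y → D x y ≤ m := by
    intro x y hx hy
    by_cases h1 : x ≤ N
    · by_cases h2 : y ≤ N
      · exact hmax (x, y) (by
          rw [Finset.mem_product, Finset.mem_Icc, Finset.mem_Icc]; exact ⟨⟨hx, h1⟩, hy, h2⟩)
      · have := (abs_le.1 (hN' x y (by omega))).2
        linarith
    · have := (abs_le.1 (hN x y (by omega))).2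
      linarith
  have key : ∀ k : ℕ, D (p.1 + k) p.2 = m := by
    intro k
    induction k with
    | zero => simp [hmdef]
    | succ k ih =>
      have hx : 0 ≤ p.1 + k := by omega
      have hlap := D_lap (p.1 + k) p.2 hx hp.2.1
      have hge : (0 : ℝ) ≤ if p.1 + (k : ℤ) = 0 ∧ p.2 = 0 then (4 : ℝ) else 0 := by
        split_ifs <;> norm_num
      rw [← hlap] at hge
      have h1 := hle (p.1 + k + 1) p.2 (by omega) hp.2.1
      have h2 : D (p.1 + k - 1) p.2 ≤ m := by
        by_cases h : 1 ≤ p.1 + (k : ℤ)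
        · exact hle _ _ (by omega) hp.2.1
        · have e : p.1 + (k : ℤ) - 1 = -1 - (p.1 + k) := by omega
          rw [e, D_neg, ih]
          linarith
      have h3 := hle (p.1 + k) (p.2 + 1) hx (by omega)
      have h4 : D (p.1 + k) (p.2 - 1) ≤ m := by
        by_cases h : 1 ≤ p.2
        · exact hle _ _ hx (by omega)
        · have e : p.2 - 1 = -1 - p.2 := by omega
          rw [e, D_neg', ih]
          linarith
      rw [ih] at hge
      have e : p.1 + ((k + 1 : ℕ) : ℤ) = p.1 + k + 1 := by push_cast; ring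
      rw [e]
      linarith
  have := (abs_le.1 (hN (p.1 + N) p.2 (by omega))).2
  rw [key N] at this
  linarith

lemma D_ne (n : ℕ) : ∀ a b : ℕ, a + b = n → D a b ≠ 0 := by
  induction n with
  | zero =>
    intro a b hab h
    obtain ⟨rfl, rfl⟩ : a = 0 ∧ b = 0 := by omega
    have hlap := D_lap 0 0 le_rfl le_rfl
    rw [if_pos ⟨rfl, rfl⟩] at hlap
    push_cast at h
    have e1 : D (0 - 1) 0 = 0 := by
      have := D_neg 0 0
      simp only [sub_zero] at this
      rw [zero_sub, this, h, neg_zero]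
    have e2 : D 0 (0 - 1) = 0 := by
      have := D_neg' 0 0
      simp only [sub_zero] at this
      rw [zero_sub, this, h, neg_zero]
    have h1 := D_nonpos (0 + 1) 0 (by norm_num) le_rfl
    have h2 := D_nonpos 0 (0 + 1) le_rfl (by norm_num)
    rw [e1, e2, h] at hlap
    linarith
  | succ n ih =>
    intro a b hab h
    have hlap := D_lap a b (by omega) (by omega)
    have hge : (0 : ℝ) ≤ if (a : ℤ) = 0 ∧ (b : ℤ) = 0 then (4 : ℝ) else 0 := by
      split_ifs <;> norm_num
    rw [← hlap, h] at hge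
    have h1 := D_nonpos (a + 1) b (by omega) (by omega)
    have h3 := D_nonpos a (b + 1) (by omega) (by omega)
    have h2 : D (a - 1) b ≤ 0 := by
      by_cases ha : 1 ≤ a
      · exact D_nonpos _ _ (by omega) (by omega)
      · have e : (a : ℤ) - 1 = -1 - a := by omega
        rw [e, D_neg, h, neg_zero]
    have h4 : D a (b - 1) ≤ 0 := by
      by_cases hb : 1 ≤ b
      · exact D_nonpos _ _ (by omega) (by omega)
      · have e : (b : ℤ) - 1 = -1 - b := by omega
        rw [e, D_neg', h, neg_zero]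
    by_cases ha : 1 ≤ a
    · have := ih (a - 1) b (by omega)
      apply this
      have e : ((a - 1 : ℕ) : ℤ) = a - 1 := by omega
      rw [e]
      linarith
    · have := ih a (b - 1) (by omega)
      apply this
      have e : ((b - 1 : ℕ) : ℤ) = b - 1 := by omega
      rw [e]
      linarith

/-- The mixed second differences are negative in the quadrant. -/
theorem D_lt (a b : ℤ) (ha : 0 ≤ a) (hb : 0 ≤ b) : D a b < 0 := by
  obtain ⟨m, rfl⟩ := Int.eq_ofNat_of_zero_le ha
  obtain ⟨n, rfl⟩ := Int.eq_ofNat_of_zero_le hb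
  exact lt_of_le_of_ne (D_nonpos _ _ ha hb) (D_ne (m + n) m n rfl)

/-! ### First differences -/

/-- Horizontal difference in the quadrant. -/
def h (a b : ℕ) : ℝ := A (a + 1) b - A a b

lemma h_succ_lt (a b : ℕ) : h a (b + 1) < h a b := by
  have := D_lt a b (by omega) (by omega)
  unfold D at this
  unfold h
  push_cast
  linarith

lemma h_anti (a : ℕ) : Antitone (h a) := antitone_nat_of_succ_le fun b => (h_succ_lt a b).le

lemma h_nonneg (a b : ℕ) : 0 ≤ h a b := by
  have := (h_anti a).le_of_tendsto (A_diff_tendsto a) b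
  exact this

lemma h_pos (a b : ℕ) : 0 < h a b := (h_nonneg a (b + 1)).trans_lt (h_succ_lt a b)

/-- Vertical differences by symmetry. -/
lemma vert (a b : ℕ) : A a (b + 1) - A a b = h b a := by
  unfold h
  rw [A_symm a (b + 1), A_symm a b]

lemma A_neg' (x y : ℤ) : A x (-y) = A x y := by
  rw [A_symm (-y) x, A_neg, A_symm]

lemma A_one : A 1 0 = 1 := by
  have := A_lap 0 0
  rw [if_pos ⟨rfl, rfl⟩, A_zero] at this
  have e1 : A (0 - 1) 0 = A 1 0 := by rw [zero_sub, A_neg]
  have e2 : A 0 (0 - 1) = A 1 0 := by rw [zero_sub, A_neg', A_symm]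
  have e3 : A 0 (0 + 1) = A 1 0 := by rw [zero_add, A_symm]
  rw [e1, e2, e3, zero_add] at this
  linarith

lemma h_zero : h 0 0 = 1 := by
  unfold h
  push_cast
  rw [A_one, A_zero, sub_zero]

/-! ### Flux -/

/-- Flux through a vertical segment. -/
def H (a b : ℕ) : ℝ := h a 0 + 2 * ∑ j ∈ Finset.range b, h a (j + 1)

lemma H_succ (a b : ℕ) : H a (b + 1) = H a b + 2 * h a (b + 1) := by
  unfold H
  rw [Finset.sum_range_succ]
  ring

/-- Harmonicity in terms of differences. -/
lemma harm (a b : ℕ) : h (a + 1) (b + 1) - h a (b + 1) + (h (b + 1) (a + 1) - h b (a + 1)) = 0 := by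
  have := A_lap (a + 1) (b + 1)
  rw [if_neg (by omega)] at this
  have e1 : (a + 1 - 1 : ℤ) = a := by ring
  have e2 : (b + 1 - 1 : ℤ) = b := by ring
  rw [e1, e2] at this
  have v1 := vert (a + 1) (b + 1)
  have v2 := vert (a + 1) b
  rw [← v1, ← v2]
  unfold h
  push_cast
  linarith

lemma harm0 (a : ℕ) : h (a + 1) 0 - h a 0 + 2 * h 0 (a + 1) = 0 := by
  have := A_lap (a + 1) 0
  rw [if_neg (by omega)] at this
  have e1 : (a + 1 - 1 : ℤ) = a := by ring
  have e2 : A (a + 1) (0 - 1) = A (a + 1) 1 := by rw [zero_sub, A_neg']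
  rw [e1, e2, zero_add] at this
  have v1 := vert (a + 1) 0
  rw [← v1]
  unfold h
  push_cast at *
  linarith

lemma H_step (a b : ℕ) : H (a + 1) b = H a b - 2 * h b (a + 1) := by
  induction b with
  | zero =>
    have := harm0 a
    unfold H
    simp only [Finset.range_zero, Finset.sum_empty, mul_zero, add_zero]
    linarith
  | succ b ih =>
    rw [H_succ, H_succ, ih]
    have := harm a b
    linarith

lemma flux (a b : ℕ) : H a b + H b a = 2 := by
  induction a with
  | zero =>
    induction b with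
    | zero =>
      unfold H
      simp only [Finset.range_zero, Finset.sum_empty, mul_zero, add_zero]
      rw [h_zero]
      norm_num
    | succ b ih =>
      rw [H_step b 0, H_succ]
      linarith
  | succ a ih =>
    rw [H_step a b, H_succ]
    linarith

lemma H_ge (a b : ℕ) : (2 * b + 1) * h a b ≤ H a b := by
  induction b with
  | zero => simp [H]
  | succ b ih =>
    rw [H_succ]
    have h1 := h_succ_lt a b
    have h2 : (2 * (b : ℝ) + 1) * h a (b + 1) ≤ (2 * b + 1) * h a b :=
      mul_le_mul_of_nonneg_left h1.le (by positivity)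
    push_cast
    linarith

lemma h_le (a b : ℕ) : h a b ≤ 2 / (2 * b + 1) := by
  rw [le_div_iff₀ (by positivity)]
  have h1 := H_ge a b
  have h2 := flux a b
  have h3 := H_ge b a
  have h4 : 0 ≤ (2 * (a : ℝ) + 1) * h b a := mul_nonneg (by positivity) (h_nonneg _ _)
  linarith

lemma h_axis_anti : Antitone fun a => h a 0 := by
  apply antitone_nat_of_succ_le
  intro a
  have := harm0 a
  have := h_pos 0 (a + 1)
  linarith

lemma sum_h (a n b : ℕ) : A ((a + n : ℕ) : ℤ) b - A a b = ∑ j ∈ Finset.range n, h (a + j) b := by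
  induction n with
  | zero => simp
  | succ n ih =>
    rw [Finset.sum_range_succ, ← ih]
    unfold h
    push_cast
    have : (a : ℤ) + (n + 1) = a + n + 1 := by ring
    rw [this]
    ring

lemma sum_v (a n b : ℕ) : A a ((b + n : ℕ) : ℤ) - A a b = ∑ j ∈ Finset.range n, h (b + j) a := by
  rw [← sum_h b n a, A_symm a ((b + n : ℕ) : ℤ), A_symm a b]

lemma A_mono_y (a b : ℕ) : A a 0 ≤ A a b := by
  have := sum_v a b 0
  rw [zero_add] at this
  have h2 : 0 ≤ ∑ j ∈ Finset.range b, h (0 + j) a := Finset.sum_nonneg fun j _ => h_nonneg _ _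
  push_cast at this
  linarith

lemma dyadic (a : ℕ) : (a : ℝ) * h (2 * a) 0 ≤ 2 := by
  have h1 : (a : ℝ) * h (2 * a) 0 ≤ ∑ j ∈ Finset.range a, h (a + j) 0 := by
    have : ∑ j ∈ Finset.range a, h (2 * a) 0 ≤ ∑ j ∈ Finset.range a, h (a + j) 0 := by
      apply Finset.sum_le_sum
      intro j hj
      rw [Finset.mem_range] at hj
      exact h_axis_anti (by omega)
    rw [Finset.sum_const, Finset.card_range, nsmul_eq_mul] at this
    exact this
  have h2 := sum_h a a 0
  have h3 := sum_h a a a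
  have h4 := A_mono_y (a + a) a
  have h5 := sum_v a a 0
  have b1 : ∑ j ∈ Finset.range a, h (a + j) a ≤ a * (2 / (2 * a + 1)) := by
    have : ∑ j ∈ Finset.range a, h (a + j) a ≤ ∑ _j ∈ Finset.range a, (2 / (2 * (a : ℝ) + 1)) :=
      Finset.sum_le_sum fun j _ => h_le _ _
    rw [Finset.sum_const, Finset.card_range, nsmul_eq_mul] at this
    exact this
  have b2 : ∑ j ∈ Finset.range a, h (0 + j) a ≤ a * (2 / (2 * a + 1)) := by
    have : ∑ j ∈ Finset.range a, h (0 + j) a ≤ ∑ _j ∈ Finset.range a, (2 / (2 * (a : ℝ) + 1)) :=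
      Finset.sum_le_sum fun j _ => h_le _ _
    rw [Finset.sum_const, Finset.card_range, nsmul_eq_mul] at this
    exact this
  have b3 : (a : ℝ) * (2 / (2 * a + 1)) ≤ 1 := by
    rw [mul_div_assoc', div_le_one (by positivity)]
    linarith
  rw [zero_add] at h5
  push_cast at h2 h3 h4 h5
  linarith

lemma h_axis_le (m : ℕ) : h m 0 ≤ 8 / (m + 1) := by
  rw [le_div_iff₀ (by positivity)]
  by_cases hm : 2 ≤ m
  · obtain ⟨a, ha⟩ : ∃ a, a = m / 2 := ⟨_, rfl⟩
    have h1 := dyadic a
    have h2 : h m 0 ≤ h (2 * a) 0 := h_axis_anti (by omega)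
    have h3 : m + 1 ≤ 4 * a := by omega
    have h4 : (m : ℝ) + 1 ≤ 4 * a := by exact_mod_cast h3
    have h5 := h_nonneg m 0
    have h6 := h_nonneg (2 * a) 0
    calc h m 0 * (m + 1) ≤ h (2 * a) 0 * (4 * a) := mul_le_mul h2 h4 (by positivity) h6
      _ = 4 * (a * h (2 * a) 0) := by ring
      _ ≤ 8 := by linarith
  · have h1 : h m 0 ≤ h 0 0 := h_axis_anti (Nat.zero_le _)
    rw [h_zero] at h1
    have h2 : (m : ℝ) + 1 ≤ 2 := by
      have : m + 1 ≤ 2 := by omega
      exact_mod_cast this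
    have h5 := h_nonneg m 0
    nlinarith

/-- Gradient bound in the quadrant. -/
lemma h_bound (a b : ℕ) : h a b ≤ 8 / (1 + max (a : ℝ) b) := by
  rcases le_total (a : ℝ) b with hab | hab
  · rw [max_eq_right hab]
    refine (h_le a b).trans ?_
    rw [div_le_div_iff₀ (by positivity) (by positivity)]
    have : (0 : ℝ) ≤ b := by positivity
    linarith
  · rw [max_eq_left hab]
    have h1 := h_anti a (Nat.zero_le b)
    refine h1.trans ((h_axis_le a).trans_eq ?_)
    rw [add_comm]

/-- Gradient bound. -/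
theorem grad_x (x y : ℤ) : |A (x + 1) y - A x y| ≤ 16 / (1 + max |(x : ℝ)| |(y : ℝ)|) := by
  -- reduction to `y ≥ 0`
  obtain ⟨b, hb⟩ : ∃ b : ℕ, y = b ∨ y = -b := y.eq_nat_or_neg
  have hyA : ∀ z : ℤ, A z y = A z b := by
    intro z
    rcases hb with h | h <;> rw [h]
    rw [A_neg']
  have hyb : |(y : ℝ)| = b := by
    rcases hb with h | h <;> rw [h] <;> simp
  rw [hyA, hyA, hyb]
  rcases le_or_gt 0 x with hx | hx
  · obtain ⟨a, rfl⟩ := Int.eq_ofNat_of_zero_le hx
    have h1 := h_bound a b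
    have h2 := h_nonneg a b
    unfold h at h1 h2
    rw [abs_of_nonneg h2]
    refine h1.trans ?_
    simp only [Int.cast_natCast, Nat.abs_cast]
    gcongr
    norm_num
  · obtain ⟨a, ha⟩ : ∃ a : ℕ, x = -(a + 1) := ⟨(-x - 1).toNat, by omega⟩
    have h1 := h_bound a b
    have h2 := h_nonneg a b
    unfold h at h1 h2
    have e1 : A (x + 1) b = A a b := by
      have : x + 1 = -(a : ℤ) := by rw [ha]; ring
      rw [this, A_neg]
    have e2 : A x b = A (a + 1) b := by rw [ha, A_neg]
    rw [e1, e2, abs_sub_comm, abs_of_nonneg h2]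
    refine h1.trans ?_
    have e3 : |(x : ℝ)| = a + 1 := by
      rw [ha]
      push_cast
      rw [abs_neg, abs_of_nonneg (by positivity)]
    rw [e3, div_le_div_iff₀ (by positivity) (by positivity)]
    have h3 : max ((a : ℝ) + 1) b ≤ max (a : ℝ) b + 1 := by
      apply max_le
      · have := le_max_left (a : ℝ) b
        linarith
      · have := le_max_right (a : ℝ) b
        linarith
    have h4 : (0 : ℝ) ≤ max (a : ℝ) b := le_max_of_le_left (by positivity)
    linarith

theorem grad_y (x y : ℤ) : |A x (y + 1) - A x y| ≤ 16 / (1 + max |(x : ℝ)| |(y : ℝ)|) := by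
  have h1 := grad_x y x
  rw [A_symm x (y + 1), A_symm x y, max_comm] at h1
  exact h1

theorem A_strict_x (a b : ℤ) (ha : 0 ≤ a) : A a b < A (a + 1) b := by
  obtain ⟨m, rfl⟩ := Int.eq_ofNat_of_zero_le ha
  obtain ⟨n, hn | hn⟩ := b.eq_nat_or_neg
  · rw [hn]
    have := h_pos m n
    unfold h at this
    linarith
  · rw [hn, A_neg', A_neg']
    have := h_pos m n
    unfold h at this
    linarith

theorem A_nonneg (x y : ℤ) : 0 ≤ A x y := by
  obtain ⟨m, hm⟩ := x.eq_nat_or_neg
  obtain ⟨n, hn⟩ := y.eq_nat_or_neg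
  have e : A x y = A m n := by
    rcases hm with h | h <;> rcases hn with h' | h' <;> rw [h, h'] <;>
      simp only [A_neg, A_neg']
  rw [e]
  have h1 := sum_h 0 m n
  have h2 := sum_v 0 n 0
  have h3 : 0 ≤ ∑ j ∈ Finset.range m, h (0 + j) n := Finset.sum_nonneg fun j _ => h_nonneg _ _
  have h4 : 0 ≤ ∑ j ∈ Finset.range n, h (0 + j) 0 := Finset.sum_nonneg fun j _ => h_nonneg _ _
  simp only [zero_add, Nat.cast_zero] at h1 h2 h3 h4
  rw [A_zero] at h2
  linarith

theorem A_one_one : 1 < A 1 1 := by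
  have h1 := A_strict_x 0 1 le_rfl
  have h2 : A 0 1 = 1 := by rw [← A_symm, A_one]
  rw [zero_add] at h1
  linarith

end Kernel

end RotorNE
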