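import Mathlib.Tactic
import Mathlib.Data.Nat.Nth
import Mathlib.Data.Int.Interval
import Mathlib.Data.Int.ConditionallyCompleteOrder
import Mathlib.Data.Int.Star
import Mathlib.Algebra.Order.Star.Real
import Mathlib.Analysis.SpecialFunctions.Integrals.Basic
import Mathlib.Analysis.Fourier.RiemannLebesgueLemma
import Mathlib.Analysis.SpecificLimits.Basic
import Mathlib.Analysis.Asymptotics.SpecificAsymptotics
import Mathlib.MeasureTheory.Integral.Prod
import Mathlib.MeasureTheory.Measure.Lebesgue.Basic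
import Pool.Agent.Lib.MP_936783_pr.ExF
import Pool.Agent.Lib.MP_936783_pr.ExFf
import Pool.Agent.Lib.MP_936783_pr.ExNS

noncomputable section

namespace RotorNE

theorem ctxF : CtxFStmt := fun _ _ _ _ _ _ c h1 h2 _ _ a1 a2 a3 a4 => c.F h1 h2 a1 a2 a3 a4

theorem tiles : Tiles where
  nl _ hf _ _ ha hb _ hz h := tile_nl hf ha hb hz h
  nh _ hf _ _ ha hb _ hz h := tile_nh hf ha hb hz h
  sl _ hf _ _ ha hb _ hz h := tile_sl hf ha hb hz h
  sh _ hf _ _ ha hb _ hz h := tile_sh hf ha hb hz h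
  fl _ hf _ _ ha hb _ _ h := tile_fl ctxF hf ha hb h
  fh _ hf _ _ ha hb _ _ h := tile_fh ctxF hf ha hb h

end RotorNE
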